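import Pool.Agent.Q16.SQ.Stm5

/-! Project SQ (helper16), MP_a03157_co, job RCA. -/

set_option autoImplicit false

open scoped BigOperators
open Pool.Agent.Helper549.Tri

namespace Pool.Agent.Q160.SQR

open Q16.SQ

/-- the analogue of the second part of `S_IDENT` -/
theorem ident0 {N : ℕ} {ℓ θ S A : Fin 3 → ℝ} {κ β : Fin 3 → Fin 3 → ℕ}
    (D : Data0 N ℓ θ S A κ β) (hall : ∀ j, A j = θ j) : ∀ j, S j = Real.sqrt N * ℓ j := by
  have t0 := D.tpos 0
  have t1 := D.tpos 1
  have t2 := D.tpos 2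
  have ts := D.tsum
  have s0 : 0 < Real.sin (θ 0) := Real.sin_pos_of_pos_of_lt_pi t0 (by linarith)
  have s2 : 0 < Real.sin (θ 2) := Real.sin_pos_of_pos_of_lt_pi t2 (by linarith)
  have l0 := D.lpos 0
  have l1 := D.lpos 1
  have key : ∀ j, S j * ℓ 0 = S 0 * ℓ j := by
    intro j
    have h1 := D.sineT j 0
    have h2 := D.sinet j 0
    rw [hall, hall] at h1
    have h3 : Real.sin (θ 0) * (S j * ℓ 0) = Real.sin (θ 0) * (S 0 * ℓ j) := by
      linear_combination ℓ 0 * h1 - S 0 * h2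
    exact mul_left_cancel₀ s0.ne' h3
  have har := D.area
  rw [hall] at har
  have h4 : (N : ℝ) * (ℓ 0 * ℓ 1) = S 0 * S 1 := by
    have h5 : Real.sin (θ 2) * ((N : ℝ) * (ℓ 0 * ℓ 1)) = Real.sin (θ 2) * (S 0 * S 1) := by
      linear_combination har
    exact mul_left_cancel₀ s2.ne' h5
  have h6 : (S 0 / ℓ 0) ^ 2 = N := by
    have h7 := key 1
    rw [div_pow, div_eq_iff (by positivity)]
    have h8 : ℓ 1 * (S 0 ^ 2) = ℓ 1 * ((N : ℝ) * ℓ 0 ^ 2) := by
      linear_combination (-S 0) * h7 - ℓ 0 * h4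
    exact mul_left_cancel₀ l1.ne' h8
  have h9 : S 0 / ℓ 0 = Real.sqrt N := by
    rw [← h6, Real.sqrt_sq (div_nonneg (D.Spos 0).le l0.le)]
  intro j
  rw [← h9, div_mul_eq_mul_div, eq_div_iff l0.ne']
  exact key j

/-- `S_MATJ` at two good corners: only entries of the third type on the first two sides. -/
theorem two_sides (h1 : S_MATJ) {N : ℕ} {ℓ θ S A : Fin 3 → ℝ} {κ β : Fin 3 → Fin 3 → ℕ}
    (D : Data0 N ℓ θ S A κ β) (hN : ¬ IsSquare N) (hall : ∀ j, A j = θ j)
    (hk : ∀ k x : Fin 3, k ≠ 2 → 0 < κ k x → x = k) :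
    ∃ p q : ℕ, 0 < p ∧ 0 < q ∧ S 0 = p * ℓ 2 ∧ S 1 = q * ℓ 2 := by
  have hS := ident0 D hall
  have hM := (h1 N hN β ℓ D.lpos (fun k => by rw [← D.side k, hS k])).2 (by
    intro k l hk2 hl
    obtain ⟨x, y, hxy, hx, hy⟩ := D.corner k l (Ne.symm hl)
    refine ⟨y, ?_, hy⟩
    have hxk : x = k := hk k x hk2 hx
    rw [← hxk]
    exact Ne.symm hxy)
  have s0 : S 0 = (β 0 2 : ℝ) * ℓ 2 := by
    rw [D.side 0, Fin.sum_univ_three, hM 0 0 (by decide) (by decide), hM 0 1 (by decide) (by decide)]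
    simp
  have s1 : S 1 = (β 1 2 : ℝ) * ℓ 2 := by
    rw [D.side 1, Fin.sum_univ_three, hM 1 0 (by decide) (by decide), hM 1 1 (by decide) (by decide)]
    simp
  refine ⟨β 0 2, β 1 2, ?_, ?_, s0, s1⟩
  · rcases Nat.eq_zero_or_pos (β 0 2) with h | h
    · exfalso
      have := D.Spos 0
      rw [s0, h] at this
      simp at this
    · exact h
  · rcases Nat.eq_zero_or_pos (β 1 2) with h | h
    · exfalso
      have := D.Spos 1
      rw [s1, h] at this
      simp at this
    · exact h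

theorem sin_a : Real.sin (Real.pi / 10) = (Real.sqrt 5 - 1) / 4 := by
  have h1 : Real.sin (Real.pi / 10) = Real.cos (2 * (Real.pi / 5)) := by
    rw [← Real.cos_pi_div_two_sub]
    congr 1
    ring
  rw [h1, Real.cos_two_mul, Real.cos_pi_div_five]
  have h2 : Real.sqrt 5 ^ 2 = 5 := Real.sq_sqrt (by norm_num)
  nlinarith

theorem sin_b : Real.sin (3 * Real.pi / 10) = (1 + Real.sqrt 5) / 4 := by
  have h1 : Real.sin (3 * Real.pi / 10) = Real.cos (Real.pi / 5) := by
    rw [← Real.cos_pi_div_two_sub]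
    congr 1
    ring
  rw [h1, Real.cos_pi_div_five]

theorem sin_c : Real.sin (7 * Real.pi / 10) = (1 + Real.sqrt 5) / 4 := by
  have h1 : 7 * Real.pi / 10 = Real.pi - 3 * Real.pi / 10 := by ring
  rw [h1, Real.sin_pi_sub, sin_b]

/-- `sin (π / 10)` and `sin (3 π / 10)` are not commensurable -/
theorem irr_ratio {p q : ℕ} (hp : 0 < p)
    (h : (q : ℝ) * ((Real.sqrt 5 - 1) / 4) = p * ((1 + Real.sqrt 5) / 4)) : False := by
  have h5 : Irrational (Real.sqrt 5) := by
    have := Nat.Prime.irrational_sqrt (show Nat.Prime 5 by norm_num)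
    simpa using this
  have h1 : ((q : ℝ) - p) * Real.sqrt 5 = p + q := by linarith
  have hp' : (0 : ℝ) < p := by exact_mod_cast hp
  have hq' : (0 : ℝ) ≤ q := Nat.cast_nonneg q
  have hne : ((q : ℝ) - p) ≠ 0 := by
    intro h0
    rw [h0, zero_mul] at h1
    linarith
  apply h5
  refine ⟨((p : ℚ) + q) / ((q : ℚ) - p), ?_⟩
  push_cast
  rw [div_eq_iff hne]
  linarith

/-- JOB RCA -/
theorem t_RCA (h1 : S_MATJ) : S_RCA := by
  intro N ℓ θ S A κ β D hN
  have hA0 := D.angles 0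
  have hA1 := D.angles 1
  have hA2 := D.angles 2
  have hA := D.Asum
  have ht := D.tsum
  refine ⟨?_, ?_, ?_⟩
  · rintro rfl
    have hall : ∀ j, A j = θ j := by
      intro j
      rw [D.angles j]
      fin_cases j <;> simp [Fin.sum_univ_three]
    have hS := ident0 D hall
    refine (h1 N hN β ℓ D.lpos ?_).1 ?_
    · intro k
      rw [← D.side k, hS k]
    · intro k l hlk
      obtain ⟨x, y, hxy, hx, hy⟩ := D.corner k l hlk.symm
      refine ⟨y, ?_, hy⟩
      rintro rfl
      apply hxy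
      revert hx
      clear * -
      revert x y
      decide
  · rintro rfl h2
    simp [Fin.sum_univ_three] at hA0 hA1 hA2
    have hall : ∀ j, A j = θ j := by
      intro j
      fin_cases j
      · exact hA0
      · exact hA1
      · change A 2 = θ 2
        linarith
    obtain ⟨p, q, hp, hq, s0, s1⟩ := two_sides h1 D hN hall (by decide)
    exact ⟨by rw [hall 2, h2], p, q, hp, hq, s0, s1, ident0 D hall 2⟩
  · rintro rfl h2 h3
    simp [Fin.sum_univ_three] at hA0 hA1 hA2
    have hall : ∀ j, A j = θ j := by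
      intro j
      fin_cases j
      · exact hA0
      · exact hA1
      · change A 2 = θ 2
        linarith
    obtain ⟨p, q, hp, hq, s0, s1⟩ := two_sides h1 D hN hall (by decide)
    have hl2 := D.lpos 2
    have h4 := D.sineT 0 1
    rw [hall, hall, s0, s1] at h4
    have h5 : (p : ℝ) * Real.sin (θ 1) = q * Real.sin (θ 0) := by
      have h6 : ℓ 2 * ((p : ℝ) * Real.sin (θ 1)) = ℓ 2 * (q * Real.sin (θ 0)) := by
        linear_combination h4
      exact mul_left_cancel₀ hl2.ne' h6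
    rcases h3 with ⟨h7, h8⟩ | ⟨h7, h8⟩
    · rw [h7, h8, sin_a, sin_c] at h5
      exact irr_ratio hp h5.symm
    · rw [h7, h8, sin_a, sin_b] at h5
      exact irr_ratio hq h5

end Pool.Agent.Q160.SQR
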