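import Pool.Agent.Q201.AR.Stm

set_option autoImplicit false

/-!
Job AR-DC (project AR of helper201): decoding 2.
-/

open FirstOrder FirstOrder.Language Pool.Agent.Helper227.EN

namespace Q160.AR.DC

open Q201.AR

variable {M : Type} [LR.Structure M] {k r : ℕ} {ι : M → M} {code : ℕ → (Fin k → M) → M}
  {S : Fin r → (Fin k → M) → Prop}

/-- `x` is an element of a chain -/
def New (k r : ℕ) (code : ℕ → (Fin k → M) → M) (x : M) : Prop := ∃ i, i < k + r ∧ ∃ t, x = code i t

theorem new_iff (h : Coded k r M ι code S) (x : M) : New k r code x ↔ ¬ ∃ a, x = ι a := by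
  constructor
  · rintro ⟨i, hi, t, hx⟩ ⟨a, ha⟩
    exact h.good.disj i t a hi (ha.symm.trans hx)
  · intro hno
    rcases h.good.surj x with h2 | h2
    · exact absurd h2 hno
    · exact h2

/-- `y` follows `x` in a chain -/
def Next (k r : ℕ) (code : ℕ → (Fin k → M) → M) (x y : M) : Prop :=
  ∃ i t, i + 1 < k + r ∧ x = code i t ∧ y = code (i + 1) t

theorem next_iff (h : Coded k r M ι code S) (x y : M) :
    Next k r code x y ↔ New k r code x ∧ New k r code y ∧ x ≠ y ∧ rr x y := by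
  constructor
  · rintro ⟨i, t, hi, hx, hy⟩
    refine ⟨⟨i, by omega, t, hx⟩, ⟨i + 1, hi, t, hy⟩, ?_, ?_⟩
    · rintro rfl
      have := (h.good.cinj i (i + 1) t t (by omega) hi (hx.symm.trans hy)).1
      omega
    · rw [h.rel]
      exact Or.inl ⟨i, t, hi, hx, hy⟩
  · rintro ⟨-, hny, hne, hR⟩
    rw [h.rel] at hR
    rcases hR with ⟨i, t, hi, hx, hy⟩ | ⟨i, t, l, -, -, -, hy⟩ | ⟨j, t, -, -, hy⟩
    · exact ⟨i, t, hi, hx, hy⟩
    · exact absurd ⟨_, hy⟩ ((new_iff h y).mp hny)
    · exact absurd hy.symm hne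

theorem init_iff (h : Coded k r M ι code S) (x : M) :
    (∃ t, x = code 0 t) ↔ New k r code x ∧ ¬ ∃ y, Next k r code y x := by
  have hk := h.kpos
  constructor
  · rintro ⟨t, hx⟩
    refine ⟨⟨0, by omega, t, hx⟩, ?_⟩
    rintro ⟨y, i, t', hi, -, hy⟩
    have := (h.good.cinj 0 (i + 1) t t' (by omega) hi (hx.symm.trans hy)).1
    omega
  · rintro ⟨⟨i, hi, t, hx⟩, hno⟩
    cases i with
    | zero => exact ⟨t, hx⟩
    | succ i => exact absurd ⟨code i t, i, t, hi, rfl, hx⟩ hno

theorem step_iff (h : Coded k r M ι code S) {i : ℕ} (hi : i + 1 < k + r) (x z : M) :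
    (∃ t, x = code (i + 1) t ∧ z = code 0 t) ↔
      ∃ y, (∃ t, y = code i t ∧ z = code 0 t) ∧ Next k r code y x := by
  constructor
  · rintro ⟨t, hx, hz⟩
    exact ⟨code i t, ⟨t, rfl, hz⟩, i, t, hi, rfl, hx⟩
  · rintro ⟨y, ⟨t, hy, hz⟩, i', t', hi', hy', hx⟩
    obtain ⟨h1, h2⟩ := h.good.cinj i i' t t' (by omega) (by omega) (hy.symm.trans hy')
    subst h1 h2
    exact ⟨t, hx, hz⟩

/-- the relation as a formula -/
noncomputable def Rf : LR.Formula (Fin 2) :=
  Relations.formula₂ (L := LR) ⟨0, rfl⟩ (Term.var 0) (Term.var 1)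

theorem real_Rf (v : Fin 2 → M) : Rf.Realize v ↔ rr (v 0) (v 1) := by
  unfold Rf rr
  rw [Formula.realize_rel₂]
  rfl

/-- equality as a formula -/
noncomputable def Ef : LR.Formula (Fin 2) := Term.equal (Term.var 0) (Term.var 1)

theorem real_Ef (v : Fin 2 → M) : Ef.Realize v ↔ v 0 = v 1 := by
  unfold Ef
  rw [Formula.realize_equal]
  rfl

/-- elements of chains -/
noncomputable def Nf (P : LR.Formula (Fin 1)) {β : Type} (b : β) : LR.Formula β :=
  (P.relabel fun _ => b).not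

theorem real_Nf {P : LR.Formula (Fin 1)} (h : Coded k r M ι code S)
    (hP : ∀ v : Fin 1 → M, P.Realize v ↔ ∃ a, v 0 = ι a) {β : Type} (b : β) (v : β → M) :
    (Nf P b).Realize v ↔ New k r code (v b) := by
  unfold Nf
  rw [Formula.realize_not, Formula.realize_relabel, hP, new_iff h]
  rfl

/-- the successor relation of the chains -/
noncomputable def Xf (P : LR.Formula (Fin 1)) : LR.Formula (Fin 2) :=
  Nf P 0 ⊓ (Nf P 1 ⊓ (Ef.not ⊓ Rf))

theorem real_Xf {P : LR.Formula (Fin 1)} (h : Coded k r M ι code S)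
    (hP : ∀ v : Fin 1 → M, P.Realize v ↔ ∃ a, v 0 = ι a) (v : Fin 2 → M) :
    (Xf P).Realize v ↔ Next k r code (v 0) (v 1) := by
  unfold Xf
  rw [Formula.realize_inf, Formula.realize_inf, Formula.realize_inf, Formula.realize_not,
    real_Nf h hP, real_Nf h hP, real_Ef, real_Rf, next_iff h]

/-- the first elements of the chains -/
noncomputable def If (P : LR.Formula (Fin 1)) {β : Type} (b : β) : LR.Formula β :=
  Nf P b ⊓ (Formula.iExs (Fin 1) ((Xf P).relabel ![Sum.inr 0, Sum.inl b])).not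

theorem real_If {P : LR.Formula (Fin 1)} (h : Coded k r M ι code S)
    (hP : ∀ v : Fin 1 → M, P.Realize v ↔ ∃ a, v 0 = ι a) {β : Type} (b : β) (v : β → M) :
    (If P b).Realize v ↔ ∃ t, v b = code 0 t := by
  unfold If
  rw [Formula.realize_inf, Formula.realize_not, real_Nf h hP, Formula.realize_iExs, init_iff h]
  have h1 : (∃ w : Fin 1 → M, ((Xf P).relabel (![Sum.inr 0, Sum.inl b] : Fin 2 → β ⊕ Fin 1)).Realize
      (Sum.elim v w)) ↔ ∃ y, Next k r code y (v b) := by
    constructor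
    · rintro ⟨w, hw⟩
      rw [Formula.realize_relabel, real_Xf h hP] at hw
      exact ⟨w 0, hw⟩
    · rintro ⟨y, hy⟩
      refine ⟨fun _ => y, ?_⟩
      rw [Formula.realize_relabel, real_Xf h hP]
      exact hy
  rw [h1]

/-- the formulas for the elements of the chains -/
noncomputable def Cf (P : LR.Formula (Fin 1)) : ℕ → LR.Formula (Fin 2)
  | 0 => If P 0 ⊓ Ef
  | i + 1 => Formula.iExs (Fin 1) ((Cf P i).relabel ![Sum.inr 0, Sum.inl 1] ⊓
      (Xf P).relabel ![Sum.inr 0, Sum.inl 0])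

theorem real_Cf {P : LR.Formula (Fin 1)} (h : Coded k r M ι code S)
    (hP : ∀ v : Fin 1 → M, P.Realize v ↔ ∃ a, v 0 = ι a) :
    ∀ i, i < k + r → ∀ v : Fin 2 → M,
      (Cf P i).Realize v ↔ ∃ t, v 0 = code i t ∧ v 1 = code 0 t := by
  intro i
  induction i with
  | zero =>
    intro _ v
    unfold Cf
    rw [Formula.realize_inf, real_If h hP, real_Ef]
    constructor
    · rintro ⟨⟨t, ht⟩, he⟩
      exact ⟨t, ht, he ▸ ht⟩
    · rintro ⟨t, h0, h1⟩
      exact ⟨⟨t, h0⟩, h0.trans h1.symm⟩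
  | succ i ih =>
    intro hi v
    unfold Cf
    rw [Formula.realize_iExs, step_iff h hi]
    constructor
    · rintro ⟨w, hw⟩
      rw [Formula.realize_inf, Formula.realize_relabel, Formula.realize_relabel, ih (by omega),
        real_Xf h hP] at hw
      exact ⟨w 0, hw⟩
    · rintro ⟨y, hy⟩
      refine ⟨fun _ => y, ?_⟩
      rw [Formula.realize_inf, Formula.realize_relabel, Formula.realize_relabel, ih (by omega),
        real_Xf h hP]
      exact hy

theorem t_DC : S_DC := by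
  intro hDP k r i hi
  obtain ⟨P, hP⟩ := hDP k r
  exact ⟨Cf P i, fun M _ ι code S h v => real_Cf h (hP M ι code S h) i hi v⟩

end Q160.AR.DC
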