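import Pool.Agent.Q201.AR.Stm

set_option autoImplicit false

/-!
Job AR-DP (project AR of helper201): decoding 1.
-/

open FirstOrder FirstOrder.Language Pool.Agent.Helper227.EN

namespace Q160.AR.DP

open Q201.AR

variable {M : Type} [LR.Structure M] {k r : ℕ} {ι : M → M} {code : ℕ → (Fin k → M) → M}
  {S : Fin r → (Fin k → M) → Prop}

/-- elements of the copy have no successors -/
theorem not_rr (h : Coded k r M ι code S) (a y : M) : ¬ rr (ι a) y := by
  rw [h.rel]
  rintro (⟨i, t, hi, hx, -⟩ | ⟨i, t, l, hi, -, hx, -⟩ | ⟨j, t, -, hx, -⟩)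
  · exact h.good.disj i t a (by omega) hx
  · exact h.good.disj i t a hi hx
  · exact h.good.disj (k + j) t a (by omega) hx

/-- elements of the chains have successors -/
theorem rr_code (h : Coded k r M ι code S) {i : ℕ} (hi : i < k + r) (t : Fin k → M) :
    ∃ y, rr (code i t) y := by
  have hk := h.kpos
  have hl : min i (k - 1) < k := by omega
  refine ⟨ι (t ⟨min i (k - 1), hl⟩), ?_⟩
  rw [h.rel]
  exact Or.inr (Or.inl ⟨i, t, ⟨min i (k - 1), hl⟩, hi, rfl, rfl, rfl⟩)

/-- the relation as a formula -/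
noncomputable def Rf : LR.Formula (Fin 2) :=
  Relations.formula₂ (L := LR) ⟨0, rfl⟩ (Term.var 0) (Term.var 1)

theorem real_Rf (v : Fin 2 → M) : Rf.Realize v ↔ rr (v 0) (v 1) := by
  unfold Rf rr
  rw [Formula.realize_rel₂]
  rfl

theorem t_DP : S_DP := by
  intro k r
  refine ⟨(Formula.iExs (Fin 1) (Rf.relabel ![Sum.inl 0, Sum.inr 0])).not, ?_⟩
  intro M _ ι code S h v
  rw [Formula.realize_not, Formula.realize_iExs]
  have h1 : ∀ w : Fin 1 → M, (Rf.relabel (![Sum.inl 0, Sum.inr 0] : Fin 2 → Fin 1 ⊕ Fin 1)).Realize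
      (Sum.elim v w) ↔ rr (v 0) (w 0) := by
    intro w
    rw [Formula.realize_relabel, real_Rf]
    rfl
  constructor
  · intro hno
    rcases h.good.surj (v 0) with h2 | ⟨i, hi, t, h2⟩
    · exact h2
    · exfalso
      obtain ⟨y, hy⟩ := rr_code h hi t
      apply hno
      refine ⟨fun _ => y, ?_⟩
      rw [h1, h2]
      exact hy
  · rintro ⟨a, ha⟩ ⟨w, hw⟩
    rw [h1, ha] at hw
    exact not_rr h a _ hw

end Q160.AR.DP
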