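import Pool.Agent.Q160.WPal

/-!
A recurrent word, with infinitely many palindromes and a language that is not closed under
reversal, for which the partial sums of `T_u(n)` are unbounded below along a subsequence.
-/

namespace Q160.BRneg

open Q160.WPal

/-- `1^n 2^n 3^n` -/
def blk (n : ℕ) : List (Fin 4) :=
  List.replicate n 1 ++ List.replicate n 2 ++ List.replicate n 3

/-- exponents used after the prefix `v` -/
def ex (v : List (Fin 4)) : ℕ := 2 * v.length + 20

/-- `U_0 = 0`, `U_{k+1} = U_k 1^n 2^n 3^n U_k` with `n = 2 |U_k| + 20`. -/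
def U : ℕ → List (Fin 4)
  | 0 => [0]
  | k + 1 => U k ++ blk (ex (U k)) ++ U k

/-- the limit word -/
def u (i : ℕ) : Fin 4 := (U i).getD i 0

theorem blk_length (n : ℕ) : (blk n).length = 3 * n := by
  simp [blk]; omega

theorem U_length_lt (k : ℕ) : k < (U k).length := by
  induction k with
  | zero => simp [U]
  | succ k ih =>
    simp only [U, List.length_append, blk_length, ex]
    omega

theorem U_length_succ (k : ℕ) : (U k).length < (U (k+1)).length := by
  simp only [U, List.length_append, blk_length, ex]
  omega

theorem U_mono {k l : ℕ} (h : k ≤ l) : U k <+: U l := by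
  induction l, h using Nat.le_induction with
  | base => exact List.prefix_rfl
  | succ l _ ih =>
    refine ih.trans ?_
    rw [U, List.append_assoc]
    exact List.prefix_append _ _

theorem U_len_mono {k l : ℕ} (h : k ≤ l) : (U k).length ≤ (U l).length :=
  (U_mono h).length_le

theorem u_eq {k i : ℕ} (h : i < (U k).length) : u i = (U k)[i] := by
  unfold u
  have h1 : i < (U i).length := U_length_lt i
  rw [List.getD_eq_getElem _ _ h1]
  rcases le_total i k with hk | hk
  · exact (U_mono hk).getElem h1
  · exact ((U_mono hk).getElem h).symm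

theorem fac_length {A : Type*} (w : ℕ → A) (i n : ℕ) : (fac w i n).length = n := by
  simp [fac]

theorem fac_eq {k i n : ℕ} (h : i + n ≤ (U k).length) :
    fac u i n = ((U k).drop i).take n := by
  apply List.ext_getElem
  · simp [fac]; omega
  · intro t h1 h2
    simp only [fac, List.getElem_map, List.getElem_range, List.getElem_take, List.getElem_drop]
    have : t < n := by simpa [fac] using h1
    exact u_eq (by omega)

theorem infix_mem {k : ℕ} {v : List (Fin 4)} (h : v <:+: U k) : v ∈ facN u v.length := by
  obtain ⟨s, t, hst⟩ := h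
  refine ⟨s.length, ?_⟩
  have hl : s.length + v.length ≤ (U k).length := by
    rw [← hst]; simp
  rw [fac_eq hl, ← hst, List.append_assoc, List.drop_left, List.take_left]

/-! ### windows -/

section windows
variable {A : Type*}

def g (x y : A) (V : List A) (s : ℤ) : A := if s < 0 then x else (V[s.toNat]?).getD y

def win (x y : A) (V : List A) (N : ℕ) (s : ℤ) : List A :=
  (List.range N).map (fun t : ℕ => g x y V (s + (t : ℤ)))

variable [DecidableEq A]

noncomputable def cov (x y : A) (V : List A) (N : ℕ) : Finset (List A) :=
  (Finset.Icc (-(N : ℤ)) (V.length : ℤ)).image (win x y V N)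

theorem cov_card (x y : A) (V : List A) (N : ℕ) : (cov x y V N).card ≤ N + V.length + 1 := by
  refine Finset.card_image_le.trans ?_
  simp
  omega

theorem win_mem (x y : A) (V : List A) (N : ℕ) (s : ℤ) : win x y V N s ∈ cov x y V N := by
  rw [cov, Finset.mem_image]
  rcases lt_or_ge s (-(N : ℤ)) with h | h
  · refine ⟨-(N : ℤ), by simp, ?_⟩
    apply List.map_congr_left
    intro t ht
    rw [List.mem_range] at ht
    have h1 : -(N : ℤ) + t < 0 := by omega
    have h2 : s + t < 0 := by omega
    simp [g, h1, h2]
  rcases lt_or_ge (V.length : ℤ) s with h' | h'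
  · refine ⟨V.length, by simp, ?_⟩
    apply List.map_congr_left
    intro t ht
    have h1 : ¬ ((V.length : ℤ) + t < 0) := by omega
    have h2 : ¬ (s + t < 0) := by omega
    simp only [g, h1, h2, if_false]
    rw [List.getElem?_eq_none (by omega), List.getElem?_eq_none (by omega)]
  · exact ⟨s, by simp; omega, rfl⟩

theorem window_mem (x y : A) (V : List A) (N m m' i : ℕ) (h : i + N ≤ m + V.length + m') :
    ((List.replicate m x ++ V ++ List.replicate m' y).drop i).take N ∈ cov x y V N := by
  have : ((List.replicate m x ++ V ++ List.replicate m' y).drop i).take N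
      = win x y V N ((i : ℤ) - m) := by
    apply List.ext_getElem
    · simp [win]; omega
    · intro t h1 h2
      have ht : t < N := by simpa [win] using h2
      simp only [win, List.getElem_map, List.getElem_range, List.getElem_take,
        List.getElem_drop, g]
      rcases lt_or_ge (i + t) m with hc | hc
      · have e1 : (i : ℤ) - m + t < 0 := by omega
        rw [if_pos e1, List.getElem_append_left (by simp; omega),
          List.getElem_append_left (by simpa using hc)]
        simp
      · have e1 : ¬ ((i : ℤ) - m + t < 0) := by omega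
        have e2 : ((i : ℤ) - m + t).toNat = i + t - m := by omega
        rw [if_neg e1, e2]
        rcases lt_or_ge (i + t - m) V.length with hd | hd
        · rw [List.getElem?_eq_getElem hd, Option.getD_some]
          rw [List.getElem_append_left (by simp; omega),
            List.getElem_append_right (by simpa using hc)]
          simp
        · rw [List.getElem?_eq_none hd, Option.getD_none]
          rw [List.getElem_append_right (by simp; omega)]
          simp
  rw [this]
  exact win_mem x y V N _

/-- all windows of length `N` of `w` lie in `S` -/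
def Good (S : Finset (List A)) (N : ℕ) (w : List A) : Prop :=
  ∀ i, i + N ≤ w.length → (w.drop i).take N ∈ S

omit [DecidableEq A] in
theorem Good.glue {S : Finset (List A)} {N : ℕ} {X Y Z : List A} (hN : N ≤ Y.length + 1)
    (h1 : Good S N (X ++ Y)) (h2 : Good S N (Y ++ Z)) : Good S N (X ++ (Y ++ Z)) := by
  intro i hi
  simp only [List.length_append] at hi
  rcases le_or_gt (i + N) (X.length + Y.length) with h | h
  · have := h1 i (by simpa using h)
    rw [← List.append_assoc, List.drop_append_of_le_length (by simp; omega),
      List.take_append_of_le_length (by simp; omega)]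
    exact this
  · have hx : X.length ≤ i := by omega
    have := h2 (i - X.length) (by simp; omega)
    have e : i = X.length + (i - X.length) := by omega
    rw [e, List.drop_append, List.drop_eq_nil_of_le (by omega), List.nil_append]
    simpa using this

omit [DecidableEq A] in
theorem Good.mono {S S' : Finset (List A)} {N : ℕ} {w : List A} (h : S ⊆ S')
    (h1 : Good S N w) : Good S' N w := fun i hi => h (h1 i hi)

theorem good_rep (x y : A) (V : List A) (N m m' : ℕ) :
    Good (cov x y V N) N (List.replicate m x ++ V ++ List.replicate m' y) := by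
  intro i hi
  apply window_mem
  simpa [add_assoc] using hi

theorem good_rep2 (x y : A) (N m m' : ℕ) :
    Good (cov x y [] N) N (List.replicate m x ++ List.replicate m' y) := by
  simpa using good_rep x y [] N m m'

end windows

/-- the cover of the factors of length `N` at level `k` -/
noncomputable def S (k N : ℕ) : Finset (List (Fin 4)) := cov 1 2 [] N ∪ cov 2 3 [] N ∪ cov 3 1 (U k) N

theorem S_card (k N : ℕ) : (S k N).card ≤ 3 * N + (U k).length + 3 := by
  have h1 := cov_card (1 : Fin 4) 2 [] N
  have h2 := cov_card (2 : Fin 4) 3 [] N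
  have h3 := cov_card (3 : Fin 4) 1 (U k) N
  have := Finset.card_union_le (cov (1 : Fin 4) 2 [] N ∪ cov 2 3 [] N) (cov 3 1 (U k) N)
  have := Finset.card_union_le (cov (1 : Fin 4) 2 [] N) (cov 2 3 [] N)
  simp only [List.length_nil] at h1 h2
  unfold S
  omega

theorem good_U (k N : ℕ) (hN : N = ex (U k) + 1) (K : ℕ) (hK : k ≤ K) (m m' : ℕ) :
    Good (S k N) N (List.replicate m 3 ++ U K ++ List.replicate m' 1) := by
  induction K, hK using Nat.le_induction generalizing m m' with
  | base => exact (good_rep 3 1 (U k) N m m').mono (by unfold S; exact Finset.subset_union_right)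
  | succ K hK ih =>
    set n := ex (U K) with hn
    have hNn : N ≤ n + 1 := by
      rw [hN, hn]
      have := U_len_mono hK
      unfold ex
      omega
    have g12 : Good (S k N) N (List.replicate n 1 ++ List.replicate n 2) :=
      (good_rep2 1 2 N n n).mono
        (by unfold S; exact Finset.subset_union_left.trans Finset.subset_union_left)
    have g23 : Good (S k N) N (List.replicate n 2 ++ List.replicate n 3) :=
      (good_rep2 2 3 N n n).mono
        (by unfold S; exact Finset.subset_union_right.trans Finset.subset_union_left)
    have a1 : Good (S k N) N (List.replicate n 3 ++ (U K ++ List.replicate m' 1)) := by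
      rw [← List.append_assoc]; exact ih n m'
    have a2 : Good (S k N) N (List.replicate n 2 ++ (List.replicate n 3 ++
        (U K ++ List.replicate m' 1))) :=
      Good.glue (by simpa using hNn) g23 a1
    have a3 : Good (S k N) N (List.replicate n 1 ++ (List.replicate n 2 ++
        (List.replicate n 3 ++ (U K ++ List.replicate m' 1)))) :=
      Good.glue (by simpa using hNn) g12 a2
    have a4 : Good (S k N) N ((List.replicate m 3 ++ U K) ++ (List.replicate n 1 ++
        (List.replicate n 2 ++ (List.replicate n 3 ++ (U K ++ List.replicate m' 1))))) :=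
      Good.glue (by simpa using hNn) (ih m n) a3
    have e : List.replicate m 3 ++ U (K+1) ++ List.replicate m' 1
        = (List.replicate m 3 ++ U K) ++ (List.replicate n 1 ++
        (List.replicate n 2 ++ (List.replicate n 3 ++ (U K ++ List.replicate m' 1)))) := by
      rw [U, blk, ← hn]
      simp only [List.append_assoc]
    rw [e]
    exact a4

theorem facN_subset (k N : ℕ) (hN : N = ex (U k) + 1) : facN u N ⊆ (S k N : Set (List (Fin 4))) := by
  rintro w ⟨i, rfl⟩
  have h1 : i + N ≤ (U (k + i + N)).length := by
    have := U_length_lt (k + i + N)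
    omega
  rw [fac_eq h1]
  have := good_U k N hN (k + i + N) (by omega) 0 0 i (by simpa using h1)
  simpa using this

theorem cpx_le (k N : ℕ) (hN : N = ex (U k) + 1) : cpx u N ≤ 3 * N + (U k).length + 3 := by
  unfold cpx
  calc (facN u N).ncard ≤ (S k N : Set (List (Fin 4))).ncard :=
        Set.ncard_le_ncard (facN_subset k N hN) (Finset.finite_toSet _)
    _ = (S k N).card := Set.ncard_coe_finset _
    _ ≤ _ := S_card k N

theorem rep_mem (k n : ℕ) (hn : n ≤ ex (U k)) (c : Fin 4) (hc : c = 1 ∨ c = 2 ∨ c = 3) :
    List.replicate n c ∈ palN u n := by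
  refine ⟨?_, by simp⟩
  have h0 : List.replicate (ex (U k)) c <:+: U (k+1) := by
    rw [U, blk]
    rcases hc with rfl | rfl | rfl
    · exact ⟨U k, List.replicate (ex (U k)) 2 ++ List.replicate (ex (U k)) 3 ++ U k,
        by simp only [List.append_assoc]⟩
    · exact ⟨U k ++ List.replicate (ex (U k)) 1, List.replicate (ex (U k)) 3 ++ U k,
        by simp only [List.append_assoc]⟩
    · exact ⟨U k ++ List.replicate (ex (U k)) 1 ++ List.replicate (ex (U k)) 2, U k,
        by simp only [List.append_assoc]⟩
  have h1 : List.replicate n c <:+: List.replicate (ex (U k)) c := by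
    refine ⟨[], List.replicate (ex (U k) - n) c, ?_⟩
    rw [List.nil_append, ← List.replicate_add]
    congr 1
    omega
  have := infix_mem (h1.trans h0)
  simpa using this

theorem facN_finite (n : ℕ) : (facN u n).Finite := by
  refine (List.finite_length_eq (Fin 4) n).subset ?_
  rintro w ⟨i, rfl⟩
  exact fac_length u i n

theorem palN_finite (n : ℕ) : (palN u n).Finite :=
  (facN_finite n).subset (fun _ h => h.1)

theorem pcx_ge (k n : ℕ) (hn : n ≤ ex (U k)) (h1 : 1 ≤ n) : 3 ≤ pcx u n := by
  have hsub : (({List.replicate n 1, List.replicate n 2, List.replicate n 3} :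
      Finset (List (Fin 4))) : Set (List (Fin 4))) ⊆ palN u n := by
    intro w hw
    simp only [Finset.coe_insert, Finset.coe_singleton, Set.mem_insert_iff,
      Set.mem_singleton_iff] at hw
    rcases hw with rfl | rfl | rfl
    · exact rep_mem k n hn 1 (by simp)
    · exact rep_mem k n hn 2 (by simp)
    · exact rep_mem k n hn 3 (by simp)
  have hcard : ({List.replicate n 1, List.replicate n 2, List.replicate n 3} :
      Finset (List (Fin 4))).card = 3 := by
    have hne : ∀ a b : Fin 4, a ≠ b → List.replicate n a ≠ List.replicate n b := by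
      intro a b hab h
      have := List.replicate_right_injective (n := n) (by omega) h
      exact hab this
    rw [Finset.card_insert_of_notMem, Finset.card_insert_of_notMem, Finset.card_singleton]
    · simp only [Finset.mem_singleton]
      exact hne 2 3 (by decide)
    · simp only [Finset.mem_insert, Finset.mem_singleton, not_or]
      exact ⟨hne 1 2 (by decide), hne 1 3 (by decide)⟩
  unfold pcx
  rw [← hcard, ← Set.ncard_coe_finset]
  exact Set.ncard_le_ncard hsub (palN_finite n)

theorem pcx_zero : 1 ≤ pcx u 0 := by
  unfold pcx
  rw [Nat.one_le_iff_ne_zero, ← Nat.pos_iff_ne_zero, Set.ncard_pos (palN_finite 0)]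
  exact ⟨[], ⟨0, by simp [fac]⟩, rfl⟩

theorem cpx_zero : 1 ≤ cpx u 0 := by
  unfold cpx
  rw [Nat.one_le_iff_ne_zero, ← Nat.pos_iff_ne_zero, Set.ncard_pos (facN_finite 0)]
  exact ⟨[], ⟨0, by simp [fac]⟩⟩

theorem sum_T (N : ℕ) : ∑ n ∈ Finset.range N, T u n
    = (cpx u N : ℤ) - cpx u 0 + 2 * N - ∑ n ∈ Finset.range N, (pcx u (n+1) : ℤ)
      - ∑ n ∈ Finset.range N, (pcx u n : ℤ) := by
  induction N with
  | zero => simp
  | succ N ih =>
    rw [Finset.sum_range_succ, Finset.sum_range_succ, Finset.sum_range_succ, ih]
    unfold T
    push_cast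
    ring

theorem sum_ge (k N : ℕ) (hN : N ≤ ex (U k)) :
    (3 * N : ℤ) ≤ ∑ n ∈ Finset.range N, (pcx u (n+1) : ℤ) := by
  have : ∀ n ∈ Finset.range N, (3 : ℤ) ≤ (pcx u (n+1) : ℤ) := by
    intro n hn
    rw [Finset.mem_range] at hn
    exact_mod_cast pcx_ge k (n+1) (by omega) (by omega)
  have h := Finset.sum_le_sum this
  simp only [Finset.sum_const, Finset.card_range, nsmul_eq_mul] at h
  linarith

theorem sum_T_le (k : ℕ) :
    ∑ n ∈ Finset.range (ex (U k) + 1), T u n ≤ - (U k).length := by
  have h1 := sum_T (ex (U k) + 1)
  have h2 := cpx_le k (ex (U k) + 1) rfl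
  have h3 := sum_ge k (ex (U k)) le_rfl
  have h4 := cpx_zero
  have h5 : ∑ n ∈ Finset.range (ex (U k) + 1), (pcx u (n+1) : ℤ)
      = ∑ n ∈ Finset.range (ex (U k)), (pcx u (n+1) : ℤ) + pcx u (ex (U k) + 1) := by
    rw [Finset.sum_range_succ]
  have h6 : ∑ n ∈ Finset.range (ex (U k) + 1), (pcx u n : ℤ)
      = ∑ n ∈ Finset.range (ex (U k)), (pcx u (n+1) : ℤ) + pcx u 0 := by
    rw [Finset.sum_range_succ']
  have h7 : (0 : ℤ) ≤ pcx u (ex (U k) + 1) := by positivity
  have h8 : (0 : ℤ) ≤ pcx u 0 := by positivity
  have h9 : (ex (U k) : ℤ) = 2 * (U k).length + 20 := by unfold ex; push_cast; ring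
  rw [h1, h5, h6]
  push_cast at h2 ⊢
  have h2' : (cpx u (ex (U k) + 1) : ℤ) ≤ 3 * ((ex (U k) : ℤ) + 1) + (U k).length + 3 := by
    exact_mod_cast h2
  have h4' : (1 : ℤ) ≤ cpx u 0 := by exact_mod_cast h4
  have h8' : (1 : ℤ) ≤ pcx u 0 := by exact_mod_cast pcx_zero
  linarith

theorem recurrent_u : Recurrent u := by
  intro i n N
  set K := i + n + N with hK
  have hl : K < (U K).length := U_length_lt K
  have h1 : i + n ≤ (U K).length := by omega
  have e : U (K+1) = (U K ++ blk (ex (U K))) ++ U K := rfl
  refine ⟨(U K ++ blk (ex (U K))).length + i, ?_, ?_⟩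
  · simp only [List.length_append]; omega
  · have h2 : (U K ++ blk (ex (U K))).length + i + n ≤ (U (K+1)).length := by
      rw [e]; simp only [List.length_append]; omega
    rw [fac_eq h2, fac_eq h1, e, ← List.drop_drop, List.drop_left]

theorem infPal_u : InfPal u := by
  intro hfin
  have hsub : Set.range (fun n : ℕ => List.replicate n (1 : Fin 4)) ⊆
      {w | ∃ n, w ∈ palN u n} := by
    rintro _ ⟨n, rfl⟩
    refine ⟨n, rep_mem n n ?_ 1 (by simp)⟩
    have := U_length_lt n
    unfold ex
    omega
  have hinf : (Set.range (fun n : ℕ => List.replicate n (1 : Fin 4))).Infinite := by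
    apply Set.infinite_range_of_injective
    intro a b hab
    have := congrArg List.length hab
    simpa using this
  exact hinf (hfin.subset hsub)

/-- consecutive letters -/
def R (x y : Fin 4) : Prop := y = x ∨ y = x + 1

theorem rep_chain (n : ℕ) (x : Fin 4) : List.IsChain R (List.replicate n x) :=
  List.isChain_replicate_of_rel n (Or.inl rfl)

theorem U_chain (k : ℕ) : List.IsChain R (U k) ∧ (U k).head? = some 0 ∧ (U k).getLast? = some 0 := by
  induction k with
  | zero => simp [U]
  | succ k ih =>
    obtain ⟨h1, h2, h3⟩ := ih
    have hn : ex (U k) ≠ 0 := by unfold ex; omega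
    refine ⟨?_, ?_, ?_⟩
    · rw [U, blk]
      rw [List.isChain_append, List.isChain_append, List.isChain_append, List.isChain_append]
      refine ⟨⟨h1, ⟨⟨rep_chain _ _, rep_chain _ _, ?_⟩, rep_chain _ _, ?_⟩, ?_⟩, h1, ?_⟩
      · intro x hx y hy
        simp only [List.getLast?_replicate, List.head?_replicate, hn, if_false,
          Option.mem_def, Option.some.injEq] at hx hy
        subst hx; subst hy; right; decide
      · intro x hx y hy
        simp only [List.getLast?_append, List.getLast?_replicate, List.head?_replicate, hn,
          if_false, Option.mem_def, Option.some.injEq, Option.some_or] at hx hy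
        subst hx; subst hy; right; decide
      · intro x hx y hy
        rw [h3] at hx
        simp only [List.head?_append, List.head?_replicate, hn,
          if_false, Option.mem_def, Option.some.injEq, Option.some_or] at hx hy
        subst hx; subst hy; right; decide
      · intro x hx y hy
        rw [h2] at hy
        simp only [List.getLast?_append, List.getLast?_replicate, hn,
          if_false, Option.mem_def, Option.some.injEq, Option.some_or] at hx hy
        subst hx; subst hy; right; decide
    · rw [U, List.append_assoc, List.head?_append, h2]; rfl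
    · rw [U, List.getLast?_append, h3]; rfl

theorem not_closed : ¬ ClosedRev u := by
  intro h
  have h0 : (1 : ℕ) ≤ ex (U 0) := by decide
  -- the factor `12`
  have h12 : ([1, 2] : List (Fin 4)) ∈ facN u 2 := by
    have : ([1, 2] : List (Fin 4)) <:+: U 1 := by decide
    exact infix_mem this
  obtain ⟨i, hi⟩ := h12
  have h21 := h i 2
  rw [← hi] at h21
  obtain ⟨j, hj⟩ := h21
  have hl : j + 2 ≤ (U (j+2)).length := by
    have := U_length_lt (j+2)
    omega
  rw [fac_eq hl] at hj
  have hc : List.IsChain R (((U (j+2)).drop j).take 2) :=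
    ((U_chain (j+2)).1.drop j).take 2
  rw [← hj] at hc
  simp [R] at hc

theorem defect_nonneg : (0 : EReal) ≤ defect u := by
  unfold defect
  refine le_iSup_of_le 0 ?_
  have : defectW (fac u 0 0) = 0 := by
    unfold defectW
    have : ({v | v <:+: fac u 0 0 ∧ v.reverse = v} : Set (List (Fin 4))) = {[]} := by
      ext v
      simp [fac]
      rintro rfl
      rfl
    rw [this]
    simp [fac]
  rw [this]
  simp

end Q160.BRneg
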