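import Pool.Agent.Q82.CW.Stm

/-!
Job CW-AC of project CW (MP_96e154_an).
-/

set_option autoImplicit false

open MeasureTheory Filter Topology Set
open scoped ContDiff

namespace Pool.Agent.Q82.CW

theorem ac_df_memLp {f : ℝ → ℝ} (hf : MemLp f 2) (h : ℝ) : MemLp (Df h f) 2 := by
  have h1 : MemLp (fun x => f (x + h)) 2 :=
    hf.comp_measurePreserving (measurePreserving_add_right volume h)
  exact h1.sub hf

theorem ac_df_int {f : ℝ → ℝ} (hf : MemLp f 2) (h : ℝ) : Integrable (fun x => Df h f x ^ 2) :=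
  (ac_df_memLp hf h).integrable_sq

theorem ac_df_le {f : ℝ → ℝ} (hf : MemLp f 2) (h : ℝ) :
    ∫ x, Df h f x ^ 2 ≤ 4 * ∫ x, f x ^ 2 := by
  have h1 : MemLp (fun x => f (x + h)) 2 :=
    hf.comp_measurePreserving (measurePreserving_add_right volume h)
  have i1 : Integrable (fun x => f (x + h) ^ 2) := h1.integrable_sq
  have i2 : Integrable (fun x => f x ^ 2) := hf.integrable_sq
  have e1 : ∫ x, f (x + h) ^ 2 = ∫ x, f x ^ 2 :=
    integral_add_right_eq_self (fun x => f x ^ 2) h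
  calc ∫ x, Df h f x ^ 2 ≤ ∫ x, (2 * f (x + h) ^ 2 + 2 * f x ^ 2) := by
        apply integral_mono (ac_df_int hf h) ((i1.const_mul 2).add (i2.const_mul 2))
        intro x
        change (f (x + h) - f x) ^ 2 ≤ 2 * f (x + h) ^ 2 + 2 * f x ^ 2
        nlinarith [sq_nonneg (f (x + h) + f x)]
    _ = 2 * (∫ x, f (x + h) ^ 2) + 2 * ∫ x, f x ^ 2 := by
        rw [integral_add (i1.const_mul 2) (i2.const_mul 2), integral_const_mul,
          integral_const_mul]
    _ = 4 * ∫ x, f x ^ 2 := by rw [e1]; ring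

theorem ac_pt (f g e : ℝ) (he : 0 < e) :
    |f ^ 2 - g ^ 2| ≤ (1 + 1 / e) * (f - g) ^ 2 + e * g ^ 2 := by
  have h1 : 0 ≤ (e * g - (f - g)) ^ 2 / e := by positivity
  have h2 : 0 ≤ (e * g + (f - g)) ^ 2 / e := by positivity
  have e1 : (e * g - (f - g)) ^ 2 / e = e * g ^ 2 - 2 * g * (f - g) + (f - g) ^ 2 / e := by
    field_simp
    ring
  have e2 : (e * g + (f - g)) ^ 2 / e = e * g ^ 2 + 2 * g * (f - g) + (f - g) ^ 2 / e := by
    field_simp
    ring
  rw [e1] at h1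
  rw [e2] at h2
  have e3 : (1 + 1 / e) * (f - g) ^ 2 = (f - g) ^ 2 + (f - g) ^ 2 / e := by ring
  rw [e3]
  have h3 : 0 ≤ (f - g) ^ 2 := sq_nonneg _
  apply abs_le.2
  constructor <;> nlinarith

theorem ac_key {f g : ℝ → ℝ} (mf : MemLp f 2) (mg : MemLp g 2) (h a b : ℝ) (hab : a ≤ b) (e : ℝ)
    (he : 0 < e) : |(∫ x in a..b, Df h f x ^ 2) - ∫ x in a..b, Df h g x ^ 2| ≤
      (1 + 1 / e) * (4 * ∫ x, (f x - g x) ^ 2) + e * ∫ x, Df h g x ^ 2 := by
  have md : MemLp (fun x => f x - g x) 2 := mf.sub mg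
  have i1 := ac_df_int mf h
  have i0 := ac_df_int mg h
  have id := ac_df_int md h
  have hp : 0 < 1 + 1 / e := by positivity
  have iR : Integrable (fun x => (1 + 1 / e) * Df h (fun x => f x - g x) x ^ 2 +
      e * Df h g x ^ 2) := (id.const_mul _).add (i0.const_mul _)
  rw [intervalIntegral.integral_of_le hab, intervalIntegral.integral_of_le hab,
    ← integral_sub i1.integrableOn i0.integrableOn]
  calc |∫ x in Ioc a b, (Df h f x ^ 2 - Df h g x ^ 2)|
      ≤ ∫ x in Ioc a b, |Df h f x ^ 2 - Df h g x ^ 2| := abs_integral_le_integral_abs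
    _ ≤ ∫ x in Ioc a b, ((1 + 1 / e) * Df h (fun x => f x - g x) x ^ 2 + e * Df h g x ^ 2) := by
        apply integral_mono (i1.sub i0).abs.integrableOn iR.integrableOn
        intro x
        have := ac_pt (Df h f x) (Df h g x) e he
        have e4 : Df h f x - Df h g x = Df h (fun x => f x - g x) x := by
          simp only [Df]
          ring
        rw [e4] at this
        exact this
    _ ≤ ∫ x, ((1 + 1 / e) * Df h (fun x => f x - g x) x ^ 2 + e * Df h g x ^ 2) := by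
        apply setIntegral_le_integral iR
        filter_upwards with x
        simp only [Pi.zero_apply]
        positivity
    _ = (1 + 1 / e) * (∫ x, Df h (fun x => f x - g x) x ^ 2) + e * ∫ x, Df h g x ^ 2 := by
        rw [integral_add (id.const_mul _) (i0.const_mul _), integral_const_mul,
          integral_const_mul]
    _ ≤ _ := by
        have := mul_le_mul_of_nonneg_left (ac_df_le md h) hp.le
        linarith

theorem ac_cont (c : ℝ → ℝ → ℝ) (mc : ∀ τ, 0 ≤ τ → MemLp (c τ) 2)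
    (tc : ∀ τ0, 0 ≤ τ0 → Tendsto (fun τ => ∫ x, (c τ x - c τ0 x) ^ 2) (𝓝[Ici 0] τ0) (𝓝 0))
    (h a b : ℝ) (hab : a ≤ b) :
    ContinuousOn (fun τ => ∫ x in a..b, Df h (c τ) x ^ 2) (Ici 0) := by
  intro τ0 hτ0
  have hτ0' : 0 ≤ τ0 := hτ0
  set N := ∫ x, Df h (c τ0) x ^ 2 with hN
  have hN0 : 0 ≤ N := integral_nonneg fun x => sq_nonneg _
  rw [ContinuousWithinAt, Metric.tendsto_nhds]
  intro η hη
  set e : ℝ := η / (2 * (N + 1)) with he
  have hep : 0 < e := by positivity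
  have heN : e * N < η / 2 := by
    have h1 : e * (N + 1) = η / 2 := by
      rw [he]
      field_simp
    nlinarith
  have hP : 0 < (1 + 1 / e) * 4 := by positivity
  have h2 := (tc τ0 hτ0').eventually (gt_mem_nhds (show (0 : ℝ) < η / 2 / ((1 + 1 / e) * 4) by
    positivity))
  filter_upwards [h2, self_mem_nhdsWithin] with τ h3 hτ
  rw [Real.dist_eq]
  have h4 := ac_key (mc τ hτ) (mc τ0 hτ0') h a b hab e hep
  have h5 : (1 + 1 / e) * (4 * ∫ x, (c τ x - c τ0 x) ^ 2) < η / 2 := by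
    rw [lt_div_iff₀ hP] at h3
    linarith
  linarith

/-- The end point of `A_j`. -/
noncomputable def acR (j : ℕ) : ℝ := 5.4 - 2 * (1 / 2) ^ j

/-- The integrand. -/
noncomputable def acE (b c : ℝ → ℝ → ℝ) (j : ℕ) (τ : ℝ) : ℝ := 4 ^ j *
    ((∫ x in (4.6 : ℝ)..(5.4 - 2 * (1 / 2) ^ j), Df ((1 / 2) ^ j) (c τ) x ^ 2) +
      ∫ x in (4.6 : ℝ)..(5.4 - 2 * (1 / 2) ^ j), Df ((1 / 2) ^ j) (b τ) x ^ 2)

theorem ac_pow {j : ℕ} (hj : 5 ≤ j) : (1 / 2 : ℝ) ^ j ≤ 1 / 32 := by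
  calc (1 / 2 : ℝ) ^ j ≤ (1 / 2 : ℝ) ^ 5 :=
        pow_le_pow_of_le_one (by norm_num) (by norm_num) hj
    _ = 1 / 32 := by norm_num

/-- One doubling step for a single function. -/
theorem ac_step {f : ℝ → ℝ} (mf : MemLp f 2) {j : ℕ} (hj : 5 ≤ j) :
    ∫ x in (4.6 : ℝ)..(5.4 - 2 * (1 / 2) ^ j), Df ((1 / 2) ^ j) f x ^ 2 ≤
      4 * ∫ x in (4.6 : ℝ)..(5.4 - 2 * (1 / 2) ^ (j + 1)), Df ((1 / 2) ^ (j + 1)) f x ^ 2 := by
  set h : ℝ := (1 / 2) ^ (j + 1) with hh
  have e0 : (1 / 2 : ℝ) ^ j = 2 * h := by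
    rw [hh, pow_succ]
    ring
  have hpos : 0 < h := by positivity
  have hle : h ≤ 1 / 32 := by
    have := ac_pow (show 5 ≤ j + 1 by omega)
    rwa [hh]
  rw [e0]
  have i1 := ac_df_int mf h
  have i2 := ac_df_int mf (2 * h)
  have hI1 : ∀ a b : ℝ, IntervalIntegrable (fun x => Df h f x ^ 2) volume a b :=
    fun a b => i1.intervalIntegrable
  have hI2 : ∀ a b : ℝ, IntervalIntegrable (fun x => Df (2 * h) f x ^ 2) volume a b :=
    fun a b => i2.intervalIntegrable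
  have i3 : Integrable (fun x => Df h f (x + h) ^ 2) :=
    i1.comp_add_right h
  have hI3 : ∀ a b : ℝ, IntervalIntegrable (fun x => Df h f (x + h) ^ 2) volume a b :=
    fun a b => i3.intervalIntegrable
  have hnn : ∀ a b c d : ℝ, c ≤ a → a ≤ b → b ≤ d →
      ∫ x in a..b, Df h f x ^ 2 ≤ ∫ x in c..d, Df h f x ^ 2 := by
    intro a b c d hca hab hbd
    apply intervalIntegral.integral_mono_interval hca hab hbd _ (hI1 c d)
    filter_upwards with x
    simp only [Pi.zero_apply]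
    positivity
  have hab : (4.6 : ℝ) ≤ 5.4 - 2 * (2 * h) := by linarith
  calc ∫ x in (4.6 : ℝ)..(5.4 - 2 * (2 * h)), Df (2 * h) f x ^ 2
      ≤ ∫ x in (4.6 : ℝ)..(5.4 - 2 * (2 * h)),
          (2 * Df h f x ^ 2 + 2 * Df h f (x + h) ^ 2) := by
        apply intervalIntegral.integral_mono_on hab (hI2 _ _)
          (((hI1 _ _).const_mul 2).add ((hI3 _ _).const_mul 2))
        intro x _
        have e1 : Df (2 * h) f x = Df h f (x + h) + Df h f x := by
          simp only [Df]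
          have : x + 2 * h = x + h + h := by ring
          rw [this]
          ring
        rw [e1]
        nlinarith [sq_nonneg (Df h f (x + h) - Df h f x)]
    _ = 2 * (∫ x in (4.6 : ℝ)..(5.4 - 2 * (2 * h)), Df h f x ^ 2) +
          2 * ∫ x in (4.6 : ℝ)..(5.4 - 2 * (2 * h)), Df h f (x + h) ^ 2 := by
        rw [intervalIntegral.integral_add ((hI1 _ _).const_mul 2) ((hI3 _ _).const_mul 2),
          intervalIntegral.integral_const_mul, intervalIntegral.integral_const_mul]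
    _ = 2 * (∫ x in (4.6 : ℝ)..(5.4 - 2 * (2 * h)), Df h f x ^ 2) +
          2 * ∫ x in (4.6 + h : ℝ)..(5.4 - 2 * (2 * h) + h), Df h f x ^ 2 := by
        rw [intervalIntegral.integral_comp_add_right (fun x => Df h f x ^ 2) h]
    _ ≤ 2 * (∫ x in (4.6 : ℝ)..(5.4 - 2 * h), Df h f x ^ 2) +
          2 * ∫ x in (4.6 : ℝ)..(5.4 - 2 * h), Df h f x ^ 2 := by
        have h1 := hnn 4.6 (5.4 - 2 * (2 * h)) 4.6 (5.4 - 2 * h) le_rfl hab (by linarith)
        have h2 := hnn (4.6 + h) (5.4 - 2 * (2 * h) + h) 4.6 (5.4 - 2 * h) (by linarith)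
          (by linarith) (by linarith)
        linarith
    _ = _ := by ring

theorem ac_mono {w b c : ℝ → ℝ → ℝ} (hS : Sol0 w b c) {j : ℕ} (hj : 5 ≤ j) {τ : ℝ} (hτ : 0 ≤ τ) :
    acE b c j τ ≤ acE b c (j + 1) τ := by
  have h1 := ac_step (hS.mc τ hτ) hj
  have h2 := ac_step (hS.mb τ hτ) hj
  have h3 : (0 : ℝ) < 4 ^ j := by positivity
  have h4 : (4 : ℝ) ^ (j + 1) = 4 ^ j * 4 := pow_succ _ _
  unfold acE
  rw [h4, mul_assoc]
  apply mul_le_mul_of_nonneg_left _ h3.le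
  linarith

theorem ac_mono' {w b c : ℝ → ℝ → ℝ} (hS : Sol0 w b c) {i j : ℕ} (hi : 5 ≤ i) (hij : i ≤ j)
    {τ : ℝ} (hτ : 0 ≤ τ) : acE b c i τ ≤ acE b c j τ := by
  induction j, hij using Nat.le_induction with
  | base => exact le_rfl
  | succ k hk ih => exact ih.trans (ac_mono hS (hi.trans hk) hτ)

theorem ac_contE {w b c : ℝ → ℝ → ℝ} (hS : Sol0 w b c) {j : ℕ} (hj : 5 ≤ j) :
    ContinuousOn (acE b c j) (Ici 0) := by
  have hab : (4.6 : ℝ) ≤ 5.4 - 2 * (1 / 2) ^ j := by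
    have := ac_pow hj
    linarith
  have h1 := ac_cont c hS.mc hS.tc ((1 / 2) ^ j) 4.6 (5.4 - 2 * (1 / 2) ^ j) hab
  have h2 := ac_cont b hS.mb hS.tb ((1 / 2) ^ j) 4.6 (5.4 - 2 * (1 / 2) ^ j) hab
  exact continuousOn_const.mul (h1.add h2)

theorem ac_nonneg (b c : ℝ → ℝ → ℝ) {j : ℕ} (hj : 5 ≤ j) (τ : ℝ) : 0 ≤ acE b c j τ := by
  have hab : (4.6 : ℝ) ≤ 5.4 - 2 * (1 / 2) ^ j := by
    have := ac_pow hj
    linarith
  have h1 : 0 ≤ ∫ x in (4.6 : ℝ)..(5.4 - 2 * (1 / 2) ^ j), Df ((1 / 2) ^ j) (c τ) x ^ 2 :=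
    intervalIntegral.integral_nonneg hab fun x _ => sq_nonneg _
  have h2 : 0 ≤ ∫ x in (4.6 : ℝ)..(5.4 - 2 * (1 / 2) ^ j), Df ((1 / 2) ^ j) (b τ) x ^ 2 :=
    intervalIntegral.integral_nonneg hab fun x _ => sq_nonneg _
  unfold acE
  positivity

theorem ac_int {w b c : ℝ → ℝ → ℝ} (hS : Sol0 w b c) {j : ℕ} (hj : 5 ≤ j) {s t : ℝ} (hs : 0 ≤ s)
    (hst : s ≤ t) : IntervalIntegrable (acE b c j) volume s t := by
  apply ContinuousOn.intervalIntegrable
  rw [uIcc_of_le hst]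
  exact (ac_contE hS hj).mono fun x hx => hs.trans hx.1

theorem ac1 (h1 : S_EN) : S_AC := by
  intro w b c hS δ κ hI
  obtain ⟨t, K, ht, hK, hEN⟩ := h1 w b c hS δ κ hI
  change Tendsto (fun j : ℕ => ∫ τ in (0 : ℝ)..(1 / 2) ^ j, acE b c j τ) atTop (𝓝 0)
  -- the bound
  have hbd : ∀ j : ℕ, 5 ≤ j → ∫ τ in (0 : ℝ)..t, acE b c j τ ≤ K := by
    intro j hj
    set h : ℝ := (1 / 2) ^ j with hh
    have hpos : 0 < h := by positivity
    have hle : h ≤ 1 / 32 := ac_pow hj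
    have h2 := hEN h hpos (by linarith)
    have hcc := ac_cont c hS.mc hS.tc h 4.5 5.5 (by norm_num)
    have hcb := ac_cont b hS.mb hS.tb h 4.5 5.5 (by norm_num)
    have hint : IntervalIntegrable (fun τ => (4 : ℝ) ^ j *
        ((∫ x in (4.5 : ℝ)..5.5, Df h (c τ) x ^ 2) + ∫ x in (4.5 : ℝ)..5.5, Df h (b τ) x ^ 2))
        volume 0 t := by
      apply ContinuousOn.intervalIntegrable
      rw [uIcc_of_le ht.le]
      exact (continuousOn_const.mul (hcc.add hcb)).mono fun x hx => hx.1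
    have h3 : ∫ τ in (0 : ℝ)..t, acE b c j τ ≤ ∫ τ in (0 : ℝ)..t, (4 : ℝ) ^ j *
        ((∫ x in (4.5 : ℝ)..5.5, Df h (c τ) x ^ 2) + ∫ x in (4.5 : ℝ)..5.5, Df h (b τ) x ^ 2) := by
      apply intervalIntegral.integral_mono_on ht.le (ac_int hS hj le_rfl ht.le) hint
      intro τ hτ
      have hab : (4.6 : ℝ) ≤ 5.4 - 2 * (1 / 2) ^ j := by
        have := ac_pow hj
        linarith
      have hnn : ∀ f : ℝ → ℝ, MemLp f 2 → ∫ x in (4.6 : ℝ)..(5.4 - 2 * (1 / 2) ^ j),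
          Df h f x ^ 2 ≤ ∫ x in (4.5 : ℝ)..5.5, Df h f x ^ 2 := by
        intro f mf
        apply intervalIntegral.integral_mono_interval (by norm_num) hab (by linarith) _
          (ac_df_int mf h).intervalIntegrable
        filter_upwards with x
        simp only [Pi.zero_apply]
        positivity
      unfold acE
      apply mul_le_mul_of_nonneg_left _ (by positivity)
      exact add_le_add (hnn _ (hS.mc τ hτ.1)) (hnn _ (hS.mb τ hτ.1))
    rw [intervalIntegral.integral_const_mul] at h3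
    have h4 : (4 : ℝ) ^ j * h ^ 2 = 1 := by
      rw [hh, ← pow_mul, mul_comm j 2, pow_mul, ← mul_pow]
      norm_num
    calc ∫ τ in (0 : ℝ)..t, acE b c j τ ≤ _ := h3
      _ ≤ (4 : ℝ) ^ j * (K * h ^ 2) := mul_le_mul_of_nonneg_left h2 (by positivity)
      _ = K := by
        have : (4 : ℝ) ^ j * (K * h ^ 2) = K * ((4 : ℝ) ^ j * h ^ 2) := by ring
        rw [this, h4, mul_one]
  -- the sequence of integrals over `(0, t)`
  set a : ℕ → ℝ := fun n => ∫ τ in (0 : ℝ)..t, acE b c (n + 5) τ with ha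
  have hmono : Monotone a := by
    apply monotone_nat_of_le_succ
    intro n
    apply intervalIntegral.integral_mono_on ht.le (ac_int hS (by omega) le_rfl ht.le)
      (ac_int hS (by omega) le_rfl ht.le)
    intro τ hτ
    exact ac_mono hS (by omega) hτ.1
  have hbdd : BddAbove (range a) := ⟨K, by
    rintro _ ⟨n, rfl⟩
    exact hbd (n + 5) (by omega)⟩
  have hlim := tendsto_atTop_ciSup hmono hbdd
  set A : ℝ := ⨆ n, a n with hA
  have hleA : ∀ n, a n ≤ A := fun n => le_ciSup hbdd n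
  rw [Metric.tendsto_atTop]
  intro ε hε
  obtain ⟨N, hN⟩ := (Metric.tendsto_atTop.1 hlim) (ε / 2) (by positivity)
  have hN1 := hN N le_rfl
  rw [Real.dist_eq] at hN1
  have hN2 : A - a N < ε / 2 := by
    have := (abs_lt.1 hN1).1
    linarith
  -- the primitive of `acE b c (N + 5)`
  have hpow : Tendsto (fun j : ℕ => (1 / 2 : ℝ) ^ j) atTop (𝓝 0) :=
    tendsto_pow_atTop_nhds_zero_of_lt_one (by norm_num) (by norm_num)
  have hcE := ac_contE hS (show 5 ≤ N + 5 by omega)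
  obtain ⟨B, hB⟩ : ∃ B : ℝ, ∀ τ ∈ Icc (0 : ℝ) t, acE b c (N + 5) τ ≤ B := by
    have hcomp : IsCompact (Icc (0 : ℝ) t) := isCompact_Icc
    obtain ⟨B, hB⟩ := hcomp.bddAbove_image (hcE.mono fun x hx => hx.1)
    exact ⟨B, fun τ hτ => hB ⟨τ, hτ, rfl⟩⟩
  have hB0 : 0 ≤ B := (ac_nonneg b c (by omega) 0).trans (hB 0 ⟨le_rfl, ht.le⟩)
  have hev1 : ∀ᶠ j : ℕ in atTop, (1 / 2 : ℝ) ^ j < t := hpow.eventually (gt_mem_nhds ht)
  have hev2 : ∀ᶠ j : ℕ in atTop, (1 / 2 : ℝ) ^ j < ε / 2 / (B + 1) :=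
    hpow.eventually (gt_mem_nhds (by positivity))
  obtain ⟨J, hJ⟩ := (hev1.and (hev2.and (eventually_ge_atTop (N + 5)))).exists_forall_of_atTop
  refine ⟨J, fun j hj => ?_⟩
  obtain ⟨hj1, hj2, hj3⟩ := hJ j hj
  set r : ℝ := (1 / 2) ^ j with hr
  have hr0 : 0 < r := by positivity
  have hj5 : 5 ≤ j := by omega
  have hnn : 0 ≤ ∫ τ in (0 : ℝ)..r, acE b c j τ :=
    intervalIntegral.integral_nonneg hr0.le fun τ _ => ac_nonneg b c hj5 τ
  rw [Real.dist_eq, sub_zero, abs_of_nonneg hnn]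
  have hij := ac_int hS hj5 le_rfl hr0.le
  have hiN := ac_int hS (show 5 ≤ N + 5 by omega) le_rfl hr0.le
  have hijt := ac_int hS hj5 le_rfl ht.le
  have hiNt := ac_int hS (show 5 ≤ N + 5 by omega) le_rfl ht.le
  have e1 : ∫ τ in (0 : ℝ)..r, acE b c j τ = (∫ τ in (0 : ℝ)..r, (acE b c j τ -
      acE b c (N + 5) τ)) + ∫ τ in (0 : ℝ)..r, acE b c (N + 5) τ := by
    rw [intervalIntegral.integral_sub hij hiN]
    ring
  have e2 : ∫ τ in (0 : ℝ)..r, (acE b c j τ - acE b c (N + 5) τ) ≤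
      ∫ τ in (0 : ℝ)..t, (acE b c j τ - acE b c (N + 5) τ) := by
    apply intervalIntegral.integral_mono_interval le_rfl hr0.le hj1.le _ (hijt.sub hiNt)
    rw [EventuallyLE, ae_restrict_iff' measurableSet_Ioc]
    filter_upwards with τ hτ
    simp only [Pi.zero_apply]
    have := ac_mono' hS (show 5 ≤ N + 5 by omega) hj3 hτ.1.le
    linarith
  have e3 : ∫ τ in (0 : ℝ)..t, (acE b c j τ - acE b c (N + 5) τ) =
      a (j - 5) - a N := by
    rw [intervalIntegral.integral_sub hijt hiNt]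
    simp only [ha]
    rw [show j - 5 + 5 = j by omega]
  have e4 : ∫ τ in (0 : ℝ)..r, acE b c (N + 5) τ ≤ r * B := by
    calc ∫ τ in (0 : ℝ)..r, acE b c (N + 5) τ ≤ ∫ τ in (0 : ℝ)..r, B := by
          apply intervalIntegral.integral_mono_on hr0.le hiN intervalIntegrable_const
          intro τ hτ
          exact hB τ ⟨hτ.1, hτ.2.trans hj1.le⟩
      _ = r * B := by simp
  have e5 : r * B < ε / 2 := by
    have h6 : r * (B + 1) < ε / 2 := (lt_div_iff₀ (by positivity)).1 hj2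
    nlinarith
  have e6 := hleA (j - 5)
  linarith

end Pool.Agent.Q82.CW
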