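import Pool.Agent.Q82.CW.Stm

/-!
Job CW-IVT of project CW (MP_96e154_an).
-/

set_option autoImplicit false

open MeasureTheory Filter Topology Set
open scoped ContDiff

namespace Pool.Agent.Q82.CW

theorem ivt1 : S_IVT := by
  intro U M p v hH ρ hρ
  obtain ⟨_, hpM, V, Φ, hVo, hpV, hΦ, hMΦ, hL⟩ := hH
  have hcont : ContinuousOn Φ V := hΦ.continuousOn
  have hdiff : DifferentiableAt ℝ Φ p :=
    (hΦ.contDiffAt (hVo.mem_nhds hpV)).differentiableAt (by norm_num)
  have hΦp : Φ p = 0 := (hMΦ p hpV).1 hpM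
  set L : ℝ := fderiv ℝ Φ p v with hLdef
  have hder : HasDerivAt (fun s : ℝ => Φ (p + s • v)) L 0 := by
    have h1 : HasFDerivAt Φ (fderiv ℝ Φ p) (p + (0 : ℝ) • v) := by
      simpa using hdiff.hasFDerivAt
    have h2 : HasDerivAt (fun s : ℝ => p + s • v) v 0 := by
      simpa using ((hasDerivAt_id (0 : ℝ)).smul_const v).const_add p
    exact h1.comp_hasDerivAt 0 h2
  have hder2 : HasDerivAt (fun s : ℝ => L * Φ (p + s • v)) (L * L) 0 := hder.const_mul L
  have hLL : 0 < L * L := mul_self_pos.2 hL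
  have hsl := (hasDerivAt_iff_tendsto_slope.1 hder2).eventually (lt_mem_nhds hLL)
  rw [eventually_nhdsWithin_iff, Metric.eventually_nhds_iff] at hsl
  obtain ⟨ε, hε, hsl⟩ := hsl
  obtain ⟨r0, hr0, hball⟩ := Metric.isOpen_iff.1 hVo p hpV
  set R : ℝ := min r0 ρ with hR
  have hRpos : 0 < R := lt_min hr0 hρ
  have hv0 : 0 < ‖v‖ + 1 := by positivity
  obtain ⟨s0, hs0, hs0ε, hs0v⟩ : ∃ s0 : ℝ, 0 < s0 ∧ s0 < ε ∧ s0 * ‖v‖ < R / 2 := by
    refine ⟨min (ε / 2) (R / (4 * (‖v‖ + 1))), lt_min (by positivity) (by positivity), ?_, ?_⟩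
    · exact lt_of_le_of_lt (min_le_left _ _) (by linarith)
    · have h1 : min (ε / 2) (R / (4 * (‖v‖ + 1))) * ‖v‖ ≤ R / (4 * (‖v‖ + 1)) * (‖v‖ + 1) := by
        apply mul_le_mul (min_le_right _ _) (by linarith) (norm_nonneg _) (by positivity)
      have h2 : R / (4 * (‖v‖ + 1)) * (‖v‖ + 1) = R / 4 := by
        field_simp
      linarith
  have hmem : ∀ d : X, ‖d‖ < R / 2 → ∀ s : ℝ, |s| ≤ s0 → p + d + s • v ∈ V ∧ ‖d + s • v‖ < R := by
    intro d hd s hs
    have h1 : ‖d + s • v‖ < R := by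
      calc ‖d + s • v‖ ≤ ‖d‖ + ‖s • v‖ := norm_add_le _ _
        _ = ‖d‖ + |s| * ‖v‖ := by rw [norm_smul, Real.norm_eq_abs]
        _ ≤ ‖d‖ + s0 * ‖v‖ := by
            have := mul_le_mul_of_nonneg_right hs (norm_nonneg v)
            linarith
        _ < R := by linarith
    refine ⟨hball ?_, h1⟩
    rw [Metric.mem_ball, dist_eq_norm]
    have h2 : p + d + s • v - p = d + s • v := by abel
    rw [h2]
    exact lt_of_lt_of_le h1 (min_le_left _ _)
  have hpos : 0 < L * Φ (p + s0 • v) := by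
    have h1 := hsl (y := s0) (by simpa [abs_of_pos hs0] using hs0ε) (by simpa using hs0.ne')
    rw [slope_def_field] at h1
    simp only [zero_smul, add_zero, hΦp, mul_zero, sub_zero] at h1
    exact (div_pos_iff_of_pos_right hs0).1 h1
  have hneg : L * Φ (p + (-s0) • v) < 0 := by
    have h1 := hsl (y := -s0) (by simpa [abs_of_pos hs0] using hs0ε) (by simpa using hs0.ne')
    rw [slope_def_field] at h1
    simp only [zero_smul, add_zero, hΦp, mul_zero, sub_zero] at h1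
    rcases div_pos_iff.1 h1 with h2 | h2
    · linarith [h2.2]
    · exact h2.1
  have hz : ‖(0 : X)‖ < R / 2 := by rw [norm_zero]; positivity
  have hVp : p + s0 • v ∈ V := by
    have := (hmem 0 hz s0 (by rw [abs_of_pos hs0])).1
    simpa using this
  have hVn : p + (-s0) • v ∈ V := by
    have := (hmem 0 hz (-s0) (by rw [abs_neg, abs_of_pos hs0])).1
    simpa using this
  have hcp : ContinuousAt Φ (p + s0 • v) := hcont.continuousAt (hVo.mem_nhds hVp)
  have hcn : ContinuousAt Φ (p + (-s0) • v) := hcont.continuousAt (hVo.mem_nhds hVn)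
  have hep : ∀ᶠ x in 𝓝 (p + s0 • v), 0 < L * Φ x :=
    (continuousAt_const.mul hcp).eventually (lt_mem_nhds hpos)
  have hen : ∀ᶠ x in 𝓝 (p + (-s0) • v), L * Φ x < 0 :=
    (continuousAt_const.mul hcn).eventually (gt_mem_nhds hneg)
  rw [Metric.eventually_nhds_iff] at hep hen
  obtain ⟨ε1, hε1, hep⟩ := hep
  obtain ⟨ε2, hε2, hen⟩ := hen
  refine ⟨min (R / 2) (min ε1 ε2), lt_min (by positivity) (lt_min hε1 hε2), ?_⟩
  intro d hd
  have hd1 : ‖d‖ < R / 2 := lt_of_lt_of_le hd (min_le_left _ _)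
  have hd2 : ‖d‖ < ε1 := lt_of_lt_of_le hd ((min_le_right _ _).trans (min_le_left _ _))
  have hd3 : ‖d‖ < ε2 := lt_of_lt_of_le hd ((min_le_right _ _).trans (min_le_right _ _))
  have h1 : 0 < L * Φ (p + d + s0 • v) := by
    apply hep
    rw [dist_eq_norm]
    have : p + d + s0 • v - (p + s0 • v) = d := by abel
    rw [this]
    exact hd2
  have h2 : L * Φ (p + d + (-s0) • v) < 0 := by
    apply hen
    rw [dist_eq_norm]
    have : p + d + (-s0) • v - (p + (-s0) • v) = d := by abel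
    rw [this]
    exact hd3
  have hco : ContinuousOn (fun s : ℝ => L * Φ (p + d + s • v)) (Icc (-s0) s0) := by
    apply ContinuousOn.mul continuousOn_const
    apply hcont.comp (by fun_prop)
    intro s hs
    exact (hmem d hd1 s (abs_le.2 ⟨hs.1, hs.2⟩)).1
  have hivt := intermediate_value_Icc (by linarith : -s0 ≤ s0) hco
  obtain ⟨s, hs, hs2⟩ := hivt ⟨h2.le, h1.le⟩
  have hs3 := hmem d hd1 s (abs_le.2 ⟨hs.1, hs.2⟩)
  refine ⟨s, (hMΦ _ hs3.1).2 ?_, lt_of_lt_of_le hs3.2 (min_le_right _ _)⟩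
  rcases mul_eq_zero.1 hs2 with h3 | h3
  · exact absurd h3 hL
  · exact h3

end Pool.Agent.Q82.CW
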