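import Pool.Agent.Q160.WPal4

/-!
A Cantor-type word over four letters: `U_0 = 0120210`, `U_{k+1} = U_k 3^{|U_k|} U_k`.
-/

namespace Q160.Cantor

open Q160.WPal

/-- no digit `1` in base `3` -/
def C (q : ℕ) : Prop := 1 ∉ Nat.digits 3 q

instance (q : ℕ) : Decidable (C q) := by unfold C; infer_instance

/-- the central block `0120210` -/
def P7 (b : ℕ) : Fin 4 :=
  if b = 0 then 0 else if b = 1 then 1 else if b = 2 then 2 else if b = 3 then 0
  else if b = 4 then 2 else if b = 5 then 1 else 0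

/-- the word -/
def u (i : ℕ) : Fin 4 := if C (i / 7) then P7 (i % 7) else 3

def B (M : ℕ) : ℕ := 7 * 3 ^ M

theorem B_pos (M : ℕ) : 0 < B M := by unfold B; positivity

theorem B_succ (M : ℕ) : B (M+1) = 3 * B M := by unfold B; ring

theorem le_B (M : ℕ) : M < B M := by
  have : M < 3 ^ M := Nat.lt_pow_self (by norm_num)
  unfold B; omega

theorem B_mono {M N : ℕ} (h : M ≤ N) : B M ≤ B N := by
  unfold B
  exact Nat.mul_le_mul_left _ (Nat.pow_le_pow_right (by norm_num) h)

theorem C_iff (q : ℕ) : C q ↔ q % 3 ≠ 1 ∧ C (q / 3) := by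
  unfold C
  rcases Nat.eq_zero_or_pos q with rfl | h
  · simp
  · rw [Nat.digits_def' (by norm_num) h]
    simp only [List.mem_cons, not_or]
    constructor
    · rintro ⟨h1, h2⟩; exact ⟨fun h => h1 h.symm, h2⟩
    · rintro ⟨h1, h2⟩; exact ⟨fun h => h1 h.symm, h2⟩

theorem C_zero : C 0 := by simp [C]

theorem C_two : C 2 := by rw [C_iff]; exact ⟨by norm_num, by simpa using C_zero⟩

theorem not_C_one : ¬ C 1 := by rw [C_iff]; simp

theorem C_split (M q r : ℕ) (hr : r < 3 ^ M) : C (q * 3 ^ M + r) ↔ C q ∧ C r := by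
  induction M generalizing r with
  | zero =>
    have : r = 0 := by simpa using hr
    subst this
    simp [C_zero]
  | succ M ih =>
    rw [C_iff (q * 3 ^ (M+1) + r), C_iff r]
    have e1 : (q * 3 ^ (M+1) + r) % 3 = r % 3 := by
      rw [pow_succ, ← mul_assoc, Nat.add_comm, Nat.add_mul_mod_self_right]
    have e2 : (q * 3 ^ (M+1) + r) / 3 = q * 3 ^ M + r / 3 := by
      rw [pow_succ, ← mul_assoc, Nat.add_comm, Nat.add_mul_div_right _ _ (by norm_num)]
      ring
    rw [e1, e2, ih (r / 3) (by rw [pow_succ] at hr; omega)]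
    tauto

theorem C_not_succ {q : ℕ} (h : C q) : ¬ C (q + 1) := by
  induction q using Nat.strong_induction_on with
  | _ q ih =>
    intro h'
    rw [C_iff] at h h'
    have h3 : q % 3 = 0 ∨ q % 3 = 1 ∨ q % 3 = 2 := by omega
    rcases h3 with h3 | h3 | h3
    · exact h'.1 (by omega)
    · exact h.1 h3
    · have e : (q + 1) / 3 = q / 3 + 1 := by omega
      rw [e] at h'
      exact ih (q / 3) (by omega) h.2 h'.2

theorem C_refl (M a : ℕ) (ha : a < 3 ^ M) : C (3 ^ M - 1 - a) ↔ C a := by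
  induction M generalizing a with
  | zero =>
    have : a = 0 := by simpa using ha
    subst this
    simp
  | succ M ih =>
    have hp : 0 < 3 ^ M := by positivity
    have e0 : 3 ^ (M+1) = 3 * 3 ^ M := by ring
    rw [C_iff (3 ^ (M+1) - 1 - a), C_iff a]
    have e1 : (3 ^ (M+1) - 1 - a) % 3 = 2 - a % 3 := by omega
    have e2 : (3 ^ (M+1) - 1 - a) / 3 = 3 ^ M - 1 - a / 3 := by omega
    rw [e1, e2, ih (a / 3) (by omega)]
    constructor
    · rintro ⟨h1, h2⟩; exact ⟨by omega, h2⟩
    · rintro ⟨h1, h2⟩; exact ⟨by omega, h2⟩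

theorem P7_refl (b : ℕ) (hb : b < 7) : P7 (6 - b) = P7 b := by
  interval_cases b <;> rfl

theorem P7_ne (b : ℕ) : P7 b ≠ 3 := by
  unfold P7
  split_ifs <;> decide

theorem u_ne_iff (i : ℕ) : u i ≠ 3 ↔ C (i / 7) := by
  unfold u
  split_ifs with h
  · simp [h, P7_ne]
  · simp [h]

theorem u_eq_three {i : ℕ} : u i = 3 ↔ ¬ C (i / 7) := by
  rw [← u_ne_iff]; simp

theorem u_block {M q o : ℕ} (hq : C q) (ho : o < B M) : u (q * B M + o) = u o := by
  have e0 : q * B M = 7 * (q * 3 ^ M) := by unfold B; ring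
  have e1 : (q * B M + o) / 7 = q * 3 ^ M + o / 7 := by
    rw [e0]; omega
  have e2 : (q * B M + o) % 7 = o % 7 := by
    rw [e0]; omega
  have h : o / 7 < 3 ^ M := by unfold B at ho; omega
  unfold u
  rw [e1, e2]
  have := C_split M q (o / 7) h
  by_cases hc : C (o / 7)
  · rw [if_pos (this.2 ⟨hq, hc⟩), if_pos hc]
  · rw [if_neg (fun h' => hc (this.1 h').2), if_neg hc]

theorem u_gap {M q o : ℕ} (hq : ¬ C q) (ho : o < B M) : u (q * B M + o) = 3 := by
  rw [u_eq_three]
  have e0 : q * B M = 7 * (q * 3 ^ M) := by unfold B; ring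
  have e1 : (q * B M + o) / 7 = q * 3 ^ M + o / 7 := by
    rw [e0]; omega
  have h : o / 7 < 3 ^ M := by unfold B at ho; omega
  rw [e1, C_split M q _ h]
  tauto

theorem u_refl {M o : ℕ} (ho : o < B M) : u (B M - 1 - o) = u o := by
  have hb := ho
  unfold B at hb
  have e1 : (B M - 1 - o) / 7 = 3 ^ M - 1 - o / 7 := by unfold B; omega
  have e2 : (B M - 1 - o) % 7 = 6 - o % 7 := by unfold B; omega
  unfold u
  rw [e1, e2]
  have := C_refl M (o / 7) (by omega)
  by_cases hc : C (o / 7)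
  · rw [if_pos (this.2 hc), if_pos hc, P7_refl _ (by omega)]
  · rw [if_neg (fun h' => hc (this.1 h')), if_neg hc]

theorem u_zero : u 0 = 0 := by
  unfold u; rw [if_pos (by simpa using C_zero)]; rfl

/-- first letter of a block -/
theorem u_first {M q : ℕ} (hq : C q) : u (q * B M) ≠ 3 := by
  have := u_block (M := M) (o := 0) hq (B_pos M)
  rw [Nat.add_zero] at this
  rw [this, u_zero]; decide

/-- last letter of a block -/
theorem u_last {M q : ℕ} (hq : C q) : u (q * B M + (B M - 1)) ≠ 3 := by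
  have hB := B_pos M
  rw [u_block hq (by omega)]
  have := u_refl (M := M) (o := 0) hB
  rw [Nat.sub_zero] at this
  rw [this, u_zero]; decide

/-- decompose a position -/
theorem pos_split (M i : ℕ) : ∃ q o, o < B M ∧ i = q * B M + o :=
  ⟨i / B M, i % B M, Nat.mod_lt _ (B_pos M), by rw [mul_comm]; exact (Nat.div_add_mod i (B M)).symm⟩

end Q160.Cantor
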