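import Pool.Agent.Q160.WPal4

/-! Passing from complete return words to consecutive occurrences. -/

namespace Q160.WPal

variable {A : Type*}

theorem fac_append (u : ℕ → A) (l a b : ℕ) : fac u l (a + b) = fac u l a ++ fac u (l + a) b := by
  unfold fac
  rw [List.range_add, List.map_append, List.map_map]
  congr 1
  apply List.map_congr_left
  intro t _
  simp [add_assoc]

theorem fac_take {u : ℕ → A} {l m n : ℕ} (h : n ≤ m) : (fac u l m).take n = fac u l n := by
  obtain ⟨k, rfl⟩ := Nat.exists_eq_add_of_le h
  rw [fac_append, List.take_left' (by simp)]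

theorem fac_drop {u : ℕ → A} {l m n : ℕ} (h : n ≤ m) :
    (fac u l m).drop n = fac u (l + n) (m - n) := by
  obtain ⟨k, rfl⟩ := Nat.exists_eq_add_of_le h
  rw [fac_append, List.drop_left' (by simp)]
  simp

theorem cret_pos {u : ℕ → A} {w : List A} {l m n : ℕ} (hn : w.length = n)
    (h : CompleteReturn w (fac u l m)) : n < m ∧ fac u l n = w ∧ fac u (l + (m - n)) n = w ∧
      ∀ x, l < x → x < l + (m - n) → fac u x n ≠ w := by
  obtain ⟨h1, h2, h3, h4⟩ := h
  rw [fac_length', hn] at h1
  refine ⟨h1, ?_, ?_, ?_⟩
  · rw [List.prefix_iff_eq_take, hn, fac_take h1.le] at h2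
    exact h2.symm
  · rw [List.suffix_iff_eq_drop, hn, fac_length', fac_drop (by omega)] at h3
    rw [h3]
    congr 1
    omega
  · intro x hx1 hx2 hx3
    have e : fac u l m = fac u l (x - l) ++ w ++ fac u (x + n) (l + m - x - n) := by
      rw [← hx3]
      rw [show fac u x n = fac u (l + (x - l)) n by congr 1; omega, ← fac_append,
        show x + n = l + (x - l + n) by omega, ← fac_append]
      congr 1
      omega
    rcases h4 _ _ e with h5 | h5
    · have := congrArg List.length h5
      simp at this
      omega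
    · have := congrArg List.length h5
      simp at this
      omega

/-- to prove `PalRet` it suffices to treat consecutive occurrences -/
theorem palRet_of {u : ℕ → A} {K : ℕ}
    (h : ∀ n l l', K ≤ n → l < l' → Sy u l (2 * l + n) → fac u l' n = fac u l n →
      (∀ x, l < x → x < l' → fac u x n ≠ fac u l n) → Sy u l (l + l' + n)) : PalRet u K := by
  rintro n w hn ⟨⟨i, hi⟩, hp⟩ m v ⟨l, rfl⟩ hc
  have hlen : w.length = n := by rw [hi]; simp
  obtain ⟨h1, h2, h3, h4⟩ := cret_pos hlen hc
  have := h n l (l + (m - n)) hn (by omega) (by rw [← pal_iff, h2, hp]) (by rw [h2, h3])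
    (fun x hx1 hx2 => by rw [h2]; exact h4 x hx1 hx2)
  rw [pal_iff]
  rwa [show l + (l + (m - n)) + n = 2 * l + m by omega] at this

end Q160.WPal
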