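import Pool.Agent.Q160.Cantor
import Pool.Agent.Q160.WPal5

/-! Complete returns of the long palindromes of the Cantor-type word are palindromes. -/

namespace Q160.Cantor

open Q160.WPal

theorem C_three_mul {p : ℕ} (hp : C p) : C (3 * p) := by
  rw [C_iff]
  exact ⟨by omega, by rwa [show 3 * p / 3 = p by omega]⟩

theorem C_three_mul_add_two {p : ℕ} (hp : C p) : C (3 * p + 2) := by
  rw [C_iff]
  exact ⟨by omega, by rwa [show (3 * p + 2) / 3 = p by omega]⟩

theorem block_lt {M a b x : ℕ} (h1 : a * B M ≤ x) (h2 : x < b * B M) : a < b :=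
  Nat.lt_of_mul_lt_mul_right (lt_of_le_of_lt h1 h2)

/-- symmetry around the middle of two consecutive blocks -/
theorem sym_blocks {M p p' l : ℕ} (hp : C p) (hp' : C p') (hpp : p ≤ p')
    (hno : ∀ a, p < a → a < p' → ¬ C a) (hl : p * B M ≤ l + B M) :
    Sy u l ((p + p' + 1) * B M) := by
  intro x y hx hy hxy
  have hB := B_pos M
  obtain ⟨a, o, ho, hxa⟩ := pos_split M x
  have e0 : (p + p' + 1) * B M = p * B M + p' * B M + B M := by ring
  rw [e0] at hxy
  have ha : a ≤ p + p' := by
    have : a * B M < (p + p' + 1) * B M := by rw [e0]; omega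
    have := Nat.lt_of_mul_lt_mul_right this
    omega
  obtain ⟨a', ha'⟩ := Nat.exists_eq_add_of_le ha
  have e1 : p * B M + p' * B M = a * B M + a' * B M := by
    rw [← Nat.add_mul, ← Nat.add_mul, ha']
  have hya : y = a' * B M + (B M - 1 - o) := by omega
  have ho' : B M - 1 - o < B M := by omega
  have hla : p < a + 2 := by
    apply block_lt (M := M) (x := x + B M) (by omega)
    have : (a + 2) * B M = a * B M + 2 * B M := by ring
    omega
  have hla' : p < a' + 2 := by
    apply block_lt (M := M) (x := y + B M) (by omega)
    have : (a' + 2) * B M = a' * B M + 2 * B M := by ring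
    omega
  have notC : ∀ c, p < c + 2 → c < p' + 2 → c ≠ p → c ≠ p' → ¬ C c := by
    intro c h1 h2 h3 h4 h5
    rcases Nat.lt_or_ge c p with h6 | h6
    · have : c + 1 = p := by omega
      exact C_not_succ h5 (this ▸ hp)
    · rcases Nat.lt_or_ge p' c with h7 | h7
      · have : c = p' + 1 := by omega
        exact C_not_succ hp' (this ▸ h5)
      · exact hno c (by omega) (by omega) h5
  by_cases h1 : a = p
  · have h2 : a' = p' := by omega
    rw [hxa, hya, h1, h2, u_block hp ho, u_block hp' ho', u_refl ho]
  · by_cases h2 : a = p'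
    · have h3 : a' = p := by omega
      rw [hxa, hya, h2, h3, u_block hp' ho, u_block hp ho', u_refl ho]
    · rw [hxa, hya, u_gap (notC a hla (by omega) h1 h2) ho,
        u_gap (notC a' hla' (by omega) (by omega) (by omega)) ho']

/-- a palindrome centered at a block has length at most `3 B` -/
theorem len_le {M p l n : ℕ} (hp : C p) (hs : 2 * l + n = (2 * p + 1) * B M)
    (hS : Sy u l (2 * l + n)) : n ≤ 3 * B M := by
  by_contra hcon
  have hB := B_pos M
  have e0 : (2 * p + 1) * B M = 2 * (p * B M) + B M := by ring
  rw [e0] at hs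
  have hp2 : 1 ≤ p := by
    rcases Nat.eq_zero_or_pos p with h | h
    · subst h; omega
    · exact h
  have hpC := hp
  rw [C_iff] at hp
  obtain ⟨p', rfl⟩ : ∃ p', p = p' + 2 := ⟨p - 2, by omega⟩
  have e1 : (p' + 2) * B M = p' * B M + 2 * B M := by ring
  rw [e1] at hs
  have e2 : (p' + 4) * B M = p' * B M + 4 * B M := by ring
  have hx := hS ((p' + 4) * B M) (p' * B M + (B M - 1)) (by omega) (by omega) (by omega)
  have h3 : (p' + 2) % 3 = 0 ∨ (p' + 2) % 3 = 2 := by omega
  rcases h3 with h3 | h3
  · have hc : C (p' + 4) := by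
      rw [C_iff]
      refine ⟨by omega, ?_⟩
      rw [show (p' + 4) / 3 = (p' + 2) / 3 by omega]
      exact hp.2
    have hn : ¬ C p' := by
      rw [C_iff]
      intro h
      exact h.1 (by omega)
    rw [u_gap hn (by omega)] at hx
    exact u_first hc hx
  · have hc : C p' := by
      rw [C_iff]
      refine ⟨by omega, ?_⟩
      rw [show p' / 3 = (p' + 2) / 3 by omega]
      exact hp.2
    have hn : ¬ C (p' + 4) := by
      rw [C_iff]
      intro h
      exact h.1 (by omega)
    have hg := u_gap (o := 0) hn hB
    rw [Nat.add_zero] at hg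
    rw [hg] at hx
    exact u_last hc hx.symm

theorem not_C_decomp {q : ℕ} (h : ¬ C q) : ∃ M p, C p ∧ q / 3 ^ M = 3 * p + 1 := by
  induction q using Nat.strong_induction_on with
  | _ q ih =>
    by_cases h3 : C (q / 3)
    · have h1 : q % 3 = 1 := by
        by_contra h'
        exact h ((C_iff q).2 ⟨h', h3⟩)
      exact ⟨0, q / 3, h3, by simp; omega⟩
    · have hq : q ≠ 0 := by
        rintro rfl
        exact h C_zero
      obtain ⟨M, p, hp, he⟩ := ih (q / 3) (by omega) h3
      refine ⟨M + 1, p, hp, ?_⟩
      rw [pow_succ, mul_comm, ← Nat.div_div_eq_div_mul, he]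

/-- the central run of a long palindrome that is not a power of `3` -/
theorem center {l n : ℕ} (hn : 22 ≤ n) (hS : Sy u l (2 * l + n))
    (hex : ∃ e, l ≤ e ∧ e < l + n ∧ u e ≠ 3) :
    ∃ M p, C p ∧ 2 * l + n = (2 * p + 1) * B (M + 1) ∧ B M + 2 ≤ n := by
  set i := l + n / 2 with hi
  by_cases h3 : u i = 3
  · rw [u_eq_three] at h3
    obtain ⟨M, p, hp, he⟩ := not_C_decomp h3
    have hB := B_pos M
    have hg : i / B M = 3 * p + 1 := by
      unfold B
      rw [← Nat.div_div_eq_div_mul, he]
    have hi1 : (3 * p + 1) * B M ≤ i := by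
      rw [← hg]; exact Nat.div_mul_le_self _ _
    have hi2 : i < (3 * p + 2) * B M := by
      have := Nat.lt_div_mul_add (a := i) hB
      rw [hg] at this
      calc i < (3 * p + 1) * B M + B M := this
        _ = (3 * p + 2) * B M := by ring
    have f0 : (3 * p + 1) * B M = 3 * p * B M + B M := by ring
    have f1 : (3 * p + 2) * B M = 3 * p * B M + 2 * B M := by ring
    have hgap : ∀ x, (3 * p + 1) * B M ≤ x → x < (3 * p + 2) * B M → u x = 3 := by
      intro x h1 h2
      have hnc : ¬ C (3 * p + 1) := C_not_succ (C_three_mul hp)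
      have := u_gap (M := M) (o := x - (3 * p + 1) * B M) hnc (by omega)
      rwa [show (3 * p + 1) * B M + (x - (3 * p + 1) * B M) = x by omega] at this
    have hR1 : u ((3 * p + 2) * B M) ≠ 3 := u_first (C_three_mul_add_two hp)
    have hR0 : u (3 * p * B M + (B M - 1)) ≠ 3 := u_last (C_three_mul hp)
    obtain ⟨e, he1, he2, he3⟩ := hex
    have step1 : l ≤ 3 * p * B M + (B M - 1) → 3 * p * B M + 3 * p * B M + 3 * B M ≤ 2 * l + n := by
      intro hl
      by_contra hcon
      have hy := hS (3 * p * B M + (B M - 1)) (2 * l + n - (3 * p * B M + B M))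
        (by omega) (by omega) (by omega)
      apply hR0
      rw [hy]
      exact hgap _ (by omega) (by omega)
    have step2 : (3 * p + 2) * B M < l + n →
        2 * l + n ≤ 3 * p * B M + 3 * p * B M + 3 * B M := by
      intro hl
      by_contra hcon
      have hy := hS ((3 * p + 2) * B M) (2 * l + n - 1 - (3 * p + 2) * B M)
        (by omega) (by omega) (by omega)
      apply hR1
      rw [hy]
      exact hgap _ (by omega) (by omega)
    have hs : 2 * l + n = 3 * p * B M + 3 * p * B M + 3 * B M ∧
        l ≤ 3 * p * B M + (B M - 1) := by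
      rcases Nat.lt_or_ge e ((3 * p + 1) * B M) with h | h
      · have a1 : l ≤ 3 * p * B M + (B M - 1) := by omega
        have a2 := step1 a1
        exact ⟨le_antisymm (step2 (by omega)) a2, a1⟩
      · have a1 : (3 * p + 2) * B M ≤ e := by
          by_contra h'
          exact he3 (hgap e h (by omega))
        have a2 := step2 (by omega)
        have a3 : l ≤ 3 * p * B M + (B M - 1) := by omega
        exact ⟨le_antisymm a2 (step1 a3), a3⟩
    refine ⟨M, p, hp, ?_, ?_⟩
    · rw [hs.1, B_succ]; ring
    · omega
  · exfalso
    rw [← ne_eq, u_ne_iff] at h3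
    set q := i / 7 with hq
    have hq1 : 1 ≤ q := by omega
    have hb0 : B 0 = 7 := by unfold B; norm_num
    have hC1 : ¬ C (q + 1) := C_not_succ h3
    have hC0 : ¬ C (q - 1) := by
      intro h
      have := C_not_succ h
      rw [Nat.sub_add_cancel hq1] at this
      exact this h3
    have r1 : u (7 * q + 7) = 3 := by
      rw [u_eq_three, show (7 * q + 7) / 7 = q + 1 by omega]; exact hC1
    have r0 : u (7 * q - 1) = 3 := by
      rw [u_eq_three, show (7 * q - 1) / 7 = q - 1 by omega]; exact hC0
    have hin : ∀ x, 7 * q ≤ x → x < 7 * q + 7 → u x ≠ 3 := by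
      intro x h1 h2
      rw [u_ne_iff, show x / 7 = q by omega]; exact h3
    have hs : 2 * l + n = 14 * q + 7 := by
      have a1 : 2 * l + n ≤ 14 * q + 7 := by
        by_contra hcon
        have hy := hS (7 * q + 7) (2 * l + n - 1 - (7 * q + 7)) (by omega) (by omega) (by omega)
        rw [r1] at hy
        exact hin _ (by omega) (by omega) hy.symm
      have a2 : 14 * q + 7 ≤ 2 * l + n := by
        by_contra hcon
        have hy := hS (7 * q - 1) (2 * l + n - 7 * q) (by omega) (by omega) (by omega)
        rw [r0] at hy
        exact hin _ (by omega) (by omega) hy.symm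
      omega
    have := len_le (M := 0) h3 (by rw [hb0, hs]; ring) hS
    omega

/-- a run of `3`s longer than `B M` does not fit in a block of level `M + 1` -/
theorem no_run {M q o n : ℕ} (hq : C q) (hn : B M < n) (ho : o + n ≤ B (M + 1))
    (h : ∀ t, o ≤ t → t < o + n → u (q * B (M+1) + t) = 3) : False := by
  have hB := B_pos M
  rw [B_succ] at ho
  have key : ∀ t, t < B (M+1) → u t ≠ 3 → o ≤ t → t < o + n → False := by
    intro t h1 h2 h3 h4
    have := h t h3 h4
    rw [u_block hq h1] at this
    exact h2 this
  have k1 : u (B M - 1) ≠ 3 := by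
    have := u_last (M := M) C_zero
    simpa using this
  have k2 : u (2 * B M) ≠ 3 := u_first C_two
  have c1 := key (B M - 1) (by rw [B_succ]; omega) k1
  have c2 := key (2 * B M) (by rw [B_succ]; omega) k2
  rcases Nat.lt_or_ge (B M - 1) o with h1 | h1
  · rcases Nat.lt_or_ge (2 * B M) o with h2 | h2
    · omega
    · exact c2 h2 (by omega)
  · exact c1 h1 (by omega)

theorem palRet_u : PalRet u 22 := by
  apply palRet_of
  intro n l l' hn hl hS hw hno
  by_cases hex : ∃ e, l ≤ e ∧ e < l + n ∧ u e ≠ 3
  · -- the palindrome contains letters other than `3`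
    obtain ⟨M, p, hp, hs, hMn⟩ := center hn hS hex
    have hw' := fac_eq_iff.1 hw
    have hS' : Sy u l' (2 * l' + n) := by
      rw [← pal_iff, hw, pal_iff]; exact hS
    have hex' : ∃ e, l' ≤ e ∧ e < l' + n ∧ u e ≠ 3 := by
      obtain ⟨e, h1, h2, h3⟩ := hex
      refine ⟨l' + (e - l), by omega, by omega, ?_⟩
      rw [hw' (e - l) (by omega), show l + (e - l) = e by omega]
      exact h3
    obtain ⟨M', p', hp', hs', hMn'⟩ := center hn hS' hex'
    -- same level
    have hMM : ∀ l l' M p M' p', C p → C p' → 2 * l + n = (2 * p + 1) * B (M + 1) →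
        2 * l' + n = (2 * p' + 1) * B (M' + 1) → B M + 2 ≤ n → B M' + 2 ≤ n →
        (∀ t < n, u (l' + t) = u (l + t)) → ¬ B M < B M' := by
      intro l l' M p M' p' hp hp' hs hs' hMn hMn' hw' hlt
      have e1 : (2 * p + 1) * B (M + 1) = 2 * (3 * p * B M) + 3 * B M := by
        rw [B_succ]; ring
      have e1' : (2 * p' + 1) * B (M' + 1) = 2 * (3 * p' * B M') + 3 * B M' := by
        rw [B_succ]; ring
      rw [e1] at hs
      rw [e1'] at hs'
      have f1 : (3 * p + 2) * B M = 3 * p * B M + 2 * B M := by ring
      have hR1 : u ((3 * p + 2) * B M) ≠ 3 := u_first (C_three_mul_add_two hp)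
      have hnc : ¬ C (3 * p' + 1) := C_not_succ (C_three_mul hp')
      have f0' : (3 * p' + 1) * B M' = 3 * p' * B M' + B M' := by ring
      have := hw' ((3 * p + 2) * B M - l) (by omega)
      rw [show l + ((3 * p + 2) * B M - l) = (3 * p + 2) * B M by omega] at this
      apply hR1
      rw [← this]
      have hg := u_gap (M := M') (o := l' + ((3 * p + 2) * B M - l) - (3 * p' + 1) * B M') hnc
        (by omega)
      rwa [show (3 * p' + 1) * B M' + (l' + ((3 * p + 2) * B M - l) - (3 * p' + 1) * B M')
        = l' + ((3 * p + 2) * B M - l) by omega] at hg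
    have h1 := hMM l l' M p M' p' hp hp' hs hs' hMn hMn' hw'
    have h2 := hMM l' l M' p' M p hp' hp hs' hs hMn' hMn (fun t ht => (hw' t ht).symm)
    have hBB : B (M' + 1) = B (M + 1) := by rw [B_succ, B_succ]; omega
    rw [hBB] at hs'
    set b := B (M + 1) with hb
    have hbpos : 0 < b := B_pos _
    have hlen := len_le hp hs hS
    have e1 : (2 * p + 1) * b = 2 * (p * b) + b := by ring
    have e1' : (2 * p' + 1) * b = 2 * (p' * b) + b := by ring
    have hlt : p < p' := by
      have : p * b < p' * b := by omega
      exact Nat.lt_of_mul_lt_mul_right this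
    have hno' : ∀ a, p < a → a < p' → ¬ C a := by
      intro a h1 h2 hc
      obtain ⟨d, rfl⟩ := Nat.exists_eq_add_of_lt h1
      have e2 : (p + d + 1) * b = p * b + (d + 1) * b := by ring
      have h2' : (p + d + 1) * b < p' * b := Nat.mul_lt_mul_of_pos_right h2 hbpos
      refine hno (l + (d + 1) * b) ?_ (by omega) ?_
      · have : 0 < (d + 1) * b := by positivity
        omega
      rw [fac_eq_iff]
      intro t ht
      obtain ⟨c, o, ho, hco⟩ := pos_split (M + 1) (l + t)
      rw [← hb] at ho hco
      have e4 : (c + (d + 1)) * b = c * b + (d + 1) * b := by ring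
      have e3 : l + (d + 1) * b + t = (c + (d + 1)) * b + o := by
        rw [e4]; omega
      rw [e3, hco]
      have g1 : p < c + 2 := by
        apply block_lt (M := M + 1) (x := l + t + b)
        · rw [← hb]; omega
        · rw [← hb]
          have : (c + 2) * b = c * b + 2 * b := by ring
          omega
      have g2 : c < p + 2 := by
        apply block_lt (M := M + 1) (x := l + t)
        · rw [← hb]; omega
        · rw [← hb]
          have : (p + 2) * b = p * b + 2 * b := by ring
          omega
      rcases (by omega : c = p ∨ c = p + 1 ∨ c + 1 = p) with h | h | h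
      · subst h
        rw [hb] at ho ⊢
        rw [show c + (d + 1) = c + d + 1 by omega, u_block hc ho, u_block hp ho]
      · have n1 : ¬ C c := by rw [h]; exact C_not_succ hp
        have n2 : ¬ C (c + (d + 1)) := by
          rw [h, show p + 1 + (d + 1) = p + d + 1 + 1 by omega]; exact C_not_succ hc
        rw [hb] at ho ⊢
        rw [u_gap n1 ho, u_gap n2 ho]
      · have n1 : ¬ C c := fun h' => C_not_succ h' (h ▸ hp)
        have n2 : ¬ C (c + (d + 1)) := fun h' =>
          C_not_succ h' (by rwa [show c + (d + 1) + 1 = p + d + 1 by omega])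
        rw [hb] at ho ⊢
        rw [u_gap n1 ho, u_gap n2 ho]
    have hfin := sym_blocks (M := M + 1) (l := l) hp hp' hlt.le hno' (by rw [← hb]; omega)
    rw [← hb] at hfin
    have e3 : (p + p' + 1) * b = p * b + p' * b + b := by ring
    rwa [show l + l' + n = (p + p' + 1) * b by omega]
  · -- a power of `3`
    push Not at hex
    have hw' := fac_eq_iff.1 hw
    have hall' : ∀ x, l' ≤ x → x < l' + n → u x = 3 := by
      intro x h1 h2
      have := hw' (x - l') (by omega)
      rw [show l' + (x - l') = x by omega] at this
      rw [this]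
      exact hex _ (by omega) (by omega)
    have hocc : ∀ x, (∀ t, x ≤ t → t < x + n → u t = 3) → fac u x n = fac u l n := by
      intro x hx
      rw [fac_eq_iff]
      intro t ht
      rw [hx _ (by omega) (by omega), hex _ (by omega) (by omega)]
    by_cases h3 : u (l + n) = 3
    · have hll : l' = l + 1 := by
        by_contra hne
        refine hno (l + 1) (by omega) (by omega) (hocc _ ?_)
        intro t h1 h2
        rcases Nat.lt_or_ge t (l + n) with h | h
        · exact hex t (by omega) h
        · rw [show t = l + n by omega]; exact h3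
      have hall : ∀ x, l ≤ x → x ≤ l + n → u x = 3 := by
        intro x h1 h2
        rcases Nat.lt_or_ge x (l + n) with h | h
        · exact hex x h1 h
        · rw [show x = l + n by omega]; exact h3
      intro x y hx hy hxy
      rw [hall x hx (by omega), hall y hy (by omega)]
    · -- end of a run
      obtain ⟨M, hM1, hM2⟩ : ∃ M, B M < n ∧ n ≤ B (M + 1) := by
        have hb0 : B 0 = 7 := by unfold B; norm_num
        have hex2 : ∃ M, n ≤ B M := ⟨n, (le_B n).le⟩
        have hf := Nat.find_spec hex2
        have hf0 : Nat.find hex2 ≠ 0 := by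
          intro h
          rw [h] at hf
          omega
        obtain ⟨M, hM⟩ := Nat.exists_eq_succ_of_ne_zero hf0
        refine ⟨M, ?_, by rw [hM] at hf; exact hf⟩
        have := Nat.find_min hex2 (m := M) (by omega)
        omega
      set b := B (M + 1) with hb
      have hbpos : 0 < b := B_pos _
      obtain ⟨a, o, ho, hao⟩ := pos_split (M + 1) (l + n)
      rw [← hb] at ho hao
      have hCa : C a := by
        by_contra hc
        apply h3
        rw [hao]
        exact u_gap hc ho
      have hfirst : u (a * b) ≠ 3 := u_first hCa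
      have hlast : u (a * b + (b - 1)) ≠ 3 := u_last hCa
      have ho0 : o = 0 := by
        by_contra ho0
        rcases Nat.lt_or_ge (a * b) l with h | h
        · refine no_run (M := M) (o := o - n) (n := n) hCa hM1 (by rw [← hb]; omega) ?_
          intro t h1 h2
          rw [← hb]
          exact hex _ (by omega) (by omega)
        · exact hfirst (hex _ h (by omega))
      subst ho0
      have e2 : (a + 1) * b = a * b + b := by ring
      have hCa1 : ¬ C (a + 1) := C_not_succ hCa
      have hle : l' ≤ (a + 1) * b := by
        by_contra hcon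
        refine hno ((a + 1) * b) (by omega) (by omega) (hocc _ ?_)
        intro t h1 h2
        have := u_gap (M := M + 1) (o := t - (a + 1) * b) hCa1 (by rw [← hb]; omega)
        rw [← hb] at this
        rwa [show (a + 1) * b + (t - (a + 1) * b) = t by omega] at this
      have hgt : a * b < l' := by
        by_contra hcon
        exact hfirst (hall' _ (by omega) (by omega))
      have heq : l' = (a + 1) * b := by
        by_contra hne
        have hl2 : l' + n ≤ a * b + (b - 1) := by
          by_contra hcon
          exact hlast (hall' _ (by omega) (by omega))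
        refine no_run (M := M) (o := l' - a * b) (n := n) hCa hM1 (by rw [← hb]; omega) ?_
        intro t h1 h2
        rw [← hb]
        exact hall' _ (by omega) (by omega)
      have hfin := sym_blocks (M := M + 1) (l := l) hCa hCa le_rfl (fun x h1 h2 => by omega)
        (by rw [← hb]; omega)
      rw [← hb] at hfin
      have e3 : (a + a + 1) * b = a * b + a * b + b := by ring
      rwa [show l + l' + n = (a + a + 1) * b by omega]

end Q160.Cantor
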