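import Pool.Agent.Q160.Cantor2

/-! Further properties of the Cantor-type word: closure under reversal, defect at most one,
and factors whose longest palindromic suffix is not unioccurrent. -/

namespace Q160.Cantor

open Q160.WPal

theorem sy_zero (M : ℕ) : Sy u 0 (B M) := by
  intro x y _ _ hxy
  have := u_refl (M := M) (o := x) (by omega)
  rw [← this]
  congr 1
  omega

theorem closedRev_u : ClosedRev u := by
  intro i n
  have h := le_B (i + n)
  have := (sy_zero (i + n)).reflect (x := i) (n := n) (by omega) (by omega)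
  exact ⟨_, this.symm⟩

theorem gap_three {M q x : ℕ} (hq : ¬ C q) (h1 : q * B M ≤ x) (h2 : x < q * B M + B M) :
    u x = 3 := by
  have := u_gap (M := M) (o := x - q * B M) hq (by omega)
  rwa [show q * B M + (x - q * B M) = x by omega] at this

theorem infPal_u : InfPal u := by
  intro hfin
  have hsub : Set.range (fun n : ℕ => fac u (B n) n) ⊆ {w | ∃ n, w ∈ palN u n} := by
    rintro _ ⟨n, rfl⟩
    refine ⟨n, ⟨_, rfl⟩, ?_⟩
    rw [pal_iff]
    have hB := le_B n
    intro x y hx hy hxy
    rw [gap_three (M := n) not_C_one (by omega) (by omega),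
      gap_three (M := n) not_C_one (by omega) (by omega)]
  have hinf : (Set.range (fun n : ℕ => fac u (B n) n)).Infinite := by
    apply Set.infinite_range_of_injective
    intro a b hab
    have := congrArg List.length hab
    simpa using this
  exact hinf (hfin.subset hsub)

theorem T_zero : ∃ N, ∀ n, N ≤ n → T u n = 0 :=
  T_eventually_zero closedRev_u infPal_u palRet_u

/-! ### the defect -/

/-- palindromic factors of the prefix of length `n` -/
def Pf (n : ℕ) : Set (List (Fin 4)) := {v | v <:+: fac u 0 n ∧ v.reverse = v}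

theorem infix_pos {v : List (Fin 4)} {n : ℕ} (h : v <:+: fac u 0 n) :
    ∃ l, l + v.length ≤ n ∧ v = fac u l v.length := by
  obtain ⟨s, t, hst⟩ := h
  have hl := congrArg List.length hst
  simp at hl
  refine ⟨s.length, by omega, ?_⟩
  have e1 : ((fac u 0 n).drop s.length).take v.length = v := by
    rw [← hst, List.append_assoc, List.drop_left, List.take_left]
  rw [fac_drop (by omega), fac_take (by omega), Nat.zero_add] at e1
  exact e1.symm

theorem pos_infix {l k n : ℕ} (h : l + k ≤ n) : fac u l k <:+: fac u 0 n := by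
  refine ⟨fac u 0 l, fac u (l + k) (n - (l + k)), ?_⟩
  have e1 : fac u l k = fac u (0 + l) k := by rw [Nat.zero_add]
  rw [e1, ← fac_append]
  have e2 : fac u (l + k) (n - (l + k)) = fac u (0 + (l + k)) (n - (l + k)) := by
    rw [Nat.zero_add]
  rw [e2, ← fac_append]
  congr 1
  omega

theorem Pf_finite (n : ℕ) : (Pf n).Finite := by
  refine (List.finite_length_le (Fin 4) n).subset ?_
  rintro v ⟨h, -⟩
  have := h.length_le
  simpa using this

theorem Pf_mono {m n : ℕ} (h : m ≤ n) : (Pf m).ncard ≤ (Pf n).ncard := by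
  apply Set.ncard_le_ncard _ (Pf_finite n)
  rintro v ⟨h1, h2⟩
  obtain ⟨l, hl, he⟩ := infix_pos h1
  refine ⟨?_, h2⟩
  rw [he]
  exact pos_infix (by omega)

theorem Pf_step {n l : ℕ} (hl : l ≤ n) (hS : Sy u l (l + (n + 1)))
    (hno : ∀ l' < l, fac u l' (n + 1 - l) ≠ fac u l (n + 1 - l)) :
    (Pf n).ncard + 1 ≤ (Pf (n + 1)).ncard := by
  have hmem : fac u l (n + 1 - l) ∈ Pf (n + 1) := by
    refine ⟨pos_infix (by omega), ?_⟩
    rw [pal_iff]
    rwa [show 2 * l + (n + 1 - l) = l + (n + 1) by omega]
  have hnot : fac u l (n + 1 - l) ∉ Pf n := by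
    rintro ⟨h1, -⟩
    obtain ⟨l', hl', he⟩ := infix_pos h1
    simp only [fac_length'] at hl' he
    exact hno l' (by omega) he.symm
  rw [← Set.ncard_insert_of_notMem hnot (Pf_finite n)]
  apply Set.ncard_le_ncard _ (Pf_finite _)
  rintro v (rfl | ⟨h1, h2⟩)
  · exact hmem
  · obtain ⟨l', hl', he⟩ := infix_pos h1
    refine ⟨?_, h2⟩
    rw [he]
    exact pos_infix (by omega)

theorem u_small : u 0 = 0 ∧ u 1 = 1 ∧ u 2 = 2 ∧ u 3 = 0 ∧ u 4 = 2 ∧ u 5 = 1 ∧ u 6 = 0 := by
  have h0 : C 0 := C_zero
  refine ⟨?_, ?_, ?_, ?_, ?_, ?_, ?_⟩ <;> simp [u, h0, P7]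

/-- every prefix of length `≥ 5` ends with a new palindrome -/
theorem new_pal {N : ℕ} (hN : 8 ≤ N) :
    ∃ l, l < N ∧ Sy u l (l + N) ∧ ∀ l' < l, fac u l' (N - l) ≠ fac u l (N - l) := by
  -- the level
  obtain ⟨M, hM1, hM2⟩ : ∃ M, B M < N ∧ N ≤ B (M + 1) := by
    have hb0 : B 0 = 7 := by unfold B; norm_num
    have hex2 : ∃ M, N ≤ B M := ⟨N, (le_B N).le⟩
    have hf := Nat.find_spec hex2
    have hf0 : Nat.find hex2 ≠ 0 := by
      intro h
      rw [h] at hf
      omega
    obtain ⟨M, hM⟩ := Nat.exists_eq_succ_of_ne_zero hf0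
    refine ⟨M, ?_, by rw [hM] at hf; exact hf⟩
    have := Nat.find_min hex2 (m := M) (by omega)
    omega
  have hB := B_pos M
  have hBs := B_succ M
  have g1 : ∀ x, B M ≤ x → x < 2 * B M → u x = 3 := fun x h1 h2 =>
    gap_three (M := M) (q := 1) not_C_one (by omega) (by omega)
  have glast : u (B M - 1) ≠ 3 := by
    have := u_last (M := M) C_zero
    simpa using this
  have gtwo : u (2 * B M) ≠ 3 := u_first C_two
  rcases Nat.lt_or_ge (2 * B M) N with h | h
  · -- inside the last third
    refine ⟨3 * B M - N, by omega, ?_, ?_⟩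
    · have := (sy_zero (M + 1)).mono (lo' := 3 * B M - N) (by omega)
      rwa [show 3 * B M - N + N = B (M + 1) by omega]
    · intro l' hl' he
      rw [fac_eq_iff] at he
      have h1 := he (B M + (3 * B M - N - l') - 1 - (3 * B M - N)) (by omega)
      rcases Nat.lt_or_ge (B M + (3 * B M - N - l') - 1) (3 * B M - N) with h2 | h2
      · omega
      · have e1 : l' + (B M + (3 * B M - N - l') - 1 - (3 * B M - N)) = B M - 1 := by omega
        rw [e1] at h1
        apply glast
        rw [h1]
        apply g1 <;> omega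
  · rcases Nat.eq_zero_or_pos M with hM0 | hMpos
    · subst hM0
      have hb0 : B 0 = 7 := by unfold B; norm_num
      refine ⟨7, by omega, ?_, ?_⟩
      · intro x y hx hy hxy
        rw [g1 x (by omega) (by omega), g1 y (by omega) (by omega)]
      · intro l' hl' he
        rw [fac_eq_iff] at he
        have h1 := he 0 (by omega)
        rw [g1 (7 + 0) (by omega) (by omega)] at h1
        have : C ((l' + 0) / 7) := by
          rw [show (l' + 0) / 7 = 0 by omega]; exact C_zero
        exact (u_ne_iff _).2 this h1
    · obtain ⟨M', rfl⟩ : ∃ M', M = M' + 1 := ⟨M - 1, by omega⟩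
      have hb := B_pos M'
      have hbs := B_succ M'
      have k1 : ∀ x, B M' ≤ x → x < 2 * B M' → u x = 3 := fun x h1 h2 =>
        gap_three (M := M') (q := 1) not_C_one (by omega) (by omega)
      rcases Nat.lt_or_ge (B M') (N - B (M' + 1)) with hr | hr
      · refine ⟨B (M' + 1), by omega, ?_, ?_⟩
        · intro x y hx hy hxy
          rw [g1 x (by omega) (by omega), g1 y (by omega) (by omega)]
        · intro l' hl' he
          rw [fac_eq_iff] at he
          have hall : ∀ x, l' ≤ x → x < l' + (N - B (M' + 1)) → u x = 3 := by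
            intro x h1 h2
            have := he (x - l') (by omega)
            rw [show l' + (x - l') = x by omega] at this
            rw [this]
            exact g1 _ (by omega) (by omega)
          have hend : l' + (N - B (M' + 1)) ≤ B (M' + 1) - 1 := by
            by_contra hcon
            exact glast (hall _ (by omega) (by omega))
          refine no_run (M := M') (q := 0) (o := l') (n := N - B (M' + 1)) C_zero hr
            (by omega) ?_
          intro t h1 h2
          rw [Nat.zero_mul, Nat.zero_add]
          exact hall t h1 h2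
      · have hr1 : 1 ≤ N - B (M' + 1) := by omega
        set r := N - B (M' + 1) with hrdef
        refine ⟨2 * B M' - r, by omega, ?_, ?_⟩
        · have := sym_blocks (M := M') (l := 2 * B M' - r) C_two C_two le_rfl
            (fun x h1 h2 => by omega) (by omega)
          rwa [show 2 * B M' - r + N = (2 + 2 + 1) * B M' by omega]
        · intro l' hl' he
          rw [fac_eq_iff] at he
          have h2 := he r (by omega)
          have e2 : 2 * B M' - r + r = 2 * B M' := by omega
          rw [e2] at h2
          have n2 : u (l' + r) ≠ 3 := by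
            rw [h2]; exact u_first C_two
          have h3 : l' + r < B M' := by
            by_contra hcon
            exact n2 (k1 _ (by omega) (by omega))
          have h4 := he (r + B M' - 1) (by omega)
          have e4 : 2 * B M' - r + (r + B M' - 1) = 2 * B M' + (B M' - 1) := by omega
          rw [e4] at h4
          have n4 : u (l' + (r + B M' - 1)) ≠ 3 := by
            rw [h4]; exact u_last C_two
          exact n4 (k1 _ (by omega) (by omega))

theorem Pf_ge (n : ℕ) : n ≤ (Pf n).ncard := by
  obtain ⟨a0, a1, a2, a3, a4, a5, a6⟩ := u_small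
  have one : ∀ n, (∀ l' < n, u l' ≠ u n) → (Pf n).ncard + 1 ≤ (Pf (n + 1)).ncard := by
    intro n hne
    apply Pf_step le_rfl
    · intro x y hx hy hxy
      have : x = y := by omega
      rw [this]
    · intro l' hl' he
      rw [fac_eq_iff] at he
      exact hne l' hl' (by simpa using he 0 (by omega))
  have f0 : 1 ≤ (Pf 0).ncard := by
    rw [Nat.one_le_iff_ne_zero, ← Nat.pos_iff_ne_zero, Set.ncard_pos (Pf_finite 0)]
    exact ⟨[], List.nil_infix, rfl⟩
  have f1 : (Pf 0).ncard + 1 ≤ (Pf 1).ncard := one 0 (by omega)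
  have f2 : (Pf 1).ncard + 1 ≤ (Pf 2).ncard := one 1 (by intro l' hl'; interval_cases l'; rw [a0, a1]; decide)
  have f3 : (Pf 2).ncard + 1 ≤ (Pf 3).ncard := one 2 (by
    intro l' hl'
    interval_cases l'
    · rw [a0, a2]; decide
    · rw [a1, a2]; decide)
  have f4 : (Pf 3).ncard ≤ (Pf 4).ncard := Pf_mono (by omega)
  have f5 : (Pf 4).ncard + 1 ≤ (Pf 5).ncard := by
    apply Pf_step (l := 2) (by omega)
    · intro x y hx hy hxy
      rcases (by omega : (x = 2 ∧ y = 4) ∨ (x = 3 ∧ y = 3) ∨ (x = 4 ∧ y = 2)) with h | h | h <;>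
        obtain ⟨rfl, rfl⟩ := h
      · rw [a2, a4]
      · rfl
      · rw [a2, a4]
    · intro l' hl' he
      rw [fac_eq_iff] at he
      interval_cases l'
      · have := he 0 (by omega)
        norm_num at this
        rw [a0, a2] at this
        exact absurd this (by decide)
      · have := he 0 (by omega)
        norm_num at this
        rw [a1, a2] at this
        exact absurd this (by decide)
  have f6 : (Pf 5).ncard + 1 ≤ (Pf 6).ncard := by
    apply Pf_step (l := 1) (by omega)
    · intro x y hx hy hxy
      rcases (by omega : (x = 1 ∧ y = 5) ∨ (x = 2 ∧ y = 4) ∨ (x = 3 ∧ y = 3) ∨ (x = 4 ∧ y = 2) ∨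
        (x = 5 ∧ y = 1)) with h | h | h | h | h <;> obtain ⟨rfl, rfl⟩ := h
      · rw [a1, a5]
      · rw [a2, a4]
      · rfl
      · rw [a2, a4]
      · rw [a1, a5]
    · intro l' hl' he
      rw [fac_eq_iff] at he
      interval_cases l'
      have := he 0 (by omega)
      norm_num at this
      rw [a0, a1] at this
      exact absurd this (by decide)
  have f7 : (Pf 6).ncard + 1 ≤ (Pf 7).ncard := by
    apply Pf_step (l := 0) (by omega)
    · have := sy_zero 0
      have hb0 : B 0 = 7 := by unfold B; norm_num
      rw [hb0] at this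
      exact this
    · intro l' hl'
      omega
  have big : ∀ n, 7 ≤ n → n ≤ (Pf n).ncard := by
    intro n hn
    induction n, hn using Nat.le_induction with
    | base => omega
    | succ n hn ih =>
      obtain ⟨l, hl, hS, hno⟩ := new_pal (N := n + 1) (by omega)
      have := Pf_step (n := n) (l := l) (by omega) hS hno
      omega
  rcases Nat.lt_or_ge n 7 with h | h
  · interval_cases n <;> omega
  · exact big n h

theorem defect_le_one : defect u ≤ 1 := by
  unfold defect
  apply iSup_le
  intro n
  have h : defectW (fac u 0 n) ≤ 1 := by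
    unfold defectW
    have := Pf_ge n
    unfold Pf at this
    rw [fac_length']
    have h' : (n : ℤ) ≤ ({v | v <:+: fac u 0 n ∧ v.reverse = v} : Set (List (Fin 4))).ncard := by
      exact_mod_cast this
    linarith
  have h2 : ((defectW (fac u 0 n) : ℤ) : ℝ) ≤ 1 := by exact_mod_cast h
  exact_mod_cast h2

/-! ### factors with a repeated longest palindromic suffix -/

theorem bad_factor (H : ℕ) : ∃ l,
    (∀ q, q <:+ fac u l (H + 4) → q.reverse = q → q.length ≤ 1) ∧
    fac u l (H + 4) = fac u l H ++ [0] ++ [1, 2, 0] ∧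
    fac u l (H + 4) = (fac u l H ++ [0, 1, 2]) ++ [0] ++ [] := by
  have hB := le_B H
  have b0 : ∀ o, o < 7 → u (2 * B H + o) = u o := by
    intro o ho
    apply u_block C_two
    have : B 0 ≤ B H := B_mono (Nat.zero_le _)
    have hb0 : B 0 = 7 := by unfold B; norm_num
    omega
  obtain ⟨a0, a1, a2, a3, a4, a5, a6⟩ := u_small
  have v0 : u (2 * B H) = 0 := by rw [← a0]; exact b0 0 (by norm_num)
  have v1 : u (2 * B H + 1) = 1 := by rw [b0 1 (by norm_num), a1]
  have v2 : u (2 * B H + 2) = 2 := by rw [b0 2 (by norm_num), a2]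
  have v3 : u (2 * B H + 3) = 0 := by rw [b0 3 (by norm_num), a3]
  have g1 : ∀ x, B H ≤ x → x < 2 * B H → u x = 3 := fun x h1 h2 =>
    gap_three (M := H) (q := 1) not_C_one (by omega) (by omega)
  refine ⟨2 * B H - H, ?_, ?_, ?_⟩
  · intro q hq hp
    by_contra hcon
    push Not at hcon
    have hlen := hq.length_le
    rw [fac_length'] at hlen
    rw [List.suffix_iff_eq_drop, fac_length', fac_drop (by omega)] at hq
    set k := q.length with hk
    have e1 : H + 4 - (H + 4 - k) = k := by omega
    rw [e1] at hq
    have e2 : 2 * B H - H + (H + 4 - k) = 2 * B H + 4 - k := by omega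
    rw [e2] at hq
    rw [hq, pal_iff] at hp
    have e3 : 2 * (2 * B H + 4 - k) + k = 4 * B H + 8 - k := by omega
    rw [e3] at hp
    have h1 := hp (2 * B H + 3) (2 * B H + 4 - k) (by omega) (by omega) (by omega)
    rw [v3] at h1
    rcases (by omega : k = 2 ∨ k = 3 ∨ k = 4 ∨ 5 ≤ k) with h | h | h | h
    · rw [h, show 2 * B H + 4 - 2 = 2 * B H + 2 by omega, v2] at h1
      exact absurd h1 (by decide)
    · rw [h, show 2 * B H + 4 - 3 = 2 * B H + 1 by omega, v1] at h1
      exact absurd h1 (by decide)
    · have h2 := hp (2 * B H + 2) (2 * B H + 1) (by omega) (by omega) (by omega)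
      rw [v1, v2] at h2
      exact absurd h2 (by decide)
    · rw [g1 _ (by omega) (by omega)] at h1
      exact absurd h1 (by decide)
  · rw [fac_append, show 2 * B H - H + H = 2 * B H by omega, List.append_assoc]
    congr 1
    simp [fac, List.range_succ, v0, v1, v2, v3]
  · rw [fac_append, show 2 * B H - H + H = 2 * B H by omega, List.append_assoc, List.append_nil,
      List.append_assoc]
    congr 1
    simp [fac, List.range_succ, v0, v1, v2, v3]

end Q160.Cantor
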