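import Mathlib

/-!
# Divided differences on multivariate polynomials
-/

namespace Q160.DD

open MvPolynomial

variable {σ : Type*} [DecidableEq σ]

/-- exchange of the variables `p` and `q` -/
noncomputable def sw (p q : σ) : MvPolynomial σ ℤ →ₐ[ℤ] MvPolynomial σ ℤ :=
  rename (Equiv.swap p q)

lemma sw_X (p q r : σ) : sw p q (X r) = X (Equiv.swap p q r) := rename_X _ _

lemma sw_sw (p q : σ) (f : MvPolynomial σ ℤ) : sw p q (sw p q f) = f := by
  unfold sw
  rw [rename_rename]
  have : (Equiv.swap p q : σ → σ) ∘ (Equiv.swap p q) = id := by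
    funext x; simp
  rw [this, rename_id_apply]

lemma sw_comm (p q : σ) : sw q p = sw p q := by
  unfold sw
  rw [Equiv.swap_comm]

lemma sw_C (p q : σ) (c : ℤ) : sw p q (C c) = C c := rename_C _ _

lemma dvd_sub (p q : σ) (f : MvPolynomial σ ℤ) : (X p - X q) ∣ f - sw p q f := by
  induction f using MvPolynomial.induction_on with
  | C a => rw [sw_C, sub_self]; exact dvd_zero _
  | add f g hf hg =>
    rw [map_add]
    have : f + g - (sw p q f + sw p q g) = (f - sw p q f) + (g - sw p q g) := by ring
    rw [this]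
    exact dvd_add hf hg
  | mul_X f r hf =>
    rw [map_mul, sw_X]
    have : f * X r - sw p q f * X (Equiv.swap p q r)
        = (f - sw p q f) * X r + sw p q f * (X r - X (Equiv.swap p q r)) := by ring
    rw [this]
    apply dvd_add (Dvd.dvd.mul_right hf _)
    apply Dvd.dvd.mul_left
    by_cases h1 : r = p
    · subst h1; rw [Equiv.swap_apply_left]
    · by_cases h2 : r = q
      · subst h2
        rw [Equiv.swap_apply_right]
        exact ⟨-1, by ring⟩
      · rw [Equiv.swap_apply_of_ne_of_ne h1 h2, sub_self]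
        exact dvd_zero _

/-- The divided difference `(f - s f) / (x_p - x_q)`. -/
noncomputable def dd (p q : σ) (f : MvPolynomial σ ℤ) : MvPolynomial σ ℤ := (dvd_sub p q f).choose

lemma dd_spec (p q : σ) (f : MvPolynomial σ ℤ) : (X p - X q) * dd p q f = f - sw p q f :=
  (dvd_sub p q f).choose_spec.symm

omit [DecidableEq σ] in
lemma X_sub_ne {p q : σ} (h : p ≠ q) : (X p - X q : MvPolynomial σ ℤ) ≠ 0 := by
  intro h0
  exact h (X_injective (sub_eq_zero.mp h0))

lemma dd_unique {p q : σ} (h : p ≠ q) {f g : MvPolynomial σ ℤ}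
    (hg : (X p - X q) * g = f - sw p q f) : dd p q f = g :=
  mul_left_cancel₀ (X_sub_ne h) ((dd_spec p q f).trans hg.symm)

variable {p q : σ} (h : p ≠ q)

include h

lemma dd_add (f g : MvPolynomial σ ℤ) : dd p q (f + g) = dd p q f + dd p q g := by
  apply dd_unique h
  rw [mul_add, dd_spec, dd_spec, map_add]
  ring

lemma dd_zero : dd p q (0 : MvPolynomial σ ℤ) = 0 := by
  apply dd_unique h
  simp

lemma dd_sum {ι : Type*} (s : Finset ι) (f : ι → MvPolynomial σ ℤ) :
    dd p q (∑ i ∈ s, f i) = ∑ i ∈ s, dd p q (f i) := by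
  classical
  induction s using Finset.induction_on with
  | empty => simp [dd_zero h]
  | insert a s ha ih => rw [Finset.sum_insert ha, Finset.sum_insert ha, dd_add h, ih]

/-- Leibniz rule -/
lemma dd_mul (f g : MvPolynomial σ ℤ) :
    dd p q (f * g) = dd p q f * g + sw p q f * dd p q g := by
  apply dd_unique h
  rw [mul_add]
  have h1 := dd_spec p q f
  have h2 := dd_spec p q g
  calc (X p - X q) * (dd p q f * g) + (X p - X q) * (sw p q f * dd p q g)
      = ((X p - X q) * dd p q f) * g + sw p q f * ((X p - X q) * dd p q g) := by ring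
    _ = (f - sw p q f) * g + sw p q f * (g - sw p q g) := by rw [h1, h2]
    _ = f * g - sw p q (f * g) := by rw [map_mul]; ring

lemma dd_of_symm {f : MvPolynomial σ ℤ} (hf : sw p q f = f) : dd p q f = 0 := by
  apply dd_unique h
  rw [hf]; simp

lemma dd_symm_mul {f : MvPolynomial σ ℤ} (hf : sw p q f = f) (g : MvPolynomial σ ℤ) :
    dd p q (f * g) = f * dd p q g := by
  rw [dd_mul h, dd_of_symm h hf, hf]; ring

lemma dd_C_mul (c : ℤ) (g : MvPolynomial σ ℤ) : dd p q (C c * g) = C c * dd p q g :=
  dd_symm_mul h (sw_C _ _ _) g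

lemma dd_neg (f : MvPolynomial σ ℤ) : dd p q (-f) = -dd p q f := by
  have := dd_C_mul h (-1) f
  simpa using this

lemma dd_sub (f g : MvPolynomial σ ℤ) : dd p q (f - g) = dd p q f - dd p q g := by
  rw [sub_eq_add_neg, dd_add h, dd_neg h]; ring

lemma sw_dd (f : MvPolynomial σ ℤ) : sw p q (dd p q f) = dd p q f := by
  symm
  apply dd_unique h
  have h1 := congrArg (sw p q) (dd_spec p q f)
  rw [map_mul, map_sub, map_sub, sw_sw, sw_X, sw_X, Equiv.swap_apply_left,
    Equiv.swap_apply_right] at h1
  calc (X p - X q) * sw p q (dd p q f) = -((X q - X p) * sw p q (dd p q f)) := by ring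
    _ = f - sw p q f := by rw [h1]; ring

lemma dd_dd (f : MvPolynomial σ ℤ) : dd p q (dd p q f) = 0 := dd_of_symm h (sw_dd h f)

lemma dd_X_left : dd p q (X p : MvPolynomial σ ℤ) = 1 := by
  apply dd_unique h
  rw [sw_X, Equiv.swap_apply_left]; ring

lemma dd_X_right : dd p q (X q : MvPolynomial σ ℤ) = -1 := by
  apply dd_unique h
  rw [sw_X, Equiv.swap_apply_right]; ring

omit h in
lemma sw_sw_comm {p q r s : σ} (h1 : p ≠ r) (h2 : p ≠ s) (h3 : q ≠ r) (h4 : q ≠ s)
    (f : MvPolynomial σ ℤ) : sw p q (sw r s f) = sw r s (sw p q f) := by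
  unfold sw
  rw [rename_rename, rename_rename]
  have : (Equiv.swap p q : σ → σ) ∘ (Equiv.swap r s)
      = (Equiv.swap r s : σ → σ) ∘ (Equiv.swap p q) := by
    funext x
    simp only [Function.comp, Equiv.swap_apply_def]
    grind
  rw [this]

omit h in
/-- Divided differences in disjoint pairs of variables commute. -/
lemma dd_comm {p q r s : σ} (hpq : p ≠ q) (hrs : r ≠ s) (h1 : p ≠ r) (h2 : p ≠ s) (h3 : q ≠ r)
    (h4 : q ≠ s) (f : MvPolynomial σ ℤ) : dd p q (dd r s f) = dd r s (dd p q f) := by
  have hs1 : sw p q (X r - X s : MvPolynomial σ ℤ) = X r - X s := by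
    rw [map_sub, sw_X, sw_X, Equiv.swap_apply_of_ne_of_ne h1.symm h3.symm,
      Equiv.swap_apply_of_ne_of_ne h2.symm h4.symm]
  have hs2 : sw r s (X p - X q : MvPolynomial σ ℤ) = X p - X q := by
    rw [map_sub, sw_X, sw_X, Equiv.swap_apply_of_ne_of_ne h1 h2,
      Equiv.swap_apply_of_ne_of_ne h3 h4]
  have e1 : (X p - X q) * ((X r - X s) * dd p q (dd r s f))
      = f - sw r s f - sw p q f + sw p q (sw r s f) := by
    rw [← dd_symm_mul hpq hs1, dd_spec r s f, dd_spec, map_sub]
    ring
  have e2 : (X r - X s) * ((X p - X q) * dd r s (dd p q f))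
      = f - sw p q f - sw r s f + sw r s (sw p q f) := by
    rw [← dd_symm_mul hrs hs2, dd_spec p q f, dd_spec, map_sub]
    ring
  have e3 := sw_sw_comm h1 h2 h3 h4 f
  apply mul_left_cancel₀ (X_sub_ne hrs)
  apply mul_left_cancel₀ (X_sub_ne hpq)
  calc (X p - X q) * ((X r - X s) * dd p q (dd r s f))
      = (X r - X s) * ((X p - X q) * dd r s (dd p q f)) := by rw [e1, e2, e3]; ring
    _ = (X p - X q) * ((X r - X s) * dd r s (dd p q f)) := by ring

omit h in
/-- Braid relation. -/
lemma dd_braid {p q r : σ} (hpq : p ≠ q) (hqr : q ≠ r) (hpr : p ≠ r) (f : MvPolynomial σ ℤ) :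
    dd p q (dd q r (dd p q f)) = dd q r (dd p q (dd q r f)) := by
  have s_p : (Equiv.swap p q) p = q := Equiv.swap_apply_left _ _
  have s_q : (Equiv.swap p q) q = p := Equiv.swap_apply_right _ _
  have s_r : (Equiv.swap p q) r = r := Equiv.swap_apply_of_ne_of_ne hpr.symm hqr.symm
  have t_p : (Equiv.swap q r) p = p := Equiv.swap_apply_of_ne_of_ne hpq hpr
  have t_q : (Equiv.swap q r) q = r := Equiv.swap_apply_left _ _
  have t_r : (Equiv.swap q r) r = q := Equiv.swap_apply_right _ _
  -- first side
  have e1 : (X p - X q) * ((X q - X r) * ((X p - X r) * dd p q (dd q r (dd p q f))))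
      = f - sw p q f - sw q r f + sw q r (sw p q f) + sw p q (sw q r f)
        - sw p q (sw q r (sw p q f)) := by
    set u := dd p q f with hu
    set v := dd q r u with hv
    have hau : (X p - X q) * u = f - sw p q f := dd_spec p q f
    have hbv : (X q - X r) * v = u - sw q r u := dd_spec q r u
    have haw : (X p - X q) * dd p q v = v - sw p q v := dd_spec p q v
    have hsu : sw p q u = u := sw_dd hpq f
    -- (X p - X r) * sw q r u = sw q r (f - sw p q f)
    have h1 : (X p - X r) * sw q r u = sw q r f - sw q r (sw p q f) := by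
      have := congrArg (sw q r) hau
      rw [map_mul, map_sub, map_sub, sw_X, sw_X, t_p, t_q] at this
      exact this
    -- (X q - X r) * sw p q (sw q r u) = sw p q (sw q r f) - ...
    have h2 : (X q - X r) * sw p q (sw q r u)
        = sw p q (sw q r f) - sw p q (sw q r (sw p q f)) := by
      have := congrArg (sw p q) h1
      rw [map_mul, map_sub, map_sub, sw_X, sw_X, s_p, s_r] at this
      exact this
    -- (X p - X r) * sw p q v = u - sw p q (sw q r u)
    have h3 : (X p - X r) * sw p q v = u - sw p q (sw q r u) := by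
      have := congrArg (sw p q) hbv
      rw [map_mul, map_sub, map_sub, sw_X, sw_X, s_q, s_r, hsu] at this
      exact this
    calc (X p - X q) * ((X q - X r) * ((X p - X r) * dd p q v))
        = (X q - X r) * ((X p - X r) * ((X p - X q) * dd p q v)) := by ring
      _ = (X p - X r) * ((X q - X r) * v) - (X q - X r) * ((X p - X r) * sw p q v) := by
          rw [haw]; ring
      _ = (X p - X r) * (u - sw q r u) - (X q - X r) * (u - sw p q (sw q r u)) := by
          rw [hbv, h3]
      _ = (X p - X q) * u - (X p - X r) * sw q r u + (X q - X r) * sw p q (sw q r u) := by ring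
      _ = _ := by rw [hau, h1, h2]; ring
  have e2 : (X p - X q) * ((X q - X r) * ((X p - X r) * dd q r (dd p q (dd q r f))))
      = f - sw q r f - sw p q f + sw p q (sw q r f) + sw q r (sw p q f)
        - sw q r (sw p q (sw q r f)) := by
    set u := dd q r f with hu
    set v := dd p q u with hv
    have hbu : (X q - X r) * u = f - sw q r f := dd_spec q r f
    have hav : (X p - X q) * v = u - sw p q u := dd_spec p q u
    have hbw : (X q - X r) * dd q r v = v - sw q r v := dd_spec q r v
    have htu : sw q r u = u := sw_dd hqr f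
    have h1 : (X p - X r) * sw p q u = sw p q f - sw p q (sw q r f) := by
      have := congrArg (sw p q) hbu
      rw [map_mul, map_sub, map_sub, sw_X, sw_X, s_q, s_r] at this
      exact this
    have h2 : (X p - X q) * sw q r (sw p q u)
        = sw q r (sw p q f) - sw q r (sw p q (sw q r f)) := by
      have := congrArg (sw q r) h1
      rw [map_mul, map_sub, map_sub, sw_X, sw_X, t_p, t_r] at this
      exact this
    have h3 : (X p - X r) * sw q r v = u - sw q r (sw p q u) := by
      have := congrArg (sw q r) hav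
      rw [map_mul, map_sub, map_sub, sw_X, sw_X, t_p, t_q, htu] at this
      exact this
    calc (X p - X q) * ((X q - X r) * ((X p - X r) * dd q r v))
        = (X p - X q) * ((X p - X r) * ((X q - X r) * dd q r v)) := by ring
      _ = (X p - X r) * ((X p - X q) * v) - (X p - X q) * ((X p - X r) * sw q r v) := by
          rw [hbw]; ring
      _ = (X p - X r) * (u - sw p q u) - (X p - X q) * (u - sw q r (sw p q u)) := by
          rw [hav, h3]
      _ = (X q - X r) * u - (X p - X r) * sw p q u + (X p - X q) * sw q r (sw p q u) := by ring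
      _ = _ := by rw [hbu, h1, h2]; ring
  have e3 : sw p q (sw q r (sw p q f)) = sw q r (sw p q (sw q r f)) := by
    unfold sw
    rw [rename_rename, rename_rename, rename_rename, rename_rename]
    have : ((Equiv.swap p q : σ → σ) ∘ (Equiv.swap q r : σ → σ)) ∘ (Equiv.swap p q : σ → σ)
        = ((Equiv.swap q r : σ → σ) ∘ (Equiv.swap p q : σ → σ)) ∘ (Equiv.swap q r : σ → σ) := by
      funext x
      simp only [Function.comp, Equiv.swap_apply_def]
      grind
    rw [this]
  apply mul_left_cancel₀ (X_sub_ne hpr)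
  apply mul_left_cancel₀ (X_sub_ne hqr)
  apply mul_left_cancel₀ (X_sub_ne hpq)
  rw [e1, e2, e3]
  ring

omit h in
/-- Compatibility with renaming along an injective map. -/
lemma rename_dd {τ : Type*} [DecidableEq τ] {e : σ → τ} (he : Function.Injective e) {p q : σ}
    (hpq : p ≠ q) (f : MvPolynomial σ ℤ) :
    rename e (dd p q f) = dd (e p) (e q) (rename e f) := by
  symm
  apply dd_unique (fun h => hpq (he h))
  have h1 := congrArg (rename e) (dd_spec p q f)
  rw [map_mul, map_sub, map_sub, rename_X, rename_X] at h1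
  rw [h1]
  congr 1
  unfold sw
  rw [rename_rename, rename_rename]
  have : e ∘ (Equiv.swap p q) = (Equiv.swap (e p) (e q)) ∘ e := by
    funext x
    simp only [Function.comp]
    by_cases e1 : x = p
    · rw [e1, Equiv.swap_apply_left, Equiv.swap_apply_left]
    · by_cases e2 : x = q
      · rw [e2, Equiv.swap_apply_right, Equiv.swap_apply_right]
      · rw [Equiv.swap_apply_of_ne_of_ne e1 e2,
          Equiv.swap_apply_of_ne_of_ne (he.ne e1) (he.ne e2)]
  rw [this]

/-! ### The augmentation ideal -/

/-- polynomials without constant term -/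
noncomputable def 𝔪 (σ : Type*) : Ideal (MvPolynomial σ ℤ) :=
  RingHom.ker (constantCoeff : MvPolynomial σ ℤ →+* ℤ)

omit h in
lemma sw_mem (p q : σ) (k : ℕ) {f : MvPolynomial σ ℤ} (hf : f ∈ 𝔪 σ ^ k) : sw p q f ∈ 𝔪 σ ^ k := by
  induction k generalizing f with
  | zero => simp
  | succ k ih =>
    rw [pow_succ] at hf ⊢
    refine Submodule.mul_induction_on hf ?_ ?_
    · intro a ha b hb
      rw [map_mul]
      apply Ideal.mul_mem_mul (ih ha)
      have h1 : constantCoeff b = 0 := hb
      show constantCoeff (sw p q b) = 0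
      unfold sw
      rw [constantCoeff_rename]
      exact h1
    · intro a b ha hb
      rw [map_add]
      exact Ideal.add_mem _ ha hb

lemma dd_mem (k : ℕ) {f : MvPolynomial σ ℤ} (hf : f ∈ 𝔪 σ ^ (k + 1)) : dd p q f ∈ 𝔪 σ ^ k := by
  induction k generalizing f with
  | zero => simp
  | succ k ih =>
    rw [pow_succ] at hf
    refine Submodule.mul_induction_on hf ?_ ?_
    · intro a ha b hb
      rw [dd_mul h]
      apply Ideal.add_mem
      · rw [pow_succ]
        exact Ideal.mul_mem_mul (ih ha) hb
      · exact Ideal.mul_mem_right _ _ (sw_mem p q (k + 1) ha)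
    · intro a b ha hb
      rw [dd_add h]
      exact Ideal.add_mem _ ha hb

omit h [DecidableEq σ] in
lemma X_mem (i : σ) : (X i : MvPolynomial σ ℤ) ∈ 𝔪 σ := by
  show constantCoeff (X i : MvPolynomial σ ℤ) = 0
  simp

end Q160.DD
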