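import Pool.Agent.Q127.DJ.Stm

set_option autoImplicit false

namespace Pool.Agent.Q160.DJ_AVG

open MeasureTheory Filter Topology
open Pool.Agent.Q127.DJ

theorem avg : S_avg := by
  intro A B α β j _ _ hA hB hα hβ
  have hsum : Summable (fun k => α k * β (k + j)) := by
    have hβ' : Summable (fun k => β (k + j) ^ 2) := (summable_nat_add_iff j).2 hβ
    refine Summable.of_norm_bounded (g := fun k => (α k ^ 2 + β (k + j) ^ 2)) (hα.add hβ') ?_
    intro k
    rw [Real.norm_eq_abs, abs_le]
    constructor <;> nlinarith [sq_nonneg (α k + β (k+j)), sq_nonneg (α k - β (k+j)), sq_nonneg (α k),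
      sq_nonneg (β (k+j))]
  have hP : Tendsto (fun i => ∑ k ∈ Finset.range (i + 1), α k * β (k + j)) atTop
      (𝓝 (∑' k, α k * β (k + j))) :=
    (tendsto_add_atTop_iff_nat (f := fun i => ∑ k ∈ Finset.range i, α k * β (k + j)) 1).2
      hsum.hasSum.tendsto_sum_nat
  have hC := hP.cesaro
  have hF : ∀ i, Tendsto (fun T => ∑ t ∈ Finset.Ico T (T + i + 1), A t (T + i - t) * B t (T + i - t + j))
      atTop (𝓝 (∑ k ∈ Finset.range (i + 1), α k * β (k + j))) := by
    intro i
    have h1 : ∀ T, ∑ t ∈ Finset.Ico T (T + i + 1), A t (T + i - t) * B t (T + i - t + j) =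
        ∑ k ∈ Finset.range (i + 1), A (T + (i - k)) k * B (T + (i - k)) (k + j) := by
      intro T
      rw [Finset.sum_Ico_eq_sum_range, ← Finset.sum_range_reflect]
      have h2 : T + i + 1 - T = i + 1 := by omega
      rw [h2]
      refine Finset.sum_congr rfl fun k hk => ?_
      have hk' : k < i + 1 := Finset.mem_range.1 hk
      have e1 : i + 1 - 1 - k = i - k := by omega
      have e2 : T + i - (T + (i - k)) = k := by omega
      rw [e1, e2]
    simp_rw [h1]
    refine tendsto_finsetSum _ fun k _ => ?_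
    exact ((hA k).comp (tendsto_add_atTop_nat (i - k))).mul
      ((hB (k + j)).comp (tendsto_add_atTop_nat (i - k)))
  have hT : ∀ N : ℕ, ∃ T : ℕ, ∀ i ∈ Finset.range N,
      |(∑ t ∈ Finset.Ico T (T + i + 1), A t (T + i - t) * B t (T + i - t + j)) -
        ∑ k ∈ Finset.range (i + 1), α k * β (k + j)| ≤ 1 / ((N : ℝ) + 1) := by
    intro N
    have hpos : (0 : ℝ) < 1 / ((N : ℝ) + 1) := by positivity
    have hev : ∀ᶠ T in atTop, ∀ i ∈ Finset.range N,
        |(∑ t ∈ Finset.Ico T (T + i + 1), A t (T + i - t) * B t (T + i - t + j)) -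
          ∑ k ∈ Finset.range (i + 1), α k * β (k + j)| ≤ 1 / ((N : ℝ) + 1) := by
      rw [Filter.eventually_all_finset]
      intro i _
      have := (Metric.tendsto_nhds.1 (hF i)) _ hpos
      filter_upwards [this] with T hT'
      rw [Real.dist_eq] at hT'
      exact hT'.le
    exact hev.exists
  choose T hT using hT
  refine ⟨T, ?_⟩
  have hdiff : Tendsto (fun N : ℕ => (∑ i ∈ Finset.range N, ∑ t ∈ Finset.Ico (T N) (T N + i + 1),
    A t (T N + i - t) * B t (T N + i - t + j)) / (N : ℝ) -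
    ((N : ℝ)⁻¹ * ∑ i ∈ Finset.range N, ∑ k ∈ Finset.range (i + 1), α k * β (k + j))) atTop (𝓝 0) := by
    refine squeeze_zero_norm (a := fun N : ℕ => 1 / ((N : ℝ) + 1)) ?_ tendsto_one_div_add_atTop_nhds_zero_nat
    intro N
    rw [Real.norm_eq_abs, div_eq_inv_mul, ← mul_sub, ← Finset.sum_sub_distrib, abs_mul]
    have hb : |∑ i ∈ Finset.range N, ((∑ t ∈ Finset.Ico (T N) (T N + i + 1),
        A t (T N + i - t) * B t (T N + i - t + j)) - ∑ k ∈ Finset.range (i + 1), α k * β (k + j))| ≤
        (N : ℝ) * (1 / ((N : ℝ) + 1)) := by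
      refine (Finset.abs_sum_le_sum_abs _ _).trans ?_
      refine (Finset.sum_le_sum (hT N)).trans ?_
      simp
    have hpos : (0 : ℝ) < 1 / ((N : ℝ) + 1) := by positivity
    rcases Nat.eq_zero_or_pos N with h0 | h0
    · subst h0
      simp
    · have hN : (0 : ℝ) < N := by exact_mod_cast h0
      calc |(N : ℝ)⁻¹| * _ ≤ |(N : ℝ)⁻¹| * ((N : ℝ) * (1 / ((N : ℝ) + 1))) :=
            mul_le_mul_of_nonneg_left hb (abs_nonneg _)
        _ = 1 / ((N : ℝ) + 1) := by
            rw [abs_of_pos (inv_pos.2 hN)]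
            field_simp
  have := hdiff.add hC
  simpa using this

end Pool.Agent.Q160.DJ_AVG
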