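import Pool.Agent.Q127.DJ.Stm

set_option autoImplicit false

namespace Pool.Agent.Q160.DJ_JOI

open MeasureTheory Filter Topology ENNReal
open Pool.Agent.Q127.DJ

abbrev X := (ℕ → ℕ) × (ℕ → ℕ)

def Φ : X → X := Prod.map S S

lemma S_iter (n : ℕ) (x : ℕ → ℕ) (i : ℕ) : (S^[n] x) i = x (i + n) := by
  induction n generalizing i with
  | zero => rfl
  | succ n ih =>
    rw [Function.iterate_succ_apply']
    show (S^[n] x) (i + 1) = _
    rw [ih]
    congr 1
    omega

lemma cont_S : Continuous S := continuous_pi fun n => continuous_apply (n + 1)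

lemma cont_Φ : Continuous Φ := cont_S.prodMap cont_S

lemma Φ_iter (n : ℕ) (p : X) : Φ^[n] p = (S^[n] p.1, S^[n] p.2) := by
  induction n with
  | zero => rfl
  | succ n ih =>
    rw [Function.iterate_succ_apply', ih, Function.iterate_succ_apply', Function.iterate_succ_apply']
    rfl

lemma marg1 (μ : Measure (ℕ → ℕ)) (hμ : MeasurePreserving S μ μ) (Q : Measure X) (hQ : Q.map Prod.fst = μ) (n : ℕ) :
    (Q.map Φ^[n]).map Prod.fst = μ := by
  have hm : Measurable (Φ^[n]) := (cont_Φ.iterate n).measurable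
  rw [Measure.map_map measurable_fst hm]
  have e : (Prod.fst ∘ Φ^[n] : X → (ℕ → ℕ)) = S^[n] ∘ Prod.fst := by
    funext p
    simp [Φ_iter]
  rw [e, ← Measure.map_map (cont_S.iterate n).measurable measurable_fst, hQ]
  exact (hμ.iterate n).map_eq

lemma marg2 (μ : Measure (ℕ → ℕ)) (hμ : MeasurePreserving S μ μ) (Q : Measure X) (hQ : Q.map Prod.snd = μ) (n : ℕ) :
    (Q.map Φ^[n]).map Prod.snd = μ := by
  have hm : Measurable (Φ^[n]) := (cont_Φ.iterate n).measurable
  rw [Measure.map_map measurable_snd hm]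
  have e : (Prod.snd ∘ Φ^[n] : X → (ℕ → ℕ)) = S^[n] ∘ Prod.snd := by
    funext p
    simp [Φ_iter]
  rw [e, ← Measure.map_map (cont_S.iterate n).measurable measurable_snd, hQ]
  exact (hμ.iterate n).map_eq

theorem joi : S_joi := by
  intro μ ν _ _ hμ hν m k f h a b j Q T r δ L hQ hL havg
  have hQp : ∀ N, IsProbabilityMeasure (Q N) := by
    intro N
    constructor
    have h1 := congrArg (fun κ => κ Set.univ) (hQ N).1
    simp only [Measure.map_apply measurable_fst MeasurableSet.univ, Set.preimage_univ, measure_univ] at h1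
    exact h1
  set M : ℕ → ℕ → Measure X := fun N i => (Q (N + 1)).map (Φ^[T (N + 1) + i]) with hM
  have hMm : ∀ n, Measurable (Φ^[n]) := fun n => (cont_Φ.iterate n).measurable
  have hMp : ∀ N i, IsProbabilityMeasure (M N i) := fun N i =>
    Measure.isProbabilityMeasure_map (hMm _).aemeasurable
  set R : ℕ → Measure X := fun N => (((N + 1 : ℕ) : ℝ≥0∞))⁻¹ • ∑ i ∈ Finset.range (N + 1), M N i with hR
  have hRa : ∀ N (A : Set X), R N A = (((N + 1 : ℕ) : ℝ≥0∞))⁻¹ * ∑ i ∈ Finset.range (N + 1), M N i A := by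
    intro N A
    simp only [hR, Measure.smul_apply, Measure.finsetSum_apply, smul_eq_mul]
  have hinv : ∀ (N : ℕ) (c : ℝ≥0∞), (((N + 1 : ℕ) : ℝ≥0∞))⁻¹ * ∑ i ∈ Finset.range (N + 1), c = c := by
    intro N c
    rw [Finset.sum_const, Finset.card_range, nsmul_eq_mul, ← mul_assoc,
      ENNReal.inv_mul_cancel (by simp) (ENNReal.natCast_ne_top _), one_mul]
  have hRp : ∀ N, IsProbabilityMeasure (R N) := by
    intro N
    constructor
    rw [hRa]
    simp_rw [measure_univ]
    exact hinv N 1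
  have hR1 : ∀ N, (R N).map Prod.fst = μ := by
    intro N
    ext s hs
    rw [Measure.map_apply measurable_fst hs, hRa]
    have : ∀ i ∈ Finset.range (N + 1), M N i (Prod.fst ⁻¹' s) = μ s := by
      intro i _
      rw [← Measure.map_apply measurable_fst hs, hM, marg1 μ hμ _ (hQ (N + 1)).1]
    rw [Finset.sum_congr rfl this]
    exact hinv N _
  have hR2 : ∀ N, (R N).map Prod.snd = ν := by
    intro N
    ext s hs
    rw [Measure.map_apply measurable_snd hs, hRa]
    have : ∀ i ∈ Finset.range (N + 1), M N i (Prod.snd ⁻¹' s) = ν s := by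
      intro i _
      rw [← Measure.map_apply measurable_snd hs, hM, marg2 ν hν _ (hQ (N + 1)).2]
    rw [Finset.sum_congr rfl this]
    exact hinv N _
  set P : ℕ → ProbabilityMeasure X := fun N => ⟨R N, hRp N⟩ with hP
  have htight : IsTightMeasureSet {((κ : ProbabilityMeasure X) : Measure X) | κ ∈ Set.range P} := by
    refine IsTightMeasureSet.prodMk ?_ ?_
    · refine (isTightMeasureSet_singleton (μ := μ)).subset ?_
      rintro _ ⟨_, ⟨_, ⟨N, rfl⟩, rfl⟩, rfl⟩
      exact hR1 N
    · refine (isTightMeasureSet_singleton (μ := ν)).subset ?_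
      rintro _ ⟨_, ⟨_, ⟨N, rfl⟩, rfl⟩, rfl⟩
      exact hR2 N
  have hcomp := isCompact_closure_of_isTightMeasureSet htight
  obtain ⟨ξ, -, hξ⟩ := hcomp.ultrafilter_le_nhds ((hyperfilter ℕ).map P) (by
    rw [le_principal_iff]
    refine Filter.mem_of_superset (Ultrafilter.mem_map.2 ?_ : Set.range P ∈ ((hyperfilter ℕ).map P : Filter _)) subset_closure
    have : P ⁻¹' Set.range P = Set.univ := by ext; simp
    rw [this]
    exact Filter.univ_mem)
  have hlim : Tendsto P (hyperfilter ℕ : Filter ℕ) (𝓝 ξ) := hξ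
  have hU : (hyperfilter ℕ : Filter ℕ) ≤ atTop := Nat.hyperfilter_le_atTop
  have hm1 : (ξ : Measure X).map Prod.fst = μ := by
    have h1 := ProbabilityMeasure.tendsto_map_of_tendsto_of_continuous P ξ hlim (f := Prod.fst) continuous_fst
    let κ0 : ProbabilityMeasure (ℕ → ℕ) := ⟨μ, inferInstance⟩
    have h2 : Tendsto (fun _ : ℕ => κ0) (hyperfilter ℕ : Filter ℕ) (𝓝 κ0) := tendsto_const_nhds
    have h3 : ∀ N, (P N).map (f := Prod.fst) continuous_fst.measurable.aemeasurable = κ0 := by
      intro N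
      apply Subtype.ext
      exact hR1 N
    have h4 := tendsto_nhds_unique (h1.congr h3) h2
    have := congrArg (fun κ : ProbabilityMeasure (ℕ → ℕ) => (κ : Measure (ℕ → ℕ))) h4
    exact this
  have hm2 : (ξ : Measure X).map Prod.snd = ν := by
    have h1 := ProbabilityMeasure.tendsto_map_of_tendsto_of_continuous P ξ hlim (f := Prod.snd) continuous_snd
    let κ0 : ProbabilityMeasure (ℕ → ℕ) := ⟨ν, inferInstance⟩
    have h2 : Tendsto (fun _ : ℕ => κ0) (hyperfilter ℕ : Filter ℕ) (𝓝 κ0) := tendsto_const_nhds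
    have h3 : ∀ N, (P N).map (f := Prod.snd) continuous_snd.measurable.aemeasurable = κ0 := by
      intro N
      apply Subtype.ext
      exact hR2 N
    have h4 := tendsto_nhds_unique (h1.congr h3) h2
    have := congrArg (fun κ : ProbabilityMeasure (ℕ → ℕ) => (κ : Measure (ℕ → ℕ))) h4
    exact this
  -- integrals
  have hint : ∀ (F : BoundedContinuousFunction X ℝ) (N : ℕ), ∫ p, F p ∂(R N) =
      ((N + 1 : ℕ) : ℝ)⁻¹ * ∑ i ∈ Finset.range (N + 1), ∫ p, F (Φ^[T (N + 1) + i] p) ∂(Q (N + 1)) := by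
    intro F N
    have hF : ∀ κ : Measure X, IsFiniteMeasure κ → Integrable F κ := fun κ _ => F.integrable κ
    rw [hR, integral_smul_measure, integral_finsetSum_measure (fun i _ => hF _ inferInstance)]
    simp only [ENNReal.toReal_inv, ENNReal.toReal_natCast, smul_eq_mul]
    congr 1
    refine Finset.sum_congr rfl fun i _ => ?_
    rw [hM, integral_map (hMm _).aemeasurable F.continuous.aestronglyMeasurable]
  have hinvar : (ξ : Measure X).map Φ = ξ := by
    have : IsProbabilityMeasure ((ξ : Measure X).map Φ) :=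
      Measure.isProbabilityMeasure_map cont_Φ.measurable.aemeasurable
    refine ext_of_forall_integral_eq_of_IsFiniteMeasure fun F => ?_
    rw [integral_map cont_Φ.measurable.aemeasurable F.continuous.aestronglyMeasurable]
    have t1 := (ProbabilityMeasure.tendsto_iff_forall_integral_tendsto.1 hlim) F
    have t2 := (ProbabilityMeasure.tendsto_iff_forall_integral_tendsto.1 hlim) (F.compContinuous ⟨Φ, cont_Φ⟩)
    have t3 : Tendsto (fun N => ∫ p, (F.compContinuous ⟨Φ, cont_Φ⟩) p ∂(P N : Measure X) -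
        ∫ p, F p ∂(P N : Measure X)) (hyperfilter ℕ : Filter ℕ) (𝓝 0) := by
      have key : Tendsto (fun N : ℕ => ∫ p, (F.compContinuous ⟨Φ, cont_Φ⟩) p ∂(R N) - ∫ p, F p ∂(R N)) atTop (𝓝 0) := by
        have hz : Tendsto (fun N : ℕ => (2 * ‖F‖) * (1 / ((N : ℝ) + 1))) atTop (𝓝 0) := by
          simpa using tendsto_one_div_add_atTop_nhds_zero_nat.const_mul (2 * ‖F‖)
        refine squeeze_zero_norm (fun N => ?_) hz
        rw [hint, hint, ← mul_sub, ← Finset.sum_sub_distrib]
        have hs : ∀ i, ∫ p, (F.compContinuous ⟨Φ, cont_Φ⟩) (Φ^[T (N + 1) + i] p) ∂(Q (N + 1)) =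
            ∫ p, F (Φ^[T (N + 1) + (i + 1)] p) ∂(Q (N + 1)) := by
          intro i
          refine integral_congr_ae (Filter.Eventually.of_forall fun p => ?_)
          show F (Φ (Φ^[T (N + 1) + i] p)) = _
          rw [← Function.iterate_succ_apply' Φ]
          rfl
        simp_rw [hs]
        rw [Finset.sum_range_sub (fun i => ∫ p, F (Φ^[T (N + 1) + i] p) ∂(Q (N + 1)))]
        have hb : ∀ n, ‖∫ p, F (Φ^[n] p) ∂(Q (N + 1))‖ ≤ ‖F‖ := by
          intro n
          have := norm_integral_le_of_norm_le_const (μ := Q (N + 1)) (f := fun p => F (Φ^[n] p)) (C := ‖F‖)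
            (Filter.Eventually.of_forall fun p => F.norm_coe_le_norm _)
          simpa using this
        rw [norm_mul, Real.norm_eq_abs, abs_of_pos (by positivity)]
        have h5 := norm_sub_le (∫ p, F (Φ^[T (N + 1) + (N + 1)] p) ∂(Q (N + 1)))
          (∫ p, F (Φ^[T (N + 1) + 0] p) ∂(Q (N + 1)))
        have h6 := hb (T (N + 1) + (N + 1))
        have h7 := hb (T (N + 1) + 0)
        have h8 : ‖(∫ p, F (Φ^[T (N + 1) + (N + 1)] p) ∂(Q (N + 1))) -
          (∫ p, F (Φ^[T (N + 1) + 0] p) ∂(Q (N + 1)))‖ ≤ 2 * ‖F‖ := by linarith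
        calc ((N + 1 : ℕ) : ℝ)⁻¹ * _ ≤ ((N + 1 : ℕ) : ℝ)⁻¹ * (2 * ‖F‖) :=
              mul_le_mul_of_nonneg_left h8 (by positivity)
          _ = (2 * ‖F‖) * (1 / ((N : ℝ) + 1)) := by push_cast; ring
      exact key.mono_left hU
    have t4 := tendsto_nhds_unique t3 (t2.sub t1)
    have t5 : ∫ p, (F.compContinuous ⟨Φ, cont_Φ⟩) p ∂(ξ : Measure X) = ∫ p, F p ∂(ξ : Measure X) := by linarith
    exact t5
  -- the clopen set
  set C : Set X := {p | f (p.1 0) = a ∧ h (p.2 j) = b} with hC
  have hclopen : IsClopen C := by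
    have c1 : IsClopen {p : X | f (p.1 0) = a} :=
      (isClopen_discrete {n : ℕ | f n = a}).preimage ((continuous_apply 0).comp continuous_fst)
    have c2 : IsClopen {p : X | h (p.2 j) = b} :=
      (isClopen_discrete {n : ℕ | h n = b}).preimage ((continuous_apply j).comp continuous_snd)
    exact c1.inter c2
  have hRC : ∀ N : ℕ, (R N).real C = (∑ i ∈ Finset.range (N + 1), (Q (N + 1)).real
      {p | f (p.1 (T (N + 1) + i)) = a ∧ h (p.2 (T (N + 1) + i + j)) = b}) / ((N + 1 : ℕ) : ℝ) := by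
    intro N
    have : ∀ i, M N i C = Q (N + 1) {p | f (p.1 (T (N + 1) + i)) = a ∧ h (p.2 (T (N + 1) + i + j)) = b} := by
      intro i
      rw [hM]
      simp only
      rw [Measure.map_apply (hMm _) hclopen.2.measurableSet]
      congr 1
      ext p
      simp only [hC, Set.mem_preimage, Set.mem_ofPred_eq, Φ_iter, S_iter, zero_add]
      rw [Nat.add_comm j]
    simp only [measureReal_def]
    rw [hRa]
    simp_rw [this]
    rw [ENNReal.toReal_mul, ENNReal.toReal_inv, ENNReal.toReal_natCast,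
      ENNReal.toReal_sum (fun i _ => measure_ne_top _ _), div_eq_inv_mul]
  have hconv : Tendsto (fun N => (R N).real C) (hyperfilter ℕ : Filter ℕ) (𝓝 ((ξ : Measure X).real C)) := by
    have h1 := ProbabilityMeasure.tendsto_measure_of_null_frontier_of_tendsto' hlim (E := C) (by
      rw [hclopen.frontier_eq]; simp)
    exact (ENNReal.tendsto_toReal (measure_ne_top _ _)).comp h1
  have hL' : Tendsto (fun N => L (N + 1)) (hyperfilter ℕ : Filter ℕ) (𝓝 r) :=
    ((tendsto_add_atTop_iff_nat 1).2 hL).mono_left hU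
  refine ⟨ξ, inferInstance, ⟨cont_Φ.measurable, hinvar⟩, hm1, hm2, ?_⟩
  refine le_of_tendsto (hconv.sub hL').abs (Filter.Eventually.of_forall fun N => ?_)
  rw [hRC N]
  exact havg (N + 1) (Nat.succ_pos N)

end Pool.Agent.Q160.DJ_JOI
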