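import Mathlib

/-!
# Families indexed by the symmetric group

`exists_family`: operators `D_i` satisfying the commutation and braid relations give, for every
starting point `a`, a family `Φ` indexed by `S_{m+1}` with `Φ 1 = a` and `Φ (w s_i) = D_i (Φ w)`
whenever `w s_i` is longer than `w`.
-/

set_option linter.unusedSimpArgs false

namespace Q160.Diamond

open Equiv

/-- adjacent transposition -/
def s {m : ℕ} (i : Fin m) : Perm (Fin (m + 1)) := swap i.castSucc i.succ

/-- the number of inversions (= Coxeter length) -/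
def inv {m : ℕ} (w : Perm (Fin (m + 1))) : ℕ :=
  (Finset.univ.filter (fun p : Fin (m + 1) × Fin (m + 1) => p.1 < p.2 ∧ w p.2 < w p.1)).card

variable {m : ℕ}

lemma castSucc_ne_succ' (i : Fin m) : i.castSucc ≠ i.succ := (Fin.castSucc_lt_succ (i := i)).ne

lemma s_castSucc (i : Fin m) : s i i.castSucc = i.succ := swap_apply_left _ _
lemma s_succ (i : Fin m) : s i i.succ = i.castSucc := swap_apply_right _ _
lemma s_of_ne (i : Fin m) {a : Fin (m + 1)} (h1 : a ≠ i.castSucc) (h2 : a ≠ i.succ) : s i a = a :=
  swap_apply_of_ne_of_ne h1 h2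
lemma s_mul_s (i : Fin m) : s i * s i = 1 := swap_mul_self _ _
lemma mul_s_s (w : Perm (Fin (m + 1))) (i : Fin m) : w * s i * s i = w := by
  rw [mul_assoc, s_mul_s, mul_one]

lemma s_val (i : Fin m) (a : Fin (m + 1)) :
    ((s i a : Fin (m + 1)) : ℕ)
      = if (a : ℕ) = (i : ℕ) then (i : ℕ) + 1 else if (a : ℕ) = (i : ℕ) + 1 then (i : ℕ)
        else (a : ℕ) := by
  by_cases h1 : a = i.castSucc
  · subst h1
    rw [s_castSucc]; simp
  · by_cases h2 : a = i.succ
    · subst h2
      rw [s_succ]; simp
    · rw [s_of_ne i h1 h2]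
      rw [Fin.ext_iff, Fin.val_castSucc] at h1
      rw [Fin.ext_iff, Fin.val_succ] at h2
      rw [if_neg h1, if_neg h2]

lemma s_lt (i : Fin m) {a b : Fin (m + 1)} (h1 : ¬(a = i.castSucc ∧ b = i.succ))
    (h2 : ¬(a = i.succ ∧ b = i.castSucc)) : s i a < s i b ↔ a < b := by
  rw [Fin.lt_def, Fin.lt_def, s_val, s_val]
  rw [Fin.ext_iff, Fin.ext_iff, Fin.val_castSucc, Fin.val_succ] at h1 h2
  split_ifs <;> omega

lemma inv_mul_of_asc (w : Perm (Fin (m + 1))) (i : Fin m) (h : w i.castSucc < w i.succ) :
    inv (w * s i) = inv w + 1 := by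
  unfold inv
  have h1 : (Finset.univ.filter (fun p : Fin (m + 1) × Fin (m + 1) =>
        p.1 < p.2 ∧ (w * s i) p.2 < (w * s i) p.1)).card
      = (Finset.univ.filter (fun p : Fin (m + 1) × Fin (m + 1) =>
        s i p.1 < s i p.2 ∧ w p.2 < w p.1)).card := by
    apply Finset.card_equiv (Equiv.prodCongr (s i) (s i))
    intro p
    have hh : ∀ x, s i (s i x) = x := fun x => by
      rw [← Perm.mul_apply, s_mul_s, Perm.one_apply]
    rw [Finset.mem_filter, Finset.mem_filter]
    simp only [Finset.mem_univ, true_and, Equiv.prodCongr_apply, Prod.map_fst,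
      Prod.map_snd, Perm.mul_apply, hh]
  have h2 : (Finset.univ.filter (fun p : Fin (m + 1) × Fin (m + 1) =>
        s i p.1 < s i p.2 ∧ w p.2 < w p.1))
      = insert (i.succ, i.castSucc) (Finset.univ.filter (fun p : Fin (m + 1) × Fin (m + 1) =>
        p.1 < p.2 ∧ w p.2 < w p.1)) := by
    ext ⟨a, b⟩
    simp only [Finset.mem_filter, Finset.mem_univ, true_and, Finset.mem_insert, Prod.mk.injEq]
    by_cases c1 : a = i.castSucc ∧ b = i.succ
    · obtain ⟨rfl, rfl⟩ := c1
      rw [s_castSucc, s_succ]
      constructor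
      · rintro ⟨_, h3⟩
        exact absurd h3 (not_lt.mpr h.le)
      · rintro (h3 | h3)
        · exact absurd h3.1 (castSucc_ne_succ' i)
        · exact absurd h3.2 (not_lt.mpr h.le)
    · by_cases c2 : a = i.succ ∧ b = i.castSucc
      · obtain ⟨rfl, rfl⟩ := c2
        rw [s_castSucc, s_succ]
        constructor
        · intro _; exact Or.inl ⟨rfl, rfl⟩
        · intro _; exact ⟨Fin.castSucc_lt_succ, h⟩
      · rw [s_lt i c1 c2]
        constructor
        · intro h3; exact Or.inr h3
        · rintro (h3 | h3)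
          · exact absurd h3 c2
          · exact h3
  rw [h1, h2, Finset.card_insert_of_notMem]
  simp only [Finset.mem_filter, Finset.mem_univ, true_and, not_and]
  intro h3
  exact absurd h3 (not_lt.mpr (Fin.castSucc_lt_succ).le)

lemma desc_ne (w : Perm (Fin (m + 1))) (i : Fin m) (h : ¬ w i.castSucc < w i.succ) :
    w i.succ < w i.castSucc := by
  rcases lt_trichotomy (w i.castSucc) (w i.succ) with h1 | h1 | h1
  · exact absurd h1 h
  · exact absurd (w.injective h1) (castSucc_ne_succ' i)
  · exact h1

lemma inv_mul_of_desc (w : Perm (Fin (m + 1))) (i : Fin m) (h : w i.succ < w i.castSucc) :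
    inv (w * s i) + 1 = inv w := by
  have h1 := inv_mul_of_asc (w * s i) i (by
    rw [Perm.mul_apply, Perm.mul_apply, s_castSucc, s_succ]; exact h)
  rw [mul_s_s] at h1
  exact h1.symm

lemma inv_mul_iff_desc (w : Perm (Fin (m + 1))) (i : Fin m) :
    inv (w * s i) + 1 = inv w ↔ w i.succ < w i.castSucc := by
  constructor
  · intro h
    apply desc_ne
    intro h1
    have := inv_mul_of_asc w i h1
    omega
  · exact inv_mul_of_desc w i

/-- a permutation without descents is the identity -/
lemma eq_one_of_no_desc (w : Perm (Fin (m + 1))) (h : ¬ ∃ i : Fin m, w i.succ < w i.castSucc) :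
    w = 1 := by
  push Not at h
  have hmono : StrictMono w := by
    apply Fin.strictMono_iff_lt_succ.mpr
    intro i
    exact lt_of_le_of_ne (h i) (fun e => castSucc_ne_succ' i (w.injective e))
  have h2 : (w : Fin (m + 1) → Fin (m + 1)) = id := by
    apply StrictMono.range_inj hmono strictMono_id |>.mp
    rw [Set.range_id, w.surjective.range_eq]
  ext x
  rw [h2]; rfl

variable {A : Type*} (D : ℕ → A → A)

open Classical in
/-- the family, defined by removing a descent -/
noncomputable def fam (a : A) (w : Perm (Fin (m + 1))) : A :=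
  if h : ∃ i : Fin m, w i.succ < w i.castSucc then D (h.choose : ℕ) (fam a (w * s h.choose)) else a
termination_by inv w
decreasing_by
  have := inv_mul_of_desc w h.choose h.choose_spec
  omega

lemma fam_one (a : A) : fam D a (1 : Perm (Fin (m + 1))) = a := by
  unfold fam
  rw [dif_neg]
  rintro ⟨i, hi⟩
  simp only [Perm.one_apply] at hi
  exact absurd hi (not_lt.mpr (Fin.castSucc_lt_succ).le)

lemma s_comm {i j : Fin m} (h : (i : ℕ) + 2 ≤ j) : s i * s j = s j * s i := by
  apply Equiv.ext
  intro x
  apply Fin.ext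
  simp only [Perm.mul_apply, s_val]
  split_ifs <;> omega

lemma tri {i j : Fin m} (h : (j : ℕ) = i + 1) : j.castSucc = i.succ ∧ s i i.castSucc = i.succ ∧
    s i i.succ = i.castSucc ∧ s i j.succ = j.succ ∧ s j i.castSucc = i.castSucc ∧
    s j i.succ = j.succ ∧ s j j.succ = i.succ := by
  have hsj : j.castSucc = i.succ := by
    rw [Fin.ext_iff]; simp only [Fin.val_castSucc, Fin.val_succ]; omega
  have f1 : s i j.succ = j.succ := by
    apply s_of_ne
    all_goals
      rw [Ne, Fin.ext_iff]
      simp only [Fin.val_castSucc, Fin.val_succ]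
      omega
  have f2 : s j i.castSucc = i.castSucc := by
    apply s_of_ne
    all_goals
      rw [Ne, Fin.ext_iff]
      simp only [Fin.val_castSucc, Fin.val_succ]
      omega
  refine ⟨hsj, s_castSucc i, s_succ i, f1, f2, ?_, ?_⟩
  · rw [← hsj, s_castSucc]
  · rw [← hsj, s_succ]

lemma s_braid {i j : Fin m} (h : (j : ℕ) = i + 1) : s i * s j * s i = s j * s i * s j := by
  obtain ⟨t0, t1, t2, t3, t4, t5, t6⟩ := tri h
  apply Equiv.ext
  intro x
  simp only [Perm.mul_apply]
  by_cases h1 : x = i.castSucc
  · subst h1; rw [t1, t5, t3, t4, t1, t5]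
  · by_cases h2 : x = i.succ
    · subst h2; rw [t2, t4, t1, t5, t3, t6]
    · by_cases h3 : x = j.succ
      · subst h3; rw [t3, t6, t2, t4]
      · have e1 : s i x = x := s_of_ne i h1 h2
        have e2 : s j x = x := s_of_ne j (by rw [t0]; exact h2) h3
        rw [e1, e2, e1, e2]

/-- the diamond lemma -/
lemma fam_desc (hc : ∀ i j a, i + 2 ≤ j → D i (D j a) = D j (D i a))
    (hb : ∀ i a, D i (D (i + 1) (D i a)) = D (i + 1) (D i (D (i + 1) a))) (a : A) :
    ∀ (k : ℕ) (w : Perm (Fin (m + 1))), inv w = k → ∀ j : Fin m, w j.succ < w j.castSucc →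
      fam D a w = D j (fam D a (w * s j)) := by
  intro k
  induction k using Nat.strong_induction_on with
  | _ k ih =>
    intro w hw j hj
    have hex : ∃ i : Fin m, w i.succ < w i.castSucc := ⟨j, hj⟩
    obtain ⟨i, hi, hfi⟩ : ∃ i : Fin m, w i.succ < w i.castSucc ∧
        fam D a w = D i (fam D a (w * s i)) := by
      refine ⟨hex.choose, hex.choose_spec, ?_⟩
      rw [fam, dif_pos hex]
    rw [hfi]
    have ki := inv_mul_of_desc w i hi
    have kj := inv_mul_of_desc w j hj
    -- commuting case
    have comm : ∀ i j : Fin m, w i.succ < w i.castSucc → w j.succ < w j.castSucc →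
        (i : ℕ) + 2 ≤ j → D i (fam D a (w * s i)) = D j (fam D a (w * s j)) := by
      intro i j hi hj hij
      have ki := inv_mul_of_desc w i hi
      have kj := inv_mul_of_desc w j hj
      have e1 : fam D a (w * s i) = D j (fam D a (w * s i * s j)) := by
        apply ih _ (by omega) (w * s i) rfl
        rw [Perm.mul_apply, Perm.mul_apply, s_of_ne, s_of_ne]
        · exact hj
        all_goals
          rw [Ne, Fin.ext_iff]
          simp only [Fin.val_castSucc, Fin.val_succ]
          omega
      have e2 : fam D a (w * s j) = D i (fam D a (w * s j * s i)) := by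
        apply ih _ (by omega) (w * s j) rfl
        rw [Perm.mul_apply, Perm.mul_apply, s_of_ne, s_of_ne]
        · exact hi
        all_goals
          rw [Ne, Fin.ext_iff]
          simp only [Fin.val_castSucc, Fin.val_succ]
          omega
      rw [e1, e2, hc i j _ hij, mul_assoc, mul_assoc, s_comm hij]
    -- braid case
    have braid : ∀ i j : Fin m, w i.succ < w i.castSucc → w j.succ < w j.castSucc →
        (j : ℕ) = i + 1 → D i (fam D a (w * s i)) = D j (fam D a (w * s j)) := by
      intro i j hi hj hij
      have ki := inv_mul_of_desc w i hi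
      have kj := inv_mul_of_desc w j hj
      obtain ⟨t0, t1, t2, t3, t4, t5, t6⟩ := tri hij
      rw [t0] at hj
      have g1 : (w * s i) j.succ < (w * s i) j.castSucc := by
        simp only [Perm.mul_apply, t0, t1, t2, t3, t4, t5, t6]
        exact hj.trans hi
      have g2 : (w * s j) i.succ < (w * s j) i.castSucc := by
        simp only [Perm.mul_apply, t0, t1, t2, t3, t4, t5, t6]
        exact hj.trans hi
      have k1 := inv_mul_of_desc _ j g1
      have k2 := inv_mul_of_desc _ i g2
      have g3 : (w * s i * s j) i.succ < (w * s i * s j) i.castSucc := by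
        simp only [Perm.mul_apply, t0, t1, t2, t3, t4, t5, t6]
        exact hj
      have g4 : (w * s j * s i) j.succ < (w * s j * s i) j.castSucc := by
        simp only [Perm.mul_apply, t0, t1, t2, t3, t4, t5, t6]
        exact hi
      have e1 := ih _ (by omega) (w * s i) rfl j g1
      have e2 := ih _ (by omega) (w * s i * s j) rfl i g3
      have e3 := ih _ (by omega) (w * s j) rfl i g2
      have e4 := ih _ (by omega) (w * s j * s i) rfl j g4
      rw [e1, e2, e3, e4]
      have e5 : w * s i * s j * s i = w * s j * s i * s j := by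
        have := s_braid hij
        rw [mul_assoc, mul_assoc, ← mul_assoc (s i), this]
        simp only [mul_assoc]
      rw [e5, hij]
      exact hb i _
    rcases Nat.lt_trichotomy (i : ℕ) j with h1 | h1 | h1
    · by_cases h2 : (j : ℕ) = i + 1
      · exact braid i j hi hj h2
      · exact comm i j hi hj (by omega)
    · have : i = j := Fin.ext h1
      rw [this]
    · by_cases h2 : (i : ℕ) = j + 1
      · exact (braid j i hj hi h2).symm
      · exact (comm j i hj hi (by omega)).symm

/-- **Families indexed by the symmetric group.** -/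
theorem exists_family (hc : ∀ i j a, i + 2 ≤ j → D i (D j a) = D j (D i a))
    (hb : ∀ i a, D i (D (i + 1) (D i a)) = D (i + 1) (D i (D (i + 1) a))) (a : A) :
    ∃ Φ : Perm (Fin (m + 1)) → A, Φ 1 = a ∧
      ∀ (w : Perm (Fin (m + 1))) (i : Fin m), w i.castSucc < w i.succ →
        Φ (w * s i) = D i (Φ w) := by
  refine ⟨fam D a, fam_one D a, ?_⟩
  intro w i h
  rw [fam_desc D hc hb a _ (w * s i) rfl i, mul_s_s]
  rw [Perm.mul_apply, Perm.mul_apply, s_castSucc, s_succ]
  exact h

/-- induction along ascents -/
theorem asc_induction {P : Perm (Fin (m + 1)) → Prop} (h1 : P 1)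
    (hs : ∀ (w : Perm (Fin (m + 1))) (i : Fin m), w i.castSucc < w i.succ → P w → P (w * s i)) :
    ∀ w, P w := by
  have : ∀ k : ℕ, ∀ w : Perm (Fin (m + 1)), inv w = k → P w := by
    intro k
    induction k with
    | zero =>
      intro w hw
      rw [eq_one_of_no_desc w]
      · exact h1
      · rintro ⟨i, hi⟩
        have := inv_mul_of_desc w i hi
        omega
    | succ k ih =>
      intro w hw
      by_cases h : ∃ i : Fin m, w i.succ < w i.castSucc
      · obtain ⟨i, hi⟩ := h
        have h2 := inv_mul_of_desc w i hi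
        have h3 := hs (w * s i) i (by
          rw [Perm.mul_apply, Perm.mul_apply, s_castSucc, s_succ]; exact hi)
          (ih _ (by omega))
        rwa [mul_s_s] at h3
      · rw [eq_one_of_no_desc w h]
        exact h1
  exact fun w => this _ w rfl

/-- induction along descents, starting from the longest element -/
theorem desc_induction {P : Perm (Fin (m + 1)) → Prop} (h0 : P Fin.revPerm)
    (hs : ∀ (w : Perm (Fin (m + 1))) (i : Fin m), w i.succ < w i.castSucc → P w → P (w * s i)) :
    ∀ w, P w := by
  have h : ∀ w : Perm (Fin (m + 1)), P (Fin.revPerm * w) := by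
    apply asc_induction
    · rw [mul_one]; exact h0
    · intro w i hi hw
      rw [← mul_assoc]
      apply hs _ i _ hw
      rw [Perm.mul_apply, Perm.mul_apply, Fin.revPerm_apply, Fin.revPerm_apply, Fin.rev_lt_rev]
      exact hi
  intro w
  have h2 := h (Fin.revPerm * w)
  rw [← mul_assoc] at h2
  have h3 : (Fin.revPerm : Perm (Fin (m + 1))) * Fin.revPerm = 1 := by
    ext x
    simp
  rwa [h3, one_mul] at h2

lemma inv_one : inv (1 : Perm (Fin (m + 1))) = 0 := by
  unfold inv
  rw [Finset.card_eq_zero, Finset.filter_eq_empty_iff]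
  rintro ⟨a, b⟩ _ ⟨h1, h2⟩
  simp only [Perm.one_apply] at h1 h2
  exact absurd h1 (not_lt.mpr h2.le)

lemma inv_pos {w : Perm (Fin (m + 1))} (hw : w ≠ 1) : 1 ≤ inv w := by
  by_contra h
  apply hw
  apply eq_one_of_no_desc
  rintro ⟨i, hi⟩
  have := inv_mul_of_desc w i hi
  omega

lemma inv_le (w : Perm (Fin (m + 1))) : inv w ≤ ∑ i ∈ Finset.range (m + 1), (m - i) := by
  have h1 : inv w ≤ (Finset.univ.filter (fun p : Fin (m + 1) × Fin (m + 1) => p.1 < p.2)).card := by
    apply Finset.card_le_card
    intro p hp
    rw [Finset.mem_filter] at hp ⊢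
    exact ⟨hp.1, hp.2.1⟩
  have h2 : (Finset.univ.filter (fun p : Fin (m + 1) × Fin (m + 1) => p.1 < p.2)).card
      = ∑ a : Fin (m + 1), (m - (a : ℕ)) := by
    rw [Finset.card_filter, Fintype.sum_prod_type]
    apply Finset.sum_congr rfl
    intro a _
    rw [← Finset.card_filter]
    have : (Finset.univ.filter (fun b : Fin (m + 1) => a < b)) = Finset.Ioi a := by
      ext b; simp
    rw [this, Fin.card_Ioi]
    omega
  rw [h2, Fin.sum_univ_eq_sum_range (fun i => m - i) (m + 1)] at h1
  exact h1

end Q160.Diamond
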