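import Mathlib

set_option autoImplicit false

/-!
# Association schemes, Delta and Wye tensors, Delta-Wye parameters
-/

noncomputable section

namespace Pool.Agent.Q160.ETR

open Finset Matrix

variable {X I J : Type} [Fintype X] [DecidableEq X] [Fintype I] [DecidableEq I]
  [Fintype J] [DecidableEq J]

/-- A symmetric association scheme on `X`, with relations indexed by `I`: `rel x y` is the index of the
relation that contains `(x, y)`, and `p i j k` are the intersection numbers. -/
structure Scheme (X I : Type) [Fintype X] [DecidableEq X] [Fintype I] [DecidableEq I] where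
  /-- the relation that contains the pair -/
  rel : X → X → I
  /-- the index of the diagonal -/
  diag : I
  /-- the intersection numbers -/
  p : I → I → I → ℕ
  rel_eq_diag : ∀ x y, rel x y = diag ↔ x = y
  symm : ∀ x y, rel x y = rel y x
  nonempty : ∀ i, ∃ x y, rel x y = i
  count : ∀ i j x y,
    (univ.filter (fun z => rel x z = i ∧ rel z y = j)).card = p i j (rel x y)

/-- The adjacency matrix `A_i`. -/
def Scheme.A (S : Scheme X I) (i : I) : Matrix X X ℂ := fun x y => if S.rel x y = i then 1 else 0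

/-- The Bose-Mesner algebra, the real span of the adjacency matrices. -/
def Scheme.algebra (S : Scheme X I) : Submodule ℝ (Matrix X X ℂ) :=
  Submodule.span ℝ (Set.range S.A)

/-- The tensor `Δ(L, M, N)`. -/
def Delta (L M N : Matrix X X ℂ) : X → X → X → ℂ := fun x y z => L x z * M x y * N y z

/-- The tensor `Y(L, M, N)`. -/
def Wye (L M N : Matrix X X ℂ) : X → X → X → ℂ := fun x y z => ∑ u, L x u * M y u * N z u

/-- The space `Δ(𝔸)`. -/
def Scheme.DeltaSpace (S : Scheme X I) : Submodule ℂ (X → X → X → ℂ) :=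
  Submodule.span ℂ {T | ∃ L ∈ S.algebra, ∃ M ∈ S.algebra, ∃ N ∈ S.algebra, T = Delta L M N}

/-- The space `Y(𝔸)`. -/
def Scheme.WyeSpace (S : Scheme X I) : Submodule ℂ (X → X → X → ℂ) :=
  Submodule.span ℂ {T | ∃ L ∈ S.algebra, ∃ M ∈ S.algebra, ∃ N ∈ S.algebra, T = Wye L M N}

/-- The scheme is exactly triply regular. -/
def Scheme.ExactlyTriplyRegular (S : Scheme X I) : Prop := S.WyeSpace = S.DeltaSpace

/-- `E` is the family of the primitive idempotents of the Bose-Mesner algebra: nonzero pairwise
orthogonal idempotents that span it. -/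
structure Scheme.PrimitiveIdempotents (S : Scheme X I) (E : J → Matrix X X ℂ) : Prop where
  mem : ∀ r, E r ∈ S.algebra
  ne_zero : ∀ r, E r ≠ 0
  mul_self : ∀ r, E r * E r = E r
  orthogonal : ∀ r s, r ≠ s → E r * E s = 0
  span : S.algebra = Submodule.span ℝ (Set.range E)

/-- `q` are the Krein parameters: `E_r ∘ E_s = (1 / |X|) ∑ q_{rs}^t E_t`. -/
def KreinParameters (E : J → Matrix X X ℂ) (q : J → J → J → ℝ) : Prop :=
  ∀ r s, (fun x y => E r x y * E s x y : Matrix X X ℂ) =
    ((1 / (Fintype.card X : ℝ) : ℝ) : ℂ) • ∑ t, ((q r s t : ℝ) : ℂ) • E t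

open Classical in
/-- `σ` are the Delta-Wye parameters: `Δ(A_i, A_j, A_k) = ∑ σ^{i,j,k}_{r,s,t} Y(E_r, E_s, E_t)`, the sum
over all `r, s, t` with `q_{rs}^t > 0`, whenever `p_{ij}^k > 0`. -/
def Scheme.DeltaWye (S : Scheme X I) (E : J → Matrix X X ℂ) (q : J → J → J → ℝ)
    (σ : I → I → I → J → J → J → ℂ) : Prop :=
  ∀ i j k, 0 < S.p i j k → Delta (S.A i) (S.A j) (S.A k) =
    ∑ r, ∑ s, ∑ t, if 0 < q r s t then σ i j k r s t • Wye (E r) (E s) (E t) else 0

/-! ### general facts -/

lemma A_mem (S : Scheme X I) (i : I) : S.A i ∈ S.algebra :=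
  Submodule.subset_span ⟨i, rfl⟩

/-- the admissible triples -/
abbrev Adm (p : I → I → I → ℕ) : Type := {a : I × I × I // 0 < p a.1 a.2.1 a.2.2}

/-- the standard spanning family of `Δ(𝔸)` -/
def DF (S : Scheme X I) (a : Adm S.p) : X → X → X → ℂ :=
  Delta (S.A a.1.1) (S.A a.1.2.1) (S.A a.1.2.2)

lemma delta_zero (S : Scheme X I) {l m n : I} (h : ¬ 0 < S.p l m n) :
    Delta (S.A l) (S.A m) (S.A n) = 0 := by
  funext x y z
  simp only [Delta, Scheme.A, Pi.zero_apply]
  by_cases h1 : S.rel x z = l
  · by_cases h2 : S.rel x y = m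
    · by_cases h3 : S.rel y z = n
      · exfalso
        apply h
        have h4 := S.count l m z y
        rw [S.symm z y, h3] at h4
        rw [← h4]
        refine Finset.card_pos.2 ⟨x, ?_⟩
        rw [Finset.mem_filter]
        exact ⟨mem_univ _, by rw [S.symm z x, h1], h2⟩
      · simp [h3]
    · simp [h2]
  · simp [h1]

/-- a tensor whose entries depend only on the relations lies in the span -/
lemma mem_span_DF (S : Scheme X I) {f : X → X → X → ℂ}
    (h : ∀ x y z x' y' z', S.rel x z = S.rel x' z' → S.rel x y = S.rel x' y' →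
      S.rel y z = S.rel y' z' → f x y z = f x' y' z') : f ∈ Submodule.span ℂ (Set.range (DF S)) := by
  classical
  set g : I → I → I → ℂ := fun l m n =>
    if hh : ∃ w : X × X × X, S.rel w.1 w.2.2 = l ∧ S.rel w.1 w.2.1 = m ∧ S.rel w.2.1 w.2.2 = n
      then f hh.choose.1 hh.choose.2.1 hh.choose.2.2 else 0 with hg
  have hgv : ∀ x y z, g (S.rel x z) (S.rel x y) (S.rel y z) = f x y z := by
    intro x y z
    have hh : ∃ w : X × X × X, S.rel w.1 w.2.2 = S.rel x z ∧ S.rel w.1 w.2.1 = S.rel x y ∧
        S.rel w.2.1 w.2.2 = S.rel y z := ⟨(x, y, z), rfl, rfl, rfl⟩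
    simp only [hg]
    rw [dif_pos hh]
    obtain ⟨h1, h2, h3⟩ := hh.choose_spec
    exact h _ _ _ _ _ _ h1 h2 h3
  have hf : f = ∑ l, ∑ m, ∑ n, g l m n • Delta (S.A l) (S.A m) (S.A n) := by
    funext x y z
    simp only [Finset.sum_apply, Pi.smul_apply, Delta, Scheme.A, smul_eq_mul]
    rw [Finset.sum_eq_single (S.rel x z), Finset.sum_eq_single (S.rel x y),
      Finset.sum_eq_single (S.rel y z)]
    · simp [hgv]
    · intro n _ hn
      simp [Ne.symm hn]
    · intro hn
      exact absurd (mem_univ _) hn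
    · intro m _ hm
      simp [Ne.symm hm]
    · intro hn
      exact absurd (mem_univ _) hn
    · intro l _ hl
      simp [Ne.symm hl]
    · intro hn
      exact absurd (mem_univ _) hn
  rw [hf]
  refine Submodule.sum_mem _ fun l _ => Submodule.sum_mem _ fun m _ => Submodule.sum_mem _ fun n _ =>
    Submodule.smul_mem _ _ ?_
  by_cases hp : 0 < S.p l m n
  · exact Submodule.subset_span ⟨⟨(l, m, n), hp⟩, rfl⟩
  · rw [delta_zero S hp]
    exact Submodule.zero_mem _

/-- entries of elements of the Bose-Mesner algebra depend only on the relation -/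
lemma algebra_const (S : Scheme X I) {L : Matrix X X ℂ} (hL : L ∈ S.algebra) {x y x' y' : X}
    (h : S.rel x y = S.rel x' y') : L x y = L x' y' := by
  induction hL using Submodule.span_induction with
  | mem M hM =>
    obtain ⟨i, rfl⟩ := hM
    simp only [Scheme.A, h]
  | zero => rfl
  | add M N _ _ h1 h2 => rw [Matrix.add_apply, Matrix.add_apply, h1, h2]
  | smul a M _ h1 => rw [Matrix.smul_apply, Matrix.smul_apply, h1]

lemma delta_eq_span (S : Scheme X I) :
    S.DeltaSpace = Submodule.span ℂ (Set.range (DF S)) := by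
  apply le_antisymm
  · refine Submodule.span_le.2 ?_
    rintro T ⟨L, hL, M, hM, N, hN, rfl⟩
    refine mem_span_DF S fun x y z x' y' z' h1 h2 h3 => ?_
    simp only [Delta]
    rw [algebra_const S hL h1, algebra_const S hM h2, algebra_const S hN h3]
  · refine Submodule.span_le.2 ?_
    rintro T ⟨a, rfl⟩
    exact Submodule.subset_span ⟨_, A_mem S _, _, A_mem S _, _, A_mem S _, rfl⟩

lemma finrank_delta_le (S : Scheme X I) :
    Module.finrank ℂ S.DeltaSpace ≤ Fintype.card (Adm S.p) := by
  rw [delta_eq_span]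
  exact finrank_range_le_card (DF S)

/-- if the automorphism group is transitive on the triples with given relations, then the scheme is
triply regular -/
lemma wye_le (S : Scheme X I)
    (h : ∀ x y z x' y' z', S.rel x z = S.rel x' z' → S.rel x y = S.rel x' y' →
      S.rel y z = S.rel y' z' → ∃ g : Equiv.Perm X, (∀ a b, S.rel (g a) (g b) = S.rel a b) ∧
        g x = x' ∧ g y = y' ∧ g z = z') : S.WyeSpace ≤ S.DeltaSpace := by
  rw [delta_eq_span]
  refine Submodule.span_le.2 ?_
  rintro T ⟨L, hL, M, hM, N, hN, rfl⟩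
  refine mem_span_DF S fun x y z x' y' z' h1 h2 h3 => ?_
  obtain ⟨g, hg, rfl, rfl, rfl⟩ := h x y z x' y' z' h1 h2 h3
  simp only [Wye]
  rw [← Equiv.sum_comp g (fun u => L (g x) u * M (g y) u * N (g z) u)]
  refine Finset.sum_congr rfl fun u _ => ?_
  rw [algebra_const S hL (hg x u), algebra_const S hM (hg y u), algebra_const S hN (hg z u)]

/-- convolution -/
lemma conv (S : Scheme X I) (f g : I → ℂ) (x y : X) :
    ∑ z, f (S.rel x z) * g (S.rel z y) = ∑ i, ∑ j, f i * g j * S.p i j (S.rel x y) := by
  have h1 : ∀ z, f (S.rel x z) * g (S.rel z y) =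
      ∑ i, ∑ j, if S.rel x z = i ∧ S.rel z y = j then f i * g j else 0 := by
    intro z
    rw [Finset.sum_eq_single (S.rel x z), Finset.sum_eq_single (S.rel z y)]
    · simp
    · intro j _ hj
      simp [Ne.symm hj]
    · intro hn
      exact absurd (mem_univ _) hn
    · intro i _ hi
      simp [Ne.symm hi]
    · intro hn
      exact absurd (mem_univ _) hn
  simp_rw [h1]
  rw [Finset.sum_comm]
  refine Finset.sum_congr rfl fun i _ => ?_
  rw [Finset.sum_comm]
  refine Finset.sum_congr rfl fun j _ => ?_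
  rw [← Finset.sum_filter, Finset.sum_const, S.count i j x y, nsmul_eq_mul, mul_comm]

/-- the combination of the adjacency matrices with given coefficients -/
def Scheme.combo (S : Scheme X I) (c : J → I → ℝ) (r : J) : Matrix X X ℂ :=
  ∑ i, ((c r i : ℝ) : ℂ) • S.A i

lemma combo_apply (S : Scheme X I) (c : J → I → ℝ) (r : J) (x y : X) :
    S.combo c r x y = c r (S.rel x y) := by
  unfold Scheme.combo
  rw [Matrix.sum_apply]
  simp only [Matrix.smul_apply, Scheme.A, smul_eq_mul, mul_ite, mul_one, mul_zero]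
  rw [Finset.sum_ite_eq]
  simp

lemma combo_mem (S : Scheme X I) (c : J → I → ℝ) (r : J) : S.combo c r ∈ S.algebra := by
  unfold Scheme.combo
  refine Submodule.sum_mem _ fun i _ => ?_
  have h := Submodule.smul_mem S.algebra (c r i) (A_mem S i)
  have e : ((c r i : ℝ) : ℂ) • S.A i = (c r i) • S.A i := by
    ext x y
    simp [Matrix.smul_apply]
  rw [e]
  exact h

end Pool.Agent.Q160.ETR
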