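import Mathlib
import Pool.Agent.Q160.ETR

set_option autoImplicit false

/-!
# Formally self-dual schemes with an integral eigenmatrix and many automorphisms
-/

noncomputable section

namespace Pool.Agent.Q160.ETR

open Finset Matrix

variable {X I : Type} [Fintype X] [DecidableEq X] [Fintype I] [DecidableEq I]

/-- the data: an integral matrix `Q` that is both eigenmatrices -/
structure Good (S : Scheme X I) (Q : I → I → ℤ) (n : ℕ) : Prop where
  card : Fintype.card X = n
  npos : 0 < n
  mul : ∀ r s x y, ∑ z, Q (S.rel x z) r * Q (S.rel z y) s = if r = s then n * Q (S.rel x y) r else 0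
  inv : ∀ i k, ∑ r, Q r i * Q k r = if i = k then (n : ℤ) else 0
  krein : ∀ i r s, Q i r * Q i s = ∑ t, (S.p r s t : ℤ) * Q i t
  adm : ∀ r s t, 0 < S.p r s t → ∑ l, (S.p l l S.diag : ℤ) * (Q l r * Q l s * Q l t) ≠ 0
  auto : ∀ x y z x' y' z', S.rel x z = S.rel x' z' → S.rel x y = S.rel x' y' →
      S.rel y z = S.rel y' z' → ∃ g : Equiv.Perm X, (∀ a b, S.rel (g a) (g b) = S.rel a b) ∧
        g x = x' ∧ g y = y' ∧ g z = z'

/-- the coefficients of the idempotents -/
def co (Q : I → I → ℤ) (n : ℕ) (r i : I) : ℝ := (Q i r : ℝ) / n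

variable {S : Scheme X I} {Q : I → I → ℤ} {n : ℕ}

lemma E_apply (r : I) (x y : X) : S.combo (co Q n) r x y = (Q (S.rel x y) r : ℂ) / n := by
  rw [combo_apply]
  unfold co
  push_cast
  rfl

lemma Good.nC (h : Good S Q n) : (n : ℂ) ≠ 0 := by
  exact_mod_cast h.npos.ne'

lemma Good.E_mul (h : Good S Q n) (r s : I) :
    S.combo (co Q n) r * S.combo (co Q n) s = if r = s then S.combo (co Q n) r else 0 := by
  ext x y
  rw [Matrix.mul_apply]
  simp only [E_apply]
  have h1 := h.mul r s x y
  have h2 : (∑ z, (Q (S.rel x z) r : ℂ) / n * ((Q (S.rel z y) s : ℂ) / n)) =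
      ((∑ z, Q (S.rel x z) r * Q (S.rel z y) s : ℤ) : ℂ) / (n * n) := by
    push_cast
    rw [Finset.sum_div]
    refine Finset.sum_congr rfl fun z _ => ?_
    field_simp [h.nC]
  rw [h2, h1]
  by_cases hrs : r = s
  · subst hrs
    simp only [if_true, E_apply]
    push_cast
    field_simp [h.nC]
  · simp [hrs]

lemma Good.E_symm (r : I) (x y : X) :
    S.combo (co Q n) r x y = S.combo (co Q n) r y x := by
  rw [E_apply, E_apply, S.symm]

lemma Good.A_eq (h : Good S Q n) (i : I) :
    S.A i = ∑ r, (Q r i : ℝ) • S.combo (co Q n) r := by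
  ext x y
  rw [Matrix.sum_apply]
  simp only [Matrix.smul_apply, E_apply, Scheme.A]
  have h1 := h.inv i (S.rel x y)
  have h2 : (∑ r, (Q r i : ℝ) • ((Q (S.rel x y) r : ℂ) / n)) =
      ((∑ r, Q r i * Q (S.rel x y) r : ℤ) : ℂ) / n := by
    push_cast
    rw [Finset.sum_div]
    refine Finset.sum_congr rfl fun r _ => ?_
    rw [Complex.real_smul]
    push_cast
    ring
  rw [h2, h1]
  by_cases hi : i = S.rel x y
  · rw [if_pos hi.symm, if_pos hi]
    push_cast
    field_simp [h.nC]
  · rw [if_neg (fun e => hi e.symm), if_neg hi]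
    simp

/-- the pairing number -/
def nn (S : Scheme X I) (Q : I → I → ℤ) (r s t : I) : ℤ :=
  ∑ l, (S.p l l S.diag : ℤ) * (Q l r * Q l s * Q l t)

/-- sum of a function of the relation with a base point -/
lemma sum_rel (S : Scheme X I) (f : I → ℂ) (o : X) :
    ∑ u, f (S.rel o u) = ∑ l, (S.p l l S.diag : ℂ) * f l := by
  have h1 : ∀ u, f (S.rel o u) = ∑ l, if S.rel o u = l ∧ S.rel u o = l then f l else 0 := by
    intro u
    rw [Finset.sum_eq_single (S.rel o u)]
    · simp [S.symm u o]
    · intro l _ hl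
      simp [Ne.symm hl]
    · intro hn
      exact absurd (mem_univ _) hn
  simp_rw [h1]
  rw [Finset.sum_comm]
  refine Finset.sum_congr rfl fun l _ => ?_
  rw [← Finset.sum_filter, Finset.sum_const, S.count l l o o, (S.rel_eq_diag o o).2 rfl,
    nsmul_eq_mul]

/-- the functional that extracts a coefficient -/
def pi (S : Scheme X I) (Q : I → I → ℤ) (n : ℕ) (o : X) (r s t : I) : (X → X → X → ℂ) →ₗ[ℂ] ℂ where
  toFun T := ∑ x, ∑ y, ∑ z, S.combo (co Q n) r o x * S.combo (co Q n) s o y *
    S.combo (co Q n) t o z * T x y z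
  map_add' T T' := by
    simp only [Pi.add_apply, mul_add, Finset.sum_add_distrib]
  map_smul' a T := by
    simp only [Pi.smul_apply, smul_eq_mul, RingHom.id_apply, Finset.mul_sum]
    refine Finset.sum_congr rfl fun x _ => Finset.sum_congr rfl fun y _ =>
      Finset.sum_congr rfl fun z _ => by ring

lemma pi_wye (o : X) (r s t : I) (L M N : Matrix X X ℂ) :
    pi S Q n o r s t (Wye L M N) = ∑ u, (S.combo (co Q n) r * L) o u *
      (S.combo (co Q n) s * M) o u * (S.combo (co Q n) t * N) o u := by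
  show ∑ x, ∑ y, ∑ z, S.combo (co Q n) r o x * S.combo (co Q n) s o y *
    S.combo (co Q n) t o z * (∑ u, L x u * M y u * N z u) = _
  have e : ∀ u, (S.combo (co Q n) r * L) o u * (S.combo (co Q n) s * M) o u *
      (S.combo (co Q n) t * N) o u = ∑ x, ∑ y, ∑ z, S.combo (co Q n) r o x *
        S.combo (co Q n) s o y * S.combo (co Q n) t o z * (L x u * M y u * N z u) := by
    intro u
    rw [Matrix.mul_apply, Matrix.mul_apply, Matrix.mul_apply, Finset.sum_mul_sum, Finset.sum_mul]
    refine Finset.sum_congr rfl fun x _ => ?_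
    rw [Finset.sum_mul]
    refine Finset.sum_congr rfl fun y _ => ?_
    rw [Finset.mul_sum]
    refine Finset.sum_congr rfl fun z _ => ?_
    ring
  simp_rw [e, Finset.mul_sum]
  symm
  rw [Finset.sum_comm]
  refine Finset.sum_congr rfl fun x _ => ?_
  rw [Finset.sum_comm]
  refine Finset.sum_congr rfl fun y _ => ?_
  rw [Finset.sum_comm]

/-- the Wye tensors of the idempotents -/
def WF (S : Scheme X I) (Q : I → I → ℤ) (n : ℕ) (a : Adm S.p) : X → X → X → ℂ :=
  Wye (S.combo (co Q n) a.1.1) (S.combo (co Q n) a.1.2.1) (S.combo (co Q n) a.1.2.2)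

lemma Good.pi_E (h : Good S Q n) (o : X) (r s t r' s' t' : I) :
    pi S Q n o r s t (Wye (S.combo (co Q n) r') (S.combo (co Q n) s') (S.combo (co Q n) t')) =
      if r = r' ∧ s = s' ∧ t = t' then (nn S Q r s t : ℂ) / (n * n * n) else 0 := by
  rw [pi_wye, h.E_mul, h.E_mul, h.E_mul]
  by_cases h1 : r = r'
  · by_cases h2 : s = s'
    · by_cases h3 : t = t'
      · rw [if_pos h1, if_pos h2, if_pos h3, if_pos ⟨h1, h2, h3⟩]
        simp only [E_apply]
        rw [sum_rel S (fun l => (Q l r : ℂ) / n * ((Q l s : ℂ) / n) * ((Q l t : ℂ) / n)) o]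
        unfold nn
        push_cast
        rw [Finset.sum_div]
        refine Finset.sum_congr rfl fun l _ => ?_
        field_simp [h.nC]
      · simp [h3]
    · simp [h2]
  · simp [h1]

lemma Good.nonempty (h : Good S Q n) : Nonempty X := by
  have := h.card
  have h2 := h.npos
  exact Fintype.card_pos_iff.1 (by omega)

lemma Good.linInd (h : Good S Q n) : LinearIndependent ℂ (WF S Q n) := by
  obtain ⟨o⟩ := h.nonempty
  rw [Fintype.linearIndependent_iff]
  intro g hg a
  have h1 := congrArg (pi S Q n o a.1.1 a.1.2.1 a.1.2.2) hg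
  rw [map_sum, map_zero] at h1
  rw [Finset.sum_eq_single a] at h1
  · rw [map_smul, WF, h.pi_E, if_pos ⟨rfl, rfl, rfl⟩, smul_eq_mul] at h1
    rcases mul_eq_zero.1 h1 with h2 | h2
    · exact h2
    · exfalso
      have h3 := h.adm a.1.1 a.1.2.1 a.1.2.2 a.2
      rw [div_eq_zero_iff] at h2
      rcases h2 with h2 | h2
      · apply h3
        have h4 : nn S Q a.1.1 a.1.2.1 a.1.2.2 = 0 := by exact_mod_cast h2
        exact h4
      · have := h.nC
        simp [this] at h2
  · intro b _ hb
    rw [map_smul, WF, h.pi_E, if_neg, smul_zero]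
    rintro ⟨e1, e2, e3⟩
    apply hb
    exact Subtype.ext (Prod.ext e1.symm (Prod.ext e2.symm e3.symm))
  · intro hn
    exact absurd (mem_univ _) hn

lemma Good.span_WF (h : Good S Q n) :
    Submodule.span ℂ (Set.range (WF S Q n)) = S.DeltaSpace := by
  have hle : Submodule.span ℂ (Set.range (WF S Q n)) ≤ S.WyeSpace := by
    refine Submodule.span_le.2 ?_
    rintro T ⟨a, rfl⟩
    exact Submodule.subset_span ⟨_, combo_mem S _ _, _, combo_mem S _ _, _, combo_mem S _ _, rfl⟩
  refine Submodule.eq_of_le_of_finrank_le (hle.trans (wye_le S h.auto)) ?_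
  rw [finrank_span_eq_card h.linInd]
  exact finrank_delta_le S

theorem Good.etr (h : Good S Q n) : S.ExactlyTriplyRegular := by
  refine le_antisymm (wye_le S h.auto) ?_
  rw [← h.span_WF]
  refine Submodule.span_le.2 ?_
  rintro T ⟨a, rfl⟩
  exact Submodule.subset_span ⟨_, combo_mem S _ _, _, combo_mem S _ _, _, combo_mem S _ _, rfl⟩

theorem Good.idem (h : Good S Q n) : S.PrimitiveIdempotents (S.combo (co Q n)) := by
  refine ⟨fun r => combo_mem S _ _, fun r h0 => ?_, fun r => ?_, fun r s hrs => ?_, ?_⟩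
  · have h1 : ∀ x y, (Q (S.rel x y) r : ℂ) / n = 0 := fun x y => by
      rw [← E_apply, h0]
      rfl
    have h2 : ∀ i, Q i r = 0 := by
      intro i
      obtain ⟨x, y, hxy⟩ := S.nonempty i
      have h3 := h1 x y
      rw [hxy, div_eq_zero_iff] at h3
      rcases h3 with h3 | h3
      · exact_mod_cast h3
      · exact absurd h3 h.nC
    have h3 := h.inv r r
    rw [if_pos rfl, Finset.sum_eq_zero (fun r' _ => by rw [h2 r', zero_mul])] at h3
    have h4 := h.npos
    omega
  · rw [h.E_mul, if_pos rfl]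
  · rw [h.E_mul, if_neg hrs]
  · apply le_antisymm
    · refine Submodule.span_le.2 ?_
      rintro _ ⟨i, rfl⟩
      rw [h.A_eq i]
      exact Submodule.sum_mem _ fun r _ => Submodule.smul_mem _ _ (Submodule.subset_span ⟨r, rfl⟩)
    · refine Submodule.span_le.2 ?_
      rintro _ ⟨r, rfl⟩
      exact combo_mem S _ _

theorem Good.kreinP (h : Good S Q n) :
    KreinParameters (S.combo (co Q n)) (fun r s t => (S.p r s t : ℝ)) := by
  intro r s
  funext x y
  rw [h.card, Matrix.smul_apply, Matrix.sum_apply]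
  simp only [Matrix.smul_apply, E_apply, smul_eq_mul]
  have h1 := h.krein (S.rel x y) r s
  have h2 : (∑ t, ((S.p r s t : ℝ) : ℂ) * ((Q (S.rel x y) t : ℂ) / n)) =
      ((∑ t, (S.p r s t : ℤ) * Q (S.rel x y) t : ℤ) : ℂ) / n := by
    push_cast
    rw [Finset.sum_div]
    refine Finset.sum_congr rfl fun t _ => ?_
    ring
  rw [h2, ← h1]
  push_cast
  field_simp [h.nC]

lemma sum_adm {V : Type*} [AddCommGroup V] (p : I → I → I → ℕ) (F : Adm p → V) (G : I → I → I → V)
    (hG : ∀ a : Adm p, G a.1.1 a.1.2.1 a.1.2.2 = F a) :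
    ∑ r, ∑ s, ∑ t, (if 0 < p r s t then G r s t else 0) = ∑ a, F a := by
  have h1 : ∑ r, ∑ s, ∑ t, (if 0 < p r s t then G r s t else 0) =
      ∑ x : I × I × I, if 0 < p x.1 x.2.1 x.2.2 then G x.1 x.2.1 x.2.2 else 0 := by
    rw [Fintype.sum_prod_type]
    refine Finset.sum_congr rfl fun r _ => ?_
    rw [Fintype.sum_prod_type]
  rw [h1, ← Finset.sum_filter]
  rw [Finset.sum_subtype (univ.filter (fun x : I × I × I => 0 < p x.1 x.2.1 x.2.2))
    (p := fun x => 0 < p x.1 x.2.1 x.2.2) (by intro x; simp)]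
  exact Finset.sum_congr rfl fun a _ => hG a

theorem Good.exists_dw (h : Good S Q n) :
    ∃ σ, S.DeltaWye (S.combo (co Q n)) (fun r s t => (S.p r s t : ℝ)) σ := by
  classical
  have h1 : ∀ i j k, ∃ c : Adm S.p → ℂ, ∑ a, c a • WF S Q n a = Delta (S.A i) (S.A j) (S.A k) := by
    intro i j k
    have h2 : Delta (S.A i) (S.A j) (S.A k) ∈ Submodule.span ℂ (Set.range (WF S Q n)) := by
      rw [h.span_WF]
      exact Submodule.subset_span ⟨_, A_mem S _, _, A_mem S _, _, A_mem S _, rfl⟩
    exact (Submodule.mem_span_range_iff_exists_fun ℂ).1 h2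
  choose c hc using h1
  refine ⟨fun i j k r s t => if hp : 0 < S.p r s t then c i j k ⟨(r, s, t), hp⟩ else 0, ?_⟩
  intro i j k _
  rw [← hc i j k]
  simp only [Nat.cast_pos]
  symm
  apply sum_adm S.p (fun a => c i j k a • WF S Q n a)
  rintro ⟨⟨r, s, t⟩, hp⟩
  simp only at hp ⊢
  rw [dif_pos hp]
  rfl

/-- the triple sum -/
def zz (S : Scheme X I) (Q : I → I → ℤ) (o : X) (i j k r s t : I) : ℤ :=
  ∑ x, ∑ y, ∑ z, if S.rel x z = i ∧ S.rel x y = j ∧ S.rel y z = k then
    Q (S.rel o x) r * Q (S.rel o y) s * Q (S.rel o z) t else 0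

lemma Good.pi_delta (h : Good S Q n) (o : X) (i j k r s t : I) :
    pi S Q n o r s t (Delta (S.A i) (S.A j) (S.A k)) = (zz S Q o i j k r s t : ℂ) / (n * n * n) := by
  show ∑ x, ∑ y, ∑ z, S.combo (co Q n) r o x * S.combo (co Q n) s o y *
    S.combo (co Q n) t o z * (S.A i x z * S.A j x y * S.A k y z) = _
  unfold zz
  push_cast
  rw [Finset.sum_div]
  refine Finset.sum_congr rfl fun x _ => ?_
  rw [Finset.sum_div]
  refine Finset.sum_congr rfl fun y _ => ?_
  rw [Finset.sum_div]
  refine Finset.sum_congr rfl fun z _ => ?_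
  simp only [E_apply, Scheme.A]
  by_cases h1 : S.rel x z = i
  · by_cases h2 : S.rel x y = j
    · by_cases h3 : S.rel y z = k
      · simp only [h1, h2, h3, if_true, and_self]
        have := h.nC
        field_simp
      · simp [h3]
    · simp [h2]
  · simp [h1]

theorem Good.sigma (h : Good S Q n) (o : X) {σ : I → I → I → I → I → I → ℂ}
    (hσ : S.DeltaWye (S.combo (co Q n)) (fun r s t => (S.p r s t : ℝ)) σ) {i j k r s t : I}
    (hijk : 0 < S.p i j k) (hrst : 0 < S.p r s t) :
    σ i j k r s t * (nn S Q r s t : ℂ) = zz S Q o i j k r s t := by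
  classical
  have h1 := congrArg (pi S Q n o r s t) (hσ i j k hijk)
  rw [h.pi_delta] at h1
  simp only [Nat.cast_pos] at h1
  rw [map_sum, Finset.sum_eq_single r, map_sum, Finset.sum_eq_single s, map_sum,
    Finset.sum_eq_single t, if_pos hrst, map_smul, h.pi_E, if_pos ⟨rfl, rfl, rfl⟩, smul_eq_mul] at h1
  · have h2 := h.nC
    field_simp at h1
    linear_combination -h1
  · intro t' _ ht
    split_ifs
    · rw [map_smul, h.pi_E, if_neg (fun e => ht e.2.2.symm), smul_zero]
    · exact map_zero _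
  · intro hn
    exact absurd (mem_univ _) hn
  · intro s' _ hs
    rw [map_sum]
    refine Finset.sum_eq_zero fun t' _ => ?_
    split_ifs
    · rw [map_smul, h.pi_E, if_neg (fun e => hs e.2.1.symm), smul_zero]
    · exact map_zero _
  · intro hn
    exact absurd (mem_univ _) hn
  · intro r' _ hr
    rw [map_sum]
    refine Finset.sum_eq_zero fun s' _ => ?_
    rw [map_sum]
    refine Finset.sum_eq_zero fun t' _ => ?_
    split_ifs
    · rw [map_smul, h.pi_E, if_neg (fun e => hr e.1.symm), smul_zero]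
    · exact map_zero _
  · intro hn
    exact absurd (mem_univ _) hn

end Pool.Agent.Q160.ETR
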