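import Mathlib
import Pool.Agent.Q160.ETR2

set_option autoImplicit false

/-!
# Two translation schemes on 16 points
-/

noncomputable section

namespace Pool.Agent.Q160.ETR

open Finset Matrix

variable {G I : Type} [AddCommGroup G] [Fintype G] [DecidableEq G] [Fintype I] [DecidableEq I]

/-- the translation scheme of a class function -/
def trans (cls : G → I) (p : I → I → I → ℕ) (hneg : ∀ g, cls (-g) = cls g)
    (h0 : ∀ g, cls g = cls 0 → g = 0) (hs : ∀ i, ∃ g, cls g = i)
    (hp : ∀ i j g, (univ.filter (fun z => cls (g - z) = i ∧ cls z = j)).card = p i j (cls g)) :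
    Scheme G I where
  rel x y := cls (x - y)
  diag := cls 0
  p := p
  rel_eq_diag x y := by
    constructor
    · intro h
      exact sub_eq_zero.1 (h0 _ h)
    · rintro rfl
      rw [sub_self]
  symm x y := by rw [← hneg (x - y), neg_sub]
  nonempty i := by
    obtain ⟨g, hg⟩ := hs i
    exact ⟨g, 0, by rw [sub_zero, hg]⟩
  count i j x y := by
    rw [← hp i j (x - y)]
    refine Finset.card_bij (fun z _ => z - y) ?_ ?_ ?_
    · intro z hz
      rw [Finset.mem_filter] at hz ⊢
      exact ⟨mem_univ _, by rw [sub_sub_sub_cancel_right]; exact hz.2.1, hz.2.2⟩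
    · intro z _ z' _ h
      exact sub_left_inj.1 h
    · intro z hz
      rw [Finset.mem_filter] at hz
      refine ⟨z + y, ?_, by rw [add_sub_cancel_right]⟩
      rw [Finset.mem_filter]
      refine ⟨mem_univ _, ?_, by rw [add_sub_cancel_right]; exact hz.2.2⟩
      rw [add_comm z y, ← sub_sub]
      exact hz.2.1

/-- the automorphisms given by an involution -/
lemma trans_auto (cls : G → I) (θ : G → G) (hadd : ∀ g h, θ (g - h) = θ g - θ h)
    (hinv : ∀ g, θ (θ g) = g) (hcls : ∀ g, cls (θ g) = cls g)
    (heq : ∀ g h, cls g = cls h → h = g ∨ h = θ g) (x y z x' y' z' : G)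
    (h1 : cls (x - z) = cls (x' - z')) (h2 : cls (x - y) = cls (x' - y'))
    (h3 : cls (y - z) = cls (y' - z')) :
    ∃ g : Equiv.Perm G, (∀ a b, cls (g a - g b) = cls (a - b)) ∧ g x = x' ∧ g y = y' ∧ g z = z' := by
  have h0 : θ 0 = 0 := by
    have := hadd 0 0
    simpa using this
  -- the two kinds of automorphisms
  have k1 : x' - z' = x - z → y' - z' = y - z →
      ∃ g : Equiv.Perm G, (∀ a b, cls (g a - g b) = cls (a - b)) ∧ g x = x' ∧ g y = y' ∧ g z = z' := by
    intro e1 e2
    refine ⟨Equiv.addRight (z' - z), fun a b => ?_, ?_, ?_, ?_⟩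
    · simp only [Equiv.coe_addRight]
      rw [add_sub_add_right_eq_sub]
    · simp only [Equiv.coe_addRight]
      have : x' = x' - z' + z' := by abel
      rw [this, e1]
      abel
    · simp only [Equiv.coe_addRight]
      have : y' = y' - z' + z' := by abel
      rw [this, e2]
      abel
    · simp only [Equiv.coe_addRight]
      abel
  have k2 : x' - z' = θ (x - z) → y' - z' = θ (y - z) →
      ∃ g : Equiv.Perm G, (∀ a b, cls (g a - g b) = cls (a - b)) ∧ g x = x' ∧ g y = y' ∧ g z = z' := by
    intro e1 e2
    refine ⟨⟨fun u => θ (u - z) + z', fun u => θ (u - z') + z, fun u => ?_, fun u => ?_⟩,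
      fun a b => ?_, ?_, ?_, ?_⟩
    · simp [hinv]
    · simp [hinv]
    · simp only [Equiv.coe_fn_mk]
      rw [add_sub_add_right_eq_sub, ← hadd, sub_sub_sub_cancel_right, hcls]
    · simp only [Equiv.coe_fn_mk]
      rw [← e1]
      abel
    · simp only [Equiv.coe_fn_mk]
      rw [← e2]
      abel
    · simp only [Equiv.coe_fn_mk]
      rw [sub_self, h0, zero_add]
  have h2' : cls ((x - z) - (y - z)) = cls ((x' - z') - (y' - z')) := by
    rw [sub_sub_sub_cancel_right, sub_sub_sub_cancel_right]
    exact h2
  generalize hA : x - z = A at *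
  generalize hB : y - z = B at *
  generalize hA' : x' - z' = A' at *
  generalize hB' : y' - z' = B' at *
  rcases heq _ _ h1 with rfl | rfl
  · rcases heq _ _ h3 with rfl | rfl
    · exact k1 rfl rfl
    · rcases heq _ _ h2' with e | e
      · have : θ B = B := sub_right_injective e
        exact k1 rfl this
      · rw [hadd] at e
        have : A' = θ A' := sub_left_injective e
        exact k2 this rfl
  · rcases heq _ _ h3 with rfl | rfl
    · rcases heq _ _ h2' with e | e
      · have : θ A = A := sub_left_injective e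
        exact k1 this rfl
      · rw [hadd] at e
        have : B' = θ B' := sub_right_injective e
        exact k2 rfl this
    · exact k2 rfl rfl

/-- the class of a pair of binary vectors -/
def lab (v1 v2 w1 w2 : ℕ) : Fin 10 :=
  if v1 = 0 then (if v2 = 0 then Fin.ofNat 10 (w1 + 2 * w2) else Fin.ofNat 10 (6 + w1))
  else (if v2 = 0 then Fin.ofNat 10 (4 + w2) else Fin.ofNat 10 (8 + (w1 + w2) % 2))

/-- the first group -/
abbrev G1 : Type := ZMod 4 × ZMod 4

/-- the second group -/
abbrev G0 : Type := (ZMod 2 × ZMod 2) × (ZMod 2 × ZMod 2)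

/-- the classes of the first group: {g, -g} -/
def cls1 (g : G1) : Fin 10 := lab (g.1.val % 2) (g.2.val % 2) (g.1.val / 2) (g.2.val / 2)

/-- the classes of the second group: {(v, w), (v, v + w)} -/
def cls0 (g : G0) : Fin 10 := lab g.1.1.val g.1.2.val g.2.1.val g.2.2.val

/-- the involution of the second group -/
def th0 (g : G0) : G0 := (g.1, g.2 + g.1)

/-- the common intersection numbers -/
def pp (i j k : Fin 10) : ℕ :=
  (14234260004491799154010265123050411454766315113262689022432017824531642900354018421807745248877311112293739433512750042066316141754878197476946200997376299719096963520130306512066127132806987124716983041865653984959382200380351866843121302398112399356861965726208668972917799749297770000193034197508615447635327278957634275491675986357886918709180735176633765671936995496470579588876491906644653033586663987431214860932625968877216058775699930956567662830081785574539968735374224015407974978493714477668831800367705923548866807772461692641534465802387541421651127106327663641545975327775401940353025 : ℕ) >>> (2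 * (100 * i.val + 10 * j.val + k.val)) % 4

/-- the common eigenmatrix -/
def QQ (i r : Fin 10) : ℤ :=
  (((136409496182218324304529504495504571317437577287409685154233598638329083675206959947204315 : ℕ) >>> (3 * (10 * i.val + r.val)) % 8 : ℕ) : ℤ) - 2

lemma c1_neg : ∀ g : G1, cls1 (-g) = cls1 g := by decide +kernel
lemma c1_zero : ∀ g : G1, cls1 g = cls1 0 → g = 0 := by decide +kernel
lemma c1_surj : ∀ i, ∃ g : G1, cls1 g = i := by decide +kernel
lemma c1_p : ∀ i j, ∀ g : G1, (univ.filter (fun z => cls1 (g - z) = i ∧ cls1 z = j)).card =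
    pp i j (cls1 g) := by decide +kernel

lemma c1_eq : ∀ g h : G1, cls1 g = cls1 h → h = g ∨ h = -g := by decide +kernel
lemma c1_mul : ∀ r s, ∀ g : G1, ∑ z, QQ (cls1 (g - z)) r * QQ (cls1 z) s =
    if r = s then 16 * QQ (cls1 g) r else 0 := by decide +kernel

lemma c0_neg : ∀ g : G0, cls0 (-g) = cls0 g := by decide +kernel
lemma c0_zero : ∀ g : G0, cls0 g = cls0 0 → g = 0 := by decide +kernel
lemma c0_surj : ∀ i, ∃ g : G0, cls0 g = i := by decide +kernel
lemma c0_p : ∀ i j, ∀ g : G0, (univ.filter (fun z => cls0 (g - z) = i ∧ cls0 z = j)).card =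
    pp i j (cls0 g) := by decide +kernel
lemma c0_eq : ∀ g h : G0, cls0 g = cls0 h → h = g ∨ h = th0 g := by decide +kernel
lemma c0_th : ∀ g : G0, cls0 (th0 g) = cls0 g := by decide +kernel
lemma c0_thth : ∀ g : G0, th0 (th0 g) = g := by decide +kernel
lemma c0_add : ∀ g h : G0, th0 (g - h) = th0 g - th0 h := by
  intro g h
  unfold th0
  ext <;> simp <;> ring
lemma c0_mul : ∀ r s, ∀ g : G0, ∑ z, QQ (cls0 (g - z)) r * QQ (cls0 z) s =
    if r = s then 16 * QQ (cls0 g) r else 0 := by decide +kernel

lemma q_inv : ∀ i k : Fin 10, ∑ r, QQ r i * QQ k r = if i = k then (16 : ℤ) else 0 := by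
  decide +kernel
lemma q_krein : ∀ i r s : Fin 10, QQ i r * QQ i s = ∑ t, (pp r s t : ℤ) * QQ i t := by
  decide +kernel
lemma q_adm : ∀ r s t : Fin 10, 0 < pp r s t →
    ∑ l, (pp l l 0 : ℤ) * (QQ l r * QQ l s * QQ l t) ≠ 0 := by
  decide +kernel

/-- the first scheme -/
def S1 : Scheme G1 (Fin 10) := trans cls1 pp c1_neg c1_zero c1_surj c1_p

/-- the second scheme -/
def S0 : Scheme G0 (Fin 10) := trans cls0 pp c0_neg c0_zero c0_surj c0_p

lemma trans_mul (cls : G → Fin 10)
    (hm : ∀ r s, ∀ g : G, ∑ z, QQ (cls (g - z)) r * QQ (cls z) s =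
      if r = s then 16 * QQ (cls g) r else 0) (r s : Fin 10) (x y : G) :
    ∑ z, QQ (cls (x - z)) r * QQ (cls (z - y)) s = if r = s then 16 * QQ (cls (x - y)) r else 0 := by
  rw [← hm r s (x - y)]
  refine Fintype.sum_equiv (Equiv.subRight y) _ _ fun z => ?_
  simp only [Equiv.subRight_apply]
  rw [sub_sub_sub_cancel_right]

theorem good1 : Good S1 QQ 16 where
  card := by decide +kernel
  npos := by norm_num
  mul := fun r s x y => trans_mul cls1 c1_mul r s x y
  inv := q_inv
  krein := q_krein
  adm := q_adm
  auto := fun x y z x' y' z' h1 h2 h3 =>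
    trans_auto cls1 (fun g => -g) (fun g h => by abel) (fun g => neg_neg g) c1_neg c1_eq
      x y z x' y' z' h1 h2 h3

theorem good0 : Good S0 QQ 16 where
  card := by decide +kernel
  npos := by norm_num
  mul := fun r s x y => trans_mul cls0 c0_mul r s x y
  inv := q_inv
  krein := q_krein
  adm := q_adm
  auto := fun x y z x' y' z' h1 h2 h3 =>
    trans_auto cls0 th0 c0_add c0_thth c0_th c0_eq x y z x' y' z' h1 h2 h3

lemma zz1 : zz S1 QQ 0 4 6 8 8 6 4 = 64 := by
  unfold zz S1 trans
  decide +kernel

lemma zz0 : zz S0 QQ 0 4 6 8 8 6 4 = -64 := by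
  unfold zz S0 trans
  decide +kernel

end Pool.Agent.Q160.ETR
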