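import Mathlib

/-!
# Edit distance: operations, alignments and a Boolean test
-/

set_option autoImplicit false

namespace Q160.Edit

/-- One single-character edit operation: an insertion, a deletion or a substitution. -/
inductive EditStep {α : Type} : List α → List α → Prop
  | ins (l r : List α) (a : α) : EditStep (l ++ r) (l ++ a :: r)
  | del (l r : List α) (a : α) : EditStep (l ++ a :: r) (l ++ r)
  | sub (l r : List α) (a b : α) : EditStep (l ++ a :: r) (l ++ b :: r)

/-- `Reach k s t`: the string `t` arises from `s` by exactly `k` edit operations (the intermediate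
strings are arbitrary). -/
inductive Reach {α : Type} : ℕ → List α → List α → Prop
  | refl (s : List α) : Reach 0 s s
  | step {k : ℕ} {s u t : List α} : EditStep s u → Reach k u t → Reach (k + 1) s t

/-- `EditLE r s t`: the edit distance of `s` and `t` is at most `r`, that is, `t` arises from `s` by
at most `r` edit operations. -/
def EditLE {α : Type} (r : ℕ) (s t : List α) : Prop := ∃ k, k ≤ r ∧ Reach k s t

/-- alignments of cost `k` -/
inductive Align {α : Type} : ℕ → List α → List α → Prop
  | nil : Align 0 [] []
  | keep {k : ℕ} {s t : List α} (a : α) : Align k s t → Align k (a :: s) (a :: t)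
  | sub {k : ℕ} {s t : List α} (a b : α) : Align k s t → Align (k + 1) (a :: s) (b :: t)
  | del {k : ℕ} {s t : List α} (a : α) : Align k s t → Align (k + 1) (a :: s) t
  | ins {k : ℕ} {s t : List α} (b : α) : Align k s t → Align (k + 1) s (b :: t)

variable {α : Type}

theorem Align.refl (s : List α) : Align 0 s s := by
  induction s with
  | nil => exact Align.nil
  | cons a s ih => exact Align.keep a ih

theorem EditStep.cons {s t : List α} (a : α) (h : EditStep s t) : EditStep (a :: s) (a :: t) := by
  cases h with
  | ins l r b => exact EditStep.ins (a :: l) r b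
  | del l r b => exact EditStep.del (a :: l) r b
  | sub l r b c => exact EditStep.sub (a :: l) r b c

theorem Reach.cons {k : ℕ} {s t : List α} (a : α) (h : Reach k s t) :
    Reach k (a :: s) (a :: t) := by
  induction h with
  | refl s => exact Reach.refl _
  | step h1 _ ih => exact Reach.step (h1.cons a) ih

theorem Align.reach {k : ℕ} {s t : List α} (h : Align k s t) : Reach k s t := by
  induction h with
  | nil => exact Reach.refl _
  | keep a _ ih => exact ih.cons a
  | sub a b _ ih => exact Reach.step (EditStep.sub [] _ a b) (ih.cons b)
  | del a _ ih => exact Reach.step (EditStep.del [] _ a) ih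
  | ins b _ ih => exact Reach.step (EditStep.ins [] _ b) (ih.cons b)

/-- removing the first letter of the second string costs at most one -/
theorem Align.tail_right {k : ℕ} {s t : List α} {b : α} (h : Align k s (b :: t)) :
    ∃ j, j ≤ k + 1 ∧ Align j s t := by
  generalize hu : b :: t = u at h
  induction h with
  | nil => cases hu
  | keep a h' _ =>
    cases hu
    exact ⟨_, le_rfl, Align.del _ h'⟩
  | sub a c h' _ =>
    cases hu
    exact ⟨_, by omega, Align.del _ h'⟩
  | del a h' ih =>
    obtain ⟨j, hj, hj'⟩ := ih hu
    exact ⟨_, by omega, Align.del a hj'⟩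
  | ins c h' _ =>
    cases hu
    exact ⟨_, by omega, h'⟩

theorem Align.tail_left {k : ℕ} {s t : List α} {a : α} (h : Align k (a :: s) t) :
    ∃ j, j ≤ k + 1 ∧ Align j s t := by
  generalize hu : a :: s = u at h
  induction h with
  | nil => cases hu
  | keep b h' _ =>
    cases hu
    exact ⟨_, le_rfl, Align.ins _ h'⟩
  | sub b c h' _ =>
    cases hu
    exact ⟨_, by omega, Align.ins c h'⟩
  | del b h' _ =>
    cases hu
    exact ⟨_, by omega, h'⟩
  | ins c h' ih =>
    obtain ⟨j, hj, hj'⟩ := ih hu
    exact ⟨_, by omega, Align.ins c hj'⟩

theorem Align.length_le {k : ℕ} {s t : List α} (h : Align k s t) :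
    t.length ≤ s.length + k ∧ s.length ≤ t.length + k := by
  induction h with
  | nil => simp
  | keep a _ ih => simp only [List.length_cons]; omega
  | sub a b _ ih => simp only [List.length_cons]; omega
  | del a _ ih => simp only [List.length_cons]; omega
  | ins b _ ih => simp only [List.length_cons]; omega

/-- an alignment with cost at most `k` -/
def E (k : ℕ) (s t : List α) : Prop := ∃ j, j ≤ k ∧ Align j s t

theorem E.keep {k : ℕ} {s t : List α} {a : α} (h : E k s t) : E k (a :: s) (a :: t) := by
  obtain ⟨j, hj, h⟩ := h; exact ⟨j, hj, h.keep a⟩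

theorem E.greedy {k : ℕ} {s t : List α} {a : α} (h : E k (a :: s) (a :: t)) : E k s t := by
  obtain ⟨j, hj, h⟩ := h
  cases h with
  | keep _ h => exact ⟨_, hj, h⟩
  | sub _ _ h => exact ⟨_, by omega, h⟩
  | del _ h =>
    obtain ⟨i, hi, h'⟩ := h.tail_right
    exact ⟨i, by omega, h'⟩
  | ins _ h =>
    obtain ⟨i, hi, h'⟩ := h.tail_left
    exact ⟨i, by omega, h'⟩

theorem E.append_left {k : ℕ} {s t : List α} (l : List α) (h : E k s t) :
    E k (l ++ s) (l ++ t) := by
  induction l with
  | nil => exact h
  | cons a l ih => exact ih.keep

/-- a further edit operation on the first string costs at most one -/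
theorem E.step {k : ℕ} {s u t : List α} (h1 : EditStep s u) (h2 : E k u t) : E (k + 1) s t := by
  obtain ⟨j, hj, h2⟩ := h2
  suffices H : E (j + 1) s t by
    obtain ⟨i, hi, H⟩ := H; exact ⟨i, by omega, H⟩
  clear hj
  cases h1 with
  | ins l r a =>
    induction l generalizing j t with
    | nil => exact h2.tail_left
    | cons c l ih =>
      simp only [List.cons_append] at h2 ⊢
      generalize hv : c :: (l ++ a :: r) = v at h2
      induction h2 with
      | nil => cases hv
      | keep b h' _ =>
        cases hv
        exact (ih _ h').keep
      | sub b d h' _ =>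
        cases hv
        obtain ⟨i, hi, h⟩ := ih _ h'
        exact ⟨i + 1, by omega, h.sub _ _⟩
      | del b h' _ =>
        cases hv
        obtain ⟨i, hi, h⟩ := ih _ h'
        exact ⟨i + 1, by omega, h.del _⟩
      | ins d h' ih' =>
        obtain ⟨i, hi, h⟩ := ih' hv
        exact ⟨i + 1, by omega, h.ins _⟩
  | del l r a =>
    induction l generalizing j t with
    | nil => exact ⟨_, le_rfl, h2.del a⟩
    | cons c l ih =>
      simp only [List.cons_append] at h2 ⊢
      generalize hv : c :: (l ++ r) = v at h2
      induction h2 with
      | nil => cases hv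
      | keep b h' _ =>
        cases hv
        exact (ih _ h').keep
      | sub b d h' _ =>
        cases hv
        obtain ⟨i, hi, h⟩ := ih _ h'
        exact ⟨i + 1, by omega, h.sub _ _⟩
      | del b h' _ =>
        cases hv
        obtain ⟨i, hi, h⟩ := ih _ h'
        exact ⟨i + 1, by omega, h.del _⟩
      | ins d h' ih' =>
        obtain ⟨i, hi, h⟩ := ih' hv
        exact ⟨i + 1, by omega, h.ins _⟩
  | sub l r a b =>
    induction l generalizing j t with
    | nil =>
      simp only [List.nil_append] at h2 ⊢
      generalize hv : b :: r = v at h2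
      induction h2 with
      | nil => cases hv
      | keep c h' _ =>
        cases hv
        exact ⟨_, le_rfl, h'.sub _ _⟩
      | sub c d h' _ =>
        cases hv
        exact ⟨_, by omega, h'.sub _ _⟩
      | del c h' _ =>
        cases hv
        exact ⟨_, by omega, h'.del _⟩
      | ins d h' ih' =>
        obtain ⟨i, hi, h⟩ := ih' hv
        exact ⟨i + 1, by omega, h.ins _⟩
    | cons c l ih =>
      simp only [List.cons_append] at h2 ⊢
      generalize hv : c :: (l ++ b :: r) = v at h2
      induction h2 with
      | nil => cases hv
      | keep b h' _ =>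
        cases hv
        exact (ih _ h').keep
      | sub b d h' _ =>
        cases hv
        obtain ⟨i, hi, h⟩ := ih _ h'
        exact ⟨i + 1, by omega, h.sub _ _⟩
      | del b h' _ =>
        cases hv
        obtain ⟨i, hi, h⟩ := ih _ h'
        exact ⟨i + 1, by omega, h.del _⟩
      | ins d h' ih' =>
        obtain ⟨i, hi, h⟩ := ih' hv
        exact ⟨i + 1, by omega, h.ins _⟩

theorem Reach.toE {k : ℕ} {s t : List α} (h : Reach k s t) : E k s t := by
  induction h with
  | refl s => exact ⟨0, le_rfl, Align.refl s⟩
  | step h1 _ ih => exact ih.step h1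

theorem editLE_iff {r : ℕ} {s t : List α} : EditLE r s t ↔ E r s t := by
  constructor
  · rintro ⟨k, hk, h⟩
    obtain ⟨j, hj, h'⟩ := h.toE
    exact ⟨j, by omega, h'⟩
  · rintro ⟨j, hj, h⟩
    exact ⟨j, hj, h.reach⟩

/-- Boolean test of `E k s t` for strings of bits; the first argument is fuel -/
def test : ℕ → ℕ → List Bool → List Bool → Bool
  | _, k, [], t => Nat.ble t.length k
  | _, k, s, [] => Nat.ble s.length k
  | 0, _, _ :: _, _ :: _ => false
  | f + 1, k, a :: s, b :: t =>
    match a, b with
    | true, true => test f k s t
    | false, false => test f k s t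
    | _, _ => match k with
      | 0 => false
      | k + 1 => test f k s t || test f k s (b :: t) || test f k (a :: s) t

theorem E_nil_left {k : ℕ} {t : List α} (h : t.length ≤ k) : E k [] t := by
  induction t generalizing k with
  | nil => exact ⟨0, by omega, Align.nil⟩
  | cons b t ih =>
    simp only [List.length_cons] at h
    obtain ⟨j, hj, h'⟩ := ih (k := k - 1) (by omega)
    exact ⟨j + 1, by omega, h'.ins b⟩

theorem E_nil_right {k : ℕ} {s : List α} (h : s.length ≤ k) : E k s [] := by
  induction s generalizing k with
  | nil => exact ⟨0, by omega, Align.nil⟩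
  | cons b t ih =>
    simp only [List.length_cons] at h
    obtain ⟨j, hj, h'⟩ := ih (k := k - 1) (by omega)
    exact ⟨j + 1, by omega, h'.del b⟩

theorem test_ne {f k : ℕ} {a b : Bool} {s t : List Bool} (h : a ≠ b) :
    test (f + 1) (k + 1) (a :: s) (b :: t) =
      (test f k s t || test f k s (b :: t) || test f k (a :: s) t) := by
  cases a <;> cases b <;> first | exact absurd rfl h | rfl

theorem test_ne_zero {f : ℕ} {a b : Bool} {s t : List Bool} (h : a ≠ b) :
    test (f + 1) 0 (a :: s) (b :: t) = false := by
  cases a <;> cases b <;> first | exact absurd rfl h | rfl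

theorem test_eq {f k : ℕ} {a : Bool} {s t : List Bool} :
    test (f + 1) k (a :: s) (a :: t) = test f k s t := by
  cases a <;> rfl

theorem test_sound {f k : ℕ} {s t : List Bool} (h : test f k s t = true) : E k s t := by
  induction f generalizing k s t with
  | zero =>
    match s, t with
    | [], t => exact E_nil_left (Nat.le_of_ble_eq_true (by simpa [test] using h))
    | a :: s, [] => exact E_nil_right (Nat.le_of_ble_eq_true (by simpa [test] using h))
    | a :: s, b :: t => simp [test] at h
  | succ f ih =>
    match s, t with
    | [], t => exact E_nil_left (Nat.le_of_ble_eq_true (by simpa [test] using h))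
    | a :: s, [] => exact E_nil_right (Nat.le_of_ble_eq_true (by simpa [test] using h))
    | a :: s, b :: t =>
      by_cases hab : a = b
      · subst hab
        rw [test_eq] at h
        exact (ih h).keep
      · match k with
        | 0 => rw [test_ne_zero hab] at h; cases h
        | k + 1 =>
          rw [test_ne hab, Bool.or_eq_true, Bool.or_eq_true] at h
          rcases h with (h | h) | h
          · obtain ⟨j, hj, h'⟩ := ih h
            exact ⟨j + 1, by omega, h'.sub a b⟩
          · obtain ⟨j, hj, h'⟩ := ih h
            exact ⟨j + 1, by omega, h'.del a⟩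
          · obtain ⟨j, hj, h'⟩ := ih h
            exact ⟨j + 1, by omega, h'.ins b⟩

theorem test_complete {f k : ℕ} {s t : List Bool} (h : E k s t) (hf : s.length + t.length ≤ f) :
    test f k s t = true := by
  induction f generalizing k s t with
  | zero =>
    match s, t with
    | [], [] => simp [test]
    | [], b :: t => simp only [List.length_cons] at hf; omega
    | a :: s, t => simp only [List.length_cons] at hf; omega
  | succ f ih =>
    match s, t with
    | [], t =>
      obtain ⟨j, hj, h'⟩ := h
      have := h'.length_le
      simp only [test, List.length_nil] at this ⊢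
      exact Nat.ble_eq_true_of_le (by omega)
    | a :: s, [] =>
      obtain ⟨j, hj, h'⟩ := h
      have := h'.length_le
      simp only [test, List.length_nil] at this ⊢
      exact Nat.ble_eq_true_of_le (by omega)
    | a :: s, b :: t =>
      simp only [List.length_cons] at hf
      by_cases hab : a = b
      · subst hab
        rw [test_eq]
        exact ih h.greedy (by omega)
      · obtain ⟨j, hj, h'⟩ := h
        cases h' with
        | keep _ h' => exact absurd rfl hab
        | @sub j' _ _ _ _ h' =>
          obtain ⟨k', rfl⟩ : ∃ k', k = k' + 1 := ⟨k - 1, by omega⟩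
          rw [test_ne hab, ih ⟨j', by omega, h'⟩ (by omega), Bool.true_or, Bool.true_or]
        | @del j' _ _ _ h' =>
          obtain ⟨k', rfl⟩ : ∃ k', k = k' + 1 := ⟨k - 1, by omega⟩
          rw [test_ne hab, ih (s := s) (t := b :: t) ⟨j', by omega, h'⟩
            (by simp only [List.length_cons]; omega), Bool.or_true, Bool.true_or]
        | @ins j' _ _ _ h' =>
          obtain ⟨k', rfl⟩ : ∃ k', k = k' + 1 := ⟨k - 1, by omega⟩
          rw [test_ne hab, ih (s := a :: s) (t := t) ⟨j', by omega, h'⟩
            (by simp only [List.length_cons]; omega), Bool.or_true]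

theorem editLE_iff_test {r n : ℕ} {s t : List Bool} (hn : s.length + t.length ≤ n) :
    EditLE r s t ↔ test n r s t = true :=
  editLE_iff.trans ⟨fun h => test_complete h hn, test_sound⟩

end Q160.Edit
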