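import Mathlib

/-!
# Eulerian circuits from successor permutations, and cyclic sequences
-/

namespace Q160.Euler

open Equiv Relation

variable {E V : Type*}

/-- the vertex relation given by the edges -/
def adj (src tgt : E → V) : V → V → Prop := fun u v => ∃ e, u = src e ∧ v = tgt e

lemma pow_swap_mul [DecidableEq E] (τ : Perm E) {e e' : E} (hne : ¬ τ.SameCycle e e') (n : ℕ)
    (hn : ∀ i, 0 < i → i ≤ n → (τ ^ i) e ≠ e) : ((swap e e' * τ) ^ n) e = (τ ^ n) e := by
  induction n with
  | zero => simp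
  | succ n ih =>
    have h1 := ih (fun i hi hin => hn i hi (by omega))
    rw [pow_succ', Perm.mul_apply, h1, Perm.mul_apply]
    have h2 : τ ((τ ^ n) e) = (τ ^ (n + 1)) e := by rw [pow_succ', Perm.mul_apply]
    rw [h2]
    apply swap_apply_of_ne_of_ne
    · exact hn (n + 1) (Nat.succ_pos _) le_rfl
    · intro h3
      apply hne
      exact ⟨((n + 1 : ℕ) : ℤ), by rw [zpow_natCast]; exact h3⟩

lemma sameCycle_swap [Finite E] [DecidableEq E] (τ : Perm E) {e e' : E}
    (hne : ¬ τ.SameCycle e e') {x : E} (hx : τ.SameCycle e x) :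
    (swap e e' * τ).SameCycle e x := by
  classical
  have hex : ∃ n : ℕ, (τ ^ n) e = x := by
    obtain ⟨n, hn⟩ := hx.exists_nat_pow_eq
    exact ⟨n, hn⟩
  have hmin := Nat.find_spec hex
  have hlt : ∀ i, 0 < i → i ≤ Nat.find hex → (τ ^ i) e ≠ e := by
    intro i hi hin h
    have h1 : (τ ^ (Nat.find hex - i)) e = x := by
      have : (τ ^ (Nat.find hex)) e = (τ ^ (Nat.find hex - i)) ((τ ^ i) e) := by
        rw [← Perm.mul_apply, ← pow_add]
        congr 2
        omega
      rw [h] at this
      rw [← this]; exact hmin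
    exact Nat.find_min hex (by omega) h1
  exact ⟨((Nat.find hex : ℕ) : ℤ), by rw [zpow_natCast, pow_swap_mul τ hne _ hlt]; exact hmin⟩

lemma sameCycle_swap' [Finite E] [DecidableEq E] (τ : Perm E) {e e' : E}
    (hne : ¬ τ.SameCycle e e') : (swap e e' * τ).SameCycle e e' := by
  classical
  have hex : ∃ n : ℕ, 0 < n ∧ (τ ^ n) e = e := by
    refine ⟨orderOf τ, orderOf_pos τ, ?_⟩
    rw [pow_orderOf_eq_one]; rfl
  obtain ⟨hpos, hmin⟩ := Nat.find_spec hex
  obtain ⟨N, hN⟩ : ∃ N, Nat.find hex = N + 1 := ⟨Nat.find hex - 1, by omega⟩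
  have hlt : ∀ i, 0 < i → i ≤ N → (τ ^ i) e ≠ e := by
    intro i hi hin h
    exact Nat.find_min hex (by omega) ⟨hi, h⟩
  refine ⟨((N + 1 : ℕ) : ℤ), ?_⟩
  rw [zpow_natCast, pow_succ', Perm.mul_apply, pow_swap_mul τ hne N hlt, Perm.mul_apply]
  have h2 : τ ((τ ^ N) e) = (τ ^ (N + 1)) e := by rw [pow_succ', Perm.mul_apply]
  rw [h2, ← hN, hmin, swap_apply_left]

/-- **Euler's theorem** for successor permutations. -/
theorem euler [Finite E] (src tgt : E → V) (σ : Perm E) (hσ : ∀ e, src (σ e) = tgt e)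
    (hconn : ∀ e e', EqvGen (adj src tgt) (src e) (src e')) :
    ∃ τ : Perm E, (∀ e, src (τ e) = tgt e) ∧ ∀ e e', τ.SameCycle e e' := by
  classical
  have : Fintype E := Fintype.ofFinite E
  rcases isEmpty_or_nonempty E with hE | ⟨⟨e0⟩⟩
  · exact ⟨σ, hσ, fun e => (hE.false e).elim⟩
  let S : Finset (Perm E) := Finset.univ.filter (fun τ => ∀ e, src (τ e) = tgt e)
  have hS : S.Nonempty := ⟨σ, by simp [S, hσ]⟩
  obtain ⟨τ, hτS, hmax⟩ := Finset.exists_max_image S
    (fun τ => (Finset.univ.filter (fun x => τ.SameCycle e0 x)).card) hS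
  have hτ : ∀ e, src (τ e) = tgt e := by simpa [S] using hτS
  have hall : ∀ x, τ.SameCycle e0 x := by
    by_contra hcon
    push Not at hcon
    obtain ⟨e1, he1⟩ := hcon
    have hex : ∃ e e', τ.SameCycle e0 e ∧ ¬ τ.SameCycle e0 e' ∧ src e = src e' := by
      by_contra hno
      push Not at hno
      have hP : ∀ u v, EqvGen (adj src tgt) u v →
          ((∃ e, τ.SameCycle e0 e ∧ src e = u) ↔ (∃ e, τ.SameCycle e0 e ∧ src e = v)) := by
        intro u v h
        induction h with
        | rel u v h =>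
          obtain ⟨f, rfl, rfl⟩ := h
          constructor
          · rintro ⟨e, he, hs⟩
            have hf : τ.SameCycle e0 f := by
              by_contra hf
              exact hno e f he hf hs
            exact ⟨τ f, Perm.sameCycle_apply_right.mpr hf, hτ f⟩
          · rintro ⟨e, he, hs⟩
            have hf : τ.SameCycle e0 (τ f) := by
              by_contra hf
              exact hno e (τ f) he hf (hs.trans (hτ f).symm)
            exact ⟨f, Perm.sameCycle_apply_right.mp hf, rfl⟩
        | refl u => exact Iff.rfl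
        | symm u v _ ih => exact ih.symm
        | trans u v w _ _ ih1 ih2 => exact ih1.trans ih2
      obtain ⟨e, he, hs⟩ := (hP _ _ (hconn e0 e1)).mp ⟨e0, Perm.SameCycle.refl _ _, rfl⟩
      exact hno e e1 he he1 hs
    obtain ⟨e, e', he, he', hs⟩ := hex
    have hne : ¬ τ.SameCycle e e' := fun h => he' (he.trans h)
    have hτ' : (swap e e' * τ) ∈ S := by
      simp only [S, Finset.mem_filter, Finset.mem_univ, true_and]
      intro f
      rw [Perm.mul_apply, ← hτ f]
      by_cases h1 : τ f = e
      · rw [h1, swap_apply_left]; exact hs.symm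
      · by_cases h2 : τ f = e'
        · rw [h2, swap_apply_right]; exact hs
        · rw [swap_apply_of_ne_of_ne h1 h2]
    have hle := hmax _ hτ'
    have h0 : (swap e e' * τ).SameCycle e0 e := (sameCycle_swap τ hne he.symm).symm
    have hlt : (Finset.univ.filter (fun x => τ.SameCycle e0 x)).card
        < (Finset.univ.filter (fun x => (swap e e' * τ).SameCycle e0 x)).card := by
      apply Finset.card_lt_card
      rw [Finset.ssubset_iff_of_subset]
      · exact ⟨e', by simpa using h0.trans (sameCycle_swap' τ hne), by simpa using he'⟩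
      · intro x hx
        simp only [Finset.mem_filter, Finset.mem_univ, true_and] at hx ⊢
        exact h0.trans (sameCycle_swap τ hne (he.symm.trans hx))
    exact absurd hle (not_le.mpr hlt)
  exact ⟨τ, hτ, fun e e' => (hall e).symm.trans (hall e')⟩

/-- A transitive permutation is a cyclic shift. -/
theorem exists_cyclic [Fintype E] [Nonempty E] (τ : Perm E) (h : ∀ e e', τ.SameCycle e e') :
    ∃ φ : ZMod (Fintype.card E) ≃ E, ∀ i, φ (i + 1) = τ (φ i) := by
  classical
  obtain ⟨e0⟩ := (inferInstance : Nonempty E)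
  set N := Fintype.card E with hN
  have : NeZero N := ⟨Fintype.card_ne_zero⟩
  have hcyc : τ.IsCycleOn ((Finset.univ : Finset E) : Set E) := by
    refine ⟨?_, fun x _ y _ => h x y⟩
    rw [Finset.coe_univ]
    exact Set.bijOn_univ.mpr τ.bijective
  have hpN : (τ ^ N) e0 = e0 := by
    have := hcyc.pow_card_apply (Finset.mem_univ e0)
    rwa [Finset.card_univ] at this
  have hmul : ∀ q : ℕ, (τ ^ (N * q)) e0 = e0 := by
    intro q
    induction q with
    | zero => simp
    | succ q ih => rw [Nat.mul_succ, pow_add, Perm.mul_apply, hpN, ih]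
  have hmod : ∀ k : ℕ, (τ ^ (k % N)) e0 = (τ ^ k) e0 := by
    intro k
    conv_rhs => rw [← Nat.mod_add_div k N, pow_add, Perm.mul_apply, hmul]
  let f : ZMod N → E := fun i => (τ ^ i.val) e0
  have hf : ∀ k : ℕ, f (k : ZMod N) = (τ ^ k) e0 := by
    intro k
    show (τ ^ ((k : ZMod N)).val) e0 = _
    rw [ZMod.val_natCast, hmod]
  have hsurj : Function.Surjective f := by
    intro x
    obtain ⟨n, _, hn⟩ := hcyc.exists_pow_eq (Finset.mem_univ e0) (Finset.mem_univ x)
    exact ⟨(n : ZMod N), by rw [hf]; exact hn⟩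
  have hbij : Function.Bijective f := by
    rw [Fintype.bijective_iff_surjective_and_card]
    exact ⟨hsurj, by rw [ZMod.card]⟩
  refine ⟨Equiv.ofBijective f hbij, ?_⟩
  intro i
  show f (i + 1) = τ (f i)
  have h1 : i + 1 = ((i.val + 1 : ℕ) : ZMod N) := by
    push_cast
    rw [ZMod.natCast_zmod_val]
  rw [h1, hf, pow_succ', Perm.mul_apply]

/-- the window of length `l` at position `i` -/
def win {n : ℕ} {A : Type*} (l : ℕ) (s : ZMod n → A) (i : ZMod n) : Fin l → A :=
  fun j => s (i + (j : ℕ))

/-- **From Eulerian systems of words to cyclic sequences.** -/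
theorem exists_seq [Fintype E] [Nonempty E] {A : Type*} (J : ℕ) (word : E → Fin (J + 1) → A)
    (σ : Perm E) (hσ : ∀ e, Fin.init (word (σ e)) = Fin.tail (word e))
    (hconn : ∀ e e', EqvGen (adj (fun e => Fin.init (word e)) (fun e => Fin.tail (word e)))
      (Fin.init (word e)) (Fin.init (word e'))) :
    ∃ s : ZMod (Fintype.card E) → A, ∃ φ : ZMod (Fintype.card E) ≃ E,
      (∀ i, win (J + 1) s i = word (φ i)) ∧ ∀ i, s i = word (φ i) 0 := by
  obtain ⟨τ, hτ, hs⟩ := euler (fun e => Fin.init (word e)) (fun e => Fin.tail (word e)) σ hσ hconn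
  obtain ⟨φ, hφ⟩ := exists_cyclic τ hs
  refine ⟨fun i => word (φ i) 0, φ, ?_, fun i => rfl⟩
  have key : ∀ (j : ℕ) (hj : j < J + 1) (i : ZMod (Fintype.card E)),
      word (φ (i + (j : ℕ))) 0 = word (φ i) ⟨j, hj⟩ := by
    intro j
    induction j with
    | zero => intro hj i; simp
    | succ j ih =>
      intro hj i
      have h1 := ih (by omega) (i + 1)
      have h2 : i + ((j + 1 : ℕ) : ZMod (Fintype.card E)) = i + 1 + (j : ℕ) := by
        push_cast; ring
      rw [h2, h1, hφ]
      have h3 := congrFun (hτ (φ i)) ⟨j, by omega⟩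
      exact h3
  intro i
  funext j
  exact key j.val j.isLt i

end Q160.Euler
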