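import Mathlib

set_option autoImplicit false

/-!
# Second moment method for vectors in boxes
-/

namespace Pool.Agent.Q160.GK

open Finset

variable {k : ℕ}

lemma filter_pi (B : Fin k → Finset ℕ) (P : Fin k → Finset ℕ) (hP : ∀ i, P i ⊆ B i) :
    (Fintype.piFinset B).filter (fun b => ∀ i, b i ∈ P i) = Fintype.piFinset P := by
  ext b
  rw [mem_filter, Fintype.mem_piFinset, Fintype.mem_piFinset]
  exact ⟨fun h => h.2, fun h => ⟨fun i => hP i (h i), h⟩⟩

lemma card_pi (P : Fin k → Finset ℕ) : ((Fintype.piFinset P).card : ℝ) = ∏ i, ((P i).card : ℝ) := by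
  rw [Fintype.card_piFinset]
  push_cast
  rfl

open Classical in
/-- **Second moment method.** The vectors which are counted lie in the set `G`. -/
theorem second_moment (B : Fin k → Finset ℕ) (Om : Finset ℕ) (P : Fin k → ℕ → Finset ℕ)
    (hP : ∀ n ∈ Om, ∀ i, P i n ⊆ B i) (G : (Fin k → ℕ) → Prop)
    (hG : ∀ n ∈ Om, ∀ b : Fin k → ℕ, (∀ i, b i ∈ P i n) → G b) (X1 X2 T : ℝ)
    (h1 : X1 ≤ ∑ n ∈ Om, ∏ i, ((P i n).card : ℝ))
    (h2 : ∑ n ∈ Om, ∑ m ∈ Om, ∏ i, ((P i n ∩ P i m).card : ℝ) ≤ X2)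
    (hT : (((Fintype.piFinset B).filter G).card : ℝ) ≤ T)
    (hT0 : 0 < T) (hX1 : 0 ≤ X1) :
    X1 ^ 2 ≤ 4 * X2 * ((((Fintype.piFinset B).filter
      (fun b => G b ∧ X1 / (2 * T) ≤ ((Om.filter (fun n => ∀ i, b i ∈ P i n)).card : ℝ))).card : ℕ) : ℝ) := by
  obtain ⟨N, hN⟩ : ∃ N : (Fin k → ℕ) → ℝ, N = fun b => ((Om.filter (fun n => ∀ i, b i ∈ P i n)).card : ℝ) := ⟨_, rfl⟩
  have hNsum : ∀ b, N b = ∑ n ∈ Om, if ∀ i, b i ∈ P i n then (1 : ℝ) else 0 := by
    intro b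
    rw [hN, Finset.sum_ite, Finset.sum_const_zero, add_zero, Finset.sum_const, nsmul_eq_mul, mul_one]
  have hfirst : ∑ b ∈ Fintype.piFinset B, N b = ∑ n ∈ Om, ∏ i, ((P i n).card : ℝ) := by
    simp_rw [hNsum]
    rw [Finset.sum_comm]
    refine Finset.sum_congr rfl fun n hn => ?_
    rw [← Finset.sum_filter, Finset.sum_const, nsmul_eq_mul, mul_one, ← card_pi, ← filter_pi B (fun i => P i n) (hP n hn)]
  have hsecond : ∑ b ∈ Fintype.piFinset B, N b ^ 2 = ∑ n ∈ Om, ∑ m ∈ Om, ∏ i, ((P i n ∩ P i m).card : ℝ) := by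
    simp_rw [sq, hNsum, Finset.sum_mul_sum]
    rw [Finset.sum_comm]
    refine Finset.sum_congr rfl fun n hn => ?_
    rw [Finset.sum_comm]
    refine Finset.sum_congr rfl fun m hm => ?_
    rw [← card_pi, ← filter_pi B (fun i => P i n ∩ P i m) (fun i => inter_subset_left.trans (hP n hn i)),
      Finset.card_filter]
    push_cast
    refine Finset.sum_congr rfl fun b _ => ?_
    by_cases hb : ∀ i, b i ∈ P i n
    · by_cases hb2 : ∀ i, b i ∈ P i m
      · rw [if_pos hb, if_pos hb2, if_pos (fun i => mem_inter.2 ⟨hb i, hb2 i⟩), mul_one]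
      · rw [if_neg hb2, if_neg (fun h : ∀ i, b i ∈ P i n ∩ P i m => hb2 fun i => (mem_inter.1 (h i)).2), mul_zero]
    · rw [if_neg hb, if_neg (fun h : ∀ i, b i ∈ P i n ∩ P i m => hb fun i => (mem_inter.1 (h i)).1), zero_mul]
  have hN0 : ∀ b, 0 ≤ N b := fun b => by rw [hN]; positivity
  have hNG : ∀ b, ¬ G b → N b = 0 := by
    intro b hb
    rw [hN]
    simp only
    rw [Nat.cast_eq_zero, card_eq_zero, filter_eq_empty_iff]
    intro n hn h
    exact hb (hG n hn b h)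
  obtain ⟨V, hV⟩ : ∃ V, V = (Fintype.piFinset B).filter (fun b => G b ∧ X1 / (2 * T) ≤ N b) := ⟨_, rfl⟩
  have hsmall : ∑ b ∈ (Fintype.piFinset B).filter (fun b => ¬ (G b ∧ X1 / (2 * T) ≤ N b)), N b ≤ X1 / 2 := by
    have hq : 0 ≤ X1 / (2 * T) := by positivity
    calc ∑ b ∈ (Fintype.piFinset B).filter (fun b => ¬ (G b ∧ X1 / (2 * T) ≤ N b)), N b
        ≤ ∑ b ∈ (Fintype.piFinset B).filter (fun b => ¬ (G b ∧ X1 / (2 * T) ≤ N b)),
            (if G b then X1 / (2 * T) else 0) := by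
          refine Finset.sum_le_sum fun b hb => ?_
          split_ifs with h
          · have := (mem_filter.1 hb).2
            exact (not_le.1 (fun h3 => this ⟨h, h3⟩)).le
          · rw [hNG b h]
      _ ≤ ∑ b ∈ Fintype.piFinset B, (if G b then X1 / (2 * T) else 0) := by
          refine Finset.sum_le_sum_of_subset_of_nonneg (filter_subset _ _) fun b _ _ => ?_
          split_ifs
          · exact hq
          · exact le_rfl
      _ = (((Fintype.piFinset B).filter G).card : ℝ) * (X1 / (2 * T)) := by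
          rw [← Finset.sum_filter, Finset.sum_const, nsmul_eq_mul]
      _ ≤ T * (X1 / (2 * T)) := mul_le_mul_of_nonneg_right hT hq
      _ = X1 / 2 := by field_simp
  have hVsum : X1 / 2 ≤ ∑ b ∈ V, N b := by
    have h3 := Finset.sum_filter_add_sum_filter_not (Fintype.piFinset B) (fun b => G b ∧ X1 / (2 * T) ≤ N b) N
    rw [hfirst] at h3
    rw [hV]
    linarith
  have hCS : (∑ b ∈ V, N b) ^ 2 ≤ (V.card : ℝ) * ∑ b ∈ V, N b ^ 2 := sq_sum_le_card_mul_sum_sq
  have hV2 : ∑ b ∈ V, N b ^ 2 ≤ X2 := by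
    refine le_trans ?_ (hsecond.le.trans h2)
    rw [hV]
    exact Finset.sum_le_sum_of_subset_of_nonneg (filter_subset _ _) (fun b _ _ => sq_nonneg _)
  have hfin : X1 ^ 2 ≤ 4 * X2 * (V.card : ℝ) := by
    have h4 : (X1 / 2) ^ 2 ≤ (∑ b ∈ V, N b) ^ 2 := pow_le_pow_left₀ (by positivity) hVsum 2
    have h5 : (V.card : ℝ) * ∑ b ∈ V, N b ^ 2 ≤ V.card * X2 := mul_le_mul_of_nonneg_left hV2 (by positivity)
    nlinarith
  rw [hV, hN] at hfin
  exact hfin

end Pool.Agent.Q160.GK
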