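import Mathlib
import Pool.Agent.H373R2.T7.Fund
import Pool.Agent.W66.RB
import Pool.Agent.TH888.R.VV

set_option autoImplicit false

/-!
# Products over primes
-/

namespace Pool.Agent.Q160.GK

open Finset Filter
open Pool.Agent.H373R2.T7
open Pool.Agent.H305R2 (VV VV_tendsto)
open Pool.Agent.TH888.R (VV_pos)

/-- product over the prime factors of `m` larger than `k` -/
noncomputable def gg (k m : ℕ) : ℝ := ∏ p ∈ m.primeFactors.filter (fun p => k < p), (1 - (p : ℝ)⁻¹)⁻¹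

lemma fac_pos {p : ℕ} (hp : 2 ≤ p) : 0 < 1 - (p : ℝ)⁻¹ := by
  have h2 : (2 : ℝ) ≤ p := by exact_mod_cast hp
  have h3 : (p : ℝ)⁻¹ ≤ 1 / 2 := by
    rw [inv_eq_one_div]
    exact one_div_le_one_div_of_le (by norm_num) h2
  linarith

lemma one_le_fac {p : ℕ} (hp : 2 ≤ p) : 1 ≤ (1 - (p : ℝ)⁻¹)⁻¹ := by
  rw [one_le_inv₀ (fac_pos hp)]
  have : (0 : ℝ) ≤ (p : ℝ)⁻¹ := by positivity
  linarith

lemma fac_le_two {p : ℕ} (hp : 2 ≤ p) : (1 - (p : ℝ)⁻¹)⁻¹ ≤ 2 := by
  rw [inv_le_comm₀ (fac_pos hp) (by norm_num)]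
  have h2 : (2 : ℝ) ≤ p := by exact_mod_cast hp
  have h3 : (p : ℝ)⁻¹ ≤ 1 / 2 := by
    rw [inv_eq_one_div]
    exact one_div_le_one_div_of_le (by norm_num) h2
  linarith

lemma prod_le_prod_sub {s t : Finset ℕ} (h : s ⊆ t) (ht : ∀ p ∈ t, 2 ≤ p) :
    ∏ p ∈ s, (1 - (p : ℝ)⁻¹)⁻¹ ≤ ∏ p ∈ t, (1 - (p : ℝ)⁻¹)⁻¹ :=
  Finset.prod_le_prod_of_subset_of_one_le h (fun p hp => zero_le_one.trans (one_le_fac (ht p (h hp))))
    (fun p hp _ => one_le_fac (ht p hp))

lemma one_le_prod {s : Finset ℕ} (hs : ∀ p ∈ s, 2 ≤ p) : 1 ≤ ∏ p ∈ s, (1 - (p : ℝ)⁻¹)⁻¹ := by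
  have := prod_le_prod_sub (empty_subset s) hs
  simpa using this

lemma pf_two {m p : ℕ} (h : p ∈ m.primeFactors) : 2 ≤ p := (Nat.prime_of_mem_primeFactors h).two_le

lemma one_le_gg (k m : ℕ) : 1 ≤ gg k m :=
  one_le_prod fun _ hp => pf_two (mem_filter.1 hp).1

lemma VV_def (k : ℕ) : VV k = ∏ p ∈ pz k, (1 - (p : ℝ)⁻¹)⁻¹ := rfl

lemma VV_mono {a b : ℕ} (h : a ≤ b) : VV a ≤ VV b := by
  rw [VV_def, VV_def]
  refine prod_le_prod_sub ?_ fun p hp => (mem_pz.1 hp).2.two_le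
  intro p hp
  rw [mem_pz] at hp ⊢
  exact ⟨hp.1.trans h, hp.2⟩

lemma one_le_VV (a : ℕ) : 1 ≤ VV a := one_le_prod fun _ hp => (mem_pz.1 hp).2.two_le

lemma gg_mul_le {k a m : ℕ} (ha : 0 < a) (hm : 0 < m) : gg 0 (a * m) ≤ VV k * gg k a * gg k m := by
  unfold gg
  have h1 : (a * m).primeFactors.filter (fun p => 0 < p) ⊆
      pz k ∪ (a.primeFactors.filter (fun p => k < p) ∪ m.primeFactors.filter (fun p => k < p)) := by
    intro p hp
    rw [mem_filter, Nat.primeFactors_mul ha.ne' hm.ne', mem_union] at hp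
    rw [mem_union, mem_union, mem_filter, mem_filter, mem_pz]
    rcases Nat.lt_or_ge k p with h | h
    · rcases hp.1 with h2 | h2
      · exact Or.inr (Or.inl ⟨h2, h⟩)
      · exact Or.inr (Or.inr ⟨h2, h⟩)
    · left
      rcases hp.1 with h2 | h2
      · exact ⟨h, Nat.prime_of_mem_primeFactors h2⟩
      · exact ⟨h, Nat.prime_of_mem_primeFactors h2⟩
  have htwo : ∀ p ∈ pz k ∪ (a.primeFactors.filter (fun p => k < p) ∪ m.primeFactors.filter (fun p => k < p)), 2 ≤ p := by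
    intro p hp
    rw [mem_union, mem_union, mem_filter, mem_filter, mem_pz] at hp
    rcases hp with h | h | h
    · exact h.2.two_le
    · exact pf_two h.1
    · exact pf_two h.1
  have key : ∀ s t : Finset ℕ, (∀ p ∈ s ∪ t, 2 ≤ p) → ∏ p ∈ s ∪ t, (1 - (p : ℝ)⁻¹)⁻¹ ≤
      (∏ p ∈ s, (1 - (p : ℝ)⁻¹)⁻¹) * ∏ p ∈ t, (1 - (p : ℝ)⁻¹)⁻¹ := by
    intro s t hst
    rw [← Finset.prod_union_inter]
    have h2 : 1 ≤ ∏ p ∈ s ∩ t, (1 - (p : ℝ)⁻¹)⁻¹ :=
      one_le_prod fun p hp => hst p (mem_union_left _ (mem_inter.1 hp).1)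
    have h3 : 1 ≤ ∏ p ∈ s ∪ t, (1 - (p : ℝ)⁻¹)⁻¹ := one_le_prod hst
    nlinarith
  calc ∏ p ∈ (a * m).primeFactors.filter (fun p => 0 < p), (1 - (p : ℝ)⁻¹)⁻¹
      ≤ ∏ p ∈ pz k ∪ (a.primeFactors.filter (fun p => k < p) ∪ m.primeFactors.filter (fun p => k < p)),
        (1 - (p : ℝ)⁻¹)⁻¹ := prod_le_prod_sub h1 htwo
    _ ≤ (∏ p ∈ pz k, (1 - (p : ℝ)⁻¹)⁻¹) *
        ∏ p ∈ a.primeFactors.filter (fun p => k < p) ∪ m.primeFactors.filter (fun p => k < p), (1 - (p : ℝ)⁻¹)⁻¹ :=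
        key _ _ htwo
    _ ≤ (∏ p ∈ pz k, (1 - (p : ℝ)⁻¹)⁻¹) * ((∏ p ∈ a.primeFactors.filter (fun p => k < p), (1 - (p : ℝ)⁻¹)⁻¹) *
        ∏ p ∈ m.primeFactors.filter (fun p => k < p), (1 - (p : ℝ)⁻¹)⁻¹) := by
        refine mul_le_mul_of_nonneg_left (key _ _ fun p hp => htwo p (mem_union_right _ hp)) ?_
        exact zero_le_one.trans (one_le_prod fun p hp => (mem_pz.1 hp).2.two_le)
    _ = _ := by rw [VV_def]; ring

lemma log_two_add (k : ℕ) : 0 < Real.log ((k : ℝ) + 2) := Real.log_pos (by have : (0 : ℝ) ≤ k := Nat.cast_nonneg k; linarith)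

theorem VV_bounds : ∃ c C : ℝ, 0 < c ∧ 0 < C ∧ ∀ k : ℕ, c * Real.log (k + 2) ≤ VV k ∧ VV k ≤ C * Real.log (k + 2) := by
  obtain ⟨E, hE⟩ : ∃ E : ℝ, E = Real.exp Real.eulerMascheroniConstant := ⟨_, rfl⟩
  have hE0 : 0 < E := by rw [hE]; exact Real.exp_pos _
  have hT := VV_tendsto
  rw [← hE] at hT
  have h1 := hT.eventually_lt_const (show E < 2 * E by linarith)
  have h2 := hT.eventually_const_lt (show E / 2 < E by linarith)
  obtain ⟨N, hN⟩ := eventually_atTop.1 (h1.and (h2.and (eventually_ge_atTop 4)))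
  have hlogN : 0 < Real.log ((N : ℝ) + 2) := log_two_add N
  have hlog2 : 0 < Real.log 2 := Real.log_pos (by norm_num)
  refine ⟨min (E / 4) (1 / Real.log (N + 2)), max (2 * E) (VV N / Real.log 2), by positivity, by positivity, fun k => ?_⟩
  have hlk := log_two_add k
  rcases Nat.lt_or_ge k N with h | h
  · have hkN : Real.log ((k : ℝ) + 2) ≤ Real.log ((N : ℝ) + 2) :=
      Real.log_le_log (by positivity) (by have : (k : ℝ) ≤ N := by exact_mod_cast h.le
                                          linarith)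
    have hk2 : Real.log 2 ≤ Real.log ((k : ℝ) + 2) :=
      Real.log_le_log (by norm_num) (by have : (0 : ℝ) ≤ k := Nat.cast_nonneg k
                                        linarith)
    constructor
    · calc min (E / 4) (1 / Real.log (N + 2)) * Real.log (k + 2) ≤ 1 / Real.log (N + 2) * Real.log (k + 2) :=
            mul_le_mul_of_nonneg_right (min_le_right _ _) hlk.le
        _ ≤ 1 := by
            rw [one_div, inv_mul_le_iff₀ hlogN]
            linarith
        _ ≤ VV k := one_le_VV k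
    · calc VV k ≤ VV N := VV_mono h.le
        _ = VV N / Real.log 2 * Real.log 2 := by field_simp
        _ ≤ max (2 * E) (VV N / Real.log 2) * Real.log (k + 2) :=
            mul_le_mul (le_max_right _ _) hk2 hlog2.le (by positivity)
  · obtain ⟨h3, h4, h5⟩ := hN k h
    have hk4 : (4 : ℝ) ≤ k := by exact_mod_cast h5
    have hlk' : 0 < Real.log k := Real.log_pos (by linarith)
    rw [div_lt_iff₀ hlk'] at h3
    rw [lt_div_iff₀ hlk'] at h4
    have h6 : Real.log k ≤ Real.log ((k : ℝ) + 2) := Real.log_le_log (by linarith) (by linarith)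
    have h7 : Real.log ((k : ℝ) + 2) ≤ 2 * Real.log k := by
      rw [← Real.log_rpow (by linarith)]
      refine Real.log_le_log (by linarith) ?_
      rw [Real.rpow_two]
      nlinarith
    constructor
    · calc min (E / 4) (1 / Real.log (N + 2)) * Real.log (k + 2) ≤ E / 4 * (2 * Real.log k) :=
            mul_le_mul (min_le_left _ _) h7 hlk.le (by positivity)
        _ ≤ VV k := by linarith
    · calc VV k ≤ 2 * E * Real.log k := h3.le
        _ ≤ max (2 * E) (VV N / Real.log 2) * Real.log (k + 2) :=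
            mul_le_mul (le_max_left _ _) h6 hlk'.le (by positivity)

/-- `(1 - 1/p)^(-k) ≤ 1 + 6k/p` for `p > k` -/
lemma fac_pow {k p : ℕ} (hp : 2 ≤ p) (hk : k < p) : ((1 - (p : ℝ)⁻¹)⁻¹) ^ k ≤ 1 + 6 * k / p := by
  have h2 : (2 : ℝ) ≤ p := by exact_mod_cast hp
  have hp1 : 0 < (p : ℝ) - 1 := by linarith
  have hk' : (k : ℝ) ≤ p - 1 := by
    have : k + 1 ≤ p := hk
    have : ((k + 1 : ℕ) : ℝ) ≤ p := by exact_mod_cast this
    push_cast at this
    linarith
  have h3 : (1 - (p : ℝ)⁻¹)⁻¹ = 1 + 1 / ((p : ℝ) - 1) := by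
    field_simp
    ring
  have h4 : (1 - (p : ℝ)⁻¹)⁻¹ ≤ Real.exp (1 / ((p : ℝ) - 1)) := by
    rw [h3]
    have := Real.add_one_le_exp (1 / ((p : ℝ) - 1))
    linarith
  have h5 : ((1 - (p : ℝ)⁻¹)⁻¹) ^ k ≤ Real.exp (k / ((p : ℝ) - 1)) := by
    calc ((1 - (p : ℝ)⁻¹)⁻¹) ^ k ≤ (Real.exp (1 / ((p : ℝ) - 1))) ^ k :=
          pow_le_pow_left₀ (zero_le_one.trans (one_le_fac hp)) h4 k
      _ = Real.exp (k / ((p : ℝ) - 1)) := by
          rw [← Real.exp_nat_mul]
          congr 1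
          ring
  refine h5.trans ?_
  obtain ⟨z, hz⟩ : ∃ z : ℝ, z = k / ((p : ℝ) - 1) := ⟨_, rfl⟩
  have hz0 : 0 ≤ z := by rw [hz]; positivity
  have hz1 : z ≤ 1 := by rw [hz, div_le_one hp1]; exact hk'
  rw [← hz]
  have h6 : Real.exp z ≤ 1 + 2 * z := by
    have := Real.abs_exp_sub_one_sub_id_le (x := z) (by rw [abs_of_nonneg hz0]; exact hz1)
    have h7 := (abs_le.1 this).2
    nlinarith
  have h8 : z ≤ 2 * k / p := by
    rw [hz, div_le_div_iff₀ hp1 (by linarith)]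
    have hk0 : (0 : ℝ) ≤ k := Nat.cast_nonneg k
    nlinarith
  have h9 : (0 : ℝ) ≤ 2 * k / p := by positivity
  calc Real.exp z ≤ 1 + 2 * z := h6
    _ ≤ 1 + 3 * (2 * k / p) := by linarith
    _ = 1 + 6 * k / p := by ring

lemma sum_inv_sq_tail {k M : ℕ} (hk : 1 ≤ k) : ∑ n ∈ Ioc k M, 1 / (n : ℝ) ^ 2 ≤ 1 / (k : ℝ) := by
  have hk0 : (1 : ℝ) ≤ k := by exact_mod_cast hk
  rcases Nat.lt_or_ge M k with h | h
  · rw [Ioc_eq_empty (by omega)]
    simp only [sum_empty]
    positivity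
  have key : ∀ M : ℕ, k ≤ M → ∑ n ∈ Ioc k M, 1 / (n : ℝ) ^ 2 ≤ 1 / (k : ℝ) - 1 / (M : ℝ) := by
    intro M hM
    induction M, hM using Nat.le_induction with
    | base => simp
    | succ M hM ih =>
      rw [← Finset.insert_Ioc_right_eq_Ioc_add_one (by omega), Finset.sum_insert (by simp)]
      have hM1 : (1 : ℝ) ≤ M := by exact_mod_cast (hk.trans hM)
      have h3 : 1 / ((M + 1 : ℕ) : ℝ) ^ 2 ≤ 1 / (M : ℝ) - 1 / ((M + 1 : ℕ) : ℝ) := by
        push_cast
        rw [div_sub_div _ _ (by positivity) (by positivity), div_le_div_iff₀ (by positivity) (by positivity)]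
        nlinarith
      linarith
  have h1 := key M h
  have : (0 : ℝ) ≤ 1 / (M : ℝ) := by positivity
  linarith

/-- **Moments of `gg`.** -/
theorem sum_gg {k : ℕ} (hk : 1 ≤ k) (M : ℕ) : ∑ m ∈ Icc 1 M, gg k m ^ k ≤ Real.exp 6 * M := by
  classical
  obtain ⟨c, hc⟩ : ∃ c : ℝ, c = 6 * k := ⟨_, rfl⟩
  have hc0 : 0 ≤ c := by rw [hc]; positivity
  obtain ⟨S, hS⟩ : ∃ S, S = (Ioc k M).filter Nat.Prime := ⟨_, rfl⟩
  have h1 : ∀ m ∈ Icc 1 M, gg k m ^ k ≤ ∑ t ∈ S.powerset, (∏ p ∈ t, (c / p)) * (if (∏ p ∈ t, p) ∣ m then 1 else 0) := by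
    intro m hm
    rw [mem_Icc] at hm
    unfold gg
    rw [← Finset.prod_pow]
    calc ∏ p ∈ m.primeFactors.filter (fun p => k < p), ((1 - (p : ℝ)⁻¹)⁻¹) ^ k
        ≤ ∏ p ∈ m.primeFactors.filter (fun p => k < p), (1 + c / p) := by
          refine Finset.prod_le_prod (fun p hp => pow_nonneg (zero_le_one.trans (one_le_fac (pf_two (mem_filter.1 hp).1))) _) ?_
          intro p hp
          rw [mem_filter] at hp
          rw [hc]
          exact fac_pow (pf_two hp.1) hp.2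
      _ = ∑ t ∈ (m.primeFactors.filter (fun p => k < p)).powerset, ∏ p ∈ t, (c / p) := Finset.prod_one_add _
      _ = ∑ t ∈ (m.primeFactors.filter (fun p => k < p)).powerset, (∏ p ∈ t, (c / p)) *
            (if (∏ p ∈ t, p) ∣ m then 1 else 0) := by
          refine Finset.sum_congr rfl fun t ht => ?_
          rw [mem_powerset] at ht
          have h3 : (∏ p ∈ t, p) ∣ m := by
            refine Finset.prod_primes_dvd m (fun p hp => ?_) (fun p hp => ?_)
            · exact (Nat.prime_of_mem_primeFactors (mem_filter.1 (ht hp)).1).prime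
            · exact Nat.dvd_of_mem_primeFactors (mem_filter.1 (ht hp)).1
          rw [if_pos h3, mul_one]
      _ ≤ ∑ t ∈ S.powerset, (∏ p ∈ t, (c / p)) * (if (∏ p ∈ t, p) ∣ m then 1 else 0) := by
          refine Finset.sum_le_sum_of_subset_of_nonneg ?_ ?_
          · refine Finset.powerset_mono.2 fun p hp => ?_
            rw [mem_filter] at hp
            rw [hS, mem_filter, mem_Ioc]
            have h4 := Nat.le_of_dvd (by omega) (Nat.dvd_of_mem_primeFactors hp.1)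
            exact ⟨⟨hp.2, by omega⟩, Nat.prime_of_mem_primeFactors hp.1⟩
          · intro t _ _
            split_ifs <;> positivity
  calc ∑ m ∈ Icc 1 M, gg k m ^ k
      ≤ ∑ m ∈ Icc 1 M, ∑ t ∈ S.powerset, (∏ p ∈ t, (c / p)) * (if (∏ p ∈ t, p) ∣ m then 1 else 0) :=
        Finset.sum_le_sum h1
    _ = ∑ t ∈ S.powerset, (∏ p ∈ t, (c / p)) * (((Icc 1 M).filter (fun m => (∏ p ∈ t, p) ∣ m)).card : ℝ) := by
        rw [Finset.sum_comm]
        refine Finset.sum_congr rfl fun t _ => ?_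
        rw [← Finset.mul_sum, Finset.sum_ite, Finset.sum_const_zero, add_zero, Finset.sum_const, nsmul_eq_mul, mul_one]
    _ ≤ ∑ t ∈ S.powerset, (∏ p ∈ t, (c / p)) * (M * ∏ p ∈ t, (1 / (p : ℝ))) := by
        refine Finset.sum_le_sum fun t ht => ?_
        refine mul_le_mul_of_nonneg_left ?_ (by positivity)
        rw [mem_powerset] at ht
        have hpos : 0 < ∏ p ∈ t, p := Finset.prod_pos fun p hp => by
          have := ht hp
          rw [hS, mem_filter] at this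
          exact this.2.pos
        have h3 : ((Icc 1 M).filter (fun m => (∏ p ∈ t, p) ∣ m)).card = M / (∏ p ∈ t, p) := by
          have h4 : (Icc 1 M) = Ioc 0 M := by
            ext x
            rw [mem_Icc, mem_Ioc]
            omega
          rw [h4, Nat.Ioc_filter_dvd_card_eq_div]
        rw [h3]
        refine Nat.cast_div_le.trans ?_
        rw [Finset.prod_div_distrib, Finset.prod_const_one, Nat.cast_prod, mul_one_div]
    _ = M * ∑ t ∈ S.powerset, ∏ p ∈ t, (c / (p : ℝ) ^ 2) := by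
        rw [Finset.mul_sum]
        refine Finset.sum_congr rfl fun t _ => ?_
        have : ∏ p ∈ t, (c / (p : ℝ) ^ 2) = (∏ p ∈ t, (c / (p : ℝ))) * ∏ p ∈ t, (1 / (p : ℝ)) := by
          rw [← Finset.prod_mul_distrib]
          refine Finset.prod_congr rfl fun p _ => ?_
          rw [div_mul_div_comm, mul_one, sq]
        rw [this]
        ring
    _ = M * ∏ p ∈ S, (1 + c / (p : ℝ) ^ 2) := by rw [← Finset.prod_one_add]
    _ ≤ M * Real.exp 6 := by
        refine mul_le_mul_of_nonneg_left ?_ (Nat.cast_nonneg _)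
        calc ∏ p ∈ S, (1 + c / (p : ℝ) ^ 2) ≤ ∏ p ∈ S, Real.exp (c * (1 / (p : ℝ) ^ 2)) := by
              refine Finset.prod_le_prod (fun p _ => by positivity) fun p _ => ?_
              have := Real.add_one_le_exp (c * (1 / (p : ℝ) ^ 2))
              rw [mul_one_div] at this ⊢
              linarith
          _ = Real.exp (∑ p ∈ S, c * (1 / (p : ℝ) ^ 2)) := by rw [Real.exp_sum]
          _ ≤ Real.exp 6 := by
              refine Real.exp_le_exp.2 ?_
              rw [← Finset.mul_sum]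
              have h3 : ∑ p ∈ S, 1 / (p : ℝ) ^ 2 ≤ 1 / (k : ℝ) := by
                refine le_trans (Finset.sum_le_sum_of_subset_of_nonneg ?_ (fun p _ _ => by positivity)) (sum_inv_sq_tail hk (M := M))
                rw [hS]
                exact filter_subset _ _
              have hk0 : (0 : ℝ) < k := by exact_mod_cast hk
              calc c * ∑ p ∈ S, 1 / (p : ℝ) ^ 2 ≤ c * (1 / (k : ℝ)) := mul_le_mul_of_nonneg_left h3 hc0
                _ = 6 := by rw [hc]; field_simp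
    _ = Real.exp 6 * M := mul_comm _ _

end Pool.Agent.Q160.GK
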