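import Mathlib
import Pool.Agent.Q160.GK2

set_option autoImplicit false

/-!
# Sieve bounds for pairs and for one class
-/

namespace Pool.Agent.Q160.GK

open Finset Filter
open Pool.Agent.H373R2.T7
open Pool.Agent.H305R2 (VV VV_tendsto)

open Classical in
/-- sieve upper bound -/
theorem sieve_up (c : ℕ) (hc : 1 ≤ c) : ∃ K x0 : ℕ, 1 ≤ K ∧ ∀ h y : ℕ, x0 ≤ y → y ^ (2 * K) ≤ h →
    ∀ Q : ℕ → ℕ → Prop, PerB Q c →
    ((((Icc 1 h).filter (fun n : ℕ => ∀ p ∈ pz y, ¬ Q p n)).card : ℕ) : ℝ) ≤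
      2 * (h * ∏ p ∈ pz y, (1 - (nuB Q p : ℝ) / p)) + (h : ℝ) ^ (1 / 4 : ℝ) := by
  obtain ⟨K, x0, hK, hfund⟩ := sys_fund c hc 1 (by norm_num)
  refine ⟨K, x0, hK, fun h y hy hyh Q hQ => ?_⟩
  have hyx : y ^ K ≤ Nat.sqrt h := by
    rw [Nat.le_sqrt, ← pow_add, ← two_mul]
    exact hyh
  have h1 := (abs_le.1 (hfund (Nat.sqrt h) y hy hyx Q hQ h)).2
  have h2 : √((Nat.sqrt h : ℕ) : ℝ) ≤ (h : ℝ) ^ (1 / 4 : ℝ) := by
    rw [Real.sqrt_le_left (by positivity), sq, ← Real.rpow_add_of_nonneg (by positivity) (by norm_num) (by norm_num)]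
    have h3 : ((Nat.sqrt h : ℕ) : ℝ) ≤ Real.sqrt h := Real.nat_sqrt_le_real_sqrt
    rw [Real.sqrt_eq_rpow] at h3
    norm_num
    exact h3
  linarith

lemma cls_exists {p : ℕ} (hp : 0 < p) (s : ℕ) : ∃ r < p, ∀ x < p, p ∣ s + x ↔ x = r := by
  have ht : s % p < p := Nat.mod_lt _ hp
  have hdv : ∀ x, p ∣ s + x ↔ p ∣ s % p + x := by
    intro x
    rw [Nat.dvd_iff_mod_eq_zero, Nat.dvd_iff_mod_eq_zero, Nat.mod_add_mod]
  have h2 : ∀ x < p, p ∣ s % p + x ↔ (s % p + x = 0 ∨ s % p + x = p) := by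
    intro x hx
    constructor
    · rintro ⟨c, hc⟩
      have hc2 : c < 2 := by
        by_contra hcon
        push Not at hcon
        have : p * 2 ≤ p * c := Nat.mul_le_mul_left _ hcon
        omega
      interval_cases c
      · left; omega
      · right; omega
    · rintro (h | h)
      · rw [h]; exact dvd_zero _
      · rw [h]
  rcases Nat.eq_zero_or_pos (s % p) with h0 | h0
  · refine ⟨0, hp, fun x hx => ?_⟩
    rw [hdv, h2 x hx, h0]
    omega
  · refine ⟨p - s % p, by omega, fun x hx => ?_⟩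
    rw [hdv, h2 x hx]
    omega

lemma dvd_mod_iff (p s n : ℕ) : p ∣ s + n ↔ p ∣ s + n % p := by
  rw [Nat.dvd_iff_mod_eq_zero, Nat.dvd_iff_mod_eq_zero, Nat.add_mod_mod]

open Classical in
lemma pair_nu {p : ℕ} (hp : p.Prime) (s m : ℕ) : nuB (fun p n => p ∣ s + n ∨ p ∣ s + m + n) p ≤ 2 ∧
    1 ≤ nuB (fun p n => p ∣ s + n ∨ p ∣ s + m + n) p ∧
    (¬ p ∣ m → nuB (fun p n => p ∣ s + n ∨ p ∣ s + m + n) p = 2) := by
  obtain ⟨r1, hr1, h1⟩ := cls_exists hp.pos s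
  obtain ⟨r2, hr2, h2⟩ := cls_exists hp.pos (s + m)
  have hset : (range p).filter (fun r => p ∣ s + r ∨ p ∣ s + m + r) = {r1, r2} := by
    ext x
    rw [mem_filter, mem_range, mem_insert, mem_singleton]
    constructor
    · rintro ⟨hx, h | h⟩
      · exact Or.inl ((h1 x hx).1 h)
      · exact Or.inr ((h2 x hx).1 h)
    · rintro (rfl | rfl)
      · exact ⟨hr1, Or.inl ((h1 x hr1).2 rfl)⟩
      · exact ⟨hr2, Or.inr ((h2 x hr2).2 rfl)⟩
  have hnu : nuB (fun p n => p ∣ s + n ∨ p ∣ s + m + n) p = ({r1, r2} : Finset ℕ).card := by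
    rw [← hset]
    unfold nuB
    refine congrArg Finset.card ?_
    ext x
    simp only [mem_filter]
  rw [hnu]
  refine ⟨card_le_two, card_pos.2 ⟨r1, mem_insert_self _ _⟩, fun hm => ?_⟩
  apply card_pair
  rintro rfl
  apply hm
  have h3 := (h1 r1 hr1).2 rfl
  have h4 := (h2 r1 hr2).2 rfl
  have h5 : s + m + r1 = m + (s + r1) := by ring
  rw [h5] at h4
  exact (Nat.dvd_add_left h3).1 h4

/-- the level of the sieve -/
lemma level (K x0 : ℕ) (hK : 1 ≤ K) : ∃ h0 : ℕ, ∀ h : ℕ, h0 ≤ h → ∃ y : ℕ, x0 ≤ y ∧ 4 ≤ y ∧ y ^ (2 * K) ≤ h ∧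
    h < (y + 1) ^ (2 * K) ∧ (y : ℝ) ≤ (h : ℝ) ^ (1 / 2 : ℝ) ∧ 0 < Real.log h ∧ Real.log h ≤ 4 * K * Real.log y := by
  have hKr : (1 : ℝ) ≤ K := by exact_mod_cast hK
  have hypow : Tendsto (fun N : ℕ => (N : ℝ) ^ (1 / (2 * K : ℝ))) atTop atTop :=
    (tendsto_rpow_atTop (by positivity)).comp tendsto_natCast_atTop_atTop
  have hyb := hypow.eventually_ge_atTop ((x0 + 4 : ℕ) : ℝ)
  obtain ⟨N₀, hN₀⟩ := eventually_atTop.1 (hyb.and (eventually_ge_atTop 16))
  refine ⟨N₀, fun h hh => ?_⟩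
  obtain ⟨hyN, hN16⟩ := hN₀ h hh
  have hNr : (16 : ℝ) ≤ h := by exact_mod_cast hN16
  obtain ⟨y, hy⟩ : ∃ y, y = ⌊(h : ℝ) ^ (1 / (2 * K : ℝ))⌋₊ := ⟨_, rfl⟩
  have hy1 : x0 + 4 ≤ y := by rw [hy]; exact Nat.le_floor hyN
  have hroot : ((h : ℝ) ^ (1 / (2 * K : ℝ))) ^ (2 * K) = h := by
    rw [← Real.rpow_natCast, ← Real.rpow_mul (by positivity)]
    push_cast
    rw [one_div, inv_mul_cancel₀ (by positivity), Real.rpow_one]
  have hyle' : (y : ℝ) ≤ (h : ℝ) ^ (1 / (2 * K : ℝ)) := by rw [hy]; exact Nat.floor_le (by positivity)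
  have hyle : y ^ (2 * K) ≤ h := by
    have h2 : (y : ℝ) ^ (2 * K) ≤ h := by
      rw [← hroot]
      exact pow_le_pow_left₀ (by positivity) hyle' _
    exact_mod_cast h2
  have hylt : h < (y + 1) ^ (2 * K) := by
    have h1 : (h : ℝ) ^ (1 / (2 * K : ℝ)) < (y : ℝ) + 1 := by rw [hy]; exact Nat.lt_floor_add_one _
    have h2 : (h : ℝ) < ((y : ℝ) + 1) ^ (2 * K) := by
      rw [← hroot]
      exact pow_lt_pow_left₀ h1 (by positivity) (by omega)
    exact_mod_cast h2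
  have hy4 : (4 : ℝ) ≤ y := by exact_mod_cast (by omega : 4 ≤ y)
  refine ⟨y, by omega, by omega, hyle, hylt, ?_, Real.log_pos (by linarith), ?_⟩
  · refine hyle'.trans (Real.rpow_le_rpow_of_exponent_le (by linarith) ?_)
    exact one_div_le_one_div_of_le (by norm_num) (by linarith)
  · have h1 : (h : ℝ) ≤ ((y : ℝ) ^ 2) ^ (2 * K) := by
      have h2 : ((h : ℕ) : ℝ) ≤ ((y : ℝ) + 1) ^ (2 * K) := by exact_mod_cast hylt.le
      refine h2.trans (pow_le_pow_left₀ (by positivity) (by nlinarith) _)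
    have h2 := Real.log_le_log (by linarith) h1
    rw [Real.log_pow, Real.log_pow] at h2
    push_cast at h2
    linarith

open Classical in
/-- **Pairs.** -/
theorem pair_sieve : ∃ C : ℝ, ∃ h0 : ℕ, 0 < C ∧ ∀ h u l m : ℕ, h0 ≤ h → 0 < m →
    ((((Ioc l (l + h)).filter (fun b => (u + b).Prime ∧ (u + m + b).Prime)).card : ℕ) : ℝ) ≤
      C * (h / Real.log h ^ 2) * gg 0 m := by
  obtain ⟨K, x0, hK, hsieve⟩ := sieve_up 2 (by norm_num)
  obtain ⟨h1, hlevel⟩ := level K x0 hK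
  obtain ⟨c, C1, hc, hC1, hVV⟩ := VV_bounds
  have hKr : (1 : ℝ) ≤ K := by exact_mod_cast hK
  obtain ⟨h2, hsmall⟩ : ∃ h2 : ℕ, ∀ h : ℕ, h2 ≤ h → Real.log h ^ 2 * (4 * (h : ℝ) ^ (1 / 2 : ℝ)) ≤ h := by
    have h3 : (fun x : ℝ => Real.log x ^ 2) =o[atTop] (fun x : ℝ => x ^ (1 / 2 : ℝ)) := by
      have := isLittleO_log_rpow_rpow_atTop ((2 : ℕ) : ℝ) (show (0 : ℝ) < 1 / 2 by norm_num)
      simpa [Real.rpow_natCast] using this
    have h4 := (tendsto_natCast_atTop_atTop.eventually (h3.bound (show (0 : ℝ) < 1 / 4 by norm_num))).and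
      (eventually_ge_atTop 1)
    obtain ⟨h2, hh2⟩ := eventually_atTop.1 h4
    refine ⟨h2, fun h hh => ?_⟩
    obtain ⟨h5, h6⟩ := hh2 h hh
    rw [Real.norm_eq_abs, Real.norm_eq_abs, abs_of_nonneg (by positivity), abs_of_nonneg (by positivity)] at h5
    have h7 : (h : ℝ) ^ (1 / 2 : ℝ) * (h : ℝ) ^ (1 / 2 : ℝ) = h := by
      rw [← Real.rpow_add (by exact_mod_cast h6)]
      norm_num
    have h8 : 0 ≤ (h : ℝ) ^ (1 / 2 : ℝ) := by positivity
    nlinarith
  refine ⟨2 * (4 * K / c) ^ 2 + 1, max h1 h2, by positivity, fun h u l m hh hm => ?_⟩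
  obtain ⟨y, hxy, hy4, hyK, -, hysq, hL0, hLy⟩ := hlevel h (le_trans (le_max_left _ _) hh)
  have hsm := hsmall h (le_trans (le_max_right _ _) hh)
  obtain ⟨Q, hQ⟩ : ∃ Q : ℕ → ℕ → Prop, Q = fun p n => p ∣ (u + l) + n ∨ p ∣ (u + l) + m + n := ⟨_, rfl⟩
  have hper : PerB Q 2 := by
    refine ⟨fun p n => ?_, fun p hp => ?_⟩
    · rw [hQ]
      simp only
      rw [dvd_mod_iff p (u + l) n, dvd_mod_iff p (u + l + m) n]
    · rw [hQ]
      exact (pair_nu hp (u + l) m).1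
  have hsv := hsieve h y hxy hyK Q hper
  have hy0 : (0 : ℝ) < y := by exact_mod_cast (by omega : 0 < y)
  -- transfer
  have htr : (((Ioc l (l + h)).filter (fun b => (u + b).Prime ∧ (u + m + b).Prime)).card : ℝ) ≤
      (((Icc 1 h).filter (fun n : ℕ => ∀ p ∈ pz y, ¬ Q p n)).card : ℝ) + 2 * y := by
    have h3 : (Ioc l (l + h)).filter (fun b => (u + b).Prime ∧ (u + m + b).Prime) ⊆
        ((Icc 1 h).filter (fun n : ℕ => ∀ p ∈ pz y, ¬ Q p n)).image (fun n => l + n) ∪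
        ((Icc 1 y).image (fun b => b - u) ∪ (Icc 1 y).image (fun b => b - (u + m))) := by
      intro b hb
      rw [mem_filter, mem_Ioc] at hb
      rw [mem_union, mem_union, mem_image, mem_image, mem_image]
      have hb1 := hb.2.1.pos
      have hb2 := hb.2.2.pos
      by_cases h5 : u + b ≤ y
      · exact Or.inr (Or.inl ⟨u + b, mem_Icc.2 (by omega), by omega⟩)
      by_cases h6 : u + m + b ≤ y
      · exact Or.inr (Or.inr ⟨u + m + b, mem_Icc.2 (by omega), by omega⟩)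
      refine Or.inl ⟨b - l, ?_, by omega⟩
      rw [mem_filter, mem_Icc]
      refine ⟨⟨by omega, by omega⟩, fun p hp => ?_⟩
      rw [mem_pz] at hp
      rw [hQ]
      simp only
      have e1 : u + l + (b - l) = u + b := by omega
      have e2 : u + l + m + (b - l) = u + m + b := by omega
      rw [e1, e2]
      rintro (h7 | h7)
      · have := (Nat.prime_dvd_prime_iff_eq hp.2 hb.2.1).1 h7
        omega
      · have := (Nat.prime_dvd_prime_iff_eq hp.2 hb.2.2).1 h7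
        omega
    have h4 := card_le_card h3
    have h5 := card_union_le (((Icc 1 h).filter (fun n : ℕ => ∀ p ∈ pz y, ¬ Q p n)).image (fun n => l + n))
      ((Icc 1 y).image (fun b => b - u) ∪ (Icc 1 y).image (fun b => b - (u + m)))
    have h6 := card_union_le ((Icc 1 y).image (fun b => b - u)) ((Icc 1 y).image (fun b => b - (u + m)))
    have h7 := card_image_le (s := (Icc 1 h).filter (fun n : ℕ => ∀ p ∈ pz y, ¬ Q p n)) (f := fun n => l + n)
    have h8 := card_image_le (s := Icc 1 y) (f := fun b => b - u)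
    have h9 := card_image_le (s := Icc 1 y) (f := fun b => b - (u + m))
    rw [Nat.card_Icc] at h8 h9
    have h10 : ((Ioc l (l + h)).filter (fun b => (u + b).Prime ∧ (u + m + b).Prime)).card ≤
      ((Icc 1 h).filter (fun n : ℕ => ∀ p ∈ pz y, ¬ Q p n)).card + 2 * y := by omega
    exact_mod_cast h10
  -- product
  have hprod : ∏ p ∈ pz y, (1 - (nuB Q p : ℝ) / p) ≤ (VV y)⁻¹ ^ 2 * gg 0 m := by
    have h3 : ∀ p ∈ pz y, 1 - (nuB Q p : ℝ) / p ≤ (((1 - (p : ℝ)⁻¹)⁻¹)⁻¹) ^ 2 * (if p ∣ m then (1 - (p : ℝ)⁻¹)⁻¹ else 1) := by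
      intro p hp
      have hp2 := (mem_pz.1 hp).2
      obtain ⟨-, h4, h5⟩ := pair_nu hp2 (u + l) m
      rw [← hQ] at h4 h5
      have hpr : (2 : ℝ) ≤ p := by exact_mod_cast hp2.two_le
      have hf := fac_pos hp2.two_le
      rw [inv_inv]
      split_ifs with hpm
      · have h6 : (1 - (p : ℝ)⁻¹) ^ 2 * (1 - (p : ℝ)⁻¹)⁻¹ = 1 - (p : ℝ)⁻¹ := by field_simp
        rw [h6]
        have h7 : (1 : ℝ) ≤ nuB Q p := by exact_mod_cast h4
        have h8 : (p : ℝ)⁻¹ ≤ (nuB Q p : ℝ) / p := by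
          rw [inv_eq_one_div]
          gcongr
        linarith
      · rw [h5 hpm, mul_one]
        have h8 : ((2 : ℕ) : ℝ) / p = 2 * (p : ℝ)⁻¹ := by push_cast; ring
        rw [h8]
        nlinarith [sq_nonneg ((p : ℝ)⁻¹)]
    have h4 : ∀ p ∈ pz y, 0 ≤ 1 - (nuB Q p : ℝ) / p := by
      intro p hp
      have hp2 := (mem_pz.1 hp).2
      have hpr : (0 : ℝ) < p := by exact_mod_cast hp2.pos
      have : (nuB Q p : ℝ) / p ≤ 1 := by
        rw [div_le_one hpr]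
        exact_mod_cast nuB_le Q p
      linarith
    refine (prod_le_prod h4 h3).trans ?_
    rw [prod_mul_distrib, prod_pow, prod_inv_distrib, ← VV_def]
    refine mul_le_mul_of_nonneg_left ?_ (by positivity)
    rw [← prod_filter]
    unfold gg
    refine prod_le_prod_sub ?_ fun p hp => pf_two (mem_filter.1 hp).1
    intro p hp
    rw [mem_filter, mem_pz] at hp
    rw [mem_filter, Nat.mem_primeFactors]
    exact ⟨⟨hp.1.2, hp.2, hm.ne'⟩, hp.1.2.pos⟩
  have hg1 := one_le_gg 0 m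
  have hhr : (0 : ℝ) ≤ h := Nat.cast_nonneg h
  have hV : Real.log h * (c / (4 * K)) ≤ VV y := by
    have h3 := (hVV y).1
    have h4 : Real.log y ≤ Real.log ((y : ℝ) + 2) := Real.log_le_log hy0 (by linarith)
    calc Real.log h * (c / (4 * K)) ≤ 4 * K * Real.log y * (c / (4 * K)) :=
          mul_le_mul_of_nonneg_right hLy (by positivity)
      _ = c * Real.log y := by field_simp
      _ ≤ c * Real.log ((y : ℝ) + 2) := mul_le_mul_of_nonneg_left h4 hc.le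
      _ ≤ VV y := h3
  have hVinv : (VV y)⁻¹ ≤ 4 * K / c * (Real.log h)⁻¹ := by
    have h3 : 4 * K / c * (Real.log h)⁻¹ = (Real.log h * (c / (4 * K)))⁻¹ := by
      rw [mul_inv, inv_div, mul_comm]
    rw [h3]
    exact inv_anti₀ (by positivity) hV
  have hV0 : 0 ≤ (VV y)⁻¹ := by
    have := one_le_VV y
    positivity
  have hV2 : (VV y)⁻¹ ^ 2 ≤ (4 * K / c) ^ 2 / Real.log h ^ 2 := by
    calc (VV y)⁻¹ ^ 2 ≤ (4 * K / c * (Real.log h)⁻¹) ^ 2 := pow_le_pow_left₀ hV0 hVinv 2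
      _ = _ := by rw [mul_pow, inv_pow, div_eq_mul_inv ((4 * K / c) ^ 2)]
  have hquart : (h : ℝ) ^ (1 / 4 : ℝ) ≤ (h : ℝ) ^ (1 / 2 : ℝ) := by
    refine Real.rpow_le_rpow_of_exponent_le ?_ (by norm_num)
    have : 1 ≤ h := by
      by_contra hcon
      have : h = 0 := by omega
      rw [this] at hL0
      simp at hL0
    exact_mod_cast this
  have herr : (h : ℝ) ^ (1 / 4 : ℝ) + 2 * y ≤ h / Real.log h ^ 2 := by
    rw [le_div_iff₀ (by positivity)]
    have h3 : (h : ℝ) ^ (1 / 4 : ℝ) + 2 * y ≤ 4 * (h : ℝ) ^ (1 / 2 : ℝ) := by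
      have : (0 : ℝ) ≤ (h : ℝ) ^ (1 / 2 : ℝ) := by positivity
      linarith
    calc ((h : ℝ) ^ (1 / 4 : ℝ) + 2 * y) * Real.log h ^ 2 ≤ (4 * (h : ℝ) ^ (1 / 2 : ℝ)) * Real.log h ^ 2 :=
          mul_le_mul_of_nonneg_right h3 (by positivity)
      _ ≤ h := by linarith
  calc (((Ioc l (l + h)).filter (fun b => (u + b).Prime ∧ (u + m + b).Prime)).card : ℝ)
      ≤ (((Icc 1 h).filter (fun n : ℕ => ∀ p ∈ pz y, ¬ Q p n)).card : ℝ) + 2 * y := htr
    _ ≤ 2 * (h * ∏ p ∈ pz y, (1 - (nuB Q p : ℝ) / p)) + (h : ℝ) ^ (1 / 4 : ℝ) + 2 * y := by linarith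
    _ ≤ 2 * (h * ((4 * K / c) ^ 2 / Real.log h ^ 2 * gg 0 m)) + h / Real.log h ^ 2 := by
        have h3 : ∏ p ∈ pz y, (1 - (nuB Q p : ℝ) / p) ≤ (4 * K / c) ^ 2 / Real.log h ^ 2 * gg 0 m :=
          hprod.trans (mul_le_mul_of_nonneg_right hV2 (by linarith))
        have h4 := mul_le_mul_of_nonneg_left h3 hhr
        linarith
    _ ≤ 2 * (h * ((4 * K / c) ^ 2 / Real.log h ^ 2 * gg 0 m)) + h / Real.log h ^ 2 * gg 0 m := by
        have h3 : h / Real.log h ^ 2 * 1 ≤ h / Real.log h ^ 2 * gg 0 m :=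
          mul_le_mul_of_nonneg_left hg1 (by positivity)
        linarith
    _ = (2 * (4 * K / c) ^ 2 + 1) * (h / Real.log h ^ 2) * gg 0 m := by ring

open Classical in
lemma one_nu {p : ℕ} (hp : p.Prime) (G : ℕ → Prop) (s : ℕ → ℕ) : nuB (fun p n => G p ∧ p ∣ s p + n) p ≤ 1 ∧
    (G p → nuB (fun p n => G p ∧ p ∣ s p + n) p = 1) := by
  obtain ⟨r1, hr1, h1⟩ := cls_exists hp.pos (s p)
  by_cases hG : G p
  · have hset : (range p).filter (fun r => G p ∧ p ∣ s p + r) = {r1} := by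
      ext x
      rw [mem_filter, mem_range, mem_singleton]
      constructor
      · rintro ⟨hx, -, h⟩
        exact (h1 x hx).1 h
      · rintro rfl
        exact ⟨hr1, hG, (h1 x hr1).2 rfl⟩
    have hnu : nuB (fun p n => G p ∧ p ∣ s p + n) p = ({r1} : Finset ℕ).card := by
      rw [← hset]
      unfold nuB
      refine congrArg Finset.card ?_
      ext x
      simp only [mem_filter]
    rw [hnu, card_singleton]
    exact ⟨le_rfl, fun _ => rfl⟩
  · refine ⟨?_, fun h => absurd h hG⟩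
    have h0 : nuB (fun p n => G p ∧ p ∣ s p + n) p = 0 := by
      unfold nuB
      rw [card_eq_zero]
      ext x
      simp only [mem_filter, notMem_empty, iff_false]
      exact fun h => hG h.2.1
    omega

lemma card_big_pf (y a : ℕ) (ha : 0 < a) : (y + 1) ^ (a.primeFactors.filter (fun p => y < p)).card ≤ a := by
  calc (y + 1) ^ (a.primeFactors.filter (fun p => y < p)).card
      ≤ ∏ p ∈ a.primeFactors.filter (fun p => y < p), p := by
        refine Finset.pow_card_le_prod _ _ _ fun p hp => ?_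
        exact (mem_filter.1 hp).2
    _ ≤ a := by
        refine Nat.le_of_dvd ha ?_
        refine Finset.prod_primes_dvd a (fun p hp => ?_) (fun p hp => ?_)
        · exact (Nat.prime_of_mem_primeFactors (mem_filter.1 hp).1).prime
        · exact Nat.dvd_of_mem_primeFactors (mem_filter.1 hp).1

open Classical in
/-- **One class modulo small primes, coprime to `a`.** -/
theorem class_sieve (A : ℕ) : ∃ C : ℝ, ∃ h0 : ℕ, 0 < C ∧ ∀ k a l h : ℕ, h0 ≤ h → 1 ≤ a → a ≤ h ^ A →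
    (k : ℝ) ≤ Real.log h → ∀ s : ℕ → ℕ,
    ((((Ioc l (l + h)).filter (fun b => (∀ p ∈ pz k, ¬ p ∣ a * s p + b) ∧ b.Coprime a)).card : ℕ) : ℝ) ≤
      C * (h / (Real.log (k + 2) * gg k a)) := by
  obtain ⟨K, x0, hK, hsieve⟩ := sieve_up 1 (by norm_num)
  obtain ⟨h1, hlevel⟩ := level K x0 hK
  obtain ⟨c, C1, hc, hC1, hVV⟩ := VV_bounds
  have hKr : (1 : ℝ) ≤ K := by exact_mod_cast hK
  obtain ⟨D, hD⟩ : ∃ D : ℝ, D = 2 ^ (2 * K * A) := ⟨_, rfl⟩
  have hD1 : 1 ≤ D := by rw [hD]; exact one_le_pow₀ (by norm_num)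
  obtain ⟨h2, hsmall⟩ : ∃ h2 : ℕ, ∀ h : ℕ, h2 ≤ h → C1 * D * Real.log h ^ 2 * (h : ℝ) ^ (1 / 4 : ℝ) ≤ h ∧
      Real.log h ≤ (h : ℝ) ^ (1 / (2 * K) : ℝ) ∧ 3 ≤ h := by
    have h3 : (fun x : ℝ => Real.log x ^ 2) =o[atTop] (fun x : ℝ => x ^ (3 / 4 : ℝ)) := by
      have := isLittleO_log_rpow_rpow_atTop ((2 : ℕ) : ℝ) (show (0 : ℝ) < 3 / 4 by norm_num)
      simpa [Real.rpow_natCast] using this
    have h4 : (fun x : ℝ => Real.log x) =o[atTop] (fun x : ℝ => x ^ (1 / (2 * K) : ℝ)) :=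
      isLittleO_log_rpow_atTop (by positivity)
    have h5 := (tendsto_natCast_atTop_atTop.eventually (h3.bound (show (0 : ℝ) < 1 / (C1 * D) by positivity))).and
      ((tendsto_natCast_atTop_atTop.eventually (h4.bound (show (0 : ℝ) < 1 by norm_num))).and
      (eventually_ge_atTop 3))
    obtain ⟨h2, hh2⟩ := eventually_atTop.1 h5
    refine ⟨h2, fun h hh => ?_⟩
    obtain ⟨h6, h7, h8⟩ := hh2 h hh
    have hh0 : (3 : ℝ) ≤ h := by exact_mod_cast h8
    have hl0 : 0 < Real.log h := Real.log_pos (by linarith)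
    rw [Real.norm_eq_abs, Real.norm_eq_abs, abs_of_nonneg (by positivity), abs_of_nonneg (by positivity)] at h6
    rw [Real.norm_eq_abs, Real.norm_eq_abs, abs_of_nonneg hl0.le, abs_of_nonneg (by positivity), one_mul] at h7
    refine ⟨?_, h7, h8⟩
    have h9 : (h : ℝ) ^ (3 / 4 : ℝ) * (h : ℝ) ^ (1 / 4 : ℝ) = h := by
      rw [← Real.rpow_add (by linarith)]
      norm_num
    have h10 : 0 < (h : ℝ) ^ (1 / 4 : ℝ) := by positivity
    have hCD : 0 < C1 * D := by positivity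
    have h11 : C1 * D * Real.log h ^ 2 ≤ (h : ℝ) ^ (3 / 4 : ℝ) := by
      rw [one_div, inv_mul_eq_div, le_div_iff₀ hCD] at h6
      linarith
    nlinarith
  refine ⟨2 * D / c + 1, max h1 h2, by positivity, fun k a l h hh ha haA hk s => ?_⟩
  obtain ⟨y, hxy, hy4, hyK, hyK2, hysq, hL0, hLy⟩ := hlevel h (le_trans (le_max_left _ _) hh)
  obtain ⟨hsm, hlogs, hh3⟩ := hsmall h (le_trans (le_max_right _ _) hh)
  obtain ⟨Q, hQ⟩ : ∃ Q : ℕ → ℕ → Prop, Q = fun p n => (p ≤ k ∨ p ∣ a) ∧ p ∣ (a * s p + l) + n := ⟨_, rfl⟩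
  have hper : PerB Q 1 := by
    refine ⟨fun p n => ?_, fun p hp => ?_⟩
    · rw [hQ]
      simp only
      rw [dvd_mod_iff p (a * s p + l) n]
    · rw [hQ]
      exact (one_nu hp (fun p => p ≤ k ∨ p ∣ a) (fun p => a * s p + l)).1
  have hsv := hsieve h y hxy hyK Q hper
  have hy0 : (0 : ℝ) < y := by exact_mod_cast (by omega : 0 < y)
  have hky : k ≤ y := by
    have h3 : (h : ℝ) ^ (1 / (2 * K) : ℝ) < (y : ℝ) + 1 := by
      have h4 : (h : ℝ) < ((y : ℝ) + 1) ^ (2 * K) := by exact_mod_cast hyK2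
      have h5 : (((y : ℝ) + 1) ^ (2 * K)) ^ (1 / (2 * K) : ℝ) = (y : ℝ) + 1 := by
        rw [← Real.rpow_natCast, ← Real.rpow_mul (by positivity)]
        push_cast
        rw [mul_one_div_cancel (by positivity), Real.rpow_one]
      rw [← h5]
      exact Real.rpow_lt_rpow (by positivity) h4 (by positivity)
    have h4 : (k : ℝ) < (y : ℝ) + 1 := by linarith
    have h5 : k < y + 1 := by exact_mod_cast h4
    omega
  have htr : (((Ioc l (l + h)).filter (fun b => (∀ p ∈ pz k, ¬ p ∣ a * s p + b) ∧ b.Coprime a)).card : ℝ) ≤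
      (((Icc 1 h).filter (fun n : ℕ => ∀ p ∈ pz y, ¬ Q p n)).card : ℝ) := by
    have h3 : (Ioc l (l + h)).filter (fun b => (∀ p ∈ pz k, ¬ p ∣ a * s p + b) ∧ b.Coprime a) ⊆
        ((Icc 1 h).filter (fun n : ℕ => ∀ p ∈ pz y, ¬ Q p n)).image (fun n => l + n) := by
      intro b hb
      rw [mem_filter, mem_Ioc] at hb
      rw [mem_image]
      refine ⟨b - l, ?_, by omega⟩
      rw [mem_filter, mem_Icc]
      refine ⟨⟨by omega, by omega⟩, fun p hp => ?_⟩
      rw [mem_pz] at hp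
      rw [hQ]
      simp only
      have e1 : a * s p + l + (b - l) = a * s p + b := by omega
      rw [e1]
      rintro ⟨h7 | h7, h8⟩
      · exact hb.2.1 p (mem_pz.2 ⟨h7, hp.2⟩) h8
      · have h9 : p ∣ b := (Nat.dvd_add_right (Dvd.dvd.mul_right h7 _)).1 h8
        have h10 := Nat.dvd_gcd h9 h7
        rw [hb.2.2] at h10
        exact hp.2.one_lt.ne' (Nat.dvd_one.1 h10)
    have h4 := (card_le_card h3).trans card_image_le
    exact_mod_cast h4
  -- the large prime factors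
  obtain ⟨U1, hU1⟩ : ∃ U1, U1 = (a.primeFactors.filter (fun p => k < p)).filter (fun p => p ≤ y) := ⟨_, rfl⟩
  obtain ⟨U2, hU2⟩ : ∃ U2, U2 = (a.primeFactors.filter (fun p => k < p)).filter (fun p => ¬ p ≤ y) := ⟨_, rfl⟩
  have hgU : gg k a = (∏ p ∈ U1, (1 - (p : ℝ)⁻¹)⁻¹) * ∏ p ∈ U2, (1 - (p : ℝ)⁻¹)⁻¹ := by
    rw [hU1, hU2, prod_filter_mul_prod_filter_not]
    rfl
  have hU2D : ∏ p ∈ U2, (1 - (p : ℝ)⁻¹)⁻¹ ≤ D := by
    have h3 : U2.card ≤ 2 * K * A := by
      have h4 : U2.card ≤ (a.primeFactors.filter (fun p => y < p)).card := by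
        apply card_le_card
        intro p hp
        rw [hU2, mem_filter, mem_filter] at hp
        rw [mem_filter]
        exact ⟨hp.1.1, by omega⟩
      have h5 : (y + 1) ^ (a.primeFactors.filter (fun p => y < p)).card ≤ (y + 1) ^ (2 * K * A) := by
        calc (y + 1) ^ (a.primeFactors.filter (fun p => y < p)).card ≤ a := card_big_pf y a (by omega)
          _ ≤ h ^ A := haA
          _ ≤ ((y + 1) ^ (2 * K)) ^ A := Nat.pow_le_pow_left hyK2.le _
          _ = (y + 1) ^ (2 * K * A) := by rw [← pow_mul]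
      exact h4.trans ((Nat.pow_le_pow_iff_right (by omega)).1 h5)
    calc ∏ p ∈ U2, (1 - (p : ℝ)⁻¹)⁻¹ ≤ ∏ _p ∈ U2, (2 : ℝ) := by
          refine prod_le_prod (fun p hp => ?_) fun p hp => ?_
          · rw [hU2, mem_filter, mem_filter] at hp
            exact zero_le_one.trans (one_le_fac (pf_two hp.1.1))
          · rw [hU2, mem_filter, mem_filter] at hp
            exact fac_le_two (pf_two hp.1.1)
      _ = 2 ^ U2.card := prod_const _
      _ ≤ D := by rw [hD]; exact pow_le_pow_right₀ (by norm_num) h3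
  have hU1W : ∏ p ∈ U1, (1 - (p : ℝ)⁻¹)⁻¹ ≤ VV y := by
    rw [VV_def]
    refine prod_le_prod_sub ?_ fun p hp => (mem_pz.1 hp).2.two_le
    intro p hp
    rw [hU1, mem_filter, mem_filter] at hp
    rw [mem_pz]
    exact ⟨hp.2, Nat.prime_of_mem_primeFactors hp.1.1⟩
  have hU10 : 0 < ∏ p ∈ U1, (1 - (p : ℝ)⁻¹)⁻¹ := lt_of_lt_of_le one_pos (one_le_prod fun p hp => by
    rw [hU1, mem_filter, mem_filter] at hp
    exact pf_two hp.1.1)
  have hgg0 : 0 < gg k a := lt_of_lt_of_le one_pos (one_le_gg k a)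
  have hVk0 : 0 < VV k := lt_of_lt_of_le one_pos (one_le_VV k)
  have hVy0 : 0 < VV y := lt_of_lt_of_le one_pos (one_le_VV y)
  -- product
  have hprod : ∏ p ∈ pz y, (1 - (nuB Q p : ℝ) / p) ≤ D / (VV k * gg k a) := by
    obtain ⟨W, hW⟩ : ∃ W, W = (pz y).filter (fun p => p ≤ k ∨ p ∣ a) := ⟨_, rfl⟩
    have h3 : ∏ p ∈ pz y, (1 - (nuB Q p : ℝ) / p) ≤ (∏ p ∈ W, (1 - (p : ℝ)⁻¹)⁻¹)⁻¹ := by
      rw [← prod_inv_distrib, hW, prod_filter]
      refine prod_le_prod (fun p hp => ?_) fun p hp => ?_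
      · have hp2 := (mem_pz.1 hp).2
        have hpr : (0 : ℝ) < p := by exact_mod_cast hp2.pos
        have : (nuB Q p : ℝ) / p ≤ 1 := by
          rw [div_le_one hpr]
          exact_mod_cast nuB_le Q p
        linarith
      · have hp2 := (mem_pz.1 hp).2
        split_ifs with hG
        · have h4 := (one_nu hp2 (fun p => p ≤ k ∨ p ∣ a) (fun p => a * s p + l)).2 hG
          rw [← hQ] at h4
          rw [h4, inv_inv, Nat.cast_one, one_div]
        · have : (0 : ℝ) ≤ (nuB Q p : ℝ) / p := by positivity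
          linarith
    refine h3.trans ?_
    have hW0 : 0 < ∏ p ∈ W, (1 - (p : ℝ)⁻¹)⁻¹ := lt_of_lt_of_le one_pos (one_le_prod fun p hp => by
      rw [hW, mem_filter, mem_pz] at hp
      exact hp.1.2.two_le)
    rw [inv_eq_one_div, div_le_div_iff₀ hW0 (by positivity), one_mul]
    have hdisj : Disjoint (pz k) U1 := by
      rw [disjoint_left]
      intro p hp hp2
      rw [mem_pz] at hp
      rw [hU1, mem_filter, mem_filter] at hp2
      omega
    have h4 : VV k * ∏ p ∈ U1, (1 - (p : ℝ)⁻¹)⁻¹ ≤ ∏ p ∈ W, (1 - (p : ℝ)⁻¹)⁻¹ := by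
      rw [VV_def, ← prod_union hdisj]
      refine prod_le_prod_sub ?_ fun p hp => ?_
      · intro p hp
        rw [mem_union, mem_pz, hU1, mem_filter, mem_filter] at hp
        rw [hW, mem_filter, mem_pz]
        rcases hp with h | h
        · exact ⟨⟨h.1.trans hky, h.2⟩, Or.inl h.1⟩
        · exact ⟨⟨h.2, Nat.prime_of_mem_primeFactors h.1.1⟩, Or.inr (Nat.dvd_of_mem_primeFactors h.1.1)⟩
      · rw [hW, mem_filter, mem_pz] at hp
        exact hp.1.2.two_le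
    rw [hgU]
    calc VV k * ((∏ p ∈ U1, (1 - (p : ℝ)⁻¹)⁻¹) * ∏ p ∈ U2, (1 - (p : ℝ)⁻¹)⁻¹)
        = (∏ p ∈ U2, (1 - (p : ℝ)⁻¹)⁻¹) * (VV k * ∏ p ∈ U1, (1 - (p : ℝ)⁻¹)⁻¹) := by ring
      _ ≤ D * ∏ p ∈ W, (1 - (p : ℝ)⁻¹)⁻¹ := mul_le_mul hU2D h4 (by positivity) (by positivity)
  have hlk := log_two_add k
  have hhr : (0 : ℝ) ≤ h := Nat.cast_nonneg h
  have hlkh : Real.log ((k : ℝ) + 2) ≤ Real.log h ∧ Real.log ((y : ℝ) + 2) ≤ Real.log h := by
    have h3 : y + 2 ≤ h := by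
      calc y + 2 ≤ y ^ 2 := by nlinarith
        _ ≤ y ^ (2 * K) := Nat.pow_le_pow_right (by omega) (by omega)
        _ ≤ h := hyK
    constructor
    · exact Real.log_le_log (by positivity) (by exact_mod_cast (by omega : k + 2 ≤ h))
    · exact Real.log_le_log (by positivity) (by exact_mod_cast h3)
  have hgle : gg k a ≤ D * (C1 * Real.log h) := by
    rw [hgU, mul_comm]
    refine mul_le_mul hU2D (hU1W.trans ((hVV y).2.trans ?_)) hU10.le (by positivity)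
    exact mul_le_mul_of_nonneg_left hlkh.2 hC1.le
  have herr : (h : ℝ) ^ (1 / 4 : ℝ) ≤ h / (Real.log (k + 2) * gg k a) := by
    rw [le_div_iff₀ (by positivity)]
    calc (h : ℝ) ^ (1 / 4 : ℝ) * (Real.log (k + 2) * gg k a)
        ≤ (h : ℝ) ^ (1 / 4 : ℝ) * (Real.log h * (D * (C1 * Real.log h))) := by
          refine mul_le_mul_of_nonneg_left ?_ (by positivity)
          exact mul_le_mul hlkh.1 hgle hgg0.le hL0.le
      _ = C1 * D * Real.log h ^ 2 * (h : ℝ) ^ (1 / 4 : ℝ) := by ring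
      _ ≤ h := hsm
  have hmain : D / (VV k * gg k a) ≤ D / c * (1 / (Real.log (k + 2) * gg k a)) := by
    rw [div_mul_div_comm, mul_one]
    refine div_le_div_of_nonneg_left (by positivity) (by positivity) ?_
    calc c * (Real.log (k + 2) * gg k a) = (c * Real.log (k + 2)) * gg k a := by ring
      _ ≤ VV k * gg k a := mul_le_mul_of_nonneg_right (hVV k).1 hgg0.le
  calc (((Ioc l (l + h)).filter (fun b => (∀ p ∈ pz k, ¬ p ∣ a * s p + b) ∧ b.Coprime a)).card : ℝ)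
      ≤ (((Icc 1 h).filter (fun n : ℕ => ∀ p ∈ pz y, ¬ Q p n)).card : ℝ) := htr
    _ ≤ 2 * (h * ∏ p ∈ pz y, (1 - (nuB Q p : ℝ) / p)) + (h : ℝ) ^ (1 / 4 : ℝ) := hsv
    _ ≤ 2 * (h * (D / c * (1 / (Real.log (k + 2) * gg k a)))) + h / (Real.log (k + 2) * gg k a) := by
        have h3 := mul_le_mul_of_nonneg_left (hprod.trans hmain) hhr
        linarith
    _ = (2 * D / c + 1) * (h / (Real.log (k + 2) * gg k a)) := by ring

end Pool.Agent.Q160.GK
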