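import Mathlib
import Pool.Agent.Q160.GK3

set_option autoImplicit false

/-!
# Counting admissible vectors
-/

namespace Pool.Agent.Q160.GK

open Finset Filter
open Pool.Agent.H373R2.T7
open Pool.Agent.H305R2 (VV VV_tendsto)

open Classical in
/-- sieve lower bound -/
theorem sieve_low (c : ℕ) (hc : 1 ≤ c) : ∃ K x0 : ℕ, 1 ≤ K ∧ ∀ h y : ℕ, x0 ≤ y → y ^ (2 * K) ≤ h →
    ∀ Q : ℕ → ℕ → Prop, PerB Q c →
    1 / 2 * (h * ∏ p ∈ pz y, (1 - (nuB Q p : ℝ) / p)) ≤
      ((((Icc 1 h).filter (fun n : ℕ => ∀ p ∈ pz y, ¬ Q p n)).card : ℕ) : ℝ) + (h : ℝ) ^ (1 / 4 : ℝ) := by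
  obtain ⟨K, x0, hK, hfund⟩ := sys_fund c hc (1 / 2) (by norm_num)
  refine ⟨K, x0, hK, fun h y hy hyh Q hQ => ?_⟩
  have hyx : y ^ K ≤ Nat.sqrt h := by
    rw [Nat.le_sqrt, ← pow_add, ← two_mul]
    exact hyh
  have h1 := (abs_le.1 (hfund (Nat.sqrt h) y hy hyx Q hQ h)).1
  have h2 : √((Nat.sqrt h : ℕ) : ℝ) ≤ (h : ℝ) ^ (1 / 4 : ℝ) := by
    rw [Real.sqrt_le_left (by positivity), sq, ← Real.rpow_add_of_nonneg (by positivity) (by norm_num) (by norm_num)]
    have h3 : ((Nat.sqrt h : ℕ) : ℝ) ≤ Real.sqrt h := Real.nat_sqrt_le_real_sqrt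
    rw [Real.sqrt_eq_rpow] at h3
    norm_num
    exact h3
  linarith

open Classical in
/-- **Integers coprime to `a` and to all `p ≤ k`.** -/
theorem class_low (A : ℕ) : ∃ c : ℝ, ∃ h0 : ℕ, 0 < c ∧ ∀ k a l h : ℕ, h0 ≤ h → 1 ≤ a → a ≤ h ^ A →
    (k : ℝ) ≤ Real.log h →
    c * (h / (Real.log (k + 2) * gg k a)) ≤
    ((((Ioc l (l + h)).filter (fun b => (∀ p ∈ pz k, ¬ p ∣ b) ∧ b.Coprime a)).card : ℕ) : ℝ) := by
  obtain ⟨K, x0, hK, hsieve⟩ := sieve_low 1 (by norm_num)
  obtain ⟨h1, hlevel⟩ := level K x0 hK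
  obtain ⟨c, C1, hc, hC1, hVV⟩ := VV_bounds
  have hKr : (1 : ℝ) ≤ K := by exact_mod_cast hK
  obtain ⟨D, hD⟩ : ∃ D : ℝ, D = 2 ^ (2 * K * A) := ⟨_, rfl⟩
  have hD1 : 1 ≤ D := by rw [hD]; exact one_le_pow₀ (by norm_num)
  obtain ⟨w, hw⟩ : ∃ w : ℝ, w = 1 / (4 * C1) := ⟨_, rfl⟩
  have hw0 : 0 < w := by rw [hw]; positivity
  obtain ⟨E, hE⟩ : ∃ E : ℝ, E = (1 + 2 * K * A * 3) * (D * C1) / w := ⟨_, rfl⟩
  have hE0 : 0 < E := by rw [hE]; positivity
  obtain ⟨h2, hsmall⟩ : ∃ h2 : ℕ, ∀ h : ℕ, h2 ≤ h → E * Real.log h ^ 2 ≤ (h : ℝ) ^ (1 / (2 * K) : ℝ) ∧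
      Real.log h ≤ (h : ℝ) ^ (1 / (2 * K) : ℝ) ∧ 3 ≤ h := by
    have h3 : (fun x : ℝ => Real.log x ^ 2) =o[atTop] (fun x : ℝ => x ^ (1 / (2 * K) : ℝ)) := by
      have := isLittleO_log_rpow_rpow_atTop ((2 : ℕ) : ℝ) (show (0 : ℝ) < 1 / (2 * K) by positivity)
      simpa [Real.rpow_natCast] using this
    have h4 : (fun x : ℝ => Real.log x) =o[atTop] (fun x : ℝ => x ^ (1 / (2 * K) : ℝ)) :=
      isLittleO_log_rpow_atTop (by positivity)
    have h5 := (tendsto_natCast_atTop_atTop.eventually (h3.bound (show (0 : ℝ) < 1 / E by positivity))).and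
      ((tendsto_natCast_atTop_atTop.eventually (h4.bound (show (0 : ℝ) < 1 by norm_num))).and
      (eventually_ge_atTop 3))
    obtain ⟨h2, hh2⟩ := eventually_atTop.1 h5
    refine ⟨h2, fun h hh => ?_⟩
    obtain ⟨h6, h7, h8⟩ := hh2 h hh
    have hh0 : (3 : ℝ) ≤ h := by exact_mod_cast h8
    have hl0 : 0 < Real.log h := Real.log_pos (by linarith)
    rw [Real.norm_eq_abs, Real.norm_eq_abs, abs_of_nonneg (by positivity), abs_of_nonneg (by positivity)] at h6
    rw [Real.norm_eq_abs, Real.norm_eq_abs, abs_of_nonneg hl0.le, abs_of_nonneg (by positivity), one_mul] at h7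
    refine ⟨?_, h7, h8⟩
    rw [one_div, inv_mul_eq_div, le_div_iff₀ hE0] at h6
    linarith
  refine ⟨w, max h1 h2, hw0, fun k a l h hh ha haA hk => ?_⟩
  obtain ⟨y, hxy, hy4, hyK, hyK2, hysq, hL0, hLy⟩ := hlevel h (le_trans (le_max_left _ _) hh)
  obtain ⟨hsm, hlogs, hh3⟩ := hsmall h (le_trans (le_max_right _ _) hh)
  have hhr3 : (3 : ℝ) ≤ h := by exact_mod_cast hh3
  obtain ⟨Q, hQ⟩ : ∃ Q : ℕ → ℕ → Prop, Q = fun p n => (p ≤ k ∨ p ∣ a) ∧ p ∣ l + n := ⟨_, rfl⟩
  have hper : PerB Q 1 := by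
    refine ⟨fun p n => ?_, fun p hp => ?_⟩
    · rw [hQ]
      simp only
      rw [dvd_mod_iff p l n]
    · rw [hQ]
      exact (one_nu hp (fun p => p ≤ k ∨ p ∣ a) (fun _ => l)).1
  have hsv := hsieve h y hxy hyK Q hper
  have hy0 : (0 : ℝ) < y := by exact_mod_cast (by omega : 0 < y)
  have hylow : (h : ℝ) ^ (1 / (2 * K) : ℝ) < (y : ℝ) + 1 := by
    have h4 : (h : ℝ) < ((y : ℝ) + 1) ^ (2 * K) := by exact_mod_cast hyK2
    have h5 : (((y : ℝ) + 1) ^ (2 * K)) ^ (1 / (2 * K) : ℝ) = (y : ℝ) + 1 := by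
      rw [← Real.rpow_natCast, ← Real.rpow_mul (by positivity)]
      push_cast
      rw [mul_one_div_cancel (by positivity), Real.rpow_one]
    rw [← h5]
    exact Real.rpow_lt_rpow (by positivity) h4 (by positivity)
  have hky : k ≤ y := by
    have h4 : (k : ℝ) < (y : ℝ) + 1 := by linarith
    have h5 : k < y + 1 := by exact_mod_cast h4
    omega
  -- the large prime factors of `a`
  obtain ⟨U, hU⟩ : ∃ U, U = a.primeFactors.filter (fun p => y < p) := ⟨_, rfl⟩
  have hUc : U.card ≤ 2 * K * A := by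
    have h5 : (y + 1) ^ U.card ≤ (y + 1) ^ (2 * K * A) := by
      calc (y + 1) ^ U.card ≤ a := by rw [hU]; exact card_big_pf y a (by omega)
        _ ≤ h ^ A := haA
        _ ≤ ((y + 1) ^ (2 * K)) ^ A := Nat.pow_le_pow_left hyK2.le _
        _ = (y + 1) ^ (2 * K * A) := by rw [← pow_mul]
    exact (Nat.pow_le_pow_iff_right (by omega)).1 h5
  obtain ⟨U1, hU1⟩ : ∃ U1, U1 = (a.primeFactors.filter (fun p => k < p)).filter (fun p => p ≤ y) := ⟨_, rfl⟩
  obtain ⟨U2, hU2⟩ : ∃ U2, U2 = (a.primeFactors.filter (fun p => k < p)).filter (fun p => ¬ p ≤ y) := ⟨_, rfl⟩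
  have hgU : gg k a = (∏ p ∈ U1, (1 - (p : ℝ)⁻¹)⁻¹) * ∏ p ∈ U2, (1 - (p : ℝ)⁻¹)⁻¹ := by
    rw [hU1, hU2, prod_filter_mul_prod_filter_not]
    rfl
  have hU21 : 1 ≤ ∏ p ∈ U2, (1 - (p : ℝ)⁻¹)⁻¹ := one_le_prod fun p hp => by
    rw [hU2, mem_filter, mem_filter] at hp
    exact pf_two hp.1.1
  have hU2D : ∏ p ∈ U2, (1 - (p : ℝ)⁻¹)⁻¹ ≤ D := by
    have h3 : U2.card ≤ 2 * K * A := by
      refine le_trans (card_le_card ?_) hUc
      intro p hp
      rw [hU2, mem_filter, mem_filter] at hp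
      rw [hU, mem_filter]
      exact ⟨hp.1.1, by omega⟩
    calc ∏ p ∈ U2, (1 - (p : ℝ)⁻¹)⁻¹ ≤ ∏ _p ∈ U2, (2 : ℝ) := by
          refine prod_le_prod (fun p hp => ?_) fun p hp => ?_
          · rw [hU2, mem_filter, mem_filter] at hp
            exact zero_le_one.trans (one_le_fac (pf_two hp.1.1))
          · rw [hU2, mem_filter, mem_filter] at hp
            exact fac_le_two (pf_two hp.1.1)
      _ = 2 ^ U2.card := prod_const _
      _ ≤ D := by rw [hD]; exact pow_le_pow_right₀ (by norm_num) h3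
  have hU1W : ∏ p ∈ U1, (1 - (p : ℝ)⁻¹)⁻¹ ≤ VV y := by
    rw [VV_def]
    refine prod_le_prod_sub ?_ fun p hp => (mem_pz.1 hp).2.two_le
    intro p hp
    rw [hU1, mem_filter, mem_filter] at hp
    rw [mem_pz]
    exact ⟨hp.2, Nat.prime_of_mem_primeFactors hp.1.1⟩
  have hU10 : 0 < ∏ p ∈ U1, (1 - (p : ℝ)⁻¹)⁻¹ := lt_of_lt_of_le one_pos (one_le_prod fun p hp => by
    rw [hU1, mem_filter, mem_filter] at hp
    exact pf_two hp.1.1)
  have hgg0 : 0 < gg k a := lt_of_lt_of_le one_pos (one_le_gg k a)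
  have hVk0 : 0 < VV k := lt_of_lt_of_le one_pos (one_le_VV k)
  -- product
  have hprod : 1 / (VV k * gg k a) ≤ ∏ p ∈ pz y, (1 - (nuB Q p : ℝ) / p) := by
    obtain ⟨W, hW⟩ : ∃ W, W = (pz y).filter (fun p => p ≤ k ∨ p ∣ a) := ⟨_, rfl⟩
    have h3 : (∏ p ∈ W, (1 - (p : ℝ)⁻¹)⁻¹)⁻¹ ≤ ∏ p ∈ pz y, (1 - (nuB Q p : ℝ) / p) := by
      rw [← prod_inv_distrib, hW, prod_filter]
      refine prod_le_prod (fun p hp => ?_) fun p hp => ?_
      · have hp2 := (mem_pz.1 hp).2
        have := fac_pos hp2.two_le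
        split_ifs
        · rw [inv_inv]; exact this.le
        · exact zero_le_one
      · have hp2 := (mem_pz.1 hp).2
        have h5 := (one_nu hp2 (fun p => p ≤ k ∨ p ∣ a) (fun _ => l)).1
        rw [← hQ] at h5
        split_ifs with hG
        · rw [inv_inv, inv_eq_one_div]
          have h4 : (nuB Q p : ℝ) ≤ 1 := by exact_mod_cast h5
          have hpr : (0 : ℝ) < p := by exact_mod_cast hp2.pos
          have h6 : (nuB Q p : ℝ) / p ≤ 1 / p := by gcongr
          linarith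
        · have h4 : nuB Q p = 0 := by
            unfold nuB
            rw [card_eq_zero]
            ext x
            simp only [mem_filter, notMem_empty, iff_false]
            rw [hQ]
            exact fun h => hG h.2.1
          rw [h4]
          simp
    refine le_trans ?_ h3
    have hW0 : 0 < ∏ p ∈ W, (1 - (p : ℝ)⁻¹)⁻¹ := lt_of_lt_of_le one_pos (one_le_prod fun p hp => by
      rw [hW, mem_filter, mem_pz] at hp
      exact hp.1.2.two_le)
    rw [inv_eq_one_div]
    refine one_div_le_one_div_of_le hW0 ?_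
    have hdisj : Disjoint (pz k) U1 := by
      rw [disjoint_left]
      intro p hp hp2
      rw [mem_pz] at hp
      rw [hU1, mem_filter, mem_filter] at hp2
      omega
    calc ∏ p ∈ W, (1 - (p : ℝ)⁻¹)⁻¹ ≤ ∏ p ∈ pz k ∪ U1, (1 - (p : ℝ)⁻¹)⁻¹ := by
          refine prod_le_prod_sub ?_ fun p hp => ?_
          · intro p hp
            rw [hW, mem_filter, mem_pz] at hp
            rw [mem_union, mem_pz, hU1, mem_filter, mem_filter]
            rcases Nat.lt_or_ge k p with h | h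
            · right
              have : p ∣ a := by
                rcases hp.2 with h' | h'
                · omega
                · exact h'
              exact ⟨⟨Nat.mem_primeFactors.2 ⟨hp.1.2, this, by omega⟩, h⟩, hp.1.1⟩
            · exact Or.inl ⟨h, hp.1.2⟩
          · rw [mem_union, mem_pz, hU1, mem_filter, mem_filter] at hp
            rcases hp with h | h
            · exact h.2.two_le
            · exact pf_two h.1.1
      _ = VV k * ∏ p ∈ U1, (1 - (p : ℝ)⁻¹)⁻¹ := by rw [VV_def, prod_union hdisj]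
      _ ≤ VV k * gg k a := by
          rw [hgU]
          refine mul_le_mul_of_nonneg_left ?_ hVk0.le
          exact le_mul_of_one_le_right hU10.le hU21
  have htr : (((Icc 1 h).filter (fun n : ℕ => ∀ p ∈ pz y, ¬ Q p n)).card : ℝ) ≤
      (((Ioc l (l + h)).filter (fun b => (∀ p ∈ pz k, ¬ p ∣ b) ∧ b.Coprime a)).card : ℝ) +
        2 * K * A * (h / y + 1) := by
    have h3 : ((Icc 1 h).filter (fun n : ℕ => ∀ p ∈ pz y, ¬ Q p n)).image (fun n => l + n) ⊆
        (Ioc l (l + h)).filter (fun b => (∀ p ∈ pz k, ¬ p ∣ b) ∧ b.Coprime a) ∪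
        U.biUnion (fun p => (Ioc l (l + h)).filter (fun b => p ∣ b)) := by
      intro b hb
      rw [mem_image] at hb
      obtain ⟨n, hn, rfl⟩ := hb
      rw [mem_filter, mem_Icc] at hn
      rw [mem_union, mem_filter, mem_Ioc, mem_biUnion]
      by_cases hex : ∃ p ∈ U, p ∣ l + n
      · obtain ⟨p, hp1, hp2⟩ := hex
        exact Or.inr ⟨p, hp1, by rw [mem_filter, mem_Ioc]; exact ⟨by omega, hp2⟩⟩
      · push Not at hex
        left
        refine ⟨by omega, ?_, ?_⟩
        · intro p hp hpd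
          rw [mem_pz] at hp
          have := hn.2 p (mem_pz.2 ⟨hp.1.trans hky, hp.2⟩)
          rw [hQ] at this
          exact this ⟨Or.inl hp.1, hpd⟩
        · rw [Nat.coprime_iff_gcd_eq_one]
          by_contra hcon
          obtain ⟨p, hp, hpg⟩ := Nat.exists_prime_and_dvd hcon
          have hp1 := hpg.trans (Nat.gcd_dvd_left _ _)
          have hp2 := hpg.trans (Nat.gcd_dvd_right _ _)
          rcases Nat.lt_or_ge y p with h' | h'
          · refine hex p ?_ hp1
            rw [hU, mem_filter]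
            exact ⟨Nat.mem_primeFactors.2 ⟨hp, hp2, by omega⟩, h'⟩
          · have := hn.2 p (mem_pz.2 ⟨h', hp⟩)
            rw [hQ] at this
            exact this ⟨Or.inr hp2, hp1⟩
    have h4 : ((((Icc 1 h).filter (fun n : ℕ => ∀ p ∈ pz y, ¬ Q p n)).image (fun n => l + n)).card : ℝ) =
        (((Icc 1 h).filter (fun n : ℕ => ∀ p ∈ pz y, ¬ Q p n)).card : ℝ) := by
      rw [card_image_of_injective _ (add_right_injective l)]
    rw [← h4]
    have h5 : ((((Icc 1 h).filter (fun n : ℕ => ∀ p ∈ pz y, ¬ Q p n)).image (fun n => l + n)).card : ℝ) ≤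
        (((Ioc l (l + h)).filter (fun b => (∀ p ∈ pz k, ¬ p ∣ b) ∧ b.Coprime a)).card : ℝ) +
        ((U.biUnion (fun p => (Ioc l (l + h)).filter (fun b => p ∣ b))).card : ℝ) := by
      exact_mod_cast (card_le_card h3).trans (card_union_le _ _)
    refine h5.trans (add_le_add le_rfl ?_)
    have h6 : ∀ p ∈ U, (((Ioc l (l + h)).filter (fun b => p ∣ b)).card : ℝ) ≤ h / y + 1 := by
      intro p hp
      rw [hU, mem_filter] at hp
      have hp0 : 0 < p := by omega
      have hpr : (y : ℝ) ≤ p := by exact_mod_cast hp.2.le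
      have h7 : ((Ioc l (l + h)).filter (fun b => p ∣ b)).card ≤ h / p + 1 := by
        have h8 : (Ioc l (l + h)).filter (fun b => p ∣ b) ⊆ (Ioc (l / p) ((l + h) / p)).image (fun t => p * t) := by
          intro b hb
          rw [mem_filter, mem_Ioc] at hb
          obtain ⟨t, rfl⟩ := hb.2
          rw [mem_image]
          refine ⟨t, ?_, rfl⟩
          rw [mem_Ioc]
          constructor
          · rw [Nat.div_lt_iff_lt_mul hp0, mul_comm]
            exact hb.1.1
          · rw [Nat.le_div_iff_mul_le hp0, mul_comm]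
            exact hb.1.2
        refine (card_le_card h8).trans (card_image_le.trans ?_)
        rw [Nat.card_Ioc]
        have h9 : (l + h) / p ≤ l / p + (h / p + 1) := by
          rw [Nat.add_div hp0]
          split_ifs <;> omega
        exact Nat.sub_le_iff_le_add'.2 h9
      calc (((Ioc l (l + h)).filter (fun b => p ∣ b)).card : ℝ) ≤ ((h / p + 1 : ℕ) : ℝ) := by exact_mod_cast h7
        _ = ((h / p : ℕ) : ℝ) + 1 := by push_cast; rfl
        _ ≤ (h : ℝ) / p + 1 := by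
            have := Nat.cast_div_le (α := ℝ) (m := h) (n := p)
            linarith
        _ ≤ h / y + 1 := by
            have : (h : ℝ) / p ≤ h / y := div_le_div_of_nonneg_left (by positivity) hy0 hpr
            linarith
    calc ((U.biUnion (fun p => (Ioc l (l + h)).filter (fun b => p ∣ b))).card : ℝ)
        ≤ ∑ p ∈ U, (((Ioc l (l + h)).filter (fun b => p ∣ b)).card : ℝ) := by exact_mod_cast card_biUnion_le
      _ ≤ ∑ _p ∈ U, ((h : ℝ) / y + 1) := sum_le_sum h6
      _ = U.card * ((h : ℝ) / y + 1) := by rw [sum_const, nsmul_eq_mul]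
      _ ≤ 2 * K * A * (h / y + 1) := by
          refine mul_le_mul_of_nonneg_right ?_ (by positivity)
          exact_mod_cast hUc
  have hlk := log_two_add k
  have hhr : (0 : ℝ) ≤ h := Nat.cast_nonneg h
  have hlkh : Real.log ((k : ℝ) + 2) ≤ Real.log h ∧ Real.log ((y : ℝ) + 2) ≤ Real.log h := by
    have h3 : y + 2 ≤ h := by
      calc y + 2 ≤ y ^ 2 := by nlinarith
        _ ≤ y ^ (2 * K) := Nat.pow_le_pow_right (by omega) (by omega)
        _ ≤ h := hyK
    constructor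
    · exact Real.log_le_log (by positivity) (by exact_mod_cast (by omega : k + 2 ≤ h))
    · exact Real.log_le_log (by positivity) (by exact_mod_cast h3)
  have hgle : gg k a ≤ D * (C1 * Real.log h) := by
    rw [hgU, mul_comm]
    refine mul_le_mul hU2D (hU1W.trans ((hVV y).2.trans ?_)) hU10.le (by positivity)
    exact mul_le_mul_of_nonneg_left hlkh.2 hC1.le
  obtain ⟨R, hR⟩ : ∃ R : ℝ, R = (h : ℝ) ^ (1 / (2 * K) : ℝ) := ⟨_, rfl⟩
  rw [← hR] at hsm hlogs hylow
  have hR0 : 0 < R := by rw [hR]; positivity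
  have hRy : R ≤ 2 * y := by
    have : (1 : ℝ) ≤ y := by exact_mod_cast (by omega : 1 ≤ y)
    linarith
  have hRh : R ≤ h := by
    rw [hR]
    calc (h : ℝ) ^ (1 / (2 * K) : ℝ) ≤ (h : ℝ) ^ (1 : ℝ) := by
          refine Real.rpow_le_rpow_of_exponent_le (by linarith) ?_
          rw [div_le_one (by positivity)]
          linarith
      _ = h := Real.rpow_one _
  have hquart : (h : ℝ) ^ (1 / 4 : ℝ) ≤ h / R := by
    rw [le_div_iff₀ hR0, hR, ← Real.rpow_add (by linarith)]
    calc (h : ℝ) ^ (1 / 4 + 1 / (2 * K) : ℝ) ≤ (h : ℝ) ^ (1 : ℝ) := by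
          refine Real.rpow_le_rpow_of_exponent_le (by linarith) ?_
          have : (1 : ℝ) / (2 * K) ≤ 1 / 2 := one_div_le_one_div_of_le (by norm_num) (by linarith)
          linarith
      _ = h := Real.rpow_one _
  have hhy : (h : ℝ) / y + 1 ≤ 3 * (h / R) := by
    have h3 : (h : ℝ) / y ≤ 2 * (h / R) := by
      rw [← mul_div_assoc, div_le_div_iff₀ hy0 hR0]
      nlinarith
    have h4 : 1 ≤ (h : ℝ) / R := by rwa [le_div_iff₀ hR0, one_mul]
    linarith
  have hLg0 : 0 < Real.log (k + 2) * gg k a := by positivity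
  have herr : (h : ℝ) ^ (1 / 4 : ℝ) + 2 * K * A * (h / y + 1) ≤ w * (h / (Real.log (k + 2) * gg k a)) := by
    have h3 : (h : ℝ) ^ (1 / 4 : ℝ) + 2 * K * A * (h / y + 1) ≤ (1 + 2 * K * A * 3) * (h / R) := by
      have : 2 * K * A * (h / y + 1) ≤ 2 * K * A * (3 * (h / R)) :=
        mul_le_mul_of_nonneg_left hhy (by positivity)
      linarith
    refine h3.trans ?_
    have h4 : Real.log (k + 2) * gg k a ≤ D * C1 * Real.log h ^ 2 := by
      calc Real.log (k + 2) * gg k a ≤ Real.log h * (D * (C1 * Real.log h)) :=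
            mul_le_mul hlkh.1 hgle hgg0.le hL0.le
        _ = _ := by ring
    rw [← mul_div_assoc, ← mul_div_assoc, div_le_div_iff₀ hR0 hLg0]
    calc (1 + 2 * K * A * 3) * h * (Real.log (k + 2) * gg k a)
        ≤ (1 + 2 * K * A * 3) * h * (D * C1 * Real.log h ^ 2) :=
          mul_le_mul_of_nonneg_left h4 (by positivity)
      _ = w * h * (E * Real.log h ^ 2) := by rw [hE]; field_simp
      _ ≤ w * h * R := mul_le_mul_of_nonneg_left hsm (by positivity)
  have hmain : 2 * w * (h / (Real.log (k + 2) * gg k a)) ≤ 1 / 2 * (h * ∏ p ∈ pz y, (1 - (nuB Q p : ℝ) / p)) := by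
    have h3 : 1 / (C1 * (Real.log (k + 2) * gg k a)) ≤ 1 / (VV k * gg k a) := by
      refine one_div_le_one_div_of_le (by positivity) ?_
      calc VV k * gg k a ≤ (C1 * Real.log (k + 2)) * gg k a := mul_le_mul_of_nonneg_right (hVV k).2 hgg0.le
        _ = _ := by ring
    have h4 := mul_le_mul_of_nonneg_left (h3.trans hprod) hhr
    have h5 : 2 * w * (h / (Real.log (k + 2) * gg k a)) = 1 / 2 * (h * (1 / (C1 * (Real.log (k + 2) * gg k a)))) := by
      rw [hw]
      field_simp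
      norm_num
    rw [h5]
    linarith
  linarith

/-- for every prime some `n` makes no `a i * n + b i` divisible by it -/
def Adm {k : ℕ} (a b : Fin k → ℕ) : Prop := ∀ p : ℕ, p.Prime → ∃ n : ℕ, ∀ i, ¬ p ∣ a i * n + b i

lemma dvd_mul_mod (p a n b : ℕ) : p ∣ a * (n % p) + b ↔ p ∣ a * n + b := by
  rw [Nat.dvd_iff_mod_eq_zero, Nat.dvd_iff_mod_eq_zero, Nat.add_mod, Nat.mul_mod, Nat.mod_mod, ← Nat.mul_mod, ← Nat.add_mod]

lemma prod_pz_le (k : ℕ) : ∏ p ∈ pz k, p ≤ 4 ^ k := by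
  refine le_trans (le_of_eq ?_) (primorial_le_four_pow k)
  unfold primorial
  refine prod_congr ?_ fun _ _ => rfl
  ext p
  rw [mem_pz, mem_filter, mem_range]
  constructor
  · rintro ⟨h1, h2⟩; exact ⟨by omega, h2⟩
  · rintro ⟨h1, h2⟩; exact ⟨by omega, h2⟩

open Classical in
theorem adm_upper (A : ℕ) : ∃ C : ℝ, ∃ h0 : ℕ, 0 < C ∧ ∀ k : ℕ, ∀ a l h : Fin k → ℕ, (∀ i, h0 ≤ h i) →
    (∀ i, 1 ≤ a i) → (∀ i, a i ≤ h i ^ A) → (∀ i, (k : ℝ) ≤ Real.log (h i)) →
    (((Fintype.piFinset (fun i => Ioc (l i) (l i + h i))).filter (fun b => Adm a b)).card : ℝ) ≤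
      ∏ i, (C * (h i / (Real.log (k + 2) * gg k (a i)))) := by
  obtain ⟨C, h0, hC, hcs⟩ := class_sieve A
  refine ⟨4 * C, h0, by positivity, fun k a l h hh ha haA hk => ?_⟩
  obtain ⟨Sp, hSp⟩ : ∃ Sp : ((p : ℕ) → p ∈ pz k → ℕ) → ℕ → ℕ,
    Sp = fun s p => if hp : p ∈ pz k then s p hp else 0 := ⟨_, rfl⟩
  obtain ⟨S, hS⟩ : ∃ S : ((p : ℕ) → p ∈ pz k → ℕ) → Fin k → Finset ℕ, S = fun s i =>
    (Ioc (l i) (l i + h i)).filter (fun b => (∀ p ∈ pz k, ¬ p ∣ a i * Sp s p + b) ∧ b.Coprime (a i)) := ⟨_, rfl⟩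
  have hsub : (Fintype.piFinset (fun i => Ioc (l i) (l i + h i))).filter (fun b => Adm a b) ⊆
      ((pz k).pi (fun p => range p)).biUnion (fun s => Fintype.piFinset (S s)) := by
    intro b hb
    rw [mem_filter, Fintype.mem_piFinset] at hb
    obtain ⟨hb1, hb2⟩ := hb
    unfold Adm at hb2
    choose! n hn using hb2
    rw [mem_biUnion]
    refine ⟨fun p _ => n p % p, ?_, ?_⟩
    · rw [Finset.mem_pi]
      intro p hp
      rw [mem_range]
      exact Nat.mod_lt _ (mem_pz.1 hp).2.pos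
    · rw [Fintype.mem_piFinset]
      intro i
      rw [hS]
      simp only [mem_filter]
      refine ⟨hb1 i, ?_, ?_⟩
      · intro p hp
        rw [hSp]
        simp only [hp, dif_pos]
        rw [dvd_mul_mod]
        exact hn p (mem_pz.1 hp).2 i
      · rw [Nat.coprime_iff_gcd_eq_one]
        by_contra hcon
        obtain ⟨p, hp, hpg⟩ := Nat.exists_prime_and_dvd hcon
        have hp1 := hpg.trans (Nat.gcd_dvd_left _ _)
        have hp2 := hpg.trans (Nat.gcd_dvd_right _ _)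
        exact hn p hp i (dvd_add (Dvd.dvd.mul_right hp2 _) hp1)
  have hcard : (((pz k).pi (fun p => range p)).card : ℝ) ≤ 4 ^ k := by
    rw [Finset.card_pi]
    have h1 : ∏ p ∈ pz k, (range p).card = ∏ p ∈ pz k, p := prod_congr rfl fun p _ => card_range p
    rw [h1]
    exact_mod_cast prod_pz_le k
  have hSle : ∀ s i, ((S s i).card : ℝ) ≤ C * (h i / (Real.log (k + 2) * gg k (a i))) := by
    intro s i
    rw [hS]
    exact hcs k (a i) (l i) (h i) (hh i) (ha i) (haA i) (hk i) (Sp s)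
  calc (((Fintype.piFinset (fun i => Ioc (l i) (l i + h i))).filter (fun b => Adm a b)).card : ℝ)
      ≤ ∑ s ∈ (pz k).pi (fun p => range p), ((Fintype.piFinset (S s)).card : ℝ) := by
        exact_mod_cast (card_le_card hsub).trans card_biUnion_le
    _ ≤ ∑ s ∈ (pz k).pi (fun p => range p), ∏ i, (C * ((h i : ℝ) / (Real.log (k + 2) * gg k (a i)))) := by
        refine sum_le_sum fun s _ => ?_
        rw [Fintype.card_piFinset]
        push_cast
        exact prod_le_prod (fun i _ => by positivity) fun i _ => hSle s i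
    _ = (((pz k).pi (fun p => range p)).card : ℝ) * ∏ i, (C * ((h i : ℝ) / (Real.log (k + 2) * gg k (a i)))) := by
        rw [sum_const, nsmul_eq_mul]
    _ ≤ 4 ^ k * ∏ i, (C * ((h i : ℝ) / (Real.log (k + 2) * gg k (a i)))) := by
        refine mul_le_mul_of_nonneg_right hcard (prod_nonneg fun i _ => ?_)
        have := one_le_gg k (a i)
        have := log_two_add k
        positivity
    _ = ∏ i, (4 * C * ((h i : ℝ) / (Real.log (k + 2) * gg k (a i)))) := by
        have h1 : (4 : ℝ) ^ k = ∏ _i : Fin k, (4 : ℝ) := by rw [prod_const, card_univ, Fintype.card_fin]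
        rw [h1, ← prod_mul_distrib]
        refine prod_congr rfl fun i _ => ?_
        ring

open Classical in
theorem adm_lower (A : ℕ) : ∃ c : ℝ, ∃ h0 : ℕ, 0 < c ∧ ∀ k : ℕ, ∀ a l h : Fin k → ℕ, (∀ i, h0 ≤ h i) →
    (∀ i, 1 ≤ a i) → (∀ i, a i ≤ h i ^ A) → (∀ i, (k : ℝ) ≤ Real.log (h i)) →
    ∏ i, (c * (h i / (Real.log (k + 2) * gg k (a i)))) ≤
    (((Fintype.piFinset (fun i => Ioc (l i) (l i + h i))).filter (fun b => Adm a b)).card : ℝ) := by
  obtain ⟨c, h0, hc, hcl⟩ := class_low A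
  refine ⟨c, h0, hc, fun k a l h hh ha haA hk => ?_⟩
  have hsub : Fintype.piFinset (fun i => (Ioc (l i) (l i + h i)).filter (fun b => (∀ p ∈ pz k, ¬ p ∣ b) ∧ b.Coprime (a i))) ⊆
      (Fintype.piFinset (fun i => Ioc (l i) (l i + h i))).filter (fun b => Adm a b) := by
    intro b hb
    rw [Fintype.mem_piFinset] at hb
    rw [mem_filter, Fintype.mem_piFinset]
    refine ⟨fun i => (mem_filter.1 (hb i)).1, fun p hp => ?_⟩
    rcases Nat.lt_or_ge k p with hkp | hkp
    · -- pigeonhole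
      by_contra hcon
      push Not at hcon
      have h1 : ∀ n : Fin p, ∃ i : Fin k, p ∣ a i * n + b i := fun n => hcon n
      choose f hf using h1
      have hinj : Function.Injective f := by
        intro n m hnm
        have h2 := hf n
        have h3 := hf m
        rw [hnm] at h2
        have hpa : ¬ p ∣ a (f m) := by
          intro hpa
          have hpb : p ∣ b (f m) := (Nat.dvd_add_right (Dvd.dvd.mul_right hpa _)).1 h3
          have h4 := (mem_filter.1 (hb (f m))).2.2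
          have h5 := Nat.dvd_gcd hpb hpa
          rw [h4] at h5
          exact hp.one_lt.ne' (Nat.dvd_one.1 h5)
        have h4 : a (f m) * n + b (f m) ≡ a (f m) * m + b (f m) [MOD p] :=
          ((Nat.modEq_zero_iff_dvd.2 h2).trans (Nat.modEq_zero_iff_dvd.2 h3).symm)
        have h5 : a (f m) * n ≡ a (f m) * m [MOD p] := Nat.ModEq.add_right_cancel' _ h4
        have h6 : (n : ℕ) ≡ m [MOD p] := Nat.ModEq.cancel_left_of_coprime ((Nat.Prime.coprime_iff_not_dvd hp).2 hpa) h5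
        have h7 := Nat.ModEq.eq_of_lt_of_lt h6 n.2 m.2
        exact Fin.ext h7
      have := Fintype.card_le_of_injective f hinj
      rw [Fintype.card_fin, Fintype.card_fin] at this
      omega
    · refine ⟨0, fun i => ?_⟩
      rw [mul_zero, zero_add]
      exact (mem_filter.1 (hb i)).2.1 p (mem_pz.2 ⟨hkp, hp⟩)
  have hsub2 : ((Fintype.piFinset (fun i => (Ioc (l i) (l i + h i)).filter (fun b => (∀ p ∈ pz k, ¬ p ∣ b) ∧ b.Coprime (a i)))).card : ℝ) ≤
      (((Fintype.piFinset (fun i => Ioc (l i) (l i + h i))).filter (fun b => Adm a b)).card : ℝ) := by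
    exact_mod_cast card_le_card hsub
  refine le_trans ?_ hsub2
  rw [Fintype.card_piFinset]
  push_cast
  refine prod_le_prod (fun i _ => ?_) fun i _ => hcl k (a i) (l i) (h i) (hh i) (ha i) (haA i) (hk i)
  have := one_le_gg k (a i)
  have := log_two_add k
  positivity

end Pool.Agent.Q160.GK
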