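import Mathlib
import Pool.Agent.W66.LT
import Pool.Agent.TH888.R.Asy
import Pool.Agent.TH888.R.Mean
import Pool.Agent.TH888.R.Row
import Pool.Agent.H442R2.EHI.PntErr

set_option autoImplicit false

/-!
# The mean over the units modulo `b ^ q`, with an error term
-/

namespace Pool.Agent.Q160.TA

open Finset Filter Topology MeasureTheory
open Pool.Agent.H442R2.EHI (lis pnt_err)
open Pool.Agent.H442R2.EHI.PntErrAux (lis_succ step sumlog)
open Pool.Agent.W66L
open Pool.Agent.H305R2 (roughPart SM SM_pos SMz mem_SMz ZZ VV tail_le ZZ_nonneg VV_nonneg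
  log_nat_tendsto)
open Pool.Agent.TH888.R (VV_rate ZZ_rate)

lemma lis_near (y : ℕ) (hy : 2 ≤ y) :
    |lis y - y / Real.log y| ≤ 4 + ∑ n ∈ Ico 2 y, 1 / Real.log n ^ 2 := by
  induction y, hy using Nat.le_induction with
  | base =>
    have h2 : lis 2 = 1 / Real.log 2 := by
      unfold lis; simp
    rw [h2]
    have hlog2 : 0.69 < Real.log 2 := by linarith [Real.log_two_gt_d9]
    have e : 1 / Real.log 2 - ((2 : ℕ) : ℝ) / Real.log ((2 : ℕ) : ℝ) = - (1 / Real.log 2) := by
      push_cast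
      ring
    rw [e, abs_neg, abs_of_nonneg (by positivity)]
    simp only [Ico_self, sum_empty, add_zero]
    rw [div_le_iff₀ (by linarith)]
    linarith
  | succ y hy ih =>
    rw [sum_Ico_succ_top hy, lis_succ y (by omega)]
    have hy0 : (1 : ℝ) < y := by exact_mod_cast (by omega : 1 < y)
    have hl : 0 < Real.log y := Real.log_pos hy0
    have hl1 : 0 < Real.log ((y + 1 : ℕ) : ℝ) := Real.log_pos (by push_cast; linarith)
    have hll : Real.log y ≤ Real.log ((y + 1 : ℕ) : ℝ) :=
      Real.log_le_log (by linarith) (by push_cast; linarith)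
    have hd : 0 ≤ 1 / Real.log y - 1 / Real.log ((y + 1 : ℕ) : ℝ) := by
      rw [sub_nonneg]
      exact one_div_le_one_div_of_le hl hll
    have hs := step y hy
    have e : lis y + 1 / Real.log ((y + 1 : ℕ) : ℝ) - ((y + 1 : ℕ) : ℝ) / Real.log ((y + 1 : ℕ) : ℝ) =
        (lis y - y / Real.log y) + y * (1 / Real.log y - 1 / Real.log ((y + 1 : ℕ) : ℝ)) := by
      push_cast at hl1 ⊢
      field_simp
      ring
    rw [e]
    refine (abs_add_le _ _).trans ?_
    have h1 : |(y : ℝ) * (1 / Real.log y - 1 / Real.log ((y + 1 : ℕ) : ℝ))| ≤ 1 / Real.log y ^ 2 := by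
      rw [abs_of_nonneg (mul_nonneg (by linarith) hd)]
      calc (y : ℝ) * (1 / Real.log y - 1 / Real.log ((y + 1 : ℕ) : ℝ)) ≤
          y * (1 / (y * Real.log y ^ 2)) := mul_le_mul_of_nonneg_left hs (by linarith)
        _ = _ := by
          have : (y : ℝ) ≠ 0 := by linarith
          field_simp
    linarith

/-- the prime number theorem for `π`, error term `x / log ^ 2 x` -/
lemma pi_nat : ∃ C : ℝ, 0 < C ∧ ∀ y : ℕ, 2 ≤ y →
    |(Nat.primeCounting y : ℝ) - y / Real.log y| ≤ C * (y / Real.log y ^ 2) := by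
  obtain ⟨C, hC⟩ := pnt_err 2
  obtain ⟨C1, hC1, h1⟩ := sumlog 2
  refine ⟨|C| + 16 + C1, by positivity, fun y hy => ?_⟩
  have hy2 : (2 : ℝ) ≤ y := by exact_mod_cast hy
  have hy0 : (0 : ℝ) < y := by linarith
  have hly : 0 < Real.log y := Real.log_pos (by linarith)
  have h2 := hC y hy
  have h3 := lis_near y hy
  have h4 := h1 y hy
  have hpc : (((Icc 1 y).filter (fun p : ℕ => p.Prime)).card : ℝ) = (Nat.primeCounting y : ℝ) := by
    rw [← card_primes_eq]
    rfl
  rw [hpc] at h2
  have h5 : 4 ≤ 16 * (y / Real.log y ^ 2) := by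
    have h6 := Real.log_le_sub_one_of_pos (Real.sqrt_pos.2 hy0)
    rw [Real.log_sqrt hy0.le] at h6
    have h7 : Real.log y ≤ 2 * √(y : ℝ) := by linarith
    have h8 : Real.log y ^ 2 ≤ 4 * y := by
      calc Real.log y ^ 2 ≤ (2 * √(y : ℝ)) ^ 2 := pow_le_pow_left₀ hly.le h7 2
        _ = 4 * y := by rw [mul_pow, Real.sq_sqrt hy0.le]; norm_num
    rw [← mul_div_assoc, le_div_iff₀ (by positivity)]
    linarith
  have h9 : C * y / Real.log y ^ 2 ≤ |C| * (y / Real.log y ^ 2) := by
    rw [mul_div_assoc]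
    exact mul_le_mul_of_nonneg_right (le_abs_self C) (by positivity)
  have e : (Nat.primeCounting y : ℝ) - y / Real.log y =
      ((Nat.primeCounting y : ℝ) - lis y) + (lis y - y / Real.log y) := by ring
  rw [e]
  refine (abs_add_le _ _).trans ?_
  have e2 : (|C| + 16 + C1) * (y / Real.log y ^ 2) = |C| * (y / Real.log y ^ 2) +
    16 * (y / Real.log y ^ 2) + C1 * (y / Real.log y ^ 2) := by ring
  rw [e2]
  linarith

lemma pi_real : ∃ C : ℝ, 0 < C ∧ ∀ x : ℝ, 4 ≤ x →
    |(Nat.primeCounting ⌊x⌋₊ : ℝ) - x / Real.log x| ≤ C * (x / Real.log x ^ 2) := by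
  obtain ⟨C, hC, h⟩ := pi_nat
  refine ⟨4 * C + 12, by positivity, fun x hx => ?_⟩
  have hx0 : 0 < x := by linarith
  set n := ⌊x⌋₊ with hn
  have hn4 : 4 ≤ n := Nat.le_floor (by exact_mod_cast hx)
  have hn4' : (4 : ℝ) ≤ n := by exact_mod_cast hn4
  have hnx : (n : ℝ) ≤ x := Nat.floor_le hx0.le
  have hxn : x < n + 1 := Nat.lt_floor_add_one x
  have hln : 0 < Real.log n := Real.log_pos (by linarith)
  have hlx : 0 < Real.log x := Real.log_pos (by linarith)
  have hlnx : Real.log n ≤ Real.log x := Real.log_le_log (by linarith) hnx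
  have hlx2 : Real.log x / 2 ≤ Real.log n := by
    have h1 : x ≤ (n : ℝ) ^ 2 := by nlinarith
    have h2 := Real.log_le_log hx0 h1
    rw [Real.log_pow] at h2
    push_cast at h2
    linarith
  have hl1 : 1 ≤ Real.log x := by
    rw [Real.le_log_iff_exp_le hx0]
    linarith [Real.exp_one_lt_d9]
  have hln1 : 1 ≤ Real.log n := by
    rw [Real.le_log_iff_exp_le (by linarith)]
    linarith [Real.exp_one_lt_d9]
  have h1 := h n (by omega)
  have h2 : (n : ℝ) / Real.log n ^ 2 ≤ 4 * (x / Real.log x ^ 2) := by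
    calc (n : ℝ) / Real.log n ^ 2 ≤ x / (Real.log x / 2) ^ 2 := by gcongr
      _ = _ := by rw [div_pow]; field_simp; norm_num
  have h3 : 1 ≤ 4 * (x / Real.log x ^ 2) := by
    have h6 := Real.log_le_sub_one_of_pos (Real.sqrt_pos.2 hx0)
    rw [Real.log_sqrt hx0.le] at h6
    have h7 : Real.log x ≤ 2 * √x := by linarith
    have h8 : Real.log x ^ 2 ≤ 4 * x := by
      calc Real.log x ^ 2 ≤ (2 * √x) ^ 2 := pow_le_pow_left₀ hlx.le h7 2
        _ = 4 * x := by rw [mul_pow, Real.sq_sqrt hx0.le]; norm_num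
    rw [← mul_div_assoc, le_div_iff₀ (by positivity)]
    linarith
  have h4 : |(n : ℝ) / Real.log n - x / Real.log x| ≤ 1 := by
    have e1 : x / Real.log x - n / Real.log x ≤ 1 := by
      rw [← sub_div, div_le_iff₀ hlx]
      linarith
    have e2 : (n : ℝ) / Real.log x ≤ n / Real.log n := by gcongr
    have e3 : (n : ℝ) / Real.log x ≤ x / Real.log x := by gcongr
    have hll : Real.log x ≤ Real.log ((n + 1 : ℕ) : ℝ) :=
      Real.log_le_log hx0 (by push_cast; linarith)
    have e4 : 1 / Real.log ((n + 1 : ℕ) : ℝ) ≤ 1 / Real.log x := one_div_le_one_div_of_le hlx hll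
    have e5 := step n (by omega)
    have e6 : (n : ℝ) * (1 / Real.log n - 1 / Real.log x) ≤ 1 := by
      calc (n : ℝ) * (1 / Real.log n - 1 / Real.log x) ≤ n * (1 / (n * Real.log n ^ 2)) :=
            mul_le_mul_of_nonneg_left (by linarith) (by linarith)
        _ = 1 / Real.log n ^ 2 := by
            have : (n : ℝ) ≠ 0 := by linarith
            field_simp
        _ ≤ 1 := by
            rw [div_le_iff₀ (by positivity)]
            nlinarith
    have e7 : (n : ℝ) * (1 / Real.log n - 1 / Real.log x) = n / Real.log n - n / Real.log x := by ring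
    rw [e7] at e6
    rw [abs_le]
    constructor <;> linarith
  have e : (Nat.primeCounting n : ℝ) - x / Real.log x =
      ((Nat.primeCounting n : ℝ) - n / Real.log n) + (n / Real.log n - x / Real.log x) := by ring
  rw [e]
  refine (abs_add_le _ _).trans ?_
  have e2 : (4 * C + 12) * (x / Real.log x ^ 2) = C * (4 * (x / Real.log x ^ 2)) +
    3 * (4 * (x / Real.log x ^ 2)) := by ring
  rw [e2]
  have h5 := mul_le_mul_of_nonneg_left h2 hC.le
  linarith

/-- one smooth factor -/
lemma inner_rate : ∃ C : ℝ, 0 < C ∧ ∀ x L D : ℝ, 4 ≤ x → L / 2 ≤ Real.log x → Real.log x ≤ L →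
    L - D ≤ Real.log x → 0 < L → 0 ≤ D →
    |(Nat.primeCounting ⌊x⌋₊ : ℝ) - x / L| ≤ (C + 2 * D) / L * (x / L) := by
  obtain ⟨C, hC, h⟩ := pi_real
  refine ⟨4 * C, by positivity, fun x L D hx h1 h2 h3 hL hD => ?_⟩
  have hx0 : 0 < x := by linarith
  have hlx : 0 < Real.log x := by linarith
  have h4 := h x hx
  have h5 : C * (x / Real.log x ^ 2) ≤ (4 * C) / L * (x / L) := by
    calc C * (x / Real.log x ^ 2) ≤ C * (x / (L / 2) ^ 2) := by gcongr
      _ = _ := by rw [div_pow]; field_simp; norm_num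
  have h6 : |x / Real.log x - x / L| ≤ (2 * D) / L * (x / L) := by
    have e : x / Real.log x - x / L = (x / L) * ((L - Real.log x) / Real.log x) := by
      field_simp
    rw [e, abs_of_nonneg (mul_nonneg (by positivity) (div_nonneg (by linarith) hlx.le)), mul_comm]
    refine mul_le_mul_of_nonneg_right ?_ (by positivity)
    calc (L - Real.log x) / Real.log x ≤ D / (L / 2) :=
          div_le_div₀ hD (by linarith) (by positivity) h1
      _ = _ := by field_simp
  have e : (Nat.primeCounting ⌊x⌋₊ : ℝ) - x / L =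
      ((Nat.primeCounting ⌊x⌋₊ : ℝ) - x / Real.log x) + (x / Real.log x - x / L) := by ring
  rw [e]
  refine (abs_add_le _ _).trans ?_
  have e2 : (4 * C + 2 * D) / L * (x / L) = (4 * C) / L * (x / L) + (2 * D) / L * (x / L) := by ring
  rw [e2]
  linarith

end Pool.Agent.Q160.TA
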