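import Mathlib
import Pool.Agent.Q160.TA1

set_option autoImplicit false

/-!
# The mean over the units modulo `b ^ q`, with an error term: main part
-/

namespace Pool.Agent.Q160.TA

open Finset Filter Topology MeasureTheory
open Pool.Agent.W66L
open Pool.Agent.H305R2 (roughPart SM SM_pos SMz mem_SMz ZZ VV tail_le ZZ_nonneg VV_nonneg
  log_nat_tendsto)
open Pool.Agent.TH888.R (VV_rate ZZ_rate)

lemma ev_small {c : ℝ} (hc : 0 < c) : ∀ᶠ q : ℕ in atTop, Real.log q ≤ c * q := by
  have h1 := (Real.isLittleO_log_id_atTop).bound hc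
  have h2 : ∀ᶠ x : ℝ in atTop, Real.log x ≤ c * x := by
    filter_upwards [h1, eventually_ge_atTop 1] with x hx hx1
    rw [Real.norm_of_nonneg (Real.log_nonneg hx1), id, Real.norm_of_nonneg (by linarith)] at hx
    exact hx
  exact tendsto_natCast_atTop_atTop.eventually h2

lemma ev_sq : ∀ᶠ q : ℕ in atTop, Real.log q ^ 2 ≤ (q : ℝ) := by
  have h1 := (Real.isLittleO_pow_log_id_atTop (n := 2)).bound (show (0 : ℝ) < 1 by norm_num)
  have h2 : ∀ᶠ x : ℝ in atTop, Real.log x ^ 2 ≤ x := by
    filter_upwards [h1, eventually_ge_atTop 1] with x hx hx1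
    rw [Real.norm_of_nonneg (by positivity), id, Real.norm_of_nonneg (by linarith), one_mul] at hx
    exact hx
  exact tendsto_natCast_atTop_atTop.eventually h2

/-- the sum over the integers below `b ^ q` prime to `b` with prime rough part -/
theorem AA_core {b : ℕ} (hb : 2 ≤ b) : ∃ E : ℝ, 0 < E ∧ ∀ᶠ q : ℕ in atTop,
    |AA b q / (b : ℝ) ^ q - VB b q / (Real.log b * q)| ≤
      E / Real.log q * (VB b q / (Real.log b * q)) + E / q := by
  obtain ⟨C, hC, hin⟩ := inner_rate
  obtain ⟨C2, hC2, hZ⟩ := ZZ_rate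
  set lb := Real.log b with hlb
  have hlb0 : 0 < lb := Real.log_pos (by exact_mod_cast hb)
  set E1 := (C + 2 + 4 * (C2 + 1)) / lb with hE1
  have hE10 : 0 < E1 := by positivity
  refine ⟨E1 + 2, by positivity, ?_⟩
  filter_upwards [log_nat_tendsto.eventually_ge_atTop (max (max 1 E1) (16 * (C2 + 1) / lb)), ev_sq,
    ev_small (c := lb / 4) (by positivity),
    (tendsto_natCast_atTop_atTop (R := ℝ)).eventually_ge_atTop (4 / lb), eventually_ge_atTop b]
    with q h1 h2 h3 h4 h5
  set l := Real.log q with hl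
  have hl1 : 1 ≤ l := ((le_max_left _ _).trans (le_max_left _ _)).trans h1
  have hlE : E1 ≤ l := ((le_max_right _ _).trans (le_max_left _ _)).trans h1
  have hlC : 16 * (C2 + 1) / lb ≤ l := (le_max_right _ _).trans h1
  have hl0 : 0 < l := by linarith
  have hq2 : 2 ≤ q := hb.trans h5
  have hq2' : (2 : ℝ) ≤ q := by exact_mod_cast hq2
  have hq0 : (0 : ℝ) < q := by linarith
  have hlq : l ≤ q := by
    have := Real.log_le_sub_one_of_pos hq0
    linarith
  set L := lb * q with hL
  have hL0 : 0 < L := by positivity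
  have hL4 : 4 ≤ L := by
    rw [div_le_iff₀ hlb0] at h4
    linarith
  set T := 2 * (C2 + 1) * (q / l) with hT
  have hT0 : 0 < T := by positivity
  have hTL : T ≤ L / 8 := by
    rw [div_le_iff₀ hlb0] at hlC
    have : T * l ≤ L / 8 * l := by
      rw [hT, hL]
      have e : 2 * (C2 + 1) * (q / l) * l = 2 * (C2 + 1) * q := by field_simp
      rw [e]
      nlinarith
    exact le_of_mul_le_mul_right this hl0
  have hT1 : T + 1 ≤ L / 2 := by linarith
  set X := b ^ q - 1 with hX
  have hbr : (2 : ℝ) ≤ b := by exact_mod_cast hb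
  have hbq : (b : ℝ) ^ q = Real.exp L := by
    rw [hL, mul_comm, Real.exp_nat_mul, hlb, Real.exp_log (by linarith)]
  have hXr : (X : ℝ) = (b : ℝ) ^ q - 1 := by
    rw [hX, Nat.cast_sub (Nat.one_le_pow _ _ (by omega))]
    push_cast
    rfl
  have hXle : (X : ℝ) ≤ (b : ℝ) ^ q := by linarith
  have hbq0 : (0 : ℝ) < (b : ℝ) ^ q := by rw [hbq]; exact Real.exp_pos _
  have hbqq : (q : ℝ) ≤ (b : ℝ) ^ q := by
    have h6 : q < 2 ^ q := Nat.lt_two_pow_self
    have h7 : (q : ℝ) ≤ 2 ^ q := by exact_mod_cast h6.le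
    exact h7.trans (pow_le_pow_left₀ (by norm_num) hbr q)
  have hXhalf : (b : ℝ) ^ q / 2 ≤ X := by
    rw [hXr]; linarith
  have hXnn : (0 : ℝ) ≤ X := Nat.cast_nonneg _
  have hX0 : (0 : ℝ) < X := by linarith
  set S := Real.exp T with hS
  have hS0 : 0 < S := Real.exp_pos _
  have hS1 : 1 ≤ S := Real.one_le_exp hT0.le
  set η := (C + 2 * (T + 1)) / L with hη
  have hη0 : 0 ≤ η := by positivity
  have hηE : η ≤ E1 / l := by
    rw [hη, hE1, div_le_div_iff₀ hL0 hl0]
    have e : (C + 2 + 4 * (C2 + 1)) / lb * L = (C + 2 + 4 * (C2 + 1)) * q := by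
      rw [hL]; field_simp
    rw [e]
    have e2 : (C + 2 * (T + 1)) * l = (C + 2) * l + 4 * (C2 + 1) * q := by
      rw [hT]; field_simp; ring
    rw [e2]
    nlinarith
  have hη1 : η ≤ 1 := by
    refine hηE.trans ?_
    rw [div_le_one hl0]
    exact hlE
  -- the tail
  have hTail : Real.exp (-(T / 2)) * ZZ q ≤ 1 / q := by
    calc Real.exp (-(T / 2)) * ZZ q ≤ Real.exp (-((C2 + 1) * (q / l))) * Real.exp (C2 * (q / l)) := by
          refine mul_le_mul (Real.exp_le_exp.2 ?_) (hZ q hq2) (ZZ_nonneg q) (Real.exp_pos _).le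
          rw [hT]
          linarith
      _ = Real.exp (-(q / l)) := by rw [← Real.exp_add]; congr 1; ring
      _ ≤ Real.exp (-l) := by
          refine Real.exp_le_exp.2 (neg_le_neg ?_)
          rw [le_div_iff₀ hl0, ← sq]
          exact h2
      _ = 1 / q := by rw [Real.exp_neg, hl, Real.exp_log hq0, one_div]
  -- the terms
  have hxfacts : ∀ s : ℕ, 0 < s → (s : ℝ) ≤ S →
      |(Nat.primeCounting (X / s) : ℝ) - (X : ℝ) / s / L| ≤ η * ((X : ℝ) / s / L) := by
    intro s hs hsS
    have hs0 : (0 : ℝ) < s := by exact_mod_cast hs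
    have hs1 : (1 : ℝ) ≤ s := by exact_mod_cast hs
    set x := (X : ℝ) / s with hx
    have hfl : X / s = ⌊x⌋₊ := by rw [hx, Nat.floor_div_eq_div]
    have hx0 : 0 < x := by positivity
    have hlogx : Real.log x = Real.log X - Real.log s := by
      rw [hx, Real.log_div hX0.ne' hs0.ne']
    have hlogs0 : 0 ≤ Real.log s := Real.log_nonneg hs1
    have hlogs : Real.log s ≤ T := by
      rw [Real.log_le_iff_le_exp hs0]
      exact hsS
    have hlogX1 : Real.log X ≤ L := by
      rw [Real.log_le_iff_le_exp hX0, ← hbq]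
      exact hXle
    have hlogX2 : L - 1 ≤ Real.log X := by
      rw [Real.le_log_iff_exp_le hX0]
      refine le_trans ?_ hXhalf
      rw [Real.exp_sub, ← hbq]
      have := Real.exp_one_gt_d9
      gcongr
      linarith
    have h6 : L - (T + 1) ≤ Real.log x := by rw [hlogx]; linarith
    have h7 : L / 2 ≤ Real.log x := by linarith
    have h8 : 4 ≤ x := by
      have h9 : 2 ≤ Real.log x := by linarith
      rw [Real.le_log_iff_exp_le hx0] at h9
      have h10 : (4 : ℝ) ≤ Real.exp 2 := by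
        have h11 : Real.exp 2 = Real.exp 1 * Real.exp 1 := by rw [← Real.exp_add]; norm_num
        rw [h11]
        have := Real.exp_one_gt_d9
        nlinarith
      linarith
    rw [hfl]
    exact hin x L (T + 1) h8 h7 (by rw [hlogx]; linarith) h6 hL0 (by linarith)
  have hc0 : ∀ s : ℕ, copHom b s = (if s.Coprime b then (1 : ℝ) else 0) * (s : ℝ)⁻¹ := by
    intro s
    rw [copHom_apply]
    split_ifs <;> simp
  have hi0 : ∀ s : ℕ, (0 : ℝ) ≤ (if s.Coprime b then (1 : ℝ) else 0) := by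
    intro s
    split_ifs <;> norm_num
  have hi1 : ∀ s : ℕ, (if s.Coprime b then (1 : ℝ) else 0) ≤ (1 : ℝ) := by
    intro s
    split_ifs <;> norm_num
  -- upper bound
  have hup : AA b q ≤ (b : ℝ) ^ q * ((1 + η) * (VB b q / L) + 1 / q) := by
    rw [AA_eq hb h5, ← Finset.sum_filter_add_sum_filter_not (SMz q (X : ℝ)) (fun s : ℕ => (s : ℝ) ≤ S),
      mul_add]
    apply add_le_add
    · have hF : ∀ n ∈ (SMz q (X : ℝ)).filter (fun s : ℕ => (s : ℝ) ≤ S), n ∈ SM q := by
        intro n hn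
        rw [Finset.mem_filter, mem_SMz hXnn] at hn
        exact hn.1.1
      have hterm : ∀ s ∈ (SMz q (X : ℝ)).filter (fun s : ℕ => (s : ℝ) ≤ S),
          (if s.Coprime b then (1 : ℝ) else 0) *
            (((Finset.Ioc 0 (X / s)).filter (fun l => l.Prime ∧ q < l)).card : ℝ) ≤
          (b : ℝ) ^ q * ((1 + η) / L) * copHom b s := by
        intro s hs
        rw [Finset.mem_filter, mem_SMz hXnn] at hs
        obtain ⟨⟨hs1, _⟩, hsS⟩ := hs
        have hs0 : 0 < s := SM_pos hs1
        have hs0' : (0 : ℝ) < s := by exact_mod_cast hs0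
        have h6 := (abs_le.1 (hxfacts s hs0 hsS)).2
        have h7 := card_inner_le (X / s) q
        have h8 : (((Finset.Ioc 0 (X / s)).filter (fun l => l.Prime ∧ q < l)).card : ℝ) ≤
            (b : ℝ) ^ q * ((1 + η) / L) * (s : ℝ)⁻¹ := by
          calc _ ≤ (Nat.primeCounting (X / s) : ℝ) := h7
            _ ≤ (1 + η) * ((X : ℝ) / s / L) := by linarith
            _ ≤ (1 + η) * ((b : ℝ) ^ q / s / L) := by gcongr
            _ = _ := by ring
        rw [hc0]
        calc _ ≤ (if s.Coprime b then (1 : ℝ) else 0) * ((b : ℝ) ^ q * ((1 + η) / L) * (s : ℝ)⁻¹) :=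
              mul_le_mul_of_nonneg_left h8 (hi0 s)
          _ = _ := by ring
      refine (Finset.sum_le_sum hterm).trans ?_
      rw [← Finset.mul_sum]
      have h3 := sum_le_VB b q _ hF
      calc (b : ℝ) ^ q * ((1 + η) / L) *
            ∑ s ∈ (SMz q (X : ℝ)).filter (fun s : ℕ => (s : ℝ) ≤ S), copHom b s ≤
          (b : ℝ) ^ q * ((1 + η) / L) * VB b q := by gcongr
        _ = _ := by ring
    · have hterm : ∀ s ∈ (SMz q (X : ℝ)).filter (fun s : ℕ => ¬ (s : ℝ) ≤ S),
          (if s.Coprime b then (1 : ℝ) else 0) *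
            (((Finset.Ioc 0 (X / s)).filter (fun l => l.Prime ∧ q < l)).card : ℝ) ≤
          (b : ℝ) ^ q * (s : ℝ)⁻¹ := by
        intro s _
        have h3 : (((Finset.Ioc 0 (X / s)).filter (fun l => l.Prime ∧ q < l)).card : ℝ) ≤
            (X : ℝ) * (s : ℝ)⁻¹ := by
          have h4 : ((Finset.Ioc 0 (X / s)).filter (fun l => l.Prime ∧ q < l)).card ≤ X / s := by
            refine (Finset.card_filter_le _ _).trans ?_
            rw [Nat.card_Ioc, Nat.sub_zero]
          rw [← div_eq_mul_inv]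
          exact le_trans (by exact_mod_cast h4) Nat.cast_div_le
        calc _ ≤ 1 * ((X : ℝ) * (s : ℝ)⁻¹) := mul_le_mul (hi1 s) h3 (by positivity) (by norm_num)
          _ ≤ _ := by
            rw [one_mul]
            exact mul_le_mul_of_nonneg_right hXle (by positivity)
      refine (Finset.sum_le_sum hterm).trans ?_
      rw [← Finset.mul_sum]
      apply mul_le_mul_of_nonneg_left _ (by positivity)
      have h3 := tail_le q hS0 ((SMz q (X : ℝ)).filter (fun s : ℕ => ¬ (s : ℝ) ≤ S)) (by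
        intro n hn
        rw [Finset.mem_filter, mem_SMz hXnn] at hn
        exact ⟨hn.1.1, (not_le.1 hn.2).le⟩)
      refine h3.trans (le_trans (le_of_eq ?_) hTail)
      rw [hS, ← Real.exp_mul]
      ring_nf
  -- lower bound
  have hSX : S ≤ X := by
    refine le_trans ?_ hXhalf
    rw [hbq, hS]
    have e : Real.exp L = Real.exp T * Real.exp (L - T) := by rw [← Real.exp_add]; ring_nf
    rw [e]
    have : 2 ≤ Real.exp (L - T) := by
      have := Real.add_one_le_exp (L - T)
      linarith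
    nlinarith [Real.exp_pos T]
  have hlow : X * ((1 - η) * ((VB b q - 1 / q) / L)) - S * q ≤ AA b q := by
    rw [AA_eq hb h5]
    have hsub : SMz q S ⊆ SMz q (X : ℝ) := by
      intro n hn
      rw [mem_SMz hS0.le] at hn
      rw [mem_SMz hXnn]
      exact ⟨hn.1, hn.2.trans hSX⟩
    refine le_trans ?_ (Finset.sum_le_sum_of_subset_of_nonneg hsub fun i _ _ => by
      split_ifs <;> positivity)
    have hterm : ∀ s ∈ SMz q S, (X : ℝ) * ((1 - η) / L) * copHom b s - q ≤
        (if s.Coprime b then (1 : ℝ) else 0) *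
          (((Finset.Ioc 0 (X / s)).filter (fun l => l.Prime ∧ q < l)).card : ℝ) := by
      intro s hs
      rw [mem_SMz hS0.le] at hs
      obtain ⟨hs1, hsS⟩ := hs
      have hs0 : 0 < s := SM_pos hs1
      have hs0' : (0 : ℝ) < s := by exact_mod_cast hs0
      have h6 := (abs_le.1 (hxfacts s hs0 hsS)).1
      have h7 := le_card_inner (X / s) q
      have h8 : (X : ℝ) * ((1 - η) / L) * (s : ℝ)⁻¹ - q ≤
          (((Finset.Ioc 0 (X / s)).filter (fun l => l.Prime ∧ q < l)).card : ℝ) := by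
        have e : (X : ℝ) * ((1 - η) / L) * (s : ℝ)⁻¹ = (X : ℝ) / s / L - η * ((X : ℝ) / s / L) := by ring
        rw [e]
        linarith
      rw [hc0]
      have h9 := mul_le_mul_of_nonneg_left h8 (hi0 s)
      have h10 := mul_le_mul_of_nonneg_right (hi1 s) hq0.le
      calc (X : ℝ) * ((1 - η) / L) * ((if s.Coprime b then (1 : ℝ) else 0) * (s : ℝ)⁻¹) - q ≤
          (if s.Coprime b then (1 : ℝ) else 0) * ((X : ℝ) * ((1 - η) / L) * (s : ℝ)⁻¹ - q) := by
            rw [mul_sub]
            linarith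
        _ ≤ _ := h9
    refine le_trans ?_ (Finset.sum_le_sum hterm)
    rw [Finset.sum_sub_distrib, ← Finset.mul_sum, Finset.sum_const, nsmul_eq_mul]
    have hcard : ((SMz q S).card : ℝ) * q ≤ S * q := by
      apply mul_le_mul_of_nonneg_right _ hq0.le
      have h5 : (SMz q S).card ≤ (Finset.Ioc 0 ⌊S⌋₊).card := by
        apply Finset.card_le_card
        intro n hn
        rw [mem_SMz hS0.le] at hn
        rw [Finset.mem_Ioc]
        exact ⟨SM_pos hn.1, (Nat.le_floor_iff hS0.le).2 hn.2⟩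
      rw [Nat.card_Ioc, Nat.sub_zero] at h5
      exact le_trans (by exact_mod_cast h5) (Nat.floor_le hS0.le)
    have hV := VB_le b q hS0
    have e1 : S ^ (-(1 / 2) : ℝ) * ZZ q ≤ 1 / q := by
      refine le_trans (le_of_eq ?_) hTail
      rw [hS, ← Real.exp_mul]
      ring_nf
    have h11 : (VB b q - 1 / q) ≤ ∑ n ∈ SMz q S, copHom b n := by linarith
    have h12 : X * ((1 - η) * ((VB b q - 1 / q) / L)) ≤
        (X : ℝ) * ((1 - η) / L) * ∑ n ∈ SMz q S, copHom b n := by
      have e2 : (X : ℝ) * ((1 - η) * ((VB b q - 1 / q) / L)) =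
          (X : ℝ) * ((1 - η) / L) * (VB b q - 1 / q) := by ring
      rw [e2]
      refine mul_le_mul_of_nonneg_left h11 (mul_nonneg hXnn (div_nonneg (by linarith) hL0.le))
    linarith
  -- conclusion
  have hVB0 : 0 ≤ VB b q := by
    have := sum_le_VB b q ∅ (by simp)
    simpa using this
  have hup' : AA b q / (b : ℝ) ^ q ≤ (1 + η) * (VB b q / L) + 1 / q := by
    rw [div_le_iff₀ hbq0, mul_comm]
    exact hup
  have hSq : S * q / (b : ℝ) ^ q ≤ 1 / q := by
    rw [div_le_div_iff₀ hbq0 hq0, one_mul, hbq, hS]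
    have e : (q : ℝ) = Real.exp l := by rw [hl, Real.exp_log hq0]
    calc Real.exp T * (q : ℝ) * q = Real.exp (T + l + l) := by
          rw [Real.exp_add, Real.exp_add, ← e]
      _ ≤ Real.exp L := by
          refine Real.exp_le_exp.2 ?_
          have : l ≤ L / 4 := by rw [hL]; linarith
          linarith
  have hlow' : (1 - η) * (1 - 1 / q) * ((VB b q - 1 / q) / L) - 1 / q ≤ AA b q / (b : ℝ) ^ q ∨
      VB b q < 1 / q := by
    by_cases hv : VB b q < 1 / q
    · exact Or.inr hv
    · left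
      rw [not_lt] at hv
      have h6 : (1 - 1 / q) ≤ (X : ℝ) / (b : ℝ) ^ q := by
        rw [hXr, sub_div, div_self hbq0.ne']
        have : 1 / (b : ℝ) ^ q ≤ 1 / q := one_div_le_one_div_of_le hq0 hbqq
        linarith
      have h7 : 0 ≤ (1 - η) * ((VB b q - 1 / q) / L) :=
        mul_nonneg (by linarith) (div_nonneg (by linarith) hL0.le)
      have h8 := mul_le_mul_of_nonneg_right h6 h7
      have h9 := div_le_div_of_nonneg_right hlow hbq0.le
      rw [sub_div, mul_div_right_comm] at h9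
      have e : (1 - η) * (1 - 1 / (q : ℝ)) * ((VB b q - 1 / q) / L) =
        (1 - 1 / (q : ℝ)) * ((1 - η) * ((VB b q - 1 / q) / L)) := by ring
      rw [e]
      linarith
  have hVL0 : 0 ≤ VB b q / L := div_nonneg hVB0 hL0.le
  have h1q : 1 / (q : ℝ) ≤ 1 / l := one_div_le_one_div_of_le hl0 hlq
  have h1q0 : 0 < 1 / (q : ℝ) := by positivity
  have h1q1 : 1 / (q : ℝ) ≤ 1 := by rw [div_le_one hq0]; linarith
  have hqL : (1 / (q : ℝ)) / L ≤ 1 / q := by
    rw [div_le_iff₀ hL0]
    nlinarith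
  have hEE : (E1 + 2) / l * (VB b q / L) + (E1 + 2) / q =
      (E1 / l) * (VB b q / L) + 2 * (1 / l) * (VB b q / L) + (E1 + 2) * (1 / q) := by ring
  rw [hEE]
  have t1 : η * (VB b q / L) ≤ E1 / l * (VB b q / L) := mul_le_mul_of_nonneg_right hηE hVL0
  have t2 : 1 / (q : ℝ) * (VB b q / L) ≤ 1 / l * (VB b q / L) := mul_le_mul_of_nonneg_right h1q hVL0
  have t3 : 0 ≤ 1 / l * (VB b q / L) := by positivity
  have t4 : 0 < E1 * (1 / (q : ℝ)) := by positivity
  have t5 : 0 ≤ E1 / l * (VB b q / L) := by positivity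
  rw [abs_le]
  constructor
  · rcases hlow' with h6 | h6
    · have e : (1 - η) * (1 - 1 / (q : ℝ)) * ((VB b q - 1 / q) / L) =
          (1 - η) * (1 - 1 / (q : ℝ)) * (VB b q / L) -
            (1 - η) * (1 - 1 / (q : ℝ)) * ((1 / (q : ℝ)) / L) := by ring
      have h7 : (1 - η) * (1 - 1 / (q : ℝ)) ≤ 1 := by
        nlinarith [mul_nonneg hη0 h1q0.le]
      have h8 : 0 ≤ (1 - η) * (1 - 1 / (q : ℝ)) := mul_nonneg (by linarith) (by linarith)
      have h9 : (1 - η) * (1 - 1 / (q : ℝ)) * ((1 / (q : ℝ)) / L) ≤ 1 / q := by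
        calc (1 - η) * (1 - 1 / (q : ℝ)) * ((1 / (q : ℝ)) / L) ≤ 1 * ((1 / (q : ℝ)) / L) :=
              mul_le_mul_of_nonneg_right h7 (by positivity)
          _ ≤ _ := by rw [one_mul]; exact hqL
      have h10 : (1 - η - 1 / (q : ℝ)) * (VB b q / L) ≤ (1 - η) * (1 - 1 / (q : ℝ)) * (VB b q / L) := by
        refine mul_le_mul_of_nonneg_right ?_ hVL0
        nlinarith [mul_nonneg hη0 h1q0.le]
      have e2 : (1 - η - 1 / (q : ℝ)) * (VB b q / L) =
        VB b q / L - η * (VB b q / L) - 1 / (q : ℝ) * (VB b q / L) := by ring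
      rw [e] at h6
      linarith
    · have h7 : 0 ≤ AA b q / (b : ℝ) ^ q := div_nonneg (AA_nonneg b q) hbq0.le
      have h8 : VB b q / L ≤ 1 / q := by
        refine le_trans ?_ hqL
        exact div_le_div_of_nonneg_right h6.le hL0.le
      linarith
  · have e : (1 + η) * (VB b q / L) = VB b q / L + η * (VB b q / L) := by ring
    rw [e] at hup'
    linarith

/-- **The mean over the units modulo `b ^ q`, with an error term.** -/
theorem mq_rate {b : ℕ} (hb : 2 ≤ b) : ∃ K : ℝ, 0 < K ∧ ∀ᶠ q : ℕ in atTop,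
    |mq b q - Real.exp Real.eulerMascheroniConstant / Real.log b * (Real.log q / q)| ≤ K * (1 / q) := by
  obtain ⟨E, hE, h⟩ := AA_core hb
  obtain ⟨C1, hC1, hV⟩ := VV_rate
  set lb := Real.log b with hlb
  have hlb0 : 0 < lb := Real.log_pos (by exact_mod_cast hb)
  set G := Real.exp Real.eulerMascheroniConstant with hG
  have hG0 : 0 < G := Real.exp_pos _
  have hρ := tot_ratio_pos hb
  set ρ := (b.totient : ℝ) / b with hρdef
  refine ⟨C1 / lb + E * ((G + C1) / lb) + E / ρ, by positivity, ?_⟩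
  filter_upwards [h, log_nat_tendsto.eventually_ge_atTop 1, eventually_ge_atTop b] with q h1 h2 h3
  set l := Real.log q with hl
  have hl0 : 0 < l := by linarith
  have hq2 : 2 ≤ q := hb.trans h3
  have hq0 : (0 : ℝ) < q := by exact_mod_cast (by omega : 0 < q)
  have hbq0 : (0 : ℝ) < (b : ℝ) ^ q := by
    have : (0 : ℝ) < b := by exact_mod_cast (by omega : 0 < b)
    positivity
  have hmq : mq b q = AA b q / (b : ℝ) ^ q / ρ := by
    unfold mq
    rw [tot_pow hb (by omega), div_div]
  have hVB : VB b q = VV q * ρ := VB_eq hb h3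
  have hVV := hV q hq2
  have hVV2 : VV q ≤ (G + C1) * l := by
    have := (abs_le.1 hVV).2
    nlinarith
  have e1 : mq b q - G / lb * (l / q) =
      (AA b q / (b : ℝ) ^ q - VB b q / (lb * q)) / ρ + (VV q - G * l) / (lb * q) := by
    rw [hmq, hVB]
    field_simp
    ring
  rw [e1]
  refine (abs_add_le _ _).trans ?_
  have h4 : |(AA b q / (b : ℝ) ^ q - VB b q / (lb * q)) / ρ| ≤
      E * ((G + C1) / lb) * (1 / q) + E / ρ * (1 / q) := by
    rw [abs_div, abs_of_pos hρ, div_le_iff₀ hρ]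
    refine h1.trans ?_
    rw [hVB]
    have h5 : E / l * (VV q * ρ / (lb * q)) ≤ E / l * ((G + C1) * l * ρ / (lb * q)) := by gcongr
    refine (add_le_add_left h5 _).trans (le_of_eq ?_)
    field_simp
  have h5 : |(VV q - G * l) / (lb * q)| ≤ C1 / lb * (1 / q) := by
    rw [abs_div, abs_of_pos (show 0 < lb * (q : ℝ) by positivity)]
    calc |VV q - G * l| / (lb * q) ≤ C1 / (lb * q) := by gcongr
      _ = _ := by field_simp
  have e2 : (C1 / lb + E * ((G + C1) / lb) + E / ρ) * (1 / (q : ℝ)) = C1 / lb * (1 / q) +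
    E * ((G + C1) / lb) * (1 / q) + E / ρ * (1 / q) := by ring
  rw [e2]
  linarith

end Pool.Agent.Q160.TA
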