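import Mathlib
import Pool.Agent.Q160.TA3
import Pool.Agent.H295R3.Hoheisel

set_option autoImplicit false

/-!
# Integers with prime rough part in short intervals
-/

namespace Pool.Agent.Q160.TB

open Finset Filter Topology MeasureTheory
open Pool.Agent.W66L
open Pool.Agent.H305R2 (roughPart roughPart_prime roughPart_mul SM SM_pos SMz mem_SMz ZZ VV sum_rough_eq
  sum_le_VV tail_le ZZ_le_exp ZZ_nonneg VV_nonneg log_nat_tendsto)
open Pool.Agent.W66 (VV_le_log)

/-- primes in an interval, all positions -/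
lemma bt_int {A N : ℕ} (hN : 2 ≤ N) :
    (((Ioc A (A + N)).filter Nat.Prime).card : ℝ) ≤ 20 * (N / Real.log N) := by
  have h1 := Pool.Agent.W38.PR.bt_unif (a := A + 1) (q := 1) (N := N) le_rfl hN
  have h2 : (((1 : ℕ) : ℝ) / Nat.totient 1) = 1 := by simp
  rw [h2, mul_one] at h1
  refine le_trans ?_ h1
  have hinj : Set.InjOn (fun l => l - (A + 1)) ((Ioc A (A + N)).filter Nat.Prime : Set ℕ) := by
    intro l hl l' hl' h
    rw [Finset.mem_coe, mem_filter, mem_Ioc] at hl hl'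
    simp only at h
    omega
  rw [← Finset.card_image_of_injOn hinj]
  have hsub : ((Ioc A (A + N)).filter Nat.Prime).image (fun l => l - (A + 1)) ⊆
      (range N).filter (fun k => (A + 1 + k * 1).Prime) := by
    intro k hk
    rw [mem_image] at hk
    obtain ⟨l, hl, rfl⟩ := hk
    rw [mem_filter, mem_Ioc] at hl
    rw [mem_filter, mem_range]
    refine ⟨by omega, ?_⟩
    have e : A + 1 + (l - (A + 1)) * 1 = l := by omega
    rw [e]
    exact hl.2
  exact_mod_cast Finset.card_le_card hsub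

/-- sums of `rpi` over an interval -/
lemma sum_rpi_eq (q A H : ℕ) : ∑ m ∈ Ioc A (A + H), rpi q m =
    ∑ s ∈ SMz q ((A + H : ℕ) : ℝ),
      ∑ l ∈ (Ioc (A / s) ((A + H) / s)).filter (fun l => l.Prime ∧ q < l), (1 : ℝ) := by
  have h := sum_rough_eq q A (A + H) (fun _ => (1 : ℝ))
  simp only at h
  rw [← h, Finset.sum_filter]
  rfl

/-- **Upper bound in short intervals.** -/
theorem win_upper {κ : ℝ} (hκ : 0 < κ) : ∃ K : ℝ, 0 < K ∧ ∀ᶠ q : ℕ in atTop, ∀ A H : ℕ,
    Real.exp (κ * q) ≤ H → ((A + H : ℕ) : ℝ) ≤ (H : ℝ) ^ (9 / 8 : ℝ) →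
    ∑ m ∈ Ioc A (A + H), rpi q m ≤ K * H * (Real.log q / q) := by
  classical
  obtain ⟨C, hC, hVV⟩ := VV_le_log
  have hZZ := ZZ_le_exp (c := κ / 16) (by positivity)
  have hsm := exp_small2 (c := κ / 16) (by positivity)
  have hκq : ∀ᶠ q : ℕ in atTop, 4 / κ ≤ (q : ℝ) := tendsto_natCast_atTop_atTop.eventually_ge_atTop _
  refine ⟨120 / κ * C + 1, by positivity, ?_⟩
  filter_upwards [hVV, hZZ, hsm, hκq, eventually_ge_atTop 3] with q h1 h2 h3 h4 hq3 A H hH hAH
  have hq3' : (3 : ℝ) ≤ q := by exact_mod_cast hq3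
  have hq0 : (0 : ℝ) < q := by linarith
  have hκq4 : 4 ≤ κ * q := by
    rwa [div_le_iff₀ hκ, mul_comm] at h4
  have hlq0 : 0 < Real.log q := Real.log_pos (by linarith)
  have hw1 : Real.log q / q ≤ 1 := by
    rw [div_le_one hq0]
    have := Real.log_le_sub_one_of_pos hq0
    linarith
  have hw0 : 0 < Real.log q / q := by positivity
  have hHpos : (0 : ℝ) < H := lt_of_lt_of_le (Real.exp_pos _) hH
  have hlH : κ * q ≤ Real.log H := by
    rw [Real.le_log_iff_exp_le hHpos]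
    exact hH
  have hlH0 : 0 < Real.log H := by linarith
  have hH1 : (1 : ℝ) ≤ H := by
    have := Real.add_one_le_exp (κ * q)
    linarith
  have hH16 : (16 : ℝ) ≤ H := by
    refine le_trans ?_ hH
    have h5 : Real.exp 4 ≤ Real.exp (κ * q) := Real.exp_le_exp.2 hκq4
    have h6 : Real.exp 4 = Real.exp 1 ^ 4 := by rw [← Real.exp_nat_mul]; norm_num
    have h7 := Real.exp_one_gt_d9
    have h8 : (2 : ℝ) ^ 4 ≤ Real.exp 1 ^ 4 := by gcongr; linarith
    linarith
  set S : ℝ := (H : ℝ) ^ (1 / 2 : ℝ) with hS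
  have hS0 : 0 < S := Real.rpow_pos_of_pos hHpos _
  have hSS : S * S = H := by rw [hS, ← Real.rpow_add hHpos]; norm_num
  have hS4 : 4 ≤ S := by nlinarith
  rw [sum_rpi_eq, ← Finset.sum_filter_add_sum_filter_not _ (fun s : ℕ => (s : ℝ) ≤ S)]
  have hX0 : (0 : ℝ) ≤ ((A + H : ℕ) : ℝ) := Nat.cast_nonneg _
  -- small smooth part
  have hmain : ∑ s ∈ (SMz q ((A + H : ℕ) : ℝ)).filter (fun s : ℕ => (s : ℝ) ≤ S),
      ∑ l ∈ (Ioc (A / s) ((A + H) / s)).filter (fun l => l.Prime ∧ q < l), (1 : ℝ) ≤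
      120 / κ * C * H * (Real.log q / q) := by
    have hterm : ∀ s ∈ (SMz q ((A + H : ℕ) : ℝ)).filter (fun s : ℕ => (s : ℝ) ≤ S),
        ∑ l ∈ (Ioc (A / s) ((A + H) / s)).filter (fun l => l.Prime ∧ q < l), (1 : ℝ) ≤
        (120 * H / (κ * q)) * (s : ℝ)⁻¹ := by
      intro s hs
      rw [mem_filter, mem_SMz hX0] at hs
      have hs0 : 0 < s := SM_pos hs.1.1
      have hs0' : (0 : ℝ) < s := by exact_mod_cast hs0
      have hHs : S ≤ (H : ℝ) / s := by
        rw [le_div_iff₀ hs0']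
        calc S * s ≤ S * S := mul_le_mul_of_nonneg_left hs.2 hS0.le
          _ = H := hSS
      set N := H / s + 2 with hN
      have hNr1 : (H : ℝ) / s ≤ N := by
        rw [hN]
        push_cast
        have := Nat.lt_floor_add_one ((H : ℝ) / s)
        rw [Nat.floor_div_eq_div] at this
        linarith
      have hNr2 : (N : ℝ) ≤ 3 * (H / s) := by
        rw [hN]
        push_cast
        have : ((H / s : ℕ) : ℝ) ≤ (H : ℝ) / s := Nat.cast_div_le
        linarith
      rw [Finset.sum_const, nsmul_eq_mul, mul_one]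
      have hsub : (Ioc (A / s) ((A + H) / s)).filter (fun l => l.Prime ∧ q < l) ⊆
          (Ioc (A / s) (A / s + N)).filter Nat.Prime := by
        intro l hl
        rw [mem_filter, mem_Ioc] at hl ⊢
        refine ⟨⟨hl.1.1, hl.1.2.trans ?_⟩, hl.2.1⟩
  
        have h5 : (A + H) / s ≤ A / s + H / s + 1 := by
          rw [Nat.add_div hs0]
          split_ifs <;> omega
        omega
      have h5 : (((Ioc (A / s) (A / s + N)).filter Nat.Prime).card : ℝ) ≤ 20 * (N / Real.log N) :=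
        bt_int (by rw [hN]; exact Nat.le_add_left 2 _)
      have h6 : (((Ioc (A / s) ((A + H) / s)).filter (fun l => l.Prime ∧ q < l)).card : ℝ) ≤
          20 * (N / Real.log N) := le_trans (by exact_mod_cast Finset.card_le_card hsub) h5
      refine h6.trans ?_
      have hlN : κ * q / 2 ≤ Real.log N := by
        have h7 : Real.log S ≤ Real.log N := Real.log_le_log hS0 (hHs.trans hNr1)
        rw [hS, Real.log_rpow hHpos] at h7
        linarith
      have hκq0 : 0 < κ * q / 2 := by positivity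
      calc 20 * ((N : ℝ) / Real.log N) ≤ 20 * ((3 * (H / s)) / (κ * q / 2)) := by gcongr
        _ = _ := by field_simp; norm_num
    have hF : ∀ n ∈ (SMz q ((A + H : ℕ) : ℝ)).filter (fun s : ℕ => (s : ℝ) ≤ S), n ∈ SM q := by
      intro n hn
      rw [Finset.mem_filter, mem_SMz hX0] at hn
      exact hn.1.1
    calc _ ≤ ∑ s ∈ (SMz q ((A + H : ℕ) : ℝ)).filter (fun s : ℕ => (s : ℝ) ≤ S),
          (120 * H / (κ * q)) * (s : ℝ)⁻¹ := Finset.sum_le_sum hterm
      _ = (120 * H / (κ * q)) * ∑ s ∈ (SMz q ((A + H : ℕ) : ℝ)).filter (fun s : ℕ => (s : ℝ) ≤ S),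
          (s : ℝ)⁻¹ := by rw [Finset.mul_sum]
      _ ≤ (120 * H / (κ * q)) * (C * Real.log q) :=
          mul_le_mul_of_nonneg_left ((sum_le_VV q _ hF).trans h1) (by positivity)
      _ = _ := by field_simp
  -- large smooth part
  have hrest : ∑ s ∈ (SMz q ((A + H : ℕ) : ℝ)).filter (fun s : ℕ => ¬ (s : ℝ) ≤ S),
      ∑ l ∈ (Ioc (A / s) ((A + H) / s)).filter (fun l => l.Prime ∧ q < l), (1 : ℝ) ≤
      H * (Real.log q / q) := by
    have hterm : ∀ s ∈ (SMz q ((A + H : ℕ) : ℝ)).filter (fun s : ℕ => ¬ (s : ℝ) ≤ S),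
        ∑ l ∈ (Ioc (A / s) ((A + H) / s)).filter (fun l => l.Prime ∧ q < l), (1 : ℝ) ≤
        ((A + H : ℕ) : ℝ) * (s : ℝ)⁻¹ := by
      intro s hs
      rw [Finset.sum_const, nsmul_eq_mul, mul_one]
      calc (((Ioc (A / s) ((A + H) / s)).filter (fun l => l.Prime ∧ q < l)).card : ℝ) ≤
            ((Ioc (A / s) ((A + H) / s)).card : ℝ) := by
              exact_mod_cast Finset.card_filter_le _ _
        _ ≤ (((A + H) / s : ℕ) : ℝ) := by
              rw [Nat.card_Ioc]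
              exact_mod_cast Nat.sub_le _ _
        _ ≤ ((A + H : ℕ) : ℝ) / s := Nat.cast_div_le
        _ = _ := by rw [div_eq_mul_inv]
    have hF : ∀ n ∈ (SMz q ((A + H : ℕ) : ℝ)).filter (fun s : ℕ => ¬ (s : ℝ) ≤ S),
        n ∈ SM q ∧ S ≤ (n : ℝ) := by
      intro n hn
      rw [Finset.mem_filter, mem_SMz hX0] at hn
      exact ⟨hn.1.1, (not_le.1 hn.2).le⟩
    have hSm : S ^ (-(1 / 2) : ℝ) = (H : ℝ) ^ (-(1 / 4) : ℝ) := by
      rw [hS, ← Real.rpow_mul hHpos.le]
      norm_num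
    have hpow : ((A + H : ℕ) : ℝ) * (S ^ (-(1 / 2) : ℝ) * ZZ q) ≤ H * (Real.log q / q) := by
      rw [hSm]
      have hZ0 := ZZ_nonneg q
      have h5 : (H : ℝ) ^ (-(1 / 8) : ℝ) ≤ Real.exp (-(κ / 8 * q)) := by
        rw [Real.rpow_def_of_pos hHpos]
        refine Real.exp_le_exp.2 ?_
        nlinarith
      calc ((A + H : ℕ) : ℝ) * ((H : ℝ) ^ (-(1 / 4) : ℝ) * ZZ q) ≤
            (H : ℝ) ^ (9 / 8 : ℝ) * ((H : ℝ) ^ (-(1 / 4) : ℝ) * Real.exp (κ / 16 * q)) := by
              gcongr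
        _ = H * ((H : ℝ) ^ (-(1 / 8) : ℝ) * Real.exp (κ / 16 * q)) := by
              have e1 : (H : ℝ) ^ (9 / 8 : ℝ) * (H : ℝ) ^ (-(1 / 4) : ℝ) =
                  H * (H : ℝ) ^ (-(1 / 8) : ℝ) := by
                have e2 : (H : ℝ) * (H : ℝ) ^ (-(1 / 8) : ℝ) =
                    (H : ℝ) ^ (1 : ℝ) * (H : ℝ) ^ (-(1 / 8) : ℝ) := by rw [Real.rpow_one]
                rw [e2, ← Real.rpow_add hHpos, ← Real.rpow_add hHpos]
                norm_num
              calc _ = (H : ℝ) ^ (9 / 8 : ℝ) * (H : ℝ) ^ (-(1 / 4) : ℝ) * Real.exp (κ / 16 * q) := by ring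
                _ = _ := by rw [e1]; ring
        _ ≤ H * (Real.exp (-(κ / 8 * q)) * Real.exp (κ / 16 * q)) := by gcongr
        _ = H * Real.exp (-(κ / 16 * q)) := by rw [← Real.exp_add]; ring_nf
        _ ≤ H * (Real.log q / q) ^ 2 := mul_le_mul_of_nonneg_left h3 hHpos.le
        _ ≤ H * (Real.log q / q) := by
              refine mul_le_mul_of_nonneg_left ?_ hHpos.le
              nlinarith
    calc _ ≤ ∑ s ∈ (SMz q ((A + H : ℕ) : ℝ)).filter (fun s : ℕ => ¬ (s : ℝ) ≤ S),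
          ((A + H : ℕ) : ℝ) * (s : ℝ)⁻¹ := Finset.sum_le_sum hterm
      _ = ((A + H : ℕ) : ℝ) * ∑ s ∈ (SMz q ((A + H : ℕ) : ℝ)).filter (fun s : ℕ => ¬ (s : ℝ) ≤ S),
          (s : ℝ)⁻¹ := by rw [Finset.mul_sum]
      _ ≤ ((A + H : ℕ) : ℝ) * (S ^ (-(1 / 2) : ℝ) * ZZ q) :=
          mul_le_mul_of_nonneg_left (tail_le q hS0 _ hF) hX0
      _ ≤ _ := hpow
  calc _ ≤ 120 / κ * C * H * (Real.log q / q) + H * (Real.log q / q) := add_le_add hmain hrest
    _ = _ := by ring

/-- **Lower bound in short intervals** (from Hoheisel's theorem). -/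
theorem win_lower : ∃ δ η : ℝ, 0 < δ ∧ δ ≤ 1 / 4 ∧ 0 < η ∧ ∀ κ : ℝ, 0 < κ → ∀ᶠ q : ℕ in atTop,
    ∀ A H : ℕ, Real.exp (κ * q) ≤ H → 2 * H ≤ A → ((A + H : ℕ) : ℝ) ^ (1 - δ / 2) ≤ H →
    η * H * (Real.log q / Real.log A) ≤ ∑ m ∈ Ioc A (A + H), rpi q m := by
  classical
  obtain ⟨δ₀, η, hδ₀, hδ₁, hη, X₀, hX₀, hH00⟩ := Pool.Agent.H295R3.D.hoheisel
  obtain ⟨δ, hδdef⟩ : ∃ δ, δ = min δ₀ (1 / 4) := ⟨_, rfl⟩
  have hδ : 0 < δ := by rw [hδdef]; exact lt_min hδ₀ (by norm_num)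
  have hδ4 : δ ≤ 1 / 4 := by rw [hδdef]; exact min_le_right _ _
  have hδδ : δ ≤ δ₀ := by rw [hδdef]; exact min_le_left _ _
  have hH0 : ∀ X Y : ℕ, X₀ ≤ X → (X : ℝ) ^ (1 - δ) ≤ Y → Y ≤ X →
      η * Y / Real.log X ≤ (((Ioc X (X + Y)).filter Nat.Prime).card : ℝ) := by
    intro X Y h1 h2 h3
    refine hH00 X Y h1 (le_trans ?_ h2) h3
    refine Real.rpow_le_rpow_of_exponent_le ?_ (by linarith)
    exact_mod_cast (by omega : 1 ≤ X)
  refine ⟨δ, η / 2, hδ, hδ4, by positivity, fun κ hκ => ?_⟩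
  -- polynomial versus exponential
  have hpoly : ∀ c : ℝ, 0 < c → ∀ᶠ q : ℕ in atTop, 4 * (q : ℝ) ≤ Real.exp (c * q) := by
    intro c hc
    have h1 : ∀ᶠ q : ℕ in atTop, 8 / c ^ 2 ≤ (q : ℝ) := tendsto_natCast_atTop_atTop.eventually_ge_atTop _
    filter_upwards [h1] with q hq
    rw [div_le_iff₀ (by positivity)] at hq
    have hq0 : (0 : ℝ) ≤ q := Nat.cast_nonneg q
    have h2 := Real.quadratic_le_exp_of_nonneg (show 0 ≤ c * q by positivity)
    have h3 : 0 ≤ c * q := by positivity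
    have h4 : 4 * (q : ℝ) ≤ (c * q) ^ 2 / 2 := by nlinarith
    linarith
  have hX0ev : ∀ᶠ q : ℕ in atTop, (X₀ : ℝ) + 1 ≤ q := tendsto_natCast_atTop_atTop.eventually_ge_atTop _
  have hpκ2 : ∀ᶠ q : ℕ in atTop, (q : ℝ) * (q + 1) ≤ Real.exp (κ * q) := by
    filter_upwards [hpoly (κ / 2) (by positivity), eventually_ge_atTop 1] with q hq hq1
    have hq1' : (1 : ℝ) ≤ q := by exact_mod_cast hq1
    have e : Real.exp (κ * q) = Real.exp (κ / 2 * q) * Real.exp (κ / 2 * q) := by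
      rw [← Real.exp_add]; ring_nf
    rw [e]
    have := mul_le_mul hq hq (by positivity) (Real.exp_pos _).le
    nlinarith
  filter_upwards [hpoly (κ * δ / 2) (by positivity), hpκ2, hX0ev, eventually_ge_atTop 3] with
    q h1 h2 h3 hq3 A H hH h2H hAH
  have hq3' : (3 : ℝ) ≤ q := by exact_mod_cast hq3
  have hq0 : (0 : ℝ) < q := by linarith
  have hHpos : (0 : ℝ) < H := lt_of_lt_of_le (Real.exp_pos _) hH
  have hHq : (q : ℝ) * (q + 1) ≤ H := h2.trans hH
  have h2Hr : 2 * (H : ℝ) ≤ A := by exact_mod_cast h2H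
  have hA0 : (0 : ℝ) < A := by linarith
  have hA1 : (1 : ℝ) < A := by nlinarith
  have hlA : 0 < Real.log A := Real.log_pos hA1
  have hX0 : (0 : ℝ) ≤ ((A + H : ℕ) : ℝ) := Nat.cast_nonneg _
  rw [sum_rpi_eq]
  -- restrict to `s ≤ q`
  have hsub : Icc 1 q ⊆ SMz q ((A + H : ℕ) : ℝ) := by
    intro s hs
    rw [mem_Icc] at hs
    rw [mem_SMz hX0]
    constructor
    · refine ⟨by omega, fun l hl => ?_⟩
      have := Nat.le_of_mem_primeFactorsList hl
      omega
    · have : (s : ℝ) ≤ q := by exact_mod_cast hs.2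
      push_cast
      nlinarith
  refine le_trans ?_ (Finset.sum_le_sum_of_subset_of_nonneg hsub fun s _ _ =>
    Finset.sum_nonneg fun l _ => by norm_num)
  have hterm : ∀ s ∈ Icc 1 q, η / 2 * H / Real.log A * (s : ℝ)⁻¹ ≤
      ∑ l ∈ (Ioc (A / s) ((A + H) / s)).filter (fun l => l.Prime ∧ q < l), (1 : ℝ) := by
    intro s hs
    rw [mem_Icc] at hs
    have hs0 : 0 < s := hs.1
    have hs0' : (0 : ℝ) < s := by exact_mod_cast hs0
    have hs1' : (1 : ℝ) ≤ s := by exact_mod_cast hs.1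
    have hsq : (s : ℝ) ≤ q := by exact_mod_cast hs.2
    set X := A / s with hX
    have hXA : X ≤ (A + H) / s := Nat.div_le_div_right (by omega)
    obtain ⟨Y, hY⟩ : ∃ Y, (A + H) / s = X + Y := ⟨(A + H) / s - X, by omega⟩
    have hXle : (X : ℝ) ≤ A / s := Nat.cast_div_le
    have hXge : (A : ℝ) / s < X + 1 := by
      have := Nat.lt_floor_add_one ((A : ℝ) / s)
      rwa [Nat.floor_div_eq_div] at this
    have hXYle : ((X + Y : ℕ) : ℝ) ≤ ((A + H : ℕ) : ℝ) / s := by rw [← hY]; exact Nat.cast_div_le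
    have hXYge : ((A + H : ℕ) : ℝ) / s < ((X + Y : ℕ) : ℝ) + 1 := by
      rw [← hY]
      have := Nat.lt_floor_add_one (((A + H : ℕ) : ℝ) / s)
      rwa [Nat.floor_div_eq_div] at this
    push_cast at hXYle hXYge
    rw [add_div] at hXYle hXYge
    have hAs : (q : ℝ) + 1 ≤ H / s := by
      rw [le_div_iff₀ hs0']
      nlinarith
    have hAs2 : 2 * ((H : ℝ) / s) ≤ A / s := by
      rw [← mul_div_assoc]
      exact div_le_div_of_nonneg_right h2Hr hs0'.le
    have hYge : (H : ℝ) / s - 1 ≤ Y := by linarith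
    have hYle : (Y : ℝ) ≤ H / s + 1 := by linarith
    have hYX : Y ≤ X := by
      have : (Y : ℝ) ≤ X := by linarith
      exact_mod_cast this
    have hX0X : X₀ ≤ X := by
      have : (X₀ : ℝ) ≤ X := by linarith
      exact_mod_cast this
    have hX1 : (1 : ℝ) < X := by linarith
    have hlX : 0 < Real.log X := Real.log_pos hX1
    have hpw : (X : ℝ) ^ (1 - δ) ≤ Y := by
      have hAHr : (A : ℝ) ≤ ((A + H : ℕ) : ℝ) := by push_cast; linarith
      have g1 : (X : ℝ) ^ (1 - δ) ≤ (A : ℝ) ^ (1 - δ) := by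
        refine Real.rpow_le_rpow (by linarith) ?_ (by linarith)
        refine hXle.trans ?_
        rw [div_le_iff₀ hs0']
        nlinarith
      have g2 : (A : ℝ) ^ (1 - δ) * (A : ℝ) ^ (δ / 2) ≤ H := by
        rw [← Real.rpow_add hA0]
        have e : 1 - δ + δ / 2 = 1 - δ / 2 := by ring
        rw [e]
        refine le_trans ?_ hAH
        exact Real.rpow_le_rpow hA0.le hAHr (by linarith)
      have g3 : Real.exp (κ * δ / 2 * q) ≤ (A : ℝ) ^ (δ / 2) := by
        have : Real.exp (κ * δ / 2 * q) = (Real.exp (κ * q)) ^ (δ / 2) := by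
          rw [← Real.exp_mul]; ring_nf
        rw [this]
        refine Real.rpow_le_rpow (Real.exp_pos _).le ?_ (by positivity)
        linarith
      have g4 : (1 : ℝ) ≤ (A : ℝ) ^ (1 - δ) := Real.one_le_rpow hA1.le (by linarith)
      have g5 : (A : ℝ) ^ (1 - δ) * (4 * q) ≤ H := by
        refine le_trans ?_ g2
        exact mul_le_mul_of_nonneg_left (h1.trans g3) (by linarith)
      have g6 : (A : ℝ) ^ (1 - δ) * 4 ≤ H / s := by
        rw [le_div_iff₀ hs0']
        calc (A : ℝ) ^ (1 - δ) * 4 * s ≤ (A : ℝ) ^ (1 - δ) * 4 * q := by gcongr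
          _ ≤ H := by linarith
      linarith
    have hhoh := hH0 X Y hX0X hpw hYX
    rw [Finset.sum_const, nsmul_eq_mul, mul_one]
    have hcard : (((Ioc X (X + Y)).filter Nat.Prime).card : ℝ) ≤
        (((Ioc X ((A + H) / s)).filter (fun l => l.Prime ∧ q < l)).card : ℝ) := by
      rw [hY]
      have : (Ioc X (X + Y)).filter Nat.Prime ⊆ (Ioc X (X + Y)).filter (fun l => l.Prime ∧ q < l) := by
        intro l hl
        rw [mem_filter, mem_Ioc] at hl ⊢
        refine ⟨hl.1, hl.2, ?_⟩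
        have hqX : q ≤ X := by
          have : (q : ℝ) ≤ X := by linarith
          exact_mod_cast this
        omega
      exact_mod_cast Finset.card_le_card this
    refine le_trans ?_ (hhoh.trans hcard)
    have hlXA : Real.log X ≤ Real.log A := by
      refine Real.log_le_log (by linarith) ?_
      refine hXle.trans ?_
      rw [div_le_iff₀ hs0']
      nlinarith
    calc η / 2 * H / Real.log A * (s : ℝ)⁻¹ = η * ((H / s) / 2) / Real.log A := by
          field_simp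
      _ ≤ η * Y / Real.log A := by
          have : (H : ℝ) / s / 2 ≤ Y := by linarith
          gcongr
      _ ≤ η * Y / Real.log X := by
          exact div_le_div_of_nonneg_left (by positivity) hlX hlXA
  refine le_trans ?_ (Finset.sum_le_sum hterm)
  rw [← Finset.mul_sum]
  have hharm : Real.log q ≤ ∑ s ∈ Icc 1 q, (s : ℝ)⁻¹ := by
    have h5 := log_add_one_le_harmonic q
    have h6 : ((harmonic q : ℚ) : ℝ) = ∑ s ∈ Icc 1 q, (s : ℝ)⁻¹ := by
      rw [harmonic_eq_sum_Icc]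
      push_cast
      rfl
    rw [h6] at h5
    refine le_trans (Real.log_le_log hq0 ?_) h5
    push_cast
    linarith
  calc η / 2 * H * (Real.log q / Real.log A) = η / 2 * H / Real.log A * Real.log q := by ring
    _ ≤ _ := mul_le_mul_of_nonneg_left hharm (by positivity)

end Pool.Agent.Q160.TB
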