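import Mathlib
import Pool.Agent.Q160.GK1
import Pool.Agent.Q160.GK5
import Pool.Agent.Q160.TB1

set_option autoImplicit false

/-!
# Simultaneous primes in vectors of intervals
-/

namespace Pool.Agent.Q160.GK

open Finset Filter
open Pool.Agent.H373R2.T7
open Pool.Agent.H305R2 (VV VV_tendsto)

/-- primes in intervals which are not too short -/
theorem primes_low : ∃ θ η : ℝ, 0 < θ ∧ θ < 1 ∧ 0 < η ∧ ∃ N0 : ℕ, ∀ X Y : ℕ, N0 ≤ Y →
    ((X + Y : ℕ) : ℝ) ^ θ ≤ Y → η * (Y / Real.log Y) ≤ (((Ioc X (X + Y)).filter Nat.Prime).card : ℝ) := by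
  obtain ⟨δ, η, hδ, hδ1, hη, X₀, hX₀, hH⟩ := Pool.Agent.H295R3.D.hoheisel
  have hT : Tendsto (fun N : ℕ => (N : ℝ) ^ (δ / 2)) atTop atTop :=
    (tendsto_rpow_atTop (by positivity)).comp tendsto_natCast_atTop_atTop
  obtain ⟨N1, hN1⟩ := eventually_atTop.1 (hT.eventually_ge_atTop 3)
  refine ⟨1 - δ / 2, η / 8, by linarith, by linarith, by positivity, max N1 (2 * X₀ + 6), fun X Y hY hXY => ?_⟩
  have hY1 : N1 ≤ Y := le_trans (le_max_left _ _) hY
  have hY2 : 2 * X₀ + 6 ≤ Y := le_trans (le_max_right _ _) hY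
  obtain ⟨Y', hY'⟩ : ∃ Y', Y' = Y / 2 := ⟨_, rfl⟩
  obtain ⟨Z, hZ⟩ : ∃ Z, Z = X + Y' := ⟨_, rfl⟩
  have hYr : (6 : ℝ) ≤ Y := by exact_mod_cast (by omega : 6 ≤ Y)
  have hXYr : (Y : ℝ) ≤ ((X + Y : ℕ) : ℝ) := by exact_mod_cast Nat.le_add_left _ _
  have hXY0 : (0 : ℝ) < ((X + Y : ℕ) : ℝ) := by linarith
  have hY'3 : (Y : ℝ) / 3 ≤ Y' := by
    have h1 : Y ≤ 3 * Y' := by omega
    have h2 : (Y : ℝ) ≤ 3 * Y' := by exact_mod_cast h1
    linarith
  have h3 : (3 : ℝ) ≤ ((X + Y : ℕ) : ℝ) ^ (δ / 2) := by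
    refine (hN1 Y hY1).trans (Real.rpow_le_rpow (by positivity) hXYr (by positivity))
  have h4 : ((X + Y : ℕ) : ℝ) ^ (1 - δ) * 3 ≤ Y := by
    calc ((X + Y : ℕ) : ℝ) ^ (1 - δ) * 3 ≤ ((X + Y : ℕ) : ℝ) ^ (1 - δ) * ((X + Y : ℕ) : ℝ) ^ (δ / 2) :=
          mul_le_mul_of_nonneg_left h3 (by positivity)
      _ = ((X + Y : ℕ) : ℝ) ^ (1 - δ / 2) := by
          rw [← Real.rpow_add hXY0]
          congr 1
          ring
      _ ≤ Y := hXY
  have hZr : (Z : ℝ) ≤ ((X + Y : ℕ) : ℝ) := by exact_mod_cast (by omega : Z ≤ X + Y)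
  have h5 : (Z : ℝ) ^ (1 - δ) ≤ Y' := by
    calc (Z : ℝ) ^ (1 - δ) ≤ ((X + Y : ℕ) : ℝ) ^ (1 - δ) := Real.rpow_le_rpow (by positivity) hZr (by linarith)
      _ ≤ Y' := by linarith
  have h6 := hH Z Y' (by omega) h5 (by omega)
  have h7 : (((Ioc Z (Z + Y')).filter Nat.Prime).card : ℝ) ≤ (((Ioc X (X + Y)).filter Nat.Prime).card : ℝ) := by
    have : (Ioc Z (Z + Y')).filter Nat.Prime ⊆ (Ioc X (X + Y)).filter Nat.Prime := by
      apply filter_subset_filter
      apply Ioc_subset_Ioc <;> omega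
    exact_mod_cast card_le_card this
  refine le_trans ?_ (h6.trans h7)
  have hlY : 0 < Real.log Y := Real.log_pos (by linarith)
  have hZ2 : (2 : ℝ) ≤ Z := by exact_mod_cast (by omega : 2 ≤ Z)
  have hlZ : 0 < Real.log Z := Real.log_pos (by linarith)
  have hlog : Real.log Z ≤ 2 * Real.log Y := by
    have h8 : Real.log (((X + Y : ℕ) : ℝ) ^ (1 - δ / 2)) ≤ Real.log Y :=
      Real.log_le_log (by positivity) hXY
    rw [Real.log_rpow hXY0] at h8
    have h9 : Real.log Z ≤ Real.log ((X + Y : ℕ) : ℝ) := Real.log_le_log (by linarith) hZr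
    have h10 : 1 / 2 * Real.log Z ≤ (1 - δ / 2) * Real.log ((X + Y : ℕ) : ℝ) :=
      mul_le_mul (by linarith) h9 hlZ.le (by linarith)
    linarith
  rw [← mul_div_assoc, div_le_div_iff₀ hlY hlZ]
  calc η / 8 * Y * Real.log Z ≤ η / 8 * Y * (2 * Real.log Y) := mul_le_mul_of_nonneg_left hlog (by positivity)
    _ = η * (Y / 4) * Real.log Y := by ring
    _ ≤ η * Y' * Real.log Y := by
        refine mul_le_mul_of_nonneg_right (mul_le_mul_of_nonneg_left ?_ hη.le) hlY.le
        linarith

lemma count_shift (t l h : ℕ) : ((Ioc l (l + h)).filter (fun b => (t + b).Prime)).card =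
    ((Ioc (t + l) (t + l + h)).filter Nat.Prime).card := by
  refine card_bij (fun b _ => t + b) ?_ ?_ ?_
  · intro b hb
    rw [mem_filter, mem_Ioc] at hb ⊢
    exact ⟨by omega, hb.2⟩
  · intro a _ b _ hab
    omega
  · intro p hp
    rw [mem_filter, mem_Ioc] at hp
    refine ⟨p - t, ?_, by omega⟩
    rw [mem_filter, mem_Ioc, show t + (p - t) = p by omega]
    exact ⟨by omega, hp.2⟩

lemma sum_dist (g : ℕ → ℝ) (hg : ∀ d, 0 ≤ g d) (y n : ℕ) (hn : n ∈ Ioc y (2 * y)) :
    ∑ m ∈ (Ioc y (2 * y)).erase n, g (max n m - min n m) ≤ 2 * ∑ d ∈ Icc 1 y, g d := by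
  rw [mem_Ioc] at hn
  rw [← Finset.sum_filter_add_sum_filter_not _ (fun m => m < n), two_mul (∑ d ∈ Icc 1 y, g d)]
  refine add_le_add ?_ ?_
  · calc ∑ m ∈ ((Ioc y (2 * y)).erase n).filter (fun m => m < n), g (max n m - min n m)
        = ∑ m ∈ ((Ioc y (2 * y)).erase n).filter (fun m => m < n), g (n - m) := by
          refine Finset.sum_congr rfl fun m hm => ?_
          rw [mem_filter] at hm
          rw [max_eq_left hm.2.le, min_eq_right hm.2.le]
      _ = ∑ d ∈ (((Ioc y (2 * y)).erase n).filter (fun m => m < n)).image (fun m => n - m), g d := by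
          rw [sum_image]
          intro a ha b hb hab
          rw [Finset.mem_coe, mem_filter] at ha hb
          simp only at hab
          omega
      _ ≤ ∑ d ∈ Icc 1 y, g d := by
          refine Finset.sum_le_sum_of_subset_of_nonneg ?_ fun d _ _ => hg d
          intro d hd
          rw [mem_image] at hd
          obtain ⟨m, hm, rfl⟩ := hd
          rw [mem_filter, mem_erase, mem_Ioc] at hm
          rw [mem_Icc]
          omega
  · calc ∑ m ∈ ((Ioc y (2 * y)).erase n).filter (fun m => ¬ m < n), g (max n m - min n m)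
        = ∑ m ∈ ((Ioc y (2 * y)).erase n).filter (fun m => ¬ m < n), g (m - n) := by
          refine Finset.sum_congr rfl fun m hm => ?_
          rw [mem_filter] at hm
          have := not_lt.1 hm.2
          rw [max_eq_right this, min_eq_left this]
      _ = ∑ d ∈ (((Ioc y (2 * y)).erase n).filter (fun m => ¬ m < n)).image (fun m => m - n), g d := by
          rw [sum_image]
          intro a ha b hb hab
          rw [Finset.mem_coe, mem_filter] at ha hb
          simp only at hab
          omega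
      _ ≤ ∑ d ∈ Icc 1 y, g d := by
          refine Finset.sum_le_sum_of_subset_of_nonneg ?_ fun d _ _ => hg d
          intro d hd
          rw [mem_image] at hd
          obtain ⟨m, hm, rfl⟩ := hd
          rw [mem_filter, mem_erase, mem_Ioc] at hm
          rw [mem_Icc]
          omega

open Classical in
/-- **The general theorem.** -/
theorem gen : ∃ θ C : ℝ, 0 < θ ∧ θ < 1 ∧ 1 ≤ C ∧ ∃ h0 : ℕ, ∀ k : ℕ, 1 ≤ k → ∀ a l h : Fin k → ℕ, ∀ y : ℕ, k ≤ y →
    (∀ i, h0 ≤ h i) → (∀ i, 1 ≤ a i) → (∀ i, (k : ℝ) ≤ Real.log (h i)) →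
    (∀ i, ((2 * a i * y + l i + h i : ℕ) : ℝ) ^ θ ≤ h i) →
    ∏ i, (C * (Real.log (h i) / (Real.log (k + 2) * gg k (a i)))) ≤ y →
    (C ^ k)⁻¹ * (((Fintype.piFinset (fun i => Ioc (l i) (l i + h i))).filter (fun b => Adm a b)).card : ℝ) ≤
      ((((Fintype.piFinset (fun i => Ioc (l i) (l i + h i))).filter (fun b => Adm a b ∧
        (y : ℝ) * ∏ i, (C * (Real.log (h i) / (Real.log (k + 2) * gg k (a i))))⁻¹ ≤
          (((Ioc y (2 * y)).filter (fun n => ∀ i, (a i * n + b i).Prime)).card : ℝ))).card : ℕ) : ℝ) := by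
  obtain ⟨θ, η, hθ, hθ1, hη, N0, hlow⟩ := primes_low
  obtain ⟨C2, h2, hC2, hpair⟩ := pair_sieve
  obtain ⟨cV, C3, hcV, hC3, hVV⟩ := VV_bounds
  obtain ⟨CA, hA, hCA, hadm⟩ := adm_upper ⌈1 / θ⌉₊
  obtain ⟨C4, hC4⟩ : ∃ C4 : ℝ, C4 = max C2 20 := ⟨_, rfl⟩
  have hC42 : C2 ≤ C4 := by rw [hC4]; exact le_max_left _ _
  have hC420 : 20 ≤ C4 := by rw [hC4]; exact le_max_right _ _
  obtain ⟨D, hD⟩ : ∃ D : ℝ, D = 4 * (2 * Real.exp 6 + 1) := ⟨_, rfl⟩
  have hD1 : 1 ≤ D := by
    rw [hD]
    have := Real.exp_pos 6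
    linarith
  obtain ⟨C, hC⟩ : ∃ C : ℝ, C = max (max 1 (2 * CA / η)) (max (1 / cV) (C4 * C3 * D * CA / η ^ 2)) := ⟨_, rfl⟩
  have hCa : 1 ≤ C := by rw [hC]; exact le_trans (le_max_left _ _) (le_max_left _ _)
  have hCb : 2 * CA / η ≤ C := by rw [hC]; exact le_trans (le_max_right _ _) (le_max_left _ _)
  have hCd : 1 / cV ≤ C := by rw [hC]; exact le_trans (le_max_left _ _) (le_max_right _ _)
  have hCc : C4 * C3 * D * CA / η ^ 2 ≤ C := by rw [hC]; exact le_trans (le_max_right _ _) (le_max_right _ _)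
  refine ⟨θ, C, hθ, hθ1, hCa, max (max N0 h2) (max 3 hA), fun k hk a l h y hky hh ha hkh hθh hyL => ?_⟩
  have hy : 1 ≤ y := hk.trans hky
  have hN0 : ∀ i, N0 ≤ h i := fun i => le_trans (le_trans (le_max_left _ _) (le_max_left _ _)) (hh i)
  have hh2 : ∀ i, h2 ≤ h i := fun i => le_trans (le_trans (le_max_right _ _) (le_max_left _ _)) (hh i)
  have hh3 : ∀ i, 3 ≤ h i := fun i => le_trans (le_trans (le_max_left _ _) (le_max_right _ _)) (hh i)
  have hhA : ∀ i, hA ≤ h i := fun i => le_trans (le_trans (le_max_right _ _) (le_max_right _ _)) (hh i)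
  have hh3r : ∀ i, (3 : ℝ) ≤ h i := fun i => by exact_mod_cast hh3 i
  have hL : ∀ i, 0 < Real.log (h i) := fun i => Real.log_pos (by linarith [hh3r i])
  have hy0 : (0 : ℝ) < y := by exact_mod_cast hy
  have hVk := one_le_VV k
  have hlk := log_two_add k
  -- the data
  obtain ⟨B, hB⟩ : ∃ B : Fin k → Finset ℕ, B = fun i => Ioc (l i) (l i + h i) := ⟨_, rfl⟩
  obtain ⟨P, hP⟩ : ∃ P : Fin k → ℕ → Finset ℕ, P = fun i n => (B i).filter (fun b => (a i * n + b).Prime) := ⟨_, rfl⟩
  have hPB : ∀ n ∈ Ioc y (2 * y), ∀ i, P i n ⊆ B i := fun n _ i => by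
    rw [hP]
    exact filter_subset _ _
  have hG : ∀ n ∈ Ioc y (2 * y), ∀ b : Fin k → ℕ, (∀ i, b i ∈ P i n) → Adm a b := by
    intro n hn b hb p hp
    rw [mem_Ioc] at hn
    rcases Nat.lt_or_ge k p with hkp | hkp
    · by_contra hcon
      push Not at hcon
      have h1 : ∀ n : Fin p, ∃ i : Fin k, p ∣ a i * n + b i := fun n => hcon n
      choose f hf using h1
      have hinj : Function.Injective f := by
        intro m m' hmm
        have h2 := hf m
        have h3 := hf m'
        rw [hmm] at h2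
        have hpa : ¬ p ∣ a (f m') := by
          intro hpa
          have hpb : p ∣ b (f m') := (Nat.dvd_add_right (Dvd.dvd.mul_right hpa _)).1 h3
          have h4 : p ∣ a (f m') * n + b (f m') := dvd_add (Dvd.dvd.mul_right hpa _) hpb
          have h5 := hb (f m')
          rw [hP] at h5
          have h6 := (mem_filter.1 h5).2
          have h7 := (Nat.prime_dvd_prime_iff_eq hp h6).1 h4
          have h8 : p ≤ a (f m') := Nat.le_of_dvd (by have := ha (f m'); omega) hpa
          have h9 : a (f m') * 1 ≤ a (f m') * n := Nat.mul_le_mul_left _ (by omega)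
          have h10 : b (f m') = 0 ∧ a (f m') * n = a (f m') := by omega
          have h11 := hb (f m')
          rw [hP, hB] at h11
          have h12 := mem_Ioc.1 (mem_filter.1 h11).1
          omega
        have h4 : a (f m') * m + b (f m') ≡ a (f m') * m' + b (f m') [MOD p] :=
          ((Nat.modEq_zero_iff_dvd.2 h2).trans (Nat.modEq_zero_iff_dvd.2 h3).symm)
        have h5 : a (f m') * m ≡ a (f m') * m' [MOD p] := Nat.ModEq.add_right_cancel' _ h4
        have h6 : (m : ℕ) ≡ m' [MOD p] := Nat.ModEq.cancel_left_of_coprime ((Nat.Prime.coprime_iff_not_dvd hp).2 hpa) h5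
        have h7 := Nat.ModEq.eq_of_lt_of_lt h6 m.2 m'.2
        exact Fin.ext h7
      have := Fintype.card_le_of_injective f hinj
      rw [Fintype.card_fin, Fintype.card_fin] at this
      omega
    · refine ⟨n, fun i hpd => ?_⟩
      have h5 := hb i
      rw [hP] at h5
      have h6 := (mem_filter.1 h5).2
      have h7 := (Nat.prime_dvd_prime_iff_eq hp h6).1 hpd
      have h8 : 1 * n ≤ a i * n := Nat.mul_le_mul_right _ (ha i)
      omega
  -- first moment
  have hPlow : ∀ n ∈ Ioc y (2 * y), ∀ i, η * (h i / Real.log (h i)) ≤ ((P i n).card : ℝ) := by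
    intro n hn i
    rw [mem_Ioc] at hn
    rw [hP, hB]
    simp only
    rw [count_shift]
    refine hlow _ _ (hN0 i) (le_trans (Real.rpow_le_rpow (by positivity) ?_ hθ.le) (hθh i))
    have : a i * n + l i + h i ≤ 2 * a i * y + l i + h i := by
      have : a i * n ≤ a i * (2 * y) := Nat.mul_le_mul_left _ hn.2
      have e : 2 * a i * y = a i * (2 * y) := by ring
      omega
    exact_mod_cast this
  have hPup : ∀ n ∈ Ioc y (2 * y), ∀ i, ((P i n).card : ℝ) ≤ 20 * (h i / Real.log (h i)) := by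
    intro n _ i
    rw [hP, hB]
    simp only
    rw [count_shift]
    exact Pool.Agent.Q160.TB.bt_int (by have := hh3 i; omega)
  have hPP : ∀ n m : ℕ, n < m → ∀ i, ((P i n ∩ P i m).card : ℝ) ≤
      C4 * (h i / Real.log (h i) ^ 2) * (VV k * gg k (a i)) * gg k (m - n) := by
    intro n m hnm i
    have h1 : P i n ∩ P i m ⊆ (Ioc (l i) (l i + h i)).filter (fun b => (a i * n + b).Prime ∧
        (a i * n + a i * (m - n) + b).Prime) := by
      intro b hb
      rw [hP, hB] at hb
      simp only [mem_inter, mem_filter] at hb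
      rw [mem_filter]
      have e : a i * n + a i * (m - n) = a i * m := by
        rw [← Nat.mul_add]
        congr 1
        omega
      rw [e]
      exact ⟨hb.1.1, hb.1.2, hb.2.2⟩
    have h3 : ((P i n ∩ P i m).card : ℝ) ≤ _ := le_trans (by exact_mod_cast card_le_card h1)
      (hpair (h i) (a i * n) (l i) (a i * (m - n)) (hh2 i) (Nat.mul_pos (ha i) (by omega)))
    refine h3.trans ?_
    have h4 := gg_mul_le (k := k) (ha i) (show 0 < m - n by omega)
    have h5 : 0 < (h i : ℝ) / Real.log (h i) ^ 2 := by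
      have := hL i
      have := hh3r i
      positivity
    have h6 := one_le_gg k (a i)
    have h7 := one_le_gg k (m - n)
    calc C2 * (h i / Real.log (h i) ^ 2) * gg 0 (a i * (m - n))
        ≤ C4 * (h i / Real.log (h i) ^ 2) * (VV k * gg k (a i) * gg k (m - n)) := by
          refine mul_le_mul (mul_le_mul_of_nonneg_right hC42 h5.le) h4 ?_ (by positivity)
          have := one_le_gg 0 (a i * (m - n))
          linarith
      _ = _ := by ring
  obtain ⟨F, hF⟩ : ∃ F : ℝ, F = ∏ i, (C4 * (h i / Real.log (h i) ^ 2) * (VV k * gg k (a i))) := ⟨_, rfl⟩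
  have hFi : ∀ i, 0 < C4 * (h i / Real.log (h i) ^ 2) * (VV k * gg k (a i)) := fun i => by
    have := hL i
    have := hh3r i
    have := one_le_gg k (a i)
    positivity
  have hF0 : 0 < F := by rw [hF]; exact prod_pos fun i _ => hFi i
  have hoff : ∀ n m : ℕ, n ≠ m → ∏ i, ((P i n ∩ P i m).card : ℝ) ≤ F * gg k (max n m - min n m) ^ k := by
    intro n m hnm
    have key : ∀ n m : ℕ, n < m → ∏ i, ((P i n ∩ P i m).card : ℝ) ≤ F * gg k (m - n) ^ k := by
      intro n m hnm
      refine (prod_le_prod (fun i _ => by positivity) fun i _ => hPP n m hnm i).trans ?_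
      rw [prod_mul_distrib, prod_const, card_univ, Fintype.card_fin, hF]
    rcases lt_or_gt_of_ne hnm with h3 | h3
    · rw [max_eq_right h3.le, min_eq_left h3.le]
      exact key n m h3
    · rw [max_eq_left h3.le, min_eq_right h3.le]
      have := key m n h3
      refine le_trans (le_of_eq ?_) this
      refine prod_congr rfl fun i _ => ?_
      rw [inter_comm]
  have hdiag : ∀ n ∈ Ioc y (2 * y), ∏ i, ((P i n ∩ P i n).card : ℝ) ≤ y * F := by
    intro n hn
    have hDi : ∀ i, 0 < C * (Real.log (h i) / (Real.log (k + 2) * gg k (a i))) := fun i => by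
      have := hL i
      have := one_le_gg k (a i)
      positivity
    calc ∏ i, ((P i n ∩ P i n).card : ℝ) ≤ ∏ i, (20 * (h i / Real.log (h i))) := by
          refine prod_le_prod (fun i _ => by positivity) fun i _ => ?_
          rw [inter_self]
          exact hPup n hn i
      _ ≤ ∏ i, ((C * (Real.log (h i) / (Real.log (k + 2) * gg k (a i)))) *
            (C4 * (h i / Real.log (h i) ^ 2) * (VV k * gg k (a i)))) := by
          refine prod_le_prod (fun i _ => by have := hL i; positivity) fun i _ => ?_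
          have h4 := hL i
          have h5 := hh3r i
          have h6 := one_le_gg k (a i)
          have h7 : (C * (Real.log (h i) / (Real.log (k + 2) * gg k (a i)))) *
            (C4 * (h i / Real.log (h i) ^ 2) * (VV k * gg k (a i))) =
            (C4 * (C * (VV k / Real.log (k + 2)))) * (h i / Real.log (h i)) := by
            field_simp
          rw [h7]
          refine mul_le_mul_of_nonneg_right ?_ (by positivity)
          have h8 : 1 ≤ C * (VV k / Real.log (k + 2)) := by
            calc (1 : ℝ) = 1 / cV * cV := by field_simp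
              _ ≤ C * (VV k / Real.log (k + 2)) := by
                  refine mul_le_mul hCd ?_ hcV.le (by linarith)
                  rw [le_div_iff₀ hlk]
                  exact (hVV k).1
          nlinarith
      _ = (∏ i, (C * (Real.log (h i) / (Real.log (k + 2) * gg k (a i))))) * F := by
          rw [prod_mul_distrib, hF]
      _ ≤ y * F := mul_le_mul_of_nonneg_right hyL hF0.le
  have hOm : ((Ioc y (2 * y)).card : ℝ) = y := by
    rw [Nat.card_Ioc]
    congr 1
    omega
  have hX2 : ∑ n ∈ Ioc y (2 * y), ∑ m ∈ Ioc y (2 * y), ∏ i, ((P i n ∩ P i m).card : ℝ) ≤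
      (2 * Real.exp 6 + 1) * (y ^ 2 * F) := by
    have h3 : ∀ n ∈ Ioc y (2 * y), ∑ m ∈ Ioc y (2 * y), ∏ i, ((P i n ∩ P i m).card : ℝ) ≤
        (2 * Real.exp 6 + 1) * (y * F) := by
      intro n hn
      rw [← Finset.add_sum_erase _ _ hn]
      have h4 : ∑ m ∈ (Ioc y (2 * y)).erase n, ∏ i, ((P i n ∩ P i m).card : ℝ) ≤
          F * (2 * (Real.exp 6 * y)) := by
        calc ∑ m ∈ (Ioc y (2 * y)).erase n, ∏ i, ((P i n ∩ P i m).card : ℝ)
            ≤ ∑ m ∈ (Ioc y (2 * y)).erase n, F * gg k (max n m - min n m) ^ k := by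
              refine sum_le_sum fun m hm => hoff n m ?_
              exact (ne_of_mem_erase hm).symm
          _ = F * ∑ m ∈ (Ioc y (2 * y)).erase n, gg k (max n m - min n m) ^ k := by rw [mul_sum]
          _ ≤ F * (2 * (Real.exp 6 * y)) := by
              refine mul_le_mul_of_nonneg_left ?_ hF0.le
              refine (sum_dist (fun d => gg k d ^ k) (fun d => ?_) y n hn).trans ?_
              · have := one_le_gg k d
                positivity
              · exact mul_le_mul_of_nonneg_left (sum_gg hk y) (by norm_num)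
      have h5 := hdiag n hn
      calc _ ≤ y * F + F * (2 * (Real.exp 6 * y)) := add_le_add h5 h4
        _ = _ := by ring
    calc _ ≤ ∑ n ∈ Ioc y (2 * y), (2 * Real.exp 6 + 1) * (y * F) := sum_le_sum h3
      _ = _ := by
          rw [sum_const, nsmul_eq_mul, hOm]
          ring
  obtain ⟨X1, hX1⟩ : ∃ X1 : ℝ, X1 = y * ∏ i, (η * (h i / Real.log (h i))) := ⟨_, rfl⟩
  have hηi : ∀ i, 0 < η * ((h i : ℝ) / Real.log (h i)) := fun i => by
    have := hL i
    have := hh3r i
    positivity
  have hX10 : 0 < X1 := by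
    rw [hX1]
    exact mul_pos hy0 (prod_pos fun i _ => hηi i)
  have hfirst : X1 ≤ ∑ n ∈ Ioc y (2 * y), ∏ i, ((P i n).card : ℝ) := by
    calc X1 = ∑ n ∈ Ioc y (2 * y), ∏ i, (η * ((h i : ℝ) / Real.log (h i))) := by
          rw [sum_const, nsmul_eq_mul, hOm, hX1]
      _ ≤ _ := sum_le_sum fun n hn => prod_le_prod (fun i _ => (hηi i).le) fun i _ => hPlow n hn i
  obtain ⟨T, hT⟩ : ∃ T : ℝ, T = ∏ i, (CA * ((h i : ℝ) / (Real.log (k + 2) * gg k (a i)))) := ⟨_, rfl⟩
  have hTi : ∀ i, 0 < CA * ((h i : ℝ) / (Real.log (k + 2) * gg k (a i))) := fun i => by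
    have := one_le_gg k (a i)
    have := hh3r i
    positivity
  have hT0 : 0 < T := by rw [hT]; exact prod_pos fun i _ => hTi i
  have haA : ∀ i, a i ≤ h i ^ ⌈1 / θ⌉₊ := by
    intro i
    have h3 : (a i : ℝ) ≤ ((2 * a i * y + l i + h i : ℕ) : ℝ) := by
      have : a i * 1 ≤ a i * (2 * y) := Nat.mul_le_mul_left _ (by omega)
      have e : 2 * a i * y = a i * (2 * y) := by ring
      exact_mod_cast (by omega : a i ≤ 2 * a i * y + l i + h i)
    have h4 : (a i : ℝ) ^ θ ≤ h i := (Real.rpow_le_rpow (by positivity) h3 hθ.le).trans (hθh i)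
    have h5 : (a i : ℝ) ≤ (h i : ℝ) ^ ⌈1 / θ⌉₊ := by
      calc (a i : ℝ) = ((a i : ℝ) ^ θ) ^ (1 / θ) := by
            rw [← Real.rpow_mul (by positivity), mul_one_div_cancel hθ.ne', Real.rpow_one]
        _ ≤ (h i : ℝ) ^ (1 / θ) := Real.rpow_le_rpow (by positivity) h4 (by positivity)
        _ ≤ (h i : ℝ) ^ ((⌈1 / θ⌉₊ : ℕ) : ℝ) :=
            Real.rpow_le_rpow_of_exponent_le (by linarith [hh3r i]) (Nat.le_ceil _)
        _ = (h i : ℝ) ^ ⌈1 / θ⌉₊ := Real.rpow_natCast _ _
    exact_mod_cast h5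
  have hadm' := hadm k a l h hhA ha haA hkh
  rw [← hT] at hadm'
  have hadm2 : (((Fintype.piFinset B).filter (fun b => Adm a b)).card : ℝ) ≤ T := by rw [hB]; exact hadm'
  have hsm := second_moment B (Ioc y (2 * y)) P hPB (fun b => Adm a b) hG X1 _ T hfirst hX2
    hadm2 hT0 hX10.le
  -- the set in the conclusion
  obtain ⟨V, hV⟩ : ∃ V : ℕ, V = ((Fintype.piFinset (fun i => Ioc (l i) (l i + h i))).filter (fun b => Adm a b ∧
        (y : ℝ) * ∏ i, (C * (Real.log (h i) / (Real.log (k + 2) * gg k (a i))))⁻¹ ≤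
          (((Ioc y (2 * y)).filter (fun n => ∀ i, (a i * n + b i).Prime)).card : ℝ))).card := ⟨_, rfl⟩
  rw [← hV]
  have hVV2 : (((Fintype.piFinset B).filter
      (fun b => Adm a b ∧ X1 / (2 * T) ≤ (((Ioc y (2 * y)).filter (fun n => ∀ i, b i ∈ P i n)).card : ℝ))).card : ℝ) ≤ V := by
    rw [hV]
    have : (Fintype.piFinset B).filter
      (fun b => Adm a b ∧ X1 / (2 * T) ≤ (((Ioc y (2 * y)).filter (fun n => ∀ i, b i ∈ P i n)).card : ℝ)) ⊆
      (Fintype.piFinset (fun i => Ioc (l i) (l i + h i))).filter (fun b => Adm a b ∧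
        (y : ℝ) * ∏ i, (C * (Real.log (h i) / (Real.log (k + 2) * gg k (a i))))⁻¹ ≤
          (((Ioc y (2 * y)).filter (fun n => ∀ i, (a i * n + b i).Prime)).card : ℝ)) := by
      intro b hb
      rw [mem_filter] at hb ⊢
      refine ⟨by rw [hB] at hb; exact hb.1, hb.2.1, ?_⟩
      refine le_trans ?_ (hb.2.2.trans ?_)
      · rw [hX1, le_div_iff₀ (by positivity)]
        have h3 : (∏ i, (C * (Real.log (h i) / (Real.log (k + 2) * gg k (a i))))⁻¹) * (2 * T) ≤
            ∏ i, (η * ((h i : ℝ) / Real.log (h i))) := by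
          have h4 : (2 : ℝ) ≤ ∏ _i : Fin k, (2 : ℝ) := by
            rw [prod_const, card_univ, Fintype.card_fin]
            calc (2 : ℝ) = 2 ^ 1 := (pow_one _).symm
              _ ≤ 2 ^ k := pow_le_pow_right₀ (by norm_num) hk
          have h5 : 0 ≤ ∏ i, (C * (Real.log (h i) / (Real.log (k + 2) * gg k (a i))))⁻¹ := prod_nonneg fun i _ => by
            have := hL i
            have := one_le_gg k (a i)
            positivity
          calc (∏ i, (C * (Real.log (h i) / (Real.log (k + 2) * gg k (a i))))⁻¹) * (2 * T)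
              ≤ (∏ i, (C * (Real.log (h i) / (Real.log (k + 2) * gg k (a i))))⁻¹) * ((∏ _i : Fin k, (2 : ℝ)) * T) :=
                mul_le_mul_of_nonneg_left (mul_le_mul_of_nonneg_right h4 hT0.le) h5
            _ = ∏ i, ((C * (Real.log (h i) / (Real.log (k + 2) * gg k (a i))))⁻¹ *
                  (2 * (CA * ((h i : ℝ) / (Real.log (k + 2) * gg k (a i)))))) := by
                rw [hT, ← prod_mul_distrib, ← prod_mul_distrib]
            _ ≤ ∏ i, (η * ((h i : ℝ) / Real.log (h i))) := by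
                refine prod_le_prod (fun i _ => ?_) fun i _ => ?_
                · have := hL i
                  have := hTi i
                  have := one_le_gg k (a i)
                  positivity
                · have h6 := hL i
                  have h7 := one_le_gg k (a i)
                  have h8 := hh3r i
                  have h9 : 2 * CA ≤ C * η := by rwa [div_le_iff₀ hη] at hCb
                  have hCpos : 0 < C := by linarith
                  have h10 : (C * (Real.log (h i) / (Real.log (k + 2) * gg k (a i))))⁻¹ *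
                    (2 * (CA * ((h i : ℝ) / (Real.log (k + 2) * gg k (a i))))) =
                    (2 * CA / C) * ((h i : ℝ) / Real.log (h i)) := by
                    field_simp
                  rw [h10]
                  refine mul_le_mul_of_nonneg_right ?_ (by positivity)
                  rw [div_le_iff₀ hCpos]
                  linarith
        calc (y : ℝ) * (∏ i, (C * (Real.log (h i) / (Real.log (k + 2) * gg k (a i))))⁻¹) * (2 * T)
            = y * ((∏ i, (C * (Real.log (h i) / (Real.log (k + 2) * gg k (a i))))⁻¹) * (2 * T)) := by ring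
          _ ≤ _ := mul_le_mul_of_nonneg_left h3 hy0.le
      · have h3 : (Ioc y (2 * y)).filter (fun n => ∀ i, b i ∈ P i n) ⊆
            (Ioc y (2 * y)).filter (fun n => ∀ i, (a i * n + b i).Prime) := by
          intro n hn
          rw [mem_filter] at hn ⊢
          refine ⟨hn.1, fun i => ?_⟩
          have := hn.2 i
          rw [hP] at this
          exact (mem_filter.1 this).2
        exact_mod_cast card_le_card h3
    exact_mod_cast card_le_card this
  -- conclusion
  have hfin : X1 ^ 2 ≤ (D * (y ^ 2 * F)) * V := by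
    refine hsm.trans ?_
    have h3 : 4 * ((2 * Real.exp 6 + 1) * ((y : ℝ) ^ 2 * F)) = D * (y ^ 2 * F) := by rw [hD]; ring
    rw [h3]
    exact mul_le_mul_of_nonneg_left hVV2 (by positivity)
  have hX1sq : X1 ^ 2 = y ^ 2 * ∏ i, (η * ((h i : ℝ) / Real.log (h i))) ^ 2 := by
    rw [hX1, mul_pow, prod_pow]
  have hkey : (D * F) * ((C ^ k)⁻¹ * T) ≤
      ∏ i, (η * ((h i : ℝ) / Real.log (h i))) ^ 2 := by
    have h4 : D ≤ ∏ _i : Fin k, D := by
      rw [prod_const, card_univ, Fintype.card_fin]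
      calc D = D ^ 1 := (pow_one _).symm
        _ ≤ D ^ k := pow_le_pow_right₀ hD1 hk
    have h6 : (C ^ k)⁻¹ = ∏ _i : Fin k, C⁻¹ := by
      rw [prod_const, card_univ, Fintype.card_fin, inv_pow]
    have h7 : 0 ≤ (C ^ k)⁻¹ * T := by positivity
    calc (D * F) * ((C ^ k)⁻¹ * T)
        ≤ ((∏ _i : Fin k, D) * F) * ((C ^ k)⁻¹ * T) := by
          refine mul_le_mul_of_nonneg_right (mul_le_mul_of_nonneg_right h4 hF0.le) h7
      _ = ∏ i, (D * (C4 * (h i / Real.log (h i) ^ 2) * (VV k * gg k (a i))) *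
            (C⁻¹ * (CA * ((h i : ℝ) / (Real.log (k + 2) * gg k (a i)))))) := by
          rw [hF, hT, h6, ← prod_mul_distrib, ← prod_mul_distrib, ← prod_mul_distrib]
      _ ≤ ∏ i, (η * ((h i : ℝ) / Real.log (h i))) ^ 2 := by
          refine prod_le_prod (fun i _ => ?_) fun i _ => ?_
          · have := hFi i
            have := hTi i
            positivity
          · have h6 := hL i
            have h7 := one_le_gg k (a i)
            have h8 := hh3r i
            have hCpos : 0 < C := by linarith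
            have h9 : C4 * C3 * D * CA ≤ C * η ^ 2 := by rwa [div_le_iff₀ (by positivity)] at hCc
            have h10 : D * (C4 * (h i / Real.log (h i) ^ 2) * (VV k * gg k (a i))) *
                (C⁻¹ * (CA * ((h i : ℝ) / (Real.log (k + 2) * gg k (a i))))) =
                (D * C4 * CA * VV k / (C * Real.log (k + 2))) * ((h i : ℝ) / Real.log (h i)) ^ 2 := by
              field_simp
            rw [h10, mul_pow]
            refine mul_le_mul_of_nonneg_right ?_ (by positivity)
            rw [div_le_iff₀ (by positivity)]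
            calc D * C4 * CA * VV k ≤ D * C4 * CA * (C3 * Real.log (k + 2)) :=
                  mul_le_mul_of_nonneg_left (hVV k).2 (by positivity)
              _ = (C4 * C3 * D * CA) * Real.log (k + 2) := by ring
              _ ≤ (C * η ^ 2) * Real.log (k + 2) := mul_le_mul_of_nonneg_right h9 hlk.le
              _ = η ^ 2 * (C * Real.log (k + 2)) := by ring
  have hy2 : (0 : ℝ) < (y : ℝ) ^ 2 := by positivity
  have hfin2 : ∏ i, (η * ((h i : ℝ) / Real.log (h i))) ^ 2 ≤ (D * F) * V := by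
    rw [hX1sq] at hfin
    have h3 : (D * ((y : ℝ) ^ 2 * F)) * V = y ^ 2 * ((D * F) * V) := by ring
    rw [h3] at hfin
    exact le_of_mul_le_mul_left hfin hy2
  have hDF : 0 < D * F := by positivity
  have hfin3 := le_of_mul_le_mul_left (hkey.trans hfin2) hDF
  refine le_trans (mul_le_mul_of_nonneg_left hadm' ?_) hfin3
  positivity

open Classical in
/-- **Upper bound.** -/
theorem gen_up (A : ℕ) : ∃ C : ℝ, 1 ≤ C ∧ ∃ h0 : ℕ, ∀ k : ℕ, ∀ a l h : Fin k → ℕ, ∀ y : ℕ,
    (∀ i, h0 ≤ h i) → (∀ i, 1 ≤ a i) → (∀ i, a i ≤ h i ^ A) → (∀ i, (k : ℝ) ≤ Real.log (h i)) →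
    ((((Fintype.piFinset (fun i => Ioc (l i) (l i + h i))).filter (fun b =>
        ∃ n ∈ Icc 1 y, ∀ i, (a i * n + b i).Prime)).card : ℕ) : ℝ) ≤
    y * (∏ i, (C * ((Real.log (k + 2) * gg k (a i)) / Real.log (h i)))) *
      (((Fintype.piFinset (fun i => Ioc (l i) (l i + h i))).filter (fun b => Adm a b)).card : ℝ) := by
  obtain ⟨c, h1, hc, hadm⟩ := adm_lower A
  refine ⟨max 1 (20 / c), le_max_left _ _, max h1 3, fun k a l h y hh ha haA hkh => ?_⟩
  have hh1 : ∀ i, h1 ≤ h i := fun i => le_trans (le_max_left _ _) (hh i)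
  have hh3 : ∀ i, 3 ≤ h i := fun i => le_trans (le_max_right _ _) (hh i)
  have hh3r : ∀ i, (3 : ℝ) ≤ h i := fun i => by exact_mod_cast hh3 i
  have hL : ∀ i, 0 < Real.log (h i) := fun i => Real.log_pos (by linarith [hh3r i])
  have hlk := log_two_add k
  obtain ⟨C, hC⟩ : ∃ C : ℝ, C = max 1 (20 / c) := ⟨_, rfl⟩
  have hC1 : 20 / c ≤ C := by rw [hC]; exact le_max_right _ _
  have hC0 : 0 < C := by rw [hC]; positivity
  rw [← hC]
  have hsub : (Fintype.piFinset (fun i => Ioc (l i) (l i + h i))).filter (fun b =>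
        ∃ n ∈ Icc 1 y, ∀ i, (a i * n + b i).Prime) ⊆
      (Icc 1 y).biUnion (fun n => Fintype.piFinset (fun i => (Ioc (l i) (l i + h i)).filter (fun b => (a i * n + b).Prime))) := by
    intro b hb
    rw [mem_filter, Fintype.mem_piFinset] at hb
    obtain ⟨hb1, n, hn, hb2⟩ := hb
    rw [mem_biUnion]
    refine ⟨n, hn, ?_⟩
    rw [Fintype.mem_piFinset]
    exact fun i => mem_filter.2 ⟨hb1 i, hb2 i⟩
  have h4 : ((((Fintype.piFinset (fun i => Ioc (l i) (l i + h i))).filter (fun b =>
        ∃ n ∈ Icc 1 y, ∀ i, (a i * n + b i).Prime)).card : ℕ) : ℝ) ≤ y * ∏ i, (20 * ((h i : ℝ) / Real.log (h i))) := by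
    calc ((((Fintype.piFinset (fun i => Ioc (l i) (l i + h i))).filter (fun b =>
        ∃ n ∈ Icc 1 y, ∀ i, (a i * n + b i).Prime)).card : ℕ) : ℝ)
        ≤ ∑ n ∈ Icc 1 y, ((Fintype.piFinset (fun i => (Ioc (l i) (l i + h i)).filter (fun b => (a i * n + b).Prime))).card : ℝ) := by
          exact_mod_cast (card_le_card hsub).trans card_biUnion_le
      _ ≤ ∑ n ∈ Icc 1 y, ∏ i, (20 * ((h i : ℝ) / Real.log (h i))) := by
          refine sum_le_sum fun n _ => ?_
          rw [Fintype.card_piFinset]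
          push_cast
          refine prod_le_prod (fun i _ => by positivity) fun i _ => ?_
          rw [count_shift]
          exact Pool.Agent.Q160.TB.bt_int (by have := hh3 i; omega)
      _ = _ := by
          rw [sum_const, nsmul_eq_mul, Nat.card_Icc]
          congr 2
  refine h4.trans ?_
  have h5 := hadm k a l h hh1 ha haA hkh
  have h6 : ∏ i, (20 * ((h i : ℝ) / Real.log (h i))) ≤
      (∏ i, (C * ((Real.log (k + 2) * gg k (a i)) / Real.log (h i)))) *
      ∏ i, (c * ((h i : ℝ) / (Real.log (k + 2) * gg k (a i)))) := by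
    rw [← prod_mul_distrib]
    refine prod_le_prod (fun i _ => by have := hL i; positivity) fun i _ => ?_
    have h7 := hL i
    have h8 := one_le_gg k (a i)
    have h9 : C * ((Real.log (k + 2) * gg k (a i)) / Real.log (h i)) * (c * ((h i : ℝ) / (Real.log (k + 2) * gg k (a i)))) =
      (C * c) * ((h i : ℝ) / Real.log (h i)) := by field_simp
    rw [h9]
    refine mul_le_mul_of_nonneg_right ?_ (by positivity)
    rwa [div_le_iff₀ hc] at hC1
  have h10 : 0 ≤ ∏ i, (C * ((Real.log (k + 2) * gg k (a i)) / Real.log (h i))) := prod_nonneg fun i _ => by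
    have h7 := hL i
    have h8 := one_le_gg k (a i)
    positivity
  calc (y : ℝ) * ∏ i, (20 * ((h i : ℝ) / Real.log (h i)))
      ≤ y * ((∏ i, (C * ((Real.log (k + 2) * gg k (a i)) / Real.log (h i)))) *
      ∏ i, (c * ((h i : ℝ) / (Real.log (k + 2) * gg k (a i))))) := mul_le_mul_of_nonneg_left h6 (by positivity)
    _ ≤ y * ((∏ i, (C * ((Real.log (k + 2) * gg k (a i)) / Real.log (h i)))) *
      (((Fintype.piFinset (fun i => Ioc (l i) (l i + h i))).filter (fun b => Adm a b)).card : ℝ)) :=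
        mul_le_mul_of_nonneg_left (mul_le_mul_of_nonneg_left h5 h10) (by positivity)
    _ = _ := by ring

end Pool.Agent.Q160.GK
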