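import Mathlib
import Pool.Agent.Q160.GK4

set_option autoImplicit false

/-!
# Admissible sets with a growing number of elements
-/

namespace Pool.Agent.Q160.GK

open Finset Filter
open Pool.Agent.H373R2.T7
open Pool.Agent.H305R2 (VV VV_tendsto)

/-- for every prime some residue class contains no element of `A` -/
def Admissible (A : Finset ℕ) : Prop := ∀ p : ℕ, p.Prime → ∃ r : ℕ, ∀ a ∈ A, ¬ a ≡ r [MOD p]

open Classical in
/-- the admissible sets of `k` non-negative integers, all at most `H` -/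
noncomputable def adm (k H : ℕ) : Finset (Finset ℕ) := (powersetCard k (range (H + 1))).filter Admissible

lemma admissible_iff (A : Finset ℕ) : Admissible A ↔ ∀ p : ℕ, p.Prime → ∃ n : ℕ, ∀ a ∈ A, ¬ p ∣ 1 * n + a := by
  constructor
  · intro h p hp
    obtain ⟨r, hr⟩ := h p hp
    refine ⟨(p - 1) * r, fun a ha hd => hr a ha ?_⟩
    have h1 : 1 * ((p - 1) * r) + a ≡ 0 [MOD p] := Nat.modEq_zero_iff_dvd.2 hd
    have h2 : 1 * ((p - 1) * r) + a + r ≡ 0 + r [MOD p] := h1.add_right r
    have h3 : 1 * ((p - 1) * r) + a + r = a + p * r := by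
      obtain ⟨q, hq⟩ : ∃ q, p = q + 1 := ⟨p - 1, by have := hp.pos; omega⟩
      rw [hq, Nat.add_sub_cancel]
      ring
    rw [h3, zero_add] at h2
    have h4 : a + p * r ≡ a [MOD p] := by
      have h5 : p * r ≡ 0 [MOD p] := Nat.modEq_zero_iff_dvd.2 (Dvd.intro r rfl)
      simpa using h5.add_left a
    exact h4.symm.trans h2
  · intro h p hp
    obtain ⟨n, hn⟩ := h p hp
    refine ⟨(p - 1) * n, fun a ha hm => hn a ha ?_⟩
    rw [← Nat.modEq_zero_iff_dvd]
    have h2 := hm.add_left (1 * n)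
    refine h2.trans ?_
    have h3 : 1 * n + (p - 1) * n = p * n := by
      obtain ⟨q, hq⟩ : ∃ q, p = q + 1 := ⟨p - 1, by have := hp.pos; omega⟩
      rw [hq, Nat.add_sub_cancel]
      ring
    rw [h3]
    exact Nat.modEq_zero_iff_dvd.2 (Dvd.intro n rfl)

lemma gg_one (k : ℕ) : gg k 1 = 1 := by
  unfold gg
  rw [Nat.primeFactors_one, filter_empty, prod_empty]

lemma large_H (M : ℝ) : ∃ h0 : ℕ, ∀ H : ℕ, h0 ≤ H → ∀ k : ℕ, (k : ℝ) ≤ Real.log H →
    3 ≤ H ∧ 0 < Real.log H ∧ k + 2 ≤ H ∧ Real.log (k + 2) ≤ Real.log H ∧ M * Real.log H ^ 2 ≤ H := by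
  have h3 : (fun x : ℝ => Real.log x ^ 2) =o[atTop] (fun x : ℝ => x) := by
    have := isLittleO_log_rpow_rpow_atTop ((2 : ℕ) : ℝ) (show (0 : ℝ) < 1 by norm_num)
    simpa [Real.rpow_natCast] using this
  have hM : (0 : ℝ) < max M 1 := by positivity
  have h5 := (tendsto_natCast_atTop_atTop.eventually (h3.bound (show (0 : ℝ) < 1 / max M 1 by positivity))).and
    (eventually_ge_atTop 16)
  obtain ⟨h0, hh0⟩ := eventually_atTop.1 h5
  refine ⟨h0, fun H hH k hk => ?_⟩
  obtain ⟨h6, h7⟩ := hh0 H hH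
  have hHr : (16 : ℝ) ≤ H := by exact_mod_cast h7
  have hl0 : 0 < Real.log H := Real.log_pos (by linarith)
  rw [Real.norm_eq_abs, Real.norm_eq_abs, abs_of_nonneg (by positivity), abs_of_nonneg (by positivity),
    one_div, inv_mul_eq_div, le_div_iff₀ hM] at h6
  have h8 : Real.log H ^ 2 ≤ H := by
    have : Real.log H ^ 2 * 1 ≤ Real.log H ^ 2 * max M 1 := mul_le_mul_of_nonneg_left (le_max_right _ _) (by positivity)
    linarith
  have hl2 : 2 ≤ Real.log H := by
    rw [Real.le_log_iff_exp_le (by linarith)]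
    have h9 : Real.exp 2 = Real.exp 1 ^ 2 := by rw [← Real.exp_nat_mul]; norm_num
    have h10 := Real.exp_one_lt_d9
    have h11 : Real.exp 1 ^ 2 ≤ 3 ^ 2 := pow_le_pow_left₀ (Real.exp_pos 1).le (by linarith) 2
    linarith
  have h9 : (k : ℝ) + 2 ≤ H := by nlinarith
  refine ⟨by omega, hl0, by exact_mod_cast h9, Real.log_le_log (by positivity) h9, ?_⟩
  have : Real.log H ^ 2 * M ≤ Real.log H ^ 2 * max M 1 := mul_le_mul_of_nonneg_left (le_max_left _ _) (by positivity)
  linarith

theorem card_adm_upper : ∃ C : ℝ, 0 < C ∧ ∃ h0 : ℕ, ∀ k H : ℕ, h0 ≤ H → (k : ℝ) ≤ Real.log H →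
    ((adm k H).card : ℝ) ≤ (C * (H / Real.log (k + 2))) ^ k / k.factorial := by
  classical
  obtain ⟨C, h1, hC, hcs⟩ := class_sieve 0
  obtain ⟨h2, hlarge⟩ := large_H 1
  refine ⟨4 * (C + 1), by positivity, max h1 h2, fun k H hH hk => ?_⟩
  obtain ⟨hH3, hL0, -, hlkH, hLH⟩ := hlarge H (le_trans (le_max_right _ _) hH) k hk
  have hlk := log_two_add k
  have hHr : (3 : ℝ) ≤ H := by exact_mod_cast hH3
  obtain ⟨Sp, hSp⟩ : ∃ Sp : ((p : ℕ) → p ∈ pz k → ℕ) → ℕ → ℕ,
    Sp = fun s p => if hp : p ∈ pz k then s p hp else 0 := ⟨_, rfl⟩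
  obtain ⟨S, hS⟩ : ∃ S : ((p : ℕ) → p ∈ pz k → ℕ) → Finset ℕ, S = fun s =>
    (range (H + 1)).filter (fun b => ∀ p ∈ pz k, ¬ p ∣ 1 * Sp s p + b) := ⟨_, rfl⟩
  have hsub : adm k H ⊆ ((pz k).pi (fun p => range p)).biUnion (fun s => powersetCard k (S s)) := by
    intro A hA
    unfold adm at hA
    rw [mem_filter, mem_powersetCard] at hA
    obtain ⟨⟨hA1, hA2⟩, hA3⟩ := hA
    rw [admissible_iff] at hA3
    choose! n hn using hA3
    rw [mem_biUnion]
    refine ⟨fun p _ => n p % p, ?_, ?_⟩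
    · rw [Finset.mem_pi]
      intro p hp
      rw [mem_range]
      exact Nat.mod_lt _ (mem_pz.1 hp).2.pos
    · rw [mem_powersetCard]
      refine ⟨fun b hb => ?_, hA2⟩
      rw [hS]
      simp only [mem_filter]
      refine ⟨hA1 hb, ?_⟩
      intro p hp
      rw [hSp]
      simp only [hp, dif_pos]
      rw [dvd_mul_mod]
      exact hn p (mem_pz.1 hp).2 b hb
  have hcard : (((pz k).pi (fun p => range p)).card : ℝ) ≤ 4 ^ k := by
    rw [Finset.card_pi]
    have h1 : ∏ p ∈ pz k, (range p).card = ∏ p ∈ pz k, p := prod_congr rfl fun p _ => card_range p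
    rw [h1]
    exact_mod_cast prod_pz_le k
  have hSle : ∀ s, ((S s).card : ℝ) ≤ (C + 1) * (H / Real.log (k + 2)) := by
    intro s
    have h3 := hcs k 1 0 H (le_trans (le_max_left _ _) hH) le_rfl (by simp) hk (Sp s)
    rw [gg_one, mul_one] at h3
    have h4 : (S s).card ≤ ((Ioc 0 (0 + H)).filter (fun b => (∀ p ∈ pz k, ¬ p ∣ 1 * Sp s p + b) ∧ b.Coprime 1)).card + 1 := by
      have h5 : S s ⊆ (Ioc 0 (0 + H)).filter (fun b => (∀ p ∈ pz k, ¬ p ∣ 1 * Sp s p + b) ∧ b.Coprime 1) ∪ {0} := by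
        intro b hb
        rw [hS] at hb
        simp only [mem_filter, mem_range] at hb
        rw [mem_union, mem_filter, mem_Ioc, mem_singleton]
        rcases Nat.eq_zero_or_pos b with h6 | h6
        · exact Or.inr h6
        · exact Or.inl ⟨by omega, hb.2, Nat.coprime_one_right b⟩
      refine (card_le_card h5).trans ((card_union_le _ _).trans ?_)
      rw [card_singleton]
    have h6 : ((S s).card : ℝ) ≤ (((Ioc 0 (0 + H)).filter (fun b => (∀ p ∈ pz k, ¬ p ∣ 1 * Sp s p + b) ∧ b.Coprime 1)).card : ℝ) + 1 := by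
      exact_mod_cast h4
    have h7 : 1 ≤ (H : ℝ) / Real.log (k + 2) := by
      rw [le_div_iff₀ hlk, one_mul]
      refine hlkH.trans ?_
      have := Real.log_le_sub_one_of_pos (show (0 : ℝ) < H by linarith)
      linarith
    linarith
  calc ((adm k H).card : ℝ)
      ≤ ∑ s ∈ (pz k).pi (fun p => range p), ((powersetCard k (S s)).card : ℝ) := by
        exact_mod_cast (card_le_card hsub).trans card_biUnion_le
    _ ≤ ∑ s ∈ (pz k).pi (fun p => range p), ((C + 1) * (H / Real.log (k + 2))) ^ k / k.factorial := by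
        refine sum_le_sum fun s _ => ?_
        rw [card_powersetCard]
        refine (Nat.choose_le_pow_div k (S s).card).trans ?_
        exact div_le_div_of_nonneg_right (pow_le_pow_left₀ (by positivity) (hSle s) k) (by positivity)
    _ = (((pz k).pi (fun p => range p)).card : ℝ) * (((C + 1) * (H / Real.log (k + 2))) ^ k / k.factorial) := by
        rw [sum_const, nsmul_eq_mul]
    _ ≤ 4 ^ k * (((C + 1) * (H / Real.log (k + 2))) ^ k / k.factorial) := by
        refine mul_le_mul_of_nonneg_right hcard ?_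
        positivity
    _ = (4 * (C + 1) * (H / Real.log (k + 2))) ^ k / k.factorial := by
        rw [mul_div_assoc', ← mul_pow]
        ring

theorem card_adm_lower : ∃ c : ℝ, 0 < c ∧ ∃ h0 : ℕ, ∀ k H : ℕ, h0 ≤ H → (k : ℝ) ≤ Real.log H →
    (c * (H / Real.log (k + 2))) ^ k / k.factorial ≤ ((adm k H).card : ℝ) := by
  classical
  obtain ⟨c, h1, hc, hcl⟩ := class_low 0
  obtain ⟨h2, hlarge⟩ := large_H (2 / c)
  refine ⟨c / 2, by positivity, max h1 h2, fun k H hH hk => ?_⟩
  obtain ⟨hH3, hL0, -, hlkH, hLH⟩ := hlarge H (le_trans (le_max_right _ _) hH) k hk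
  have hlk := log_two_add k
  have hHr : (3 : ℝ) ≤ H := by exact_mod_cast hH3
  obtain ⟨S, hS⟩ : ∃ S, S = (Ioc 0 (0 + H)).filter (fun b => (∀ p ∈ pz k, ¬ p ∣ b) ∧ b.Coprime 1) := ⟨_, rfl⟩
  have hSc : c * (H / Real.log (k + 2)) ≤ (S.card : ℝ) := by
    have h3 := hcl k 1 0 H (le_trans (le_max_left _ _) hH) le_rfl (by simp) hk
    rw [gg_one, mul_one] at h3
    rw [hS]
    exact h3
  have hsub : powersetCard k S ⊆ adm k H := by
    intro A hA
    rw [mem_powersetCard] at hA
    unfold adm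
    rw [mem_filter, mem_powersetCard]
    refine ⟨⟨fun b hb => ?_, hA.2⟩, ?_⟩
    · have := hA.1 hb
      rw [hS, mem_filter, mem_Ioc] at this
      rw [mem_range]
      omega
    · intro p hp
      rcases Nat.lt_or_ge k p with hkp | hkp
      · by_contra hcon
        push Not at hcon
        have h3 : range p ⊆ A.image (fun a => a % p) := by
          intro r hr
          rw [mem_range] at hr
          obtain ⟨a, ha, har⟩ := hcon r
          rw [mem_image]
          refine ⟨a, ha, ?_⟩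
          have := har
          unfold Nat.ModEq at this
          rw [this, Nat.mod_eq_of_lt hr]
        have h4 := (card_le_card h3).trans card_image_le
        rw [card_range, hA.2] at h4
        omega
      · refine ⟨0, fun a ha hm => ?_⟩
        have := hA.1 ha
        rw [hS, mem_filter] at this
        exact this.2.1 p (mem_pz.2 ⟨hkp, hp⟩) (Nat.modEq_zero_iff_dvd.1 hm)
  have h3 : (((powersetCard k S).card : ℕ) : ℝ) ≤ ((adm k H).card : ℝ) := by exact_mod_cast card_le_card hsub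
  refine le_trans ?_ h3
  rw [card_powersetCard]
  have h4 : ((S.card + 1 - k) ^ k : ℕ) ≤ S.card.choose k * k.factorial := by
    rw [mul_comm, ← Nat.descFactorial_eq_factorial_mul_choose]
    exact Nat.pow_sub_le_descFactorial _ _
  rw [div_le_iff₀ (by positivity)]
  have h5 : (((S.card + 1 - k) ^ k : ℕ) : ℝ) ≤ (S.card.choose k : ℝ) * (k.factorial : ℝ) := by exact_mod_cast h4
  refine le_trans ?_ h5
  push_cast
  refine pow_le_pow_left₀ (by positivity) ?_ k
  have h6 : (k : ℝ) ≤ c / 2 * (H / Real.log (k + 2)) := by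
    rw [← mul_div_assoc, le_div_iff₀ hlk]
    calc (k : ℝ) * Real.log (k + 2) ≤ Real.log H * Real.log H := mul_le_mul hk hlkH hlk.le hL0.le
      _ = c / 2 * (2 / c * Real.log H ^ 2) := by field_simp
      _ ≤ c / 2 * H := mul_le_mul_of_nonneg_left hLH (by positivity)
  have h7 : (k : ℝ) ≤ S.card := by linarith
  have h8 : k ≤ S.card := by exact_mod_cast h7
  have h9 : ((S.card + 1 - k : ℕ) : ℝ) = (S.card : ℝ) + 1 - k := by
    rw [Nat.cast_sub (by omega)]
    push_cast
    rfl
  rw [h9]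
  linarith

end Pool.Agent.Q160.GK
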