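import Mathlib
import Pool.Agent.Q160.GK6

set_option autoImplicit false

/-!
# Admissible sets: simultaneous primes
-/

namespace Pool.Agent.Q160.GK

open Finset Filter
open Pool.Agent.H373R2.T7
open Pool.Agent.H305R2 (VV VV_tendsto)

open Classical in
/-- the number of `n` with `y < n ≤ 2 y` such that all `n + a` are primes -/
noncomputable def primeShifts (A : Finset ℕ) (y : ℕ) : ℕ :=
  ((Ioc y (2 * y)).filter (fun n => ∀ a ∈ A, (n + a).Prime)).card

lemma block_eq {H i j x : ℕ} (h1 : x ∈ Ioc (i * H) (i * H + H)) (h2 : x ∈ Ioc (j * H) (j * H + H)) : i = j := by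
  rw [mem_Ioc] at h1 h2
  rcases lt_trichotomy i j with h | h | h
  · have h3 : (i + 1) * H ≤ j * H := Nat.mul_le_mul_right _ h
    rw [add_mul, one_mul] at h3
    omega
  · exact h
  · have h3 : (j + 1) * H ≤ i * H := Nat.mul_le_mul_right _ h
    rw [add_mul, one_mul] at h3
    omega

lemma pow_div_exp_le (k : ℕ) : ((k : ℝ) / Real.exp 1) ^ k ≤ k.factorial := by
  have h1 := Real.pow_div_factorial_le_exp (k : ℝ) (Nat.cast_nonneg k) k
  rw [div_le_iff₀ (by positivity)] at h1
  rw [div_pow, div_le_iff₀ (by positivity), ← Real.exp_nat_mul, mul_one, mul_comm]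
  exact h1

lemma large_H2 (θ : ℝ) (hθ : 0 < θ) (hθ1 : θ < 1) (N : ℕ) : ∃ h0 : ℕ, ∀ H : ℕ, h0 ≤ H →
    (N : ℝ) ≤ H / (2 * Real.log H) ∧ (3 * (H : ℝ)) ^ θ ≤ H / (2 * Real.log H) ∧
    (H : ℝ) ^ (1 / 2 : ℝ) ≤ H / (2 * Real.log H) ∧ 16 ≤ H := by
  obtain ⟨s, hs⟩ : ∃ s : ℝ, s = (1 - max θ (1 / 2)) := ⟨_, rfl⟩
  have hs0 : 0 < s := by
    rw [hs]
    have : max θ (1 / 2) < 1 := max_lt hθ1 (by norm_num)
    linarith
  have h3 : (fun x : ℝ => Real.log x) =o[atTop] (fun x : ℝ => x ^ s) := isLittleO_log_rpow_atTop hs0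
  have h4 : Tendsto (fun x : ℕ => (x : ℝ) ^ (1 / 2 : ℝ)) atTop atTop :=
    (tendsto_rpow_atTop (by norm_num)).comp tendsto_natCast_atTop_atTop
  have h5 := (tendsto_natCast_atTop_atTop.eventually (h3.bound (show (0 : ℝ) < 1 / 6 by norm_num))).and
    ((h4.eventually_ge_atTop (N : ℝ)).and (eventually_ge_atTop 16))
  obtain ⟨h0, hh0⟩ := eventually_atTop.1 h5
  refine ⟨h0, fun H hH => ?_⟩
  obtain ⟨h6, h7, h8⟩ := hh0 H hH
  have hHr : (16 : ℝ) ≤ H := by exact_mod_cast h8
  have hl0 : 0 < Real.log H := Real.log_pos (by linarith)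
  rw [Real.norm_eq_abs, Real.norm_eq_abs, abs_of_nonneg hl0.le, abs_of_nonneg (by positivity)] at h6
  have key : ∀ t : ℝ, t ≤ max θ (1 / 2) → 0 ≤ t → 3 * (H : ℝ) ^ t ≤ H / (2 * Real.log H) := by
    intro t ht ht0
    rw [le_div_iff₀ (by positivity)]
    have h9 : (H : ℝ) ^ t * (H : ℝ) ^ s ≤ H := by
      rw [← Real.rpow_add (by linarith)]
      calc (H : ℝ) ^ (t + s) ≤ (H : ℝ) ^ (1 : ℝ) := Real.rpow_le_rpow_of_exponent_le (by linarith) (by linarith)
        _ = H := Real.rpow_one _
    have h10 : 0 < (H : ℝ) ^ t := by positivity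
    nlinarith
  have hhalf := key (1 / 2) (le_max_right _ _) (by norm_num)
  have hhp : 0 < (H : ℝ) ^ (1 / 2 : ℝ) := by positivity
  refine ⟨by linarith, ?_, by linarith, h8⟩
  refine le_trans ?_ (key θ (le_max_left _ _) hθ.le)
  rw [Real.mul_rpow (by norm_num) (by positivity)]
  refine mul_le_mul_of_nonneg_right ?_ (by positivity)
  calc (3 : ℝ) ^ θ ≤ (3 : ℝ) ^ (1 : ℝ) := Real.rpow_le_rpow_of_exponent_le (by norm_num) hθ1.le
    _ = 3 := Real.rpow_one _

open Classical in
theorem sets_lower : ∃ C : ℝ, 1 ≤ C ∧ ∃ H0 : ℕ, ∀ k H y : ℕ, H0 ≤ H → 1 ≤ k → (k : ℝ) ≤ Real.log H → y ≤ H →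
    (C * (Real.log H / Real.log (k + 2))) ^ k ≤ y →
    (C ^ k)⁻¹ * ((adm k H).card : ℝ) ≤ ((((adm k H).filter (fun A =>
      (y : ℝ) * ((C * (Real.log H / Real.log (k + 2))) ^ k)⁻¹ ≤ (primeShifts A y : ℝ))).card : ℕ) : ℝ) := by
  obtain ⟨θ, Cg, hθ, hθ1, hCg, h0, hgen⟩ := gen
  obtain ⟨CU, hCU, h1, hupper⟩ := card_adm_upper
  obtain ⟨cl, h2, hcl, hlow⟩ := adm_lower 0
  obtain ⟨h3, hlarge⟩ := large_H 1
  obtain ⟨h4, hlarge2⟩ := large_H2 θ hθ hθ1 (max h0 h2)
  obtain ⟨e, he⟩ : ∃ e : ℝ, e = Real.exp 1 := ⟨_, rfl⟩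
  have he0 : 0 < e := by rw [he]; exact Real.exp_pos 1
  obtain ⟨C, hC⟩ : ∃ C : ℝ, C = max (max Cg (Real.exp 2)) (Cg * (2 * CU * e / cl)) := ⟨_, rfl⟩
  have hC1 : Cg ≤ C := by rw [hC]; exact le_trans (le_max_left _ _) (le_max_left _ _)
  have hC2 : Real.exp 2 ≤ C := by rw [hC]; exact le_trans (le_max_right _ _) (le_max_left _ _)
  have hC3 : Cg * (2 * CU * e / cl) ≤ C := by rw [hC]; exact le_max_right _ _
  have hCpos : 0 < C := by linarith
  refine ⟨C, hCg.trans hC1, max (max h1 h3) h4, fun k H y hH hk hkH hyH hy => ?_⟩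
  obtain ⟨hH3, hL0, hk2, hlkH, hLH⟩ := hlarge H (le_trans (le_trans (le_max_right _ _) (le_max_left _ _)) hH) k hkH
  obtain ⟨hN, hθH, hhalf, hH16⟩ := hlarge2 H (le_trans (le_max_right _ _) hH)
  have hup := hupper k H (le_trans (le_trans (le_max_left _ _) (le_max_left _ _)) hH) hkH
  have hlk := log_two_add k
  have hHr : (16 : ℝ) ≤ H := by exact_mod_cast hH16
  have hk0 : (1 : ℝ) ≤ k := by exact_mod_cast hk
  have hLam : 1 ≤ Real.log H / Real.log (k + 2) := by rwa [le_div_iff₀ hlk, one_mul]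
  -- `k ≤ log H / 2`
  have hkhalf : (k : ℝ) ≤ Real.log H / 2 := by
    have h5 : Real.exp 2 ^ k ≤ H := by
      calc Real.exp 2 ^ k ≤ (C * (Real.log H / Real.log (k + 2))) ^ k := by
            refine pow_le_pow_left₀ (Real.exp_pos 2).le ?_ k
            have := Real.exp_pos 2
            nlinarith
        _ ≤ y := hy
        _ ≤ H := by exact_mod_cast hyH
    rw [← Real.exp_nat_mul, ← Real.le_log_iff_exp_le (by linarith)] at h5
    linarith
  have hky : k ≤ y := by
    have h5 : (2 : ℝ) ^ k ≤ y := by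
      refine le_trans (pow_le_pow_left₀ (by norm_num) ?_ k) hy
      have h6 : (2 : ℝ) ≤ Real.exp 2 := by
        have := Real.add_one_le_exp (2 : ℝ)
        linarith
      nlinarith
    have h6 : ((2 ^ k : ℕ) : ℝ) ≤ y := by push_cast; exact h5
    have h7 : 2 ^ k ≤ y := by exact_mod_cast h6
    exact (Nat.lt_two_pow_self).le.trans h7
  -- the length of the blocks
  obtain ⟨H', hH'⟩ : ∃ H', H' = H / k := ⟨_, rfl⟩
  have hkH' : k * H' ≤ H := by rw [hH']; exact Nat.mul_div_le _ _
  have hH'1 : (H : ℝ) / (2 * k) ≤ H' := by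
    have h5 : (H : ℝ) < k * ((H' : ℝ) + 1) := by
      have := Nat.lt_mul_div_succ H (show 0 < k by omega)
      rw [← hH'] at this
      exact_mod_cast this
    have h6 : (k : ℝ) * 2 ≤ H := by
      have := Real.log_le_sub_one_of_pos (show (0 : ℝ) < H by linarith)
      linarith
    rw [div_le_iff₀ (by positivity)]
    nlinarith
  have hH'2 : (H : ℝ) / (2 * Real.log H) ≤ H' := by
    refine le_trans ?_ hH'1
    exact div_le_div_of_nonneg_left (by positivity) (by positivity) (by linarith)
  have hH'le : (H' : ℝ) ≤ H := by exact_mod_cast (Nat.div_le_self H k).trans' hH'.le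
  have hH'pos : (0 : ℝ) < H' := lt_of_lt_of_le (by positivity) hH'2
  have hlogH'1 : Real.log H / 2 ≤ Real.log H' := by
    have h5 := Real.log_le_log (by positivity) (hhalf.trans hH'2)
    rw [Real.log_rpow (by linarith)] at h5
    linarith
  have hlogH'2 : Real.log H' ≤ Real.log H := Real.log_le_log hH'pos hH'le
  have hH'nat : max h0 h2 ≤ H' := by
    have : ((max h0 h2 : ℕ) : ℝ) ≤ H' := hN.trans hH'2
    exact_mod_cast this
  -- general theorem
  obtain ⟨l, hl⟩ : ∃ l : Fin k → ℕ, l = fun i : Fin k => (i : ℕ) * H' := ⟨_, rfl⟩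
  have hθi : ∀ i : Fin k, ((2 * 1 * y + l i + H' : ℕ) : ℝ) ^ θ ≤ (H' : ℝ) := by
    intro i
    refine le_trans (Real.rpow_le_rpow (by positivity) ?_ hθ.le) (hθH.trans hH'2)
    have h5 : ((i : ℕ) + 1) * H' ≤ k * H' := Nat.mul_le_mul_right _ i.2
    rw [add_mul, one_mul] at h5
    have h6 : 2 * 1 * y + l i + H' ≤ 3 * H := by
      rw [hl]
      simp only
      omega
    exact_mod_cast h6
  have hprod : ∏ _i : Fin k, (Cg * (Real.log H' / (Real.log (k + 2) * gg k 1))) ≤ y := by
    rw [prod_const, card_univ, Fintype.card_fin, gg_one, mul_one]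
    refine le_trans (pow_le_pow_left₀ ?_ ?_ k) hy
    · have : 0 ≤ Real.log H' := by linarith
      positivity
    · refine mul_le_mul hC1 (div_le_div_of_nonneg_right hlogH'2 hlk.le) ?_ hCpos.le
      have : 0 ≤ Real.log H' := by linarith
      positivity
  have hg := hgen k hk (fun _ => 1) l (fun _ => H') y hky (fun _ => le_trans (le_max_left _ _) hH'nat)
    (fun _ => le_rfl) (fun _ => by linarith) hθi hprod
  have hlw := hlow k (fun _ => 1) l (fun _ => H') (fun _ => le_trans (le_max_right _ _) hH'nat)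
    (fun _ => le_rfl) (fun _ => by simp) (fun _ => by linarith)
  obtain ⟨NB, hNB⟩ : ∃ NB : ℝ, NB = (((Fintype.piFinset (fun i => Ioc (l i) (l i + H'))).filter (fun b => Adm (fun _ => 1) b)).card : ℝ) := ⟨_, rfl⟩
  rw [← hNB] at hg hlw
  rw [prod_const, card_univ, Fintype.card_fin, gg_one, mul_one] at hlw
  -- comparison of the numbers of admissible sets and vectors
  have hcomp : (C ^ k)⁻¹ * ((adm k H).card : ℝ) ≤ (Cg ^ k)⁻¹ * NB := by
    have h5 : ((adm k H).card : ℝ) ≤ (CU * (H / Real.log (k + 2)) * (e / k)) ^ k := by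
      refine hup.trans ?_
      rw [div_le_iff₀ (by positivity)]
      have h6 := pow_div_exp_le k
      rw [← he] at h6
      have h7 : (CU * ((H : ℝ) / Real.log (k + 2))) ^ k = (CU * (H / Real.log (k + 2)) * (e / k)) ^ k * ((k : ℝ) / e) ^ k := by
        rw [← mul_pow]
        congr 1
        field_simp
      rw [h7]
      exact mul_le_mul_of_nonneg_left h6 (by positivity)
    have h6 : ((C ^ k)⁻¹ : ℝ) = (C⁻¹) ^ k := by rw [inv_pow]
    have h7 : ((Cg ^ k)⁻¹ : ℝ) = (Cg⁻¹) ^ k := by rw [inv_pow]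
    rw [h6, h7]
    calc (C⁻¹) ^ k * ((adm k H).card : ℝ) ≤ (C⁻¹) ^ k * (CU * (H / Real.log (k + 2)) * (e / k)) ^ k :=
          mul_le_mul_of_nonneg_left h5 (by positivity)
      _ = (C⁻¹ * (CU * (H / Real.log (k + 2)) * (e / k))) ^ k := by rw [← mul_pow]
      _ ≤ (Cg⁻¹ * (cl * (H' / Real.log (k + 2)))) ^ k := by
          refine pow_le_pow_left₀ (by positivity) ?_ k
          have hCg0 : 0 < Cg := by linarith
          calc C⁻¹ * (CU * (H / Real.log (k + 2)) * (e / k))
              = C⁻¹ * ((2 * CU * e) * ((H / (2 * k)) / Real.log (k + 2))) := by field_simp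
            _ ≤ C⁻¹ * ((2 * CU * e) * (H' / Real.log (k + 2))) := by
                refine mul_le_mul_of_nonneg_left (mul_le_mul_of_nonneg_left ?_ (by positivity)) (by positivity)
                exact div_le_div_of_nonneg_right hH'1 hlk.le
            _ = (C⁻¹ * (2 * CU * e)) * (H' / Real.log (k + 2)) := by ring
            _ ≤ (Cg⁻¹ * cl) * (H' / Real.log (k + 2)) := by
                refine mul_le_mul_of_nonneg_right ?_ (by positivity)
                rw [inv_mul_eq_div, inv_mul_eq_div, div_le_div_iff₀ hCpos hCg0]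
                have h8 : Cg * (2 * CU * e / cl) * cl ≤ C * cl := mul_le_mul_of_nonneg_right hC3 hcl.le
                have h9 : Cg * (2 * CU * e / cl) * cl = 2 * CU * e * Cg := by field_simp
                linarith
            _ = Cg⁻¹ * (cl * (H' / Real.log (k + 2))) := by ring
      _ = (Cg⁻¹) ^ k * (cl * (H' / Real.log (k + 2))) ^ k := by rw [mul_pow]
      _ ≤ (Cg⁻¹) ^ k * NB := mul_le_mul_of_nonneg_left hlw (by positivity)
  refine hcomp.trans (hg.trans ?_)
  -- the injection
  have hinj : ((Fintype.piFinset (fun i => Ioc (l i) (l i + H'))).filter (fun b => Adm (fun _ => 1) b ∧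
        (y : ℝ) * ∏ _i : Fin k, (Cg * (Real.log H' / (Real.log (k + 2) * gg k 1)))⁻¹ ≤
          (((Ioc y (2 * y)).filter (fun n => ∀ i, (1 * n + b i).Prime)).card : ℝ))).card ≤
      ((adm k H).filter (fun A =>
      (y : ℝ) * ((C * (Real.log H / Real.log (k + 2))) ^ k)⁻¹ ≤ (primeShifts A y : ℝ))).card := by
    refine card_le_card_of_injOn (fun b => univ.image b) ?_ ?_
    · intro b hb
      rw [Finset.mem_coe, mem_filter, Fintype.mem_piFinset] at hb
      obtain ⟨hb1, hb2, hb3⟩ := hb
      have hbl : ∀ i : Fin k, b i ∈ Ioc ((i : ℕ) * H') ((i : ℕ) * H' + H') := fun i => by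
        have := hb1 i
        rw [hl] at this
        exact this
      have hbinj : Function.Injective b := by
        intro i j hij
        have h5 := hbl i
        rw [hij] at h5
        exact Fin.ext (block_eq h5 (hbl j))
      rw [Finset.mem_coe, mem_filter]
      simp only
      refine ⟨?_, ?_⟩
      · unfold adm
        rw [mem_filter, mem_powersetCard]
        refine ⟨⟨?_, ?_⟩, ?_⟩
        · intro x hx
          rw [mem_image] at hx
          obtain ⟨i, -, rfl⟩ := hx
          have h5 := hbl i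
          rw [mem_Ioc] at h5
          have h6 : ((i : ℕ) + 1) * H' ≤ k * H' := Nat.mul_le_mul_right _ i.2
          rw [add_mul, one_mul] at h6
          rw [mem_range]
          omega
        · rw [card_image_of_injective _ hbinj, card_univ, Fintype.card_fin]
        · rw [admissible_iff]
          intro p hp
          obtain ⟨n, hn⟩ := hb2 p hp
          refine ⟨n, fun a ha => ?_⟩
          rw [mem_image] at ha
          obtain ⟨i, -, rfl⟩ := ha
          exact hn i
      · have h5 : (((Ioc y (2 * y)).filter (fun n => ∀ i, (1 * n + b i).Prime)).card : ℝ) = (primeShifts (univ.image b) y : ℝ) := by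
          unfold primeShifts
          congr 2
          ext n
          rw [mem_filter, mem_filter]
          refine and_congr_right fun _ => ?_
          constructor
          · intro h6 a ha
            rw [mem_image] at ha
            obtain ⟨i, -, rfl⟩ := ha
            have := h6 i
            rwa [one_mul] at this
          · intro h6 i
            rw [one_mul]
            exact h6 _ (mem_image_of_mem _ (mem_univ i))
        rw [← h5]
        refine le_trans ?_ hb3
        refine mul_le_mul_of_nonneg_left ?_ (by positivity)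
        rw [prod_const, card_univ, Fintype.card_fin, gg_one, mul_one, inv_pow]
        have h6 : 0 < Real.log H' := by linarith
        have hCg0 : 0 < Cg := by linarith
        refine inv_anti₀ (by positivity) (pow_le_pow_left₀ (by positivity) ?_ k)
        exact mul_le_mul hC1 (div_le_div_of_nonneg_right hlogH'2 hlk.le) (by positivity) hCpos.le
    · intro b hb b' hb' hbb
      rw [Finset.mem_coe, mem_filter, Fintype.mem_piFinset] at hb hb'
      simp only at hbb
      funext i
      have h5 : b i ∈ univ.image b' := by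
        rw [← hbb]
        exact mem_image_of_mem _ (mem_univ i)
      rw [mem_image] at h5
      obtain ⟨j, -, hj⟩ := h5
      have h6 := hb.1 i
      have h7 := hb'.1 j
      rw [hl] at h6 h7
      simp only at h6 h7
      rw [hj] at h7
      have h8 := block_eq h6 h7
      have h9 : i = j := Fin.ext h8
      rw [h9] at hj ⊢
      exact hj.symm
  exact_mod_cast hinj

open Classical in
theorem sets_upper : ∃ C : ℝ, 1 ≤ C ∧ ∃ H0 : ℕ, ∀ k H y : ℕ, H0 ≤ H → (k : ℝ) ≤ Real.log H →
    ((((powersetCard k (range (H + 1))).filter (fun A => ∃ n ∈ Icc 1 y, ∀ a ∈ A, (n + a).Prime)).card : ℕ) : ℝ) ≤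
      y * (C * (Real.log (k + 2) / Real.log H)) ^ k * ((adm k H).card : ℝ) := by
  obtain ⟨c, hc, h1, hlow⟩ := card_adm_lower
  obtain ⟨h2, hlarge⟩ := large_H 1
  refine ⟨max 1 (40 / c), le_max_left _ _, max h1 h2, fun k H y hH hk => ?_⟩
  obtain ⟨hH3, hL0, hk2, hlkH, hLH⟩ := hlarge H (le_trans (le_max_right _ _) hH) k hk
  have hl := hlow k H (le_trans (le_max_left _ _) hH) hk
  have hlk := log_two_add k
  have hHr : (3 : ℝ) ≤ H := by exact_mod_cast hH3
  obtain ⟨C, hC⟩ : ∃ C : ℝ, C = max 1 (40 / c) := ⟨_, rfl⟩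
  have hC1 : 40 / c ≤ C := by rw [hC]; exact le_max_right _ _
  rw [← hC]
  have hCpos : 0 < C := by rw [hC]; positivity
  have hsub : (powersetCard k (range (H + 1))).filter (fun A => ∃ n ∈ Icc 1 y, ∀ a ∈ A, (n + a).Prime) ⊆
      (Icc 1 y).biUnion (fun n => powersetCard k ((range (H + 1)).filter (fun a => (n + a).Prime))) := by
    intro A hA
    rw [mem_filter, mem_powersetCard] at hA
    obtain ⟨⟨hA1, hA2⟩, n, hn, hA3⟩ := hA
    rw [mem_biUnion]
    refine ⟨n, hn, ?_⟩
    rw [mem_powersetCard]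
    exact ⟨fun a ha => mem_filter.2 ⟨hA1 ha, hA3 a ha⟩, hA2⟩
  have hP : ∀ n ∈ Icc 1 y, ((((range (H + 1)).filter (fun a => (n + a).Prime)).card : ℕ) : ℝ) ≤ 40 * (H / Real.log H) := by
    intro n hn
    rw [mem_Icc] at hn
    have h3 : ((range (H + 1)).filter (fun a => (n + a).Prime)).card ≤
        ((Ioc (n - 1) (n - 1 + (H + 1))).filter Nat.Prime).card := by
      refine card_le_card_of_injOn (fun a => n + a) ?_ ?_
      · intro a ha
        rw [Finset.mem_coe, mem_filter, mem_range] at ha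
        rw [Finset.mem_coe, mem_filter, mem_Ioc]
        simp only
        exact ⟨by omega, ha.2⟩
      · intro a _ b _ hab
        simp only at hab
        omega
    have h4 : (((Ioc (n - 1) (n - 1 + (H + 1))).filter Nat.Prime).card : ℝ) ≤ 20 * (((H + 1 : ℕ) : ℝ) / Real.log ((H + 1 : ℕ) : ℝ)) :=
      Pool.Agent.Q160.TB.bt_int (by omega)
    have h5 : (((H + 1 : ℕ) : ℝ) / Real.log ((H + 1 : ℕ) : ℝ)) ≤ 2 * (H / Real.log H) := by
      have h6 : Real.log H ≤ Real.log ((H + 1 : ℕ) : ℝ) := by
        refine Real.log_le_log (by linarith) ?_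
        push_cast
        linarith
      rw [← mul_div_assoc]
      refine div_le_div₀ (by positivity) ?_ hL0 h6
      push_cast
      linarith
    calc ((((range (H + 1)).filter (fun a => (n + a).Prime)).card : ℕ) : ℝ)
        ≤ (((Ioc (n - 1) (n - 1 + (H + 1))).filter Nat.Prime).card : ℝ) := by exact_mod_cast h3
      _ ≤ 20 * (2 * (H / Real.log H)) := h4.trans (mul_le_mul_of_nonneg_left h5 (by norm_num))
      _ = _ := by ring
  calc ((((powersetCard k (range (H + 1))).filter (fun A => ∃ n ∈ Icc 1 y, ∀ a ∈ A, (n + a).Prime)).card : ℕ) : ℝ)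
      ≤ ∑ n ∈ Icc 1 y, ((powersetCard k ((range (H + 1)).filter (fun a => (n + a).Prime))).card : ℝ) := by
        exact_mod_cast (card_le_card hsub).trans card_biUnion_le
    _ ≤ ∑ n ∈ Icc 1 y, (40 * (H / Real.log H)) ^ k / k.factorial := by
        refine sum_le_sum fun n hn => ?_
        rw [card_powersetCard]
        refine (Nat.choose_le_pow_div k _).trans ?_
        exact div_le_div_of_nonneg_right (pow_le_pow_left₀ (by positivity) (hP n hn) k) (by positivity)
    _ = y * ((40 * (H / Real.log H)) ^ k / k.factorial) := by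
        rw [sum_const, nsmul_eq_mul, Nat.card_Icc]
        congr 2
    _ ≤ y * ((C * (Real.log (k + 2) / Real.log H)) ^ k * ((c * (H / Real.log (k + 2))) ^ k / k.factorial)) := by
        refine mul_le_mul_of_nonneg_left ?_ (by positivity)
        rw [← mul_div_assoc ((C * (Real.log (k + 2) / Real.log H)) ^ k), ← mul_pow]
        refine div_le_div_of_nonneg_right (pow_le_pow_left₀ (by positivity) ?_ k) (by positivity)
        have h6 : C * (Real.log (k + 2) / Real.log H) * (c * (H / Real.log (k + 2))) = (C * c) * (H / Real.log H) := by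
          field_simp
        rw [h6]
        refine mul_le_mul_of_nonneg_right ?_ (by positivity)
        rwa [div_le_iff₀ hc] at hC1
    _ ≤ y * ((C * (Real.log (k + 2) / Real.log H)) ^ k * ((adm k H).card : ℝ)) := by
        refine mul_le_mul_of_nonneg_left (mul_le_mul_of_nonneg_left hl (by positivity)) (by positivity)
    _ = _ := by ring

end Pool.Agent.Q160.GK
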