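import Mathlib
import Pool.Agent.Q160.GK4

set_option autoImplicit false

/-!
# Systems of distinct forms
-/

namespace Pool.Agent.Q160.GK

open Finset Filter
open Pool.Agent.H373R2.T7
open Pool.Agent.H305R2 (VV VV_tendsto)

/-- the forms `a i * x + b i` are distinct -/
def Dist {k : ℕ} (a b : Fin k → ℕ) : Prop := ∀ i j, i ≠ j → ¬ (a i = a j ∧ b i = b j)

/-- bound for `gg` -/
theorem gg_le (A : ℕ) : ∃ C : ℝ, 0 < C ∧ ∃ h0 : ℕ, ∀ k a h : ℕ, h0 ≤ h → 1 ≤ a → a ≤ h ^ A →
    (k : ℝ) ≤ Real.log h → Real.log (k + 2) * gg k a ≤ C * Real.log h ^ 2 := by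
  obtain ⟨c, C1, hc, hC1, hVV⟩ := VV_bounds
  obtain ⟨D, hD⟩ : ∃ D : ℝ, D = 2 ^ (2 * A) := ⟨_, rfl⟩
  have hD1 : 1 ≤ D := by rw [hD]; exact one_le_pow₀ (by norm_num)
  refine ⟨D * (C1 * 2) * 2, by positivity, 16, fun k a h hh ha haA hk => ?_⟩
  obtain ⟨y, hy⟩ : ∃ y, y = Nat.sqrt h := ⟨_, rfl⟩
  have hyh : y ≤ h := by rw [hy]; exact Nat.sqrt_le_self h
  have hhy : h < (y + 1) ^ 2 := by
    rw [hy, sq]
    exact Nat.lt_succ_sqrt h
  have hhr : (16 : ℝ) ≤ h := by exact_mod_cast hh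
  have hL0 : 0 < Real.log h := Real.log_pos (by linarith)
  obtain ⟨U1, hU1⟩ : ∃ U1, U1 = (a.primeFactors.filter (fun p => k < p)).filter (fun p => p ≤ y) := ⟨_, rfl⟩
  obtain ⟨U2, hU2⟩ : ∃ U2, U2 = (a.primeFactors.filter (fun p => k < p)).filter (fun p => ¬ p ≤ y) := ⟨_, rfl⟩
  have hgU : gg k a = (∏ p ∈ U1, (1 - (p : ℝ)⁻¹)⁻¹) * ∏ p ∈ U2, (1 - (p : ℝ)⁻¹)⁻¹ := by
    rw [hU1, hU2, prod_filter_mul_prod_filter_not]
    rfl
  have hy1 : 1 ≤ y := by
    by_contra hcon
    have : y = 0 := by omega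
    rw [this] at hhy
    omega
  have hU2D : ∏ p ∈ U2, (1 - (p : ℝ)⁻¹)⁻¹ ≤ D := by
    have h3 : U2.card ≤ 2 * A := by
      have h4 : U2.card ≤ (a.primeFactors.filter (fun p => y < p)).card := by
        apply card_le_card
        intro p hp
        rw [hU2, mem_filter, mem_filter] at hp
        rw [mem_filter]
        exact ⟨hp.1.1, by omega⟩
      have h5 : (y + 1) ^ (a.primeFactors.filter (fun p => y < p)).card ≤ (y + 1) ^ (2 * A) := by
        calc (y + 1) ^ (a.primeFactors.filter (fun p => y < p)).card ≤ a := card_big_pf y a (by omega)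
          _ ≤ h ^ A := haA
          _ ≤ ((y + 1) ^ 2) ^ A := Nat.pow_le_pow_left hhy.le _
          _ = (y + 1) ^ (2 * A) := by rw [← pow_mul]
      exact h4.trans ((Nat.pow_le_pow_iff_right (by omega)).1 h5)
    calc ∏ p ∈ U2, (1 - (p : ℝ)⁻¹)⁻¹ ≤ ∏ _p ∈ U2, (2 : ℝ) := by
          refine prod_le_prod (fun p hp => ?_) fun p hp => ?_
          · rw [hU2, mem_filter, mem_filter] at hp
            exact zero_le_one.trans (one_le_fac (pf_two hp.1.1))
          · rw [hU2, mem_filter, mem_filter] at hp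
            exact fac_le_two (pf_two hp.1.1)
      _ = 2 ^ U2.card := prod_const _
      _ ≤ D := by rw [hD]; exact pow_le_pow_right₀ (by norm_num) h3
  have hU1W : ∏ p ∈ U1, (1 - (p : ℝ)⁻¹)⁻¹ ≤ VV y := by
    rw [VV_def]
    refine prod_le_prod_sub ?_ fun p hp => (mem_pz.1 hp).2.two_le
    intro p hp
    rw [hU1, mem_filter, mem_filter] at hp
    rw [mem_pz]
    exact ⟨hp.2, Nat.prime_of_mem_primeFactors hp.1.1⟩
  have hU10 : 0 < ∏ p ∈ U1, (1 - (p : ℝ)⁻¹)⁻¹ := lt_of_lt_of_le one_pos (one_le_prod fun p hp => by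
    rw [hU1, mem_filter, mem_filter] at hp
    exact pf_two hp.1.1)
  have hlog2 : ∀ t : ℝ, 0 ≤ t → t ≤ h → Real.log (t + 2) ≤ 2 * Real.log h := by
    intro t ht0 ht
    rw [← Real.log_rpow (by linarith), Real.rpow_two]
    exact Real.log_le_log (by linarith) (by nlinarith)
  have hkh : (k : ℝ) ≤ h := by
    have := Real.log_le_sub_one_of_pos (show (0 : ℝ) < h by linarith)
    linarith
  have h1 := hlog2 k (Nat.cast_nonneg k) hkh
  have h2 := hlog2 y (Nat.cast_nonneg y) (by exact_mod_cast hyh)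
  have hgle : gg k a ≤ D * (C1 * 2) * Real.log h := by
    rw [hgU, mul_comm]
    calc (∏ p ∈ U2, (1 - (p : ℝ)⁻¹)⁻¹) * ∏ p ∈ U1, (1 - (p : ℝ)⁻¹)⁻¹ ≤ D * (C1 * (2 * Real.log h)) := by
          refine mul_le_mul hU2D (hU1W.trans ((hVV y).2.trans ?_)) hU10.le (by positivity)
          exact mul_le_mul_of_nonneg_left h2 hC1.le
      _ = _ := by ring
  have hgg0 : 0 < gg k a := lt_of_lt_of_le one_pos (one_le_gg k a)
  calc Real.log (k + 2) * gg k a ≤ (2 * Real.log h) * (D * (C1 * 2) * Real.log h) :=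
        mul_le_mul h1 hgle hgg0.le (by positivity)
    _ = D * (C1 * 2) * 2 * Real.log h ^ 2 := by ring

open Classical in
/-- the number of vectors in a box with `b i = b j` -/
lemma card_eq_pair {k : ℕ} (S : Fin k → Finset ℕ) (i j : Fin k) (hij : i ≠ j) :
    ((Fintype.piFinset S).filter (fun b => b i = b j)).card ≤ ∏ l ∈ univ.erase j, (S l).card := by
  have h1 : ((Fintype.piFinset S).filter (fun b => b i = b j)).card ≤
      (Fintype.piFinset (Function.update S j {0})).card := by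
    refine card_le_card_of_injOn (fun b => Function.update b j 0) ?_ ?_
    · intro b hb
      rw [Finset.mem_coe, mem_filter, Fintype.mem_piFinset] at hb
      rw [Finset.mem_coe, Fintype.mem_piFinset]
      intro l
      simp only
      by_cases hl : l = j
      · rw [hl, Function.update_self, Function.update_self, mem_singleton]
      · rw [Function.update_of_ne hl, Function.update_of_ne hl]
        exact hb.1 l
    · intro b hb b' hb' h
      rw [Finset.mem_coe, mem_filter] at hb hb'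
      simp only at h
      have h2 : ∀ l, l ≠ j → b l = b' l := by
        intro l hl
        have := congrFun h l
        rwa [Function.update_of_ne hl, Function.update_of_ne hl] at this
      funext l
      by_cases hl : l = j
      · rw [hl, ← hb.2, ← hb'.2]
        exact h2 i hij
      · exact h2 l hl
  refine h1.trans (le_of_eq ?_)
  rw [Fintype.card_piFinset, ← Finset.mul_prod_erase univ _ (mem_univ j), Function.update_self, card_singleton, one_mul]
  refine prod_congr rfl fun l hl => ?_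
  rw [Function.update_of_ne (ne_of_mem_erase hl)]

open Classical in
theorem adm_cover (A : ℕ) : ∃ C : ℝ, ∃ h0 : ℕ, 0 < C ∧ ∀ k : ℕ, ∀ a l h : Fin k → ℕ, (∀ i, h0 ≤ h i) →
    (∀ i, 1 ≤ a i) → (∀ i, a i ≤ h i ^ A) → (∀ i, (k : ℝ) ≤ Real.log (h i)) →
    ∃ (ι : Type) (I : Finset ι) (S : ι → Fin k → Finset ℕ), (I.card : ℝ) ≤ 4 ^ k ∧
      (∀ s i, ((S s i).card : ℝ) ≤ C * (h i / (Real.log (k + 2) * gg k (a i)))) ∧
      (Fintype.piFinset (fun i => Ioc (l i) (l i + h i))).filter (fun b => Adm a b) ⊆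
        I.biUnion (fun s => Fintype.piFinset (S s)) := by
  obtain ⟨C, h0, hC, hcs⟩ := class_sieve A
  refine ⟨C, h0, hC, fun k a l h hh ha haA hk => ?_⟩
  obtain ⟨Sp, hSp⟩ : ∃ Sp : ((p : ℕ) → p ∈ pz k → ℕ) → ℕ → ℕ,
    Sp = fun s p => if hp : p ∈ pz k then s p hp else 0 := ⟨_, rfl⟩
  obtain ⟨S, hS⟩ : ∃ S : ((p : ℕ) → p ∈ pz k → ℕ) → Fin k → Finset ℕ, S = fun s i =>
    (Ioc (l i) (l i + h i)).filter (fun b => (∀ p ∈ pz k, ¬ p ∣ a i * Sp s p + b) ∧ b.Coprime (a i)) := ⟨_, rfl⟩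
  refine ⟨((p : ℕ) → p ∈ pz k → ℕ), (pz k).pi (fun p => range p), S, ?_, ?_, ?_⟩
  · rw [Finset.card_pi]
    have h1 : ∏ p ∈ pz k, (range p).card = ∏ p ∈ pz k, p := prod_congr rfl fun p _ => card_range p
    rw [h1]
    exact_mod_cast prod_pz_le k
  · intro s i
    rw [hS]
    exact hcs k (a i) (l i) (h i) (hh i) (ha i) (haA i) (hk i) (Sp s)
  · intro b hb
    rw [mem_filter, Fintype.mem_piFinset] at hb
    obtain ⟨hb1, hb2⟩ := hb
    unfold Adm at hb2
    choose! n hn using hb2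
    rw [mem_biUnion]
    refine ⟨fun p _ => n p % p, ?_, ?_⟩
    · rw [Finset.mem_pi]
      intro p hp
      rw [mem_range]
      exact Nat.mod_lt _ (mem_pz.1 hp).2.pos
    · rw [Fintype.mem_piFinset]
      intro i
      rw [hS]
      simp only [mem_filter]
      refine ⟨hb1 i, ?_, ?_⟩
      · intro p hp
        rw [hSp]
        simp only [hp, dif_pos]
        rw [dvd_mul_mod]
        exact hn p (mem_pz.1 hp).2 i
      · rw [Nat.coprime_iff_gcd_eq_one]
        by_contra hcon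
        obtain ⟨p, hp, hpg⟩ := Nat.exists_prime_and_dvd hcon
        have hp1 := hpg.trans (Nat.gcd_dvd_left _ _)
        have hp2 := hpg.trans (Nat.gcd_dvd_right _ _)
        exact hn p hp i (dvd_add (Dvd.dvd.mul_right hp2 _) hp1)

open Classical in
/-- systems with a repeated form are rare -/
theorem coinc (A : ℕ) (E : ℝ) (hE : 1 ≤ E) : ∃ C : ℝ, 1 ≤ C ∧ ∀ k : ℕ, ∀ a l h : Fin k → ℕ,
    (∀ i, 1 ≤ a i) → (∀ i, a i ≤ h i ^ A) → (∀ i, C * k ≤ Real.log (h i)) →
    E ^ k * (((Fintype.piFinset (fun i => Ioc (l i) (l i + h i))).filter (fun b => Adm a b ∧ ¬ Dist a b)).card : ℝ) ≤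
      (((Fintype.piFinset (fun i => Ioc (l i) (l i + h i))).filter (fun b => Adm a b)).card : ℝ) := by
  obtain ⟨CU, h1, hCU, hcover⟩ := adm_cover A
  obtain ⟨c, h2, hc, hlow⟩ := adm_lower A
  obtain ⟨Cg, hCg, h3, hgg⟩ := gg_le A
  obtain ⟨B, hB⟩ : ∃ B : ℝ, B = max 1 (16 * E * (CU / c)) := ⟨_, rfl⟩
  have hB1 : 1 ≤ B := by rw [hB]; exact le_max_left _ _
  have hB2 : 16 * E * (CU / c) ≤ B := by rw [hB]; exact le_max_right _ _
  obtain ⟨h4, hlarge⟩ : ∃ h4 : ℕ, ∀ h : ℕ, h4 ≤ h → (h : ℝ) ^ (1 / 2 : ℝ) * (Cg * Real.log h ^ 2) ≤ CU * h ∧ 3 ≤ h := by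
    have h3 : (fun x : ℝ => Real.log x ^ 2) =o[atTop] (fun x : ℝ => x ^ (1 / 2 : ℝ)) := by
      have := isLittleO_log_rpow_rpow_atTop ((2 : ℕ) : ℝ) (show (0 : ℝ) < 1 / 2 by norm_num)
      simpa [Real.rpow_natCast] using this
    have h5 := (tendsto_natCast_atTop_atTop.eventually (h3.bound (show (0 : ℝ) < CU / Cg by positivity))).and
      (eventually_ge_atTop 3)
    obtain ⟨h4, hh4⟩ := eventually_atTop.1 h5
    refine ⟨h4, fun h hh => ?_⟩
    obtain ⟨h6, h8⟩ := hh4 h hh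
    have hh0 : (3 : ℝ) ≤ h := by exact_mod_cast h8
    refine ⟨?_, h8⟩
    rw [Real.norm_eq_abs, Real.norm_eq_abs, abs_of_nonneg (by positivity), abs_of_nonneg (by positivity)] at h6
    have h9 : (h : ℝ) ^ (1 / 2 : ℝ) * (h : ℝ) ^ (1 / 2 : ℝ) = h := by
      rw [← Real.rpow_add (by linarith)]
      norm_num
    calc (h : ℝ) ^ (1 / 2 : ℝ) * (Cg * Real.log h ^ 2)
        ≤ (h : ℝ) ^ (1 / 2 : ℝ) * (Cg * (CU / Cg * (h : ℝ) ^ (1 / 2 : ℝ))) := by
          refine mul_le_mul_of_nonneg_left (mul_le_mul_of_nonneg_left h6 hCg.le) (by positivity)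
      _ = CU * ((h : ℝ) ^ (1 / 2 : ℝ) * (h : ℝ) ^ (1 / 2 : ℝ)) := by field_simp
      _ = CU * h := by rw [h9]
  -- the constant
  obtain ⟨C, hC⟩ : ∃ C : ℝ, C = max 1 (2 * Real.log B) + Real.log (max (max h1 h2) (max h3 h4) + 1 : ℕ) := ⟨_, rfl⟩
  have hN1 : 0 ≤ Real.log (max (max h1 h2) (max h3 h4) + 1 : ℕ) := Real.log_natCast_nonneg _
  have hCa : 1 ≤ C := by
    rw [hC]
    have := le_max_left 1 (2 * Real.log B)
    linarith
  have hCb : 2 * Real.log B ≤ C := by
    rw [hC]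
    have := le_max_right 1 (2 * Real.log B)
    linarith
  have hCc : Real.log (max (max h1 h2) (max h3 h4) + 1 : ℕ) ≤ C := by
    rw [hC]
    have := le_max_left 1 (2 * Real.log B)
    linarith
  refine ⟨C, hCa, fun k a l h ha haA hkh => ?_⟩
  rcases Nat.eq_zero_or_pos k with hk0 | hk
  · subst hk0
    have h5 : ∀ b : Fin 0 → ℕ, ¬ (Adm a b ∧ ¬ Dist a b) := by
      intro b hb
      exact hb.2 (fun i => i.elim0)
    rw [filter_false_of_mem (fun b _ => h5 b), card_empty]
    simp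
  have hkr : (1 : ℝ) ≤ k := by exact_mod_cast hk
  have hbig : ∀ i, max (max h1 h2) (max h3 h4) ≤ h i := by
    intro i
    have h5 : Real.log (max (max h1 h2) (max h3 h4) + 1 : ℕ) ≤ Real.log (h i) := by
      have := hkh i
      nlinarith
    have h6 : (0 : ℝ) < h i := by
      by_contra hcon
      push Not at hcon
      have h7 : (h i : ℝ) = 0 := le_antisymm hcon (Nat.cast_nonneg _)
      have h8 := hkh i
      rw [h7, Real.log_zero] at h8
      nlinarith
    have h7 := (Real.log_le_log_iff (by positivity) h6).1 h5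
    have h8 : max (max h1 h2) (max h3 h4) + 1 ≤ h i := by exact_mod_cast h7
    omega
  have hh1 : ∀ i, h1 ≤ h i := fun i => le_trans (le_trans (le_max_left _ _) (le_max_left _ _)) (hbig i)
  have hh2 : ∀ i, h2 ≤ h i := fun i => le_trans (le_trans (le_max_right _ _) (le_max_left _ _)) (hbig i)
  have hh3 : ∀ i, h3 ≤ h i := fun i => le_trans (le_trans (le_max_left _ _) (le_max_right _ _)) (hbig i)
  have hh4 : ∀ i, h4 ≤ h i := fun i => le_trans (le_trans (le_max_right _ _) (le_max_right _ _)) (hbig i)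
  have hkL : ∀ i, (k : ℝ) ≤ Real.log (h i) := fun i => by
    have := hkh i
    nlinarith
  obtain ⟨ι, I, S, hI, hS, hcov⟩ := hcover k a l h hh1 ha haA hkL
  have hlw := hlow k a l h hh2 ha haA hkL
  have hlk := log_two_add k
  obtain ⟨T, hT⟩ : ∃ T : Fin k → ℝ, T = fun i => CU * (h i / (Real.log (k + 2) * gg k (a i))) := ⟨_, rfl⟩
  have hhr : ∀ i, (3 : ℝ) ≤ h i := fun i => by exact_mod_cast (hlarge (h i) (hh4 i)).2
  have hT0 : ∀ i, 0 < T i := fun i => by
    rw [hT]
    have := one_le_gg k (a i)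
    have := hhr i
    positivity
  have hTbig : ∀ i, B ^ k ≤ T i := by
    intro i
    have h5 := hgg k (a i) (h i) (hh3 i) (ha i) (haA i) (hkL i)
    have h6 := (hlarge (h i) (hh4 i)).1
    have h7 := one_le_gg k (a i)
    have h8 : (h i : ℝ) ^ (1 / 2 : ℝ) ≤ T i := by
      rw [hT]
      simp only
      rw [← mul_div_assoc, le_div_iff₀ (by positivity)]
      refine le_trans (mul_le_mul_of_nonneg_left h5 (by positivity)) h6
    refine le_trans ?_ h8
    have h9 : B ^ k = Real.exp (k * Real.log B) := by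
      rw [Real.exp_nat_mul, Real.exp_log (by linarith)]
    have h10 : (h i : ℝ) ^ (1 / 2 : ℝ) = Real.exp (Real.log (h i) * (1 / 2)) :=
      Real.rpow_def_of_pos (by linarith [hhr i]) _
    rw [h9, h10]
    refine Real.exp_le_exp.2 ?_
    have h11 := hkh i
    have h12 : 2 * Real.log B * k ≤ C * k := mul_le_mul_of_nonneg_right hCb (by positivity)
    linarith
  -- the count of coincidences
  have hsub : (Fintype.piFinset (fun i => Ioc (l i) (l i + h i))).filter (fun b => Adm a b ∧ ¬ Dist a b) ⊆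
      I.biUnion (fun s => (univ : Finset (Fin k × Fin k)).biUnion (fun ij =>
        if ij.1 ≠ ij.2 then (Fintype.piFinset (S s)).filter (fun b => b ij.1 = b ij.2) else ∅)) := by
    intro b hb
    rw [mem_filter] at hb
    obtain ⟨hb1, hb2, hb3⟩ := hb
    have h5 := hcov (mem_filter.2 ⟨hb1, hb2⟩)
    rw [mem_biUnion] at h5 ⊢
    obtain ⟨s, hs, hbs⟩ := h5
    refine ⟨s, hs, ?_⟩
    unfold Dist at hb3
    push Not at hb3
    obtain ⟨i, j, hij, -, hbij⟩ := hb3
    rw [mem_biUnion]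
    refine ⟨(i, j), mem_univ _, ?_⟩
    simp only
    rw [if_pos hij, mem_filter]
    exact ⟨hbs, hbij⟩
  have hcount : (((Fintype.piFinset (fun i => Ioc (l i) (l i + h i))).filter (fun b => Adm a b ∧ ¬ Dist a b)).card : ℝ) ≤
      4 ^ k * ((k : ℝ) ^ 2 * ((∏ i, T i) / B ^ k)) := by
    have hterm : ∀ s ∈ I, ∀ ij : Fin k × Fin k,
        (((if ij.1 ≠ ij.2 then (Fintype.piFinset (S s)).filter (fun b => b ij.1 = b ij.2) else ∅ : Finset (Fin k → ℕ)).card : ℕ) : ℝ) ≤
        (∏ i, T i) / B ^ k := by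
      intro s _ ij
      split_ifs with hij
      · have h5 := card_eq_pair (S s) ij.1 ij.2 hij
        have h6 : (((Fintype.piFinset (S s)).filter (fun b => b ij.1 = b ij.2)).card : ℝ) ≤
            ∏ l ∈ univ.erase ij.2, ((S s l).card : ℝ) := by exact_mod_cast h5
        refine h6.trans ?_
        rw [le_div_iff₀ (by positivity)]
        calc (∏ l ∈ univ.erase ij.2, ((S s l).card : ℝ)) * B ^ k ≤ (∏ l ∈ univ.erase ij.2, T l) * T ij.2 := by
              refine mul_le_mul ?_ (hTbig _) (by positivity) (prod_nonneg fun i _ => (hT0 i).le)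
              refine prod_le_prod (fun i _ => by positivity) fun i _ => ?_
              rw [hT]
              exact hS s i
          _ = ∏ i, T i := by rw [mul_comm, Finset.mul_prod_erase univ _ (mem_univ _)]
      · rw [card_empty, Nat.cast_zero]
        exact div_nonneg (prod_nonneg fun i _ => (hT0 i).le) (by positivity)
    calc (((Fintype.piFinset (fun i => Ioc (l i) (l i + h i))).filter (fun b => Adm a b ∧ ¬ Dist a b)).card : ℝ)
        ≤ ∑ s ∈ I, ∑ ij : Fin k × Fin k, (((if ij.1 ≠ ij.2 then (Fintype.piFinset (S s)).filter (fun b => b ij.1 = b ij.2) else ∅ : Finset (Fin k → ℕ)).card : ℕ) : ℝ) := by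
          have h5 := (card_le_card hsub).trans (card_biUnion_le.trans (sum_le_sum fun s _ => card_biUnion_le))
          exact_mod_cast h5
      _ ≤ ∑ s ∈ I, ∑ _ij : Fin k × Fin k, (∏ i, T i) / B ^ k :=
          sum_le_sum fun s hs => sum_le_sum fun ij _ => hterm s hs ij
      _ = (I.card : ℝ) * ((k : ℝ) ^ 2 * ((∏ i, T i) / B ^ k)) := by
          rw [sum_const, sum_const, nsmul_eq_mul, nsmul_eq_mul, card_univ, Fintype.card_prod, Fintype.card_fin]
          push_cast
          ring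
      _ ≤ 4 ^ k * ((k : ℝ) ^ 2 * ((∏ i, T i) / B ^ k)) := by
          refine mul_le_mul_of_nonneg_right hI ?_
          have := prod_nonneg (s := (univ : Finset (Fin k))) fun i _ => (hT0 i).le
          positivity
  have hk4 : (k : ℝ) ^ 2 ≤ 4 ^ k := by
    have h5 : k ≤ 2 ^ k := (Nat.lt_two_pow_self).le
    have h6 : (k : ℝ) ≤ 2 ^ k := by exact_mod_cast h5
    calc (k : ℝ) ^ 2 ≤ (2 ^ k) ^ 2 := pow_le_pow_left₀ (by positivity) h6 2
      _ = 4 ^ k := by rw [← pow_mul, mul_comm, pow_mul]; norm_num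
  have hPT : 0 < ∏ i, T i := prod_pos fun i _ => hT0 i
  have hlw2 : (c / CU) ^ k * ∏ i, T i ≤
      (((Fintype.piFinset (fun i => Ioc (l i) (l i + h i))).filter (fun b => Adm a b)).card : ℝ) := by
    refine le_trans (le_of_eq ?_) hlw
    have h5 : (c / CU) ^ k = ∏ _i : Fin k, (c / CU) := by rw [prod_const, card_univ, Fintype.card_fin]
    rw [h5, ← prod_mul_distrib, hT]
    refine prod_congr rfl fun i _ => ?_
    field_simp
  refine le_trans ?_ hlw2
  calc E ^ k * (((Fintype.piFinset (fun i => Ioc (l i) (l i + h i))).filter (fun b => Adm a b ∧ ¬ Dist a b)).card : ℝ)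
      ≤ E ^ k * (4 ^ k * (4 ^ k * ((∏ i, T i) / B ^ k))) := by
        refine mul_le_mul_of_nonneg_left (hcount.trans ?_) (by positivity)
        refine mul_le_mul_of_nonneg_left (mul_le_mul_of_nonneg_right hk4 (by positivity)) (by positivity)
    _ = (16 * E * (1 / B)) ^ k * ∏ i, T i := by
        rw [mul_pow, mul_pow, one_div, inv_pow]
        have : (16 : ℝ) ^ k = 4 ^ k * 4 ^ k := by rw [← mul_pow]; norm_num
        rw [this]
        ring
    _ ≤ (c / CU) ^ k * ∏ i, T i := by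
        refine mul_le_mul_of_nonneg_right (pow_le_pow_left₀ (by positivity) ?_ k) hPT.le
        rw [mul_one_div, div_le_div_iff₀ (by linarith) hCU]
        calc 16 * E * CU = c * (16 * E * (CU / c)) := by field_simp
          _ ≤ c * B := mul_le_mul_of_nonneg_left hB2 hc.le

open Classical in
/-- **The general theorem for systems of distinct forms.** -/
theorem genD : ∃ θ C : ℝ, 0 < θ ∧ θ < 1 ∧ 1 ≤ C ∧ ∀ k : ℕ, 1 ≤ k → ∀ a l h : Fin k → ℕ, ∀ y : ℕ, k ≤ y →
    (∀ i, 1 ≤ a i) → (∀ i, C * k ≤ Real.log (h i)) →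
    (∀ i, ((2 * a i * y + l i + h i : ℕ) : ℝ) ^ θ ≤ h i) →
    ∏ i, (C * (Real.log (h i) / (Real.log (k + 2) * gg k (a i)))) ≤ y →
    (C ^ k)⁻¹ * (((Fintype.piFinset (fun i => Ioc (l i) (l i + h i))).filter (fun b => Adm a b ∧ Dist a b)).card : ℝ) ≤
      ((((Fintype.piFinset (fun i => Ioc (l i) (l i + h i))).filter (fun b => (Adm a b ∧ Dist a b) ∧
        (y : ℝ) * ∏ i, (C * (Real.log (h i) / (Real.log (k + 2) * gg k (a i))))⁻¹ ≤
          (((Ioc y (2 * y)).filter (fun n => ∀ i, (a i * n + b i).Prime)).card : ℝ))).card : ℕ) : ℝ) := by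
  obtain ⟨θ, Cg, hθ, hθ1, hCg, h0, hgen⟩ := gen
  obtain ⟨Cc, hCc, hcoinc⟩ := coinc ⌈1 / θ⌉₊ (2 * Cg) (by linarith)
  obtain ⟨C, hC⟩ : ∃ C : ℝ, C = max (max (2 * Cg) Cc) (Real.log (h0 + 3 : ℕ)) := ⟨_, rfl⟩
  have hC1 : 2 * Cg ≤ C := by rw [hC]; exact le_trans (le_max_left _ _) (le_max_left _ _)
  have hC2 : Cc ≤ C := by rw [hC]; exact le_trans (le_max_right _ _) (le_max_left _ _)
  have hC3 : Real.log (h0 + 3 : ℕ) ≤ C := by rw [hC]; exact le_max_right _ _
  have hC0 : 1 ≤ C := by linarith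
  have hCgC : Cg ≤ C := by linarith
  refine ⟨θ, C, hθ, hθ1, hC0, fun k hk a l h y hky ha hkh hθh hyL => ?_⟩
  have hkr : (1 : ℝ) ≤ k := by exact_mod_cast hk
  have hhpos : ∀ i, (0 : ℝ) < h i := by
    intro i
    by_contra hcon
    push Not at hcon
    have h7 : (h i : ℝ) = 0 := le_antisymm hcon (Nat.cast_nonneg _)
    have h8 := hkh i
    rw [h7, Real.log_zero] at h8
    nlinarith
  have hh3 : ∀ i, h0 + 3 ≤ h i := by
    intro i
    have h5 : Real.log (h0 + 3 : ℕ) ≤ Real.log (h i) := by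
      have := hkh i
      nlinarith
    have h7 := (Real.log_le_log_iff (by positivity) (hhpos i)).1 h5
    exact_mod_cast h7
  have hhr : ∀ i, (3 : ℝ) ≤ h i := fun i => by exact_mod_cast (by have := hh3 i; omega : 3 ≤ h i)
  have hL : ∀ i, 0 < Real.log (h i) := fun i => Real.log_pos (by linarith [hhr i])
  have hlk := log_two_add k
  have hkL : ∀ i, (k : ℝ) ≤ Real.log (h i) := fun i => by
    have := hkh i
    nlinarith
  have haA : ∀ i, a i ≤ h i ^ ⌈1 / θ⌉₊ := by
    intro i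
    have h3 : (a i : ℝ) ≤ ((2 * a i * y + l i + h i : ℕ) : ℝ) := by
      have : a i * 1 ≤ a i * (2 * y) := Nat.mul_le_mul_left _ (by omega)
      have e : 2 * a i * y = a i * (2 * y) := by ring
      exact_mod_cast (by omega : a i ≤ 2 * a i * y + l i + h i)
    have h4 : (a i : ℝ) ^ θ ≤ h i := (Real.rpow_le_rpow (by positivity) h3 hθ.le).trans (hθh i)
    have h5 : (a i : ℝ) ≤ (h i : ℝ) ^ ⌈1 / θ⌉₊ := by
      calc (a i : ℝ) = ((a i : ℝ) ^ θ) ^ (1 / θ) := by
            rw [← Real.rpow_mul (by positivity), mul_one_div_cancel hθ.ne', Real.rpow_one]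
        _ ≤ (h i : ℝ) ^ (1 / θ) := Real.rpow_le_rpow (by positivity) h4 (by positivity)
        _ ≤ (h i : ℝ) ^ ((⌈1 / θ⌉₊ : ℕ) : ℝ) :=
            Real.rpow_le_rpow_of_exponent_le (by linarith [hhr i]) (Nat.le_ceil _)
        _ = (h i : ℝ) ^ ⌈1 / θ⌉₊ := Real.rpow_natCast _ _
    exact_mod_cast h5
  have hW0 : ∀ i, 0 < Real.log (h i) / (Real.log (k + 2) * gg k (a i)) := fun i => by
    have := hL i
    have := one_le_gg k (a i)
    positivity
  have hprodle : ∏ i, (Cg * (Real.log (h i) / (Real.log (k + 2) * gg k (a i)))) ≤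
      ∏ i, (C * (Real.log (h i) / (Real.log (k + 2) * gg k (a i)))) := by
    refine prod_le_prod (fun i _ => ?_) fun i _ => mul_le_mul_of_nonneg_right hCgC (hW0 i).le
    have := hW0 i
    positivity
  have h5 := hgen k hk a l h y hky (fun i => by have := hh3 i; omega) ha hkL hθh (hprodle.trans hyL)
  have h6 := hcoinc k a l h ha haA (fun i => le_trans (mul_le_mul_of_nonneg_right hC2 (by positivity)) (hkh i))
  -- splitting
  obtain ⟨NA, hNA⟩ : ∃ NA : ℝ, NA = (((Fintype.piFinset (fun i => Ioc (l i) (l i + h i))).filter (fun b => Adm a b)).card : ℝ) := ⟨_, rfl⟩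
  obtain ⟨NC, hNC⟩ : ∃ NC : ℝ, NC = (((Fintype.piFinset (fun i => Ioc (l i) (l i + h i))).filter (fun b => Adm a b ∧ ¬ Dist a b)).card : ℝ) := ⟨_, rfl⟩
  rw [← hNA, ← hNC] at h6
  rw [← hNA] at h5
  have hNAD : (((Fintype.piFinset (fun i => Ioc (l i) (l i + h i))).filter (fun b => Adm a b ∧ Dist a b)).card : ℝ) ≤ NA := by
    rw [hNA]
    have : (Fintype.piFinset (fun i => Ioc (l i) (l i + h i))).filter (fun b => Adm a b ∧ Dist a b) ⊆
        (Fintype.piFinset (fun i => Ioc (l i) (l i + h i))).filter (fun b => Adm a b) := by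
      intro b hb
      rw [mem_filter] at hb ⊢
      exact ⟨hb.1, hb.2.1⟩
    exact_mod_cast card_le_card this
  have hsplit : ((((Fintype.piFinset (fun i => Ioc (l i) (l i + h i))).filter (fun b => Adm a b ∧
        (y : ℝ) * ∏ i, (Cg * (Real.log (h i) / (Real.log (k + 2) * gg k (a i))))⁻¹ ≤
          (((Ioc y (2 * y)).filter (fun n => ∀ i, (a i * n + b i).Prime)).card : ℝ))).card : ℕ) : ℝ) ≤
      ((((Fintype.piFinset (fun i => Ioc (l i) (l i + h i))).filter (fun b => (Adm a b ∧ Dist a b) ∧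
        (y : ℝ) * ∏ i, (C * (Real.log (h i) / (Real.log (k + 2) * gg k (a i))))⁻¹ ≤
          (((Ioc y (2 * y)).filter (fun n => ∀ i, (a i * n + b i).Prime)).card : ℝ))).card : ℕ) : ℝ) + NC := by
    rw [hNC]
    have : (Fintype.piFinset (fun i => Ioc (l i) (l i + h i))).filter (fun b => Adm a b ∧
        (y : ℝ) * ∏ i, (Cg * (Real.log (h i) / (Real.log (k + 2) * gg k (a i))))⁻¹ ≤
          (((Ioc y (2 * y)).filter (fun n => ∀ i, (a i * n + b i).Prime)).card : ℝ)) ⊆
        (Fintype.piFinset (fun i => Ioc (l i) (l i + h i))).filter (fun b => (Adm a b ∧ Dist a b) ∧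
        (y : ℝ) * ∏ i, (C * (Real.log (h i) / (Real.log (k + 2) * gg k (a i))))⁻¹ ≤
          (((Ioc y (2 * y)).filter (fun n => ∀ i, (a i * n + b i).Prime)).card : ℝ)) ∪
        (Fintype.piFinset (fun i => Ioc (l i) (l i + h i))).filter (fun b => Adm a b ∧ ¬ Dist a b) := by
      intro b hb
      rw [mem_filter] at hb
      rw [mem_union, mem_filter, mem_filter]
      obtain ⟨hb1, hb2, hb3⟩ := hb
      by_cases hd : Dist a b
      · refine Or.inl ⟨hb1, ⟨hb2, hd⟩, le_trans ?_ hb3⟩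
        refine mul_le_mul_of_nonneg_left ?_ (by positivity)
        refine prod_le_prod (fun i _ => ?_) fun i _ => ?_
        · have := hW0 i
          positivity
        · have := hW0 i
          exact inv_anti₀ (by positivity) (mul_le_mul_of_nonneg_right hCgC this.le)
      · exact Or.inr ⟨hb1, hb2, hd⟩
    exact_mod_cast (card_le_card this).trans (card_union_le _ _)
  have hCgk : 0 < Cg ^ k := by positivity
  have h7 : NC ≤ (Cg ^ k)⁻¹ * NA / 2 := by
    have h8 : (2 : ℝ) ≤ 2 ^ k := by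
      calc (2 : ℝ) = 2 ^ 1 := (pow_one _).symm
        _ ≤ 2 ^ k := pow_le_pow_right₀ (by norm_num) hk
    have hNC0 : 0 ≤ NC := by rw [hNC]; positivity
    rw [mul_pow] at h6
    rw [inv_mul_eq_div, le_div_iff₀ (by norm_num), le_div_iff₀ hCgk]
    calc NC * 2 * Cg ^ k = 2 * (Cg ^ k * NC) := by ring
      _ ≤ 2 ^ k * (Cg ^ k * NC) := mul_le_mul_of_nonneg_right h8 (by positivity)
      _ ≤ NA := by linarith
  have h8 : (C ^ k)⁻¹ * NA ≤ (Cg ^ k)⁻¹ * NA / 2 := by
    have hNA0 : 0 ≤ NA := by rw [hNA]; positivity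
    have h9 : 2 * Cg ^ k ≤ C ^ k := by
      calc 2 * Cg ^ k ≤ 2 ^ k * Cg ^ k := by
            refine mul_le_mul_of_nonneg_right ?_ hCgk.le
            calc (2 : ℝ) = 2 ^ 1 := (pow_one _).symm
              _ ≤ 2 ^ k := pow_le_pow_right₀ (by norm_num) hk
        _ = (2 * Cg) ^ k := by rw [mul_pow]
        _ ≤ C ^ k := pow_le_pow_left₀ (by positivity) hC1 k
    have h10 : (C ^ k)⁻¹ ≤ (2 * Cg ^ k)⁻¹ := inv_anti₀ (by positivity) h9
    calc (C ^ k)⁻¹ * NA ≤ (2 * Cg ^ k)⁻¹ * NA := mul_le_mul_of_nonneg_right h10 hNA0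
      _ = (Cg ^ k)⁻¹ * NA / 2 := by rw [mul_inv]; ring
  have h9 : (C ^ k)⁻¹ * (((Fintype.piFinset (fun i => Ioc (l i) (l i + h i))).filter (fun b => Adm a b ∧ Dist a b)).card : ℝ) ≤
      (C ^ k)⁻¹ * NA := mul_le_mul_of_nonneg_left hNAD (by positivity)
  linarith

open Classical in
/-- **Upper bound, systems of distinct forms, arbitrary sets of arguments.** -/
theorem gen_upD (A : ℕ) : ∃ C : ℝ, 1 ≤ C ∧ ∀ k : ℕ, 1 ≤ k → ∀ a l h : Fin k → ℕ, ∀ Om : Finset ℕ,
    (∀ i, 1 ≤ a i) → (∀ i, a i ≤ h i ^ A) → (∀ i, C * k ≤ Real.log (h i)) →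
    ((((Fintype.piFinset (fun i => Ioc (l i) (l i + h i))).filter (fun b =>
        ∃ n ∈ Om, ∀ i, (a i * n + b i).Prime)).card : ℕ) : ℝ) ≤
    Om.card * (∏ i, (C * ((Real.log (k + 2) * gg k (a i)) / Real.log (h i)))) *
      (((Fintype.piFinset (fun i => Ioc (l i) (l i + h i))).filter (fun b => Adm a b ∧ Dist a b)).card : ℝ) := by
  obtain ⟨c, h1, hc, hadm⟩ := adm_lower A
  obtain ⟨Cc, hCc, hcoinc⟩ := coinc A 2 (by norm_num)
  obtain ⟨C, hC⟩ : ∃ C : ℝ, C = max (max (40 / c) Cc) (Real.log (h1 + 3 : ℕ)) := ⟨_, rfl⟩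
  have hC1 : 40 / c ≤ C := by rw [hC]; exact le_trans (le_max_left _ _) (le_max_left _ _)
  have hC2 : Cc ≤ C := by rw [hC]; exact le_trans (le_max_right _ _) (le_max_left _ _)
  have hC3 : Real.log (h1 + 3 : ℕ) ≤ C := by rw [hC]; exact le_max_right _ _
  have hC0 : 1 ≤ C := by linarith
  refine ⟨C, hC0, fun k hk a l h Om ha haA hkh => ?_⟩
  have hkr : (1 : ℝ) ≤ k := by exact_mod_cast hk
  have hhpos : ∀ i, (0 : ℝ) < h i := by
    intro i
    by_contra hcon
    push Not at hcon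
    have h7 : (h i : ℝ) = 0 := le_antisymm hcon (Nat.cast_nonneg _)
    have h8 := hkh i
    rw [h7, Real.log_zero] at h8
    nlinarith
  have hh3 : ∀ i, h1 + 3 ≤ h i := by
    intro i
    have h5 : Real.log (h1 + 3 : ℕ) ≤ Real.log (h i) := by
      have := hkh i
      nlinarith
    have h7 := (Real.log_le_log_iff (by positivity) (hhpos i)).1 h5
    exact_mod_cast h7
  have hhr : ∀ i, (3 : ℝ) ≤ h i := fun i => by exact_mod_cast (by have := hh3 i; omega : 3 ≤ h i)
  have hL : ∀ i, 0 < Real.log (h i) := fun i => Real.log_pos (by linarith [hhr i])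
  have hlk := log_two_add k
  have hkL : ∀ i, (k : ℝ) ≤ Real.log (h i) := fun i => by
    have := hkh i
    nlinarith
  have hsub : (Fintype.piFinset (fun i => Ioc (l i) (l i + h i))).filter (fun b =>
        ∃ n ∈ Om, ∀ i, (a i * n + b i).Prime) ⊆
      Om.biUnion (fun n => Fintype.piFinset (fun i => (Ioc (l i) (l i + h i)).filter (fun b => (a i * n + b).Prime))) := by
    intro b hb
    rw [mem_filter, Fintype.mem_piFinset] at hb
    obtain ⟨hb1, n, hn, hb2⟩ := hb
    rw [mem_biUnion]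
    refine ⟨n, hn, ?_⟩
    rw [Fintype.mem_piFinset]
    exact fun i => mem_filter.2 ⟨hb1 i, hb2 i⟩
  have h4 : ((((Fintype.piFinset (fun i => Ioc (l i) (l i + h i))).filter (fun b =>
        ∃ n ∈ Om, ∀ i, (a i * n + b i).Prime)).card : ℕ) : ℝ) ≤ Om.card * ∏ i, (20 * ((h i : ℝ) / Real.log (h i))) := by
    calc ((((Fintype.piFinset (fun i => Ioc (l i) (l i + h i))).filter (fun b =>
        ∃ n ∈ Om, ∀ i, (a i * n + b i).Prime)).card : ℕ) : ℝ)
        ≤ ∑ n ∈ Om, ((Fintype.piFinset (fun i => (Ioc (l i) (l i + h i)).filter (fun b => (a i * n + b).Prime))).card : ℝ) := by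
          exact_mod_cast (card_le_card hsub).trans card_biUnion_le
      _ ≤ ∑ n ∈ Om, ∏ i, (20 * ((h i : ℝ) / Real.log (h i))) := by
          refine sum_le_sum fun n _ => ?_
          rw [Fintype.card_piFinset]
          push_cast
          refine prod_le_prod (fun i _ => by positivity) fun i _ => ?_
          rw [count_shift]
          exact Pool.Agent.Q160.TB.bt_int (by have := hh3 i; omega)
      _ = _ := by
          rw [sum_const, nsmul_eq_mul]
  refine h4.trans ?_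
  have h5 := hadm k a l h (fun i => by have := hh3 i; omega) ha haA hkL
  have h6 := hcoinc k a l h ha haA (fun i => le_trans (mul_le_mul_of_nonneg_right hC2 (by positivity)) (hkh i))
  obtain ⟨NA, hNA⟩ : ∃ NA : ℝ, NA = (((Fintype.piFinset (fun i => Ioc (l i) (l i + h i))).filter (fun b => Adm a b)).card : ℝ) := ⟨_, rfl⟩
  obtain ⟨NC, hNC⟩ : ∃ NC : ℝ, NC = (((Fintype.piFinset (fun i => Ioc (l i) (l i + h i))).filter (fun b => Adm a b ∧ ¬ Dist a b)).card : ℝ) := ⟨_, rfl⟩
  obtain ⟨ND, hND⟩ : ∃ ND : ℝ, ND = (((Fintype.piFinset (fun i => Ioc (l i) (l i + h i))).filter (fun b => Adm a b ∧ Dist a b)).card : ℝ) := ⟨_, rfl⟩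
  rw [← hNA, ← hNC] at h6
  rw [← hNA] at h5
  rw [← hND]
  have hsum : NA ≤ ND + NC := by
    rw [hNA, hND, hNC]
    have : (Fintype.piFinset (fun i => Ioc (l i) (l i + h i))).filter (fun b => Adm a b) ⊆
        (Fintype.piFinset (fun i => Ioc (l i) (l i + h i))).filter (fun b => Adm a b ∧ Dist a b) ∪
        (Fintype.piFinset (fun i => Ioc (l i) (l i + h i))).filter (fun b => Adm a b ∧ ¬ Dist a b) := by
      intro b hb
      rw [mem_filter] at hb
      rw [mem_union, mem_filter, mem_filter]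
      by_cases hd : Dist a b
      · exact Or.inl ⟨hb.1, hb.2, hd⟩
      · exact Or.inr ⟨hb.1, hb.2, hd⟩
    exact_mod_cast (card_le_card this).trans (card_union_le _ _)
  have h2k : (2 : ℝ) ≤ 2 ^ k := by
    calc (2 : ℝ) = 2 ^ 1 := (pow_one _).symm
      _ ≤ 2 ^ k := pow_le_pow_right₀ (by norm_num) hk
  have hNA2 : NA ≤ 2 ^ k * ND := by
    have hNC0 : 0 ≤ NC := by rw [hNC]; positivity
    have hND0 : 0 ≤ ND := by rw [hND]; positivity
    have h7 : 2 * NC ≤ NA := le_trans (mul_le_mul_of_nonneg_right h2k hNC0) h6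
    have h8 : 2 * ND ≤ 2 ^ k * ND := mul_le_mul_of_nonneg_right h2k hND0
    linarith
  have h7 : (∏ i, (20 * ((h i : ℝ) / Real.log (h i)))) * 2 ^ k ≤
      (∏ i, (C * ((Real.log (k + 2) * gg k (a i)) / Real.log (h i)))) *
      ∏ i, (c * ((h i : ℝ) / (Real.log (k + 2) * gg k (a i)))) := by
    have e : (2 : ℝ) ^ k = ∏ _i : Fin k, (2 : ℝ) := by rw [prod_const, card_univ, Fintype.card_fin]
    rw [e, ← prod_mul_distrib, ← prod_mul_distrib]
    refine prod_le_prod (fun i _ => by have := hL i; positivity) fun i _ => ?_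
    have h7 := hL i
    have h8 := one_le_gg k (a i)
    have h9 : C * ((Real.log (k + 2) * gg k (a i)) / Real.log (h i)) * (c * ((h i : ℝ) / (Real.log (k + 2) * gg k (a i)))) =
      (C * c) * ((h i : ℝ) / Real.log (h i)) := by field_simp
    have h10 : 20 * ((h i : ℝ) / Real.log (h i)) * 2 = 40 * ((h i : ℝ) / Real.log (h i)) := by ring
    rw [h9, h10]
    refine mul_le_mul_of_nonneg_right ?_ (by positivity)
    rwa [div_le_iff₀ hc] at hC1
  have h10 : 0 ≤ ∏ i, (C * ((Real.log (k + 2) * gg k (a i)) / Real.log (h i))) := prod_nonneg fun i _ => by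
    have h7 := hL i
    have h8 := one_le_gg k (a i)
    positivity
  have h11 : ∏ i, (20 * ((h i : ℝ) / Real.log (h i))) ≤ (∏ i, (C * ((Real.log (k + 2) * gg k (a i)) / Real.log (h i)))) * ND := by
    have h12 := h7.trans (mul_le_mul_of_nonneg_left (h5.trans hNA2) h10)
    have h13 : (∏ i, (C * ((Real.log (k + 2) * gg k (a i)) / Real.log (h i)))) * (2 ^ k * ND) =
      ((∏ i, (C * ((Real.log (k + 2) * gg k (a i)) / Real.log (h i)))) * ND) * 2 ^ k := by ring
    rw [h13] at h12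
    exact le_of_mul_le_mul_right h12 (by positivity)
  calc (Om.card : ℝ) * ∏ i, (20 * ((h i : ℝ) / Real.log (h i)))
      ≤ Om.card * ((∏ i, (C * ((Real.log (k + 2) * gg k (a i)) / Real.log (h i)))) * ND) :=
        mul_le_mul_of_nonneg_left h11 (by positivity)
    _ = _ := by ring

end Pool.Agent.Q160.GK
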