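import Mathlib
import Pool.Agent.Q160.GK6
import Pool.Agent.Q160.GK8

set_option autoImplicit false

/-!
# The general second moment theorem, abstract form
-/

namespace Pool.Agent.Q160.GP

open Finset Filter
open Pool.Agent.H373R2.T7
open Pool.Agent.H305R2 (VV VV_tendsto)
open Pool.Agent.Q160.GK

/-- the distance of two natural numbers -/
def dn (a b : ℕ) : ℕ := max a b - min a b

lemma dn_comm (a b : ℕ) : dn a b = dn b a := by
  unfold dn
  rw [max_comm, min_comm]

/-- `∏ x_i ≤ mean of the x_i ^ k` -/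
lemma prod_le_mean {k : ℕ} (hk : 1 ≤ k) (x : Fin k → ℝ) (hx : ∀ i, 0 ≤ x i) :
    ∏ i, x i ≤ (1 / k : ℝ) * ∑ i, x i ^ k := by
  have hk0 : (0 : ℝ) < k := by exact_mod_cast hk
  have h1 := Real.geom_mean_le_arith_mean_weighted (univ : Finset (Fin k)) (fun _ => (1 / k : ℝ)) (fun i => x i ^ k)
    (fun i _ => by positivity) (by
      rw [sum_const, card_univ, Fintype.card_fin, nsmul_eq_mul]
      field_simp) (fun i _ => pow_nonneg (hx i) k)
  have h2 : ∏ i, (x i ^ k) ^ (1 / k : ℝ) = ∏ i, x i := by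
    refine prod_congr rfl fun i _ => ?_
    rw [one_div, Real.pow_rpow_inv_natCast (hx i) (by omega)]
  rw [h2, ← mul_sum] at h1
  exact h1

open Classical in
/-- **The general theorem.** -/
theorem gen : ∃ θ : ℝ, 0 < θ ∧ θ < 1 ∧ ∀ CA M : ℝ, 0 < CA → 0 ≤ M → ∃ C : ℝ, 1 ≤ C ∧ ∃ h0 : ℕ,
    ∀ k : ℕ, 1 ≤ k → ∀ u : Fin k → ℕ → ℕ, ∀ l h : Fin k → ℕ, ∀ g : Fin k → ℝ, ∀ y : ℕ, 1 ≤ y →
    (∀ i, h0 ≤ h i) → (∀ i, 1 ≤ g i) →
    (∀ i, ∀ n ∈ Ioc y (2 * y), ∀ m ∈ Ioc y (2 * y), n ≠ m → u i n ≠ u i m) →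
    (∀ i, ∀ n ∈ Ioc y (2 * y), ((u i n + l i + h i : ℕ) : ℝ) ^ θ ≤ h i) →
    (∀ i, ∀ n ∈ Ioc y (2 * y), ∑ m ∈ (Ioc y (2 * y)).erase n, gg k (dn (u i n) (u i m)) ^ k ≤ M * y * g i ^ k) →
    ∀ G : (Fin k → ℕ) → Prop,
    (∀ n ∈ Ioc y (2 * y), ∀ b ∈ Fintype.piFinset (fun i => Ioc (l i) (l i + h i)), (∀ i, (u i n + b i).Prime) → G b) →
    (((Fintype.piFinset (fun i => Ioc (l i) (l i + h i))).filter G).card : ℝ) ≤
      ∏ i, (CA * (h i / (Real.log (k + 2) * g i))) →
    ∏ i, (C * (Real.log (h i) / (Real.log (k + 2) * g i))) ≤ y →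
    (C ^ k)⁻¹ * ∏ i, (CA * (h i / (Real.log (k + 2) * g i))) ≤
      ((((Fintype.piFinset (fun i => Ioc (l i) (l i + h i))).filter (fun b => G b ∧
        (y : ℝ) * ∏ i, (C * (Real.log (h i) / (Real.log (k + 2) * g i)))⁻¹ ≤
          (((Ioc y (2 * y)).filter (fun n => ∀ i, (u i n + b i).Prime)).card : ℝ))).card : ℕ) : ℝ) := by
  obtain ⟨θ, η, hθ, hθ1, hη, N0, hlow⟩ := primes_low
  refine ⟨θ, hθ, hθ1, fun CA M hCA hM => ?_⟩
  obtain ⟨C2, h2, hC2, hpair⟩ := pair_sieve
  obtain ⟨cV, C3, hcV, hC3, hVV⟩ := VV_bounds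
  obtain ⟨C4, hC4⟩ : ∃ C4 : ℝ, C4 = max C2 20 := ⟨_, rfl⟩
  have hC42 : C2 ≤ C4 := by rw [hC4]; exact le_max_left _ _
  have hC420 : 20 ≤ C4 := by rw [hC4]; exact le_max_right _ _
  obtain ⟨D, hD⟩ : ∃ D : ℝ, D = 4 * (M + 1) := ⟨_, rfl⟩
  have hD1 : 1 ≤ D := by
    rw [hD]
    linarith
  obtain ⟨C, hC⟩ : ∃ C : ℝ, C = max (max 1 (2 * CA / η)) (max (1 / cV) (C4 * C3 * D * CA / η ^ 2)) := ⟨_, rfl⟩
  have hCa : 1 ≤ C := by rw [hC]; exact le_trans (le_max_left _ _) (le_max_left _ _)
  have hCb : 2 * CA / η ≤ C := by rw [hC]; exact le_trans (le_max_right _ _) (le_max_left _ _)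
  have hCd : 1 / cV ≤ C := by rw [hC]; exact le_trans (le_max_left _ _) (le_max_right _ _)
  have hCc : C4 * C3 * D * CA / η ^ 2 ≤ C := by rw [hC]; exact le_trans (le_max_right _ _) (le_max_right _ _)
  refine ⟨C, hCa, max (max N0 h2) 3, fun k hk u l h g y hy hh hg hinj hθh hmom G hG hadm' hyL => ?_⟩
  have hN0 : ∀ i, N0 ≤ h i := fun i => le_trans (le_trans (le_max_left _ _) (le_max_left _ _)) (hh i)
  have hh2 : ∀ i, h2 ≤ h i := fun i => le_trans (le_trans (le_max_right _ _) (le_max_left _ _)) (hh i)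
  have hh3 : ∀ i, 3 ≤ h i := fun i => le_trans (le_max_right _ _) (hh i)
  have hh3r : ∀ i, (3 : ℝ) ≤ h i := fun i => by exact_mod_cast hh3 i
  have hL : ∀ i, 0 < Real.log (h i) := fun i => Real.log_pos (by linarith [hh3r i])
  have hy0 : (0 : ℝ) < y := by exact_mod_cast hy
  have hVk := one_le_VV k
  have hlk := log_two_add k
  -- the data
  obtain ⟨B, hB⟩ : ∃ B : Fin k → Finset ℕ, B = fun i => Ioc (l i) (l i + h i) := ⟨_, rfl⟩
  obtain ⟨P, hP⟩ : ∃ P : Fin k → ℕ → Finset ℕ, P = fun i n => (B i).filter (fun b => (u i n + b).Prime) := ⟨_, rfl⟩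
  have hPB : ∀ n ∈ Ioc y (2 * y), ∀ i, P i n ⊆ B i := fun n _ i => by
    rw [hP]
    exact filter_subset _ _
  have hG' : ∀ n ∈ Ioc y (2 * y), ∀ b : Fin k → ℕ, (∀ i, b i ∈ P i n) → G b := by
    intro n hn b hb
    refine hG n hn b ?_ ?_
    · rw [Fintype.mem_piFinset]
      intro i
      have := hPB n hn i (hb i)
      rw [hB] at this
      exact this
    · intro i
      have := hb i
      rw [hP] at this
      exact (mem_filter.1 this).2
  -- first moment
  have hPlow : ∀ n ∈ Ioc y (2 * y), ∀ i, η * (h i / Real.log (h i)) ≤ ((P i n).card : ℝ) := by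
    intro n hn i
    rw [hP, hB]
    simp only
    rw [count_shift]
    exact hlow _ _ (hN0 i) (hθh i n hn)
  have hPup : ∀ n ∈ Ioc y (2 * y), ∀ i, ((P i n).card : ℝ) ≤ 20 * (h i / Real.log (h i)) := by
    intro n _ i
    rw [hP, hB]
    simp only
    rw [count_shift]
    exact Pool.Agent.Q160.TB.bt_int (by have := hh3 i; omega)
  have hA0 : ∀ i, 0 < C4 * ((h i : ℝ) / Real.log (h i) ^ 2) * VV k := fun i => by
    have := hL i
    have := hh3r i
    positivity
  have hPPlt : ∀ n m i, u i n < u i m → ((P i n ∩ P i m).card : ℝ) ≤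
      C4 * (h i / Real.log (h i) ^ 2) * VV k * gg k (u i m - u i n) := by
    intro n m i hlt
    have h1 : P i n ∩ P i m ⊆ (Ioc (l i) (l i + h i)).filter (fun b => (u i n + b).Prime ∧
        (u i n + (u i m - u i n) + b).Prime) := by
      intro b hb
      rw [hP, hB] at hb
      simp only [mem_inter, mem_filter] at hb
      rw [mem_filter]
      have e : u i n + (u i m - u i n) = u i m := by omega
      rw [e]
      exact ⟨hb.1.1, hb.1.2, hb.2.2⟩
    have h3 : ((P i n ∩ P i m).card : ℝ) ≤ _ := le_trans (by exact_mod_cast card_le_card h1)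
      (hpair (h i) (u i n) (l i) (u i m - u i n) (hh2 i) (by omega))
    refine h3.trans ?_
    have h4 := gg_mul_le (k := k) (a := 1) one_pos (show 0 < u i m - u i n by omega)
    rw [one_mul, gg_one, mul_one] at h4
    have h5 : 0 < (h i : ℝ) / Real.log (h i) ^ 2 := by
      have := hL i
      have := hh3r i
      positivity
    calc C2 * (h i / Real.log (h i) ^ 2) * gg 0 (u i m - u i n)
        ≤ C4 * (h i / Real.log (h i) ^ 2) * (VV k * gg k (u i m - u i n)) := by
          refine mul_le_mul (mul_le_mul_of_nonneg_right hC42 h5.le) h4 ?_ (by positivity)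
          have := one_le_gg 0 (u i m - u i n)
          linarith
      _ = _ := by ring
  have hPP : ∀ n ∈ Ioc y (2 * y), ∀ m ∈ Ioc y (2 * y), n ≠ m → ∀ i, ((P i n ∩ P i m).card : ℝ) ≤
      C4 * (h i / Real.log (h i) ^ 2) * VV k * gg k (dn (u i n) (u i m)) := by
    intro n hn m hm hnm i
    rcases lt_or_gt_of_ne (hinj i n hn m hm hnm) with h3 | h3
    · unfold dn
      rw [max_eq_right h3.le, min_eq_left h3.le]
      exact hPPlt n m i h3
    · unfold dn
      rw [max_eq_left h3.le, min_eq_right h3.le, inter_comm]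
      exact hPPlt m n i h3
  obtain ⟨F, hF⟩ : ∃ F : ℝ, F = ∏ i, (C4 * (h i / Real.log (h i) ^ 2) * VV k * g i) := ⟨_, rfl⟩
  have hg0 : ∀ i, 0 < g i := fun i => by linarith [hg i]
  have hFi : ∀ i, 0 < C4 * (h i / Real.log (h i) ^ 2) * VV k * g i := fun i => by
    have := hA0 i
    have := hg0 i
    positivity
  have hF0 : 0 < F := by rw [hF]; exact prod_pos fun i _ => hFi i
  have hkr : (0 : ℝ) < k := by exact_mod_cast hk
  have hoff : ∀ n ∈ Ioc y (2 * y), ∑ m ∈ (Ioc y (2 * y)).erase n, ∏ i, ((P i n ∩ P i m).card : ℝ) ≤ F * (M * y) := by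
    intro n hn
    calc ∑ m ∈ (Ioc y (2 * y)).erase n, ∏ i, ((P i n ∩ P i m).card : ℝ)
        ≤ ∑ m ∈ (Ioc y (2 * y)).erase n, F * ((1 / k : ℝ) * ∑ i, (gg k (dn (u i n) (u i m)) / g i) ^ k) := by
          refine sum_le_sum fun m hm => ?_
          have hm2 := mem_of_mem_erase hm
          have hnm := (ne_of_mem_erase hm).symm
          calc ∏ i, ((P i n ∩ P i m).card : ℝ)
              ≤ ∏ i, (C4 * (h i / Real.log (h i) ^ 2) * VV k * g i * (gg k (dn (u i n) (u i m)) / g i)) := by
                refine prod_le_prod (fun i _ => by positivity) fun i _ => ?_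
                refine (hPP n hn m hm2 hnm i).trans (le_of_eq ?_)
                have := hg0 i
                field_simp
            _ = F * ∏ i, (gg k (dn (u i n) (u i m)) / g i) := by rw [prod_mul_distrib, hF]
            _ ≤ F * ((1 / k : ℝ) * ∑ i, (gg k (dn (u i n) (u i m)) / g i) ^ k) := by
                refine mul_le_mul_of_nonneg_left (prod_le_mean hk _ fun i => ?_) hF0.le
                have := hg0 i
                have := one_le_gg k (dn (u i n) (u i m))
                positivity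
      _ = F * ((1 / k : ℝ) * ∑ i, (∑ m ∈ (Ioc y (2 * y)).erase n, gg k (dn (u i n) (u i m)) ^ k) / g i ^ k) := by
          rw [← mul_sum, ← mul_sum, sum_comm]
          congr 2
          refine sum_congr rfl fun i _ => ?_
          rw [sum_div]
          refine sum_congr rfl fun m _ => ?_
          rw [div_pow]
      _ ≤ F * ((1 / k : ℝ) * ∑ _i : Fin k, M * y) := by
          refine mul_le_mul_of_nonneg_left (mul_le_mul_of_nonneg_left (sum_le_sum fun i _ => ?_) (by positivity)) hF0.le
          have := hg0 i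
          rw [div_le_iff₀ (by positivity)]
          exact hmom i n hn
      _ = F * (M * y) := by
          rw [sum_const, card_univ, Fintype.card_fin, nsmul_eq_mul]
          field_simp
  have hdiag : ∀ n ∈ Ioc y (2 * y), ∏ i, ((P i n ∩ P i n).card : ℝ) ≤ y * F := by
    intro n hn
    calc ∏ i, ((P i n ∩ P i n).card : ℝ) ≤ ∏ i, (20 * (h i / Real.log (h i))) := by
          refine prod_le_prod (fun i _ => by positivity) fun i _ => ?_
          rw [inter_self]
          exact hPup n hn i
      _ ≤ ∏ i, ((C * (Real.log (h i) / (Real.log (k + 2) * g i))) *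
            (C4 * (h i / Real.log (h i) ^ 2) * VV k * g i)) := by
          refine prod_le_prod (fun i _ => by have := hL i; positivity) fun i _ => ?_
          have h4 := hL i
          have h5 := hh3r i
          have h6 := hg0 i
          have h7 : (C * (Real.log (h i) / (Real.log (k + 2) * g i))) *
            (C4 * (h i / Real.log (h i) ^ 2) * VV k * g i) =
            (C4 * (C * (VV k / Real.log (k + 2)))) * (h i / Real.log (h i)) := by
            field_simp
          rw [h7]
          refine mul_le_mul_of_nonneg_right ?_ (by positivity)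
          have h8 : 1 ≤ C * (VV k / Real.log (k + 2)) := by
            calc (1 : ℝ) = 1 / cV * cV := by field_simp
              _ ≤ C * (VV k / Real.log (k + 2)) := by
                  refine mul_le_mul hCd ?_ hcV.le (by linarith)
                  rw [le_div_iff₀ hlk]
                  exact (hVV k).1
          nlinarith
      _ = (∏ i, (C * (Real.log (h i) / (Real.log (k + 2) * g i)))) * F := by
          rw [prod_mul_distrib, hF]
      _ ≤ y * F := mul_le_mul_of_nonneg_right hyL hF0.le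
  have hOm : ((Ioc y (2 * y)).card : ℝ) = y := by
    rw [Nat.card_Ioc]
    congr 1
    omega
  have hX2 : ∑ n ∈ Ioc y (2 * y), ∑ m ∈ Ioc y (2 * y), ∏ i, ((P i n ∩ P i m).card : ℝ) ≤
      (M + 1) * (y ^ 2 * F) := by
    have h3 : ∀ n ∈ Ioc y (2 * y), ∑ m ∈ Ioc y (2 * y), ∏ i, ((P i n ∩ P i m).card : ℝ) ≤
        (M + 1) * (y * F) := by
      intro n hn
      rw [← Finset.add_sum_erase _ _ hn]
      calc _ ≤ y * F + F * (M * y) := add_le_add (hdiag n hn) (hoff n hn)
        _ = _ := by ring
    calc _ ≤ ∑ n ∈ Ioc y (2 * y), (M + 1) * (y * F) := sum_le_sum h3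
      _ = _ := by
          rw [sum_const, nsmul_eq_mul, hOm]
          ring
  obtain ⟨X1, hX1⟩ : ∃ X1 : ℝ, X1 = y * ∏ i, (η * (h i / Real.log (h i))) := ⟨_, rfl⟩
  have hηi : ∀ i, 0 < η * ((h i : ℝ) / Real.log (h i)) := fun i => by
    have := hL i
    have := hh3r i
    positivity
  have hX10 : 0 < X1 := by
    rw [hX1]
    exact mul_pos hy0 (prod_pos fun i _ => hηi i)
  have hfirst : X1 ≤ ∑ n ∈ Ioc y (2 * y), ∏ i, ((P i n).card : ℝ) := by
    calc X1 = ∑ n ∈ Ioc y (2 * y), ∏ i, (η * ((h i : ℝ) / Real.log (h i))) := by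
          rw [sum_const, nsmul_eq_mul, hOm, hX1]
      _ ≤ _ := sum_le_sum fun n hn => prod_le_prod (fun i _ => (hηi i).le) fun i _ => hPlow n hn i
  obtain ⟨T, hT⟩ : ∃ T : ℝ, T = ∏ i, (CA * ((h i : ℝ) / (Real.log (k + 2) * g i))) := ⟨_, rfl⟩
  have hTi : ∀ i, 0 < CA * ((h i : ℝ) / (Real.log (k + 2) * g i)) := fun i => by
    have := hg0 i
    have := hh3r i
    positivity
  have hT0 : 0 < T := by rw [hT]; exact prod_pos fun i _ => hTi i
  rw [← hT] at hadm' ⊢
  have hadm2 : (((Fintype.piFinset B).filter G).card : ℝ) ≤ T := by rw [hB]; exact hadm'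
  have hsm := second_moment B (Ioc y (2 * y)) P hPB G hG' X1 _ T hfirst hX2
    hadm2 hT0 hX10.le
  -- the set in the conclusion
  obtain ⟨V, hV⟩ : ∃ V : ℕ, V = ((Fintype.piFinset (fun i => Ioc (l i) (l i + h i))).filter (fun b => G b ∧
        (y : ℝ) * ∏ i, (C * (Real.log (h i) / (Real.log (k + 2) * g i)))⁻¹ ≤
          (((Ioc y (2 * y)).filter (fun n => ∀ i, (u i n + b i).Prime)).card : ℝ))).card := ⟨_, rfl⟩
  rw [← hV]
  have hVV2 : (((Fintype.piFinset B).filter
      (fun b => G b ∧ X1 / (2 * T) ≤ (((Ioc y (2 * y)).filter (fun n => ∀ i, b i ∈ P i n)).card : ℝ))).card : ℝ) ≤ V := by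
    rw [hV]
    have : (Fintype.piFinset B).filter
      (fun b => G b ∧ X1 / (2 * T) ≤ (((Ioc y (2 * y)).filter (fun n => ∀ i, b i ∈ P i n)).card : ℝ)) ⊆
      (Fintype.piFinset (fun i => Ioc (l i) (l i + h i))).filter (fun b => G b ∧
        (y : ℝ) * ∏ i, (C * (Real.log (h i) / (Real.log (k + 2) * g i)))⁻¹ ≤
          (((Ioc y (2 * y)).filter (fun n => ∀ i, (u i n + b i).Prime)).card : ℝ)) := by
      intro b hb
      rw [mem_filter] at hb ⊢
      refine ⟨by rw [hB] at hb; exact hb.1, hb.2.1, ?_⟩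
      refine le_trans ?_ (hb.2.2.trans ?_)
      · rw [hX1, le_div_iff₀ (by positivity)]
        have h3 : (∏ i, (C * (Real.log (h i) / (Real.log (k + 2) * g i)))⁻¹) * (2 * T) ≤
            ∏ i, (η * ((h i : ℝ) / Real.log (h i))) := by
          have h4 : (2 : ℝ) ≤ ∏ _i : Fin k, (2 : ℝ) := by
            rw [prod_const, card_univ, Fintype.card_fin]
            calc (2 : ℝ) = 2 ^ 1 := (pow_one _).symm
              _ ≤ 2 ^ k := pow_le_pow_right₀ (by norm_num) hk
          have h5 : 0 ≤ ∏ i, (C * (Real.log (h i) / (Real.log (k + 2) * g i)))⁻¹ := prod_nonneg fun i _ => by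
            have := hL i
            have := hg0 i
            positivity
          calc (∏ i, (C * (Real.log (h i) / (Real.log (k + 2) * g i)))⁻¹) * (2 * T)
              ≤ (∏ i, (C * (Real.log (h i) / (Real.log (k + 2) * g i)))⁻¹) * ((∏ _i : Fin k, (2 : ℝ)) * T) :=
                mul_le_mul_of_nonneg_left (mul_le_mul_of_nonneg_right h4 hT0.le) h5
            _ = ∏ i, ((C * (Real.log (h i) / (Real.log (k + 2) * g i)))⁻¹ *
                  (2 * (CA * ((h i : ℝ) / (Real.log (k + 2) * g i))))) := by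
                rw [hT, ← prod_mul_distrib, ← prod_mul_distrib]
            _ ≤ ∏ i, (η * ((h i : ℝ) / Real.log (h i))) := by
                refine prod_le_prod (fun i _ => ?_) fun i _ => ?_
                · have := hL i
                  have := hTi i
                  have := hg0 i
                  positivity
                · have h6 := hL i
                  have h7 := hg0 i
                  have h8 := hh3r i
                  have h9 : 2 * CA ≤ C * η := by rwa [div_le_iff₀ hη] at hCb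
                  have hCpos : 0 < C := by linarith
                  have h10 : (C * (Real.log (h i) / (Real.log (k + 2) * g i)))⁻¹ *
                    (2 * (CA * ((h i : ℝ) / (Real.log (k + 2) * g i)))) =
                    (2 * CA / C) * ((h i : ℝ) / Real.log (h i)) := by
                    field_simp
                  rw [h10]
                  refine mul_le_mul_of_nonneg_right ?_ (by positivity)
                  rw [div_le_iff₀ hCpos]
                  linarith
        calc (y : ℝ) * (∏ i, (C * (Real.log (h i) / (Real.log (k + 2) * g i)))⁻¹) * (2 * T)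
            = y * ((∏ i, (C * (Real.log (h i) / (Real.log (k + 2) * g i)))⁻¹) * (2 * T)) := by ring
          _ ≤ _ := mul_le_mul_of_nonneg_left h3 hy0.le
      · have h3 : (Ioc y (2 * y)).filter (fun n => ∀ i, b i ∈ P i n) ⊆
            (Ioc y (2 * y)).filter (fun n => ∀ i, (u i n + b i).Prime) := by
          intro n hn
          rw [mem_filter] at hn ⊢
          refine ⟨hn.1, fun i => ?_⟩
          have := hn.2 i
          rw [hP] at this
          exact (mem_filter.1 this).2
        exact_mod_cast card_le_card h3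
    exact_mod_cast card_le_card this
  -- conclusion
  have hfin : X1 ^ 2 ≤ (D * (y ^ 2 * F)) * V := by
    refine hsm.trans ?_
    have h3 : 4 * ((M + 1) * ((y : ℝ) ^ 2 * F)) = D * (y ^ 2 * F) := by rw [hD]; ring
    rw [h3]
    exact mul_le_mul_of_nonneg_left hVV2 (by positivity)
  have hX1sq : X1 ^ 2 = y ^ 2 * ∏ i, (η * ((h i : ℝ) / Real.log (h i))) ^ 2 := by
    rw [hX1, mul_pow, prod_pow]
  have hkey : (D * F) * ((C ^ k)⁻¹ * T) ≤
      ∏ i, (η * ((h i : ℝ) / Real.log (h i))) ^ 2 := by
    have h4 : D ≤ ∏ _i : Fin k, D := by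
      rw [prod_const, card_univ, Fintype.card_fin]
      calc D = D ^ 1 := (pow_one _).symm
        _ ≤ D ^ k := pow_le_pow_right₀ hD1 hk
    have h6 : (C ^ k)⁻¹ = ∏ _i : Fin k, C⁻¹ := by
      rw [prod_const, card_univ, Fintype.card_fin, inv_pow]
    have h7 : 0 ≤ (C ^ k)⁻¹ * T := by positivity
    calc (D * F) * ((C ^ k)⁻¹ * T)
        ≤ ((∏ _i : Fin k, D) * F) * ((C ^ k)⁻¹ * T) := by
          refine mul_le_mul_of_nonneg_right (mul_le_mul_of_nonneg_right h4 hF0.le) h7
      _ = ∏ i, (D * (C4 * (h i / Real.log (h i) ^ 2) * VV k * g i) *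
            (C⁻¹ * (CA * ((h i : ℝ) / (Real.log (k + 2) * g i))))) := by
          rw [hF, hT, h6, ← prod_mul_distrib, ← prod_mul_distrib, ← prod_mul_distrib]
      _ ≤ ∏ i, (η * ((h i : ℝ) / Real.log (h i))) ^ 2 := by
          refine prod_le_prod (fun i _ => ?_) fun i _ => ?_
          · have := hFi i
            have := hTi i
            positivity
          · have h6 := hL i
            have h7 := hg0 i
            have h8 := hh3r i
            have hCpos : 0 < C := by linarith
            have h9 : C4 * C3 * D * CA ≤ C * η ^ 2 := by rwa [div_le_iff₀ (by positivity)] at hCc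
            have h10 : D * (C4 * (h i / Real.log (h i) ^ 2) * VV k * g i) *
                (C⁻¹ * (CA * ((h i : ℝ) / (Real.log (k + 2) * g i)))) =
                (D * C4 * CA * VV k / (C * Real.log (k + 2))) * ((h i : ℝ) / Real.log (h i)) ^ 2 := by
              field_simp
            rw [h10, mul_pow]
            refine mul_le_mul_of_nonneg_right ?_ (by positivity)
            rw [div_le_iff₀ (by positivity)]
            calc D * C4 * CA * VV k ≤ D * C4 * CA * (C3 * Real.log (k + 2)) :=
                  mul_le_mul_of_nonneg_left (hVV k).2 (by positivity)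
              _ = (C4 * C3 * D * CA) * Real.log (k + 2) := by ring
              _ ≤ (C * η ^ 2) * Real.log (k + 2) := mul_le_mul_of_nonneg_right h9 hlk.le
              _ = η ^ 2 * (C * Real.log (k + 2)) := by ring
  have hy2 : (0 : ℝ) < (y : ℝ) ^ 2 := by positivity
  have hfin2 : ∏ i, (η * ((h i : ℝ) / Real.log (h i))) ^ 2 ≤ (D * F) * V := by
    rw [hX1sq] at hfin
    have h3 : (D * ((y : ℝ) ^ 2 * F)) * V = y ^ 2 * ((D * F) * V) := by ring
    rw [h3] at hfin
    exact le_of_mul_le_mul_left hfin hy2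
  have hDF : 0 < D * F := by positivity
  exact le_of_mul_le_mul_left (hkey.trans hfin2) hDF

end Pool.Agent.Q160.GP
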