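import Mathlib
import Pool.Agent.Q160.GP1

set_option autoImplicit false

/-!
# Polynomials with non-negative coefficients and the moments of `gg`
-/

namespace Pool.Agent.Q160.GP

open Finset Filter
open Pool.Agent.H373R2.T7
open Pool.Agent.H305R2 (VV VV_tendsto)
open Pool.Agent.Q160.GK

/-- the greatest common divisor of the coefficients -/
def ct (f : Polynomial ℕ) : ℕ := f.support.gcd f.coeff

lemma ct_dvd_coeff (f : Polynomial ℕ) (j : ℕ) : ct f ∣ f.coeff j := by
  by_cases h : j ∈ f.support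
  · exact Finset.gcd_dvd h
  · rw [Polynomial.notMem_support_iff.1 h]
    exact dvd_zero _

lemma ct_dvd_eval (f : Polynomial ℕ) (n : ℕ) : ct f ∣ f.eval n := by
  rw [Polynomial.eval_eq_sum_range]
  exact Finset.dvd_sum fun j _ => Dvd.dvd.mul_right (ct_dvd_coeff f j) _

lemma ct_pos {f : Polynomial ℕ} (hf : f ≠ 0) : 0 < ct f := by
  rcases Nat.eq_zero_or_pos (ct f) with h | h
  · exfalso
    apply hf
    ext j
    have h1 := ct_dvd_coeff f j
    rw [h] at h1
    rw [Polynomial.coeff_zero]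
    exact Nat.eq_zero_of_zero_dvd h1
  · exact h

lemma eval_mono (f : Polynomial ℕ) : Monotone (fun n => f.eval n) := by
  intro a b hab
  simp only
  rw [Polynomial.eval_eq_sum_range, Polynomial.eval_eq_sum_range]
  exact Finset.sum_le_sum fun j _ => Nat.mul_le_mul_left _ (Nat.pow_le_pow_left hab j)

lemma eval_strictMono {f : Polynomial ℕ} (hf : f ≠ 0) (h0 : f.coeff 0 = 0) : StrictMono (fun n => f.eval n) := by
  intro a b hab
  simp only
  rw [Polynomial.eval_eq_sum_range, Polynomial.eval_eq_sum_range]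
  refine Finset.sum_lt_sum (fun j _ => Nat.mul_le_mul_left _ (Nat.pow_le_pow_left hab.le j)) ?_
  refine ⟨f.natDegree, self_mem_range_succ _, ?_⟩
  have h1 : f.coeff f.natDegree ≠ 0 := by
    rw [Polynomial.coeff_natDegree]
    exact Polynomial.leadingCoeff_ne_zero.2 hf
  have h2 : f.natDegree ≠ 0 := by
    intro h
    rw [h] at h1
    exact h1 h0
  exact Nat.mul_lt_mul_of_pos_left (Nat.pow_lt_pow_left hab h2) (Nat.pos_of_ne_zero h1)

lemma dvd_dn {t a b : ℕ} : t ∣ dn a b ↔ a ≡ b [MOD t] := by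
  unfold dn
  rcases le_total a b with h | h
  · rw [max_eq_right h, min_eq_left h]
    exact (Nat.modEq_iff_dvd' h).symm
  · rw [max_eq_left h, min_eq_right h]
    rw [← Nat.modEq_iff_dvd' h]
    exact Nat.ModEq.comm

lemma dn_pos {a b : ℕ} (h : a ≠ b) : 0 < dn a b := by
  unfold dn
  rcases lt_or_gt_of_ne h with h1 | h1
  · rw [max_eq_right h1.le, min_eq_left h1.le]
    omega
  · rw [max_eq_left h1.le, min_eq_right h1.le]
    omega

lemma dn_le {a b B : ℕ} (ha : a ≤ B) (hb : b ≤ B) : dn a b ≤ B := by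
  unfold dn
  exact (Nat.sub_le _ _).trans (max_le ha hb)

lemma eval_modEq (f : Polynomial ℕ) {p a b : ℕ} (h : a ≡ b [MOD p]) : f.eval a ≡ f.eval b [MOD p] := by
  rw [Polynomial.eval_eq_sum_range, Polynomial.eval_eq_sum_range]
  rw [Nat.ModEq, Finset.sum_nat_mod, Finset.sum_nat_mod (range (f.natDegree + 1)) p (fun j => f.coeff j * b ^ j)]
  congr 1
  refine Finset.sum_congr rfl fun j _ => ?_
  exact (Nat.ModEq.mul_left _ (h.pow j))

lemma eval_mod (f : Polynomial ℕ) (p n c : ℕ) : p ∣ f.eval (n % p) + c ↔ p ∣ f.eval n + c := by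
  have h := (eval_modEq f (Nat.mod_modEq n p)).add_right c
  exact h.dvd_iff (dvd_refl p)

/-- solutions modulo `p` of `f(r) = v` -/
lemma card_roots_mod {f : Polynomial ℕ} (h0 : f.coeff 0 = 0) {p d : ℕ} (hd : f.natDegree ≤ d) (hp : p.Prime)
    (hct : ¬ p ∣ ct f) (v : ZMod p) :
    ((range p).filter (fun r : ℕ => ((f.eval r : ℕ) : ZMod p) = v)).card ≤ d := by
  classical
  haveI : Fact p.Prime := ⟨hp⟩
  obtain ⟨G, hG⟩ : ∃ G, G = f.map (Nat.castRingHom (ZMod p)) - Polynomial.C v := ⟨_, rfl⟩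
  have hev : ∀ r : ℕ, G.eval (r : ZMod p) = ((f.eval r : ℕ) : ZMod p) - v := by
    intro r
    rw [hG, Polynomial.eval_sub, Polynomial.eval_C, Polynomial.eval_natCast_map]
    simp
  have hG0 : G ≠ 0 := by
    intro h
    apply hct
    unfold ct
    refine Finset.dvd_gcd fun j hj => ?_
    have hj0 : j ≠ 0 := by
      rintro rfl
      exact (Polynomial.mem_support_iff.1 hj) h0
    have h1 : G.coeff j = 0 := by rw [h, Polynomial.coeff_zero]
    rw [hG, Polynomial.coeff_sub, Polynomial.coeff_map, Polynomial.coeff_C_ne_zero hj0, sub_zero] at h1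
    have h2 : ((f.coeff j : ℕ) : ZMod p) = 0 := by simpa using h1
    exact (ZMod.natCast_eq_zero_iff _ _).1 h2
  calc ((range p).filter (fun r : ℕ => ((f.eval r : ℕ) : ZMod p) = v)).card
      = (((range p).filter (fun r : ℕ => ((f.eval r : ℕ) : ZMod p) = v)).image (fun r : ℕ => (r : ZMod p))).card := by
        rw [card_image_of_injOn]
        intro a ha b hb hab
        rw [Finset.mem_coe, mem_filter, mem_range] at ha hb
        have h1 := (ZMod.natCast_eq_natCast_iff' _ _ _).1 hab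
        rwa [Nat.mod_eq_of_lt ha.1, Nat.mod_eq_of_lt hb.1] at h1
    _ ≤ G.roots.toFinset.card := by
        apply card_le_card
        intro z hz
        rw [mem_image] at hz
        obtain ⟨r, hr, rfl⟩ := hz
        rw [mem_filter] at hr
        rw [Multiset.mem_toFinset, Polynomial.mem_roots hG0, Polynomial.IsRoot.def, hev, hr.2, sub_self]
    _ ≤ G.natDegree := (Multiset.toFinset_card_le _).trans (Polynomial.card_roots' G)
    _ ≤ (f.map (Nat.castRingHom (ZMod p))).natDegree := by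
        rw [hG]
        exact Polynomial.natDegree_sub_C.le
    _ ≤ d := Polynomial.natDegree_map_le.trans hd

/-- a residue class in an interval -/
lemma card_class (y t v : ℕ) (ht : 0 < t) :
    (((Ioc y (2 * y)).filter (fun m => m ≡ v [MOD t])).card : ℝ) ≤ y / t + 1 := by
  have h1 := Nat.Ioc_filter_modEq_card y (2 * y) ht v
  have ht' : (0 : ℚ) < t := by exact_mod_cast ht
  have h3 : (((Ioc y (2 * y)).filter (fun m => m ≡ v [MOD t])).card : ℚ) ≤ y / t + 1 := by
    have h4 : (((Ioc y (2 * y)).filter (fun m => m ≡ v [MOD t])).card : ℚ) =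
        ((((Ioc y (2 * y)).filter (fun m => m ≡ v [MOD t])).card : ℤ) : ℚ) := by norm_cast
    rw [h4, h1]
    push_cast
    refine max_le ?_ (by positivity)
    have h5 := Int.floor_le ((2 * (y : ℚ) - v) / t)
    have h6 := Int.lt_floor_add_one (((y : ℚ) - v) / t)
    have h7 : (2 * (y : ℚ) - v) / t = (y - v) / t + y / t := by ring
    linarith
  have h8 : ((((Ioc y (2 * y)).filter (fun m => m ≡ v [MOD t])).card : ℚ) : ℝ) ≤ ((y / t + 1 : ℚ) : ℝ) := by
    exact_mod_cast h3
  push_cast at h8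
  exact h8

/-- the number of arguments with `∏ T` dividing the difference -/
lemma card_div {f : Polynomial ℕ} (h0 : f.coeff 0 = 0) {d : ℕ} (hd : f.natDegree ≤ d) (T : Finset ℕ)
    (hT : ∀ p ∈ T, p.Prime ∧ ¬ p ∣ ct f) (y n : ℕ) :
    (((Ioc y (2 * y)).filter (fun m => (∏ p ∈ T, p) ∣ dn (f.eval n) (f.eval m))).card : ℝ) ≤
      (d : ℝ) ^ T.card * (y / (∏ p ∈ T, (p : ℝ)) + 1) := by
  classical
  have hpos : 0 < ∏ p ∈ T, p := Finset.prod_pos fun p hp => (hT p hp).1.pos
  obtain ⟨R, hR⟩ : ∃ R : ℕ → Finset ℕ, R = fun p => (range p).filter (fun r : ℕ => ((f.eval r : ℕ) : ZMod p) = ((f.eval n : ℕ) : ZMod p)) := ⟨_, rfl⟩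
  obtain ⟨S, hS⟩ : ∃ S, S = (Ioc y (2 * y)).filter (fun m => (∏ p ∈ T, p) ∣ dn (f.eval n) (f.eval m)) := ⟨_, rfl⟩
  rw [← hS]
  have hRd : ∀ p ∈ T, (R p).card ≤ d := fun p hp => by
    rw [hR]
    exact card_roots_mod h0 hd (hT p hp).1 (hT p hp).2 _
  have hmaps : ∀ m ∈ S, (fun p (_ : p ∈ T) => m % p) ∈ T.pi R := by
    intro m hm
    rw [hS, mem_filter] at hm
    rw [Finset.mem_pi]
    intro p hp
    rw [hR]
    simp only [mem_filter, mem_range]
    refine ⟨Nat.mod_lt _ (hT p hp).1.pos, ?_⟩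
    have h1 : p ∣ dn (f.eval n) (f.eval m) := (Finset.dvd_prod_of_mem _ hp).trans hm.2
    have h2 : f.eval n ≡ f.eval m [MOD p] := dvd_dn.1 h1
    have h3 : f.eval (m % p) ≡ f.eval m [MOD p] := eval_modEq f (Nat.mod_modEq m p)
    exact (ZMod.natCast_eq_natCast_iff _ _ _).2 (h3.trans h2.symm)
  have hfib : ∀ b ∈ T.pi R, ((S.filter (fun m => (fun p (_ : p ∈ T) => m % p) = b)).card : ℝ) ≤
      y / (∏ p ∈ T, (p : ℝ)) + 1 := by
    intro b _
    rcases (S.filter (fun m => (fun p (_ : p ∈ T) => m % p) = b)).eq_empty_or_nonempty with h | ⟨m0, hm0⟩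
    · rw [h, card_empty, Nat.cast_zero]
      positivity
    · have h1 : S.filter (fun m => (fun p (_ : p ∈ T) => m % p) = b) ⊆
          (Ioc y (2 * y)).filter (fun m => m ≡ m0 [MOD (∏ p ∈ T, p)]) := by
        intro m hm
        rw [mem_filter] at hm hm0 ⊢
        refine ⟨by have := hm.1; rw [hS] at this; exact (mem_filter.1 this).1, ?_⟩
        rw [← dvd_dn]
        refine Finset.prod_primes_dvd _ (fun p hp => (hT p hp).1.prime) fun p hp => ?_
        rw [dvd_dn]
        have h2 : m % p = b p hp := congrFun (congrFun hm.2 p) hp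
        have h3 : m0 % p = b p hp := congrFun (congrFun hm0.2 p) hp
        rw [Nat.ModEq, h2, h3]
      have h2 := card_class y (∏ p ∈ T, p) m0 hpos
      rw [Nat.cast_prod] at h2
      exact le_trans (by exact_mod_cast card_le_card h1) h2
  have hsum : (S.card : ℝ) = ∑ b ∈ T.pi R, ((S.filter (fun m => (fun p (_ : p ∈ T) => m % p) = b)).card : ℝ) := by
    rw [Finset.card_eq_sum_card_fiberwise (f := fun m => (fun p (_ : p ∈ T) => m % p)) (t := T.pi R) hmaps]
    push_cast
    rfl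
  have hQ0 : (0 : ℝ) ≤ y / (∏ p ∈ T, (p : ℝ)) + 1 := by positivity
  rw [hsum]
  calc _ ≤ ∑ _b ∈ T.pi R, ((y : ℝ) / (∏ p ∈ T, (p : ℝ)) + 1) := Finset.sum_le_sum hfib
    _ = ((T.pi R).card : ℝ) * (y / (∏ p ∈ T, (p : ℝ)) + 1) := by rw [sum_const, nsmul_eq_mul]
    _ ≤ (d : ℝ) ^ T.card * (y / (∏ p ∈ T, (p : ℝ)) + 1) := by
        refine mul_le_mul_of_nonneg_right ?_ hQ0
        rw [Finset.card_pi]
        have h1 : ∏ p ∈ T, (R p).card ≤ d ^ T.card := Finset.prod_le_pow_card _ _ _ hRd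
        exact_mod_cast h1

end Pool.Agent.Q160.GP
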