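import Mathlib
import Pool.Agent.Q160.GP2

set_option autoImplicit false

/-!
# The moments of `gg` over the differences of a polynomial
-/

namespace Pool.Agent.Q160.GP

open Finset Filter
open Pool.Agent.H373R2.T7
open Pool.Agent.H305R2 (VV VV_tendsto)
open Pool.Agent.Q160.GK

/-- large prime factors contribute a bounded amount -/
lemma tail_pow {k z a : ℕ} (ha : 0 < a) (hz : 1 ≤ z) (h : (k : ℝ) * Real.log a ≤ z) :
    (∏ p ∈ a.primeFactors.filter (fun p => z < p), (1 - (p : ℝ)⁻¹)⁻¹) ^ k ≤ Real.exp 2 := by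
  obtain ⟨U, hU⟩ : ∃ U, U = a.primeFactors.filter (fun p => z < p) := ⟨_, rfl⟩
  rw [← hU]
  have hz0 : (0 : ℝ) < z := by exact_mod_cast hz
  have ha1 : (1 : ℝ) ≤ a := by exact_mod_cast ha
  have hla : 0 ≤ Real.log a := Real.log_nonneg ha1
  have hl2 : 1 / 2 ≤ Real.log 2 := by
    have := Real.log_two_gt_d9
    linarith
  have h1 : (U.card : ℝ) * Real.log 2 ≤ Real.log a := by
    have h2 : 2 ^ U.card ≤ a := by
      have h3 := card_big_pf z a ha
      rw [← hU] at h3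
      exact le_trans (Nat.pow_le_pow_left (by omega) _) h3
    have h3 : ((2 : ℝ)) ^ U.card ≤ a := by exact_mod_cast h2
    have h4 := Real.log_le_log (by positivity) h3
    rwa [Real.log_pow] at h4
  have h2 : ∏ p ∈ U, (1 - (p : ℝ)⁻¹)⁻¹ ≤ Real.exp (U.card / z) := by
    calc ∏ p ∈ U, (1 - (p : ℝ)⁻¹)⁻¹ ≤ ∏ _p ∈ U, Real.exp (1 / z) := by
          refine Finset.prod_le_prod (fun p hp => ?_) fun p hp => ?_
          · rw [hU] at hp
            exact zero_le_one.trans (one_le_fac (pf_two (mem_filter.1 hp).1))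
          · rw [hU, mem_filter] at hp
            have hp2 := pf_two hp.1
            have hzp : ((z : ℝ)) + 1 ≤ p := by
              have : z + 1 ≤ p := hp.2
              exact_mod_cast this
            have h3 : (1 - (p : ℝ)⁻¹)⁻¹ = 1 + 1 / ((p : ℝ) - 1) := by
              have : 0 < (p : ℝ) - 1 := by linarith
              have : 0 < (p : ℝ) := by linarith
              field_simp
              ring
            rw [h3]
            have h4 : 1 / ((p : ℝ) - 1) ≤ 1 / z := one_div_le_one_div_of_le hz0 (by linarith)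
            have h5 := Real.add_one_le_exp (1 / (z : ℝ))
            linarith
      _ = Real.exp (U.card / z) := by
          rw [prod_const, ← Real.exp_nat_mul]
          congr 1
          ring
  have h0 : 0 ≤ ∏ p ∈ U, (1 - (p : ℝ)⁻¹)⁻¹ := Finset.prod_nonneg fun p hp => by
    rw [hU] at hp
    exact zero_le_one.trans (one_le_fac (pf_two (mem_filter.1 hp).1))
  calc (∏ p ∈ U, (1 - (p : ℝ)⁻¹)⁻¹) ^ k ≤ (Real.exp (U.card / z)) ^ k := pow_le_pow_left₀ h0 h2 k
    _ = Real.exp (k * (U.card / z)) := by rw [← Real.exp_nat_mul]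
    _ ≤ Real.exp 2 := by
        refine Real.exp_le_exp.2 ?_
        rw [← mul_div_assoc, div_le_iff₀ hz0]
        have h3 : (U.card : ℝ) ≤ 2 * Real.log a := by nlinarith [Nat.cast_nonneg (α := ℝ) U.card]
        calc (k : ℝ) * U.card ≤ k * (2 * Real.log a) := mul_le_mul_of_nonneg_left h3 (Nat.cast_nonneg _)
          _ = 2 * (k * Real.log a) := by ring
          _ ≤ 2 * z := by linarith

lemma prod_union_le {s t : Finset ℕ} (hs : ∀ p ∈ s, 2 ≤ p) (ht : ∀ p ∈ t, 2 ≤ p) :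
    ∏ p ∈ s ∪ t, (1 - (p : ℝ)⁻¹)⁻¹ ≤ (∏ p ∈ s, (1 - (p : ℝ)⁻¹)⁻¹) * ∏ p ∈ t, (1 - (p : ℝ)⁻¹)⁻¹ := by
  rw [← Finset.prod_union_inter]
  have h1 : 1 ≤ ∏ p ∈ s ∩ t, (1 - (p : ℝ)⁻¹)⁻¹ := GK.one_le_prod fun p hp => hs p (mem_inter.1 hp).1
  have t12 : ∀ p ∈ s ∪ t, 2 ≤ p := fun p hp => by
    rcases mem_union.1 hp with h | h
    · exact hs p h
    · exact ht p h
  have h2 : 1 ≤ ∏ p ∈ s ∪ t, (1 - (p : ℝ)⁻¹)⁻¹ := GK.one_le_prod t12
  nlinarith

/-- pointwise bound for `gg k D ^ k` -/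
lemma gg_pow_le {k w : ℕ} (hk : 1 ≤ k) (hkw : k ≤ w) {D c : ℕ} (hD : 0 < D) (hc : 0 < c)
    (hw : (k : ℝ) * Real.log D ≤ w) :
    gg k D ^ k ≤ Real.exp 2 * gg k c ^ k *
      ∑ t ∈ ((Ioc k w).filter (fun p => p.Prime ∧ ¬ p ∣ c)).powerset,
        (∏ p ∈ t, ((6 * k : ℝ) / p)) * (if (∏ p ∈ t, p) ∣ D then 1 else 0) := by
  classical
  obtain ⟨S, hS⟩ : ∃ S, S = (Ioc k w).filter (fun p => p.Prime ∧ ¬ p ∣ c) := ⟨_, rfl⟩
  rw [← hS]
  obtain ⟨U1, hU1⟩ : ∃ U1, U1 = c.primeFactors.filter (fun p => k < p) := ⟨_, rfl⟩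
  obtain ⟨U2, hU2⟩ : ∃ U2, U2 = S.filter (fun p => p ∣ D) := ⟨_, rfl⟩
  obtain ⟨U3, hU3⟩ : ∃ U3, U3 = D.primeFactors.filter (fun p => w < p) := ⟨_, rfl⟩
  have t1 : ∀ p ∈ U1, 2 ≤ p := fun p hp => by
    rw [hU1] at hp
    exact pf_two (mem_filter.1 hp).1
  have t2 : ∀ p ∈ U2, 2 ≤ p := fun p hp => by
    rw [hU2, hS, mem_filter, mem_filter] at hp
    exact hp.1.2.1.two_le
  have t3 : ∀ p ∈ U3, 2 ≤ p := fun p hp => by
    rw [hU3] at hp
    exact pf_two (mem_filter.1 hp).1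
  have hsub : D.primeFactors.filter (fun p => k < p) ⊆ (U1 ∪ U2) ∪ U3 := by
    intro p hp
    rw [mem_filter] at hp
    have hpp := Nat.prime_of_mem_primeFactors hp.1
    have hpD := Nat.dvd_of_mem_primeFactors hp.1
    rw [mem_union, mem_union, hU1, hU2, hU3, hS]
    simp only [mem_filter, mem_Ioc]
    by_cases h1 : p ∣ c
    · exact Or.inl (Or.inl ⟨Nat.mem_primeFactors.2 ⟨hpp, h1, hc.ne'⟩, hp.2⟩)
    · by_cases h2 : p ≤ w
      · exact Or.inl (Or.inr ⟨⟨⟨hp.2, h2⟩, hpp, h1⟩, hpD⟩)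
      · exact Or.inr ⟨hp.1, by omega⟩
  have hgg : gg k D ≤ (gg k c * ∏ p ∈ U2, (1 - (p : ℝ)⁻¹)⁻¹) * ∏ p ∈ U3, (1 - (p : ℝ)⁻¹)⁻¹ := by
    have t12 : ∀ p ∈ U1 ∪ U2, 2 ≤ p := fun p hp => by
      rcases mem_union.1 hp with h | h
      · exact t1 p h
      · exact t2 p h
    have h1 : gg k D ≤ ∏ p ∈ (U1 ∪ U2) ∪ U3, (1 - (p : ℝ)⁻¹)⁻¹ := by
      refine prod_le_prod_sub hsub fun p hp => ?_
      rcases mem_union.1 hp with h | h
      · exact t12 p h
      · exact t3 p h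
    refine h1.trans ((prod_union_le t12 t3).trans ?_)
    refine mul_le_mul_of_nonneg_right ?_ (zero_le_one.trans (one_le_prod t3))
    have h2 := prod_union_le t1 t2
    rw [hU1] at h2
    rw [hU1]
    exact h2
  have h3 := tail_pow hD (hk.trans hkw) hw
  rw [← hU3] at h3
  have hU2p : (∏ p ∈ U2, (1 - (p : ℝ)⁻¹)⁻¹) ^ k ≤
      ∑ t ∈ S.powerset, (∏ p ∈ t, ((6 * k : ℝ) / p)) * (if (∏ p ∈ t, p) ∣ D then 1 else 0) := by
    rw [← Finset.prod_pow]
    calc ∏ p ∈ U2, ((1 - (p : ℝ)⁻¹)⁻¹) ^ k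
        ≤ ∏ p ∈ U2, (1 + (6 * k : ℝ) / p) := by
          refine Finset.prod_le_prod (fun p hp => pow_nonneg (zero_le_one.trans (one_le_fac (t2 p hp))) _) ?_
          intro p hp
          refine fac_pow (t2 p hp) ?_
          rw [hU2, hS, mem_filter, mem_filter, mem_Ioc] at hp
          exact hp.1.1.1
      _ = ∑ t ∈ U2.powerset, ∏ p ∈ t, ((6 * k : ℝ) / p) := Finset.prod_one_add _
      _ = ∑ t ∈ U2.powerset, (∏ p ∈ t, ((6 * k : ℝ) / p)) * (if (∏ p ∈ t, p) ∣ D then 1 else 0) := by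
          refine Finset.sum_congr rfl fun t ht => ?_
          rw [mem_powerset] at ht
          have h3 : (∏ p ∈ t, p) ∣ D := by
            refine Finset.prod_primes_dvd D (fun p hp => ?_) (fun p hp => ?_)
            · have := ht hp
              rw [hU2, hS, mem_filter, mem_filter] at this
              exact this.1.2.1.prime
            · have := ht hp
              rw [hU2, mem_filter] at this
              exact this.2
          rw [if_pos h3, mul_one]
      _ ≤ ∑ t ∈ S.powerset, (∏ p ∈ t, ((6 * k : ℝ) / p)) * (if (∏ p ∈ t, p) ∣ D then 1 else 0) := by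
          refine Finset.sum_le_sum_of_subset_of_nonneg ?_ ?_
          · refine Finset.powerset_mono.2 ?_
            rw [hU2]
            exact filter_subset _ _
          · intro t _ _
            split_ifs <;> positivity
  have hg0 : 0 ≤ gg k D := zero_le_one.trans (one_le_gg k D)
  have hgc : 0 ≤ gg k c := zero_le_one.trans (one_le_gg k c)
  have hS0 : 0 ≤ ∑ t ∈ S.powerset, (∏ p ∈ t, ((6 * k : ℝ) / p)) * (if (∏ p ∈ t, p) ∣ D then 1 else 0) :=
    Finset.sum_nonneg fun t _ => by split_ifs <;> positivity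
  calc gg k D ^ k ≤ ((gg k c * ∏ p ∈ U2, (1 - (p : ℝ)⁻¹)⁻¹) * ∏ p ∈ U3, (1 - (p : ℝ)⁻¹)⁻¹) ^ k :=
        pow_le_pow_left₀ hg0 hgg k
    _ = (gg k c ^ k * (∏ p ∈ U2, (1 - (p : ℝ)⁻¹)⁻¹) ^ k) * (∏ p ∈ U3, (1 - (p : ℝ)⁻¹)⁻¹) ^ k := by
        rw [mul_pow, mul_pow]
    _ ≤ (gg k c ^ k * ∑ t ∈ S.powerset, (∏ p ∈ t, ((6 * k : ℝ) / p)) * (if (∏ p ∈ t, p) ∣ D then 1 else 0)) * Real.exp 2 := by
        refine mul_le_mul (mul_le_mul_of_nonneg_left hU2p (by positivity)) h3
          (pow_nonneg (zero_le_one.trans (one_le_prod t3)) _) (by positivity)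
    _ = _ := by ring

/-- **The moment bound.** -/
theorem moment {k d w : ℕ} (hk : 1 ≤ k) (hkw : k ≤ w) {f : Polynomial ℕ} (hf0 : f ≠ 0) (h0 : f.coeff 0 = 0)
    (hd : f.natDegree ≤ d) (y n : ℕ) (hn : n ∈ Ioc y (2 * y)) (hw : (k : ℝ) * Real.log (f.eval (2 * y) : ℕ) ≤ w) :
    ∑ m ∈ (Ioc y (2 * y)).erase n, gg k (dn (f.eval n) (f.eval m)) ^ k ≤
      Real.exp 2 * gg k (ct f) ^ k * (y * Real.exp (6 * d) + (VV w) ^ (6 * k * d)) := by
  classical
  obtain ⟨S, hS⟩ : ∃ S, S = (Ioc k w).filter (fun p => p.Prime ∧ ¬ p ∣ ct f) := ⟨_, rfl⟩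
  have hgc : 0 ≤ gg k (ct f) := zero_le_one.trans (one_le_gg k _)
  have hkr : (0 : ℝ) < k := by exact_mod_cast hk
  rw [mem_Ioc] at hn
  have h1 : ∀ m ∈ (Ioc y (2 * y)).erase n, gg k (dn (f.eval n) (f.eval m)) ^ k ≤ Real.exp 2 * gg k (ct f) ^ k *
      ∑ t ∈ S.powerset, (∏ p ∈ t, ((6 * k : ℝ) / p)) * (if (∏ p ∈ t, p) ∣ dn (f.eval n) (f.eval m) then 1 else 0) := by
    intro m hm
    rw [mem_erase, mem_Ioc] at hm
    rw [hS]
    have h2 : f.eval n ≠ f.eval m := fun h => hm.1 ((eval_strictMono hf0 h0).injective h).symm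
    have h3 := dn_pos h2
    refine gg_pow_le hk hkw h3 (ct_pos hf0) (le_trans (mul_le_mul_of_nonneg_left ?_ hkr.le) hw)
    refine Real.log_le_log (by exact_mod_cast h3) ?_
    exact_mod_cast dn_le (eval_mono f hn.2) (eval_mono f hm.2.2)
  have hSp : ∀ p ∈ S, p.Prime ∧ ¬ p ∣ ct f := fun p hp => by
    rw [hS, mem_filter] at hp
    exact hp.2
  calc ∑ m ∈ (Ioc y (2 * y)).erase n, gg k (dn (f.eval n) (f.eval m)) ^ k
      ≤ ∑ m ∈ (Ioc y (2 * y)).erase n, Real.exp 2 * gg k (ct f) ^ k *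
        ∑ t ∈ S.powerset, (∏ p ∈ t, ((6 * k : ℝ) / p)) * (if (∏ p ∈ t, p) ∣ dn (f.eval n) (f.eval m) then 1 else 0) :=
        Finset.sum_le_sum h1
    _ ≤ ∑ m ∈ Ioc y (2 * y), Real.exp 2 * gg k (ct f) ^ k *
        ∑ t ∈ S.powerset, (∏ p ∈ t, ((6 * k : ℝ) / p)) * (if (∏ p ∈ t, p) ∣ dn (f.eval n) (f.eval m) then 1 else 0) := by
        refine Finset.sum_le_sum_of_subset_of_nonneg (erase_subset _ _) fun m _ _ => ?_
        refine mul_nonneg (by positivity) (Finset.sum_nonneg fun t _ => by split_ifs <;> positivity)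
    _ = Real.exp 2 * gg k (ct f) ^ k * ∑ t ∈ S.powerset, (∏ p ∈ t, ((6 * k : ℝ) / p)) *
        (((Ioc y (2 * y)).filter (fun m => (∏ p ∈ t, p) ∣ dn (f.eval n) (f.eval m))).card : ℝ) := by
        rw [← Finset.mul_sum, Finset.sum_comm]
        congr 1
        refine Finset.sum_congr rfl fun t _ => ?_
        rw [← Finset.mul_sum, Finset.sum_ite, Finset.sum_const_zero, add_zero, Finset.sum_const, nsmul_eq_mul, mul_one]
    _ ≤ Real.exp 2 * gg k (ct f) ^ k * ∑ t ∈ S.powerset, (∏ p ∈ t, ((6 * k : ℝ) / p)) *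
        ((d : ℝ) ^ t.card * (y / (∏ p ∈ t, (p : ℝ)) + 1)) := by
        refine mul_le_mul_of_nonneg_left (Finset.sum_le_sum fun t ht => ?_) (by positivity)
        refine mul_le_mul_of_nonneg_left ?_ (by positivity)
        exact card_div h0 hd t (fun p hp => hSp p (mem_powerset.1 ht hp)) y n
    _ = Real.exp 2 * gg k (ct f) ^ k * (y * ∑ t ∈ S.powerset, ∏ p ∈ t, ((6 * k * d : ℝ) / (p : ℝ) ^ 2) +
          ∑ t ∈ S.powerset, ∏ p ∈ t, ((6 * k * d : ℝ) / p)) := by
        congr 1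
        rw [Finset.mul_sum, ← Finset.sum_add_distrib]
        refine Finset.sum_congr rfl fun t ht => ?_
        have e1 : ∏ p ∈ t, ((6 * k * d : ℝ) / p) = (∏ p ∈ t, ((6 * k : ℝ) / p)) * (d : ℝ) ^ t.card := by
          rw [← prod_const, ← prod_mul_distrib]
          refine prod_congr rfl fun p _ => ?_
          ring
        have e2 : ∏ p ∈ t, ((6 * k * d : ℝ) / (p : ℝ) ^ 2) =
            (∏ p ∈ t, ((6 * k : ℝ) / p)) * (d : ℝ) ^ t.card * (∏ p ∈ t, (p : ℝ))⁻¹ := by
          rw [← prod_const, ← prod_mul_distrib, ← prod_inv_distrib, ← prod_mul_distrib]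
          refine prod_congr rfl fun p _ => ?_
          ring
        rw [e1, e2]
        ring
    _ = Real.exp 2 * gg k (ct f) ^ k * (y * ∏ p ∈ S, (1 + (6 * k * d : ℝ) / (p : ℝ) ^ 2) +
          ∏ p ∈ S, (1 + (6 * k * d : ℝ) / p)) := by
        rw [← Finset.prod_one_add, ← Finset.prod_one_add]
    _ ≤ Real.exp 2 * gg k (ct f) ^ k * (y * Real.exp (6 * d) + (VV w) ^ (6 * k * d)) := by
        refine mul_le_mul_of_nonneg_left (add_le_add (mul_le_mul_of_nonneg_left ?_ (Nat.cast_nonneg _)) ?_) (by positivity)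
        · calc ∏ p ∈ S, (1 + (6 * k * d : ℝ) / (p : ℝ) ^ 2) ≤ ∏ p ∈ S, Real.exp ((6 * k * d : ℝ) * (1 / (p : ℝ) ^ 2)) := by
                refine Finset.prod_le_prod (fun p _ => by positivity) fun p _ => ?_
                have := Real.add_one_le_exp ((6 * k * d : ℝ) * (1 / (p : ℝ) ^ 2))
                rw [mul_one_div] at this ⊢
                linarith
            _ = Real.exp (∑ p ∈ S, (6 * k * d : ℝ) * (1 / (p : ℝ) ^ 2)) := by rw [Real.exp_sum]
            _ ≤ Real.exp (6 * d) := by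
                refine Real.exp_le_exp.2 ?_
                rw [← Finset.mul_sum]
                have h3 : ∑ p ∈ S, 1 / (p : ℝ) ^ 2 ≤ 1 / (k : ℝ) := by
                  refine le_trans (Finset.sum_le_sum_of_subset_of_nonneg ?_ (fun p _ _ => by positivity)) (sum_inv_sq_tail hk (M := w))
                  rw [hS]
                  exact filter_subset _ _
                calc (6 * k * d : ℝ) * ∑ p ∈ S, 1 / (p : ℝ) ^ 2 ≤ (6 * k * d : ℝ) * (1 / (k : ℝ)) :=
                      mul_le_mul_of_nonneg_left h3 (by positivity)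
                  _ = 6 * d := by field_simp
        · rw [VV_def, ← Finset.prod_pow]
          calc ∏ p ∈ S, (1 + (6 * k * d : ℝ) / p) ≤ ∏ p ∈ S, ((1 - (p : ℝ)⁻¹)⁻¹) ^ (6 * k * d) := by
                refine Finset.prod_le_prod (fun p _ => by positivity) fun p hp => ?_
                have hp2 := (hSp p hp).1.two_le
                have hp0 : (2 : ℝ) ≤ p := by exact_mod_cast hp2
                have h4 : (1 : ℝ) + ((6 * k * d : ℕ) : ℝ) * (1 / (p : ℝ)) ≤ (1 + 1 / (p : ℝ)) ^ (6 * k * d) :=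
                  one_add_mul_le_pow (by
                    have : (0 : ℝ) ≤ 1 / (p : ℝ) := by positivity
                    linarith) _
                have h5 : 1 + 1 / (p : ℝ) ≤ (1 - (p : ℝ)⁻¹)⁻¹ := by
                  have h6 : (1 - (p : ℝ)⁻¹)⁻¹ = 1 + 1 / ((p : ℝ) - 1) := by
                    have : 0 < (p : ℝ) - 1 := by linarith
                    have : 0 < (p : ℝ) := by linarith
                    field_simp
                    ring
                  rw [h6]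
                  have h7 : 1 / (p : ℝ) ≤ 1 / ((p : ℝ) - 1) := one_div_le_one_div_of_le (by linarith) (by linarith)
                  linarith
                calc 1 + (6 * k * d : ℝ) / p = 1 + ((6 * k * d : ℕ) : ℝ) * (1 / (p : ℝ)) := by
                      push_cast
                      ring
                  _ ≤ (1 + 1 / (p : ℝ)) ^ (6 * k * d) := h4
                  _ ≤ _ := pow_le_pow_left₀ (by positivity) h5 _
            _ ≤ ∏ p ∈ pz w, ((1 - (p : ℝ)⁻¹)⁻¹) ^ (6 * k * d) := by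
                refine Finset.prod_le_prod_of_subset_of_one_le ?_ (fun p hp => ?_) fun p hp _ => ?_
                · intro p hp
                  have h4 := hSp p hp
                  rw [hS, mem_filter, mem_Ioc] at hp
                  exact mem_pz.2 ⟨hp.1.2, h4.1⟩
                · exact pow_nonneg (zero_le_one.trans (one_le_fac (hSp p hp).1.two_le)) _
                · exact one_le_pow₀ (one_le_fac (mem_pz.1 hp).2.two_le)

end Pool.Agent.Q160.GP
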