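import Mathlib
import Pool.Agent.Q160.GP3

set_option autoImplicit false

/-!
# Local admissibility of systems of polynomials with variable constant terms
-/

namespace Pool.Agent.Q160.GP

open Finset Filter
open Pool.Agent.H373R2.T7
open Pool.Agent.H305R2 (VV VV_tendsto)
open Pool.Agent.Q160.GK

/-- for every prime `p` there is `n` such that `p` divides none of the numbers `f i (n) + b i` -/
def AdmP {k : ℕ} (f : Fin k → Polynomial ℕ) (b : Fin k → ℕ) : Prop :=
  ∀ p : ℕ, p.Prime → ∃ n : ℕ, ∀ i, ¬ p ∣ (f i).eval n + b i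

/-- the polynomials `f i + b i` are distinct -/
def DistP {k : ℕ} (f : Fin k → Polynomial ℕ) (b : Fin k → ℕ) : Prop :=
  ∀ i j, i ≠ j → ¬ (f i = f j ∧ b i = b j)

/-- the class of polynomials: non-zero, without constant term, of degree at most `d` -/
def PD (d : ℕ) (f : Polynomial ℕ) : Prop := f ≠ 0 ∧ f.coeff 0 = 0 ∧ f.natDegree ≤ d

lemma PD.natDegree_pos {d : ℕ} {f : Polynomial ℕ} (h : PD d f) : 1 ≤ f.natDegree := by
  obtain ⟨h1, h2, h3⟩ := h
  by_contra hcon
  have h4 : f.natDegree = 0 := by omega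
  have h5 : f.coeff f.natDegree ≠ 0 := by
    rw [Polynomial.coeff_natDegree]
    exact Polynomial.leadingCoeff_ne_zero.2 h1
  rw [h4] at h5
  exact h5 h2

lemma PD.le_eval {d : ℕ} {f : Polynomial ℕ} (h : PD d f) (n : ℕ) : ct f * n ≤ f.eval n := by
  have h4 : f.coeff f.natDegree ≠ 0 := by
    rw [Polynomial.coeff_natDegree]
    exact Polynomial.leadingCoeff_ne_zero.2 h.1
  have h5 : ct f ≤ f.coeff f.natDegree := Nat.le_of_dvd (Nat.pos_of_ne_zero h4) (ct_dvd_coeff f _)
  have h6 : f.coeff f.natDegree * n ^ f.natDegree ≤ f.eval n := by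
    rw [Polynomial.eval_eq_sum_range]
    exact Finset.single_le_sum (f := fun i => f.coeff i * n ^ i) (fun _ _ => Nat.zero_le _) (self_mem_range_succ _)
  refine le_trans (Nat.mul_le_mul h5 ?_) h6
  calc n = n ^ 1 := (pow_one n).symm
    _ ≤ n ^ f.natDegree := by
        rcases Nat.eq_zero_or_pos n with h7 | h7
        · rw [h7, zero_pow (by omega)]
          exact Nat.zero_le _
        · exact Nat.pow_le_pow_right h7 h.natDegree_pos

lemma PD.eval_zero {d : ℕ} {f : Polynomial ℕ} (h : PD d f) : f.eval 0 = 0 := by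
  rw [← Polynomial.coeff_zero_eq_eval_zero]
  exact h.2.1

open Classical in
/-- no obstruction at large primes -/
lemma adm_of_large {k d : ℕ} {f : Fin k → Polynomial ℕ} (hf : ∀ i, PD d (f i)) {b : Fin k → ℕ} {p : ℕ}
    (hp : p.Prime) (hpk : k * d < p) (hb : ∀ i, p ∣ ct (f i) → ¬ p ∣ b i) :
    ∃ n : ℕ, ∀ i, ¬ p ∣ (f i).eval n + b i := by
  by_contra hcon
  push Not at hcon
  have h1 : range p ⊆ (univ : Finset (Fin k)).biUnion (fun i => (range p).filter (fun r => p ∣ (f i).eval r + b i)) := by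
    intro r hr
    obtain ⟨i, hi⟩ := hcon r
    rw [mem_biUnion]
    exact ⟨i, mem_univ _, mem_filter.2 ⟨hr, hi⟩⟩
  have h2 : ∀ i : Fin k, ((range p).filter (fun r => p ∣ (f i).eval r + b i)).card ≤ d := by
    intro i
    by_cases hc : p ∣ ct (f i)
    · rw [filter_false_of_mem, card_empty]
      · exact Nat.zero_le _
      · intro r _ hr
        exact hb i hc ((Nat.dvd_add_right (hc.trans (ct_dvd_eval (f i) r))).1 hr)
    · refine le_trans (card_le_card ?_) (card_roots_mod (hf i).2.1 (hf i).2.2 hp hc (-(b i : ZMod p)))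
      intro r hr
      rw [mem_filter] at hr ⊢
      refine ⟨hr.1, ?_⟩
      have h3 := (ZMod.natCast_eq_zero_iff _ _).2 hr.2
      push_cast at h3
      exact eq_neg_of_add_eq_zero_left h3
  have h3 := (card_le_card h1).trans card_biUnion_le
  have h4 : ∑ i : Fin k, ((range p).filter (fun r => p ∣ (f i).eval r + b i)).card ≤ k * d := by
    calc _ ≤ ∑ _i : Fin k, d := sum_le_sum fun i _ => h2 i
      _ = k * d := by rw [sum_const, card_univ, Fintype.card_fin, smul_eq_mul]
  rw [card_range] at h3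
  omega

/-- prime values imply admissibility -/
lemma adm_of_primes {k d : ℕ} {f : Fin k → Polynomial ℕ} (hf : ∀ i, PD d (f i)) {b : Fin k → ℕ} {n : ℕ}
    (hn : 2 ≤ n) (hkn : k * d < n) (hb : ∀ i, ((f i).eval n + b i).Prime) : AdmP f b := by
  intro p hp
  by_cases h : ∃ i, p ∣ (f i).eval n + b i
  · obtain ⟨i, hi⟩ := h
    have h1 : p = (f i).eval n + b i := (Nat.prime_dvd_prime_iff_eq hp (hb i)).1 hi
    have h2 : n ≤ (f i).eval n := by
      have h3 := (hf i).le_eval n
      have h4 := ct_pos (hf i).1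
      nlinarith
    refine adm_of_large hf hp (by omega) ?_
    intro j hj1 hj2
    have h3 : p ∣ (f j).eval n + b j := dvd_add (hj1.trans (ct_dvd_eval _ _)) hj2
    have h4 : p = (f j).eval n + b j := (Nat.prime_dvd_prime_iff_eq hp (hb j)).1 h3
    have h5 := (hf j).le_eval n
    have h6 : p ≤ ct (f j) := Nat.le_of_dvd (ct_pos (hf j).1) hj1
    have h7 : 2 * p ≤ ct (f j) * n := by nlinarith
    have := hp.pos
    omega
  · push Not at h
    exact ⟨n, h⟩

open Classical in
theorem admP_cover (A : ℕ) : ∃ C : ℝ, ∃ h0 : ℕ, 0 < C ∧ ∀ k : ℕ, ∀ f : Fin k → Polynomial ℕ, ∀ l h : Fin k → ℕ, (∀ i, h0 ≤ h i) →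
    (∀ i, f i ≠ 0) → (∀ i, ct (f i) ≤ h i ^ A) → (∀ i, (k : ℝ) ≤ Real.log (h i)) →
    ∃ (ι : Type) (I : Finset ι) (S : ι → Fin k → Finset ℕ), (I.card : ℝ) ≤ 4 ^ k ∧
      (∀ s i, ((S s i).card : ℝ) ≤ C * (h i / (Real.log (k + 2) * gg k (ct (f i))))) ∧
      (Fintype.piFinset (fun i => Ioc (l i) (l i + h i))).filter (fun b => AdmP f b) ⊆
        I.biUnion (fun s => Fintype.piFinset (S s)) := by
  obtain ⟨C, h0, hC, hcs⟩ := class_sieve A
  refine ⟨C, h0, hC, fun k f l h hh hf haA hk => ?_⟩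
  obtain ⟨Sp, hSp⟩ : ∃ Sp : Fin k → ((p : ℕ) → p ∈ pz k → ℕ) → ℕ → ℕ,
    Sp = fun i s p => if hp : p ∈ pz k then (f i).eval (s p hp) / ct (f i) else 0 := ⟨_, rfl⟩
  obtain ⟨S, hS⟩ : ∃ S : ((p : ℕ) → p ∈ pz k → ℕ) → Fin k → Finset ℕ, S = fun s i =>
    (Ioc (l i) (l i + h i)).filter (fun b => (∀ p ∈ pz k, ¬ p ∣ ct (f i) * Sp i s p + b) ∧ b.Coprime (ct (f i))) := ⟨_, rfl⟩
  refine ⟨((p : ℕ) → p ∈ pz k → ℕ), (pz k).pi (fun p => range p), S, ?_, ?_, ?_⟩
  · rw [Finset.card_pi]
    have h1 : ∏ p ∈ pz k, (range p).card = ∏ p ∈ pz k, p := prod_congr rfl fun p _ => card_range p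
    rw [h1]
    exact_mod_cast prod_pz_le k
  · intro s i
    rw [hS]
    exact hcs k (ct (f i)) (l i) (h i) (hh i) (ct_pos (hf i)) (haA i) (hk i) (Sp i s)
  · intro b hb
    rw [mem_filter, Fintype.mem_piFinset] at hb
    obtain ⟨hb1, hb2⟩ := hb
    unfold AdmP at hb2
    choose! n hn using hb2
    rw [mem_biUnion]
    refine ⟨fun p _ => n p % p, ?_, ?_⟩
    · rw [Finset.mem_pi]
      intro p hp
      rw [mem_range]
      exact Nat.mod_lt _ (mem_pz.1 hp).2.pos
    · rw [Fintype.mem_piFinset]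
      intro i
      rw [hS]
      simp only [mem_filter]
      refine ⟨hb1 i, ?_, ?_⟩
      · intro p hp
        rw [hSp]
        simp only [hp, dif_pos]
        rw [Nat.mul_div_cancel' (ct_dvd_eval _ _), eval_mod]
        exact hn p (mem_pz.1 hp).2 i
      · rw [Nat.coprime_iff_gcd_eq_one]
        by_contra hcon
        obtain ⟨p, hp, hpg⟩ := Nat.exists_prime_and_dvd hcon
        have hp1 := hpg.trans (Nat.gcd_dvd_left _ _)
        have hp2 := hpg.trans (Nat.gcd_dvd_right _ _)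
        exact hn p hp i (dvd_add (hp2.trans (ct_dvd_eval _ _)) hp1)

lemma gg_anti {k k' a : ℕ} (h : k ≤ k') : gg k' a ≤ gg k a := by
  unfold gg
  refine prod_le_prod_sub ?_ fun p hp => pf_two (mem_filter.1 hp).1
  intro p hp
  rw [mem_filter] at hp ⊢
  exact ⟨hp.1, by omega⟩

open Classical in
theorem admP_lower (A d : ℕ) (hd : 1 ≤ d) : ∃ c : ℝ, ∃ h0 : ℕ, 0 < c ∧ ∀ k : ℕ, ∀ f : Fin k → Polynomial ℕ, ∀ l h : Fin k → ℕ,
    (∀ i, h0 ≤ h i) → (∀ i, PD d (f i)) → (∀ i, ct (f i) ≤ h i ^ A) → (∀ i, ((k * d : ℕ) : ℝ) ≤ Real.log (h i)) →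
    ∏ i, (c * (h i / (Real.log (k + 2) * gg k (ct (f i))))) ≤
    (((Fintype.piFinset (fun i => Ioc (l i) (l i + h i))).filter (fun b => AdmP f b)).card : ℝ) := by
  obtain ⟨c, h0, hc, hcl⟩ := class_low A
  refine ⟨c / (1 + d), h0, by positivity, fun k f l h hh hf haA hk => ?_⟩
  have hsub : Fintype.piFinset (fun i => (Ioc (l i) (l i + h i)).filter
      (fun b => (∀ p ∈ pz (k * d), ¬ p ∣ b) ∧ b.Coprime (ct (f i)))) ⊆
      (Fintype.piFinset (fun i => Ioc (l i) (l i + h i))).filter (fun b => AdmP f b) := by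
    intro b hb
    rw [Fintype.mem_piFinset] at hb
    rw [mem_filter, Fintype.mem_piFinset]
    refine ⟨fun i => (mem_filter.1 (hb i)).1, ?_⟩
    intro p hp
    by_cases hpk : p ≤ k * d
    · refine ⟨0, fun i => ?_⟩
      rw [(hf i).eval_zero, zero_add]
      exact (mem_filter.1 (hb i)).2.1 p (mem_pz.2 ⟨hpk, hp⟩)
    · refine adm_of_large hf hp (by omega) ?_
      intro i h1 h2
      have h3 := (mem_filter.1 (hb i)).2.2
      have h4 := Nat.dvd_gcd h2 h1
      rw [Nat.Coprime.gcd_eq_one h3] at h4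
      exact hp.one_lt.ne' (Nat.dvd_one.1 h4)
  have h1 : ((Fintype.piFinset (fun i => (Ioc (l i) (l i + h i)).filter
      (fun b => (∀ p ∈ pz (k * d), ¬ p ∣ b) ∧ b.Coprime (ct (f i))))).card : ℝ) ≤
      (((Fintype.piFinset (fun i => Ioc (l i) (l i + h i))).filter (fun b => AdmP f b)).card : ℝ) := by
    exact_mod_cast card_le_card hsub
  refine le_trans ?_ h1
  rw [Fintype.card_piFinset]
  push_cast
  have hlk := log_two_add k
  refine prod_le_prod (fun i _ => ?_) fun i _ => ?_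
  · have := one_le_gg k (ct (f i))
    positivity
  · refine le_trans ?_ (hcl (k * d) (ct (f i)) (l i) (h i) (hh i) (ct_pos (hf i).1) (haA i) (hk i))
    have h2 := one_le_gg k (ct (f i))
    have h3 := one_le_gg (k * d) (ct (f i))
    have h4 : gg (k * d) (ct (f i)) ≤ gg k (ct (f i)) := gg_anti (Nat.le_mul_of_pos_right k hd)
    have h5 := log_two_add (k * d)
    have h6 : Real.log (((k * d : ℕ) : ℝ) + 2) ≤ (1 + d) * Real.log (k + 2) := by
      have hd1 : (1 : ℝ) ≤ d := by exact_mod_cast hd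
      have hk0 : (0 : ℝ) ≤ k := Nat.cast_nonneg k
      have h7 : (((k * d : ℕ) : ℝ) + 2) ≤ (k + 2) * (1 + d) := by
        push_cast
        nlinarith
      have h8 : Real.log (1 + d) ≤ d * Real.log (k + 2) := by
        have h9 : (1 + (d : ℝ)) ≤ (k + 2) ^ d := by
          have h10 := one_add_mul_le_pow (a := ((k : ℝ) + 1)) (by linarith) d
          have h11 : (1 : ℝ) + d ≤ 1 + d * (k + 1) := by nlinarith
          calc (1 : ℝ) + d ≤ 1 + d * (k + 1) := h11
            _ ≤ (1 + (k + 1)) ^ d := h10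
            _ = (k + 2) ^ d := by ring
        have h10 := Real.log_le_log (by positivity) h9
        rwa [Real.log_pow] at h10
      calc Real.log (((k * d : ℕ) : ℝ) + 2) ≤ Real.log ((k + 2) * (1 + d)) :=
            Real.log_le_log (by positivity) h7
        _ = Real.log (k + 2) + Real.log (1 + d) := Real.log_mul (by positivity) (by positivity)
        _ ≤ _ := by linarith
    have hh0 : (0 : ℝ) ≤ h i := Nat.cast_nonneg _
    rw [div_mul_eq_mul_div, mul_div_assoc]
    refine mul_le_mul_of_nonneg_left ?_ hc.le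
    rw [div_div]
    refine div_le_div_of_nonneg_left hh0 (by positivity) ?_
    calc Real.log (((k * d : ℕ) : ℝ) + 2) * gg (k * d) (ct (f i)) ≤ ((1 + d) * Real.log (k + 2)) * gg k (ct (f i)) :=
          mul_le_mul h6 h4 (by linarith) (by positivity)
      _ = _ := by ring

end Pool.Agent.Q160.GP
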