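import Mathlib
import Pool.Agent.Q160.GP4

set_option autoImplicit false

/-!
# The general theorem for systems of polynomials
-/

namespace Pool.Agent.Q160.GP

open Finset Filter
open Pool.Agent.H373R2.T7
open Pool.Agent.H305R2 (VV VV_tendsto)
open Pool.Agent.Q160.GK

/-- `VV w` is smaller than any power of `log h` for `w ≤ A (log h)²` -/
lemma VV_small (N : ℕ) (D A : ℝ) (hD : 0 < D) (hA : 0 < A) : ∃ h1 : ℕ, ∀ h : ℕ, h1 ≤ h → ∀ w : ℕ,
    (w : ℝ) ≤ A * Real.log h ^ 2 → D * VV w ^ N ≤ Real.log h ^ (1 / 2 : ℝ) := by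
  obtain ⟨c, C, hc, hC, hVV⟩ := VV_bounds
  have h1 : (fun x : ℝ => Real.log x ^ N) =o[atTop] (fun x : ℝ => x ^ (1 / 8 : ℝ)) := by
    have := isLittleO_log_rpow_rpow_atTop (N : ℝ) (show (0 : ℝ) < 1 / 8 by norm_num)
    simpa [Real.rpow_natCast] using this
  have h2 := (h1.bound (show (0 : ℝ) < 1 / (D * C ^ N) by positivity)).and (eventually_ge_atTop (1 : ℝ))
  have hlog : Tendsto (fun h : ℕ => Real.log (h : ℝ)) atTop atTop :=
    Real.tendsto_log_atTop.comp tendsto_natCast_atTop_atTop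
  have h3 : Tendsto (fun h : ℕ => Real.log (h : ℝ) ^ 3) atTop atTop := (tendsto_pow_atTop (by norm_num)).comp hlog
  have h4 := (h3.eventually h2).and (hlog.eventually_ge_atTop (A + 2))
  obtain ⟨h0, hh0⟩ := eventually_atTop.1 h4
  refine ⟨h0, fun h hh w hw => ?_⟩
  obtain ⟨⟨h5, h6⟩, h7⟩ := hh0 h hh
  obtain ⟨L, hL⟩ : ∃ L, L = Real.log (h : ℝ) := ⟨_, rfl⟩
  rw [← hL] at h5 h6 h7 hw ⊢
  have hL1 : 2 ≤ L := by linarith
  have h8 : (w : ℝ) + 2 ≤ L ^ 3 := by
    have h9 : (0 : ℝ) ≤ L ^ 2 := by positivity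
    nlinarith
  have h9 : Real.log ((w : ℝ) + 2) ≤ Real.log (L ^ 3) := Real.log_le_log (by positivity) h8
  have h10 : 0 ≤ Real.log ((w : ℝ) + 2) := (log_two_add w).le
  rw [Real.norm_eq_abs, Real.norm_eq_abs, abs_of_nonneg (by
    have : 0 ≤ Real.log (L ^ 3) := h10.trans h9
    positivity), abs_of_nonneg (by positivity)] at h5
  have h11 : 0 ≤ VV w := zero_le_one.trans (one_le_VV w)
  calc D * VV w ^ N ≤ D * (C * Real.log (L ^ 3)) ^ N := by
        refine mul_le_mul_of_nonneg_left (pow_le_pow_left₀ h11 ((hVV w).2.trans ?_) N) hD.le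
        exact mul_le_mul_of_nonneg_left h9 hC.le
    _ = (D * C ^ N) * Real.log (L ^ 3) ^ N := by rw [mul_pow]; ring
    _ ≤ (D * C ^ N) * (1 / (D * C ^ N) * (L ^ 3) ^ (1 / 8 : ℝ)) := mul_le_mul_of_nonneg_left h5 (by positivity)
    _ = (L ^ 3) ^ (1 / 8 : ℝ) := by
        have : 0 < D * C ^ N := by positivity
        field_simp
    _ = L ^ (3 / 8 : ℝ) := by
        rw [← Real.rpow_natCast L 3, ← Real.rpow_mul (by linarith)]
        norm_num
    _ ≤ L ^ (1 / 2 : ℝ) := Real.rpow_le_rpow_of_exponent_le (by linarith) (by norm_num)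

/-- bound for `gg` -/
lemma gg_le_VV {k z a : ℕ} (ha : 0 < a) (hz : 1 ≤ z) (h : Real.log a ≤ z) : gg k a ≤ VV z * Real.exp 2 := by
  have h1 := tail_pow (k := 1) ha hz (by simpa using h)
  rw [pow_one] at h1
  have h2 : gg k a ≤ ∏ p ∈ pz z ∪ a.primeFactors.filter (fun p => z < p), (1 - (p : ℝ)⁻¹)⁻¹ := by
    unfold gg
    refine prod_le_prod_sub ?_ fun p hp => ?_
    · intro p hp
      rw [mem_filter] at hp
      rw [mem_union, mem_pz, mem_filter]
      by_cases h3 : p ≤ z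
      · exact Or.inl ⟨h3, Nat.prime_of_mem_primeFactors hp.1⟩
      · exact Or.inr ⟨hp.1, by omega⟩
    · rcases mem_union.1 hp with h3 | h3
      · exact (mem_pz.1 h3).2.two_le
      · exact pf_two (mem_filter.1 h3).1
  refine h2.trans ((prod_union_le (fun p hp => (mem_pz.1 hp).2.two_le) (fun p hp => pf_two (mem_filter.1 hp).1)).trans ?_)
  exact mul_le_mul_of_nonneg_left h1 (zero_le_one.trans (one_le_VV z))

open Classical in
/-- **The general theorem, admissible systems.** -/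
theorem genA (d : ℕ) (hd : 1 ≤ d) : ∃ θ : ℝ, 0 < θ ∧ θ < 1 ∧ ∃ C : ℝ, 1 ≤ C ∧ ∃ h0 : ℕ, ∀ k : ℕ, 1 ≤ k →
    ∀ f : Fin k → Polynomial ℕ, ∀ l : Fin k → ℕ, ∀ h y : ℕ, 1 ≤ y → h0 ≤ h → ((k * d : ℕ) : ℝ) ≤ Real.log h →
    (∀ i, PD d (f i)) → (∀ i, (((f i).eval (2 * y) + l i + h : ℕ) : ℝ) ^ θ ≤ h) →
    ∏ i, (C * (Real.log h / (Real.log (k + 2) * gg k (ct (f i))))) ≤ y →
    (C ^ k)⁻¹ * (((Fintype.piFinset (fun i => Ioc (l i) (l i + h))).filter (fun b => AdmP f b)).card : ℝ) ≤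
      ((((Fintype.piFinset (fun i => Ioc (l i) (l i + h))).filter (fun b => AdmP f b ∧
        (y : ℝ) * ∏ i, (C * (Real.log h / (Real.log (k + 2) * gg k (ct (f i)))))⁻¹ ≤
          (((Ioc y (2 * y)).filter (fun n => ∀ i, ((f i).eval n + b i).Prime)).card : ℝ))).card : ℕ) : ℝ) := by
  obtain ⟨θ, hθ, hθ1, hgen⟩ := gen
  obtain ⟨A, hA⟩ : ∃ A : ℕ, A = ⌈1 / θ⌉₊ := ⟨_, rfl⟩
  obtain ⟨CU, h1, hCU, hcover⟩ := admP_cover A
  obtain ⟨M, hM⟩ : ∃ M : ℝ, M = Real.exp 2 * (Real.exp (6 * d) + 1) := ⟨_, rfl⟩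
  have hM0 : 0 ≤ M := by rw [hM]; positivity
  obtain ⟨C, hC, h2, hgen2⟩ := hgen (4 * CU) M (by positivity) hM0
  obtain ⟨cV, CV, hcV, hCV, hVV⟩ := VV_bounds
  obtain ⟨h3, hsm1⟩ := VV_small (6 * d) 1 (2 / θ) one_pos (by positivity)
  obtain ⟨h4, hsm2⟩ := VV_small 2 (Real.exp 2 / cV) (2 / θ) (by positivity) (by positivity)
  have hlog : Tendsto (fun h : ℕ => Real.log (h : ℝ)) atTop atTop :=
    Real.tendsto_log_atTop.comp tendsto_natCast_atTop_atTop
  obtain ⟨h5, hlarge⟩ := eventually_atTop.1 (hlog.eventually_ge_atTop ((4 * d : ℝ) ^ 2 + 1))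
  refine ⟨θ, hθ, hθ1, C, hC, max (max (max h1 h2) (max h3 h4)) (max h5 3), fun k hk f l h y hy hh hkh hf hθh hyL => ?_⟩
  have hh1 : h1 ≤ h := by omega
  have hh2 : h2 ≤ h := by omega
  have hh3 : h3 ≤ h := by omega
  have hh4 : h4 ≤ h := by omega
  have hh5 : h5 ≤ h := by omega
  have hh6 : 3 ≤ h := by omega
  have hhr : (3 : ℝ) ≤ h := by exact_mod_cast hh6
  have hdr : (1 : ℝ) ≤ d := by exact_mod_cast hd
  obtain ⟨L, hL⟩ : ∃ L, L = Real.log (h : ℝ) := ⟨_, rfl⟩
  have hLd := hlarge h hh5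
  rw [← hL] at hkh hLd
  have hL1 : 1 ≤ L := by
    have : (0 : ℝ) ≤ (4 * d : ℝ) ^ 2 := by positivity
    linarith
  have hkr : (1 : ℝ) ≤ k := by exact_mod_cast hk
  have hkL : (k : ℝ) ≤ L := by
    have h6 : (k : ℝ) ≤ ((k * d : ℕ) : ℝ) := by
      push_cast
      nlinarith
    linarith
  have hlk := log_two_add k
  have hg1 : ∀ i, 1 ≤ gg k (ct (f i)) := fun i => one_le_gg k _
  -- size of values
  have hval : ∀ i, Real.log (((f i).eval (2 * y) : ℕ) : ℝ) ≤ (1 / θ) * L := by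
    intro i
    have h6 : (0 : ℝ) < ((f i).eval (2 * y) : ℕ) := by
      have := eval_strictMono (hf i).1 (hf i).2.1 (show 0 < 2 * y by omega)
      simp only at this
      exact_mod_cast (by omega : 0 < (f i).eval (2 * y))
    have h7 : (((f i).eval (2 * y) : ℕ) : ℝ) ^ θ ≤ h := by
      refine le_trans (Real.rpow_le_rpow h6.le ?_ hθ.le) (hθh i)
      exact_mod_cast (by omega : (f i).eval (2 * y) ≤ (f i).eval (2 * y) + l i + h)
    have h8 := Real.log_le_log (by positivity) h7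
    rw [Real.log_rpow h6, ← hL] at h8
    rw [div_mul_eq_mul_div, one_mul, le_div_iff₀ hθ]
    linarith
  have hctval : ∀ i, ct (f i) ≤ (f i).eval (2 * y) := by
    intro i
    have h6 := (hf i).le_eval (2 * y)
    have : ct (f i) * 1 ≤ ct (f i) * (2 * y) := Nat.mul_le_mul_left _ (by omega)
    omega
  have hct0 : ∀ i, 0 < ct (f i) := fun i => ct_pos (hf i).1
  have hctlog : ∀ i, Real.log (ct (f i) : ℕ) ≤ (1 / θ) * L := by
    intro i
    refine le_trans (Real.log_le_log (by exact_mod_cast hct0 i) ?_) (hval i)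
    exact_mod_cast hctval i
  have hctA : ∀ i, ct (f i) ≤ h ^ A := by
    intro i
    have h6 : (0 : ℝ) < ct (f i) := by exact_mod_cast hct0 i
    have h7 : Real.log (ct (f i) : ℕ) ≤ Real.log ((h : ℝ) ^ A) := by
      rw [Real.log_pow, ← hL]
      refine (hctlog i).trans (mul_le_mul_of_nonneg_right ?_ (by linarith))
      rw [hA]
      exact Nat.le_ceil _
    have h8 := (Real.log_le_log_iff h6 (by positivity)).1 h7
    exact_mod_cast h8
  -- the parameter w
  obtain ⟨w, hw⟩ : ∃ w : ℕ, w = ⌈(1 / θ) * L ^ 2⌉₊ := ⟨_, rfl⟩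
  have hθinv : 1 ≤ 1 / θ := by
    rw [le_div_iff₀ hθ]
    linarith
  have hw1 : (1 / θ) * L ^ 2 ≤ w := by rw [hw]; exact Nat.le_ceil _
  have hLL : L ≤ L ^ 2 := by nlinarith
  have hw2 : (w : ℝ) ≤ (2 / θ) * L ^ 2 := by
    have h6 : (w : ℝ) < (1 / θ) * L ^ 2 + 1 := by
      rw [hw]
      exact Nat.ceil_lt_add_one (by positivity)
    have h7 : 1 ≤ (1 / θ) * L ^ 2 := by nlinarith
    have h8 : (2 / θ) * L ^ 2 = (1 / θ) * L ^ 2 + (1 / θ) * L ^ 2 := by ring
    linarith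
  have hwL : L ≤ w := by nlinarith
  have hkw : k ≤ w := by
    have : (k : ℝ) ≤ w := hkL.trans hwL
    exact_mod_cast this
  have hw0 : 1 ≤ w := hk.trans hkw
  have hs1 := hsm1 h hh3 w (by rw [← hL]; exact hw2)
  have hs2 := hsm2 h hh4 w (by rw [← hL]; exact hw2)
  rw [← hL] at hs1 hs2
  rw [one_mul] at hs1
  -- W_i ≥ L^(1/2)
  have hW : ∀ i, L ^ (1 / 2 : ℝ) ≤ C * (L / (Real.log (k + 2) * gg k (ct (f i)))) := by
    intro i
    have h6 : gg k (ct (f i)) ≤ VV w * Real.exp 2 := by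
      refine gg_le_VV (hct0 i) hw0 ((hctlog i).trans ?_)
      refine le_trans ?_ hw1
      exact mul_le_mul_of_nonneg_left hLL (by positivity)
    have h7 : Real.log (k + 2) ≤ VV w / cV := by
      rw [le_div_iff₀ hcV, mul_comm]
      exact (hVV k).1.trans (VV_mono hkw)
    have h8 : Real.log (k + 2) * gg k (ct (f i)) ≤ L ^ (1 / 2 : ℝ) := by
      have h9 := one_le_VV w
      calc Real.log (k + 2) * gg k (ct (f i)) ≤ (VV w / cV) * (VV w * Real.exp 2) :=
            mul_le_mul h7 h6 (by linarith [hg1 i]) (by positivity)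
        _ = Real.exp 2 / cV * VV w ^ 2 := by ring
        _ ≤ _ := hs2
    have h9 : L ^ (1 / 2 : ℝ) * L ^ (1 / 2 : ℝ) = L := by
      rw [← Real.rpow_add (by linarith)]
      norm_num
    have h10 : L ^ (1 / 2 : ℝ) ≤ L / (Real.log (k + 2) * gg k (ct (f i))) := by
      rw [le_div_iff₀ (by have := hg1 i; positivity)]
      calc L ^ (1 / 2 : ℝ) * (Real.log (k + 2) * gg k (ct (f i))) ≤ L ^ (1 / 2 : ℝ) * L ^ (1 / 2 : ℝ) :=
            mul_le_mul_of_nonneg_left h8 (by positivity)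
        _ = L := h9
    refine h10.trans ?_
    have h11 : 0 ≤ L / (Real.log (k + 2) * gg k (ct (f i))) := by
      have := hg1 i
      positivity
    nlinarith
  have hyk : (L ^ (1 / 2 : ℝ)) ^ k ≤ y := by
    refine le_trans ?_ hyL
    calc (L ^ (1 / 2 : ℝ)) ^ k = ∏ _i : Fin k, L ^ (1 / 2 : ℝ) := by
          rw [prod_const, card_univ, Fintype.card_fin]
      _ ≤ _ := prod_le_prod (fun i _ => by positivity) fun i _ => by
          rw [← hL]
          exact hW i
  have hykd : k * d ≤ y := by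
    have h6 : (4 * d : ℝ) ≤ L ^ (1 / 2 : ℝ) := by
      rw [← Real.sqrt_eq_rpow]
      refine Real.le_sqrt_of_sq_le ?_
      linarith
    have h7 : (k : ℝ) * d ≤ (4 * d : ℝ) ^ k := by
      rw [mul_pow]
      have h8 : k ≤ 4 ^ k := by
        have h10 : k ≤ 2 ^ k := (Nat.lt_two_pow_self).le
        exact h10.trans (Nat.pow_le_pow_left (by norm_num) k)
      have h9 : (k : ℝ) ≤ 4 ^ k := by exact_mod_cast h8
      have h10 : (d : ℝ) ≤ (d : ℝ) ^ k := by
        calc (d : ℝ) = (d : ℝ) ^ 1 := (pow_one _).symm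
          _ ≤ (d : ℝ) ^ k := pow_le_pow_right₀ hdr hk
      exact mul_le_mul h9 h10 (by positivity) (by positivity)
    have h8 : ((k * d : ℕ) : ℝ) ≤ y := by
      push_cast
      exact h7.trans ((pow_le_pow_left₀ (by positivity) h6 k).trans hyk)
    exact_mod_cast h8
  -- the moments
  have hmom : ∀ i, ∀ n ∈ Ioc y (2 * y), ∑ m ∈ (Ioc y (2 * y)).erase n, gg k (dn ((f i).eval n) ((f i).eval m)) ^ k ≤
      M * y * gg k (ct (f i)) ^ k := by
    intro i n hn
    have h6 : (k : ℝ) * Real.log (((f i).eval (2 * y) : ℕ) : ℝ) ≤ w := by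
      refine le_trans ?_ hw1
      calc (k : ℝ) * Real.log (((f i).eval (2 * y) : ℕ) : ℝ) ≤ k * ((1 / θ) * L) :=
            mul_le_mul_of_nonneg_left (hval i) (by positivity)
        _ ≤ L * ((1 / θ) * L) := mul_le_mul_of_nonneg_right hkL (by positivity)
        _ = (1 / θ) * L ^ 2 := by ring
    refine (moment hk hkw (hf i).1 (hf i).2.1 (hf i).2.2 y n hn h6).trans ?_
    have h7 : (VV w) ^ (6 * k * d) ≤ y := by
      refine le_trans ?_ hyk
      have : 6 * k * d = (6 * d) * k := by ring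
      rw [this, pow_mul]
      exact pow_le_pow_left₀ (pow_nonneg (zero_le_one.trans (one_le_VV w)) _) hs1 k
    have h8 : 0 ≤ Real.exp 2 * gg k (ct (f i)) ^ k := by
      have := hg1 i
      positivity
    calc Real.exp 2 * gg k (ct (f i)) ^ k * (y * Real.exp (6 * d) + (VV w) ^ (6 * k * d))
        ≤ Real.exp 2 * gg k (ct (f i)) ^ k * (y * Real.exp (6 * d) + y) :=
          mul_le_mul_of_nonneg_left (by linarith) h8
      _ = M * y * gg k (ct (f i)) ^ k := by rw [hM]; ring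
  -- upper bound for the number of admissible vectors
  have hk' : ∀ i : Fin k, (k : ℝ) ≤ Real.log h := fun _ => by rw [← hL]; exact hkL
  obtain ⟨ι, I, S, hI, hS, hcov⟩ := hcover k f l (fun _ => h) (fun _ => hh1) (fun i => (hf i).1) hctA hk'
  have hup : (((Fintype.piFinset (fun i => Ioc (l i) (l i + h))).filter (fun b => AdmP f b)).card : ℝ) ≤
      ∏ i, ((4 * CU) * ((h : ℝ) / (Real.log (k + 2) * gg k (ct (f i))))) := by
    calc (((Fintype.piFinset (fun i => Ioc (l i) (l i + h))).filter (fun b => AdmP f b)).card : ℝ)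
        ≤ ∑ s ∈ I, ((Fintype.piFinset (S s)).card : ℝ) := by
          exact_mod_cast (card_le_card hcov).trans card_biUnion_le
      _ ≤ ∑ _s ∈ I, ∏ i, (CU * ((h : ℝ) / (Real.log (k + 2) * gg k (ct (f i))))) := by
          refine sum_le_sum fun s _ => ?_
          rw [Fintype.card_piFinset]
          push_cast
          exact prod_le_prod (fun i _ => by positivity) fun i _ => hS s i
      _ = I.card * ∏ i, (CU * ((h : ℝ) / (Real.log (k + 2) * gg k (ct (f i))))) := by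
          rw [sum_const, nsmul_eq_mul]
      _ ≤ 4 ^ k * ∏ i, (CU * ((h : ℝ) / (Real.log (k + 2) * gg k (ct (f i))))) := by
          refine mul_le_mul_of_nonneg_right hI (prod_nonneg fun i _ => ?_)
          have := hg1 i
          positivity
      _ = _ := by
          have h6 : (4 : ℝ) ^ k = ∏ _i : Fin k, (4 : ℝ) := by rw [prod_const, card_univ, Fintype.card_fin]
          rw [h6, ← prod_mul_distrib]
          refine prod_congr rfl fun i _ => ?_
          ring
  have hmain := hgen2 k hk (fun i n => (f i).eval n) l (fun _ => h) (fun i => gg k (ct (f i))) y hy (fun _ => hh2) hg1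
    (fun i n _ m _ hnm hc => hnm ((eval_strictMono (hf i).1 (hf i).2.1).injective hc))
    (fun i n hn => by
      refine le_trans (Real.rpow_le_rpow (by positivity) ?_ hθ.le) (hθh i)
      have h6 := eval_mono (f i) (mem_Ioc.1 hn).2
      simp only at h6
      exact_mod_cast (by omega : (f i).eval n + l i + h ≤ (f i).eval (2 * y) + l i + h))
    hmom (fun b => AdmP f b)
    (fun n hn b _ hb => by
      rw [mem_Ioc] at hn
      exact adm_of_primes hf (by omega) (by omega) hb)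
    hup hyL
  refine le_trans ?_ hmain
  exact mul_le_mul_of_nonneg_left hup (by positivity)

end Pool.Agent.Q160.GP
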