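import Mathlib
import Pool.Agent.Q160.GP5

set_option autoImplicit false

/-!
# Systems of distinct polynomials
-/

namespace Pool.Agent.Q160.GP

open Finset Filter
open Pool.Agent.H373R2.T7
open Pool.Agent.H305R2 (VV VV_tendsto)
open Pool.Agent.Q160.GK

open Classical in
/-- systems with a repeated form are rare -/
theorem coincP (A d : ℕ) (hd : 1 ≤ d) (E : ℝ) (hE : 1 ≤ E) : ∃ C : ℝ, 1 ≤ C ∧ ∀ k : ℕ, ∀ f : Fin k → Polynomial ℕ, ∀ l h : Fin k → ℕ,
    (∀ i, PD d (f i)) → (∀ i, ct (f i) ≤ h i ^ A) → (∀ i, C * k ≤ Real.log (h i)) →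
    E ^ k * (((Fintype.piFinset (fun i => Ioc (l i) (l i + h i))).filter (fun b => AdmP f b ∧ ¬ DistP f b)).card : ℝ) ≤
      (((Fintype.piFinset (fun i => Ioc (l i) (l i + h i))).filter (fun b => AdmP f b)).card : ℝ) := by
  obtain ⟨CU, h1, hCU, hcover⟩ := admP_cover A
  obtain ⟨c, h2, hc, hlow⟩ := admP_lower A d hd
  obtain ⟨Cg, hCg, h3, hgg⟩ := gg_le A
  obtain ⟨B, hB⟩ : ∃ B : ℝ, B = max 1 (16 * E * (CU / c)) := ⟨_, rfl⟩
  have hB1 : 1 ≤ B := by rw [hB]; exact le_max_left _ _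
  have hB2 : 16 * E * (CU / c) ≤ B := by rw [hB]; exact le_max_right _ _
  obtain ⟨h4, hlarge⟩ : ∃ h4 : ℕ, ∀ h : ℕ, h4 ≤ h → (h : ℝ) ^ (1 / 2 : ℝ) * (Cg * Real.log h ^ 2) ≤ CU * h ∧ 3 ≤ h := by
    have h3 : (fun x : ℝ => Real.log x ^ 2) =o[atTop] (fun x : ℝ => x ^ (1 / 2 : ℝ)) := by
      have := isLittleO_log_rpow_rpow_atTop ((2 : ℕ) : ℝ) (show (0 : ℝ) < 1 / 2 by norm_num)
      simpa [Real.rpow_natCast] using this
    have h5 := (tendsto_natCast_atTop_atTop.eventually (h3.bound (show (0 : ℝ) < CU / Cg by positivity))).and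
      (eventually_ge_atTop 3)
    obtain ⟨h4, hh4⟩ := eventually_atTop.1 h5
    refine ⟨h4, fun h hh => ?_⟩
    obtain ⟨h6, h8⟩ := hh4 h hh
    have hh0 : (3 : ℝ) ≤ h := by exact_mod_cast h8
    refine ⟨?_, h8⟩
    rw [Real.norm_eq_abs, Real.norm_eq_abs, abs_of_nonneg (by positivity), abs_of_nonneg (by positivity)] at h6
    have h9 : (h : ℝ) ^ (1 / 2 : ℝ) * (h : ℝ) ^ (1 / 2 : ℝ) = h := by
      rw [← Real.rpow_add (by linarith)]
      norm_num
    calc (h : ℝ) ^ (1 / 2 : ℝ) * (Cg * Real.log h ^ 2)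
        ≤ (h : ℝ) ^ (1 / 2 : ℝ) * (Cg * (CU / Cg * (h : ℝ) ^ (1 / 2 : ℝ))) := by
          refine mul_le_mul_of_nonneg_left (mul_le_mul_of_nonneg_left h6 hCg.le) (by positivity)
      _ = CU * ((h : ℝ) ^ (1 / 2 : ℝ) * (h : ℝ) ^ (1 / 2 : ℝ)) := by field_simp
      _ = CU * h := by rw [h9]
  -- the constant
  obtain ⟨C, hC⟩ : ∃ C : ℝ, C = max 1 (2 * Real.log B) + Real.log (max (max h1 h2) (max h3 h4) + 1 : ℕ) + d := ⟨_, rfl⟩
  have hd0 : (0 : ℝ) ≤ d := Nat.cast_nonneg d
  have hN1 : 0 ≤ Real.log (max (max h1 h2) (max h3 h4) + 1 : ℕ) := Real.log_natCast_nonneg _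
  have hCa : 1 ≤ C := by
    rw [hC]
    have := le_max_left 1 (2 * Real.log B)
    linarith
  have hCb : 2 * Real.log B ≤ C := by
    rw [hC]
    have := le_max_right 1 (2 * Real.log B)
    linarith
  have hCc : Real.log (max (max h1 h2) (max h3 h4) + 1 : ℕ) ≤ C := by
    rw [hC]
    have := le_max_left 1 (2 * Real.log B)
    linarith
  have hCd : (d : ℝ) ≤ C := by
    rw [hC]
    have := le_max_left 1 (2 * Real.log B)
    linarith
  refine ⟨C, hCa, fun k f l h hf haA hkh => ?_⟩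
  rcases Nat.eq_zero_or_pos k with hk0 | hk
  · subst hk0
    have h5 : ∀ b : Fin 0 → ℕ, ¬ (AdmP f b ∧ ¬ DistP f b) := by
      intro b hb
      exact hb.2 (fun i => i.elim0)
    rw [filter_false_of_mem (fun b _ => h5 b), card_empty]
    simp
  have hkr : (1 : ℝ) ≤ k := by exact_mod_cast hk
  have hbig : ∀ i, max (max h1 h2) (max h3 h4) ≤ h i := by
    intro i
    have h5 : Real.log (max (max h1 h2) (max h3 h4) + 1 : ℕ) ≤ Real.log (h i) := by
      have := hkh i
      nlinarith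
    have h6 : (0 : ℝ) < h i := by
      by_contra hcon
      push Not at hcon
      have h7 : (h i : ℝ) = 0 := le_antisymm hcon (Nat.cast_nonneg _)
      have h8 := hkh i
      rw [h7, Real.log_zero] at h8
      nlinarith
    have h7 := (Real.log_le_log_iff (by positivity) h6).1 h5
    have h8 : max (max h1 h2) (max h3 h4) + 1 ≤ h i := by exact_mod_cast h7
    omega
  have hh1 : ∀ i, h1 ≤ h i := fun i => le_trans (le_trans (le_max_left _ _) (le_max_left _ _)) (hbig i)
  have hh2 : ∀ i, h2 ≤ h i := fun i => le_trans (le_trans (le_max_right _ _) (le_max_left _ _)) (hbig i)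
  have hh3 : ∀ i, h3 ≤ h i := fun i => le_trans (le_trans (le_max_left _ _) (le_max_right _ _)) (hbig i)
  have hh4 : ∀ i, h4 ≤ h i := fun i => le_trans (le_trans (le_max_right _ _) (le_max_right _ _)) (hbig i)
  have hkL : ∀ i, (k : ℝ) ≤ Real.log (h i) := fun i => by
    have := hkh i
    nlinarith
  have hkdL : ∀ i, ((k * d : ℕ) : ℝ) ≤ Real.log (h i) := fun i => by
    have := hkh i
    push_cast
    nlinarith
  obtain ⟨ι, I, S, hI, hS, hcov⟩ := hcover k f l h hh1 (fun i => (hf i).1) haA hkL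
  have hlw := hlow k f l h hh2 hf haA hkdL
  have hlk := log_two_add k
  obtain ⟨T, hT⟩ : ∃ T : Fin k → ℝ, T = fun i => CU * (h i / (Real.log (k + 2) * gg k (ct (f i)))) := ⟨_, rfl⟩
  have hhr : ∀ i, (3 : ℝ) ≤ h i := fun i => by exact_mod_cast (hlarge (h i) (hh4 i)).2
  have hT0 : ∀ i, 0 < T i := fun i => by
    rw [hT]
    have := one_le_gg k (ct (f i))
    have := hhr i
    positivity
  have hTbig : ∀ i, B ^ k ≤ T i := by
    intro i
    have h5 := hgg k (ct (f i)) (h i) (hh3 i) (ct_pos (hf i).1) (haA i) (hkL i)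
    have h6 := (hlarge (h i) (hh4 i)).1
    have h7 := one_le_gg k (ct (f i))
    have h8 : (h i : ℝ) ^ (1 / 2 : ℝ) ≤ T i := by
      rw [hT]
      simp only
      rw [← mul_div_assoc, le_div_iff₀ (by positivity)]
      refine le_trans (mul_le_mul_of_nonneg_left h5 (by positivity)) h6
    refine le_trans ?_ h8
    have h9 : B ^ k = Real.exp (k * Real.log B) := by
      rw [Real.exp_nat_mul, Real.exp_log (by linarith)]
    have h10 : (h i : ℝ) ^ (1 / 2 : ℝ) = Real.exp (Real.log (h i) * (1 / 2)) :=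
      Real.rpow_def_of_pos (by linarith [hhr i]) _
    rw [h9, h10]
    refine Real.exp_le_exp.2 ?_
    have h11 := hkh i
    have h12 : 2 * Real.log B * k ≤ C * k := mul_le_mul_of_nonneg_right hCb (by positivity)
    linarith
  -- the count of coincidences
  have hsub : (Fintype.piFinset (fun i => Ioc (l i) (l i + h i))).filter (fun b => AdmP f b ∧ ¬ DistP f b) ⊆
      I.biUnion (fun s => (univ : Finset (Fin k × Fin k)).biUnion (fun ij =>
        if ij.1 ≠ ij.2 then (Fintype.piFinset (S s)).filter (fun b => b ij.1 = b ij.2) else ∅)) := by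
    intro b hb
    rw [mem_filter] at hb
    obtain ⟨hb1, hb2, hb3⟩ := hb
    have h5 := hcov (mem_filter.2 ⟨hb1, hb2⟩)
    rw [mem_biUnion] at h5 ⊢
    obtain ⟨s, hs, hbs⟩ := h5
    refine ⟨s, hs, ?_⟩
    unfold DistP at hb3
    push Not at hb3
    obtain ⟨i, j, hij, -, hbij⟩ := hb3
    rw [mem_biUnion]
    refine ⟨(i, j), mem_univ _, ?_⟩
    simp only
    rw [if_pos hij, mem_filter]
    exact ⟨hbs, hbij⟩
  have hcount : (((Fintype.piFinset (fun i => Ioc (l i) (l i + h i))).filter (fun b => AdmP f b ∧ ¬ DistP f b)).card : ℝ) ≤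
      4 ^ k * ((k : ℝ) ^ 2 * ((∏ i, T i) / B ^ k)) := by
    have hterm : ∀ s ∈ I, ∀ ij : Fin k × Fin k,
        (((if ij.1 ≠ ij.2 then (Fintype.piFinset (S s)).filter (fun b => b ij.1 = b ij.2) else ∅ : Finset (Fin k → ℕ)).card : ℕ) : ℝ) ≤
        (∏ i, T i) / B ^ k := by
      intro s _ ij
      split_ifs with hij
      · have h5 := card_eq_pair (S s) ij.1 ij.2 hij
        have h6 : (((Fintype.piFinset (S s)).filter (fun b => b ij.1 = b ij.2)).card : ℝ) ≤
            ∏ l ∈ univ.erase ij.2, ((S s l).card : ℝ) := by exact_mod_cast h5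
        refine h6.trans ?_
        rw [le_div_iff₀ (by positivity)]
        calc (∏ l ∈ univ.erase ij.2, ((S s l).card : ℝ)) * B ^ k ≤ (∏ l ∈ univ.erase ij.2, T l) * T ij.2 := by
              refine mul_le_mul ?_ (hTbig _) (by positivity) (prod_nonneg fun i _ => (hT0 i).le)
              refine prod_le_prod (fun i _ => by positivity) fun i _ => ?_
              rw [hT]
              exact hS s i
          _ = ∏ i, T i := by rw [mul_comm, Finset.mul_prod_erase univ _ (mem_univ _)]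
      · rw [card_empty, Nat.cast_zero]
        exact div_nonneg (prod_nonneg fun i _ => (hT0 i).le) (by positivity)
    calc (((Fintype.piFinset (fun i => Ioc (l i) (l i + h i))).filter (fun b => AdmP f b ∧ ¬ DistP f b)).card : ℝ)
        ≤ ∑ s ∈ I, ∑ ij : Fin k × Fin k, (((if ij.1 ≠ ij.2 then (Fintype.piFinset (S s)).filter (fun b => b ij.1 = b ij.2) else ∅ : Finset (Fin k → ℕ)).card : ℕ) : ℝ) := by
          have h5 := (card_le_card hsub).trans (card_biUnion_le.trans (sum_le_sum fun s _ => card_biUnion_le))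
          exact_mod_cast h5
      _ ≤ ∑ s ∈ I, ∑ _ij : Fin k × Fin k, (∏ i, T i) / B ^ k :=
          sum_le_sum fun s hs => sum_le_sum fun ij _ => hterm s hs ij
      _ = (I.card : ℝ) * ((k : ℝ) ^ 2 * ((∏ i, T i) / B ^ k)) := by
          rw [sum_const, sum_const, nsmul_eq_mul, nsmul_eq_mul, card_univ, Fintype.card_prod, Fintype.card_fin]
          push_cast
          ring
      _ ≤ 4 ^ k * ((k : ℝ) ^ 2 * ((∏ i, T i) / B ^ k)) := by
          refine mul_le_mul_of_nonneg_right hI ?_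
          have := prod_nonneg (s := (univ : Finset (Fin k))) fun i _ => (hT0 i).le
          positivity
  have hk4 : (k : ℝ) ^ 2 ≤ 4 ^ k := by
    have h5 : k ≤ 2 ^ k := (Nat.lt_two_pow_self).le
    have h6 : (k : ℝ) ≤ 2 ^ k := by exact_mod_cast h5
    calc (k : ℝ) ^ 2 ≤ (2 ^ k) ^ 2 := pow_le_pow_left₀ (by positivity) h6 2
      _ = 4 ^ k := by rw [← pow_mul, mul_comm, pow_mul]; norm_num
  have hPT : 0 < ∏ i, T i := prod_pos fun i _ => hT0 i
  have hlw2 : (c / CU) ^ k * ∏ i, T i ≤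
      (((Fintype.piFinset (fun i => Ioc (l i) (l i + h i))).filter (fun b => AdmP f b)).card : ℝ) := by
    refine le_trans (le_of_eq ?_) hlw
    have h5 : (c / CU) ^ k = ∏ _i : Fin k, (c / CU) := by rw [prod_const, card_univ, Fintype.card_fin]
    rw [h5, ← prod_mul_distrib, hT]
    refine prod_congr rfl fun i _ => ?_
    field_simp
  refine le_trans ?_ hlw2
  calc E ^ k * (((Fintype.piFinset (fun i => Ioc (l i) (l i + h i))).filter (fun b => AdmP f b ∧ ¬ DistP f b)).card : ℝ)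
      ≤ E ^ k * (4 ^ k * (4 ^ k * ((∏ i, T i) / B ^ k))) := by
        refine mul_le_mul_of_nonneg_left (hcount.trans ?_) (by positivity)
        refine mul_le_mul_of_nonneg_left (mul_le_mul_of_nonneg_right hk4 (by positivity)) (by positivity)
    _ = (16 * E * (1 / B)) ^ k * ∏ i, T i := by
        rw [mul_pow, mul_pow, one_div, inv_pow]
        have : (16 : ℝ) ^ k = 4 ^ k * 4 ^ k := by rw [← mul_pow]; norm_num
        rw [this]
        ring
    _ ≤ (c / CU) ^ k * ∏ i, T i := by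
        refine mul_le_mul_of_nonneg_right (pow_le_pow_left₀ (by positivity) ?_ k) hPT.le
        rw [mul_one_div, div_le_div_iff₀ (by linarith) hCU]
        calc 16 * E * CU = c * (16 * E * (CU / c)) := by field_simp
          _ ≤ c * B := mul_le_mul_of_nonneg_left hB2 hc.le


open Classical in
/-- **The general theorem for systems of distinct polynomials.** -/
theorem genDP (d : ℕ) (hd : 1 ≤ d) : ∃ θ : ℝ, 0 < θ ∧ θ < 1 ∧ ∃ C : ℝ, 1 ≤ C ∧ ∀ k : ℕ, 1 ≤ k →
    ∀ f : Fin k → Polynomial ℕ, ∀ l : Fin k → ℕ, ∀ h y : ℕ, 1 ≤ y → C * k ≤ Real.log h →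
    (∀ i, PD d (f i)) → (∀ i, (((f i).eval (2 * y) + l i + h : ℕ) : ℝ) ^ θ ≤ h) →
    ∏ i, (C * (Real.log h / (Real.log (k + 2) * gg k (ct (f i))))) ≤ y →
    (C ^ k)⁻¹ * (((Fintype.piFinset (fun i => Ioc (l i) (l i + h))).filter (fun b => AdmP f b ∧ DistP f b)).card : ℝ) ≤
      ((((Fintype.piFinset (fun i => Ioc (l i) (l i + h))).filter (fun b => (AdmP f b ∧ DistP f b) ∧
        (y : ℝ) * ∏ i, (C * (Real.log h / (Real.log (k + 2) * gg k (ct (f i)))))⁻¹ ≤
          (((Ioc y (2 * y)).filter (fun n => ∀ i, ((f i).eval n + b i).Prime)).card : ℝ))).card : ℕ) : ℝ) := by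
  obtain ⟨θ, hθ, hθ1, Cg, hCg, h0, hgen⟩ := genA d hd
  obtain ⟨A, hA⟩ : ∃ A : ℕ, A = ⌈1 / θ⌉₊ := ⟨_, rfl⟩
  obtain ⟨Cc, hCc, hcoinc⟩ := coincP A d hd (2 * Cg) (by linarith)
  obtain ⟨C, hC⟩ : ∃ C : ℝ, C = max (max (2 * Cg) Cc) (max (Real.log (h0 + 3 : ℕ)) d) := ⟨_, rfl⟩
  have hC1 : 2 * Cg ≤ C := by rw [hC]; exact le_trans (le_max_left _ _) (le_max_left _ _)
  have hC2 : Cc ≤ C := by rw [hC]; exact le_trans (le_max_right _ _) (le_max_left _ _)
  have hC3 : Real.log (h0 + 3 : ℕ) ≤ C := by rw [hC]; exact le_trans (le_max_left _ _) (le_max_right _ _)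
  have hC4 : (d : ℝ) ≤ C := by rw [hC]; exact le_trans (le_max_right _ _) (le_max_right _ _)
  have hC0 : 1 ≤ C := by linarith
  have hCgC : Cg ≤ C := by linarith
  refine ⟨θ, hθ, hθ1, C, hC0, fun k hk f l h y hy hkh hf hθh hyL => ?_⟩
  have hkr : (1 : ℝ) ≤ k := by exact_mod_cast hk
  have hhpos : (0 : ℝ) < h := by
    by_contra hcon
    push Not at hcon
    have h7 : (h : ℝ) = 0 := le_antisymm hcon (Nat.cast_nonneg _)
    rw [h7, Real.log_zero] at hkh
    nlinarith
  have hh3 : h0 + 3 ≤ h := by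
    have h5 : Real.log (h0 + 3 : ℕ) ≤ Real.log h := by nlinarith
    have h7 := (Real.log_le_log_iff (by positivity) hhpos).1 h5
    exact_mod_cast h7
  have hhr : (3 : ℝ) ≤ h := by exact_mod_cast (by omega : 3 ≤ h)
  have hL : 0 < Real.log h := Real.log_pos (by linarith)
  have hlk := log_two_add k
  have hkdL : ((k * d : ℕ) : ℝ) ≤ Real.log h := by
    push_cast
    nlinarith
  have hctA : ∀ i, ct (f i) ≤ h ^ A := by
    intro i
    have h6 := (hf i).le_eval (2 * y)
    have h7 : ct (f i) * 1 ≤ ct (f i) * (2 * y) := Nat.mul_le_mul_left _ (by omega)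
    have h8 : (ct (f i) : ℝ) ≤ (((f i).eval (2 * y) + l i + h : ℕ) : ℝ) := by
      exact_mod_cast (by omega : ct (f i) ≤ (f i).eval (2 * y) + l i + h)
    have h9 : (ct (f i) : ℝ) ^ θ ≤ h := (Real.rpow_le_rpow (by positivity) h8 hθ.le).trans (hθh i)
    have h10 : (ct (f i) : ℝ) ≤ (h : ℝ) ^ A := by
      calc (ct (f i) : ℝ) = ((ct (f i) : ℝ) ^ θ) ^ (1 / θ) := by
            rw [← Real.rpow_mul (by positivity), mul_one_div_cancel hθ.ne', Real.rpow_one]
        _ ≤ (h : ℝ) ^ (1 / θ) := Real.rpow_le_rpow (by positivity) h9 (by positivity)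
        _ ≤ (h : ℝ) ^ ((A : ℕ) : ℝ) := by
            rw [hA]
            exact Real.rpow_le_rpow_of_exponent_le (by linarith) (Nat.le_ceil _)
        _ = (h : ℝ) ^ A := Real.rpow_natCast _ _
    exact_mod_cast h10
  have hW0 : ∀ i, 0 < Real.log h / (Real.log (k + 2) * gg k (ct (f i))) := fun i => by
    have := one_le_gg k (ct (f i))
    positivity
  have hprodle : ∏ i, (Cg * (Real.log h / (Real.log (k + 2) * gg k (ct (f i))))) ≤
      ∏ i, (C * (Real.log h / (Real.log (k + 2) * gg k (ct (f i))))) := by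
    refine prod_le_prod (fun i _ => ?_) fun i _ => mul_le_mul_of_nonneg_right hCgC (hW0 i).le
    have := hW0 i
    positivity
  have h5 := hgen k hk f l h y hy (by omega) hkdL hf hθh (hprodle.trans hyL)
  have h6 := hcoinc k f l (fun _ => h) hf hctA (fun i => le_trans (mul_le_mul_of_nonneg_right hC2 (by positivity)) hkh)
  -- splitting
  obtain ⟨NA, hNA⟩ : ∃ NA : ℝ, NA = (((Fintype.piFinset (fun i => Ioc (l i) (l i + h))).filter (fun b => AdmP f b)).card : ℝ) := ⟨_, rfl⟩
  obtain ⟨NC, hNC⟩ : ∃ NC : ℝ, NC = (((Fintype.piFinset (fun i => Ioc (l i) (l i + h))).filter (fun b => AdmP f b ∧ ¬ DistP f b)).card : ℝ) := ⟨_, rfl⟩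
  rw [← hNA, ← hNC] at h6
  rw [← hNA] at h5
  have hNAD : (((Fintype.piFinset (fun i => Ioc (l i) (l i + h))).filter (fun b => AdmP f b ∧ DistP f b)).card : ℝ) ≤ NA := by
    rw [hNA]
    have : (Fintype.piFinset (fun i => Ioc (l i) (l i + h))).filter (fun b => AdmP f b ∧ DistP f b) ⊆
        (Fintype.piFinset (fun i => Ioc (l i) (l i + h))).filter (fun b => AdmP f b) := by
      intro b hb
      rw [mem_filter] at hb ⊢
      exact ⟨hb.1, hb.2.1⟩
    exact_mod_cast card_le_card this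
  have hsplit : ((((Fintype.piFinset (fun i => Ioc (l i) (l i + h))).filter (fun b => AdmP f b ∧
        (y : ℝ) * ∏ i, (Cg * (Real.log h / (Real.log (k + 2) * gg k (ct (f i)))))⁻¹ ≤
          (((Ioc y (2 * y)).filter (fun n => ∀ i, ((f i).eval n + b i).Prime)).card : ℝ))).card : ℕ) : ℝ) ≤
      ((((Fintype.piFinset (fun i => Ioc (l i) (l i + h))).filter (fun b => (AdmP f b ∧ DistP f b) ∧
        (y : ℝ) * ∏ i, (C * (Real.log h / (Real.log (k + 2) * gg k (ct (f i)))))⁻¹ ≤
          (((Ioc y (2 * y)).filter (fun n => ∀ i, ((f i).eval n + b i).Prime)).card : ℝ))).card : ℕ) : ℝ) + NC := by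
    rw [hNC]
    have : (Fintype.piFinset (fun i => Ioc (l i) (l i + h))).filter (fun b => AdmP f b ∧
        (y : ℝ) * ∏ i, (Cg * (Real.log h / (Real.log (k + 2) * gg k (ct (f i)))))⁻¹ ≤
          (((Ioc y (2 * y)).filter (fun n => ∀ i, ((f i).eval n + b i).Prime)).card : ℝ)) ⊆
        (Fintype.piFinset (fun i => Ioc (l i) (l i + h))).filter (fun b => (AdmP f b ∧ DistP f b) ∧
        (y : ℝ) * ∏ i, (C * (Real.log h / (Real.log (k + 2) * gg k (ct (f i)))))⁻¹ ≤
          (((Ioc y (2 * y)).filter (fun n => ∀ i, ((f i).eval n + b i).Prime)).card : ℝ)) ∪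
        (Fintype.piFinset (fun i => Ioc (l i) (l i + h))).filter (fun b => AdmP f b ∧ ¬ DistP f b) := by
      intro b hb
      rw [mem_filter] at hb
      rw [mem_union, mem_filter, mem_filter]
      obtain ⟨hb1, hb2, hb3⟩ := hb
      by_cases hd : DistP f b
      · refine Or.inl ⟨hb1, ⟨hb2, hd⟩, le_trans ?_ hb3⟩
        refine mul_le_mul_of_nonneg_left ?_ (by positivity)
        refine prod_le_prod (fun i _ => ?_) fun i _ => ?_
        · have := hW0 i
          positivity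
        · have := hW0 i
          exact inv_anti₀ (by positivity) (mul_le_mul_of_nonneg_right hCgC this.le)
      · exact Or.inr ⟨hb1, hb2, hd⟩
    exact_mod_cast (card_le_card this).trans (card_union_le _ _)
  have hCgk : 0 < Cg ^ k := by positivity
  have h7 : NC ≤ (Cg ^ k)⁻¹ * NA / 2 := by
    have h8 : (2 : ℝ) ≤ 2 ^ k := by
      calc (2 : ℝ) = 2 ^ 1 := (pow_one _).symm
        _ ≤ 2 ^ k := pow_le_pow_right₀ (by norm_num) hk
    have hNC0 : 0 ≤ NC := by rw [hNC]; positivity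
    rw [mul_pow] at h6
    rw [inv_mul_eq_div, le_div_iff₀ (by norm_num), le_div_iff₀ hCgk]
    calc NC * 2 * Cg ^ k = 2 * (Cg ^ k * NC) := by ring
      _ ≤ 2 ^ k * (Cg ^ k * NC) := mul_le_mul_of_nonneg_right h8 (by positivity)
      _ ≤ NA := by linarith
  have h8 : (C ^ k)⁻¹ * NA ≤ (Cg ^ k)⁻¹ * NA / 2 := by
    have hNA0 : 0 ≤ NA := by rw [hNA]; positivity
    have h9 : 2 * Cg ^ k ≤ C ^ k := by
      calc 2 * Cg ^ k ≤ 2 ^ k * Cg ^ k := by
            refine mul_le_mul_of_nonneg_right ?_ hCgk.le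
            calc (2 : ℝ) = 2 ^ 1 := (pow_one _).symm
              _ ≤ 2 ^ k := pow_le_pow_right₀ (by norm_num) hk
        _ = (2 * Cg) ^ k := by rw [mul_pow]
        _ ≤ C ^ k := pow_le_pow_left₀ (by positivity) hC1 k
    have h10 : (C ^ k)⁻¹ ≤ (2 * Cg ^ k)⁻¹ := inv_anti₀ (by positivity) h9
    calc (C ^ k)⁻¹ * NA ≤ (2 * Cg ^ k)⁻¹ * NA := mul_le_mul_of_nonneg_right h10 hNA0
      _ = (Cg ^ k)⁻¹ * NA / 2 := by rw [mul_inv]; ring
  have h9 : (C ^ k)⁻¹ * (((Fintype.piFinset (fun i => Ioc (l i) (l i + h))).filter (fun b => AdmP f b ∧ DistP f b)).card : ℝ) ≤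
      (C ^ k)⁻¹ * NA := mul_le_mul_of_nonneg_left hNAD (by positivity)
  linarith

open Classical in
/-- **Upper bound, systems of distinct polynomials, arbitrary sets of arguments.** -/
theorem genDP_up (A d : ℕ) (hd : 1 ≤ d) : ∃ C : ℝ, 1 ≤ C ∧ ∀ k : ℕ, 1 ≤ k → ∀ f : Fin k → Polynomial ℕ, ∀ l : Fin k → ℕ,
    ∀ h : ℕ, ∀ Om : Finset ℕ, ∀ t : ℝ, 0 < t → (∀ i, PD d (f i)) → (∀ i, ct (f i) ≤ h ^ A) → C * k ≤ Real.log h →
    ((((Fintype.piFinset (fun i => Ioc (l i) (l i + h))).filter (fun b =>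
        t ≤ ((Om.filter (fun n => ∀ i, ((f i).eval n + b i).Prime)).card : ℝ))).card : ℕ) : ℝ) ≤
    Om.card / t * (∏ i, (C * ((Real.log (k + 2) * gg k (ct (f i))) / Real.log h))) *
      (((Fintype.piFinset (fun i => Ioc (l i) (l i + h))).filter (fun b => AdmP f b ∧ DistP f b)).card : ℝ) := by
  obtain ⟨c, h1, hc, hadm⟩ := admP_lower A d hd
  obtain ⟨Cc, hCc, hcoinc⟩ := coincP A d hd 2 (by norm_num)
  obtain ⟨C, hC⟩ : ∃ C : ℝ, C = max (max (40 / c) Cc) (max (Real.log (h1 + 3 : ℕ)) d) := ⟨_, rfl⟩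
  have hC1 : 40 / c ≤ C := by rw [hC]; exact le_trans (le_max_left _ _) (le_max_left _ _)
  have hC2 : Cc ≤ C := by rw [hC]; exact le_trans (le_max_right _ _) (le_max_left _ _)
  have hC3 : Real.log (h1 + 3 : ℕ) ≤ C := by rw [hC]; exact le_trans (le_max_left _ _) (le_max_right _ _)
  have hC4 : (d : ℝ) ≤ C := by rw [hC]; exact le_trans (le_max_right _ _) (le_max_right _ _)
  have hC0 : 1 ≤ C := by linarith
  refine ⟨C, hC0, fun k hk f l h Om t ht hf haA hkh => ?_⟩
  have hkr : (1 : ℝ) ≤ k := by exact_mod_cast hk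
  have hhpos : (0 : ℝ) < h := by
    by_contra hcon
    push Not at hcon
    have h7 : (h : ℝ) = 0 := le_antisymm hcon (Nat.cast_nonneg _)
    rw [h7, Real.log_zero] at hkh
    nlinarith
  have hh3 : h1 + 3 ≤ h := by
    have h5 : Real.log (h1 + 3 : ℕ) ≤ Real.log h := by nlinarith
    have h7 := (Real.log_le_log_iff (by positivity) hhpos).1 h5
    exact_mod_cast h7
  have hhr : (3 : ℝ) ≤ h := by exact_mod_cast (by omega : 3 ≤ h)
  have hL : 0 < Real.log h := Real.log_pos (by linarith)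
  have hlk := log_two_add k
  have hkdL : ∀ _i : Fin k, ((k * d : ℕ) : ℝ) ≤ Real.log h := fun _ => by
    push_cast
    nlinarith
  have h4 : t * ((((Fintype.piFinset (fun i => Ioc (l i) (l i + h))).filter (fun b =>
        t ≤ ((Om.filter (fun n => ∀ i, ((f i).eval n + b i).Prime)).card : ℝ))).card : ℕ) : ℝ) ≤
      Om.card * ∏ _i : Fin k, (20 * ((h : ℝ) / Real.log h)) := by
    obtain ⟨X, hX⟩ : ∃ X, X = Fintype.piFinset (fun i => Ioc (l i) (l i + h)) := ⟨_, rfl⟩
    rw [← hX]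
    calc t * (((X.filter (fun b => t ≤ ((Om.filter (fun n => ∀ i, ((f i).eval n + b i).Prime)).card : ℝ))).card : ℕ) : ℝ)
        = ∑ _b ∈ X.filter (fun b => t ≤ ((Om.filter (fun n => ∀ i, ((f i).eval n + b i).Prime)).card : ℝ)), t := by
          rw [sum_const, nsmul_eq_mul, mul_comm]
      _ ≤ ∑ b ∈ X.filter (fun b => t ≤ ((Om.filter (fun n => ∀ i, ((f i).eval n + b i).Prime)).card : ℝ)),
            ((Om.filter (fun n => ∀ i, ((f i).eval n + b i).Prime)).card : ℝ) :=
          sum_le_sum fun b hb => (mem_filter.1 hb).2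
      _ ≤ ∑ b ∈ X, ((Om.filter (fun n => ∀ i, ((f i).eval n + b i).Prime)).card : ℝ) :=
          sum_le_sum_of_subset_of_nonneg (filter_subset _ _) fun _ _ _ => Nat.cast_nonneg _
      _ = ∑ n ∈ Om, ((X.filter (fun b => ∀ i, ((f i).eval n + b i).Prime)).card : ℝ) := by
          have e1 : ∀ b : Fin k → ℕ, ((Om.filter (fun n => ∀ i, ((f i).eval n + b i).Prime)).card : ℝ) =
              ∑ n ∈ Om, (if ∀ i, ((f i).eval n + b i).Prime then (1 : ℝ) else 0) := by
            intro b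
            rw [card_filter]
            push_cast
            rfl
          have e2 : ∀ n : ℕ, ((X.filter (fun b => ∀ i, ((f i).eval n + b i).Prime)).card : ℝ) =
              ∑ b ∈ X, (if ∀ i, ((f i).eval n + b i).Prime then (1 : ℝ) else 0) := by
            intro n
            rw [card_filter]
            push_cast
            rfl
          rw [sum_congr rfl fun b _ => e1 b, sum_congr rfl fun n _ => e2 n, sum_comm]
      _ ≤ ∑ n ∈ Om, ((Fintype.piFinset (fun i => (Ioc (l i) (l i + h)).filter (fun b => ((f i).eval n + b).Prime))).card : ℝ) := by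
          refine sum_le_sum fun n _ => ?_
          have : X.filter (fun b => ∀ i, ((f i).eval n + b i).Prime) ⊆
              Fintype.piFinset (fun i => (Ioc (l i) (l i + h)).filter (fun b => ((f i).eval n + b).Prime)) := by
            intro b hb
            rw [hX, mem_filter, Fintype.mem_piFinset] at hb
            rw [Fintype.mem_piFinset]
            exact fun i => mem_filter.2 ⟨hb.1 i, hb.2 i⟩
          exact_mod_cast card_le_card this
      _ ≤ ∑ _n ∈ Om, ∏ _i : Fin k, (20 * ((h : ℝ) / Real.log h)) := by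
          refine sum_le_sum fun n _ => ?_
          rw [Fintype.card_piFinset]
          push_cast
          refine prod_le_prod (fun i _ => by positivity) fun i _ => ?_
          rw [count_shift]
          exact Pool.Agent.Q160.TB.bt_int (by omega)
      _ = _ := by rw [sum_const, nsmul_eq_mul]
  -- the number of admissible systems of distinct polynomials
  obtain ⟨NA, hNA⟩ : ∃ NA : ℝ, NA = (((Fintype.piFinset (fun i => Ioc (l i) (l i + h))).filter (fun b => AdmP f b)).card : ℝ) := ⟨_, rfl⟩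
  obtain ⟨ND, hND⟩ : ∃ ND : ℝ, ND = (((Fintype.piFinset (fun i => Ioc (l i) (l i + h))).filter (fun b => AdmP f b ∧ DistP f b)).card : ℝ) := ⟨_, rfl⟩
  obtain ⟨NC, hNC⟩ : ∃ NC : ℝ, NC = (((Fintype.piFinset (fun i => Ioc (l i) (l i + h))).filter (fun b => AdmP f b ∧ ¬ DistP f b)).card : ℝ) := ⟨_, rfl⟩
  have h5 := hadm k f l (fun _ => h) (fun _ => by omega) hf haA hkdL
  have h6 := hcoinc k f l (fun _ => h) hf haA (fun i => le_trans (mul_le_mul_of_nonneg_right hC2 (by positivity)) hkh)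
  rw [← hNA, ← hNC] at h6
  rw [← hNA] at h5
  rw [← hND]
  have hsum : NA = ND + NC := by
    rw [hNA, hND, hNC]
    have := Finset.card_filter_add_card_filter_not (s := (Fintype.piFinset (fun i => Ioc (l i) (l i + h))).filter (fun b => AdmP f b))
      (fun b => DistP f b)
    rw [filter_filter, filter_filter] at this
    exact_mod_cast this.symm
  have hNA2 : NA ≤ 2 * ND := by
    have hNC0 : 0 ≤ NC := by rw [hNC]; positivity
    have h7 : 2 * NC ≤ 2 ^ k * NC := by
      refine mul_le_mul_of_nonneg_right ?_ hNC0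
      calc (2 : ℝ) = 2 ^ 1 := (pow_one _).symm
        _ ≤ 2 ^ k := pow_le_pow_right₀ (by norm_num) hk
    linarith
  have h7 : ∏ _i : Fin k, (20 * ((h : ℝ) / Real.log h)) ≤
      (∏ i, (C * ((Real.log (k + 2) * gg k (ct (f i))) / Real.log h))) * ND := by
    have h8 : ∏ _i : Fin k, (20 * ((h : ℝ) / Real.log h)) ≤
        (∏ i, ((C / 2) * ((Real.log (k + 2) * gg k (ct (f i))) / Real.log h))) *
        ∏ i, (c * ((h : ℝ) / (Real.log (k + 2) * gg k (ct (f i))))) := by
      rw [← prod_mul_distrib]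
      refine prod_le_prod (fun i _ => by positivity) fun i _ => ?_
      have h8 := one_le_gg k (ct (f i))
      have h9 : C / 2 * ((Real.log (k + 2) * gg k (ct (f i))) / Real.log h) * (c * ((h : ℝ) / (Real.log (k + 2) * gg k (ct (f i))))) =
        (C * c / 2) * ((h : ℝ) / Real.log h) := by field_simp
      rw [h9]
      refine mul_le_mul_of_nonneg_right ?_ (by positivity)
      rw [div_le_iff₀ hc] at hC1
      linarith
    have h9 : ∏ i, ((C / 2) * ((Real.log (k + 2) * gg k (ct (f i))) / Real.log h)) =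
        (1 / 2) ^ k * ∏ i, (C * ((Real.log (k + 2) * gg k (ct (f i))) / Real.log h)) := by
      have : ((1 : ℝ) / 2) ^ k = ∏ _i : Fin k, ((1 : ℝ) / 2) := by rw [prod_const, card_univ, Fintype.card_fin]
      rw [this, ← prod_mul_distrib]
      refine prod_congr rfl fun i _ => ?_
      ring
    have h10 : 0 ≤ ∏ i, (C * ((Real.log (k + 2) * gg k (ct (f i))) / Real.log h)) := prod_nonneg fun i _ => by
      have h8 := one_le_gg k (ct (f i))
      positivity
    have h11 : ((1 : ℝ) / 2) ^ k ≤ 1 / 2 := by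
      calc ((1 : ℝ) / 2) ^ k ≤ (1 / 2) ^ 1 := pow_le_pow_of_le_one (by norm_num) (by norm_num) hk
        _ = 1 / 2 := pow_one _
    have hNA0 : 0 ≤ NA := by rw [hNA]; positivity
    rw [h9] at h8
    calc ∏ _i : Fin k, (20 * ((h : ℝ) / Real.log h)) ≤ ((1 / 2) ^ k * ∏ i, (C * ((Real.log (k + 2) * gg k (ct (f i))) / Real.log h))) *
          ∏ i, (c * ((h : ℝ) / (Real.log (k + 2) * gg k (ct (f i))))) := h8
      _ ≤ ((1 / 2) ^ k * ∏ i, (C * ((Real.log (k + 2) * gg k (ct (f i))) / Real.log h))) * NA :=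
          mul_le_mul_of_nonneg_left h5 (by positivity)
      _ ≤ ((1 / 2) * ∏ i, (C * ((Real.log (k + 2) * gg k (ct (f i))) / Real.log h))) * (2 * ND) :=
          mul_le_mul (mul_le_mul_of_nonneg_right h11 h10) hNA2 hNA0 (by positivity)
      _ = _ := by ring
  have h8 := h4.trans (mul_le_mul_of_nonneg_left h7 (Nat.cast_nonneg Om.card))
  rw [mul_comm, ← le_div_iff₀ ht] at h8
  refine h8.trans (le_of_eq ?_)
  ring

end Pool.Agent.Q160.GP
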