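import Mathlib
import Pool.Agent.Q160.GP1

set_option autoImplicit false

/-!
# The second moment theorem for growing systems, completely abstract form
-/

namespace Pool.Agent.Q160.GQ

open Finset Filter
open Pool.Agent.H373R2.T7
open Pool.Agent.H305R2 (VV VV_tendsto)
open Pool.Agent.Q160.GK
open Pool.Agent.Q160.GP (prod_le_mean)

open Classical in
/-- **The abstract theorem.**  `T` is the set of arguments, `P i n` the set of the `b i` which are good for the
argument `n`, `h i / L i` the order of magnitude of its cardinality, `γ i n m` the sieve factor of the pair `n, m`,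
`g i` its mean, `q` the loss in the number of admissible vectors. -/
theorem gen0 (η CU CP CA M : ℝ) (hη : 0 < η) (hCU : 0 < CU) (hCP : 0 < CP) (hCA : 0 < CA) (hM : 0 ≤ M) :
    ∃ C : ℝ, 1 ≤ C ∧ ∀ k : ℕ, 1 ≤ k → ∀ (B : Fin k → Finset ℕ) (T : Finset ℕ) (P : Fin k → ℕ → Finset ℕ)
    (h L g : Fin k → ℝ) (q : ℝ) (γ : Fin k → ℕ → ℕ → ℝ), T.Nonempty →
    (∀ i, 0 < h i) → (∀ i, 0 < L i) → (∀ i, 1 ≤ g i) → 0 < q → (∀ i n m, 0 ≤ γ i n m) →
    (∀ n ∈ T, ∀ i, P i n ⊆ B i) →
    (∀ n ∈ T, ∀ i, η * (h i / L i) ≤ ((P i n).card : ℝ)) →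
    (∀ n ∈ T, ∀ i, ((P i n).card : ℝ) ≤ CU * (h i / L i)) →
    (∀ n ∈ T, ∀ m ∈ T, n ≠ m → ∀ i, ((P i n ∩ P i m).card : ℝ) ≤ CP * (h i / L i ^ 2) * q * γ i n m) →
    (∀ i, ∀ n ∈ T, ∑ m ∈ T.erase n, γ i n m ^ k ≤ M * T.card * g i ^ k) →
    ∀ G : (Fin k → ℕ) → Prop,
    (∀ n ∈ T, ∀ b : Fin k → ℕ, (∀ i, b i ∈ P i n) → G b) →
    (((Fintype.piFinset B).filter G).card : ℝ) ≤ ∏ i, (CA * (h i / (q * g i))) →
    ∏ i, (C * (L i / (q * g i))) ≤ T.card →
    (C ^ k)⁻¹ * ∏ i, (CA * (h i / (q * g i))) ≤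
      ((((Fintype.piFinset B).filter (fun b => G b ∧
        (T.card : ℝ) * ∏ i, (C * (L i / (q * g i)))⁻¹ ≤
          ((T.filter (fun n => ∀ i, b i ∈ P i n)).card : ℝ))).card : ℕ) : ℝ) := by
  obtain ⟨D, hD⟩ : ∃ D : ℝ, D = 4 * (M + 1) := ⟨_, rfl⟩
  have hD1 : 1 ≤ D := by
    rw [hD]
    linarith
  obtain ⟨C, hC⟩ : ∃ C : ℝ, C = max (max 1 (2 * CA / η)) (max (CU / CP) (CP * D * CA / η ^ 2)) := ⟨_, rfl⟩
  have hCa : 1 ≤ C := by rw [hC]; exact le_trans (le_max_left _ _) (le_max_left _ _)
  have hCb : 2 * CA / η ≤ C := by rw [hC]; exact le_trans (le_max_right _ _) (le_max_left _ _)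
  have hCd : CU / CP ≤ C := by rw [hC]; exact le_trans (le_max_left _ _) (le_max_right _ _)
  have hCc : CP * D * CA / η ^ 2 ≤ C := by rw [hC]; exact le_trans (le_max_right _ _) (le_max_right _ _)
  have hCpos : 0 < C := by linarith
  refine ⟨C, hCa, fun k hk B T P h L g q γ hTne hh hL hg hq hγ hPB hPlow hPup hPP hmom G hG hadm' hyL => ?_⟩
  have hy0 : (0 : ℝ) < T.card := by exact_mod_cast hTne.card_pos
  have hg0 : ∀ i, 0 < g i := fun i => by linarith [hg i]
  obtain ⟨F, hF⟩ : ∃ F : ℝ, F = ∏ i, (CP * (h i / L i ^ 2) * q * g i) := ⟨_, rfl⟩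
  have hA0 : ∀ i, 0 < CP * (h i / L i ^ 2) * q := fun i => by
    have := hL i
    have := hh i
    positivity
  have hFi : ∀ i, 0 < CP * (h i / L i ^ 2) * q * g i := fun i => by
    have := hA0 i
    have := hg0 i
    positivity
  have hF0 : 0 < F := by rw [hF]; exact prod_pos fun i _ => hFi i
  have hkr : (0 : ℝ) < k := by exact_mod_cast hk
  have hoff : ∀ n ∈ T, ∑ m ∈ T.erase n, ∏ i, ((P i n ∩ P i m).card : ℝ) ≤ F * (M * T.card) := by
    intro n hn
    calc ∑ m ∈ T.erase n, ∏ i, ((P i n ∩ P i m).card : ℝ)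
        ≤ ∑ m ∈ T.erase n, F * ((1 / k : ℝ) * ∑ i, (γ i n m / g i) ^ k) := by
          refine sum_le_sum fun m hm => ?_
          have hm2 := mem_of_mem_erase hm
          have hnm := (ne_of_mem_erase hm).symm
          calc ∏ i, ((P i n ∩ P i m).card : ℝ)
              ≤ ∏ i, (CP * (h i / L i ^ 2) * q * g i * (γ i n m / g i)) := by
                refine prod_le_prod (fun i _ => by positivity) fun i _ => ?_
                refine (hPP n hn m hm2 hnm i).trans (le_of_eq ?_)
                have := hg0 i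
                field_simp
            _ = F * ∏ i, (γ i n m / g i) := by rw [prod_mul_distrib, hF]
            _ ≤ F * ((1 / k : ℝ) * ∑ i, (γ i n m / g i) ^ k) := by
                refine mul_le_mul_of_nonneg_left (prod_le_mean hk _ fun i => ?_) hF0.le
                exact div_nonneg (hγ i n m) (hg0 i).le
      _ = F * ((1 / k : ℝ) * ∑ i, (∑ m ∈ T.erase n, γ i n m ^ k) / g i ^ k) := by
          rw [← mul_sum, ← mul_sum, sum_comm]
          congr 2
          refine sum_congr rfl fun i _ => ?_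
          rw [sum_div]
          refine sum_congr rfl fun m _ => ?_
          rw [div_pow]
      _ ≤ F * ((1 / k : ℝ) * ∑ _i : Fin k, M * T.card) := by
          refine mul_le_mul_of_nonneg_left (mul_le_mul_of_nonneg_left (sum_le_sum fun i _ => ?_) (by positivity)) hF0.le
          have := hg0 i
          rw [div_le_iff₀ (by positivity)]
          exact hmom i n hn
      _ = F * (M * T.card) := by
          rw [sum_const, card_univ, Fintype.card_fin, nsmul_eq_mul]
          field_simp
  have hdiag : ∀ n ∈ T, ∏ i, ((P i n ∩ P i n).card : ℝ) ≤ T.card * F := by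
    intro n hn
    calc ∏ i, ((P i n ∩ P i n).card : ℝ) ≤ ∏ i, (CU * (h i / L i)) := by
          refine prod_le_prod (fun i _ => by positivity) fun i _ => ?_
          rw [inter_self]
          exact hPup n hn i
      _ ≤ ∏ i, ((C * (L i / (q * g i))) * (CP * (h i / L i ^ 2) * q * g i)) := by
          refine prod_le_prod (fun i _ => by have := hL i; have := hh i; positivity) fun i _ => ?_
          have h4 := hL i
          have h5 := hh i
          have h6 := hg0 i
          have h7 : (C * (L i / (q * g i))) * (CP * (h i / L i ^ 2) * q * g i) = (C * CP) * (h i / L i) := by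
            field_simp
          rw [h7]
          refine mul_le_mul_of_nonneg_right ?_ (by positivity)
          rwa [div_le_iff₀ hCP] at hCd
      _ = (∏ i, (C * (L i / (q * g i)))) * F := by
          rw [prod_mul_distrib, hF]
      _ ≤ T.card * F := mul_le_mul_of_nonneg_right hyL hF0.le
  have hX2 : ∑ n ∈ T, ∑ m ∈ T, ∏ i, ((P i n ∩ P i m).card : ℝ) ≤
      (M + 1) * ((T.card : ℝ) ^ 2 * F) := by
    have h3 : ∀ n ∈ T, ∑ m ∈ T, ∏ i, ((P i n ∩ P i m).card : ℝ) ≤ (M + 1) * (T.card * F) := by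
      intro n hn
      rw [← Finset.add_sum_erase _ _ hn]
      calc _ ≤ T.card * F + F * (M * T.card) := add_le_add (hdiag n hn) (hoff n hn)
        _ = _ := by ring
    calc _ ≤ ∑ n ∈ T, (M + 1) * (T.card * F) := sum_le_sum h3
      _ = _ := by
          rw [sum_const, nsmul_eq_mul]
          ring
  obtain ⟨X1, hX1⟩ : ∃ X1 : ℝ, X1 = T.card * ∏ i, (η * (h i / L i)) := ⟨_, rfl⟩
  have hηi : ∀ i, 0 < η * (h i / L i) := fun i => by
    have := hL i
    have := hh i
    positivity
  have hX10 : 0 < X1 := by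
    rw [hX1]
    exact mul_pos hy0 (prod_pos fun i _ => hηi i)
  have hfirst : X1 ≤ ∑ n ∈ T, ∏ i, ((P i n).card : ℝ) := by
    calc X1 = ∑ n ∈ T, ∏ i, (η * (h i / L i)) := by
          rw [sum_const, nsmul_eq_mul, hX1]
      _ ≤ _ := sum_le_sum fun n hn => prod_le_prod (fun i _ => (hηi i).le) fun i _ => hPlow n hn i
  obtain ⟨S, hS⟩ : ∃ S : ℝ, S = ∏ i, (CA * (h i / (q * g i))) := ⟨_, rfl⟩
  have hSi : ∀ i, 0 < CA * (h i / (q * g i)) := fun i => by
    have := hg0 i
    have := hh i
    positivity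
  have hS0 : 0 < S := by rw [hS]; exact prod_pos fun i _ => hSi i
  rw [← hS] at hadm' ⊢
  have hsm := second_moment B T P hPB G (fun n hn b hb => hG n hn b hb) X1 _ S hfirst hX2 hadm' hS0 hX10.le
  -- the set in the conclusion
  obtain ⟨V, hV⟩ : ∃ V : ℕ, V = ((Fintype.piFinset B).filter (fun b => G b ∧
        (T.card : ℝ) * ∏ i, (C * (L i / (q * g i)))⁻¹ ≤
          ((T.filter (fun n => ∀ i, b i ∈ P i n)).card : ℝ))).card := ⟨_, rfl⟩
  rw [← hV]
  have hVV2 : (((Fintype.piFinset B).filter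
      (fun b => G b ∧ X1 / (2 * S) ≤ ((T.filter (fun n => ∀ i, b i ∈ P i n)).card : ℝ))).card : ℝ) ≤ V := by
    rw [hV]
    have : (Fintype.piFinset B).filter
      (fun b => G b ∧ X1 / (2 * S) ≤ ((T.filter (fun n => ∀ i, b i ∈ P i n)).card : ℝ)) ⊆
      (Fintype.piFinset B).filter (fun b => G b ∧
        (T.card : ℝ) * ∏ i, (C * (L i / (q * g i)))⁻¹ ≤
          ((T.filter (fun n => ∀ i, b i ∈ P i n)).card : ℝ)) := by
      intro b hb
      rw [mem_filter] at hb ⊢
      refine ⟨hb.1, hb.2.1, ?_⟩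
      refine le_trans ?_ hb.2.2
      rw [hX1, le_div_iff₀ (by positivity)]
      have h3 : (∏ i, (C * (L i / (q * g i)))⁻¹) * (2 * S) ≤ ∏ i, (η * (h i / L i)) := by
        have h4 : (2 : ℝ) ≤ ∏ _i : Fin k, (2 : ℝ) := by
          rw [prod_const, card_univ, Fintype.card_fin]
          calc (2 : ℝ) = 2 ^ 1 := (pow_one _).symm
            _ ≤ 2 ^ k := pow_le_pow_right₀ (by norm_num) hk
        have h5 : 0 ≤ ∏ i, (C * (L i / (q * g i)))⁻¹ := prod_nonneg fun i _ => by
          have := hL i
          have := hg0 i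
          positivity
        calc (∏ i, (C * (L i / (q * g i)))⁻¹) * (2 * S)
            ≤ (∏ i, (C * (L i / (q * g i)))⁻¹) * ((∏ _i : Fin k, (2 : ℝ)) * S) :=
              mul_le_mul_of_nonneg_left (mul_le_mul_of_nonneg_right h4 hS0.le) h5
          _ = ∏ i, ((C * (L i / (q * g i)))⁻¹ * (2 * (CA * (h i / (q * g i))))) := by
              rw [hS, ← prod_mul_distrib, ← prod_mul_distrib]
          _ ≤ ∏ i, (η * (h i / L i)) := by
              refine prod_le_prod (fun i _ => ?_) fun i _ => ?_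
              · have := hL i
                have := hSi i
                have := hg0 i
                positivity
              · have h6 := hL i
                have h7 := hg0 i
                have h8 := hh i
                have h9 : 2 * CA ≤ C * η := by rwa [div_le_iff₀ hη] at hCb
                have h10 : (C * (L i / (q * g i)))⁻¹ * (2 * (CA * (h i / (q * g i)))) =
                  (2 * CA / C) * (h i / L i) := by
                  field_simp
                rw [h10]
                refine mul_le_mul_of_nonneg_right ?_ (by positivity)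
                rw [div_le_iff₀ hCpos]
                linarith
      calc (T.card : ℝ) * (∏ i, (C * (L i / (q * g i)))⁻¹) * (2 * S)
          = T.card * ((∏ i, (C * (L i / (q * g i)))⁻¹) * (2 * S)) := by ring
        _ ≤ _ := mul_le_mul_of_nonneg_left h3 hy0.le
    exact_mod_cast card_le_card this
  -- conclusion
  have hfin : X1 ^ 2 ≤ (D * ((T.card : ℝ) ^ 2 * F)) * V := by
    refine hsm.trans ?_
    have h3 : 4 * ((M + 1) * ((T.card : ℝ) ^ 2 * F)) = D * ((T.card : ℝ) ^ 2 * F) := by rw [hD]; ring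
    rw [h3]
    exact mul_le_mul_of_nonneg_left hVV2 (by positivity)
  have hX1sq : X1 ^ 2 = (T.card : ℝ) ^ 2 * ∏ i, (η * (h i / L i)) ^ 2 := by
    rw [hX1, mul_pow, prod_pow]
  have hkey : (D * F) * ((C ^ k)⁻¹ * S) ≤ ∏ i, (η * (h i / L i)) ^ 2 := by
    have h4 : D ≤ ∏ _i : Fin k, D := by
      rw [prod_const, card_univ, Fintype.card_fin]
      calc D = D ^ 1 := (pow_one _).symm
        _ ≤ D ^ k := pow_le_pow_right₀ hD1 hk
    have h6 : (C ^ k)⁻¹ = ∏ _i : Fin k, C⁻¹ := by
      rw [prod_const, card_univ, Fintype.card_fin, inv_pow]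
    have h7 : 0 ≤ (C ^ k)⁻¹ * S := by positivity
    calc (D * F) * ((C ^ k)⁻¹ * S)
        ≤ ((∏ _i : Fin k, D) * F) * ((C ^ k)⁻¹ * S) := by
          refine mul_le_mul_of_nonneg_right (mul_le_mul_of_nonneg_right h4 hF0.le) h7
      _ = ∏ i, (D * (CP * (h i / L i ^ 2) * q * g i) * (C⁻¹ * (CA * (h i / (q * g i))))) := by
          rw [hF, hS, h6, ← prod_mul_distrib, ← prod_mul_distrib, ← prod_mul_distrib]
      _ ≤ ∏ i, (η * (h i / L i)) ^ 2 := by
          refine prod_le_prod (fun i _ => ?_) fun i _ => ?_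
          · have := hFi i
            have := hSi i
            positivity
          · have h6 := hL i
            have h7 := hg0 i
            have h8 := hh i
            have h9 : CP * D * CA ≤ C * η ^ 2 := by rwa [div_le_iff₀ (by positivity)] at hCc
            have h10 : D * (CP * (h i / L i ^ 2) * q * g i) * (C⁻¹ * (CA * (h i / (q * g i)))) =
                (CP * D * CA / C) * (h i / L i) ^ 2 := by
              field_simp
            rw [h10, mul_pow]
            refine mul_le_mul_of_nonneg_right ?_ (by positivity)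
            rw [div_le_iff₀ hCpos]
            linarith
  have hy2 : (0 : ℝ) < (T.card : ℝ) ^ 2 := by positivity
  have hfin2 : ∏ i, (η * (h i / L i)) ^ 2 ≤ (D * F) * V := by
    rw [hX1sq] at hfin
    have h3 : (D * ((T.card : ℝ) ^ 2 * F)) * V = (T.card : ℝ) ^ 2 * ((D * F) * V) := by ring
    rw [h3] at hfin
    exact le_of_mul_le_mul_left hfin hy2
  have hDF : 0 < D * F := by positivity
  exact le_of_mul_le_mul_left (hkey.trans hfin2) hDF

end Pool.Agent.Q160.GQ
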