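import Mathlib
import Pool.Agent.Q160.GQ1
import Pool.Agent.Q160.GP3

set_option autoImplicit false

/-!
# Sieve bounds for linear forms in the moving coefficient
-/

namespace Pool.Agent.Q160.GQ

open Finset Filter
open Pool.Agent.H373R2.T7
open Pool.Agent.H305R2 (VV VV_tendsto)
open Pool.Agent.Q160.GK
open Pool.Agent.Q160.GP (tail_pow prod_union_le)

open Classical in
/-- **Integers coprime to `a` and to all `p ≤ k`.** -/
theorem class_low2 (A : ℕ) : ∃ c : ℝ, ∃ h0 : ℕ, 0 < c ∧ ∀ k a l h : ℕ, h0 ≤ h → 1 ≤ a → a ≤ h ^ A →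
    (k : ℝ) ≤ Real.log h → ∀ s : ℕ → ℕ,
    c * (h / (Real.log (k + 2) * gg k a)) ≤
    ((((Ioc l (l + h)).filter (fun b => (∀ p ∈ pz k, ¬ p ∣ a * s p + b) ∧ b.Coprime a)).card : ℕ) : ℝ) := by
  obtain ⟨K, x0, hK, hsieve⟩ := sieve_low 1 (by norm_num)
  obtain ⟨h1, hlevel⟩ := level K x0 hK
  obtain ⟨c, C1, hc, hC1, hVV⟩ := VV_bounds
  have hKr : (1 : ℝ) ≤ K := by exact_mod_cast hK
  obtain ⟨D, hD⟩ : ∃ D : ℝ, D = 2 ^ (2 * K * A) := ⟨_, rfl⟩
  have hD1 : 1 ≤ D := by rw [hD]; exact one_le_pow₀ (by norm_num)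
  obtain ⟨w, hw⟩ : ∃ w : ℝ, w = 1 / (4 * C1) := ⟨_, rfl⟩
  have hw0 : 0 < w := by rw [hw]; positivity
  obtain ⟨E, hE⟩ : ∃ E : ℝ, E = (1 + 2 * K * A * 3) * (D * C1) / w := ⟨_, rfl⟩
  have hE0 : 0 < E := by rw [hE]; positivity
  obtain ⟨h2, hsmall⟩ : ∃ h2 : ℕ, ∀ h : ℕ, h2 ≤ h → E * Real.log h ^ 2 ≤ (h : ℝ) ^ (1 / (2 * K) : ℝ) ∧
      Real.log h ≤ (h : ℝ) ^ (1 / (2 * K) : ℝ) ∧ 3 ≤ h := by
    have h3 : (fun x : ℝ => Real.log x ^ 2) =o[atTop] (fun x : ℝ => x ^ (1 / (2 * K) : ℝ)) := by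
      have := isLittleO_log_rpow_rpow_atTop ((2 : ℕ) : ℝ) (show (0 : ℝ) < 1 / (2 * K) by positivity)
      simpa [Real.rpow_natCast] using this
    have h4 : (fun x : ℝ => Real.log x) =o[atTop] (fun x : ℝ => x ^ (1 / (2 * K) : ℝ)) :=
      isLittleO_log_rpow_atTop (by positivity)
    have h5 := (tendsto_natCast_atTop_atTop.eventually (h3.bound (show (0 : ℝ) < 1 / E by positivity))).and
      ((tendsto_natCast_atTop_atTop.eventually (h4.bound (show (0 : ℝ) < 1 by norm_num))).and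
      (eventually_ge_atTop 3))
    obtain ⟨h2, hh2⟩ := eventually_atTop.1 h5
    refine ⟨h2, fun h hh => ?_⟩
    obtain ⟨h6, h7, h8⟩ := hh2 h hh
    have hh0 : (3 : ℝ) ≤ h := by exact_mod_cast h8
    have hl0 : 0 < Real.log h := Real.log_pos (by linarith)
    rw [Real.norm_eq_abs, Real.norm_eq_abs, abs_of_nonneg (by positivity), abs_of_nonneg (by positivity)] at h6
    rw [Real.norm_eq_abs, Real.norm_eq_abs, abs_of_nonneg hl0.le, abs_of_nonneg (by positivity), one_mul] at h7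
    refine ⟨?_, h7, h8⟩
    rw [one_div, inv_mul_eq_div, le_div_iff₀ hE0] at h6
    linarith
  refine ⟨w, max h1 h2, hw0, fun k a l h hh ha haA hk s => ?_⟩
  obtain ⟨y, hxy, hy4, hyK, hyK2, hysq, hL0, hLy⟩ := hlevel h (le_trans (le_max_left _ _) hh)
  obtain ⟨hsm, hlogs, hh3⟩ := hsmall h (le_trans (le_max_right _ _) hh)
  have hhr3 : (3 : ℝ) ≤ h := by exact_mod_cast hh3
  obtain ⟨Q, hQ⟩ : ∃ Q : ℕ → ℕ → Prop, Q = fun p n => (p ≤ k ∨ p ∣ a) ∧ p ∣ (a * s p + l) + n := ⟨_, rfl⟩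
  have hper : PerB Q 1 := by
    refine ⟨fun p n => ?_, fun p hp => ?_⟩
    · rw [hQ]
      simp only
      rw [GK.dvd_mod_iff p (a * s p + l) n]
    · rw [hQ]
      exact (one_nu hp (fun p => p ≤ k ∨ p ∣ a) (fun p => a * s p + l)).1
  have hsv := hsieve h y hxy hyK Q hper
  have hy0 : (0 : ℝ) < y := by exact_mod_cast (by omega : 0 < y)
  have hylow : (h : ℝ) ^ (1 / (2 * K) : ℝ) < (y : ℝ) + 1 := by
    have h4 : (h : ℝ) < ((y : ℝ) + 1) ^ (2 * K) := by exact_mod_cast hyK2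
    have h5 : (((y : ℝ) + 1) ^ (2 * K)) ^ (1 / (2 * K) : ℝ) = (y : ℝ) + 1 := by
      rw [← Real.rpow_natCast, ← Real.rpow_mul (by positivity)]
      push_cast
      rw [mul_one_div_cancel (by positivity), Real.rpow_one]
    rw [← h5]
    exact Real.rpow_lt_rpow (by positivity) h4 (by positivity)
  have hky : k ≤ y := by
    have h4 : (k : ℝ) < (y : ℝ) + 1 := by linarith
    have h5 : k < y + 1 := by exact_mod_cast h4
    omega
  -- the large prime factors of `a`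
  obtain ⟨U, hU⟩ : ∃ U, U = a.primeFactors.filter (fun p => y < p) := ⟨_, rfl⟩
  have hUc : U.card ≤ 2 * K * A := by
    have h5 : (y + 1) ^ U.card ≤ (y + 1) ^ (2 * K * A) := by
      calc (y + 1) ^ U.card ≤ a := by rw [hU]; exact card_big_pf y a (by omega)
        _ ≤ h ^ A := haA
        _ ≤ ((y + 1) ^ (2 * K)) ^ A := Nat.pow_le_pow_left hyK2.le _
        _ = (y + 1) ^ (2 * K * A) := by rw [← pow_mul]
    exact (Nat.pow_le_pow_iff_right (by omega)).1 h5
  obtain ⟨U1, hU1⟩ : ∃ U1, U1 = (a.primeFactors.filter (fun p => k < p)).filter (fun p => p ≤ y) := ⟨_, rfl⟩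
  obtain ⟨U2, hU2⟩ : ∃ U2, U2 = (a.primeFactors.filter (fun p => k < p)).filter (fun p => ¬ p ≤ y) := ⟨_, rfl⟩
  have hgU : gg k a = (∏ p ∈ U1, (1 - (p : ℝ)⁻¹)⁻¹) * ∏ p ∈ U2, (1 - (p : ℝ)⁻¹)⁻¹ := by
    rw [hU1, hU2, prod_filter_mul_prod_filter_not]
    rfl
  have hU21 : 1 ≤ ∏ p ∈ U2, (1 - (p : ℝ)⁻¹)⁻¹ := one_le_prod fun p hp => by
    rw [hU2, mem_filter, mem_filter] at hp
    exact pf_two hp.1.1
  have hU2D : ∏ p ∈ U2, (1 - (p : ℝ)⁻¹)⁻¹ ≤ D := by
    have h3 : U2.card ≤ 2 * K * A := by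
      refine le_trans (card_le_card ?_) hUc
      intro p hp
      rw [hU2, mem_filter, mem_filter] at hp
      rw [hU, mem_filter]
      exact ⟨hp.1.1, by omega⟩
    calc ∏ p ∈ U2, (1 - (p : ℝ)⁻¹)⁻¹ ≤ ∏ _p ∈ U2, (2 : ℝ) := by
          refine prod_le_prod (fun p hp => ?_) fun p hp => ?_
          · rw [hU2, mem_filter, mem_filter] at hp
            exact zero_le_one.trans (one_le_fac (pf_two hp.1.1))
          · rw [hU2, mem_filter, mem_filter] at hp
            exact fac_le_two (pf_two hp.1.1)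
      _ = 2 ^ U2.card := prod_const _
      _ ≤ D := by rw [hD]; exact pow_le_pow_right₀ (by norm_num) h3
  have hU1W : ∏ p ∈ U1, (1 - (p : ℝ)⁻¹)⁻¹ ≤ VV y := by
    rw [VV_def]
    refine prod_le_prod_sub ?_ fun p hp => (mem_pz.1 hp).2.two_le
    intro p hp
    rw [hU1, mem_filter, mem_filter] at hp
    rw [mem_pz]
    exact ⟨hp.2, Nat.prime_of_mem_primeFactors hp.1.1⟩
  have hU10 : 0 < ∏ p ∈ U1, (1 - (p : ℝ)⁻¹)⁻¹ := lt_of_lt_of_le one_pos (one_le_prod fun p hp => by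
    rw [hU1, mem_filter, mem_filter] at hp
    exact pf_two hp.1.1)
  have hgg0 : 0 < gg k a := lt_of_lt_of_le one_pos (one_le_gg k a)
  have hVk0 : 0 < VV k := lt_of_lt_of_le one_pos (one_le_VV k)
  -- product
  have hprod : 1 / (VV k * gg k a) ≤ ∏ p ∈ pz y, (1 - (nuB Q p : ℝ) / p) := by
    obtain ⟨W, hW⟩ : ∃ W, W = (pz y).filter (fun p => p ≤ k ∨ p ∣ a) := ⟨_, rfl⟩
    have h3 : (∏ p ∈ W, (1 - (p : ℝ)⁻¹)⁻¹)⁻¹ ≤ ∏ p ∈ pz y, (1 - (nuB Q p : ℝ) / p) := by
      rw [← prod_inv_distrib, hW, prod_filter]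
      refine prod_le_prod (fun p hp => ?_) fun p hp => ?_
      · have hp2 := (mem_pz.1 hp).2
        have := fac_pos hp2.two_le
        split_ifs
        · rw [inv_inv]; exact this.le
        · exact zero_le_one
      · have hp2 := (mem_pz.1 hp).2
        have h5 := (one_nu hp2 (fun p => p ≤ k ∨ p ∣ a) (fun p => a * s p + l)).1
        rw [← hQ] at h5
        split_ifs with hG
        · rw [inv_inv, inv_eq_one_div]
          have h4 : (nuB Q p : ℝ) ≤ 1 := by exact_mod_cast h5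
          have hpr : (0 : ℝ) < p := by exact_mod_cast hp2.pos
          have h6 : (nuB Q p : ℝ) / p ≤ 1 / p := by gcongr
          linarith
        · have h4 : nuB Q p = 0 := by
            unfold nuB
            rw [card_eq_zero]
            ext x
            simp only [mem_filter, notMem_empty, iff_false]
            rw [hQ]
            exact fun h => hG h.2.1
          rw [h4]
          simp
    refine le_trans ?_ h3
    have hW0 : 0 < ∏ p ∈ W, (1 - (p : ℝ)⁻¹)⁻¹ := lt_of_lt_of_le one_pos (one_le_prod fun p hp => by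
      rw [hW, mem_filter, mem_pz] at hp
      exact hp.1.2.two_le)
    rw [inv_eq_one_div]
    refine one_div_le_one_div_of_le hW0 ?_
    have hdisj : Disjoint (pz k) U1 := by
      rw [disjoint_left]
      intro p hp hp2
      rw [mem_pz] at hp
      rw [hU1, mem_filter, mem_filter] at hp2
      omega
    calc ∏ p ∈ W, (1 - (p : ℝ)⁻¹)⁻¹ ≤ ∏ p ∈ pz k ∪ U1, (1 - (p : ℝ)⁻¹)⁻¹ := by
          refine prod_le_prod_sub ?_ fun p hp => ?_
          · intro p hp
            rw [hW, mem_filter, mem_pz] at hp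
            rw [mem_union, mem_pz, hU1, mem_filter, mem_filter]
            rcases Nat.lt_or_ge k p with h | h
            · right
              have : p ∣ a := by
                rcases hp.2 with h' | h'
                · omega
                · exact h'
              exact ⟨⟨Nat.mem_primeFactors.2 ⟨hp.1.2, this, by omega⟩, h⟩, hp.1.1⟩
            · exact Or.inl ⟨h, hp.1.2⟩
          · rw [mem_union, mem_pz, hU1, mem_filter, mem_filter] at hp
            rcases hp with h | h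
            · exact h.2.two_le
            · exact pf_two h.1.1
      _ = VV k * ∏ p ∈ U1, (1 - (p : ℝ)⁻¹)⁻¹ := by rw [VV_def, prod_union hdisj]
      _ ≤ VV k * gg k a := by
          rw [hgU]
          refine mul_le_mul_of_nonneg_left ?_ hVk0.le
          exact le_mul_of_one_le_right hU10.le hU21
  have htr : (((Icc 1 h).filter (fun n : ℕ => ∀ p ∈ pz y, ¬ Q p n)).card : ℝ) ≤
      (((Ioc l (l + h)).filter (fun b => (∀ p ∈ pz k, ¬ p ∣ a * s p + b) ∧ b.Coprime a)).card : ℝ) +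
        2 * K * A * (h / y + 1) := by
    have h3 : ((Icc 1 h).filter (fun n : ℕ => ∀ p ∈ pz y, ¬ Q p n)).image (fun n => l + n) ⊆
        (Ioc l (l + h)).filter (fun b => (∀ p ∈ pz k, ¬ p ∣ a * s p + b) ∧ b.Coprime a) ∪
        U.biUnion (fun p => (Ioc l (l + h)).filter (fun b => p ∣ b)) := by
      intro b hb
      rw [mem_image] at hb
      obtain ⟨n, hn, rfl⟩ := hb
      rw [mem_filter, mem_Icc] at hn
      rw [mem_union, mem_filter, mem_Ioc, mem_biUnion]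
      by_cases hex : ∃ p ∈ U, p ∣ l + n
      · obtain ⟨p, hp1, hp2⟩ := hex
        exact Or.inr ⟨p, hp1, by rw [mem_filter, mem_Ioc]; exact ⟨by omega, hp2⟩⟩
      · push Not at hex
        left
        refine ⟨by omega, ?_, ?_⟩
        · intro p hp hpd
          rw [mem_pz] at hp
          have := hn.2 p (mem_pz.2 ⟨hp.1.trans hky, hp.2⟩)
          rw [hQ] at this
          refine this ⟨Or.inl hp.1, ?_⟩
          rw [add_assoc]
          exact hpd
        · rw [Nat.coprime_iff_gcd_eq_one]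
          by_contra hcon
          obtain ⟨p, hp, hpg⟩ := Nat.exists_prime_and_dvd hcon
          have hp1 := hpg.trans (Nat.gcd_dvd_left _ _)
          have hp2 := hpg.trans (Nat.gcd_dvd_right _ _)
          rcases Nat.lt_or_ge y p with h' | h'
          · refine hex p ?_ hp1
            rw [hU, mem_filter]
            exact ⟨Nat.mem_primeFactors.2 ⟨hp, hp2, by omega⟩, h'⟩
          · have := hn.2 p (mem_pz.2 ⟨h', hp⟩)
            rw [hQ] at this
            refine this ⟨Or.inr hp2, ?_⟩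
            rw [add_assoc]
            exact dvd_add (Dvd.dvd.mul_right hp2 _) hp1
    have h4 : ((((Icc 1 h).filter (fun n : ℕ => ∀ p ∈ pz y, ¬ Q p n)).image (fun n => l + n)).card : ℝ) =
        (((Icc 1 h).filter (fun n : ℕ => ∀ p ∈ pz y, ¬ Q p n)).card : ℝ) := by
      rw [card_image_of_injective _ (add_right_injective l)]
    rw [← h4]
    have h5 : ((((Icc 1 h).filter (fun n : ℕ => ∀ p ∈ pz y, ¬ Q p n)).image (fun n => l + n)).card : ℝ) ≤
        (((Ioc l (l + h)).filter (fun b => (∀ p ∈ pz k, ¬ p ∣ a * s p + b) ∧ b.Coprime a)).card : ℝ) +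
        ((U.biUnion (fun p => (Ioc l (l + h)).filter (fun b => p ∣ b))).card : ℝ) := by
      exact_mod_cast (card_le_card h3).trans (card_union_le _ _)
    refine h5.trans (add_le_add le_rfl ?_)
    have h6 : ∀ p ∈ U, (((Ioc l (l + h)).filter (fun b => p ∣ b)).card : ℝ) ≤ h / y + 1 := by
      intro p hp
      rw [hU, mem_filter] at hp
      have hp0 : 0 < p := by omega
      have hpr : (y : ℝ) ≤ p := by exact_mod_cast hp.2.le
      have h7 : ((Ioc l (l + h)).filter (fun b => p ∣ b)).card ≤ h / p + 1 := by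
        have h8 : (Ioc l (l + h)).filter (fun b => p ∣ b) ⊆ (Ioc (l / p) ((l + h) / p)).image (fun t => p * t) := by
          intro b hb
          rw [mem_filter, mem_Ioc] at hb
          obtain ⟨t, rfl⟩ := hb.2
          rw [mem_image]
          refine ⟨t, ?_, rfl⟩
          rw [mem_Ioc]
          constructor
          · rw [Nat.div_lt_iff_lt_mul hp0, mul_comm]
            exact hb.1.1
          · rw [Nat.le_div_iff_mul_le hp0, mul_comm]
            exact hb.1.2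
        refine (card_le_card h8).trans (card_image_le.trans ?_)
        rw [Nat.card_Ioc]
        have h9 : (l + h) / p ≤ l / p + (h / p + 1) := by
          rw [Nat.add_div hp0]
          split_ifs <;> omega
        exact Nat.sub_le_iff_le_add'.2 h9
      calc (((Ioc l (l + h)).filter (fun b => p ∣ b)).card : ℝ) ≤ ((h / p + 1 : ℕ) : ℝ) := by exact_mod_cast h7
        _ = ((h / p : ℕ) : ℝ) + 1 := by push_cast; rfl
        _ ≤ (h : ℝ) / p + 1 := by
            have := Nat.cast_div_le (α := ℝ) (m := h) (n := p)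
            linarith
        _ ≤ h / y + 1 := by
            have : (h : ℝ) / p ≤ h / y := div_le_div_of_nonneg_left (by positivity) hy0 hpr
            linarith
    calc ((U.biUnion (fun p => (Ioc l (l + h)).filter (fun b => p ∣ b))).card : ℝ)
        ≤ ∑ p ∈ U, (((Ioc l (l + h)).filter (fun b => p ∣ b)).card : ℝ) := by exact_mod_cast card_biUnion_le
      _ ≤ ∑ _p ∈ U, ((h : ℝ) / y + 1) := sum_le_sum h6
      _ = U.card * ((h : ℝ) / y + 1) := by rw [sum_const, nsmul_eq_mul]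
      _ ≤ 2 * K * A * (h / y + 1) := by
          refine mul_le_mul_of_nonneg_right ?_ (by positivity)
          exact_mod_cast hUc
  have hlk := log_two_add k
  have hhr : (0 : ℝ) ≤ h := Nat.cast_nonneg h
  have hlkh : Real.log ((k : ℝ) + 2) ≤ Real.log h ∧ Real.log ((y : ℝ) + 2) ≤ Real.log h := by
    have h3 : y + 2 ≤ h := by
      calc y + 2 ≤ y ^ 2 := by nlinarith
        _ ≤ y ^ (2 * K) := Nat.pow_le_pow_right (by omega) (by omega)
        _ ≤ h := hyK
    constructor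
    · exact Real.log_le_log (by positivity) (by exact_mod_cast (by omega : k + 2 ≤ h))
    · exact Real.log_le_log (by positivity) (by exact_mod_cast h3)
  have hgle : gg k a ≤ D * (C1 * Real.log h) := by
    rw [hgU, mul_comm]
    refine mul_le_mul hU2D (hU1W.trans ((hVV y).2.trans ?_)) hU10.le (by positivity)
    exact mul_le_mul_of_nonneg_left hlkh.2 hC1.le
  obtain ⟨R, hR⟩ : ∃ R : ℝ, R = (h : ℝ) ^ (1 / (2 * K) : ℝ) := ⟨_, rfl⟩
  rw [← hR] at hsm hlogs hylow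
  have hR0 : 0 < R := by rw [hR]; positivity
  have hRy : R ≤ 2 * y := by
    have : (1 : ℝ) ≤ y := by exact_mod_cast (by omega : 1 ≤ y)
    linarith
  have hRh : R ≤ h := by
    rw [hR]
    calc (h : ℝ) ^ (1 / (2 * K) : ℝ) ≤ (h : ℝ) ^ (1 : ℝ) := by
          refine Real.rpow_le_rpow_of_exponent_le (by linarith) ?_
          rw [div_le_one (by positivity)]
          linarith
      _ = h := Real.rpow_one _
  have hquart : (h : ℝ) ^ (1 / 4 : ℝ) ≤ h / R := by
    rw [le_div_iff₀ hR0, hR, ← Real.rpow_add (by linarith)]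
    calc (h : ℝ) ^ (1 / 4 + 1 / (2 * K) : ℝ) ≤ (h : ℝ) ^ (1 : ℝ) := by
          refine Real.rpow_le_rpow_of_exponent_le (by linarith) ?_
          have : (1 : ℝ) / (2 * K) ≤ 1 / 2 := one_div_le_one_div_of_le (by norm_num) (by linarith)
          linarith
      _ = h := Real.rpow_one _
  have hhy : (h : ℝ) / y + 1 ≤ 3 * (h / R) := by
    have h3 : (h : ℝ) / y ≤ 2 * (h / R) := by
      rw [← mul_div_assoc, div_le_div_iff₀ hy0 hR0]
      nlinarith
    have h4 : 1 ≤ (h : ℝ) / R := by rwa [le_div_iff₀ hR0, one_mul]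
    linarith
  have hLg0 : 0 < Real.log (k + 2) * gg k a := by positivity
  have herr : (h : ℝ) ^ (1 / 4 : ℝ) + 2 * K * A * (h / y + 1) ≤ w * (h / (Real.log (k + 2) * gg k a)) := by
    have h3 : (h : ℝ) ^ (1 / 4 : ℝ) + 2 * K * A * (h / y + 1) ≤ (1 + 2 * K * A * 3) * (h / R) := by
      have : 2 * K * A * (h / y + 1) ≤ 2 * K * A * (3 * (h / R)) :=
        mul_le_mul_of_nonneg_left hhy (by positivity)
      linarith
    refine h3.trans ?_
    have h4 : Real.log (k + 2) * gg k a ≤ D * C1 * Real.log h ^ 2 := by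
      calc Real.log (k + 2) * gg k a ≤ Real.log h * (D * (C1 * Real.log h)) :=
            mul_le_mul hlkh.1 hgle hgg0.le hL0.le
        _ = _ := by ring
    rw [← mul_div_assoc, ← mul_div_assoc, div_le_div_iff₀ hR0 hLg0]
    calc (1 + 2 * K * A * 3) * h * (Real.log (k + 2) * gg k a)
        ≤ (1 + 2 * K * A * 3) * h * (D * C1 * Real.log h ^ 2) :=
          mul_le_mul_of_nonneg_left h4 (by positivity)
      _ = w * h * (E * Real.log h ^ 2) := by rw [hE]; field_simp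
      _ ≤ w * h * R := mul_le_mul_of_nonneg_left hsm (by positivity)
  have hmain : 2 * w * (h / (Real.log (k + 2) * gg k a)) ≤ 1 / 2 * (h * ∏ p ∈ pz y, (1 - (nuB Q p : ℝ) / p)) := by
    have h3 : 1 / (C1 * (Real.log (k + 2) * gg k a)) ≤ 1 / (VV k * gg k a) := by
      refine one_div_le_one_div_of_le (by positivity) ?_
      calc VV k * gg k a ≤ (C1 * Real.log (k + 2)) * gg k a := mul_le_mul_of_nonneg_right (hVV k).2 hgg0.le
        _ = _ := by ring
    have h4 := mul_le_mul_of_nonneg_left (h3.trans hprod) hhr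
    have h5 : 2 * w * (h / (Real.log (k + 2) * gg k a)) = 1 / 2 * (h * (1 / (C1 * (Real.log (k + 2) * gg k a)))) := by
      rw [hw]
      field_simp
      norm_num
    rw [h5]
    linarith
  linarith



/-- one residue class -/
lemma cls_lin {p : ℕ} (hp : p.Prime) (G : ℤ) {N : ℕ} (hN : ¬ p ∣ N) :
    ∃ r < p, ∀ x < p, (p : ℤ) ∣ G + x * N ↔ x = r := by
  haveI : Fact p.Prime := ⟨hp⟩
  have hN0 : ((N : ℕ) : ZMod p) ≠ 0 := by
    intro h
    exact hN ((ZMod.natCast_eq_zero_iff _ _).1 h)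
  refine ⟨(-(G : ZMod p) / (N : ZMod p)).val, ZMod.val_lt _, fun x hx => ?_⟩
  rw [← ZMod.intCast_zmod_eq_zero_iff_dvd]
  push_cast
  constructor
  · intro h
    have h1 : (x : ZMod p) = -(G : ZMod p) / (N : ZMod p) := by
      rw [eq_div_iff hN0]
      linear_combination h
    rw [← h1, ZMod.val_cast_of_lt hx]
  · intro h
    have h1 : (x : ZMod p) = -(G : ZMod p) / (N : ZMod p) := by
      rw [h, ZMod.natCast_zmod_val]
    rw [h1]
    field_simp
    ring

lemma lin_mod {p : ℕ} (G : ℤ) (N n : ℕ) : (p : ℤ) ∣ G + ((n % p : ℕ) : ℤ) * N ↔ (p : ℤ) ∣ G + (n : ℤ) * N := by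
  rw [← ZMod.intCast_zmod_eq_zero_iff_dvd, ← ZMod.intCast_zmod_eq_zero_iff_dvd]
  push_cast
  exact Iff.rfl

open Classical in
/-- the number of classes for a pair -/
lemma pairL_nu {p : ℕ} (hp : p.Prime) (G1 G2 : ℤ) (N1 N2 : ℕ) (hN : ¬ (p ∣ N1 ∧ p ∣ N2))
    (h1 : IsCoprime G1 (N1 : ℤ)) (h2 : IsCoprime G2 (N2 : ℤ)) :
    nuB (fun p n => (p : ℤ) ∣ G1 + (n : ℤ) * N1 ∨ (p : ℤ) ∣ G2 + (n : ℤ) * N2) p ≤ 2 ∧
    1 ≤ nuB (fun p n => (p : ℤ) ∣ G1 + (n : ℤ) * N1 ∨ (p : ℤ) ∣ G2 + (n : ℤ) * N2) p ∧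
    (¬ p ∣ N1 * N2 * (G1 * N2 - G2 * N1).natAbs →
      nuB (fun p n => (p : ℤ) ∣ G1 + (n : ℤ) * N1 ∨ (p : ℤ) ∣ G2 + (n : ℤ) * N2) p = 2) := by
  have hpi : Prime (p : ℤ) := Nat.prime_iff_prime_int.1 hp
  have key : ∀ (G : ℤ) (N : ℕ), IsCoprime G (N : ℤ) → p ∣ N → ∀ x : ℕ, ¬ (p : ℤ) ∣ G + (x : ℤ) * N := by
    intro G N hG hpN x hx
    have hpN' : (p : ℤ) ∣ (N : ℤ) := Int.natCast_dvd_natCast.2 hpN
    have h3 : (p : ℤ) ∣ G := (dvd_add_left (Dvd.dvd.mul_left hpN' _)).1 hx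
    exact hpi.not_isUnit (hG.isUnit_of_dvd' h3 hpN')
  have hnu : nuB (fun p n => (p : ℤ) ∣ G1 + (n : ℤ) * N1 ∨ (p : ℤ) ∣ G2 + (n : ℤ) * N2) p =
      ((range p).filter (fun n : ℕ => (p : ℤ) ∣ G1 + (n : ℤ) * N1 ∨ (p : ℤ) ∣ G2 + (n : ℤ) * N2)).card := by
    unfold nuB
    refine congrArg Finset.card ?_
    ext x
    simp only [mem_filter]
  rw [hnu]
  by_cases hd1 : p ∣ N1
  · have hd2 : ¬ p ∣ N2 := fun h => hN ⟨hd1, h⟩
    obtain ⟨r, hr, hr2⟩ := cls_lin hp G2 hd2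
    have hset : (range p).filter (fun n : ℕ => (p : ℤ) ∣ G1 + (n : ℤ) * N1 ∨ (p : ℤ) ∣ G2 + (n : ℤ) * N2) = {r} := by
      ext x
      rw [mem_filter, mem_range, mem_singleton]
      constructor
      · rintro ⟨hx, h | h⟩
        · exact absurd h (key G1 N1 h1 hd1 x)
        · exact (hr2 x hx).1 h
      · rintro rfl
        exact ⟨hr, Or.inr ((hr2 x hr).2 rfl)⟩
    rw [hset, card_singleton]
    refine ⟨by norm_num, le_rfl, fun h => ?_⟩
    exact absurd (Dvd.dvd.mul_right (Dvd.dvd.mul_right hd1 _) _) h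
  · by_cases hd2 : p ∣ N2
    · obtain ⟨r, hr, hr2⟩ := cls_lin hp G1 hd1
      have hset : (range p).filter (fun n : ℕ => (p : ℤ) ∣ G1 + (n : ℤ) * N1 ∨ (p : ℤ) ∣ G2 + (n : ℤ) * N2) = {r} := by
        ext x
        rw [mem_filter, mem_range, mem_singleton]
        constructor
        · rintro ⟨hx, h | h⟩
          · exact (hr2 x hx).1 h
          · exact absurd h (key G2 N2 h2 hd2 x)
        · rintro rfl
          exact ⟨hr, Or.inl ((hr2 x hr).2 rfl)⟩
      rw [hset, card_singleton]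
      refine ⟨by norm_num, le_rfl, fun h => ?_⟩
      exact absurd (Dvd.dvd.mul_right (Dvd.dvd.mul_left hd2 _) _) h
    · obtain ⟨r1, hr1, h3⟩ := cls_lin hp G1 hd1
      obtain ⟨r2, hr2, h4⟩ := cls_lin hp G2 hd2
      have hset : (range p).filter (fun n : ℕ => (p : ℤ) ∣ G1 + (n : ℤ) * N1 ∨ (p : ℤ) ∣ G2 + (n : ℤ) * N2) = {r1, r2} := by
        ext x
        rw [mem_filter, mem_range, mem_insert, mem_singleton]
        constructor
        · rintro ⟨hx, h | h⟩
          · exact Or.inl ((h3 x hx).1 h)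
          · exact Or.inr ((h4 x hx).1 h)
        · rintro (rfl | rfl)
          · exact ⟨hr1, Or.inl ((h3 x hr1).2 rfl)⟩
          · exact ⟨hr2, Or.inr ((h4 x hr2).2 rfl)⟩
      rw [hset]
      refine ⟨card_le_two, card_pos.2 ⟨r1, mem_insert_self _ _⟩, fun hm => ?_⟩
      apply card_pair
      rintro rfl
      apply hm
      refine Dvd.dvd.mul_left ?_ _
      have h5 := (h3 r1 hr1).2 rfl
      have h6 := (h4 r1 hr2).2 rfl
      rw [← Int.natCast_dvd_natCast, Int.dvd_natAbs]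
      have h7 : G1 * N2 - G2 * N1 = (G1 + r1 * N1) * N2 - (G2 + r1 * N2) * N1 := by ring
      rw [h7]
      exact dvd_sub (Dvd.dvd.mul_right h5 _) (Dvd.dvd.mul_right h6 _)

open Classical in
/-- **Pairs.** -/
theorem pairL : ∃ C : ℝ, ∃ h0 : ℕ, 0 < C ∧ ∀ h l N1 N2 : ℕ, ∀ G1 G2 : ℤ, h0 ≤ h → Nat.Coprime N1 N2 → 0 < N1 → 0 < N2 →
    IsCoprime G1 (N1 : ℤ) → IsCoprime G2 (N2 : ℤ) → G1 * N2 - G2 * N1 ≠ 0 →
    ((((Ioc l (l + h)).filter (fun b : ℕ => (G1 + (b : ℤ) * N1).toNat.Prime ∧ (G2 + (b : ℤ) * N2).toNat.Prime)).card : ℕ) : ℝ) ≤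
      C * (h / Real.log h ^ 2) * gg 0 (N1 * N2 * (G1 * N2 - G2 * N1).natAbs) := by
  obtain ⟨K, x0, hK, hsieve⟩ := sieve_up 2 (by norm_num)
  obtain ⟨h1, hlevel⟩ := level K x0 hK
  obtain ⟨c, C1, hc, hC1, hVV⟩ := VV_bounds
  have hKr : (1 : ℝ) ≤ K := by exact_mod_cast hK
  obtain ⟨h2, hsmall⟩ : ∃ h2 : ℕ, ∀ h : ℕ, h2 ≤ h → Real.log h ^ 2 * (4 * (h : ℝ) ^ (1 / 2 : ℝ)) ≤ h := by
    have h3 : (fun x : ℝ => Real.log x ^ 2) =o[atTop] (fun x : ℝ => x ^ (1 / 2 : ℝ)) := by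
      have := isLittleO_log_rpow_rpow_atTop ((2 : ℕ) : ℝ) (show (0 : ℝ) < 1 / 2 by norm_num)
      simpa [Real.rpow_natCast] using this
    have h4 := (tendsto_natCast_atTop_atTop.eventually (h3.bound (show (0 : ℝ) < 1 / 4 by norm_num))).and
      (eventually_ge_atTop 1)
    obtain ⟨h2, hh2⟩ := eventually_atTop.1 h4
    refine ⟨h2, fun h hh => ?_⟩
    obtain ⟨h5, h6⟩ := hh2 h hh
    rw [Real.norm_eq_abs, Real.norm_eq_abs, abs_of_nonneg (by positivity), abs_of_nonneg (by positivity)] at h5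
    have h7 : (h : ℝ) ^ (1 / 2 : ℝ) * (h : ℝ) ^ (1 / 2 : ℝ) = h := by
      rw [← Real.rpow_add (by exact_mod_cast h6)]
      norm_num
    have h8 : 0 ≤ (h : ℝ) ^ (1 / 2 : ℝ) := by positivity
    nlinarith
  refine ⟨2 * (4 * K / c) ^ 2 + 1, max h1 h2, by positivity, fun h l N1 N2 G1 G2 hh hcop hN1 hN2 hG1 hG2 hdel => ?_⟩
  obtain ⟨m, hmdef⟩ : ∃ m : ℕ, m = N1 * N2 * (G1 * N2 - G2 * N1).natAbs := ⟨_, rfl⟩
  have hm : 0 < m := by
    rw [hmdef]
    have := Int.natAbs_pos.2 hdel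
    positivity
  rw [← hmdef]
  have hndvd : ∀ p : ℕ, p.Prime → ¬ (p ∣ N1 ∧ p ∣ N2) := by
    intro p hp h
    have h3 := Nat.dvd_gcd h.1 h.2
    rw [Nat.Coprime.gcd_eq_one hcop] at h3
    exact hp.one_lt.ne' (Nat.dvd_one.1 h3)
  obtain ⟨y, hxy, hy4, hyK, -, hysq, hL0, hLy⟩ := hlevel h (le_trans (le_max_left _ _) hh)
  have hsm := hsmall h (le_trans (le_max_right _ _) hh)
  obtain ⟨Q, hQ⟩ : ∃ Q : ℕ → ℕ → Prop, Q = fun (p n : ℕ) => (p : ℤ) ∣ (G1 + l * N1) + (n : ℤ) * N1 ∨ (p : ℤ) ∣ (G2 + l * N2) + (n : ℤ) * N2 := ⟨_, rfl⟩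
  have hG1' : IsCoprime (G1 + l * N1) (N1 : ℤ) := hG1.add_mul_right_left _
  have hG2' : IsCoprime (G2 + l * N2) (N2 : ℤ) := hG2.add_mul_right_left _
  have hdel' : (G1 + l * N1) * N2 - (G2 + l * N2) * N1 = G1 * N2 - G2 * N1 := by ring
  have hper : PerB Q 2 := by
    refine ⟨fun p n => ?_, fun p hp => ?_⟩
    · rw [hQ]
      simp only
      rw [lin_mod, lin_mod]
    · rw [hQ]
      exact (pairL_nu hp _ _ N1 N2 (hndvd p hp) hG1' hG2').1
  have hsv := hsieve h y hxy hyK Q hper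
  have hy0 : (0 : ℝ) < y := by exact_mod_cast (by omega : 0 < y)
  -- transfer
  have hsmallset : ∀ (G : ℤ) (N : ℕ), 0 < N → ((Ioc l (l + h)).filter (fun b : ℕ => 0 < G + (b : ℤ) * N ∧ G + (b : ℤ) * N ≤ y)).card ≤ y := by
    intro G N hN
    have h3 : ((Ioc l (l + h)).filter (fun b : ℕ => 0 < G + (b : ℤ) * N ∧ G + (b : ℤ) * N ≤ y)).card ≤ (Icc 1 y).card := by
      refine card_le_card_of_injOn (fun b : ℕ => (G + (b : ℤ) * N).toNat) ?_ ?_
      · intro b hb
        rw [Finset.mem_coe, mem_filter] at hb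
        rw [Finset.mem_coe, mem_Icc]
        simp only
        omega
      · intro b hb b' hb' hbb
        rw [Finset.mem_coe, mem_filter] at hb hb'
        simp only at hbb
        have h4 : G + (b : ℤ) * N = G + (b' : ℤ) * N := by
          have h5 := Int.toNat_of_nonneg hb.2.1.le
          have h6 := Int.toNat_of_nonneg hb'.2.1.le
          rw [← h5, ← h6, hbb]
        have h5 : (b : ℤ) * N = (b' : ℤ) * N := by linarith
        have h6 := mul_right_cancel₀ (by exact_mod_cast hN.ne') h5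
        exact_mod_cast h6
    rwa [Nat.card_Icc, Nat.add_sub_cancel] at h3
  have htr : (((Ioc l (l + h)).filter (fun b : ℕ => (G1 + (b : ℤ) * N1).toNat.Prime ∧ (G2 + (b : ℤ) * N2).toNat.Prime)).card : ℝ) ≤
      (((Icc 1 h).filter (fun n : ℕ => ∀ p ∈ pz y, ¬ Q p n)).card : ℝ) + 2 * y := by
    have h3 : (Ioc l (l + h)).filter (fun b : ℕ => (G1 + (b : ℤ) * N1).toNat.Prime ∧ (G2 + (b : ℤ) * N2).toNat.Prime) ⊆
        ((Icc 1 h).filter (fun n : ℕ => ∀ p ∈ pz y, ¬ Q p n)).image (fun n => l + n) ∪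
        ((Ioc l (l + h)).filter (fun b : ℕ => 0 < G1 + (b : ℤ) * N1 ∧ G1 + (b : ℤ) * N1 ≤ y) ∪
          (Ioc l (l + h)).filter (fun b : ℕ => 0 < G2 + (b : ℤ) * N2 ∧ G2 + (b : ℤ) * N2 ≤ y)) := by
      intro b hb
      rw [mem_filter] at hb
      rw [mem_union, mem_union, mem_image, mem_filter, mem_filter]
      have hb1 := hb.2.1.pos
      have hb2 := hb.2.2.pos
      have hv1 : 0 < G1 + (b : ℤ) * N1 := by omega
      have hv2 : 0 < G2 + (b : ℤ) * N2 := by omega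
      by_cases h5 : G1 + (b : ℤ) * N1 ≤ y
      · exact Or.inr (Or.inl ⟨hb.1, hv1, h5⟩)
      by_cases h6 : G2 + (b : ℤ) * N2 ≤ y
      · exact Or.inr (Or.inr ⟨hb.1, hv2, h6⟩)
      have hbI := mem_Ioc.1 hb.1
      refine Or.inl ⟨b - l, ?_, by omega⟩
      rw [mem_filter, mem_Icc]
      refine ⟨⟨by omega, by omega⟩, fun p hp => ?_⟩
      rw [mem_pz] at hp
      rw [hQ]
      simp only
      have e0 : ((b - l : ℕ) : ℤ) = (b : ℤ) - l := by omega
      have e1 : G1 + (l : ℤ) * N1 + ((b - l : ℕ) : ℤ) * N1 = G1 + (b : ℤ) * N1 := by rw [e0]; ring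
      have e2 : G2 + (l : ℤ) * N2 + ((b - l : ℕ) : ℤ) * N2 = G2 + (b : ℤ) * N2 := by rw [e0]; ring
      rw [e1, e2]
      have key : ∀ v : ℤ, 0 < v → ¬ v ≤ y → v.toNat.Prime → ¬ (p : ℤ) ∣ v := by
        intro v hv0 hvy hvp hpv
        have h8 : p ∣ v.toNat := by
          rw [← Int.natCast_dvd_natCast, Int.toNat_of_nonneg hv0.le]
          exact hpv
        have h9 := (Nat.prime_dvd_prime_iff_eq hp.2 hvp).1 h8
        omega
      rintro (h7 | h7)
      · exact key _ hv1 h5 hb.2.1 h7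
      · exact key _ hv2 h6 hb.2.2 h7
    have h4 := card_le_card h3
    have h5 := card_union_le (((Icc 1 h).filter (fun n : ℕ => ∀ p ∈ pz y, ¬ Q p n)).image (fun n => l + n))
      ((Ioc l (l + h)).filter (fun b : ℕ => 0 < G1 + (b : ℤ) * N1 ∧ G1 + (b : ℤ) * N1 ≤ y) ∪
          (Ioc l (l + h)).filter (fun b : ℕ => 0 < G2 + (b : ℤ) * N2 ∧ G2 + (b : ℤ) * N2 ≤ y))
    have h6 := card_union_le ((Ioc l (l + h)).filter (fun b : ℕ => 0 < G1 + (b : ℤ) * N1 ∧ G1 + (b : ℤ) * N1 ≤ y))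
      ((Ioc l (l + h)).filter (fun b : ℕ => 0 < G2 + (b : ℤ) * N2 ∧ G2 + (b : ℤ) * N2 ≤ y))
    have h7 := card_image_le (s := (Icc 1 h).filter (fun n : ℕ => ∀ p ∈ pz y, ¬ Q p n)) (f := fun n => l + n)
    have h8 := hsmallset G1 N1 hN1
    have h9 := hsmallset G2 N2 hN2
    have h10 : ((Ioc l (l + h)).filter (fun b : ℕ => (G1 + (b : ℤ) * N1).toNat.Prime ∧ (G2 + (b : ℤ) * N2).toNat.Prime)).card ≤
      ((Icc 1 h).filter (fun n : ℕ => ∀ p ∈ pz y, ¬ Q p n)).card + 2 * y := by omega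
    exact_mod_cast h10
  -- product
  have hprod : ∏ p ∈ pz y, (1 - (nuB Q p : ℝ) / p) ≤ (VV y)⁻¹ ^ 2 * gg 0 m := by
    have h3 : ∀ p ∈ pz y, 1 - (nuB Q p : ℝ) / p ≤ (((1 - (p : ℝ)⁻¹)⁻¹)⁻¹) ^ 2 * (if p ∣ m then (1 - (p : ℝ)⁻¹)⁻¹ else 1) := by
      intro p hp
      have hp2 := (mem_pz.1 hp).2
      obtain ⟨-, h4, h5⟩ := pairL_nu hp2 _ _ N1 N2 (hndvd p hp2) hG1' hG2'
      rw [hdel', ← hmdef] at h5
      rw [← hQ] at h4 h5
      have hpr : (2 : ℝ) ≤ p := by exact_mod_cast hp2.two_le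
      have hf := fac_pos hp2.two_le
      rw [inv_inv]
      split_ifs with hpm
      · have h6 : (1 - (p : ℝ)⁻¹) ^ 2 * (1 - (p : ℝ)⁻¹)⁻¹ = 1 - (p : ℝ)⁻¹ := by field_simp
        rw [h6]
        have h7 : (1 : ℝ) ≤ nuB Q p := by exact_mod_cast h4
        have h8 : (p : ℝ)⁻¹ ≤ (nuB Q p : ℝ) / p := by
          rw [inv_eq_one_div]
          gcongr
        linarith
      · rw [h5 hpm, mul_one]
        have h8 : ((2 : ℕ) : ℝ) / p = 2 * (p : ℝ)⁻¹ := by push_cast; ring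
        rw [h8]
        nlinarith [sq_nonneg ((p : ℝ)⁻¹)]
    have h4 : ∀ p ∈ pz y, 0 ≤ 1 - (nuB Q p : ℝ) / p := by
      intro p hp
      have hp2 := (mem_pz.1 hp).2
      have hpr : (0 : ℝ) < p := by exact_mod_cast hp2.pos
      have : (nuB Q p : ℝ) / p ≤ 1 := by
        rw [div_le_one hpr]
        exact_mod_cast nuB_le Q p
      linarith
    refine (prod_le_prod h4 h3).trans ?_
    rw [prod_mul_distrib, prod_pow, prod_inv_distrib, ← VV_def]
    refine mul_le_mul_of_nonneg_left ?_ (by positivity)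
    rw [← prod_filter]
    unfold gg
    refine prod_le_prod_sub ?_ fun p hp => pf_two (mem_filter.1 hp).1
    intro p hp
    rw [mem_filter, mem_pz] at hp
    rw [mem_filter, Nat.mem_primeFactors]
    exact ⟨⟨hp.1.2, hp.2, hm.ne'⟩, hp.1.2.pos⟩
  have hg1 := one_le_gg 0 m
  have hhr : (0 : ℝ) ≤ h := Nat.cast_nonneg h
  have hV : Real.log h * (c / (4 * K)) ≤ VV y := by
    have h3 := (hVV y).1
    have h4 : Real.log y ≤ Real.log ((y : ℝ) + 2) := Real.log_le_log hy0 (by linarith)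
    calc Real.log h * (c / (4 * K)) ≤ 4 * K * Real.log y * (c / (4 * K)) :=
          mul_le_mul_of_nonneg_right hLy (by positivity)
      _ = c * Real.log y := by field_simp
      _ ≤ c * Real.log ((y : ℝ) + 2) := mul_le_mul_of_nonneg_left h4 hc.le
      _ ≤ VV y := h3
  have hVinv : (VV y)⁻¹ ≤ 4 * K / c * (Real.log h)⁻¹ := by
    have h3 : 4 * K / c * (Real.log h)⁻¹ = (Real.log h * (c / (4 * K)))⁻¹ := by
      rw [mul_inv, inv_div, mul_comm]
    rw [h3]
    exact inv_anti₀ (by positivity) hV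
  have hV0 : 0 ≤ (VV y)⁻¹ := by
    have := one_le_VV y
    positivity
  have hV2 : (VV y)⁻¹ ^ 2 ≤ (4 * K / c) ^ 2 / Real.log h ^ 2 := by
    calc (VV y)⁻¹ ^ 2 ≤ (4 * K / c * (Real.log h)⁻¹) ^ 2 := pow_le_pow_left₀ hV0 hVinv 2
      _ = _ := by rw [mul_pow, inv_pow, div_eq_mul_inv ((4 * K / c) ^ 2)]
  have hquart : (h : ℝ) ^ (1 / 4 : ℝ) ≤ (h : ℝ) ^ (1 / 2 : ℝ) := by
    refine Real.rpow_le_rpow_of_exponent_le ?_ (by norm_num)
    have : 1 ≤ h := by
      by_contra hcon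
      have : h = 0 := by omega
      rw [this] at hL0
      simp at hL0
    exact_mod_cast this
  have herr : (h : ℝ) ^ (1 / 4 : ℝ) + 2 * y ≤ h / Real.log h ^ 2 := by
    rw [le_div_iff₀ (by positivity)]
    have h3 : (h : ℝ) ^ (1 / 4 : ℝ) + 2 * y ≤ 4 * (h : ℝ) ^ (1 / 2 : ℝ) := by
      have : (0 : ℝ) ≤ (h : ℝ) ^ (1 / 2 : ℝ) := by positivity
      linarith
    calc ((h : ℝ) ^ (1 / 4 : ℝ) + 2 * y) * Real.log h ^ 2 ≤ (4 * (h : ℝ) ^ (1 / 2 : ℝ)) * Real.log h ^ 2 :=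
          mul_le_mul_of_nonneg_right h3 (by positivity)
      _ ≤ h := by linarith
  calc (((Ioc l (l + h)).filter (fun b : ℕ => (G1 + (b : ℤ) * N1).toNat.Prime ∧ (G2 + (b : ℤ) * N2).toNat.Prime)).card : ℝ)
      ≤ (((Icc 1 h).filter (fun n : ℕ => ∀ p ∈ pz y, ¬ Q p n)).card : ℝ) + 2 * y := htr
    _ ≤ 2 * (h * ∏ p ∈ pz y, (1 - (nuB Q p : ℝ) / p)) + (h : ℝ) ^ (1 / 4 : ℝ) + 2 * y := by linarith
    _ ≤ 2 * (h * ((4 * K / c) ^ 2 / Real.log h ^ 2 * gg 0 m)) + h / Real.log h ^ 2 := by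
        have h3 : ∏ p ∈ pz y, (1 - (nuB Q p : ℝ) / p) ≤ (4 * K / c) ^ 2 / Real.log h ^ 2 * gg 0 m :=
          hprod.trans (mul_le_mul_of_nonneg_right hV2 (by linarith))
        have h4 := mul_le_mul_of_nonneg_left h3 hhr
        linarith
    _ ≤ 2 * (h * ((4 * K / c) ^ 2 / Real.log h ^ 2 * gg 0 m)) + h / Real.log h ^ 2 * gg 0 m := by
        have h3 : h / Real.log h ^ 2 * 1 ≤ h / Real.log h ^ 2 * gg 0 m :=
          mul_le_mul_of_nonneg_left hg1 (by positivity)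
        linarith
    _ = (2 * (4 * K / c) ^ 2 + 1) * (h / Real.log h ^ 2) * gg 0 m := by ring


open Classical in
lemma oneL_nu {p : ℕ} (hp : p.Prime) (G : ℤ) (N : ℕ) (h1 : IsCoprime G (N : ℤ)) :
    nuB (fun p n => (p : ℤ) ∣ G + (n : ℤ) * N) p ≤ 1 ∧
    (¬ p ∣ N → nuB (fun p n => (p : ℤ) ∣ G + (n : ℤ) * N) p = 1) := by
  have hpi : Prime (p : ℤ) := Nat.prime_iff_prime_int.1 hp
  have hnu : nuB (fun p n => (p : ℤ) ∣ G + (n : ℤ) * N) p =
      ((range p).filter (fun n : ℕ => (p : ℤ) ∣ G + (n : ℤ) * N)).card := by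
    unfold nuB
    refine congrArg Finset.card ?_
    ext x
    simp only [mem_filter]
  rw [hnu]
  by_cases hd1 : p ∣ N
  · rw [filter_false_of_mem, card_empty]
    · exact ⟨by norm_num, fun h => absurd hd1 h⟩
    · intro x _ hx
      have hpN' : (p : ℤ) ∣ (N : ℤ) := Int.natCast_dvd_natCast.2 hd1
      have h3 : (p : ℤ) ∣ G := (dvd_add_left (Dvd.dvd.mul_left hpN' _)).1 hx
      exact hpi.not_isUnit (h1.isUnit_of_dvd' h3 hpN')
  · obtain ⟨r, hr, hr2⟩ := cls_lin hp G hd1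
    have hset : (range p).filter (fun n : ℕ => (p : ℤ) ∣ G + (n : ℤ) * N) = {r} := by
      ext x
      rw [mem_filter, mem_range, mem_singleton]
      constructor
      · rintro ⟨hx, h⟩
        exact (hr2 x hx).1 h
      · rintro rfl
        exact ⟨hr, (hr2 x hr).2 rfl⟩
    rw [hset, card_singleton]
    exact ⟨le_rfl, fun _ => rfl⟩

open Classical in
/-- **One form.** -/
theorem oneL : ∃ C : ℝ, ∃ h0 : ℕ, 0 < C ∧ ∀ h l N : ℕ, ∀ G : ℤ, h0 ≤ h → 0 < N → IsCoprime G (N : ℤ) →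
    ((((Ioc l (l + h)).filter (fun b : ℕ => (G + (b : ℤ) * N).toNat.Prime)).card : ℕ) : ℝ) ≤
      C * (h / Real.log h) * gg 0 N := by
  obtain ⟨K, x0, hK, hsieve⟩ := sieve_up 1 (by norm_num)
  obtain ⟨h1, hlevel⟩ := level K x0 hK
  obtain ⟨c, C1, hc, hC1, hVV⟩ := VV_bounds
  have hKr : (1 : ℝ) ≤ K := by exact_mod_cast hK
  obtain ⟨h2, hsmall⟩ : ∃ h2 : ℕ, ∀ h : ℕ, h2 ≤ h → Real.log h * (4 * (h : ℝ) ^ (1 / 2 : ℝ)) ≤ h := by
    have h3 : (fun x : ℝ => Real.log x) =o[atTop] (fun x : ℝ => x ^ (1 / 2 : ℝ)) :=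
      isLittleO_log_rpow_atTop (by norm_num)
    have h4 := (tendsto_natCast_atTop_atTop.eventually (h3.bound (show (0 : ℝ) < 1 / 4 by norm_num))).and
      (eventually_ge_atTop 1)
    obtain ⟨h2, hh2⟩ := eventually_atTop.1 h4
    refine ⟨h2, fun h hh => ?_⟩
    obtain ⟨h5, h6⟩ := hh2 h hh
    have h6r : (1 : ℝ) ≤ h := by exact_mod_cast h6
    rw [Real.norm_eq_abs, Real.norm_eq_abs, abs_of_nonneg (Real.log_nonneg h6r), abs_of_nonneg (by positivity)] at h5
    have h7 : (h : ℝ) ^ (1 / 2 : ℝ) * (h : ℝ) ^ (1 / 2 : ℝ) = h := by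
      rw [← Real.rpow_add (by exact_mod_cast h6)]
      norm_num
    have h8 : 0 ≤ (h : ℝ) ^ (1 / 2 : ℝ) := by positivity
    nlinarith
  refine ⟨2 * (4 * K / c) + 1, max h1 h2, by positivity, fun h l N G hh hN hG => ?_⟩
  obtain ⟨y, hxy, hy4, hyK, -, hysq, hL0, hLy⟩ := hlevel h (le_trans (le_max_left _ _) hh)
  have hsm := hsmall h (le_trans (le_max_right _ _) hh)
  obtain ⟨Q, hQ⟩ : ∃ Q : ℕ → ℕ → Prop, Q = fun (p n : ℕ) => (p : ℤ) ∣ (G + l * N) + (n : ℤ) * N := ⟨_, rfl⟩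
  have hG1' : IsCoprime (G + l * N) (N : ℤ) := hG.add_mul_right_left _
  have hper : PerB Q 1 := by
    refine ⟨fun p n => ?_, fun p hp => ?_⟩
    · rw [hQ]
      simp only
      rw [lin_mod]
    · rw [hQ]
      exact (oneL_nu hp _ N hG1').1
  have hsv := hsieve h y hxy hyK Q hper
  have hy0 : (0 : ℝ) < y := by exact_mod_cast (by omega : 0 < y)
  have htr : (((Ioc l (l + h)).filter (fun b : ℕ => (G + (b : ℤ) * N).toNat.Prime)).card : ℝ) ≤
      (((Icc 1 h).filter (fun n : ℕ => ∀ p ∈ pz y, ¬ Q p n)).card : ℝ) + y := by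
    have hsm1 : ((Ioc l (l + h)).filter (fun b : ℕ => 0 < G + (b : ℤ) * N ∧ G + (b : ℤ) * N ≤ y)).card ≤ y := by
      have h3 : ((Ioc l (l + h)).filter (fun b : ℕ => 0 < G + (b : ℤ) * N ∧ G + (b : ℤ) * N ≤ y)).card ≤ (Icc 1 y).card := by
        refine card_le_card_of_injOn (fun b : ℕ => (G + (b : ℤ) * N).toNat) ?_ ?_
        · intro b hb
          rw [Finset.mem_coe, mem_filter] at hb
          rw [Finset.mem_coe, mem_Icc]
          simp only
          omega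
        · intro b hb b' hb' hbb
          rw [Finset.mem_coe, mem_filter] at hb hb'
          simp only at hbb
          have h4 : G + (b : ℤ) * N = G + (b' : ℤ) * N := by
            have h5 := Int.toNat_of_nonneg hb.2.1.le
            have h6 := Int.toNat_of_nonneg hb'.2.1.le
            rw [← h5, ← h6, hbb]
          have h5 : (b : ℤ) * N = (b' : ℤ) * N := by linarith
          have h6 := mul_right_cancel₀ (by exact_mod_cast hN.ne') h5
          exact_mod_cast h6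
      rwa [Nat.card_Icc, Nat.add_sub_cancel] at h3
    have h3 : (Ioc l (l + h)).filter (fun b : ℕ => (G + (b : ℤ) * N).toNat.Prime) ⊆
        ((Icc 1 h).filter (fun n : ℕ => ∀ p ∈ pz y, ¬ Q p n)).image (fun n => l + n) ∪
        (Ioc l (l + h)).filter (fun b : ℕ => 0 < G + (b : ℤ) * N ∧ G + (b : ℤ) * N ≤ y) := by
      intro b hb
      rw [mem_filter] at hb
      rw [mem_union, mem_image, mem_filter]
      have hb1 := hb.2.pos
      have hv1 : 0 < G + (b : ℤ) * N := by omega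
      by_cases h5 : G + (b : ℤ) * N ≤ y
      · exact Or.inr ⟨hb.1, hv1, h5⟩
      have hbI := mem_Ioc.1 hb.1
      refine Or.inl ⟨b - l, ?_, by omega⟩
      rw [mem_filter, mem_Icc]
      refine ⟨⟨by omega, by omega⟩, fun p hp => ?_⟩
      rw [mem_pz] at hp
      rw [hQ]
      simp only
      have e0 : ((b - l : ℕ) : ℤ) = (b : ℤ) - l := by omega
      have e1 : G + (l : ℤ) * N + ((b - l : ℕ) : ℤ) * N = G + (b : ℤ) * N := by rw [e0]; ring
      rw [e1]
      intro hpv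
      have h8 : p ∣ (G + (b : ℤ) * N).toNat := by
        rw [← Int.natCast_dvd_natCast, Int.toNat_of_nonneg hv1.le]
        exact hpv
      have h9 := (Nat.prime_dvd_prime_iff_eq hp.2 hb.2).1 h8
      omega
    have h4 := card_le_card h3
    have h5 := card_union_le (((Icc 1 h).filter (fun n : ℕ => ∀ p ∈ pz y, ¬ Q p n)).image (fun n => l + n))
      ((Ioc l (l + h)).filter (fun b : ℕ => 0 < G + (b : ℤ) * N ∧ G + (b : ℤ) * N ≤ y))
    have h7 := card_image_le (s := (Icc 1 h).filter (fun n : ℕ => ∀ p ∈ pz y, ¬ Q p n)) (f := fun n => l + n)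
    have h10 : ((Ioc l (l + h)).filter (fun b : ℕ => (G + (b : ℤ) * N).toNat.Prime)).card ≤
      ((Icc 1 h).filter (fun n : ℕ => ∀ p ∈ pz y, ¬ Q p n)).card + y := by omega
    exact_mod_cast h10
  have hprod : ∏ p ∈ pz y, (1 - (nuB Q p : ℝ) / p) ≤ (VV y)⁻¹ * gg 0 N := by
    have h3 : ∀ p ∈ pz y, 1 - (nuB Q p : ℝ) / p ≤ ((1 - (p : ℝ)⁻¹)⁻¹)⁻¹ * (if p ∣ N then (1 - (p : ℝ)⁻¹)⁻¹ else 1) := by
      intro p hp
      have hp2 := (mem_pz.1 hp).2
      obtain ⟨-, h5⟩ := oneL_nu hp2 _ N hG1'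
      rw [← hQ] at h5
      have hf := fac_pos hp2.two_le
      rw [inv_inv]
      split_ifs with hpm
      · rw [mul_inv_cancel₀ hf.ne']
        have : (0 : ℝ) ≤ (nuB Q p : ℝ) / p := by positivity
        linarith
      · rw [h5 hpm, mul_one]
        have h8 : ((1 : ℕ) : ℝ) / p = (p : ℝ)⁻¹ := by push_cast; ring
        rw [h8]
    have h4 : ∀ p ∈ pz y, 0 ≤ 1 - (nuB Q p : ℝ) / p := by
      intro p hp
      have hp2 := (mem_pz.1 hp).2
      have hpr : (0 : ℝ) < p := by exact_mod_cast hp2.pos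
      have : (nuB Q p : ℝ) / p ≤ 1 := by
        rw [div_le_one hpr]
        exact_mod_cast nuB_le Q p
      linarith
    refine (prod_le_prod h4 h3).trans ?_
    rw [prod_mul_distrib, prod_inv_distrib, ← VV_def]
    refine mul_le_mul_of_nonneg_left ?_ (inv_nonneg.2 (zero_le_one.trans (one_le_VV y)))
    rw [← prod_filter]
    unfold gg
    refine prod_le_prod_sub ?_ fun p hp => pf_two (mem_filter.1 hp).1
    intro p hp
    rw [mem_filter, mem_pz] at hp
    rw [mem_filter, Nat.mem_primeFactors]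
    exact ⟨⟨hp.1.2, hp.2, hN.ne'⟩, hp.1.2.pos⟩
  have hg1 := one_le_gg 0 N
  have hhr : (0 : ℝ) ≤ h := Nat.cast_nonneg h
  have hV : Real.log h * (c / (4 * K)) ≤ VV y := by
    have h3 := (hVV y).1
    have h4 : Real.log y ≤ Real.log ((y : ℝ) + 2) := Real.log_le_log hy0 (by linarith)
    calc Real.log h * (c / (4 * K)) ≤ 4 * K * Real.log y * (c / (4 * K)) :=
          mul_le_mul_of_nonneg_right hLy (by positivity)
      _ = c * Real.log y := by field_simp
      _ ≤ c * Real.log ((y : ℝ) + 2) := mul_le_mul_of_nonneg_left h4 hc.le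
      _ ≤ VV y := h3
  have hVinv : (VV y)⁻¹ ≤ 4 * K / c * (Real.log h)⁻¹ := by
    have h3 : 4 * K / c * (Real.log h)⁻¹ = (Real.log h * (c / (4 * K)))⁻¹ := by
      rw [mul_inv, inv_div, mul_comm]
    rw [h3]
    exact inv_anti₀ (by positivity) hV
  have hquart : (h : ℝ) ^ (1 / 4 : ℝ) ≤ (h : ℝ) ^ (1 / 2 : ℝ) := by
    refine Real.rpow_le_rpow_of_exponent_le ?_ (by norm_num)
    have : 1 ≤ h := by
      by_contra hcon
      have : h = 0 := by omega
      rw [this] at hL0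
      simp at hL0
    exact_mod_cast this
  have herr : (h : ℝ) ^ (1 / 4 : ℝ) + y ≤ h / Real.log h := by
    rw [le_div_iff₀ hL0]
    have h3 : (h : ℝ) ^ (1 / 4 : ℝ) + y ≤ 4 * (h : ℝ) ^ (1 / 2 : ℝ) := by
      have : (0 : ℝ) ≤ (h : ℝ) ^ (1 / 2 : ℝ) := by positivity
      linarith
    calc ((h : ℝ) ^ (1 / 4 : ℝ) + y) * Real.log h ≤ (4 * (h : ℝ) ^ (1 / 2 : ℝ)) * Real.log h :=
          mul_le_mul_of_nonneg_right h3 hL0.le
      _ ≤ h := by linarith
  calc (((Ioc l (l + h)).filter (fun b : ℕ => (G + (b : ℤ) * N).toNat.Prime)).card : ℝ)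
      ≤ (((Icc 1 h).filter (fun n : ℕ => ∀ p ∈ pz y, ¬ Q p n)).card : ℝ) + y := htr
    _ ≤ 2 * (h * ∏ p ∈ pz y, (1 - (nuB Q p : ℝ) / p)) + (h : ℝ) ^ (1 / 4 : ℝ) + y := by linarith
    _ ≤ 2 * (h * (4 * K / c * (Real.log h)⁻¹ * gg 0 N)) + h / Real.log h := by
        have h3 : ∏ p ∈ pz y, (1 - (nuB Q p : ℝ) / p) ≤ 4 * K / c * (Real.log h)⁻¹ * gg 0 N :=
          hprod.trans (mul_le_mul_of_nonneg_right hVinv (by linarith))
        have h4 := mul_le_mul_of_nonneg_left h3 hhr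
        linarith
    _ ≤ 2 * (h * (4 * K / c * (Real.log h)⁻¹ * gg 0 N)) + h / Real.log h * gg 0 N := by
        have h3 : h / Real.log h * 1 ≤ h / Real.log h * gg 0 N :=
          mul_le_mul_of_nonneg_left hg1 (by positivity)
        linarith
    _ = (2 * (4 * K / c) + 1) * (h / Real.log h) * gg 0 N := by ring

end Pool.Agent.Q160.GQ
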