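import Mathlib
import Pool.Agent.Q160.GQ2
import Pool.Agent.W218.PF.GmomP

set_option autoImplicit false

/-!
# Moments along primes for the determinants `g(n) m ^ e - g(m) n ^ e`
-/

namespace Pool.Agent.Q160.GQ

open Finset Filter
open Pool.Agent.H373R2.T7
open Pool.Agent.H305R2 (VV VV_tendsto)
open Pool.Agent.Q160.GK
open Pool.Agent.Q160.GP (tail_pow prod_union_le gg_pow_le)

/-- the greatest common divisor of the coefficients -/
def cz (g : Polynomial ℤ) : ℕ := g.support.gcd (fun j => (g.coeff j).natAbs)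

lemma cz_dvd_coeff (g : Polynomial ℤ) (j : ℕ) : (cz g : ℤ) ∣ g.coeff j := by
  by_cases h : j ∈ g.support
  · exact Int.dvd_natAbs.1 (Int.natCast_dvd_natCast.2 (Finset.gcd_dvd h))
  · rw [Polynomial.notMem_support_iff.1 h]
    exact dvd_zero _

lemma cz_dvd_eval (g : Polynomial ℤ) (x : ℤ) : (cz g : ℤ) ∣ g.eval x := by
  rw [Polynomial.eval_eq_sum_range]
  exact Finset.dvd_sum fun j _ => Dvd.dvd.mul_right (cz_dvd_coeff g j) _

lemma cz_pos {g : Polynomial ℤ} (hg : g ≠ 0) : 0 < cz g := by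
  rcases Nat.eq_zero_or_pos (cz g) with h | h
  · exfalso
    apply hg
    ext j
    have h1 := cz_dvd_coeff g j
    rw [h] at h1
    rw [Polynomial.coeff_zero]
    exact zero_dvd_iff.1 (by exact_mod_cast h1)
  · exact h

/-- the determinant of the pair `n, m` -/
def dt (g : Polynomial ℤ) (e : ℕ) (n m : ℕ) : ℤ := g.eval (n : ℤ) * (m : ℤ) ^ e - g.eval (m : ℤ) * (n : ℤ) ^ e

/-- modulo a prime not dividing the content, `dt g e n` has few zeros -/
lemma card_roots_dt {g : Polynomial ℤ} {e d : ℕ} (hge : g.coeff e = 0) (hd : g.natDegree ≤ d) (hed : e ≤ d)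
    {p n : ℕ} (hp : p.Prime) (hpc : ¬ p ∣ cz g) (hpn : p ∣ n → ¬ (p : ℤ) ∣ g.eval (n : ℤ)) :
    ((range p).filter (fun r : ℕ => (p : ℤ) ∣ dt g e n r)).card ≤ d := by
  classical
  haveI : Fact p.Prime := ⟨hp⟩
  obtain ⟨a, ha⟩ : ∃ a : ZMod p, a = ((g.eval (n : ℤ) : ℤ) : ZMod p) := ⟨_, rfl⟩
  obtain ⟨F, hF⟩ : ∃ F : Polynomial (ZMod p), F = g.map (Int.castRingHom (ZMod p)) := ⟨_, rfl⟩
  obtain ⟨H, hH⟩ : ∃ H : Polynomial (ZMod p), H = Polynomial.C a * Polynomial.X ^ e -
      Polynomial.C ((n : ZMod p) ^ e) * F := ⟨_, rfl⟩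
  have hev : ∀ r : ℕ, H.eval (r : ZMod p) = ((dt g e n r : ℤ) : ZMod p) := by
    intro r
    have h1 : F.eval (r : ZMod p) = ((g.eval (r : ℤ) : ℤ) : ZMod p) := by
      rw [hF, Polynomial.eval_natCast_map]
      simp
    rw [hH, Polynomial.eval_sub, Polynomial.eval_mul, Polynomial.eval_mul, Polynomial.eval_C, Polynomial.eval_C,
      Polynomial.eval_pow, Polynomial.eval_X, h1, ha]
    unfold dt
    push_cast
    ring
  have hH0 : H ≠ 0 := by
    intro h
    by_cases hpn2 : p ∣ n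
    · -- the coefficient of `X ^ e`
      have h1 : H.coeff e = a := by
        rw [hH, Polynomial.coeff_sub, Polynomial.coeff_C_mul, Polynomial.coeff_C_mul, Polynomial.coeff_X_pow, if_pos rfl,
          mul_one, hF, Polynomial.coeff_map, hge, map_zero, mul_zero, sub_zero]
      rw [h, Polynomial.coeff_zero] at h1
      apply hpn hpn2
      rw [← ZMod.intCast_zmod_eq_zero_iff_dvd, ← ha]
      exact h1.symm
    · apply hpc
      unfold cz
      refine Finset.dvd_gcd fun j hj => ?_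
      have hje : j ≠ e := by
        rintro rfl
        exact (Polynomial.mem_support_iff.1 hj) hge
      have h1 : H.coeff j = -((n : ZMod p) ^ e * ((g.coeff j : ℤ) : ZMod p)) := by
        rw [hH, Polynomial.coeff_sub, Polynomial.coeff_C_mul, Polynomial.coeff_C_mul, Polynomial.coeff_X_pow, if_neg hje,
          mul_zero, zero_sub, hF, Polynomial.coeff_map]
        rfl
      rw [h, Polynomial.coeff_zero] at h1
      have h2 : (n : ZMod p) ≠ 0 := by
        intro h3
        exact hpn2 ((ZMod.natCast_eq_zero_iff _ _).1 h3)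
      have h3 : (n : ZMod p) ^ e * ((g.coeff j : ℤ) : ZMod p) = 0 := neg_eq_zero.1 h1.symm
      rcases mul_eq_zero.1 h3 with h4 | h4
      · exact absurd h4 (pow_ne_zero _ h2)
      · have h5 := (ZMod.intCast_zmod_eq_zero_iff_dvd _ _).1 h4
        exact Int.natCast_dvd.1 h5
  calc ((range p).filter (fun r : ℕ => (p : ℤ) ∣ dt g e n r)).card
      = (((range p).filter (fun r : ℕ => (p : ℤ) ∣ dt g e n r)).image (fun r : ℕ => (r : ZMod p))).card := by
        rw [card_image_of_injOn]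
        intro a ha b hb hab
        rw [Finset.mem_coe, mem_filter, mem_range] at ha hb
        have h1 := (ZMod.natCast_eq_natCast_iff' _ _ _).1 hab
        rwa [Nat.mod_eq_of_lt ha.1, Nat.mod_eq_of_lt hb.1] at h1
    _ ≤ H.roots.toFinset.card := by
        apply card_le_card
        intro z hz
        rw [mem_image] at hz
        obtain ⟨r, hr, rfl⟩ := hz
        rw [mem_filter] at hr
        rw [Multiset.mem_toFinset, Polynomial.mem_roots hH0, Polynomial.IsRoot.def, hev, ZMod.intCast_zmod_eq_zero_iff_dvd]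
        exact hr.2
    _ ≤ H.natDegree := (Multiset.toFinset_card_le _).trans (Polynomial.card_roots' H)
    _ ≤ d := by
        rw [hH]
        refine (Polynomial.natDegree_sub_le _ _).trans (max_le ?_ ?_)
        · exact (Polynomial.natDegree_C_mul_X_pow_le _ _).trans hed
        · refine (Polynomial.natDegree_C_mul_le _ _).trans ?_
          rw [hF]
          exact Polynomial.natDegree_map_le.trans hd

lemma dt_mod (g : Polynomial ℤ) (e n m p : ℕ) : (p : ℤ) ∣ dt g e n (m % p) ↔ (p : ℤ) ∣ dt g e n m := by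
  have h1 : ((m : ℤ) - ((m % p : ℕ) : ℤ)) ∣ g.eval (m : ℤ) - g.eval ((m % p : ℕ) : ℤ) := Polynomial.sub_dvd_eval_sub _ _ _
  have h2 : (p : ℤ) ∣ (m : ℤ) - ((m % p : ℕ) : ℤ) := by
    rw [Int.natCast_mod]
    exact Int.dvd_self_sub_emod
  have h3 : ((m : ℤ) - ((m % p : ℕ) : ℤ)) ∣ (m : ℤ) ^ e - ((m % p : ℕ) : ℤ) ^ e := sub_dvd_pow_sub_pow _ _ _
  have h4 : (p : ℤ) ∣ dt g e n m - dt g e n (m % p) := by
    have h5 : dt g e n m - dt g e n (m % p) = g.eval (n : ℤ) * ((m : ℤ) ^ e - ((m % p : ℕ) : ℤ) ^ e) -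
        (g.eval (m : ℤ) - g.eval ((m % p : ℕ) : ℤ)) * (n : ℤ) ^ e := by
      unfold dt
      ring
    rw [h5]
    exact dvd_sub (Dvd.dvd.mul_left (h2.trans h3) _) (Dvd.dvd.mul_right (h2.trans h1) _)
  constructor
  · intro h
    have := dvd_add h4 h
    rwa [sub_add_cancel] at this
  · intro h
    have := dvd_sub h h4
    rwa [sub_sub_cancel] at this

/-- the number of arguments with `∏ T'` dividing the determinant -/
lemma card_divT {g : Polynomial ℤ} {e d : ℕ} (hge : g.coeff e = 0) (hd : g.natDegree ≤ d) (hed : e ≤ d)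
    (T : Finset ℕ) (T' : Finset ℕ) (n : ℕ)
    (hT : ∀ p ∈ T', p.Prime ∧ ¬ p ∣ cz g) (hn : ∀ p : ℕ, p.Prime → p ∣ n → ¬ (p : ℤ) ∣ g.eval (n : ℤ)) (F : ℝ)
    (hF0 : 0 ≤ F) (hF : ∀ r : ℕ, ((T.filter (fun m => m % (∏ p ∈ T', p) = r)).card : ℝ) ≤ F) :
    ((T.filter (fun m => (∏ p ∈ T', p) ∣ (dt g e n m).natAbs)).card : ℝ) ≤ (d : ℝ) ^ T'.card * F := by
  classical
  obtain ⟨R, hR⟩ : ∃ R : ℕ → Finset ℕ, R = fun p => (range p).filter (fun r : ℕ => (p : ℤ) ∣ dt g e n r) := ⟨_, rfl⟩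
  obtain ⟨S, hS⟩ : ∃ S, S = T.filter (fun m => (∏ p ∈ T', p) ∣ (dt g e n m).natAbs) := ⟨_, rfl⟩
  rw [← hS]
  have hRd : ∀ p ∈ T', (R p).card ≤ d := fun p hp => by
    rw [hR]
    exact card_roots_dt hge hd hed (hT p hp).1 (hT p hp).2 (hn p (hT p hp).1)
  have hmaps : ∀ m ∈ S, (fun p (_ : p ∈ T') => m % p) ∈ T'.pi R := by
    intro m hm
    rw [hS, mem_filter] at hm
    rw [Finset.mem_pi]
    intro p hp
    rw [hR]
    simp only [mem_filter, mem_range]
    refine ⟨Nat.mod_lt _ (hT p hp).1.pos, ?_⟩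
    rw [dt_mod]
    have h1 : p ∣ (dt g e n m).natAbs := (Finset.dvd_prod_of_mem _ hp).trans hm.2
    exact Int.natCast_dvd.2 h1
  have hfib : ∀ b ∈ T'.pi R, ((S.filter (fun m => (fun p (_ : p ∈ T') => m % p) = b)).card : ℝ) ≤ F := by
    intro b _
    rcases (S.filter (fun m => (fun p (_ : p ∈ T') => m % p) = b)).eq_empty_or_nonempty with h | ⟨m0, hm0⟩
    · rw [h, card_empty, Nat.cast_zero]
      exact hF0
    · have h1 : S.filter (fun m => (fun p (_ : p ∈ T') => m % p) = b) ⊆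
          T.filter (fun m => m % (∏ p ∈ T', p) = m0 % (∏ p ∈ T', p)) := by
        intro m hm
        rw [mem_filter] at hm hm0 ⊢
        refine ⟨by have := hm.1; rw [hS] at this; exact (mem_filter.1 this).1, ?_⟩
        have h4 : (∏ p ∈ T', p) ∣ GP.dn m m0 := by
          refine Finset.prod_primes_dvd _ (fun p hp => (hT p hp).1.prime) fun p hp => ?_
          rw [GP.dvd_dn]
          have h2 : m % p = b p hp := congrFun (congrFun hm.2 p) hp
          have h3 : m0 % p = b p hp := congrFun (congrFun hm0.2 p) hp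
          rw [Nat.ModEq, h2, h3]
        exact GP.dvd_dn.1 h4
      exact le_trans (by exact_mod_cast card_le_card h1) (hF _)
  have hsum : (S.card : ℝ) = ∑ b ∈ T'.pi R, ((S.filter (fun m => (fun p (_ : p ∈ T') => m % p) = b)).card : ℝ) := by
    rw [Finset.card_eq_sum_card_fiberwise (f := fun m => (fun p (_ : p ∈ T') => m % p)) (t := T'.pi R) hmaps]
    push_cast
    rfl
  rw [hsum]
  calc _ ≤ ∑ _b ∈ T'.pi R, F := Finset.sum_le_sum hfib
    _ = ((T'.pi R).card : ℝ) * F := by rw [sum_const, nsmul_eq_mul]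
    _ ≤ (d : ℝ) ^ T'.card * F := by
        refine mul_le_mul_of_nonneg_right ?_ hF0
        rw [Finset.card_pi]
        have h1 : ∏ p ∈ T', (R p).card ≤ d ^ T'.card := Finset.prod_le_pow_card _ _ _ hRd
        exact_mod_cast h1

end Pool.Agent.Q160.GQ
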