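import Mathlib
import Pool.Agent.Q160.GQ3

set_option autoImplicit false

/-!
# The moment bound along primes
-/

namespace Pool.Agent.Q160.GQ

open Finset Filter
open Pool.Agent.H373R2.T7
open Pool.Agent.H305R2 (VV VV_tendsto)
open Pool.Agent.Q160.GK
open Pool.Agent.Q160.GP (tail_pow prod_union_le gg_pow_le)

/-- primes in a residue class modulo a product of primes -/
lemma class_bound {y : ℕ} (hy : 2 ≤ y) (T T' : Finset ℕ) (hT : T ⊆ (Icc 1 y).filter Nat.Prime)
    (hT' : ∀ p ∈ T', p.Prime) (r : ℕ) :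
    ((T.filter (fun m => m % (∏ p ∈ T', p) = r)).card : ℝ) ≤
      80 * (y / Real.log y) * ∏ p ∈ T', (2 / (p : ℝ)) + 2 * √y := by
  classical
  have hyr : (2 : ℝ) ≤ y := by exact_mod_cast hy
  have hly : 0 < Real.log y := Real.log_pos (by linarith)
  obtain ⟨t, ht⟩ : ∃ t, t = ∏ p ∈ T', p := ⟨_, rfl⟩
  have ht0 : 0 < t := by
    rw [ht]
    exact Finset.prod_pos fun p hp => (hT' p hp).pos
  have htr : (0 : ℝ) < t := by exact_mod_cast ht0
  have hsq0 : 0 ≤ √(y : ℝ) := Real.sqrt_nonneg _
  have hsq1 : 1 ≤ √(y : ℝ) := by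
    rw [Real.one_le_sqrt]
    linarith
  have hprod0 : 0 ≤ ∏ p ∈ T', (2 / (p : ℝ)) := prod_nonneg fun p _ => by positivity
  rw [← ht]
  by_cases hty : t ^ 2 ≤ y
  · have h1 := Pool.Agent.W218.PF.bt_class (X := y) (q := t) (r := r) hy ht0 hty
    have h2 : T.filter (fun m => m % t = r) ⊆ (Icc 1 y).filter (fun m : ℕ => m.Prime ∧ m % t = r) := by
      intro m hm
      rw [mem_filter] at hm ⊢
      have := hT hm.1
      rw [mem_filter] at this
      exact ⟨this.1, this.2, hm.2⟩
    have h3 : ((T.filter (fun m => m % t = r)).card : ℝ) ≤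
        (((Icc 1 y).filter (fun m : ℕ => m.Prime ∧ m % t = r)).card : ℝ) := by exact_mod_cast card_le_card h2
    have hpf : t.primeFactors = T' := by
      rw [ht]
      exact Nat.primeFactors_prod hT'
    have h4 : Pool.Agent.Erdos456.GG t ≤ 2 ^ T'.card := by
      rw [Pool.Agent.Erdos456.GG_eq_prod ht0, hpf]
      calc ∏ p ∈ T', (1 - (p : ℝ)⁻¹)⁻¹ ≤ ∏ _p ∈ T', (2 : ℝ) := by
            refine prod_le_prod (fun p hp => zero_le_one.trans (one_le_fac (hT' p hp).two_le)) fun p hp => ?_
            exact fac_le_two (hT' p hp).two_le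
        _ = 2 ^ T'.card := prod_const _
    have h5 : ∏ p ∈ T', (2 / (p : ℝ)) = 2 ^ T'.card / t := by
      rw [prod_div_distrib, prod_const, ht, Nat.cast_prod]
    rw [h5]
    calc ((T.filter (fun m => m % t = r)).card : ℝ)
        ≤ 80 * Pool.Agent.Erdos456.GG t * (y / (t * Real.log y)) := h3.trans h1
      _ ≤ 80 * 2 ^ T'.card * (y / (t * Real.log y)) := by
          refine mul_le_mul_of_nonneg_right (mul_le_mul_of_nonneg_left h4 (by norm_num)) (by positivity)
      _ = 80 * (y / Real.log y) * (2 ^ T'.card / t) := by field_simp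
      _ ≤ _ := by linarith
  · push Not at hty
    have h1 : T.filter (fun m => m % t = r) ⊆ (Icc 1 y).filter (fun m => m % t = r) := by
      refine filter_subset_filter _ (hT.trans (filter_subset _ _))
    have h2 : (((Icc 1 y).filter (fun m => m % t = r)).card : ℝ) ≤ y / t + 1 := by
      have h3 : ((Icc 1 y).filter (fun m => m % t = r)).card ≤ (range (y / t + 1)).card := by
        refine card_le_card_of_injOn (fun m => m / t) ?_ ?_
        · intro m hm
          rw [Finset.mem_coe, mem_filter, mem_Icc] at hm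
          rw [Finset.mem_coe, mem_range]
          have := Nat.div_le_div_right (c := t) hm.1.2
          exact Nat.lt_succ_of_le this
        · intro m hm m' hm' h
          rw [Finset.mem_coe, mem_filter] at hm hm'
          simp only at h
          rw [← Nat.div_add_mod m t, ← Nat.div_add_mod m' t, h, hm.2, hm'.2]
      rw [card_range] at h3
      calc (((Icc 1 y).filter (fun m => m % t = r)).card : ℝ) ≤ ((y / t + 1 : ℕ) : ℝ) := by exact_mod_cast h3
        _ = ((y / t : ℕ) : ℝ) + 1 := by push_cast; rfl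
        _ ≤ (y : ℝ) / t + 1 := by
            have := Nat.cast_div_le (α := ℝ) (m := y) (n := t)
            linarith
    have h3 : (y : ℝ) / t ≤ √y := by
      rw [div_le_iff₀ htr]
      have h4 : √(y : ℝ) ≤ t := by
        rw [Real.sqrt_le_left htr.le]
        exact_mod_cast hty.le
      have h5 : √(y : ℝ) * √(y : ℝ) = y := Real.mul_self_sqrt (by linarith)
      nlinarith
    have h4 : ((T.filter (fun m => m % t = r)).card : ℝ) ≤ (((Icc 1 y).filter (fun m => m % t = r)).card : ℝ) := by
      exact_mod_cast card_le_card h1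
    have h5 : 0 ≤ 80 * (y / Real.log y) * ∏ p ∈ T', (2 / (p : ℝ)) := by positivity
    linarith

/-- **The moment bound along primes.** -/
theorem momentP {k d e w : ℕ} (hk : 1 ≤ k) (hkw : k ≤ w) {g : Polynomial ℤ} (hge : g.coeff e = 0) (hg0 : g ≠ 0)
    (hd : g.natDegree ≤ d) (hed : e ≤ d) (y n : ℕ) (hy : 2 ≤ y) (T : Finset ℕ) (hT : T ⊆ (Icc 1 y).filter Nat.Prime)
    (hn : ∀ p : ℕ, p.Prime → p ∣ n → ¬ (p : ℤ) ∣ g.eval (n : ℤ))
    (hdt : ∀ m ∈ T.erase n, dt g e n m ≠ 0)
    (hw : ∀ m ∈ T.erase n, (k : ℝ) * Real.log ((dt g e n m).natAbs : ℕ) ≤ w) :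
    ∑ m ∈ T.erase n, gg k (dt g e n m).natAbs ^ k ≤
      Real.exp 2 * gg k (cz g) ^ k * (80 * (y / Real.log y) * Real.exp (12 * d) + 2 * √y * (VV w) ^ (6 * k * d)) := by
  classical
  obtain ⟨S, hS⟩ : ∃ S, S = (Ioc k w).filter (fun p => p.Prime ∧ ¬ p ∣ cz g) := ⟨_, rfl⟩
  have hgc : 0 ≤ gg k (cz g) := zero_le_one.trans (one_le_gg k _)
  have hkr : (0 : ℝ) < k := by exact_mod_cast hk
  have hyr : (2 : ℝ) ≤ y := by exact_mod_cast hy
  have hly : 0 < Real.log y := Real.log_pos (by linarith)
  have h1 : ∀ m ∈ T.erase n, gg k (dt g e n m).natAbs ^ k ≤ Real.exp 2 * gg k (cz g) ^ k *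
      ∑ t ∈ S.powerset, (∏ p ∈ t, ((6 * k : ℝ) / p)) * (if (∏ p ∈ t, p) ∣ (dt g e n m).natAbs then 1 else 0) := by
    intro m hm
    rw [hS]
    exact gg_pow_le hk hkw (Int.natAbs_pos.2 (hdt m hm)) (cz_pos hg0) (hw m hm)
  have hSp : ∀ p ∈ S, p.Prime ∧ ¬ p ∣ cz g := fun p hp => by
    rw [hS, mem_filter] at hp
    exact hp.2
  calc ∑ m ∈ T.erase n, gg k (dt g e n m).natAbs ^ k
      ≤ ∑ m ∈ T.erase n, Real.exp 2 * gg k (cz g) ^ k *
        ∑ t ∈ S.powerset, (∏ p ∈ t, ((6 * k : ℝ) / p)) * (if (∏ p ∈ t, p) ∣ (dt g e n m).natAbs then 1 else 0) :=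
        Finset.sum_le_sum h1
    _ ≤ ∑ m ∈ T, Real.exp 2 * gg k (cz g) ^ k *
        ∑ t ∈ S.powerset, (∏ p ∈ t, ((6 * k : ℝ) / p)) * (if (∏ p ∈ t, p) ∣ (dt g e n m).natAbs then 1 else 0) := by
        refine Finset.sum_le_sum_of_subset_of_nonneg (erase_subset _ _) fun m _ _ => ?_
        refine mul_nonneg (by positivity) (Finset.sum_nonneg fun t _ => by split_ifs <;> positivity)
    _ = Real.exp 2 * gg k (cz g) ^ k * ∑ t ∈ S.powerset, (∏ p ∈ t, ((6 * k : ℝ) / p)) *
        ((T.filter (fun m => (∏ p ∈ t, p) ∣ (dt g e n m).natAbs)).card : ℝ) := by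
        rw [← Finset.mul_sum, Finset.sum_comm]
        congr 1
        refine Finset.sum_congr rfl fun t _ => ?_
        rw [← Finset.mul_sum, Finset.sum_ite, Finset.sum_const_zero, add_zero, Finset.sum_const, nsmul_eq_mul, mul_one]
    _ ≤ Real.exp 2 * gg k (cz g) ^ k * ∑ t ∈ S.powerset, (∏ p ∈ t, ((6 * k : ℝ) / p)) *
        ((d : ℝ) ^ t.card * (80 * (y / Real.log y) * ∏ p ∈ t, (2 / (p : ℝ)) + 2 * √y)) := by
        refine mul_le_mul_of_nonneg_left (Finset.sum_le_sum fun t ht => ?_) (by positivity)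
        refine mul_le_mul_of_nonneg_left ?_ (by positivity)
        refine card_divT hge hd hed T t n (fun p hp => hSp p (mem_powerset.1 ht hp)) hn _ ?_ ?_
        · have : 0 ≤ ∏ p ∈ t, (2 / (p : ℝ)) := prod_nonneg fun p _ => by positivity
          positivity
        · intro r
          exact class_bound hy T t hT (fun p hp => (hSp p (mem_powerset.1 ht hp)).1) r
    _ = Real.exp 2 * gg k (cz g) ^ k * (80 * (y / Real.log y) * ∑ t ∈ S.powerset, ∏ p ∈ t, ((12 * k * d : ℝ) / (p : ℝ) ^ 2) +
          2 * √y * ∑ t ∈ S.powerset, ∏ p ∈ t, ((6 * k * d : ℝ) / p)) := by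
        congr 1
        rw [Finset.mul_sum, Finset.mul_sum, ← Finset.sum_add_distrib]
        refine Finset.sum_congr rfl fun t ht => ?_
        have e1 : ∏ p ∈ t, ((6 * k * d : ℝ) / p) = (∏ p ∈ t, ((6 * k : ℝ) / p)) * (d : ℝ) ^ t.card := by
          rw [← prod_const, ← prod_mul_distrib]
          refine prod_congr rfl fun p _ => ?_
          ring
        have e2 : ∏ p ∈ t, ((12 * k * d : ℝ) / (p : ℝ) ^ 2) =
            (∏ p ∈ t, ((6 * k : ℝ) / p)) * (d : ℝ) ^ t.card * (∏ p ∈ t, (2 / (p : ℝ))) := by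
          rw [← prod_const, ← prod_mul_distrib, ← prod_mul_distrib]
          refine prod_congr rfl fun p _ => ?_
          ring
        rw [e1, e2]
        ring
    _ = Real.exp 2 * gg k (cz g) ^ k * (80 * (y / Real.log y) * ∏ p ∈ S, (1 + (12 * k * d : ℝ) / (p : ℝ) ^ 2) +
          2 * √y * ∏ p ∈ S, (1 + (6 * k * d : ℝ) / p)) := by
        rw [← Finset.prod_one_add, ← Finset.prod_one_add]
    _ ≤ Real.exp 2 * gg k (cz g) ^ k * (80 * (y / Real.log y) * Real.exp (12 * d) + 2 * √y * (VV w) ^ (6 * k * d)) := by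
        refine mul_le_mul_of_nonneg_left (add_le_add (mul_le_mul_of_nonneg_left ?_ (by positivity))
          (mul_le_mul_of_nonneg_left ?_ (by positivity))) (by positivity)
        · calc ∏ p ∈ S, (1 + (12 * k * d : ℝ) / (p : ℝ) ^ 2) ≤ ∏ p ∈ S, Real.exp ((12 * k * d : ℝ) * (1 / (p : ℝ) ^ 2)) := by
                refine Finset.prod_le_prod (fun p _ => by positivity) fun p _ => ?_
                have := Real.add_one_le_exp ((12 * k * d : ℝ) * (1 / (p : ℝ) ^ 2))
                rw [mul_one_div] at this ⊢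
                linarith
            _ = Real.exp (∑ p ∈ S, (12 * k * d : ℝ) * (1 / (p : ℝ) ^ 2)) := by rw [Real.exp_sum]
            _ ≤ Real.exp (12 * d) := by
                refine Real.exp_le_exp.2 ?_
                rw [← Finset.mul_sum]
                have h3 : ∑ p ∈ S, 1 / (p : ℝ) ^ 2 ≤ 1 / (k : ℝ) := by
                  refine le_trans (Finset.sum_le_sum_of_subset_of_nonneg ?_ (fun p _ _ => by positivity)) (sum_inv_sq_tail hk (M := w))
                  rw [hS]
                  exact filter_subset _ _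
                calc (12 * k * d : ℝ) * ∑ p ∈ S, 1 / (p : ℝ) ^ 2 ≤ (12 * k * d : ℝ) * (1 / (k : ℝ)) :=
                      mul_le_mul_of_nonneg_left h3 (by positivity)
                  _ = 12 * d := by field_simp
        · rw [VV_def, ← Finset.prod_pow]
          calc ∏ p ∈ S, (1 + (6 * k * d : ℝ) / p) ≤ ∏ p ∈ S, ((1 - (p : ℝ)⁻¹)⁻¹) ^ (6 * k * d) := by
                refine Finset.prod_le_prod (fun p _ => by positivity) fun p hp => ?_
                have hp2 := (hSp p hp).1.two_le
                have hp0 : (2 : ℝ) ≤ p := by exact_mod_cast hp2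
                have h4 : (1 : ℝ) + ((6 * k * d : ℕ) : ℝ) * (1 / (p : ℝ)) ≤ (1 + 1 / (p : ℝ)) ^ (6 * k * d) :=
                  one_add_mul_le_pow (by
                    have : (0 : ℝ) ≤ 1 / (p : ℝ) := by positivity
                    linarith) _
                have h5 : 1 + 1 / (p : ℝ) ≤ (1 - (p : ℝ)⁻¹)⁻¹ := by
                  have h6 : (1 - (p : ℝ)⁻¹)⁻¹ = 1 + 1 / ((p : ℝ) - 1) := by
                    have : 0 < (p : ℝ) - 1 := by linarith
                    have : 0 < (p : ℝ) := by linarith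
                    field_simp
                    ring
                  rw [h6]
                  have h7 : 1 / (p : ℝ) ≤ 1 / ((p : ℝ) - 1) := one_div_le_one_div_of_le (by linarith) (by linarith)
                  linarith
                calc 1 + (6 * k * d : ℝ) / p = 1 + ((6 * k * d : ℕ) : ℝ) * (1 / (p : ℝ)) := by
                      push_cast
                      ring
                  _ ≤ (1 + 1 / (p : ℝ)) ^ (6 * k * d) := h4
                  _ ≤ _ := pow_le_pow_left₀ (by positivity) h5 _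
            _ ≤ ∏ p ∈ pz w, ((1 - (p : ℝ)⁻¹)⁻¹) ^ (6 * k * d) := by
                refine Finset.prod_le_prod_of_subset_of_one_le ?_ (fun p hp => ?_) fun p hp _ => ?_
                · intro p hp
                  have h4 := hSp p hp
                  rw [hS, mem_filter, mem_Ioc] at hp
                  exact mem_pz.2 ⟨hp.1.2, h4.1⟩
                · exact pow_nonneg (zero_le_one.trans (one_le_fac (hSp p hp).1.two_le)) _
                · exact one_le_pow₀ (one_le_fac (mem_pz.1 hp).2.two_le)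

end Pool.Agent.Q160.GQ
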