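import Mathlib
import Pool.Agent.Q160.GQ4
import Pool.Agent.Q160.GP4

set_option autoImplicit false

/-!
# Local admissibility of systems with one moving coefficient each, along primes
-/

namespace Pool.Agent.Q160.GQ

open Finset Filter
open Pool.Agent.H373R2.T7
open Pool.Agent.H305R2 (VV VV_tendsto)
open Pool.Agent.Q160.GK
open Pool.Agent.Q160.GP (tail_pow prod_union_le gg_pow_le)

/-- the value at `n` of the polynomial `g + b X ^ e` -/
def vl (g : Polynomial ℤ) (e n b : ℕ) : ℤ := g.eval (n : ℤ) + (b : ℤ) * ((n ^ e : ℕ) : ℤ)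

/-- for every prime `p` there is `n` prime to `p` such that `p` divides none of the values at `n` -/
def AdmL {k : ℕ} (g : Fin k → Polynomial ℤ) (e : Fin k → ℕ) (b : Fin k → ℕ) : Prop :=
  ∀ p : ℕ, p.Prime → ∃ n : ℕ, ¬ p ∣ n ∧ ∀ i, ¬ (p : ℤ) ∣ vl (g i) (e i) n (b i)

/-- the polynomials `g i + b i X ^ (e i)` are distinct -/
def DistL {k : ℕ} (g : Fin k → Polynomial ℤ) (e : Fin k → ℕ) (b : Fin k → ℕ) : Prop :=
  ∀ i j, i ≠ j → ¬ (g i = g j ∧ e i = e j ∧ b i = b j)

/-- the class of the data `(g, e)` -/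
def PE (d : ℕ) (g : Polynomial ℤ) (e : ℕ) : Prop := g.coeff e = 0 ∧ g.coeff 0 ≠ 0 ∧ g.natDegree ≤ d ∧ e ≤ d

lemma PE.ne_zero {d : ℕ} {g : Polynomial ℤ} {e : ℕ} (h : PE d g e) : g ≠ 0 := by
  rintro rfl
  exact h.2.1 (Polynomial.coeff_zero 0)

lemma PE.one_le_e {d : ℕ} {g : Polynomial ℤ} {e : ℕ} (h : PE d g e) : 1 ≤ e := by
  rcases Nat.eq_zero_or_pos e with h1 | h1
  · exact absurd (h1 ▸ h.1) h.2.1
  · exact h1

lemma vl_mod (g : Polynomial ℤ) (e n b p : ℕ) : (p : ℤ) ∣ vl g e (n % p) b ↔ (p : ℤ) ∣ vl g e n b := by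
  have h1 : ((n : ℤ) - ((n % p : ℕ) : ℤ)) ∣ g.eval (n : ℤ) - g.eval ((n % p : ℕ) : ℤ) := Polynomial.sub_dvd_eval_sub _ _ _
  have h2 : (p : ℤ) ∣ (n : ℤ) - ((n % p : ℕ) : ℤ) := by
    rw [Int.natCast_mod]
    exact Int.dvd_self_sub_emod
  have h3 : ((n : ℤ) - ((n % p : ℕ) : ℤ)) ∣ (n : ℤ) ^ e - ((n % p : ℕ) : ℤ) ^ e := sub_dvd_pow_sub_pow _ _ _
  have h4 : (p : ℤ) ∣ vl g e n b - vl g e (n % p) b := by
    have h5 : vl g e n b - vl g e (n % p) b = (g.eval (n : ℤ) - g.eval ((n % p : ℕ) : ℤ)) +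
        (b : ℤ) * ((n : ℤ) ^ e - ((n % p : ℕ) : ℤ) ^ e) := by
      unfold vl
      push_cast
      ring
    rw [h5]
    exact dvd_add (h2.trans h1) (Dvd.dvd.mul_left (h2.trans h3) _)
  constructor
  · intro h
    have := dvd_add h4 h
    rwa [sub_add_cancel] at this
  · intro h
    have := dvd_sub h h4
    rwa [sub_sub_cancel] at this

/-- few zeros modulo `p` -/
lemma card_roots_vl {d : ℕ} {g : Polynomial ℤ} {e b p : ℕ} (h : PE d g e) (hp : p.Prime) (hb : p ∣ cz g → ¬ p ∣ b) :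
    ((range p).filter (fun r : ℕ => (p : ℤ) ∣ vl g e r b)).card ≤ d := by
  classical
  haveI : Fact p.Prime := ⟨hp⟩
  obtain ⟨hge, -, hd, hed⟩ := h
  obtain ⟨F, hF⟩ : ∃ F : Polynomial (ZMod p), F = g.map (Int.castRingHom (ZMod p)) := ⟨_, rfl⟩
  obtain ⟨H, hH⟩ : ∃ H : Polynomial (ZMod p), H = F + Polynomial.C (b : ZMod p) * Polynomial.X ^ e := ⟨_, rfl⟩
  have hev : ∀ r : ℕ, H.eval (r : ZMod p) = ((vl g e r b : ℤ) : ZMod p) := by
    intro r
    have h1 : F.eval (r : ZMod p) = ((g.eval (r : ℤ) : ℤ) : ZMod p) := by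
      rw [hF, Polynomial.eval_natCast_map]
      simp
    rw [hH, Polynomial.eval_add, Polynomial.eval_mul, Polynomial.eval_C, Polynomial.eval_pow, Polynomial.eval_X, h1]
    unfold vl
    push_cast
    ring
  have hH0 : H ≠ 0 := by
    intro h
    by_cases hpc : p ∣ cz g
    · have h1 : H.coeff e = (b : ZMod p) := by
        rw [hH, Polynomial.coeff_add, Polynomial.coeff_C_mul, Polynomial.coeff_X_pow, if_pos rfl,
          mul_one, hF, Polynomial.coeff_map, hge, map_zero, zero_add]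
      rw [h, Polynomial.coeff_zero] at h1
      exact hb hpc ((ZMod.natCast_eq_zero_iff _ _).1 h1.symm)
    · apply hpc
      unfold cz
      refine Finset.dvd_gcd fun j hj => ?_
      have hje : j ≠ e := by
        rintro rfl
        exact (Polynomial.mem_support_iff.1 hj) hge
      have h1 : H.coeff j = ((g.coeff j : ℤ) : ZMod p) := by
        rw [hH, Polynomial.coeff_add, Polynomial.coeff_C_mul, Polynomial.coeff_X_pow, if_neg hje,
          mul_zero, add_zero, hF, Polynomial.coeff_map]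
        rfl
      rw [h, Polynomial.coeff_zero] at h1
      exact Int.natCast_dvd.1 ((ZMod.intCast_zmod_eq_zero_iff_dvd _ _).1 h1.symm)
  calc ((range p).filter (fun r : ℕ => (p : ℤ) ∣ vl g e r b)).card
      = (((range p).filter (fun r : ℕ => (p : ℤ) ∣ vl g e r b)).image (fun r : ℕ => (r : ZMod p))).card := by
        rw [card_image_of_injOn]
        intro a ha b hb hab
        rw [Finset.mem_coe, mem_filter, mem_range] at ha hb
        have h1 := (ZMod.natCast_eq_natCast_iff' _ _ _).1 hab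
        rwa [Nat.mod_eq_of_lt ha.1, Nat.mod_eq_of_lt hb.1] at h1
    _ ≤ H.roots.toFinset.card := by
        apply card_le_card
        intro z hz
        rw [mem_image] at hz
        obtain ⟨r, hr, rfl⟩ := hz
        rw [mem_filter] at hr
        rw [Multiset.mem_toFinset, Polynomial.mem_roots hH0, Polynomial.IsRoot.def, hev, ZMod.intCast_zmod_eq_zero_iff_dvd]
        exact hr.2
    _ ≤ H.natDegree := (Multiset.toFinset_card_le _).trans (Polynomial.card_roots' H)
    _ ≤ d := by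
        rw [hH]
        refine (Polynomial.natDegree_add_le _ _).trans (max_le ?_ ?_)
        · rw [hF]
          exact Polynomial.natDegree_map_le.trans hd
        · exact (Polynomial.natDegree_C_mul_X_pow_le _ _).trans hed

open Classical in
/-- no obstruction at large primes -/
lemma admL_of_large {k d : ℕ} {g : Fin k → Polynomial ℤ} {e : Fin k → ℕ} (hg : ∀ i, PE d (g i) (e i)) {b : Fin k → ℕ} {p : ℕ}
    (hp : p.Prime) (hpk : k * d + 1 < p) (hb : ∀ i, p ∣ cz (g i) → ¬ p ∣ b i) :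
    ∃ n : ℕ, ¬ p ∣ n ∧ ∀ i, ¬ (p : ℤ) ∣ vl (g i) (e i) n (b i) := by
  by_contra hcon
  push Not at hcon
  have h1 : (range p).erase 0 ⊆ (univ : Finset (Fin k)).biUnion (fun i => (range p).filter (fun r => (p : ℤ) ∣ vl (g i) (e i) r (b i))) := by
    intro r hr
    rw [mem_erase, mem_range] at hr
    have h2 : ¬ p ∣ r := fun h => by
      have := Nat.le_of_dvd (Nat.pos_of_ne_zero hr.1) h
      omega
    obtain ⟨i, hi⟩ := hcon r h2
    rw [mem_biUnion]
    exact ⟨i, mem_univ _, mem_filter.2 ⟨mem_range.2 hr.2, hi⟩⟩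
  have h3 := (card_le_card h1).trans card_biUnion_le
  have h4 : ∑ i : Fin k, ((range p).filter (fun r => (p : ℤ) ∣ vl (g i) (e i) r (b i))).card ≤ k * d := by
    calc _ ≤ ∑ _i : Fin k, d := sum_le_sum fun i _ => card_roots_vl (hg i) hp (hb i)
      _ = k * d := by rw [sum_const, card_univ, Fintype.card_fin, smul_eq_mul]
  rw [card_erase_of_mem (mem_range.2 hp.pos), card_range] at h3
  omega

lemma cz_le {d : ℕ} {g : Polynomial ℤ} {e : ℕ} (h : PE d g e) : cz g ≤ (g.coeff 0).natAbs :=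
  Nat.le_of_dvd (Int.natAbs_pos.2 h.2.1) (Int.natCast_dvd.1 (cz_dvd_coeff g 0))

/-- large prime values imply admissibility -/
lemma admL_of_primes {k d : ℕ} {g : Fin k → Polynomial ℤ} {e : Fin k → ℕ} (hg : ∀ i, PE d (g i) (e i)) {b : Fin k → ℕ} {n : ℕ}
    (hn : n.Prime) (hkn : k * d + 1 < n) (hgn : ∀ i, ((g i).coeff 0).natAbs < n)
    (hb : ∀ i, (vl (g i) (e i) n (b i)).toNat.Prime) (hb2 : ∀ i, (n : ℤ) ≤ vl (g i) (e i) n (b i)) : AdmL g e b := by
  intro p hp
  by_cases h : p < n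
  · refine ⟨n, ?_, ?_⟩
    · intro h1
      have := (Nat.prime_dvd_prime_iff_eq hp hn).1 h1
      omega
    · intro i hi
      have h1 : p ∣ (vl (g i) (e i) n (b i)).toNat := by
        rw [← Int.natCast_dvd_natCast, Int.toNat_of_nonneg (by have := hb2 i; omega)]
        exact hi
      have h2 := (Nat.prime_dvd_prime_iff_eq hp (hb i)).1 h1
      have h3 := hb2 i
      omega
  · refine admL_of_large hg hp (by omega) ?_
    intro j hj
    have h1 := Nat.le_of_dvd (cz_pos (hg j).ne_zero) hj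
    have h2 := cz_le (hg j)
    have h3 := hgn j
    omega

/-- the class to be avoided -/
noncomputable def cs (g : Polynomial ℤ) (e r p : ℕ) : ℕ :=
  if hp : p.Prime then
    haveI : Fact p.Prime := ⟨hp⟩
    (((g.eval (r : ℤ) / (cz g : ℤ) : ℤ) : ZMod p) / ((r : ZMod p) ^ e)).val
  else 0

lemma cs_spec {d : ℕ} {g : Polynomial ℤ} {e : ℕ} (h : PE d g e) {p r : ℕ} (hp : p.Prime) (hr : ¬ p ∣ r) (b : ℕ) :
    p ∣ cz g * cs g e r p + b ↔ (p : ℤ) ∣ vl g e r b := by
  haveI : Fact p.Prime := ⟨hp⟩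
  have hr0 : (r : ZMod p) ≠ 0 := by
    intro h3
    exact hr ((ZMod.natCast_eq_zero_iff _ _).1 h3)
  have hre : (r : ZMod p) ^ e ≠ 0 := pow_ne_zero _ hr0
  have hq : (cz g : ℤ) * (g.eval (r : ℤ) / (cz g : ℤ)) = g.eval (r : ℤ) := Int.mul_ediv_cancel' (cz_dvd_eval g _)
  have hq2 : ((cz g : ℕ) : ZMod p) * ((g.eval (r : ℤ) / (cz g : ℤ) : ℤ) : ZMod p) = ((g.eval (r : ℤ) : ℤ) : ZMod p) := by
    rw [← hq]
    push_cast
    rw [hq]
  rw [← ZMod.natCast_eq_zero_iff, ← ZMod.intCast_zmod_eq_zero_iff_dvd]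
  unfold cs vl
  rw [dif_pos hp]
  push_cast
  rw [ZMod.natCast_zmod_val]
  have key : ((cz g : ℕ) : ZMod p) * (((g.eval (r : ℤ) / (cz g : ℤ) : ℤ) : ZMod p) / ((r : ZMod p) ^ e)) + (b : ZMod p) =
      (((g.eval (r : ℤ) : ℤ) : ZMod p) + (b : ZMod p) * (r : ZMod p) ^ e) / ((r : ZMod p) ^ e) := by
    rw [← hq2]
    field_simp
  rw [key, div_eq_zero_iff]
  constructor
  · rintro (h1 | h1)
    · exact h1
    · exact absurd h1 hre
  · intro h1
    exact Or.inl h1

open Classical in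
theorem admL_cover (A : ℕ) : ∃ C : ℝ, ∃ h0 : ℕ, 0 < C ∧ ∀ k d : ℕ, ∀ g : Fin k → Polynomial ℤ, ∀ e : Fin k → ℕ, ∀ l h : ℕ, h0 ≤ h →
    (∀ i, PE d (g i) (e i)) → (∀ i, cz (g i) ≤ h ^ A) → (k : ℝ) ≤ Real.log h →
    ∃ (ι : Type) (I : Finset ι) (S : ι → Fin k → Finset ℕ), (I.card : ℝ) ≤ 4 ^ k ∧
      (∀ s i, ((S s i).card : ℝ) ≤ C * (h / (Real.log (k + 2) * gg k (cz (g i))))) ∧
      (Fintype.piFinset (fun _ : Fin k => Ioc l (l + h))).filter (fun b => AdmL g e b) ⊆
        I.biUnion (fun s => Fintype.piFinset (S s)) := by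
  obtain ⟨C, h0, hC, hcs⟩ := class_sieve A
  refine ⟨C, h0, hC, fun k d g e l h hh hg haA hk => ?_⟩
  obtain ⟨Sp, hSp⟩ : ∃ Sp : Fin k → ((p : ℕ) → p ∈ pz k → ℕ) → ℕ → ℕ,
    Sp = fun i s p => if hp : p ∈ pz k then cs (g i) (e i) (s p hp) p else 0 := ⟨_, rfl⟩
  obtain ⟨S, hS⟩ : ∃ S : ((p : ℕ) → p ∈ pz k → ℕ) → Fin k → Finset ℕ, S = fun s i =>
    (Ioc l (l + h)).filter (fun b => (∀ p ∈ pz k, ¬ p ∣ cz (g i) * Sp i s p + b) ∧ b.Coprime (cz (g i))) := ⟨_, rfl⟩
  refine ⟨((p : ℕ) → p ∈ pz k → ℕ), (pz k).pi (fun p => range p), S, ?_, ?_, ?_⟩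
  · rw [Finset.card_pi]
    have h1 : ∏ p ∈ pz k, (range p).card = ∏ p ∈ pz k, p := prod_congr rfl fun p _ => card_range p
    rw [h1]
    exact_mod_cast prod_pz_le k
  · intro s i
    rw [hS]
    exact hcs k (cz (g i)) l h hh (cz_pos (hg i).ne_zero) (haA i) hk (Sp i s)
  · intro b hb
    rw [mem_filter, Fintype.mem_piFinset] at hb
    obtain ⟨hb1, hb2⟩ := hb
    unfold AdmL at hb2
    choose! n hn0 hn using hb2
    rw [mem_biUnion]
    refine ⟨fun p _ => n p % p, ?_, ?_⟩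
    · rw [Finset.mem_pi]
      intro p hp
      rw [mem_range]
      exact Nat.mod_lt _ (mem_pz.1 hp).2.pos
    · rw [Fintype.mem_piFinset]
      intro i
      rw [hS]
      simp only [mem_filter]
      refine ⟨hb1 i, ?_, ?_⟩
      · intro p hp
        have hpp := (mem_pz.1 hp).2
        rw [hSp]
        simp only [hp, dif_pos]
        rw [cs_spec (hg i) hpp, vl_mod]
        · exact hn p hpp i
        · rw [Nat.dvd_mod_iff (dvd_refl p)]
          exact hn0 p hpp
      · rw [Nat.coprime_iff_gcd_eq_one]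
        by_contra hcon
        obtain ⟨p, hp, hpg⟩ := Nat.exists_prime_and_dvd hcon
        have hp1 := hpg.trans (Nat.gcd_dvd_left _ _)
        have hp2 := hpg.trans (Nat.gcd_dvd_right _ _)
        refine hn p hp i ?_
        unfold vl
        refine dvd_add ((Int.natCast_dvd_natCast.2 hp2).trans (cz_dvd_eval _ _)) ?_
        exact Dvd.dvd.mul_right (Int.natCast_dvd_natCast.2 hp1) _

open Classical in
theorem admL_lower (A d : ℕ) : ∃ c : ℝ, ∃ h0 : ℕ, 0 < c ∧ ∀ k : ℕ, 1 ≤ k → ∀ g : Fin k → Polynomial ℤ, ∀ e : Fin k → ℕ, ∀ l h : ℕ,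
    h0 ≤ h → (∀ i, PE d (g i) (e i)) → (∀ i, cz (g i) ≤ h ^ A) → ((k * d + 1 : ℕ) : ℝ) ≤ Real.log h →
    ∏ i, (c * (h / (Real.log (k + 2) * gg k (cz (g i))))) ≤
    (((Fintype.piFinset (fun _ : Fin k => Ioc l (l + h))).filter (fun b => AdmL g e b)).card : ℝ) := by
  obtain ⟨c, h0, hc, hcl⟩ := class_low2 A
  refine ⟨c / (2 + d), h0, by positivity, fun k hk1 g e l h hh hg haA hk => ?_⟩
  have hsub : Fintype.piFinset (fun i => (Ioc l (l + h)).filter
      (fun b => (∀ p ∈ pz (k * d + 1), ¬ p ∣ cz (g i) * cs (g i) (e i) 1 p + b) ∧ b.Coprime (cz (g i)))) ⊆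
      (Fintype.piFinset (fun _ : Fin k => Ioc l (l + h))).filter (fun b => AdmL g e b) := by
    intro b hb
    rw [Fintype.mem_piFinset] at hb
    rw [mem_filter, Fintype.mem_piFinset]
    refine ⟨fun i => (mem_filter.1 (hb i)).1, ?_⟩
    intro p hp
    by_cases hpk : p ≤ k * d + 1
    · have hp1 : ¬ p ∣ 1 := fun h => hp.one_lt.ne' (Nat.dvd_one.1 h)
      refine ⟨1, hp1, fun i => ?_⟩
      rw [← cs_spec (hg i) hp hp1]
      exact (mem_filter.1 (hb i)).2.1 p (mem_pz.2 ⟨hpk, hp⟩)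
    · refine admL_of_large hg hp (by omega) ?_
      intro i h1 h2
      have h3 := (mem_filter.1 (hb i)).2.2
      have h4 := Nat.dvd_gcd h2 h1
      rw [Nat.Coprime.gcd_eq_one h3] at h4
      exact hp.one_lt.ne' (Nat.dvd_one.1 h4)
  have h1 : ((Fintype.piFinset (fun i => (Ioc l (l + h)).filter
      (fun b => (∀ p ∈ pz (k * d + 1), ¬ p ∣ cz (g i) * cs (g i) (e i) 1 p + b) ∧ b.Coprime (cz (g i))))).card : ℝ) ≤
      (((Fintype.piFinset (fun _ : Fin k => Ioc l (l + h))).filter (fun b => AdmL g e b)).card : ℝ) := by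
    exact_mod_cast card_le_card hsub
  refine le_trans ?_ h1
  rw [Fintype.card_piFinset]
  push_cast
  have hlk := log_two_add k
  refine prod_le_prod (fun i _ => ?_) fun i _ => ?_
  · have := one_le_gg k (cz (g i))
    positivity
  · have hd1 : 1 ≤ d := (hg i).one_le_e.trans (hg i).2.2.2
    refine le_trans ?_ (hcl (k * d + 1) (cz (g i)) l h hh (cz_pos (hg i).ne_zero) (haA i) hk _)
    have h2 := one_le_gg k (cz (g i))
    have h3 := one_le_gg (k * d + 1) (cz (g i))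
    have h4 : gg (k * d + 1) (cz (g i)) ≤ gg k (cz (g i)) := GP.gg_anti (by nlinarith)
    have h5 := log_two_add (k * d + 1)
    have h6 : Real.log (((k * d + 1 : ℕ) : ℝ) + 2) ≤ (2 + d) * Real.log (k + 2) := by
      have hd1r : (1 : ℝ) ≤ d := by exact_mod_cast hd1
      have hk0 : (1 : ℝ) ≤ k := by exact_mod_cast hk1
      have h7 : (((k * d + 1 : ℕ) : ℝ) + 2) ≤ (k + 2) * (1 + d) := by
        push_cast
        nlinarith
      have h8 : Real.log (1 + d) ≤ (1 + d) * Real.log (k + 2) := by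
        have h9 : (1 + (d : ℝ)) ≤ (k + 2) ^ d := by
          have h10 := one_add_mul_le_pow (a := ((k : ℝ) + 1)) (by linarith) d
          have h11 : (1 : ℝ) + d ≤ 1 + d * (k + 1) := by nlinarith
          calc (1 : ℝ) + d ≤ 1 + d * (k + 1) := h11
            _ ≤ (1 + (k + 1)) ^ d := h10
            _ = (k + 2) ^ d := by ring
        have h10 := Real.log_le_log (by positivity) h9
        rw [Real.log_pow] at h10
        linarith
      calc Real.log (((k * d + 1 : ℕ) : ℝ) + 2) ≤ Real.log ((k + 2) * (1 + d)) :=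
            Real.log_le_log (by positivity) h7
        _ = Real.log (k + 2) + Real.log (1 + d) := Real.log_mul (by positivity) (by positivity)
        _ ≤ _ := by linarith
    have hh0 : (0 : ℝ) ≤ h := Nat.cast_nonneg _
    rw [div_mul_eq_mul_div, mul_div_assoc]
    refine mul_le_mul_of_nonneg_left ?_ hc.le
    rw [div_div]
    refine div_le_div_of_nonneg_left hh0 (by positivity) ?_
    calc Real.log (((k * d + 1 : ℕ) : ℝ) + 2) * gg (k * d + 1) (cz (g i)) ≤ ((2 + d) * Real.log (k + 2)) * gg k (cz (g i)) :=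
          mul_le_mul h6 h4 (by linarith) (by positivity)
      _ = _ := by ring

end Pool.Agent.Q160.GQ
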