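import Mathlib
import Pool.Agent.Q160.GQ5
import Pool.Agent.Q160.GK8

set_option autoImplicit false

/-!
# Systems with a repeated polynomial are rare
-/

namespace Pool.Agent.Q160.GQ

open Finset Filter
open Pool.Agent.H373R2.T7
open Pool.Agent.H305R2 (VV VV_tendsto)
open Pool.Agent.Q160.GK

open Classical in
lemma coinc_abs {k : ℕ} (hk : 1 ≤ k) (Box : Finset (Fin k → ℕ)) (Adm Dis : (Fin k → ℕ) → Prop)
    (hD : ∀ b, ¬ Dis b → ∃ i j, i ≠ j ∧ b i = b j) (ι : Type) (I : Finset ι) (S : ι → Fin k → Finset ℕ)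
    (hI : (I.card : ℝ) ≤ 4 ^ k) (T : Fin k → ℝ) (hT0 : ∀ i, 0 < T i) (hS : ∀ s i, ((S s i).card : ℝ) ≤ T i)
    (hcov : Box.filter Adm ⊆ I.biUnion (fun s => Fintype.piFinset (S s))) (B E c : ℝ) (hE : 1 ≤ E) (hc : 0 < c) (hB : 1 ≤ B)
    (hBE : 16 * E ≤ c * B) (hTbig : ∀ i, B ^ k ≤ T i) (hlow : c ^ k * ∏ i, T i ≤ ((Box.filter Adm).card : ℝ)) :
    E ^ k * ((Box.filter (fun b => Adm b ∧ ¬ Dis b)).card : ℝ) ≤ ((Box.filter Adm).card : ℝ) := by
  have hsub : Box.filter (fun b => Adm b ∧ ¬ Dis b) ⊆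
      I.biUnion (fun s => (univ : Finset (Fin k × Fin k)).biUnion (fun ij =>
        if ij.1 ≠ ij.2 then (Fintype.piFinset (S s)).filter (fun b => b ij.1 = b ij.2) else ∅)) := by
    intro b hb
    rw [mem_filter] at hb
    obtain ⟨hb1, hb2, hb3⟩ := hb
    have h5 := hcov (mem_filter.2 ⟨hb1, hb2⟩)
    rw [mem_biUnion] at h5 ⊢
    obtain ⟨s, hs, hbs⟩ := h5
    refine ⟨s, hs, ?_⟩
    obtain ⟨i, j, hij, hbij⟩ := hD b hb3
    rw [mem_biUnion]
    refine ⟨(i, j), mem_univ _, ?_⟩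
    simp only
    rw [if_pos hij, mem_filter]
    exact ⟨hbs, hbij⟩
  have hBpos : 0 < B := by linarith
  have hcount : ((Box.filter (fun b => Adm b ∧ ¬ Dis b)).card : ℝ) ≤
      4 ^ k * ((k : ℝ) ^ 2 * ((∏ i, T i) / B ^ k)) := by
    have hterm : ∀ s ∈ I, ∀ ij : Fin k × Fin k,
        (((if ij.1 ≠ ij.2 then (Fintype.piFinset (S s)).filter (fun b => b ij.1 = b ij.2) else ∅ : Finset (Fin k → ℕ)).card : ℕ) : ℝ) ≤
        (∏ i, T i) / B ^ k := by
      intro s _ ij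
      split_ifs with hij
      · have h5 := card_eq_pair (S s) ij.1 ij.2 hij
        have h6 : (((Fintype.piFinset (S s)).filter (fun b => b ij.1 = b ij.2)).card : ℝ) ≤
            ∏ l ∈ univ.erase ij.2, ((S s l).card : ℝ) := by exact_mod_cast h5
        refine h6.trans ?_
        rw [le_div_iff₀ (by positivity)]
        calc (∏ l ∈ univ.erase ij.2, ((S s l).card : ℝ)) * B ^ k ≤ (∏ l ∈ univ.erase ij.2, T l) * T ij.2 := by
              refine mul_le_mul ?_ (hTbig _) (by positivity) (prod_nonneg fun i _ => (hT0 i).le)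
              exact prod_le_prod (fun i _ => by positivity) fun i _ => hS s i
          _ = ∏ i, T i := by rw [mul_comm, Finset.mul_prod_erase univ _ (mem_univ _)]
      · rw [card_empty, Nat.cast_zero]
        exact div_nonneg (prod_nonneg fun i _ => (hT0 i).le) (by positivity)
    calc ((Box.filter (fun b => Adm b ∧ ¬ Dis b)).card : ℝ)
        ≤ ∑ s ∈ I, ∑ ij : Fin k × Fin k, (((if ij.1 ≠ ij.2 then (Fintype.piFinset (S s)).filter (fun b => b ij.1 = b ij.2) else ∅ : Finset (Fin k → ℕ)).card : ℕ) : ℝ) := by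
          have h5 := (card_le_card hsub).trans (card_biUnion_le.trans (sum_le_sum fun s _ => card_biUnion_le))
          exact_mod_cast h5
      _ ≤ ∑ s ∈ I, ∑ _ij : Fin k × Fin k, (∏ i, T i) / B ^ k :=
          sum_le_sum fun s hs => sum_le_sum fun ij _ => hterm s hs ij
      _ = (I.card : ℝ) * ((k : ℝ) ^ 2 * ((∏ i, T i) / B ^ k)) := by
          rw [sum_const, sum_const, nsmul_eq_mul, nsmul_eq_mul, card_univ, Fintype.card_prod, Fintype.card_fin]
          push_cast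
          ring
      _ ≤ 4 ^ k * ((k : ℝ) ^ 2 * ((∏ i, T i) / B ^ k)) := by
          refine mul_le_mul_of_nonneg_right hI ?_
          have := prod_nonneg (s := (univ : Finset (Fin k))) fun i _ => (hT0 i).le
          positivity
  have hk4 : (k : ℝ) ^ 2 ≤ 4 ^ k := by
    have h5 : k ≤ 2 ^ k := (Nat.lt_two_pow_self).le
    have h6 : (k : ℝ) ≤ 2 ^ k := by exact_mod_cast h5
    calc (k : ℝ) ^ 2 ≤ (2 ^ k) ^ 2 := pow_le_pow_left₀ (by positivity) h6 2
      _ = 4 ^ k := by rw [← pow_mul, mul_comm, pow_mul]; norm_num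
  have hPT : 0 < ∏ i, T i := prod_pos fun i _ => hT0 i
  refine le_trans ?_ hlow
  calc E ^ k * ((Box.filter (fun b => Adm b ∧ ¬ Dis b)).card : ℝ)
      ≤ E ^ k * (4 ^ k * (4 ^ k * ((∏ i, T i) / B ^ k))) := by
        refine mul_le_mul_of_nonneg_left (hcount.trans ?_) (by positivity)
        refine mul_le_mul_of_nonneg_left (mul_le_mul_of_nonneg_right hk4 (by positivity)) (by positivity)
    _ = (16 * E * (1 / B)) ^ k * ∏ i, T i := by
        rw [mul_pow, mul_pow, one_div, inv_pow]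
        have : (16 : ℝ) ^ k = 4 ^ k * 4 ^ k := by rw [← mul_pow]; norm_num
        rw [this]
        ring
    _ ≤ c ^ k * ∏ i, T i := by
        refine mul_le_mul_of_nonneg_right (pow_le_pow_left₀ (by positivity) ?_ k) hPT.le
        rw [mul_one_div, div_le_iff₀ hBpos]
        exact hBE

/-- the largeness used for coincidences -/
lemma T_big (A : ℕ) (CU : ℝ) (hCU : 0 < CU) (B : ℝ) (hB : 1 ≤ B) : ∃ C : ℝ, 1 ≤ C ∧ ∀ k a h : ℕ, 1 ≤ k → 1 ≤ a → a ≤ h ^ A →
    C * k ≤ Real.log h → B ^ k ≤ CU * (h / (Real.log (k + 2) * gg k a)) := by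
  obtain ⟨Cg, hCg, h3, hgg⟩ := gg_le A
  obtain ⟨h4, hlarge⟩ : ∃ h4 : ℕ, ∀ h : ℕ, h4 ≤ h → (h : ℝ) ^ (1 / 2 : ℝ) * (Cg * Real.log h ^ 2) ≤ CU * h ∧ 3 ≤ h := by
    have h3 : (fun x : ℝ => Real.log x ^ 2) =o[atTop] (fun x : ℝ => x ^ (1 / 2 : ℝ)) := by
      have := isLittleO_log_rpow_rpow_atTop ((2 : ℕ) : ℝ) (show (0 : ℝ) < 1 / 2 by norm_num)
      simpa [Real.rpow_natCast] using this
    have h5 := (tendsto_natCast_atTop_atTop.eventually (h3.bound (show (0 : ℝ) < CU / Cg by positivity))).and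
      (eventually_ge_atTop 3)
    obtain ⟨h4, hh4⟩ := eventually_atTop.1 h5
    refine ⟨h4, fun h hh => ?_⟩
    obtain ⟨h6, h8⟩ := hh4 h hh
    have hh0 : (3 : ℝ) ≤ h := by exact_mod_cast h8
    refine ⟨?_, h8⟩
    rw [Real.norm_eq_abs, Real.norm_eq_abs, abs_of_nonneg (by positivity), abs_of_nonneg (by positivity)] at h6
    have h9 : (h : ℝ) ^ (1 / 2 : ℝ) * (h : ℝ) ^ (1 / 2 : ℝ) = h := by
      rw [← Real.rpow_add (by linarith)]
      norm_num
    calc (h : ℝ) ^ (1 / 2 : ℝ) * (Cg * Real.log h ^ 2)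
        ≤ (h : ℝ) ^ (1 / 2 : ℝ) * (Cg * (CU / Cg * (h : ℝ) ^ (1 / 2 : ℝ))) := by
          refine mul_le_mul_of_nonneg_left (mul_le_mul_of_nonneg_left h6 hCg.le) (by positivity)
      _ = CU * ((h : ℝ) ^ (1 / 2 : ℝ) * (h : ℝ) ^ (1 / 2 : ℝ)) := by field_simp
      _ = CU * h := by rw [h9]
  obtain ⟨C, hC⟩ : ∃ C : ℝ, C = max 1 (2 * Real.log B) + Real.log (max h3 h4 + 1 : ℕ) := ⟨_, rfl⟩
  have hN1 : 0 ≤ Real.log (max h3 h4 + 1 : ℕ) := Real.log_natCast_nonneg _
  have hCa : 1 ≤ C := by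
    rw [hC]
    have := le_max_left 1 (2 * Real.log B)
    linarith
  have hCb : 2 * Real.log B ≤ C := by
    rw [hC]
    have := le_max_right 1 (2 * Real.log B)
    linarith
  have hCc : Real.log (max h3 h4 + 1 : ℕ) ≤ C := by
    rw [hC]
    have := le_max_left 1 (2 * Real.log B)
    linarith
  refine ⟨C, hCa, fun k a h hk ha haA hkh => ?_⟩
  have hkr : (1 : ℝ) ≤ k := by exact_mod_cast hk
  have h6 : (0 : ℝ) < h := by
    by_contra hcon
    push Not at hcon
    have h7 : (h : ℝ) = 0 := le_antisymm hcon (Nat.cast_nonneg _)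
    rw [h7, Real.log_zero] at hkh
    nlinarith
  have hbig : max h3 h4 ≤ h := by
    have h5 : Real.log (max h3 h4 + 1 : ℕ) ≤ Real.log h := by nlinarith
    have h7 := (Real.log_le_log_iff (by positivity) h6).1 h5
    have h8 : max h3 h4 + 1 ≤ h := by exact_mod_cast h7
    omega
  have hh3 : h3 ≤ h := le_trans (le_max_left _ _) hbig
  have hh4 : h4 ≤ h := le_trans (le_max_right _ _) hbig
  have hkL : (k : ℝ) ≤ Real.log h := by nlinarith
  have h5 := hgg k a h hh3 ha haA hkL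
  have h7 := (hlarge h hh4).1
  have h9 := one_le_gg k a
  have hlk := log_two_add k
  have h10 : (h : ℝ) ^ (1 / 2 : ℝ) ≤ CU * (h / (Real.log (k + 2) * gg k a)) := by
    rw [← mul_div_assoc, le_div_iff₀ (by positivity)]
    exact le_trans (mul_le_mul_of_nonneg_left h5 (by positivity)) h7
  refine le_trans ?_ h10
  have h11 : B ^ k = Real.exp (k * Real.log B) := by
    rw [Real.exp_nat_mul, Real.exp_log (by linarith)]
  have h12 : (h : ℝ) ^ (1 / 2 : ℝ) = Real.exp (Real.log h * (1 / 2)) :=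
    Real.rpow_def_of_pos h6 _
  rw [h11, h12]
  refine Real.exp_le_exp.2 ?_
  have h13 : 2 * Real.log B * k ≤ C * k := mul_le_mul_of_nonneg_right hCb (by positivity)
  linarith

end Pool.Agent.Q160.GQ
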