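import Mathlib
import Pool.Agent.Q160.GQ6
import Pool.Agent.Q160.GP1
import Pool.Agent.Q239.LC.FirstE

set_option autoImplicit false

/-!
# The first moment along primes, one moving coefficient
-/

namespace Pool.Agent.Q160.GQ

open Finset Filter
open Pool.Agent.H373R2.T7
open Pool.Agent.H305R2 (VV VV_tendsto)
open Pool.Agent.Q160.GK

/-- the size condition -/
def SZ (d K B y : ℕ) (g : Polynomial ℤ) (e : ℕ) : Prop :=
  (y : ℝ) ^ Q239.LC.pw e * Real.log B ^ K ≤ B ∧
    ∑ j ∈ range (d + 1), |((g.coeff j : ℤ) : ℝ)| * (y : ℝ) ^ (j - e) ≤ B ∧ 2 * (g.coeff 0).natAbs ≤ y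

/-- the good values -/
noncomputable def PS (l h y : ℕ) (g : Polynomial ℤ) (e n : ℕ) : Finset ℕ :=
  (Ioc l (l + h)).filter (fun b : ℕ => (vl g e n b).toNat.Prime ∧ (y : ℤ) < vl g e n b)

theorem first_mom (d : ℕ) (hd : 1 ≤ d) : ∃ (η : ℝ) (K : ℕ) (c : ℝ), 0 < η ∧ η ≤ 1 / 32 ∧ 0 < c ∧ 2 ≤ K ∧ ∃ B0 y0 : ℕ,
    ∀ B : ℕ, B0 ≤ B → ∀ y : ℕ, y0 ≤ y → ∀ k : ℕ, 1 ≤ k → (k : ℝ) ≤ Real.log B → ∀ (g : Fin k → Polynomial ℤ) (e : Fin k → ℕ),
    (∀ i, PE d (g i) (e i)) → (∀ i, SZ d K B y (g i) (e i)) →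
    ∃ T : Finset ℕ, T ⊆ (Icc 1 y).filter Nat.Prime ∧ (∀ n ∈ T, y < 2 * n) ∧ c * (y / Real.log y) ≤ T.card ∧
      ∀ n ∈ T, ∀ i, c * (B / Real.log B) ≤
        ((PS (Pool.Agent.W218.LF.lo η B) (2 * B - Pool.Agent.W218.LF.lo η B) y (g i) (e i) n).card : ℝ) := by
  classical
  obtain ⟨K0, hblock⟩ := Q239.LC.blockU d 5
  have hdr : (1 : ℝ) ≤ d := by exact_mod_cast hd
  obtain ⟨η, hη⟩ : ∃ η : ℝ, η = 1 / (32 * (d + 1)) := ⟨_, rfl⟩
  have hη0 : 0 < η := by rw [hη]; positivity
  have hη1 : η ≤ 1 / 32 := by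
    rw [hη]
    exact one_div_le_one_div_of_le (by norm_num) (by linarith)
  have hηc : (2 * (d : ℝ) + 2 * d + 4) * η ≤ 1 / 8 := by
    rw [hη, mul_one_div, div_le_div_iff₀ (by positivity) (by norm_num)]
    linarith
  obtain ⟨B1, hB1⟩ := hblock d η hη0 hηc
  obtain ⟨θ, ρ, hθ, hθ1, hρ, N0, hlow⟩ := primes_low
  -- constants
  obtain ⟨c0, hc0⟩ : ∃ c0 : ℝ, c0 = ρ * η / 2 := ⟨_, rfl⟩
  have hc00 : 0 < c0 := by rw [hc0]; positivity
  obtain ⟨D, hD⟩ : ∃ D : ℝ, D = 16 * 2 ^ d * (2 + d) := ⟨_, rfl⟩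
  have hD0 : 0 < D := by rw [hD]; positivity
  obtain ⟨c, hc⟩ : ∃ c : ℝ, c = min (c0 / 2) (1 / (4 * (2 + d))) := ⟨_, rfl⟩
  have hcpos : 0 < c := by rw [hc]; positivity
  have hcc1 : c ≤ c0 / 2 := by rw [hc]; exact min_le_left _ _
  have hcc2 : c ≤ 1 / (4 * (2 + d)) := by rw [hc]; exact min_le_right _ _
  -- largeness in B
  have hlogt : Tendsto (fun h : ℕ => Real.log (h : ℝ)) atTop atTop :=
    Real.tendsto_log_atTop.comp tendsto_natCast_atTop_atTop
  obtain ⟨B2, hB2⟩ := eventually_atTop.1 (hlogt.eventually_ge_atTop (max 3 (max (2 * D / c0) (4 * (2 + d)))))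
  -- largeness in y
  have hypow : Tendsto (fun y : ℕ => (y : ℝ) ^ (1 - θ)) atTop atTop :=
    (tendsto_rpow_atTop (by linarith)).comp tendsto_natCast_atTop_atTop
  obtain ⟨y1, hy1⟩ := eventually_atTop.1 (hypow.eventually_ge_atTop (2 / η))
  obtain ⟨y2, hy2⟩ := eventually_atTop.1 (tendsto_natCast_atTop_atTop.eventually_ge_atTop
    (max (3 / η) (max (2 * (N0 + 1) / η) (8 / η)) : ℝ))
  refine ⟨η, K0 + 2, c, hη0, hη1, hcpos, by omega, max (max B1 B2) 3, max (max y1 y2) 3, fun B hB y hy k hk hkB g e hg hsz => ?_⟩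
  have hBB1 : B1 ≤ B := by omega
  have hB3 : 3 ≤ B := by omega
  have hBr : (3 : ℝ) ≤ B := by exact_mod_cast hB3
  have hlB := hB2 B (by omega)
  obtain ⟨L, hL⟩ : ∃ L, L = Real.log (B : ℝ) := ⟨_, rfl⟩
  rw [← hL] at hlB hkB
  have hL3 : 3 ≤ L := le_trans (le_max_left _ _) hlB
  have hLD : 2 * D / c0 ≤ L := le_trans (le_trans (le_max_left _ _) (le_max_right _ _)) hlB
  have hLd : 4 * (2 + (d : ℝ)) ≤ L := le_trans (le_trans (le_max_right _ _) (le_max_right _ _)) hlB
  have hyy1 := hy1 y (by omega)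
  have hyy2 := hy2 y (by omega)
  have hyr3 : (3 : ℝ) ≤ y := by exact_mod_cast (by omega : 3 ≤ y)
  have hyη : 3 / η ≤ y := le_trans (le_max_left _ _) hyy2
  have hyN : 2 * ((N0 : ℝ) + 1) / η ≤ y := le_trans (le_trans (le_max_left _ _) (le_max_right _ _)) hyy2
  have hy8 : 8 / η ≤ y := le_trans (le_trans (le_max_right _ _) (le_max_right _ _)) hyy2
  have hly : 0 < Real.log y := Real.log_pos (by linarith)
  -- primes in the short block
  obtain ⟨x, hx⟩ : ∃ x : ℕ, x = ⌊η * y⌋₊ := ⟨_, rfl⟩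
  have hxle : (x : ℝ) ≤ η * y := by rw [hx]; exact Nat.floor_le (by positivity)
  have hxge : η * y / 2 ≤ x := by
    have h1 : η * y < x + 1 := by rw [hx]; exact Nat.lt_floor_add_one _
    have h2 : 8 ≤ η * y := by
      rw [div_le_iff₀ hη0] at hy8
      linarith
    linarith
  have hx8 : 4 ≤ (x : ℝ) := by
    have h2 : 8 ≤ η * y := by
      rw [div_le_iff₀ hη0] at hy8
      linarith
    linarith
  have hxy : x ≤ y := by
    have : (x : ℝ) ≤ y := by nlinarith
    exact_mod_cast this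
  have hxN : N0 ≤ x := by
    have h2 : 2 * ((N0 : ℝ) + 1) ≤ η * y := by
      rw [div_le_iff₀ hη0] at hyN
      linarith
    have h3 : (N0 : ℝ) ≤ x := by linarith
    exact_mod_cast h3
  have hprimes : ρ * (x / Real.log x) ≤ (((Ioc (y - x) (y - x + x)).filter Nat.Prime).card : ℝ) := by
    refine hlow (y - x) x hxN ?_
    have e1 : y - x + x = y := by omega
    rw [e1]
    have h1 : (y : ℝ) ^ θ * (y : ℝ) ^ (1 - θ) = y := by
      rw [← Real.rpow_add (by linarith)]
      norm_num
    have h2 : (y : ℝ) ^ θ * (2 / η) ≤ y := by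
      calc (y : ℝ) ^ θ * (2 / η) ≤ (y : ℝ) ^ θ * (y : ℝ) ^ (1 - θ) := mul_le_mul_of_nonneg_left hyy1 (by positivity)
        _ = y := h1
    have h3 : (y : ℝ) ^ θ ≤ η * y / 2 := by
      rw [← mul_div_assoc, div_le_iff₀ hη0] at h2
      linarith
    linarith
  obtain ⟨T0, hT0⟩ : ∃ T0, T0 = (Ioc (y - x) y).filter Nat.Prime := ⟨_, rfl⟩
  have hT0c : c0 * (y / Real.log y) ≤ T0.card := by
    have e1 : y - x + x = y := by omega
    rw [e1, ← hT0] at hprimes
    refine le_trans ?_ hprimes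
    have h1 : Real.log x ≤ Real.log y := Real.log_le_log (by linarith) (by exact_mod_cast hxy)
    have h2 : 0 < Real.log x := Real.log_pos (by linarith)
    calc c0 * (y / Real.log y) = ρ * ((η * y / 2) / Real.log y) := by rw [hc0]; ring
      _ ≤ ρ * (x / Real.log x) := by
          refine mul_le_mul_of_nonneg_left ?_ hρ.le
          exact div_le_div₀ (by linarith) hxge h2 h1
  have hT0m : ∀ t ∈ T0, (1 - η) * y < t ∧ (t : ℝ) ≤ y ∧ t.Prime ∧ 1 ≤ t ∧ y < 2 * t := by
    intro t ht
    rw [hT0, mem_filter, mem_Ioc] at ht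
    have h1 : ((y : ℝ) - x) < t := by
      have h2 : y < t + x := by omega
      have h3 : (y : ℝ) < t + x := by exact_mod_cast h2
      linarith
    have h4 : (1 - η) * y < t := by nlinarith
    refine ⟨h4, by exact_mod_cast ht.1.2, ht.2, ht.2.pos, ?_⟩
    have h5 : (y : ℝ) < 2 * t := by nlinarith
    exact_mod_cast h5
  -- `y ≤ B / L²`
  have hyB : ∀ i : Fin k, (y : ℝ) * L ^ 2 ≤ B := by
    intro i
    have h1 := (hsz i).1
    rw [← hL] at h1
    have h2 : (y : ℝ) ≤ (y : ℝ) ^ Q239.LC.pw (e i) := by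
      calc (y : ℝ) = (y : ℝ) ^ 1 := (pow_one _).symm
        _ ≤ _ := pow_le_pow_right₀ (by linarith) (Q239.LC.pw_pos _)
    have h3 : L ^ 2 ≤ L ^ (K0 + 2) := pow_le_pow_right₀ (by linarith) (by omega)
    calc (y : ℝ) * L ^ 2 ≤ (y : ℝ) ^ Q239.LC.pw (e i) * L ^ (K0 + 2) :=
          mul_le_mul h2 h3 (by positivity) (by positivity)
      _ ≤ B := h1
  -- the bad sets
  obtain ⟨l, hl⟩ : ∃ l, l = Pool.Agent.W218.LF.lo η B := ⟨_, rfl⟩
  obtain ⟨CN, hCN⟩ : ∃ CN : Fin k → ℕ → ℝ, CN = fun i t => (((Ioc l (2 * B)).filter (fun b : ℕ => (vl (g i) (e i) t b).toNat.Prime)).card : ℝ) := ⟨_, rfl⟩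
  obtain ⟨Q, hQ⟩ : ∃ Q : Fin k → ℝ, Q = fun i => B / Real.log (3 * B * (y : ℝ) ^ e i) := ⟨_, rfl⟩
  have hlogQ : ∀ i, 0 < Real.log (3 * B * (y : ℝ) ^ e i) ∧ Real.log (3 * B * (y : ℝ) ^ e i) ≤ (2 + d) * L := by
    intro i
    have hye : (1 : ℝ) ≤ (y : ℝ) ^ e i := one_le_pow₀ (by linarith)
    have h1 : (3 : ℝ) < 3 * B * (y : ℝ) ^ e i := by nlinarith
    refine ⟨Real.log_pos (by linarith), ?_⟩
    have hylB : (y : ℝ) ≤ B := by
      have := hyB i
      have h2 : (1 : ℝ) ≤ L ^ 2 := one_le_pow₀ (by linarith)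
      nlinarith
    have h2 : 3 * B * (y : ℝ) ^ e i ≤ (B : ℝ) ^ (2 + d) := by
      calc 3 * B * (y : ℝ) ^ e i ≤ B * B * (B : ℝ) ^ d := by
            refine mul_le_mul ?_ ?_ (by positivity) (by positivity)
            · nlinarith
            · exact (pow_le_pow_left₀ (by linarith) hylB _).trans (pow_le_pow_right₀ (by linarith) (hg i).2.2.2)
        _ = (B : ℝ) ^ (2 + d) := by ring
    have h3 := Real.log_le_log (by linarith) h2
    rw [Real.log_pow, ← hL] at h3
    push_cast at h3
    exact h3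
  have hQ0 : ∀ i, 0 < Q i := fun i => by
    rw [hQ]
    have := (hlogQ i).1
    positivity
  obtain ⟨bad, hbad⟩ : ∃ bad : Fin k → Finset ℕ, bad = fun i => T0.filter (fun t => CN i t < 1 / 2 * Q i) := ⟨_, rfl⟩
  have hbadc : ∀ i, ((bad i).card : ℝ) ≤ D * (y / L ^ 4) := by
    intro i
    obtain ⟨hge, hg0, hgd, hed⟩ := hg i
    have hvar := Q239.LC.poly_varE hgd (x := y) (B := B) (η := η) (y := (y : ℝ)) (e := e i) hη0 (by linarith)
      (by linarith) le_rfl (hsz i).2.1
    have h1 := hB1 (e i) (hg i).one_le_e hed B hBB1 y (y : ℝ)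
      (∑ j ∈ range (d + 1), (((g i).coeff j : ℤ) : ℝ) * (y : ℝ) ^ j) (fun t => (g i).eval (t : ℤ)) T0 hyη le_rfl
      (by
        have h2 := (hsz i).1
        refine le_trans (mul_le_mul_of_nonneg_left ?_ (by positivity)) h2
        rw [← hL]
        exact pow_le_pow_right₀ (by linarith) (by omega)) hvar.1
      (by
        intro t ht
        obtain ⟨h2, h3, h4, h5, h6⟩ := hT0m t ht
        refine ⟨h2, h3, ?_, hvar.2 t h2 h3⟩
        rw [Nat.Prime.coprime_iff_not_dvd h4]
        intro h7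
        have h8 : (t : ℤ) ∣ (g i).eval (t : ℤ) := Int.natCast_dvd.2 h7
        have h9 : ((t : ℤ) - 0) ∣ (g i).eval (t : ℤ) - (g i).eval 0 := Polynomial.sub_dvd_eval_sub _ _ _
        rw [sub_zero] at h9
        have h10 : (t : ℤ) ∣ (g i).eval 0 := by
          have := dvd_sub h8 h9
          rwa [sub_sub_cancel] at this
        rw [← Polynomial.coeff_zero_eq_eval_zero] at h10
        have h11 := Nat.le_of_dvd (Int.natAbs_pos.2 hg0) (Int.natCast_dvd.1 h10)
        have h12 := (hsz i).2.2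
        omega)
    have h2 : ((bad i).card : ℝ) * (3 / 8 * Q i) ≤ 6 * 2 ^ d * (B * y / L ^ 5) := by
      rw [← hL] at h1
      refine le_trans ?_ h1
      calc ((bad i).card : ℝ) * (3 / 8 * Q i) = ∑ _t ∈ bad i, (3 / 8 * Q i) := by rw [sum_const, nsmul_eq_mul]
        _ ≤ ∑ t ∈ bad i, max 0 ((1 - (2 * (d : ℝ) + 2 * d + 4) * η) * (B / Real.log (3 * B * (y : ℝ) ^ e i)) *
              Pool.Agent.Erdos456.GG t - ∑ b ∈ Ioc (Pool.Agent.W218.LF.lo η B) (2 * B),
              Pool.Agent.W218.LF.pr ((g i).eval (t : ℤ) + b * ((t ^ e i : ℕ) : ℤ))) := by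
            refine sum_le_sum fun t ht => ?_
            refine le_trans ?_ (le_max_right _ _)
            rw [hbad] at ht
            simp only [mem_filter] at ht
            have h3 := ht.2
            have h4 : ∑ b ∈ Ioc (Pool.Agent.W218.LF.lo η B) (2 * B),
              Pool.Agent.W218.LF.pr ((g i).eval (t : ℤ) + b * ((t ^ e i : ℕ) : ℤ)) = CN i t := by
              rw [hCN, ← hl]
              simp only
              rw [card_filter]
              push_cast
              refine sum_congr rfl fun b _ => ?_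
              unfold Pool.Agent.W218.LF.pr vl
              push_cast
              rfl
            rw [h4]
            have h5 := Pool.Agent.Erdos456.one_le_GG (hT0m t ht.1).2.2.2.1
            have h6 : 7 / 8 ≤ 1 - (2 * (d : ℝ) + 2 * d + 4) * η := by linarith
            have h7 : Q i = B / Real.log (3 * B * (y : ℝ) ^ e i) := by rw [hQ]
            rw [← h7]
            have h8 : 7 / 8 * Q i ≤ (1 - (2 * (d : ℝ) + 2 * d + 4) * η) * Q i * Pool.Agent.Erdos456.GG t := by
              have h9 := hQ0 i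
              calc 7 / 8 * Q i = 7 / 8 * Q i * 1 := by ring
                _ ≤ (1 - (2 * (d : ℝ) + 2 * d + 4) * η) * Q i * Pool.Agent.Erdos456.GG t := by
                    refine mul_le_mul (mul_le_mul_of_nonneg_right h6 h9.le) h5 zero_le_one (by nlinarith)
            linarith
        _ ≤ _ := by
            refine sum_le_sum_of_subset_of_nonneg ?_ fun t _ _ => le_max_left _ _
            rw [hbad]
            exact filter_subset _ _
    have h3 : (B : ℝ) ≤ Q i * ((2 + d) * L) := by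
      rw [hQ]
      simp only
      have h4 := hlogQ i
      rw [div_mul_eq_mul_div, le_div_iff₀ h4.1]
      exact mul_le_mul_of_nonneg_left h4.2 (by linarith)
    have h5 : ((bad i).card : ℝ) * (3 / 8 * Q i) ≤ D * (y / L ^ 4) * (3 / 8 * Q i) := by
      refine h2.trans ?_
      calc 6 * 2 ^ d * (B * y / L ^ 5) ≤ 6 * 2 ^ d * ((Q i * ((2 + d) * L)) * y / L ^ 5) := by
            refine mul_le_mul_of_nonneg_left ?_ (by positivity)
            refine div_le_div_of_nonneg_right ?_ (by positivity)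
            exact mul_le_mul_of_nonneg_right h3 (by linarith)
        _ = D * (y / L ^ 4) * (3 / 8 * Q i) := by
            rw [hD]
            have : L ≠ 0 := by linarith
            field_simp
            ring
    exact le_of_mul_le_mul_right h5 (by have := hQ0 i; positivity)
  obtain ⟨T, hT⟩ : ∃ T, T = T0 \ (univ : Finset (Fin k)).biUnion bad := ⟨_, rfl⟩
  refine ⟨T, ?_, ?_, ?_, ?_⟩
  · intro t ht
    rw [hT, Finset.mem_sdiff] at ht
    have h1 := hT0m t ht.1
    rw [mem_filter, mem_Icc]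
    exact ⟨⟨h1.2.2.2.1, by exact_mod_cast h1.2.1⟩, h1.2.2.1⟩
  · intro t ht
    rw [hT, Finset.mem_sdiff] at ht
    exact (hT0m t ht.1).2.2.2.2
  · have h1 : (((univ : Finset (Fin k)).biUnion bad).card : ℝ) ≤ D * (y / L ^ 3) := by
      calc (((univ : Finset (Fin k)).biUnion bad).card : ℝ) ≤ ∑ i : Fin k, ((bad i).card : ℝ) := by
            exact_mod_cast card_biUnion_le
        _ ≤ ∑ _i : Fin k, D * (y / L ^ 4) := sum_le_sum fun i _ => hbadc i
        _ = k * (D * (y / L ^ 4)) := by rw [sum_const, card_univ, Fintype.card_fin, nsmul_eq_mul]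
        _ ≤ L * (D * (y / L ^ 4)) := mul_le_mul_of_nonneg_right hkB (by positivity)
        _ = D * (y / L ^ 3) := by
            have : L ≠ 0 := by linarith
            field_simp
    have h2 : (T0.card : ℝ) ≤ T.card + (((univ : Finset (Fin k)).biUnion bad).card : ℝ) := by
      have h3 : T0.card ≤ T.card + ((univ : Finset (Fin k)).biUnion bad).card := by
        rw [hT]
        have := Finset.card_sdiff_add_card T0 ((univ : Finset (Fin k)).biUnion bad)
        have h4 := Finset.card_le_card (Finset.subset_union_left (s₁ := T0) (s₂ := (univ : Finset (Fin k)).biUnion bad))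
        omega
      exact_mod_cast h3
    have i0 : Fin k := ⟨0, hk⟩
    have h3 : D * (y / L ^ 3) ≤ c0 / 2 * (y / Real.log y) := by
      have hlyL : Real.log y ≤ L := by
        rw [hL]
        refine Real.log_le_log (by linarith) ?_
        have := hyB i0
        have h2 : (1 : ℝ) ≤ L ^ 2 := one_le_pow₀ (by linarith)
        nlinarith
      have h4 : D / L ^ 3 ≤ c0 / 2 / Real.log y := by
        rw [div_le_div_iff₀ (by positivity) hly]
        rw [div_le_iff₀ hc00] at hLD
        calc D * Real.log y ≤ D * L := mul_le_mul_of_nonneg_left hlyL hD0.le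
          _ ≤ (L * c0 / 2) * L := mul_le_mul_of_nonneg_right (by linarith) (by linarith)
          _ ≤ c0 / 2 * L ^ 3 := by
              have : 0 ≤ c0 / 2 * L ^ 2 * (L - 1) := by
                have : 0 ≤ L - 1 := by linarith
                positivity
              nlinarith
      calc D * (y / L ^ 3) = y * (D / L ^ 3) := by ring
        _ ≤ y * (c0 / 2 / Real.log y) := mul_le_mul_of_nonneg_left h4 (by linarith)
        _ = _ := by ring
    have h4 : c * (y / Real.log y) ≤ c0 / 2 * (y / Real.log y) :=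
      mul_le_mul_of_nonneg_right hcc1 (by positivity)
    linarith
  · intro n hn i
    rw [hT, Finset.mem_sdiff] at hn
    have h1 := hT0m n hn.1
    have h2 : ¬ CN i n < 1 / 2 * Q i := by
      intro h3
      apply hn.2
      rw [mem_biUnion]
      exact ⟨i, mem_univ _, by rw [hbad]; exact mem_filter.2 ⟨hn.1, h3⟩⟩
    push Not at h2
    rw [hCN] at h2
    simp only at h2
    rw [← hl, ← hL]
    have hlB2 : l + (2 * B - l) = 2 * B := by
      have h3 : l ≤ 2 * B := by
        rw [hl]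
        unfold Pool.Agent.W218.LF.lo
        refine Nat.floor_le_of_le ?_
        push_cast
        nlinarith
      omega
    have hN0 : 0 < n ^ e i := pow_pos h1.2.2.1.pos _
    have h3 : (((Ioc l (2 * B)).filter (fun b : ℕ => (vl (g i) (e i) n b).toNat.Prime)).card : ℝ) ≤
        ((PS l (2 * B - l) y (g i) (e i) n).card : ℝ) + y := by
      have h4 : (Ioc l (2 * B)).filter (fun b : ℕ => (vl (g i) (e i) n b).toNat.Prime) ⊆
          PS l (2 * B - l) y (g i) (e i) n ∪
          (Ioc l (2 * B)).filter (fun b : ℕ => 0 < vl (g i) (e i) n b ∧ vl (g i) (e i) n b ≤ y) := by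
        intro b hb
        rw [mem_filter] at hb
        rw [mem_union]
        unfold PS
        rw [mem_filter, mem_filter, hlB2]
        have h5 := hb.2.pos
        by_cases h6 : (y : ℤ) < vl (g i) (e i) n b
        · exact Or.inl ⟨hb.1, hb.2, h6⟩
        · exact Or.inr ⟨hb.1, by omega, by omega⟩
      have h5 : ((Ioc l (2 * B)).filter (fun b : ℕ => 0 < vl (g i) (e i) n b ∧ vl (g i) (e i) n b ≤ y)).card ≤ y := by
        have h6 : ((Ioc l (2 * B)).filter (fun b : ℕ => 0 < vl (g i) (e i) n b ∧ vl (g i) (e i) n b ≤ y)).card ≤ (Icc 1 y).card := by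
          refine card_le_card_of_injOn (fun b : ℕ => (vl (g i) (e i) n b).toNat) ?_ ?_
          · intro b hb
            rw [Finset.mem_coe, mem_filter] at hb
            rw [Finset.mem_coe, mem_Icc]
            simp only
            omega
          · intro b hb b' hb' hbb
            rw [Finset.mem_coe, mem_filter] at hb hb'
            simp only at hbb
            have h7 : vl (g i) (e i) n b = vl (g i) (e i) n b' := by
              have h8 := Int.toNat_of_nonneg hb.2.1.le
              have h9 := Int.toNat_of_nonneg hb'.2.1.le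
              rw [← h8, ← h9, hbb]
            unfold vl at h7
            have h8 : (b : ℤ) * ((n ^ e i : ℕ) : ℤ) = (b' : ℤ) * ((n ^ e i : ℕ) : ℤ) := by linarith
            have h9 := mul_right_cancel₀ (by exact_mod_cast hN0.ne') h8
            exact_mod_cast h9
        rwa [Nat.card_Icc, Nat.add_sub_cancel] at h6
      have h6 := (card_le_card h4).trans (card_union_le _ _)
      have h7 : ((Ioc l (2 * B)).filter (fun b : ℕ => (vl (g i) (e i) n b).toNat.Prime)).card ≤
        (PS l (2 * B - l) y (g i) (e i) n).card + y := by omega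
      exact_mod_cast h7
    have h4 : 1 / (2 * (2 + d)) * (B / L) ≤ 1 / 2 * Q i := by
      rw [hQ]
      simp only
      have h5 := hlogQ i
      have h6 : (B : ℝ) / ((2 + d) * L) ≤ B / Real.log (3 * B * (y : ℝ) ^ e i) :=
        div_le_div_of_nonneg_left (by linarith) h5.1 h5.2
      calc 1 / (2 * (2 + d)) * (B / L) = 1 / 2 * (B / ((2 + d) * L)) := by
            field_simp
        _ ≤ _ := mul_le_mul_of_nonneg_left h6 (by norm_num)
    have h5 : (y : ℝ) ≤ 1 / (4 * (2 + d)) * (B / L) := by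
      have h6 := hyB i
      have h7 : (y : ℝ) ≤ B / L ^ 2 := by
        rw [le_div_iff₀ (by positivity)]
        exact h6
      refine h7.trans ?_
      have h8 : (B : ℝ) / L ^ 2 = 1 / L * (B / L) := by
        have : L ≠ 0 := by linarith
        field_simp
      rw [h8]
      refine mul_le_mul_of_nonneg_right ?_ (by positivity)
      exact one_div_le_one_div_of_le (by positivity) hLd
    have h6 : c * (B / L) ≤ 1 / (4 * (2 + d)) * (B / L) := mul_le_mul_of_nonneg_right hcc2 (by positivity)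
    have h7 : 1 / (2 * (2 + (d : ℝ))) * (B / L) = 1 / (4 * (2 + d)) * (B / L) + 1 / (4 * (2 + d)) * (B / L) := by
      field_simp
      ring
    linarith

end Pool.Agent.Q160.GQ
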