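import Mathlib
import Pool.Agent.Q160.GQ7
import Pool.Agent.Q160.GP5

set_option autoImplicit false

/-!
# Growing systems with one moving coefficient each, along primes
-/

namespace Pool.Agent.Q160.GQ

open Finset Filter
open Pool.Agent.H373R2.T7
open Pool.Agent.H305R2 (VV VV_tendsto)
open Pool.Agent.Q160.GK
open Pool.Agent.Q160.GP (gg_le_VV VV_small)

open Classical in
/-- bounds for the number of admissible vectors -/
theorem adm_bounds (A d : ℕ) (E : ℝ) (hE : 2 ≤ E) : ∃ CA c C : ℝ, 0 < CA ∧ 0 < c ∧ 1 ≤ C ∧ ∀ k : ℕ, 1 ≤ k →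
    ∀ (g : Fin k → Polynomial ℤ) (e : Fin k → ℕ), ∀ l h : ℕ, (∀ i, PE d (g i) (e i)) → (∀ i, cz (g i) ≤ h ^ A) →
    C * k ≤ Real.log h →
    (((Fintype.piFinset (fun _ : Fin k => Ioc l (l + h))).filter (fun b => AdmL g e b)).card : ℝ) ≤
      ∏ i, (CA * (h / (Real.log (k + 2) * gg k (cz (g i))))) ∧
    ∏ i, (c * (h / (Real.log (k + 2) * gg k (cz (g i))))) ≤
      (((Fintype.piFinset (fun _ : Fin k => Ioc l (l + h))).filter (fun b => AdmL g e b ∧ DistL g e b)).card : ℝ) ∧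
    E ^ k * (((Fintype.piFinset (fun _ : Fin k => Ioc l (l + h))).filter (fun b => AdmL g e b ∧ ¬ DistL g e b)).card : ℝ) ≤
      (((Fintype.piFinset (fun _ : Fin k => Ioc l (l + h))).filter (fun b => AdmL g e b)).card : ℝ) := by
  obtain ⟨CU, h1, hCU, hcover⟩ := admL_cover A
  obtain ⟨c, h2, hc, hlow⟩ := admL_lower A d
  obtain ⟨B, hB⟩ : ∃ B : ℝ, B = max 1 (16 * E * (CU / c)) := ⟨_, rfl⟩
  have hB1 : 1 ≤ B := by rw [hB]; exact le_max_left _ _
  have hB2 : 16 * E * (CU / c) ≤ B := by rw [hB]; exact le_max_right _ _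
  obtain ⟨C1, hC1, hbig⟩ := T_big A CU hCU B hB1
  obtain ⟨C, hC⟩ : ∃ C : ℝ, C = max C1 (max (d + 1) (Real.log (max h1 h2 + 3 : ℕ))) := ⟨_, rfl⟩
  have hCa : C1 ≤ C := by rw [hC]; exact le_max_left _ _
  have hCb : (d : ℝ) + 1 ≤ C := by rw [hC]; exact le_trans (le_max_left _ _) (le_max_right _ _)
  have hCc : Real.log (max h1 h2 + 3 : ℕ) ≤ C := by rw [hC]; exact le_trans (le_max_right _ _) (le_max_right _ _)
  refine ⟨4 * CU, c / 2, C, by positivity, by positivity, hC1.trans hCa, fun k hk g e l h hg haA hkh => ?_⟩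
  have hkr : (1 : ℝ) ≤ k := by exact_mod_cast hk
  have hhpos : (0 : ℝ) < h := by
    by_contra hcon
    push Not at hcon
    have h7 : (h : ℝ) = 0 := le_antisymm hcon (Nat.cast_nonneg _)
    rw [h7, Real.log_zero] at hkh
    nlinarith
  have hh3 : max h1 h2 + 3 ≤ h := by
    have h5 : Real.log (max h1 h2 + 3 : ℕ) ≤ Real.log h := by nlinarith
    have h7 := (Real.log_le_log_iff (by positivity) hhpos).1 h5
    exact_mod_cast h7
  have hkL : (k : ℝ) ≤ Real.log h := by nlinarith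
  have hkdL : ((k * d + 1 : ℕ) : ℝ) ≤ Real.log h := by
    push_cast
    nlinarith
  obtain ⟨ι, I, S, hI, hS, hcov⟩ := hcover k d g e l h (by omega) hg haA hkL
  have hlw := hlow k hk g e l h (by omega) hg haA hkdL
  obtain ⟨T, hT⟩ : ∃ T : Fin k → ℝ, T = fun i => CU * (h / (Real.log (k + 2) * gg k (cz (g i)))) := ⟨_, rfl⟩
  have hlk := log_two_add k
  have hT0 : ∀ i, 0 < T i := fun i => by
    rw [hT]
    have := one_le_gg k (cz (g i))
    positivity
  have hTbig : ∀ i, B ^ k ≤ T i := fun i => by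
    rw [hT]
    exact hbig k (cz (g i)) h hk (cz_pos (hg i).ne_zero) (haA i) (le_trans (mul_le_mul_of_nonneg_right hCa (by positivity)) hkh)
  obtain ⟨NA, hNA⟩ : ∃ NA : ℝ, NA = (((Fintype.piFinset (fun _ : Fin k => Ioc l (l + h))).filter (fun b => AdmL g e b)).card : ℝ) := ⟨_, rfl⟩
  obtain ⟨ND, hND⟩ : ∃ ND : ℝ, ND = (((Fintype.piFinset (fun _ : Fin k => Ioc l (l + h))).filter (fun b => AdmL g e b ∧ DistL g e b)).card : ℝ) := ⟨_, rfl⟩
  obtain ⟨NC, hNC⟩ : ∃ NC : ℝ, NC = (((Fintype.piFinset (fun _ : Fin k => Ioc l (l + h))).filter (fun b => AdmL g e b ∧ ¬ DistL g e b)).card : ℝ) := ⟨_, rfl⟩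
  have hlw2 : ∏ i, (c * (h / (Real.log (k + 2) * gg k (cz (g i))))) ≤ NA := by
    rw [hNA]
    exact hlw
  have hcoinc : E ^ k * NC ≤ NA := by
    have h5 := coinc_abs hk (Fintype.piFinset (fun _ : Fin k => Ioc l (l + h))) (fun b => AdmL g e b) (fun b => DistL g e b)
      (fun b hb => by
        unfold DistL at hb
        push Not at hb
        obtain ⟨i, j, hij, -, -, h6⟩ := hb
        exact ⟨i, j, hij, h6⟩) ι I S hI T hT0 (fun s i => by rw [hT]; exact hS s i)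
      hcov B E (c / CU) (by linarith) (by positivity) hB1
      (by
        rw [div_mul_eq_mul_div, le_div_iff₀ hCU]
        calc 16 * E * CU = c * (16 * E * (CU / c)) := by field_simp
          _ ≤ c * B := mul_le_mul_of_nonneg_left hB2 hc.le) hTbig
      (by
        refine le_trans (le_of_eq ?_) hlw
        have h5 : (c / CU) ^ k = ∏ _i : Fin k, (c / CU) := by rw [prod_const, card_univ, Fintype.card_fin]
        rw [h5, ← prod_mul_distrib, hT]
        refine prod_congr rfl fun i _ => ?_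
        field_simp)
    rw [hNC, hNA]
    exact h5
  rw [← hNA, ← hND, ← hNC]
  have hsum : NA = ND + NC := by
    rw [hNA, hND, hNC]
    have := Finset.card_filter_add_card_filter_not (s := (Fintype.piFinset (fun _ : Fin k => Ioc l (l + h))).filter (fun b => AdmL g e b))
      (fun b => DistL g e b)
    rw [filter_filter, filter_filter] at this
    exact_mod_cast this.symm
  have hNC0 : 0 ≤ NC := by rw [hNC]; positivity
  refine ⟨?_, ?_, hcoinc⟩
  · rw [hNA]
    calc (((Fintype.piFinset (fun _ : Fin k => Ioc l (l + h))).filter (fun b => AdmL g e b)).card : ℝ)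
        ≤ ∑ s ∈ I, ((Fintype.piFinset (S s)).card : ℝ) := by
          exact_mod_cast (card_le_card hcov).trans card_biUnion_le
      _ ≤ ∑ _s ∈ I, ∏ i, (CU * ((h : ℝ) / (Real.log (k + 2) * gg k (cz (g i))))) := by
          refine sum_le_sum fun s _ => ?_
          rw [Fintype.card_piFinset]
          push_cast
          exact prod_le_prod (fun i _ => by positivity) fun i _ => hS s i
      _ = I.card * ∏ i, (CU * ((h : ℝ) / (Real.log (k + 2) * gg k (cz (g i))))) := by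
          rw [sum_const, nsmul_eq_mul]
      _ ≤ 4 ^ k * ∏ i, (CU * ((h : ℝ) / (Real.log (k + 2) * gg k (cz (g i))))) := by
          refine mul_le_mul_of_nonneg_right hI (prod_nonneg fun i _ => ?_)
          have := one_le_gg k (cz (g i))
          positivity
      _ = _ := by
          have h6 : (4 : ℝ) ^ k = ∏ _i : Fin k, (4 : ℝ) := by rw [prod_const, card_univ, Fintype.card_fin]
          rw [h6, ← prod_mul_distrib]
          refine prod_congr rfl fun i _ => ?_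
          ring
  · have h7 : 2 * NC ≤ E ^ k * NC := by
      refine mul_le_mul_of_nonneg_right ?_ hNC0
      calc (2 : ℝ) ≤ E ^ 1 := by rw [pow_one]; exact hE
        _ ≤ E ^ k := pow_le_pow_right₀ (by linarith) hk
    have h8 : NA ≤ 2 * ND := by linarith
    have h9 : ∏ i, (c / 2 * ((h : ℝ) / (Real.log (k + 2) * gg k (cz (g i))))) ≤
        1 / 2 * ∏ i, (c * ((h : ℝ) / (Real.log (k + 2) * gg k (cz (g i))))) := by
      have h10 : ∏ i, (c / 2 * ((h : ℝ) / (Real.log (k + 2) * gg k (cz (g i))))) =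
          (1 / 2) ^ k * ∏ i, (c * ((h : ℝ) / (Real.log (k + 2) * gg k (cz (g i))))) := by
        have : ((1 : ℝ) / 2) ^ k = ∏ _i : Fin k, ((1 : ℝ) / 2) := by rw [prod_const, card_univ, Fintype.card_fin]
        rw [this, ← prod_mul_distrib]
        refine prod_congr rfl fun i _ => ?_
        ring
      rw [h10]
      refine mul_le_mul_of_nonneg_right ?_ (prod_nonneg fun i _ => ?_)
      · calc ((1 : ℝ) / 2) ^ k ≤ (1 / 2) ^ 1 := pow_le_pow_of_le_one (by norm_num) (by norm_num) hk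
          _ = 1 / 2 := pow_one _
      · have := one_le_gg k (cz (g i))
        positivity
    linarith

/-- the factor of a prime power -/
lemma gg_prime_pow {k n e : ℕ} (hn : n.Prime) (he : 1 ≤ e) : gg k (n ^ e) ≤ (1 - (n : ℝ)⁻¹)⁻¹ := by
  unfold gg
  rw [Nat.primeFactors_prime_pow (by omega) hn]
  refine (prod_le_prod_sub (filter_subset _ _) fun p hp => ?_).trans (le_of_eq (prod_singleton _ _))
  rw [mem_singleton] at hp
  rw [hp]
  exact hn.two_le

lemma gg_mul_le2 {k a b : ℕ} (ha : 0 < a) (hb : 0 < b) : gg k (a * b) ≤ gg k a * gg k b := by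
  unfold gg
  rw [Nat.primeFactors_mul ha.ne' hb.ne', filter_union]
  exact GP.prod_union_le (fun p hp => pf_two (mem_filter.1 hp).1) (fun p hp => pf_two (mem_filter.1 hp).1)

/-- the two arguments -/
lemma gg_two_pow {k n m e : ℕ} (hn : n.Prime) (hm : m.Prime) (he : 1 ≤ e) (hkn : k < n) (hkm : k < m) :
    gg k (n ^ e * m ^ e) ^ k ≤ 49 := by
  have hn0 : (0 : ℝ) < n := by exact_mod_cast hn.pos
  have hm0 : (0 : ℝ) < m := by exact_mod_cast hm.pos
  have h1 : gg k (n ^ e * m ^ e) ≤ (1 - (n : ℝ)⁻¹)⁻¹ * (1 - (m : ℝ)⁻¹)⁻¹ := by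
    refine (gg_mul_le2 (pow_pos hn.pos _) (pow_pos hm.pos _)).trans ?_
    exact mul_le_mul (gg_prime_pow hn he) (gg_prime_pow hm he) (zero_le_one.trans (one_le_gg _ _))
      (zero_le_one.trans (one_le_fac hn.two_le))
  have h2 := fac_pow hn.two_le hkn
  have h3 := fac_pow hm.two_le hkm
  have h4 : 1 + 6 * (k : ℝ) / n ≤ 7 := by
    have : (k : ℝ) ≤ n := by exact_mod_cast hkn.le
    have h5 : 6 * (k : ℝ) / n ≤ 6 := by
      rw [div_le_iff₀ hn0]
      linarith
    linarith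
  have h5 : 1 + 6 * (k : ℝ) / m ≤ 7 := by
    have : (k : ℝ) ≤ m := by exact_mod_cast hkm.le
    have h5 : 6 * (k : ℝ) / m ≤ 6 := by
      rw [div_le_iff₀ hm0]
      linarith
    linarith
  calc gg k (n ^ e * m ^ e) ^ k ≤ ((1 - (n : ℝ)⁻¹)⁻¹ * (1 - (m : ℝ)⁻¹)⁻¹) ^ k :=
        pow_le_pow_left₀ (zero_le_one.trans (one_le_gg _ _)) h1 k
    _ = ((1 - (n : ℝ)⁻¹)⁻¹) ^ k * ((1 - (m : ℝ)⁻¹)⁻¹) ^ k := mul_pow _ _ _
    _ ≤ 7 * 7 := by
        refine mul_le_mul (h2.trans h4) (h3.trans h5) ?_ (by norm_num)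
        exact pow_nonneg (zero_le_one.trans (one_le_fac hm.two_le)) _
    _ = 49 := by norm_num

lemma eval_bound {d B y : ℕ} {g : Polynomial ℤ} {e : ℕ} (hd : g.natDegree ≤ d)
    (hs : ∑ j ∈ range (d + 1), |((g.coeff j : ℤ) : ℝ)| * (y : ℝ) ^ (j - e) ≤ B) (hy : 1 ≤ y) (n : ℕ) (hn : n ≤ y) :
    |((g.eval (n : ℤ) : ℤ) : ℝ)| ≤ B * (y : ℝ) ^ e := by
  have hyr : (1 : ℝ) ≤ y := by exact_mod_cast hy
  have hnr : (n : ℝ) ≤ y := by exact_mod_cast hn
  rw [Polynomial.eval_eq_sum_range' (Nat.lt_succ_of_le hd)]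
  push_cast
  calc |∑ j ∈ range (d + 1), ((g.coeff j : ℤ) : ℝ) * (n : ℝ) ^ j|
      ≤ ∑ j ∈ range (d + 1), |((g.coeff j : ℤ) : ℝ) * (n : ℝ) ^ j| := abs_sum_le_sum_abs _ _
    _ ≤ ∑ j ∈ range (d + 1), (|((g.coeff j : ℤ) : ℝ)| * (y : ℝ) ^ (j - e)) * (y : ℝ) ^ e := by
        refine sum_le_sum fun j _ => ?_
        rw [abs_mul, abs_of_nonneg (show (0 : ℝ) ≤ (n : ℝ) ^ j by positivity), mul_assoc, ← pow_add]
        refine mul_le_mul_of_nonneg_left ?_ (abs_nonneg _)
        exact (pow_le_pow_left₀ (by positivity) hnr _).trans (pow_le_pow_right₀ hyr (by omega))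
    _ = (∑ j ∈ range (d + 1), |((g.coeff j : ℤ) : ℝ)| * (y : ℝ) ^ (j - e)) * (y : ℝ) ^ e := by rw [sum_mul]
    _ ≤ B * (y : ℝ) ^ e := mul_le_mul_of_nonneg_right hs (by positivity)

/-- a prime not dividing the constant term does not divide the value -/
lemma not_dvd_eval {g : Polynomial ℤ} (hg0 : g.coeff 0 ≠ 0) {n p : ℕ} (hlt : (g.coeff 0).natAbs < p) (hpn : p ∣ n) :
    ¬ (p : ℤ) ∣ g.eval (n : ℤ) := by
  intro h8
  have h9 : ((n : ℤ) - 0) ∣ g.eval (n : ℤ) - g.eval 0 := Polynomial.sub_dvd_eval_sub _ _ _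
  rw [sub_zero] at h9
  have h10 : (p : ℤ) ∣ g.eval 0 := by
    have := dvd_sub h8 ((Int.natCast_dvd_natCast.2 hpn).trans h9)
    rwa [sub_sub_cancel] at this
  rw [← Polynomial.coeff_zero_eq_eval_zero] at h10
  have h11 := Nat.le_of_dvd (Int.natAbs_pos.2 hg0) (Int.natCast_dvd.1 h10)
  omega

/-- the determinants do not vanish -/
lemma dt_ne_zero {g : Polynomial ℤ} {e : ℕ} (hg0 : g.coeff 0 ≠ 0) (he : 1 ≤ e) {n m : ℕ} (hn : n.Prime) (hm : m.Prime)
    (hnm : n ≠ m) (hlt : (g.coeff 0).natAbs < n) : dt g e n m ≠ 0 := by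
  intro h
  have hnd := not_dvd_eval hg0 hlt (dvd_refl n)
  have h1 : g.eval (n : ℤ) * (m : ℤ) ^ e = g.eval (m : ℤ) * (n : ℤ) ^ e := by
    unfold dt at h
    linarith
  have h2 : (n : ℤ) ∣ g.eval (n : ℤ) * (m : ℤ) ^ e := by
    rw [h1]
    exact Dvd.dvd.mul_left (dvd_pow_self _ (by omega)) _
  have hpi : Prime (n : ℤ) := Nat.prime_iff_prime_int.1 hn
  rcases hpi.dvd_or_dvd h2 with h3 | h3
  · exact hnd h3
  · have h4 := Int.natCast_dvd_natCast.1 (hpi.dvd_of_dvd_pow h3)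
    exact hnm ((Nat.prime_dvd_prime_iff_eq hn hm).1 h4)

end Pool.Agent.Q160.GQ
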