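import Mathlib
import Pool.Agent.Q160.GQ8

set_option autoImplicit false

/-!
# The main theorem for growing systems with one moving coefficient each, along primes
-/

namespace Pool.Agent.Q160.GQ

open Finset Filter
open Pool.Agent.H373R2.T7
open Pool.Agent.H305R2 (VV VV_tendsto)
open Pool.Agent.Q160.GK
open Pool.Agent.Q160.GP (gg_le_VV VV_small)

open Classical in
/-- **The main theorem.** -/
theorem genL (d : ℕ) (hd : 1 ≤ d) : ∃ (K : ℕ) (C : ℝ), 1 ≤ C ∧ ∀ k : ℕ, 1 ≤ k → ∀ (g : Fin k → Polynomial ℤ) (e : Fin k → ℕ),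
    ∀ B y : ℕ, C * k ≤ Real.log B → (∀ i, PE d (g i) (e i)) → (∀ i, SZ d K B y (g i) (e i)) →
    ∏ i, (C * (Real.log B / (Real.log (k + 2) * gg k (cz (g i))))) ≤ y / Real.log y →
    (C ^ k)⁻¹ * ∏ i, ((B : ℝ) / (Real.log (k + 2) * gg k (cz (g i)))) ≤
      ((((Fintype.piFinset (fun _ : Fin k => Ioc B (2 * B))).filter (fun b => (AdmL g e b ∧ DistL g e b) ∧
        (y / Real.log y) * ∏ i, (C * (Real.log B / (Real.log (k + 2) * gg k (cz (g i)))))⁻¹ ≤
          (((Icc 1 y).filter (fun n => n.Prime ∧ ∀ i, (vl (g i) (e i) n (b i)).toNat.Prime)).card : ℝ))).card : ℕ) : ℝ) := by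
  have hdr : (1 : ℝ) ≤ d := by exact_mod_cast hd
  obtain ⟨η, K, c, hη0, hη1, hc, hK2, B0, y0, hfm⟩ := first_mom d hd
  obtain ⟨C1, h1, hC1, hone⟩ := oneL
  obtain ⟨C2, h2, hC2, hpair⟩ := pairL
  obtain ⟨cV, CV, hcV, hCV, hVV⟩ := VV_bounds
  obtain ⟨CA, ca, C3, hCA, hca, hC3, hadm⟩ := adm_bounds 2 d 2 le_rfl
  obtain ⟨M, hM⟩ : ∃ M : ℝ, M = 49 * (Real.exp 2 * (80 * Real.exp (12 * d) + 8)) / c := ⟨_, rfl⟩
  have hM0 : 0 ≤ M := by rw [hM]; positivity
  obtain ⟨C0, hC0, hgen⟩ := gen0 c (4 * C1) (4 * C2 * CV) CA M hc (by positivity) (by positivity) hCA hM0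
  obtain ⟨CA', ca', C4, hCA', hca', hC4, hadm2⟩ := adm_bounds 2 d (2 * C0) (by linarith)
  obtain ⟨h3, hsm1⟩ := VV_small (24 * d) 1 (2 * d + 3) one_pos (by positivity)
  obtain ⟨h4, hsm2⟩ := VV_small 2 (Real.exp 2 / cV) (2 * d + 3) (by positivity) (by positivity)
  have hlogt : Tendsto (fun h : ℕ => Real.log (h : ℝ)) atTop atTop :=
    Real.tendsto_log_atTop.comp tendsto_natCast_atTop_atTop
  obtain ⟨h5, hlarge⟩ := eventually_atTop.1 (hlogt.eventually_ge_atTop (max ((8 * (d + 1) : ℝ) ^ 2) ((y0 : ℝ) ^ 2)))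
  obtain ⟨c', hc'⟩ : ∃ c' : ℝ, c' = min c 1 := ⟨_, rfl⟩
  have hc'0 : 0 < c' := by rw [hc']; positivity
  have hc'1 : c' ≤ 1 := by rw [hc']; exact min_le_right _ _
  have hc'c : c' ≤ c := by rw [hc']; exact min_le_left _ _
  obtain ⟨N, hN⟩ : ∃ N : ℕ, N = B0 + 2 * h1 + 2 * h2 + h3 + h4 + h5 + 64 := ⟨_, rfl⟩
  obtain ⟨C, hC⟩ : ∃ C : ℝ, C = max (max (C0 / c') (2 * C0 / CA)) (max (max (2 * C3) (2 * C4)) (Real.log N)) := ⟨_, rfl⟩
  have hCa : C0 / c' ≤ C := by rw [hC]; exact le_trans (le_max_left _ _) (le_max_left _ _)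
  have hCb : 2 * C0 / CA ≤ C := by rw [hC]; exact le_trans (le_max_right _ _) (le_max_left _ _)
  have hCc : 2 * C3 ≤ C := by rw [hC]; exact le_trans (le_trans (le_max_left _ _) (le_max_left _ _)) (le_max_right _ _)
  have hCd : 2 * C4 ≤ C := by rw [hC]; exact le_trans (le_trans (le_max_right _ _) (le_max_left _ _)) (le_max_right _ _)
  have hCe : Real.log N ≤ C := by rw [hC]; exact le_trans (le_max_right _ _) (le_max_right _ _)
  have hC00 : C0 ≤ C := by
    refine le_trans ?_ hCa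
    rw [le_div_iff₀ hc'0]
    nlinarith
  have hC1' : 1 ≤ C := by linarith
  have hCpos : 0 < C := by linarith
  refine ⟨K, C, hC1', fun k hk g e B y hkB hg hsz hyL => ?_⟩
  have hkr : (1 : ℝ) ≤ k := by exact_mod_cast hk
  have i0 : Fin k := ⟨0, hk⟩
  have hBpos : (0 : ℝ) < B := by
    by_contra hcon
    push Not at hcon
    have h7 : (B : ℝ) = 0 := le_antisymm hcon (Nat.cast_nonneg _)
    rw [h7, Real.log_zero] at hkB
    nlinarith
  have hBN : N ≤ B := by
    have h6 : Real.log N ≤ Real.log B := by nlinarith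
    have h7 := (Real.log_le_log_iff (by
      have : 0 < N := by omega
      exact_mod_cast this) hBpos).1 h6
    exact_mod_cast h7
  have hB64 : 64 ≤ B := by omega
  have hBr : (64 : ℝ) ≤ B := by exact_mod_cast hB64
  obtain ⟨L, hL⟩ : ∃ L, L = Real.log (B : ℝ) := ⟨_, rfl⟩
  have hlB := hlarge B (by omega)
  rw [← hL] at hlB hkB hyL
  have hL8 : (8 * (d + 1) : ℝ) ^ 2 ≤ L := le_trans (le_max_left _ _) hlB
  have hLy0 : (y0 : ℝ) ^ 2 ≤ L := le_trans (le_max_right _ _) hlB
  have hL64 : 64 ≤ L := by nlinarith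
  have hkL : (k : ℝ) ≤ L := by nlinarith
  have hlk := log_two_add k
  have hg1 : ∀ i, 1 ≤ gg k (cz (g i)) := fun i => one_le_gg k _
  obtain ⟨R, hR⟩ : ∃ R, R = L ^ (1 / 2 : ℝ) := ⟨_, rfl⟩
  have hRR : R * R = L := by
    rw [hR, ← Real.rpow_add (by linarith)]
    norm_num
  have hR0 : 0 < R := by rw [hR]; positivity
  have hR8 : 8 * ((d : ℝ) + 1) ≤ R := by
    rw [hR, ← Real.sqrt_eq_rpow]
    exact Real.le_sqrt_of_sq_le hL8
  have hRy0 : (y0 : ℝ) ≤ R := by
    rw [hR, ← Real.sqrt_eq_rpow]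
    exact Real.le_sqrt_of_sq_le hLy0
  -- the parameter w
  obtain ⟨w, hw⟩ : ∃ w : ℕ, w = ⌈(2 * d + 2) * L ^ 2⌉₊ := ⟨_, rfl⟩
  have hw1 : (2 * d + 2) * L ^ 2 ≤ w := by rw [hw]; exact Nat.le_ceil _
  have hLL : L ≤ L ^ 2 := by nlinarith
  have hw2 : (w : ℝ) ≤ (2 * d + 3) * L ^ 2 := by
    have h6 : (w : ℝ) < (2 * d + 2) * L ^ 2 + 1 := by
      rw [hw]
      exact Nat.ceil_lt_add_one (by positivity)
    nlinarith
  have hwL : L ≤ w := by nlinarith
  have hkw : k ≤ w := by
    have : (k : ℝ) ≤ w := hkL.trans hwL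
    exact_mod_cast this
  have hw0 : 1 ≤ w := hk.trans hkw
  have hs1 := hsm1 B (by omega) w (by rw [← hL]; exact hw2)
  have hs2 := hsm2 B (by omega) w (by rw [← hL]; exact hw2)
  rw [← hL, ← hR] at hs1 hs2
  rw [one_mul] at hs1
  -- y L² ≤ B
  have hy1 : 1 ≤ y := by
    rcases Nat.eq_zero_or_pos y with h6 | h6
    · exfalso
      have h7 := (hsz i0).2.2
      have h8 := Int.natAbs_pos.2 (hg i0).2.1
      omega
    · exact h6
  have hyr1 : (1 : ℝ) ≤ y := by exact_mod_cast hy1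
  have hyLB : (y : ℝ) * L ^ 2 ≤ B := by
    have h6 := (hsz i0).1
    rw [← hL] at h6
    have h7 : (y : ℝ) ≤ (y : ℝ) ^ Q239.LC.pw (e i0) := by
      calc (y : ℝ) = (y : ℝ) ^ 1 := (pow_one _).symm
        _ ≤ _ := pow_le_pow_right₀ hyr1 (Q239.LC.pw_pos _)
    have h8 : L ^ 2 ≤ L ^ K := pow_le_pow_right₀ (by linarith) hK2
    calc (y : ℝ) * L ^ 2 ≤ (y : ℝ) ^ Q239.LC.pw (e i0) * L ^ K := mul_le_mul h7 h8 (by positivity) (by positivity)
      _ ≤ B := h6
  have hyB : (y : ℝ) ≤ B := by nlinarith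
  have hczB : ∀ i, cz (g i) ≤ y := fun i => by
    have h6 := cz_le (hg i)
    have h7 := (hsz i).2.2
    omega
  -- W_i ≥ R
  have hW : ∀ i, R ≤ L / (Real.log (k + 2) * gg k (cz (g i))) := by
    intro i
    have h6 : gg k (cz (g i)) ≤ VV w * Real.exp 2 := by
      refine gg_le_VV (cz_pos (hg i).ne_zero) hw0 ?_
      have h7 : Real.log (cz (g i) : ℕ) ≤ L := by
        rw [hL]
        refine Real.log_le_log (by exact_mod_cast cz_pos (hg i).ne_zero) ?_
        exact le_trans (by exact_mod_cast hczB i) hyB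
      linarith
    have h7 : Real.log (k + 2) ≤ VV w / cV := by
      rw [le_div_iff₀ hcV, mul_comm]
      exact (hVV k).1.trans (VV_mono hkw)
    have h8 : Real.log (k + 2) * gg k (cz (g i)) ≤ R := by
      have h9 := one_le_VV w
      calc Real.log (k + 2) * gg k (cz (g i)) ≤ (VV w / cV) * (VV w * Real.exp 2) :=
            mul_le_mul h7 h6 (by linarith [hg1 i]) (by positivity)
        _ = Real.exp 2 / cV * VV w ^ 2 := by ring
        _ ≤ _ := hs2
    rw [le_div_iff₀ (by have := hg1 i; positivity)]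
    calc R * (Real.log (k + 2) * gg k (cz (g i))) ≤ R * R := mul_le_mul_of_nonneg_left h8 hR0.le
      _ = L := hRR
  have hW0 : ∀ i, 0 < L / (Real.log (k + 2) * gg k (cz (g i))) := fun i => by
    have := hW i
    linarith
  have hRk : R ^ k ≤ y / Real.log y := by
    refine le_trans ?_ hyL
    calc R ^ k = ∏ _i : Fin k, R := by
          rw [prod_const, card_univ, Fintype.card_fin]
      _ ≤ _ := prod_le_prod (fun i _ => hR0.le) fun i _ => by
          have := hW i
          have := hW0 i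
          nlinarith
  have hR1 : 1 ≤ R := by linarith
  have hRRk : R ≤ R ^ k := by
    calc R = R ^ 1 := (pow_one _).symm
      _ ≤ R ^ k := pow_le_pow_right₀ hR1 hk
  have hy3 : 3 ≤ y := by
    by_contra hcon
    have h6 : 8 ≤ y / Real.log y := by linarith
    have h7 : y = 1 ∨ y = 2 := by omega
    rcases h7 with h7 | h7
    · rw [h7] at h6
      norm_num at h6
    · rw [h7] at h6
      have h8 : 1 / 2 ≤ Real.log 2 := by
        have := Real.log_two_gt_d9
        linarith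
      have h9 : ((2 : ℕ) : ℝ) / Real.log ((2 : ℕ) : ℝ) ≤ 4 := by
        push_cast
        rw [div_le_iff₀ (by linarith)]
        linarith
      linarith
  have hyr3 : (3 : ℝ) ≤ y := by exact_mod_cast hy3
  have hly1 : 1 ≤ Real.log y := by
    rw [Real.le_log_iff_exp_le (by linarith)]
    have := Real.exp_one_lt_d9
    linarith
  have hyRk : R ^ k ≤ y := hRk.trans (div_le_self (by linarith) hly1)
  have hyy0 : y0 ≤ y := by
    have : (y0 : ℝ) ≤ y := hRy0.trans (hRRk.trans hyRk)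
    exact_mod_cast this
  have hykd : 2 * (k * d + 1) ≤ y := by
    have h6 : (2 : ℝ) * (k * d + 1) ≤ R ^ k := by
      have h7 : ((8 : ℝ) * (d + 1)) ^ k ≤ R ^ k := pow_le_pow_left₀ (by positivity) hR8 k
      refine le_trans ?_ h7
      rw [mul_pow]
      have h8 : k ≤ 8 ^ k := by
        have h10 : k ≤ 2 ^ k := (Nat.lt_two_pow_self).le
        exact h10.trans (Nat.pow_le_pow_left (by norm_num) k)
      have h9 : 2 * (k : ℝ) ≤ 8 ^ k := by
        have h10 : 2 * k ≤ 8 ^ k := by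
          have h11 : k < 2 ^ k := Nat.lt_two_pow_self
          have h12 : 2 * 2 ^ k ≤ 8 ^ k := by
            obtain ⟨j, rfl⟩ : ∃ j, k = j + 1 := ⟨k - 1, by omega⟩
            have h13 : (2 : ℕ) ^ (j + 1) = 2 ^ j * 2 := pow_succ _ _
            have h14 : (8 : ℕ) ^ (j + 1) = 8 ^ j * 8 := pow_succ _ _
            have h15 : (2 : ℕ) ^ j ≤ 8 ^ j := Nat.pow_le_pow_left (by norm_num) j
            rw [h13, h14]
            omega
          omega
        exact_mod_cast h10
      have h10 : (d : ℝ) + 1 ≤ ((d : ℝ) + 1) ^ k := by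
        calc (d : ℝ) + 1 = ((d : ℝ) + 1) ^ 1 := (pow_one _).symm
          _ ≤ ((d : ℝ) + 1) ^ k := pow_le_pow_right₀ (by linarith) hk
      calc (2 : ℝ) * (k * d + 1) ≤ (2 * k) * (d + 1) := by nlinarith
        _ ≤ 8 ^ k * ((d : ℝ) + 1) ^ k := mul_le_mul h9 h10 (by positivity) (by positivity)
    have h7 : ((2 * (k * d + 1) : ℕ) : ℝ) ≤ y := by
      push_cast
      exact h6.trans hyRk
    exact_mod_cast h7
  obtain ⟨T, hTsub, hTy, hTc, hTlow⟩ := hfm B (by omega) y hyy0 k hk (by rw [← hL]; exact hkL) g e hg hsz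
  obtain ⟨l, hl⟩ : ∃ l, l = Pool.Agent.W218.LF.lo η B := ⟨_, rfl⟩
  rw [← hl] at hTlow
  rw [← hL] at hTlow
  -- size of l
  have hlge : B ≤ l := by
    rw [hl]
    unfold Pool.Agent.W218.LF.lo
    apply Nat.le_floor
    nlinarith
  have hlle : (l : ℝ) ≤ (1 + η) * B := by
    rw [hl]
    unfold Pool.Agent.W218.LF.lo
    exact Nat.floor_le (by positivity)
  have hl2 : l ≤ 2 * B := by
    have : (l : ℝ) ≤ 2 * B := by nlinarith
    exact_mod_cast this
  obtain ⟨h, hh⟩ : ∃ h, h = 2 * B - l := ⟨_, rfl⟩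
  rw [← hh] at hTlow
  have hlh : l + h = 2 * B := by omega
  have hhB : h ≤ B := by omega
  have hhB2 : (B : ℝ) / 2 ≤ h := by
    have h6 : (h : ℝ) = 2 * B - l := by
      rw [hh, Nat.cast_sub hl2]
      push_cast
      ring
    rw [h6]
    nlinarith
  have hhr32 : (32 : ℝ) ≤ h := by linarith
  have hhBr : (h : ℝ) ≤ B := by exact_mod_cast hhB
  have hlogh : L / 2 ≤ Real.log h := by
    have h6 : (B : ℝ) ≤ (h : ℝ) ^ 2 := by nlinarith
    have h7 := Real.log_le_log hBpos h6
    rw [Real.log_pow, ← hL] at h7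
    push_cast at h7
    linarith
  have hloghB : Real.log h ≤ L := by
    rw [hL]
    exact Real.log_le_log (by linarith) hhBr
  have hhN : N ≤ 2 * h := by
    have h6 : (B : ℝ) ≤ 2 * h := by linarith
    have h7 : B ≤ 2 * h := by exact_mod_cast h6
    omega
  have hTprime : ∀ n ∈ T, n.Prime ∧ n ≤ y ∧ y < 2 * n := by
    intro n hn
    have h6 := hTsub hn
    rw [mem_filter, mem_Icc] at h6
    exact ⟨h6.2, h6.1.2, hTy n hn⟩
  have hTk : ∀ n ∈ T, k * d + 1 < n ∧ k < n := by
    intro n hn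
    have h6 := hTprime n hn
    have h7 : k * d + 1 < n := by omega
    refine ⟨h7, ?_⟩
    have : k ≤ k * d := Nat.le_mul_of_pos_right k hd
    omega
  have hTg : ∀ n ∈ T, ∀ i, ((g i).coeff 0).natAbs < n := by
    intro n hn i
    have h6 := (hsz i).2.2
    have h7 := hTprime n hn
    omega
  have hTcop : ∀ n ∈ T, ∀ i, IsCoprime ((g i).eval (n : ℤ)) (((n ^ e i : ℕ)) : ℤ) := by
    intro n hn i
    push_cast
    apply IsCoprime.pow_right
    have h6 := hTprime n hn
    have h7 := not_dvd_eval (hg i).2.1 (hTg n hn i) (dvd_refl n)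
    exact ((Prime.coprime_iff_not_dvd (Nat.prime_iff_prime_int.1 h6.1)).2 h7).symm
  -- upper bounds
  have hPup : ∀ n ∈ T, ∀ i, ((PS l h y (g i) (e i) n).card : ℝ) ≤ 4 * C1 * (B / L) := by
    intro n hn i
    have h6 := hTprime n hn
    have h7 := hone h l (n ^ e i) ((g i).eval (n : ℤ)) (by omega) (pow_pos h6.1.pos _) (hTcop n hn i)
    have h8 : ((PS l h y (g i) (e i) n).card : ℝ) ≤
        (((Ioc l (l + h)).filter (fun b : ℕ => ((g i).eval (n : ℤ) + (b : ℤ) * ((n ^ e i : ℕ) : ℤ)).toNat.Prime)).card : ℝ) := by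
      have h9 : PS l h y (g i) (e i) n ⊆
          (Ioc l (l + h)).filter (fun b : ℕ => ((g i).eval (n : ℤ) + (b : ℤ) * ((n ^ e i : ℕ) : ℤ)).toNat.Prime) := by
        intro b hb
        unfold PS at hb
        rw [mem_filter] at hb ⊢
        exact ⟨hb.1, hb.2.1⟩
      exact_mod_cast card_le_card h9
    have h9 : gg 0 (n ^ e i) ≤ 2 := (gg_prime_pow h6.1 (hg i).one_le_e).trans (fac_le_two h6.1.two_le)
    have h10 : (h : ℝ) / Real.log h ≤ 2 * (B / L) := by
      rw [← mul_div_assoc, div_le_div_iff₀ (by linarith) (by linarith)]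
      nlinarith
    have h11 := one_le_gg 0 (n ^ e i)
    have h12 : 0 ≤ (h : ℝ) / Real.log h := div_nonneg (by linarith) (by linarith)
    calc ((PS l h y (g i) (e i) n).card : ℝ) ≤ C1 * (h / Real.log h) * gg 0 (n ^ e i) := h8.trans h7
      _ ≤ C1 * (2 * (B / L)) * 2 := by
          refine mul_le_mul (mul_le_mul_of_nonneg_left h10 hC1.le) h9 (by linarith) (by positivity)
      _ = 4 * C1 * (B / L) := by ring
  have hPP : ∀ n ∈ T, ∀ m ∈ T, n ≠ m → ∀ i, ((PS l h y (g i) (e i) n ∩ PS l h y (g i) (e i) m).card : ℝ) ≤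
      4 * C2 * CV * (B / L ^ 2) * Real.log (k + 2) *
        (gg k (n ^ e i * m ^ e i) * gg k (dt (g i) (e i) n m).natAbs) := by
    intro n hn m hm hnm i
    have h6 := hTprime n hn
    have h7 := hTprime m hm
    have hdt0 := dt_ne_zero (hg i).2.1 (hg i).one_le_e h6.1 h7.1 hnm (hTg n hn i)
    have hdtc : (g i).eval (n : ℤ) * ((m ^ e i : ℕ) : ℤ) - (g i).eval (m : ℤ) * ((n ^ e i : ℕ) : ℤ) = dt (g i) (e i) n m := by
      unfold dt
      push_cast
      ring
    have h8 := hpair h l (n ^ e i) (m ^ e i) ((g i).eval (n : ℤ)) ((g i).eval (m : ℤ)) (by omega)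
      (Nat.Coprime.pow _ _ ((Nat.coprime_primes h6.1 h7.1).2 hnm)) (pow_pos h6.1.pos _) (pow_pos h7.1.pos _)
      (hTcop n hn i) (hTcop m hm i) (by rw [hdtc]; exact hdt0)
    rw [hdtc] at h8
    have h9 : ((PS l h y (g i) (e i) n ∩ PS l h y (g i) (e i) m).card : ℝ) ≤
        (((Ioc l (l + h)).filter (fun b : ℕ => ((g i).eval (n : ℤ) + (b : ℤ) * ((n ^ e i : ℕ) : ℤ)).toNat.Prime ∧
          ((g i).eval (m : ℤ) + (b : ℤ) * ((m ^ e i : ℕ) : ℤ)).toNat.Prime)).card : ℝ) := by
      have h10 : PS l h y (g i) (e i) n ∩ PS l h y (g i) (e i) m ⊆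
          (Ioc l (l + h)).filter (fun b : ℕ => ((g i).eval (n : ℤ) + (b : ℤ) * ((n ^ e i : ℕ) : ℤ)).toNat.Prime ∧
          ((g i).eval (m : ℤ) + (b : ℤ) * ((m ^ e i : ℕ) : ℤ)).toNat.Prime) := by
        intro b hb
        rw [mem_inter] at hb
        unfold PS at hb
        rw [mem_filter, mem_filter] at hb
        rw [mem_filter]
        exact ⟨hb.1.1, hb.1.2.1, hb.2.2.1⟩
      exact_mod_cast card_le_card h10
    have hNN : 0 < n ^ e i * m ^ e i := Nat.mul_pos (pow_pos h6.1.pos _) (pow_pos h7.1.pos _)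
    have h10 := gg_mul_le (k := k) hNN (Int.natAbs_pos.2 hdt0)
    have h11 : (h : ℝ) / Real.log h ^ 2 ≤ 4 * (B / L ^ 2) := by
      have h12 : (L / 2) ^ 2 ≤ Real.log h ^ 2 := pow_le_pow_left₀ (by linarith) hlogh 2
      rw [← mul_div_assoc, div_le_div_iff₀ (by nlinarith) (by positivity)]
      have h13 : (h : ℝ) * L ^ 2 ≤ B * L ^ 2 := mul_le_mul_of_nonneg_right hhBr (by positivity)
      have h14 : (B : ℝ) * (L ^ 2) ≤ 4 * B * Real.log h ^ 2 := by nlinarith
      linarith
    have hγ0 : 0 ≤ gg k (n ^ e i * m ^ e i) * gg k (dt (g i) (e i) n m).natAbs :=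
      mul_nonneg (zero_le_one.trans (one_le_gg _ _)) (zero_le_one.trans (one_le_gg _ _))
    have h12 : 0 ≤ (h : ℝ) / Real.log h ^ 2 := by positivity
    have h13 : 0 ≤ gg 0 (n ^ e i * m ^ e i * (dt (g i) (e i) n m).natAbs) := zero_le_one.trans (one_le_gg _ _)
    calc ((PS l h y (g i) (e i) n ∩ PS l h y (g i) (e i) m).card : ℝ)
        ≤ C2 * (h / Real.log h ^ 2) * gg 0 (n ^ e i * m ^ e i * (dt (g i) (e i) n m).natAbs) := h9.trans h8
      _ ≤ C2 * (4 * (B / L ^ 2)) * (VV k * gg k (n ^ e i * m ^ e i) * gg k (dt (g i) (e i) n m).natAbs) := by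
          refine mul_le_mul (mul_le_mul_of_nonneg_left h11 hC2.le) h10 h13 (by positivity)
      _ = C2 * (4 * (B / L ^ 2)) * (VV k * (gg k (n ^ e i * m ^ e i) * gg k (dt (g i) (e i) n m).natAbs)) := by ring
      _ ≤ C2 * (4 * (B / L ^ 2)) * ((CV * Real.log (k + 2)) * (gg k (n ^ e i * m ^ e i) * gg k (dt (g i) (e i) n m).natAbs)) := by
          refine mul_le_mul_of_nonneg_left (mul_le_mul_of_nonneg_right (hVV k).2 hγ0) (by positivity)
      _ = _ := by ring
  -- moments
  have hTcard0 : 0 < (T.card : ℝ) := by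
    refine lt_of_lt_of_le ?_ hTc
    have : 0 < (y : ℝ) / Real.log y := by positivity
    positivity
  have hVVy : 2 * √(y : ℝ) * (VV w) ^ (6 * k * d) ≤ 8 * (y / Real.log y) := by
    have hv1 := one_le_VV w
    have h6 : ((VV w) ^ (6 * k * d)) ^ 4 ≤ y := by
      have : ((VV w) ^ (6 * k * d)) ^ 4 = (VV w ^ (24 * d)) ^ k := by
        rw [← pow_mul, ← pow_mul]
        congr 1
        ring
      rw [this]
      exact (pow_le_pow_left₀ (by positivity) hs1 k).trans hyRk
    have h7 : (VV w) ^ (6 * k * d) ≤ (y : ℝ) ^ (1 / 4 : ℝ) := by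
      have h8 : (((VV w) ^ (6 * k * d)) ^ 4) ^ (1 / 4 : ℝ) = (VV w) ^ (6 * k * d) := by
        rw [← Real.rpow_natCast ((VV w) ^ (6 * k * d)) 4, ← Real.rpow_mul (by positivity)]
        norm_num
      rw [← h8]
      exact Real.rpow_le_rpow (by positivity) h6 (by norm_num)
    have h8 : Real.log y ≤ 4 * (y : ℝ) ^ (1 / 4 : ℝ) := by
      have := Real.log_le_rpow_div (x := (y : ℝ)) (by linarith) (show (0 : ℝ) < 1 / 4 by norm_num)
      linarith
    have h9 : √(y : ℝ) * ((y : ℝ) ^ (1 / 4 : ℝ) * (y : ℝ) ^ (1 / 4 : ℝ)) = y := by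
      rw [Real.sqrt_eq_rpow, ← Real.rpow_add (by linarith), ← Real.rpow_add (by linarith)]
      norm_num
    have h10 : 0 ≤ √(y : ℝ) := Real.sqrt_nonneg _
    have h11 : (0 : ℝ) ≤ (y : ℝ) ^ (1 / 4 : ℝ) := by positivity
    have hly0 : 0 < Real.log y := by linarith
    rw [← mul_div_assoc, le_div_iff₀ hly0]
    calc 2 * √(y : ℝ) * (VV w) ^ (6 * k * d) * Real.log y
        ≤ 2 * √(y : ℝ) * (y : ℝ) ^ (1 / 4 : ℝ) * (4 * (y : ℝ) ^ (1 / 4 : ℝ)) := by
          refine mul_le_mul (mul_le_mul_of_nonneg_left h7 (by positivity)) h8 (by linarith) (by positivity)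
      _ = 8 * (√(y : ℝ) * ((y : ℝ) ^ (1 / 4 : ℝ) * (y : ℝ) ^ (1 / 4 : ℝ))) := by ring
      _ = 8 * y := by rw [h9]
  have hmom : ∀ i, ∀ n ∈ T, ∑ m ∈ T.erase n, (gg k (n ^ e i * m ^ e i) * gg k (dt (g i) (e i) n m).natAbs) ^ k ≤
      M * T.card * gg k (cz (g i)) ^ k := by
    intro i n hn
    have h6 := hTprime n hn
    have hev : ∀ m : ℕ, m ≤ y → |((((g i).eval (m : ℤ) : ℤ)) : ℝ)| ≤ B * (y : ℝ) ^ e i := fun m hm =>
      eval_bound (hg i).2.2.1 (hsz i).2.1 hy1 m hm
    have h7 := momentP hk hkw (hg i).1 (hg i).ne_zero (hg i).2.2.1 (hg i).2.2.2 y n (by omega) T hTsub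
      (fun p hp hpn => not_dvd_eval (hg i).2.1 (by
        have h8 := (Nat.prime_dvd_prime_iff_eq hp h6.1).1 hpn
        rw [h8]
        exact hTg n hn i) hpn)
      (fun m hm => by
        have h8 := hTprime m (mem_of_mem_erase hm)
        exact dt_ne_zero (hg i).2.1 (hg i).one_le_e h6.1 h8.1 (ne_of_mem_erase hm).symm (hTg n hn i))
      (fun m hm => by
        have h8 := hTprime m (mem_of_mem_erase hm)
        have hdt0 := dt_ne_zero (hg i).2.1 (hg i).one_le_e h6.1 h8.1 (ne_of_mem_erase hm).symm (hTg n hn i)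
        have h9 : (((dt (g i) (e i) n m).natAbs : ℕ) : ℝ) ≤ (B : ℝ) ^ (2 * d + 2) := by
          have h10 : (((dt (g i) (e i) n m).natAbs : ℕ) : ℝ) = |((dt (g i) (e i) n m : ℤ) : ℝ)| := by
            rw [Nat.cast_natAbs, Int.cast_abs]
          rw [h10]
          have hyd : (y : ℝ) ^ e i ≤ (B : ℝ) ^ d := by
            exact (pow_le_pow_left₀ (by linarith) hyB _).trans (pow_le_pow_right₀ (by linarith) (hg i).2.2.2)
          have h11 : ∀ u v : ℕ, u ≤ y → v ≤ y → |(((g i).eval (u : ℤ) : ℤ) : ℝ)| * (v : ℝ) ^ e i ≤ (B : ℝ) ^ (2 * d + 1) := by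
            intro u v hu hv
            have h12 : (v : ℝ) ^ e i ≤ (B : ℝ) ^ d := by
              have h13 : (v : ℝ) ≤ y := by exact_mod_cast hv
              exact (pow_le_pow_left₀ (by positivity) h13 _).trans hyd
            calc |(((g i).eval (u : ℤ) : ℤ) : ℝ)| * (v : ℝ) ^ e i ≤ (B * (B : ℝ) ^ d) * (B : ℝ) ^ d := by
                  refine mul_le_mul ((hev u hu).trans ?_) h12 (by positivity) (by positivity)
                  exact mul_le_mul_of_nonneg_left hyd hBpos.le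
              _ = (B : ℝ) ^ (2 * d + 1) := by ring
          unfold dt
          push_cast
          refine (abs_sub _ _).trans ?_
          rw [abs_mul, abs_mul, abs_of_nonneg (show (0 : ℝ) ≤ (m : ℝ) ^ e i by positivity),
            abs_of_nonneg (show (0 : ℝ) ≤ (n : ℝ) ^ e i by positivity)]
          have h12 := h11 n m h6.2.1 h8.2.1
          have h13 := h11 m n h8.2.1 h6.2.1
          calc _ ≤ (B : ℝ) ^ (2 * d + 1) + (B : ℝ) ^ (2 * d + 1) := add_le_add h12 h13
            _ = 2 * (B : ℝ) ^ (2 * d + 1) := by ring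
            _ ≤ B * (B : ℝ) ^ (2 * d + 1) := mul_le_mul_of_nonneg_right (by linarith) (by positivity)
            _ = (B : ℝ) ^ (2 * d + 2) := by ring
        have h10 := Real.log_le_log (by exact_mod_cast Int.natAbs_pos.2 hdt0) h9
        rw [Real.log_pow, ← hL] at h10
        push_cast at h10
        refine le_trans ?_ hw1
        have h11 : (0 : ℝ) ≤ (2 * d + 2) * L := by positivity
        calc (k : ℝ) * Real.log (((dt (g i) (e i) n m).natAbs : ℕ) : ℝ) ≤ k * ((2 * d + 2) * L) :=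
              mul_le_mul_of_nonneg_left (by push_cast; exact h10) (by positivity)
          _ ≤ L * ((2 * d + 2) * L) := mul_le_mul_of_nonneg_right hkL h11
          _ = (2 * d + 2) * L ^ 2 := by ring)
    have h8 : ∑ m ∈ T.erase n, (gg k (n ^ e i * m ^ e i) * gg k (dt (g i) (e i) n m).natAbs) ^ k ≤
        49 * ∑ m ∈ T.erase n, gg k (dt (g i) (e i) n m).natAbs ^ k := by
      rw [mul_sum]
      refine sum_le_sum fun m hm => ?_
      have h9 := hTprime m (mem_of_mem_erase hm)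
      rw [mul_pow]
      refine mul_le_mul_of_nonneg_right ?_ (pow_nonneg (zero_le_one.trans (one_le_gg _ _)) _)
      exact gg_two_pow h6.1 h9.1 (hg i).one_le_e (hTk n hn).2 (hTk m (mem_of_mem_erase hm)).2
    have h9 : 0 ≤ Real.exp 2 * gg k (cz (g i)) ^ k := by
      have := hg1 i
      positivity
    have h10 : (y : ℝ) / Real.log y ≤ T.card / c := by
      rw [le_div_iff₀ hc]
      linarith
    have h11 : 0 ≤ (y : ℝ) / Real.log y := by positivity
    calc ∑ m ∈ T.erase n, (gg k (n ^ e i * m ^ e i) * gg k (dt (g i) (e i) n m).natAbs) ^ k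
        ≤ 49 * (Real.exp 2 * gg k (cz (g i)) ^ k * (80 * (y / Real.log y) * Real.exp (12 * d) +
            2 * √(y : ℝ) * (VV w) ^ (6 * k * d))) := h8.trans (mul_le_mul_of_nonneg_left h7 (by norm_num))
      _ ≤ 49 * (Real.exp 2 * gg k (cz (g i)) ^ k * (80 * (y / Real.log y) * Real.exp (12 * d) + 8 * (y / Real.log y))) := by
          refine mul_le_mul_of_nonneg_left (mul_le_mul_of_nonneg_left ?_ h9) (by norm_num)
          linarith
      _ = 49 * (Real.exp 2 * gg k (cz (g i)) ^ k * (80 * Real.exp (12 * d) + 8)) * (y / Real.log y) := by ring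
      _ ≤ 49 * (Real.exp 2 * gg k (cz (g i)) ^ k * (80 * Real.exp (12 * d) + 8)) * (T.card / c) :=
          mul_le_mul_of_nonneg_left h10 (by positivity)
      _ = M * T.card * gg k (cz (g i)) ^ k := by
          rw [hM]
          ring
  -- the number of admissible vectors
  have hcz2 : ∀ i, cz (g i) ≤ h ^ 2 := fun i => by
    have h6 := hczB i
    have h7 : (B : ℝ) ≤ (h : ℝ) ^ 2 := by nlinarith
    have h8 : B ≤ h ^ 2 := by exact_mod_cast h7
    have h9 : y ≤ B := by exact_mod_cast hyB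
    omega
  have hczB2 : ∀ i, cz (g i) ≤ B ^ 2 := fun i => by
    have h6 := hczB i
    have h9 : y ≤ B := by exact_mod_cast hyB
    have h10 : B ≤ B ^ 2 := by nlinarith
    omega
  have hadm1 := (hadm k hk g e l h hg hcz2 (by
    have : 2 * C3 * k ≤ L := (mul_le_mul_of_nonneg_right hCc (by positivity)).trans hkB
    linarith)).1
  have hq0 : ∀ i, 0 < Real.log (k + 2) * gg k (cz (g i)) := fun i => by
    have := hg1 i
    positivity
  have hupl : (((Fintype.piFinset (fun _ : Fin k => Ioc l (l + h))).filter (fun b => AdmL g e b)).card : ℝ) ≤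
      ∏ i, (CA * ((B : ℝ) / (Real.log (k + 2) * gg k (cz (g i))))) := by
    refine hadm1.trans (prod_le_prod (fun i _ => by have := hq0 i; positivity) fun i _ => ?_)
    refine mul_le_mul_of_nonneg_left ?_ hCA.le
    exact div_le_div_of_nonneg_right hhBr (hq0 i).le
  have hTL : ∏ i, (C0 * (L / (Real.log (k + 2) * gg k (cz (g i))))) ≤ T.card := by
    have h6 : ∏ i, (C0 * (L / (Real.log (k + 2) * gg k (cz (g i))))) ≤
        c' * ∏ i, (C * (L / (Real.log (k + 2) * gg k (cz (g i))))) := by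
      rw [prod_mul_distrib, prod_mul_distrib, prod_const, prod_const, card_univ, Fintype.card_fin, ← mul_assoc]
      refine mul_le_mul_of_nonneg_right ?_ (prod_nonneg fun i _ => (hW0 i).le)
      have h7 : (C0 / c') ^ k ≤ C ^ k := pow_le_pow_left₀ (by positivity) hCa k
      have h8 : c' ^ k ≤ c' := by
        calc c' ^ k ≤ c' ^ 1 := pow_le_pow_of_le_one hc'0.le hc'1 hk
          _ = c' := pow_one _
      calc C0 ^ k = c' ^ k * (C0 / c') ^ k := by
            rw [← mul_pow]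
            congr 1
            field_simp
        _ ≤ c' * C ^ k := mul_le_mul h8 h7 (by positivity) hc'0.le
    refine h6.trans (le_trans ?_ hTc)
    calc c' * ∏ i, (C * (L / (Real.log (k + 2) * gg k (cz (g i))))) ≤ c' * (y / Real.log y) :=
          mul_le_mul_of_nonneg_left hyL hc'0.le
      _ ≤ c * (y / Real.log y) := mul_le_mul_of_nonneg_right hc'c (by positivity)
  have hTne : T.Nonempty := by
    rw [← Finset.card_pos]
    exact_mod_cast hTcard0
  have hmain := hgen k hk (fun _ => Ioc l (l + h)) T (fun i n => PS l h y (g i) (e i) n) (fun _ => (B : ℝ)) (fun _ => L)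
    (fun i => gg k (cz (g i))) (Real.log (k + 2)) (fun i n m => gg k (n ^ e i * m ^ e i) * gg k (dt (g i) (e i) n m).natAbs)
    hTne (fun _ => hBpos) (fun _ => by linarith) hg1 hlk
    (fun i n m => mul_nonneg (zero_le_one.trans (one_le_gg _ _)) (zero_le_one.trans (one_le_gg _ _)))
    (fun n _ i => filter_subset _ _) hTlow hPup hPP hmom (fun b => AdmL g e b)
    (fun n hn b hb => by
      have h6 := hTprime n hn
      refine admL_of_primes hg h6.1 (hTk n hn).1 (hTg n hn) (fun i => ?_) (fun i => ?_)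
      · have h7 := hb i
        unfold PS at h7
        exact (mem_filter.1 h7).2.1
      · have h7 := hb i
        unfold PS at h7
        have h8 := (mem_filter.1 h7).2.2
        omega) hupl hTL
  -- splitting
  obtain ⟨hadm3, -, -⟩ := hadm k hk g e B B hg hczB2 (by
    have : C3 ≤ C := by linarith
    rw [← hL]
    exact (mul_le_mul_of_nonneg_right this (by positivity)).trans hkB)
  obtain ⟨-, -, hcoinc⟩ := hadm2 k hk g e B B hg hczB2 (by
    have : C4 ≤ C := by linarith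
    rw [← hL]
    exact (mul_le_mul_of_nonneg_right this (by positivity)).trans hkB)
  have hBB : B + B = 2 * B := by ring
  rw [hBB] at hadm3 hcoinc
  obtain ⟨F, hF⟩ : ∃ F, F = (Fintype.piFinset (fun _ : Fin k => Ioc B (2 * B))).filter (fun b => (AdmL g e b ∧ DistL g e b) ∧
        (y / Real.log y) * ∏ i, (C * (L / (Real.log (k + 2) * gg k (cz (g i)))))⁻¹ ≤
          (((Icc 1 y).filter (fun n => n.Prime ∧ ∀ i, (vl (g i) (e i) n (b i)).toNat.Prime)).card : ℝ)) := ⟨_, rfl⟩
  obtain ⟨NC, hNC⟩ : ∃ NC : ℝ, NC = (((Fintype.piFinset (fun _ : Fin k => Ioc B (2 * B))).filter (fun b => AdmL g e b ∧ ¬ DistL g e b)).card : ℝ) := ⟨_, rfl⟩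
  obtain ⟨NA, hNA⟩ : ∃ NA : ℝ, NA = (((Fintype.piFinset (fun _ : Fin k => Ioc B (2 * B))).filter (fun b => AdmL g e b)).card : ℝ) := ⟨_, rfl⟩
  rw [← hNC, ← hNA] at hcoinc
  rw [← hNA] at hadm3
  rw [← hL, ← hF]
  obtain ⟨X, hX⟩ : ∃ X : ℝ, X = ∏ i, (CA * ((B : ℝ) / (Real.log (k + 2) * gg k (cz (g i))))) := ⟨_, rfl⟩
  rw [← hX] at hmain hadm3
  have hX0 : 0 < X := by
    rw [hX]
    exact prod_pos fun i _ => by have := hq0 i; positivity
  have hsplit : (((Fintype.piFinset (fun _ : Fin k => Ioc l (l + h))).filter (fun b => AdmL g e b ∧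
        (T.card : ℝ) * ∏ i, (C0 * (L / (Real.log (k + 2) * gg k (cz (g i)))))⁻¹ ≤
          ((T.filter (fun n => ∀ i, b i ∈ PS l h y (g i) (e i) n)).card : ℝ))).card : ℝ) ≤ F.card + NC := by
    rw [hNC]
    have : (Fintype.piFinset (fun _ : Fin k => Ioc l (l + h))).filter (fun b => AdmL g e b ∧
        (T.card : ℝ) * ∏ i, (C0 * (L / (Real.log (k + 2) * gg k (cz (g i)))))⁻¹ ≤
          ((T.filter (fun n => ∀ i, b i ∈ PS l h y (g i) (e i) n)).card : ℝ)) ⊆
        F ∪ (Fintype.piFinset (fun _ : Fin k => Ioc B (2 * B))).filter (fun b => AdmL g e b ∧ ¬ DistL g e b) := by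
      intro b hb
      rw [mem_filter, Fintype.mem_piFinset] at hb
      rw [mem_union, hF, mem_filter, mem_filter, Fintype.mem_piFinset]
      obtain ⟨hb1, hb2, hb3⟩ := hb
      have hb4 : ∀ i, b i ∈ Ioc B (2 * B) := by
        intro i
        have := hb1 i
        rw [mem_Ioc] at this ⊢
        omega
      by_cases hdist : DistL g e b
      · refine Or.inl ⟨hb4, ⟨hb2, hdist⟩, ?_⟩
        have h6 : ((T.filter (fun n => ∀ i, b i ∈ PS l h y (g i) (e i) n)).card : ℝ) ≤
            (((Icc 1 y).filter (fun n => n.Prime ∧ ∀ i, (vl (g i) (e i) n (b i)).toNat.Prime)).card : ℝ) := by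
          have h7 : T.filter (fun n => ∀ i, b i ∈ PS l h y (g i) (e i) n) ⊆
              (Icc 1 y).filter (fun n => n.Prime ∧ ∀ i, (vl (g i) (e i) n (b i)).toNat.Prime) := by
            intro n hn
            rw [mem_filter] at hn
            have h8 := hTsub hn.1
            rw [mem_filter] at h8 ⊢
            refine ⟨h8.1, h8.2, fun i => ?_⟩
            have h9 := hn.2 i
            unfold PS at h9
            exact (mem_filter.1 h9).2.1
          exact_mod_cast card_le_card h7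
        refine le_trans ?_ (hb3.trans h6)
        have h7 : (y / Real.log y) * ∏ i, (C * (L / (Real.log (k + 2) * gg k (cz (g i)))))⁻¹ ≤
            (c' * (y / Real.log y)) * ∏ i, (C0 * (L / (Real.log (k + 2) * gg k (cz (g i)))))⁻¹ := by
          have h8 : ∏ i, (C * (L / (Real.log (k + 2) * gg k (cz (g i)))))⁻¹ ≤
              c' * ∏ i, (C0 * (L / (Real.log (k + 2) * gg k (cz (g i)))))⁻¹ := by
            rw [prod_inv_distrib, prod_inv_distrib, prod_mul_distrib, prod_mul_distrib, prod_const, prod_const, card_univ,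
              Fintype.card_fin, mul_inv, mul_inv, ← mul_assoc]
            refine mul_le_mul_of_nonneg_right ?_ (inv_nonneg.2 (prod_nonneg fun i _ => (hW0 i).le))
            have h9 : C0 ^ k ≤ c' * C ^ k := by
              have h7 : (C0 / c') ^ k ≤ C ^ k := pow_le_pow_left₀ (by positivity) hCa k
              have h8 : c' ^ k ≤ c' := by
                calc c' ^ k ≤ c' ^ 1 := pow_le_pow_of_le_one hc'0.le hc'1 hk
                  _ = c' := pow_one _
              calc C0 ^ k = c' ^ k * (C0 / c') ^ k := by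
                    rw [← mul_pow]
                    congr 1
                    field_simp
                _ ≤ c' * C ^ k := mul_le_mul h8 h7 (by positivity) hc'0.le
            rw [inv_eq_one_div, ← div_eq_mul_inv, div_le_div_iff₀ (by positivity) (by positivity)]
            linarith
          calc _ ≤ (y / Real.log y) * (c' * ∏ i, (C0 * (L / (Real.log (k + 2) * gg k (cz (g i)))))⁻¹) :=
                mul_le_mul_of_nonneg_left h8 (by positivity)
            _ = _ := by ring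
        refine h7.trans ?_
        refine mul_le_mul_of_nonneg_right ?_ (prod_nonneg fun i _ => by have := hW0 i; positivity)
        exact le_trans (mul_le_mul_of_nonneg_right hc'c (by positivity)) hTc
      · exact Or.inr ⟨hb4, hb2, hdist⟩
    exact_mod_cast (card_le_card this).trans (card_union_le _ _)
  have hC0k : 0 < C0 ^ k := by positivity
  have hNCle : NC ≤ (C0 ^ k)⁻¹ * X / 2 := by
    have h8 : (2 : ℝ) ≤ 2 ^ k := by
      calc (2 : ℝ) = 2 ^ 1 := (pow_one _).symm
        _ ≤ 2 ^ k := pow_le_pow_right₀ (by norm_num) hk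
    have hNC0 : 0 ≤ NC := by rw [hNC]; positivity
    rw [mul_pow] at hcoinc
    rw [inv_mul_eq_div, le_div_iff₀ (by norm_num), le_div_iff₀ hC0k]
    calc NC * 2 * C0 ^ k = 2 * (C0 ^ k * NC) := by ring
      _ ≤ 2 ^ k * (C0 ^ k * NC) := mul_le_mul_of_nonneg_right h8 (by positivity)
      _ ≤ X := by linarith
  have hFge : (C0 ^ k)⁻¹ * X / 2 ≤ F.card := by
    have h6 := hmain.trans hsplit
    linarith
  refine le_trans ?_ hFge
  have h6 : X = CA ^ k * ∏ i, ((B : ℝ) / (Real.log (k + 2) * gg k (cz (g i)))) := by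
    rw [hX, prod_mul_distrib, prod_const, card_univ, Fintype.card_fin]
  rw [h6]
  have h7 : 0 ≤ ∏ i, ((B : ℝ) / (Real.log (k + 2) * gg k (cz (g i)))) := prod_nonneg fun i _ => by
    have := hq0 i
    positivity
  have h8 : (C ^ k)⁻¹ ≤ (C0 ^ k)⁻¹ * CA ^ k / 2 := by
    have h9 : (2 * C0 / CA) ^ k ≤ C ^ k := pow_le_pow_left₀ (by positivity) hCb k
    have h10 : 2 * (C0 ^ k / CA ^ k) ≤ (2 * C0 / CA) ^ k := by
      rw [mul_div_assoc, mul_pow, div_pow]
      refine mul_le_mul_of_nonneg_right ?_ (by positivity)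
      calc (2 : ℝ) = 2 ^ 1 := (pow_one _).symm
        _ ≤ 2 ^ k := pow_le_pow_right₀ (by norm_num) hk
    have h11 : (C0 ^ k)⁻¹ * CA ^ k / 2 = (2 * (C0 ^ k / CA ^ k))⁻¹ := by
      rw [mul_inv, inv_div]
      ring
    rw [h11]
    exact inv_anti₀ (by positivity) (h10.trans h9)
  calc (C ^ k)⁻¹ * ∏ i, ((B : ℝ) / (Real.log (k + 2) * gg k (cz (g i))))
      ≤ ((C0 ^ k)⁻¹ * CA ^ k / 2) * ∏ i, ((B : ℝ) / (Real.log (k + 2) * gg k (cz (g i)))) :=
        mul_le_mul_of_nonneg_right h8 h7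
    _ = _ := by ring

end Pool.Agent.Q160.GQ
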