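import Mathlib
import Pool.Agent.Q160.GQ9

set_option autoImplicit false

/-!
# Growing systems with one moving coefficient each, along primes: the box `[1, H]^k`
-/

namespace Pool.Agent.Q160.GQ

open Finset Filter
open Pool.Agent.H373R2.T7
open Pool.Agent.H305R2 (VV VV_tendsto)
open Pool.Agent.Q160.GK

open Classical in
/-- the systems in the box -/
noncomputable def SysL {k : ℕ} (g : Fin k → Polynomial ℤ) (e : Fin k → ℕ) (H : ℕ) : Finset (Fin k → ℕ) :=
  (Fintype.piFinset (fun _ : Fin k => Icc 1 H)).filter (fun b => AdmL g e b ∧ DistL g e b)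

lemma Icc_eq_Ioc (H : ℕ) : Icc 1 H = Ioc 0 (0 + H) := by
  ext x
  rw [mem_Icc, mem_Ioc]
  omega

open Classical in
/-- **Upper bound.** -/
theorem upL (d : ℕ) : ∃ C : ℝ, 1 ≤ C ∧ ∀ k : ℕ, 1 ≤ k → ∀ (g : Fin k → Polynomial ℤ) (e : Fin k → ℕ), ∀ H : ℕ,
    C * k ≤ Real.log H → (∀ i, PE d (g i) (e i)) → (∀ i, cz (g i) ≤ H ^ 2) →
    ∀ N : Finset ℕ, (∀ n ∈ N, n.Prime ∧ ∀ i, ((g i).coeff 0).natAbs < n) → ∀ t : ℝ, 0 < t →
    (((Fintype.piFinset (fun _ : Fin k => Icc 1 H)).filter
      (fun b => t ≤ ((N.filter (fun n => ∀ i, (vl (g i) (e i) n (b i)).toNat.Prime)).card : ℝ))).card : ℝ) ≤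
    N.card / t * (∏ i, (C * ((Real.log (k + 2) * gg k (cz (g i))) / Real.log H))) * ((SysL g e H).card : ℝ) := by
  obtain ⟨C1, h1, hC1, hone⟩ := oneL
  obtain ⟨CA, c, C3, hCA, hc, hC3, hadm⟩ := adm_bounds 2 d 2 le_rfl
  obtain ⟨C, hC⟩ : ∃ C : ℝ, C = max (2 * C1 / c) (max C3 (Real.log (h1 + 3 : ℕ))) := ⟨_, rfl⟩
  have hCa : 2 * C1 / c ≤ C := by rw [hC]; exact le_max_left _ _
  have hCb : C3 ≤ C := by rw [hC]; exact le_trans (le_max_left _ _) (le_max_right _ _)
  have hCc : Real.log (h1 + 3 : ℕ) ≤ C := by rw [hC]; exact le_trans (le_max_right _ _) (le_max_right _ _)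
  have hC0 : 1 ≤ C := hC3.trans hCb
  refine ⟨C, hC0, fun k hk g e H hkH hg hcz N hN t ht => ?_⟩
  have hkr : (1 : ℝ) ≤ k := by exact_mod_cast hk
  have hHpos : (0 : ℝ) < H := by
    by_contra hcon
    push Not at hcon
    have h7 : (H : ℝ) = 0 := le_antisymm hcon (Nat.cast_nonneg _)
    rw [h7, Real.log_zero] at hkH
    nlinarith
  have hL : C ≤ Real.log H := by nlinarith
  have hL0 : 0 < Real.log H := by linarith
  have hh3 : h1 + 3 ≤ H := by
    have h5 : Real.log (h1 + 3 : ℕ) ≤ Real.log H := by linarith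
    have h7 := (Real.log_le_log_iff (by positivity) hHpos).1 h5
    exact_mod_cast h7
  have hlk := log_two_add k
  have hgg : ∀ i, 1 ≤ gg k (cz (g i)) := fun i => one_le_gg _ _
  have hbox : Fintype.piFinset (fun _ : Fin k => Icc 1 H) = Fintype.piFinset (fun _ : Fin k => Ioc 0 (0 + H)) := by
    congr 1
    funext _
    exact Icc_eq_Ioc H
  obtain ⟨_, hlow, _⟩ := hadm k hk g e 0 H hg hcz (le_trans (mul_le_mul_of_nonneg_right hCb (by positivity)) hkH)
  rw [← hbox] at hlow
  have hS : (SysL g e H) = (Fintype.piFinset (fun _ : Fin k => Icc 1 H)).filter (fun b => AdmL g e b ∧ DistL g e b) := rfl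
  rw [← hS] at hlow
  obtain ⟨X, hX⟩ : ∃ X, X = Fintype.piFinset (fun _ : Fin k => Icc 1 H) := ⟨_, rfl⟩
  have h4 : t * (((X.filter (fun b =>
        t ≤ ((N.filter (fun n => ∀ i, (vl (g i) (e i) n (b i)).toNat.Prime)).card : ℝ))).card : ℕ) : ℝ) ≤
      N.card * ∏ _i : Fin k, (2 * C1 * ((H : ℝ) / Real.log H)) := by
    calc t * (((X.filter (fun b => t ≤ ((N.filter (fun n => ∀ i, (vl (g i) (e i) n (b i)).toNat.Prime)).card : ℝ))).card : ℕ) : ℝ)
        = ∑ _b ∈ X.filter (fun b => t ≤ ((N.filter (fun n => ∀ i, (vl (g i) (e i) n (b i)).toNat.Prime)).card : ℝ)), t := by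
          rw [sum_const, nsmul_eq_mul, mul_comm]
      _ ≤ ∑ b ∈ X.filter (fun b => t ≤ ((N.filter (fun n => ∀ i, (vl (g i) (e i) n (b i)).toNat.Prime)).card : ℝ)),
            ((N.filter (fun n => ∀ i, (vl (g i) (e i) n (b i)).toNat.Prime)).card : ℝ) :=
          sum_le_sum fun b hb => (mem_filter.1 hb).2
      _ ≤ ∑ b ∈ X, ((N.filter (fun n => ∀ i, (vl (g i) (e i) n (b i)).toNat.Prime)).card : ℝ) :=
          sum_le_sum_of_subset_of_nonneg (filter_subset _ _) fun _ _ _ => Nat.cast_nonneg _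
      _ = ∑ n ∈ N, ((X.filter (fun b => ∀ i, (vl (g i) (e i) n (b i)).toNat.Prime)).card : ℝ) := by
          have h5 : ∑ b ∈ X, (N.filter (fun n => ∀ i, (vl (g i) (e i) n (b i)).toNat.Prime)).card =
              ∑ n ∈ N, (X.filter (fun b => ∀ i, (vl (g i) (e i) n (b i)).toNat.Prime)).card := by
            simp only [card_filter]
            exact sum_comm
          exact_mod_cast h5
      _ ≤ ∑ _n ∈ N, ∏ _i : Fin k, (2 * C1 * ((H : ℝ) / Real.log H)) := by
          refine sum_le_sum fun n hn => ?_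
          have h5 : X.filter (fun b => ∀ i, (vl (g i) (e i) n (b i)).toNat.Prime) =
              Fintype.piFinset (fun i => (Icc 1 H).filter (fun b => (vl (g i) (e i) n b).toNat.Prime)) := by
            ext b
            rw [hX, mem_filter, Fintype.mem_piFinset, Fintype.mem_piFinset]
            constructor
            · rintro ⟨h6, h7⟩ i
              rw [mem_filter]
              exact ⟨h6 i, h7 i⟩
            · intro h6
              exact ⟨fun i => (mem_filter.1 (h6 i)).1, fun i => (mem_filter.1 (h6 i)).2⟩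
          rw [h5, Fintype.card_piFinset]
          push_cast
          refine prod_le_prod (fun i _ => Nat.cast_nonneg _) fun i _ => ?_
          obtain ⟨hnp, hn0⟩ := hN n hn
          have hcop : IsCoprime ((g i).eval (n : ℤ)) (((n ^ e i : ℕ)) : ℤ) := by
            push_cast
            apply IsCoprime.pow_right
            have h7 := not_dvd_eval (hg i).2.1 (hn0 i) (dvd_refl n)
            exact ((Prime.coprime_iff_not_dvd (Nat.prime_iff_prime_int.1 hnp)).2 h7).symm
          have h7 := hone H 0 (n ^ e i) ((g i).eval (n : ℤ)) (by omega) (pow_pos hnp.pos _) hcop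
          rw [← Icc_eq_Ioc] at h7
          have h9 : gg 0 (n ^ e i) ≤ 2 := (gg_prime_pow hnp (hg i).one_le_e).trans (fac_le_two hnp.two_le)
          have h10 : 0 ≤ (H : ℝ) / Real.log H := by positivity
          calc (((Icc 1 H).filter (fun b => (vl (g i) (e i) n b).toNat.Prime)).card : ℝ)
              ≤ C1 * (H / Real.log H) * gg 0 (n ^ e i) := h7
            _ ≤ C1 * (H / Real.log H) * 2 := mul_le_mul_of_nonneg_left h9 (by positivity)
            _ = 2 * C1 * ((H : ℝ) / Real.log H) := by ring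
      _ = N.card * ∏ _i : Fin k, (2 * C1 * ((H : ℝ) / Real.log H)) := by
          rw [sum_const, nsmul_eq_mul]
  rw [← hX]
  have h5 : ∏ _i : Fin k, (2 * C1 * ((H : ℝ) / Real.log H)) ≤
      (∏ i, (C * ((Real.log (k + 2) * gg k (cz (g i))) / Real.log H))) * ((SysL g e H).card : ℝ) := by
    have h6 : (∏ i, (C * ((Real.log (k + 2) * gg k (cz (g i))) / Real.log H))) *
        ∏ i, (c * (H / (Real.log (k + 2) * gg k (cz (g i))))) ≤
        (∏ i, (C * ((Real.log (k + 2) * gg k (cz (g i))) / Real.log H))) * ((SysL g e H).card : ℝ) := by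
      refine mul_le_mul_of_nonneg_left hlow (prod_nonneg fun i _ => ?_)
      have := hgg i
      positivity
    refine le_trans ?_ h6
    rw [← prod_mul_distrib]
    refine prod_le_prod (fun i _ => by positivity) fun i _ => ?_
    have h7 := hgg i
    have h8 : C * ((Real.log (k + 2) * gg k (cz (g i))) / Real.log H) * (c * (H / (Real.log (k + 2) * gg k (cz (g i))))) =
        C * c * (H / Real.log H) := by
      have : gg k (cz (g i)) ≠ 0 := by linarith
      field_simp
    rw [h8]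
    refine mul_le_mul_of_nonneg_right ?_ (by positivity)
    rwa [div_le_iff₀ hc] at hCa
  have h6 : t * (((X.filter (fun b =>
        t ≤ ((N.filter (fun n => ∀ i, (vl (g i) (e i) n (b i)).toNat.Prime)).card : ℝ))).card : ℕ) : ℝ) ≤
      N.card * ((∏ i, (C * ((Real.log (k + 2) * gg k (cz (g i))) / Real.log H))) * ((SysL g e H).card : ℝ)) :=
    h4.trans (mul_le_mul_of_nonneg_left h5 (Nat.cast_nonneg _))
  rw [div_mul_eq_mul_div, div_mul_eq_mul_div, le_div_iff₀ ht, mul_comm, mul_assoc]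
  exact h6

open Classical in
/-- **Lower bound in the box.** -/
theorem boxL (d : ℕ) (hd : 1 ≤ d) : ∃ (K : ℕ) (C : ℝ), 1 ≤ C ∧ ∀ k : ℕ, 1 ≤ k → ∀ (g : Fin k → Polynomial ℤ) (e : Fin k → ℕ),
    ∀ H y : ℕ, C * k ≤ Real.log H → (∀ i, PE d (g i) (e i)) →
    (∀ i, (y : ℝ) ^ Q239.LC.pw (e i) * Real.log H ^ K ≤ H ∧
      C * ∑ j ∈ range (d + 1), |(((g i).coeff j : ℤ) : ℝ)| * (y : ℝ) ^ (j - e i) ≤ H ∧ 2 * ((g i).coeff 0).natAbs ≤ y) →
    ∏ i, (C * (Real.log H / (Real.log (k + 2) * gg k (cz (g i))))) ≤ y / Real.log y →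
    (C ^ k)⁻¹ * ((SysL g e H).card : ℝ) ≤
      (((SysL g e H).filter (fun b =>
        (y / Real.log y) * ∏ i, (C * (Real.log H / (Real.log (k + 2) * gg k (cz (g i)))))⁻¹ ≤
          (((Icc 1 y).filter (fun n => n.Prime ∧ ∀ i, (vl (g i) (e i) n (b i)).toNat.Prime)).card : ℝ))).card : ℝ) := by
  obtain ⟨K0, C0, hC0, hgen⟩ := genL d hd
  obtain ⟨CA, ca, C3, hCA, hca, hC3, hadm⟩ := adm_bounds 2 d 2 le_rfl
  obtain ⟨C, hC⟩ : ∃ C : ℝ, C = 4 * C0 * max CA 1 + C3 + 4 := ⟨_, rfl⟩
  have hm1 : 1 ≤ max CA 1 := le_max_right _ _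
  have hm2 : CA ≤ max CA 1 := le_max_left _ _
  have hCa : 4 * C0 ≤ C := by rw [hC]; nlinarith
  have hCb : 4 * C0 * CA ≤ C := by rw [hC]; nlinarith
  have hCc : C3 ≤ C := by rw [hC]; nlinarith
  have hCd : 4 ≤ C := by rw [hC]; nlinarith
  refine ⟨K0 + 1, C, by linarith, fun k hk g e H y hkH hg hsz hyL => ?_⟩
  have hkr : (1 : ℝ) ≤ k := by exact_mod_cast hk
  have hHpos : (0 : ℝ) < H := by
    by_contra hcon
    push Not at hcon
    have h7 : (H : ℝ) = 0 := le_antisymm hcon (Nat.cast_nonneg _)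
    rw [h7, Real.log_zero] at hkH
    nlinarith
  have hL : C ≤ Real.log H := by nlinarith
  have hL4 : 4 ≤ Real.log H := by linarith
  have hH4 : (16 : ℝ) ≤ H := by
    have h1 := Real.log_le_sub_one_of_pos (show (0 : ℝ) < H / 4 by positivity)
    have h2 : Real.log ((H : ℝ) / 4) = Real.log H - Real.log 4 := Real.log_div (by positivity) (by norm_num)
    have h3 : Real.log 4 ≤ 1.4 := by
      have h4 : Real.log 4 = 2 * Real.log 2 := by
        rw [show (4 : ℝ) = 2 ^ 2 by norm_num, Real.log_pow]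
        push_cast
        ring
      have := Real.log_two_lt_d9
      linarith
    by_contra hcon
    push Not at hcon
    have h5 : Real.log (H : ℝ) < Real.log 16 := Real.log_lt_log hHpos hcon
    have h6 : Real.log 16 = 4 * Real.log 2 := by
      rw [show (16 : ℝ) = 2 ^ 4 by norm_num, Real.log_pow]
      push_cast
      ring
    have := Real.log_two_lt_d9
    linarith
  obtain ⟨B, hB⟩ : ∃ B, B = H / 2 := ⟨_, rfl⟩
  have hB1 : 2 * B ≤ H := by omega
  have hB2 : (H : ℝ) / 4 ≤ B := by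
    have h1 : H ≤ 2 * B + 1 := by omega
    have h2 : (H : ℝ) ≤ 2 * B + 1 := by exact_mod_cast h1
    linarith
  have hBH : (B : ℝ) ≤ H := by
    have : B ≤ H := by omega
    exact_mod_cast this
  have hBpos : (0 : ℝ) < B := by linarith
  have hlogB : Real.log H / 2 ≤ Real.log B := by
    have h6 : (H : ℝ) ≤ (B : ℝ) ^ 2 := by nlinarith
    have h7 := Real.log_le_log hHpos h6
    rw [Real.log_pow] at h7
    push_cast at h7
    linarith
  have hlogBH : Real.log B ≤ Real.log H := Real.log_le_log hBpos hBH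
  have hlk := log_two_add k
  have hgg : ∀ i, 1 ≤ gg k (cz (g i)) := fun i => one_le_gg _ _
  have hyy : ∀ i, y ≤ H := fun i => by
    have h1 := (hsz i).1
    have h2 : (y : ℝ) ≤ H := by
      rcases Nat.eq_zero_or_pos y with h3 | h3
      · rw [h3]; exact_mod_cast Nat.zero_le _
      · have h4 : (1 : ℝ) ≤ y := by exact_mod_cast h3
        calc (y : ℝ) = (y : ℝ) ^ 1 * 1 := by ring
          _ ≤ (y : ℝ) ^ Q239.LC.pw (e i) * Real.log H ^ (K0 + 1) :=
              mul_le_mul (pow_le_pow_right₀ h4 (Q239.LC.pw_pos _)) (one_le_pow₀ (by linarith)) zero_le_one (by positivity)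
          _ ≤ H := h1
    exact_mod_cast h2
  have hcz : ∀ i, cz (g i) ≤ H ^ 2 := fun i => by
    have h1 := cz_le (hg i)
    have h2 := (hsz i).2.2
    have h3 := hyy i
    have h4 : H ≤ H ^ 2 := Nat.le_self_pow (by norm_num) H
    omega
  have hsz' : ∀ i, SZ d K0 B y (g i) (e i) := fun i => by
    obtain ⟨h1, h2, h3⟩ := hsz i
    refine ⟨?_, ?_, h3⟩
    · have h4 : (y : ℝ) ^ Q239.LC.pw (e i) * Real.log B ^ K0 ≤ (y : ℝ) ^ Q239.LC.pw (e i) * Real.log H ^ K0 := by
        refine mul_le_mul_of_nonneg_left (pow_le_pow_left₀ ?_ hlogBH K0) (by positivity)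
        linarith
      have h5 : (y : ℝ) ^ Q239.LC.pw (e i) * Real.log H ^ K0 * 4 ≤ H := by
        refine le_trans ?_ h1
        rw [pow_succ, ← mul_assoc]
        exact mul_le_mul_of_nonneg_left hL4 (by positivity)
      linarith
    · have h4 : 4 * ∑ j ∈ range (d + 1), |(((g i).coeff j : ℤ) : ℝ)| * (y : ℝ) ^ (j - e i) ≤ H := by
        refine le_trans (mul_le_mul_of_nonneg_right hCd (sum_nonneg fun j _ => by positivity)) h2
      linarith
  have hWpos : ∀ i, 0 < Real.log H / (Real.log (k + 2) * gg k (cz (g i))) := fun i => by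
    have := hgg i
    positivity
  have hWBpos : ∀ i, 0 < Real.log B / (Real.log (k + 2) * gg k (cz (g i))) := fun i => by
    have := hgg i
    have : 0 < Real.log B := by linarith
    positivity
  have hWle : ∀ i, C0 * (Real.log B / (Real.log (k + 2) * gg k (cz (g i)))) ≤
      C * (Real.log H / (Real.log (k + 2) * gg k (cz (g i)))) := fun i => by
    have h1 := hgg i
    refine mul_le_mul (by linarith) ?_ (hWBpos i).le (by linarith)
    exact div_le_div_of_nonneg_right hlogBH (by positivity)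
  have hmain := hgen k hk g e B y (by nlinarith) hg hsz'
    ((prod_le_prod (fun i _ => by have := hWBpos i; positivity) fun i _ => hWle i).trans hyL)
  obtain ⟨hup, _, _⟩ := hadm k hk g e 0 H hg hcz (le_trans (mul_le_mul_of_nonneg_right hCc (by positivity)) hkH)
  have hS : ((SysL g e H).card : ℝ) ≤ ∏ i, (CA * (H / (Real.log (k + 2) * gg k (cz (g i))))) := by
    refine le_trans ?_ hup
    have h1 : SysL g e H ⊆ (Fintype.piFinset (fun _ : Fin k => Ioc 0 (0 + H))).filter (fun b => AdmL g e b) := by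
      intro b hb
      unfold SysL at hb
      rw [mem_filter] at hb ⊢
      refine ⟨?_, hb.2.1⟩
      rw [Fintype.mem_piFinset] at hb ⊢
      intro i
      rw [← Icc_eq_Ioc]
      exact hb.1 i
    exact_mod_cast card_le_card h1
  have h1 : (C ^ k)⁻¹ * ((SysL g e H).card : ℝ) ≤
      (C0 ^ k)⁻¹ * ∏ i, ((B : ℝ) / (Real.log (k + 2) * gg k (cz (g i)))) := by
    have h2 : ∏ i, (CA * (H / (Real.log (k + 2) * gg k (cz (g i))))) ≤
        (4 * CA) ^ k * ∏ i, ((B : ℝ) / (Real.log (k + 2) * gg k (cz (g i)))) := by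
      have h3 : (4 * CA) ^ k = ∏ _i : Fin k, (4 * CA) := by
        rw [prod_const, card_univ, Fintype.card_fin]
      rw [h3, ← prod_mul_distrib]
      refine prod_le_prod (fun i _ => ?_) fun i _ => ?_
      · have := hgg i
        positivity
      · have h4 := hgg i
        have h5 : (H : ℝ) / (Real.log (k + 2) * gg k (cz (g i))) ≤ 4 * ((B : ℝ) / (Real.log (k + 2) * gg k (cz (g i)))) := by
          rw [← mul_div_assoc]
          exact div_le_div_of_nonneg_right (by linarith) (by positivity)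
        nlinarith
    have h3 : 0 ≤ ∏ i, ((B : ℝ) / (Real.log (k + 2) * gg k (cz (g i)))) :=
      prod_nonneg fun i _ => by have := hgg i; positivity
    have h4 : (C ^ k)⁻¹ * (4 * CA) ^ k ≤ (C0 ^ k)⁻¹ := by
      have h5 : (4 * C0 * CA) ^ k ≤ C ^ k := pow_le_pow_left₀ (by positivity) hCb k
      have h6 : (4 * C0 * CA) ^ k = C0 ^ k * (4 * CA) ^ k := by
        rw [← mul_pow]
        congr 1
        ring
      rw [h6] at h5
      rw [inv_mul_le_iff₀ (by positivity), ← div_eq_mul_inv, le_div_iff₀ (by positivity), mul_comm]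
      exact h5
    calc (C ^ k)⁻¹ * ((SysL g e H).card : ℝ) ≤ (C ^ k)⁻¹ * ((4 * CA) ^ k * ∏ i, ((B : ℝ) / (Real.log (k + 2) * gg k (cz (g i))))) :=
          mul_le_mul_of_nonneg_left (hS.trans h2) (by positivity)
      _ = (C ^ k)⁻¹ * (4 * CA) ^ k * ∏ i, ((B : ℝ) / (Real.log (k + 2) * gg k (cz (g i)))) := by ring
      _ ≤ _ := mul_le_mul_of_nonneg_right h4 h3
  refine h1.trans (hmain.trans ?_)
  have h2 : (Fintype.piFinset (fun _ : Fin k => Ioc B (2 * B))).filter (fun b => (AdmL g e b ∧ DistL g e b) ∧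
        (y / Real.log y) * ∏ i, (C0 * (Real.log B / (Real.log (k + 2) * gg k (cz (g i)))))⁻¹ ≤
          (((Icc 1 y).filter (fun n => n.Prime ∧ ∀ i, (vl (g i) (e i) n (b i)).toNat.Prime)).card : ℝ)) ⊆
      (SysL g e H).filter (fun b =>
        (y / Real.log y) * ∏ i, (C * (Real.log H / (Real.log (k + 2) * gg k (cz (g i)))))⁻¹ ≤
          (((Icc 1 y).filter (fun n => n.Prime ∧ ∀ i, (vl (g i) (e i) n (b i)).toNat.Prime)).card : ℝ)) := by
    intro b hb
    rw [mem_filter] at hb
    obtain ⟨hb1, hb2, hb3⟩ := hb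
    unfold SysL
    rw [mem_filter, mem_filter]
    refine ⟨⟨?_, hb2⟩, le_trans ?_ hb3⟩
    · rw [Fintype.mem_piFinset] at hb1 ⊢
      intro i
      have h3 := hb1 i
      rw [mem_Ioc] at h3
      rw [mem_Icc]
      omega
    · refine mul_le_mul_of_nonneg_left ?_ (div_nonneg (Nat.cast_nonneg _) (Real.log_natCast_nonneg _))
      refine prod_le_prod (fun i _ => by have := hWpos i; positivity) fun i _ => ?_
      exact inv_anti₀ (mul_pos (by linarith) (hWBpos i)) (hWle i)
  exact_mod_cast card_le_card h2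

end Pool.Agent.Q160.GQ
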