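import Mathlib
import Pool.Agent.Q160.GQ10

set_option autoImplicit false

/-!
# From vectors to sets
-/

namespace Pool.Agent.Q160.GQ

open Finset

open Classical in
/-- the number of enumerations of a set -/
lemma card_fiber {s : ℕ} (I S : Finset ℕ) (hSI : S ⊆ I) (hS : S.card = s) :
    (((Fintype.piFinset (fun _ : Fin s => I)).filter (fun b => Function.Injective b ∧ univ.image b = S)).card : ℕ) =
      s.factorial := by
  have h1 : Fintype.card (Fin s ≃ S) = s.factorial := by
    rw [Fintype.card_equiv (Finset.equivFinOfCardEq hS).symm, Fintype.card_fin]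
  rw [← h1, ← Finset.card_univ]
  symm
  refine card_bij (fun (f : Fin s ≃ S) _ => fun i => ((f i : S) : ℕ)) (fun f _ => ?_) (fun f _ f' _ hff => ?_) (fun b hb => ?_)
  · rw [mem_filter, Fintype.mem_piFinset]
    refine ⟨fun i => hSI (f i).2, fun i j hij => f.injective (Subtype.ext hij), ?_⟩
    ext x
    rw [mem_image]
    constructor
    · rintro ⟨i, _, rfl⟩
      exact (f i).2
    · intro hx
      exact ⟨f.symm ⟨x, hx⟩, mem_univ _, by rw [Equiv.apply_symm_apply]⟩
  · ext i
    have := congrFun hff i
    exact this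
  · rw [mem_filter] at hb
    obtain ⟨_, hinj, himg⟩ := hb
    have hmem : ∀ i, b i ∈ S := fun i => by
      rw [← himg]
      exact mem_image_of_mem _ (mem_univ _)
    refine ⟨Equiv.ofBijective (fun i => (⟨b i, hmem i⟩ : S)) ⟨fun i j hij => ?_, fun x => ?_⟩, mem_univ _, ?_⟩
    · exact hinj (congrArg Subtype.val hij)
    · have h2 : (x : ℕ) ∈ univ.image b := by rw [himg]; exact x.2
      rw [mem_image] at h2
      obtain ⟨i, _, hi⟩ := h2
      exact ⟨i, Subtype.ext hi⟩
    · funext i
      rfl

open Classical in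
/-- **vectors with distinct entries and sets** -/
lemma card_inj_vec (s : ℕ) (I : Finset ℕ) (P : Finset ℕ → Prop) :
    (((Fintype.piFinset (fun _ : Fin s => I)).filter (fun b => Function.Injective b ∧ P (univ.image b))).card : ℕ) =
      s.factorial * ((powersetCard s I).filter P).card := by
  rw [card_eq_sum_card_fiberwise (f := fun b : Fin s → ℕ => univ.image b) (t := (powersetCard s I).filter P)]
  · rw [sum_congr rfl (g := fun _ => s.factorial)]
    · rw [sum_const, smul_eq_mul, mul_comm]
    · intro S hS
      rw [mem_filter, mem_powersetCard] at hS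
      rw [← card_fiber I S hS.1.1 hS.1.2]
      congr 1
      ext b
      rw [mem_filter, mem_filter, mem_filter]
      constructor
      · rintro ⟨⟨h1, h2, _⟩, h3⟩
        exact ⟨h1, h2, h3⟩
      · rintro ⟨h1, h2, h3⟩
        exact ⟨⟨h1, h2, by rw [h3]; exact hS.2⟩, h3⟩
  · intro b hb
    rw [mem_coe, mem_filter, Fintype.mem_piFinset] at hb
    rw [mem_coe, mem_filter, mem_powersetCard]
    refine ⟨⟨fun x hx => ?_, ?_⟩, hb.2.2⟩
    · rw [mem_image] at hx
      obtain ⟨i, _, rfl⟩ := hx
      exact hb.1 i
    · rw [card_image_of_injective _ hb.2.1, card_univ, Fintype.card_fin]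

end Pool.Agent.Q160.GQ
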