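import Mathlib
import Pool.Agent.Q160.GQ11

set_option autoImplicit false

/-!
# Sets of coefficients: the forms `a n ^ e + c` with `c = 1` or `c = -1`, along primes
-/

namespace Pool.Agent.Q160.GQ

open Finset Filter
open Pool.Agent.Q160.GK

/-- the value `a n ^ e + c` -/
def vs (c : ℤ) (e a n : ℕ) : ℤ := (a : ℤ) * (n : ℤ) ^ e + c

/-- admissible sets of coefficients -/
def AdmS (c : ℤ) (e : ℕ) (A : Finset ℕ) : Prop :=
  ∀ p : ℕ, p.Prime → ∃ n : ℕ, ¬ p ∣ n ∧ ∀ a ∈ A, ¬ (p : ℤ) ∣ vs c e a n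

/-- the good arguments -/
def NS (c : ℤ) (e : ℕ) (A Om : Finset ℕ) : ℕ :=
  (Om.filter (fun n => n.Prime ∧ ∀ a ∈ A, (vs c e a n).toNat.Prime)).card

open Classical in
/-- the admissible sets of `s` elements of `[1, H]` -/
noncomputable def setS (c : ℤ) (e s H : ℕ) : Finset (Finset ℕ) := (powersetCard s (Icc 1 H)).filter (AdmS c e)

/-- the constant polynomial -/
noncomputable def gc (s : ℕ) (c : ℤ) : Fin s → Polynomial ℤ := fun _ => Polynomial.C c

/-- the constant exponent -/
def ec (s e : ℕ) : Fin s → ℕ := fun _ => e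

lemma vl_gc (s : ℕ) (c : ℤ) (e n : ℕ) (b : Fin s → ℕ) (i : Fin s) : vl (gc s c i) (ec s e i) n (b i) = vs c e (b i) n := by
  unfold vl gc ec vs
  rw [Polynomial.eval_C]
  push_cast
  ring

lemma cz_gc {s : ℕ} {c : ℤ} (hc : c = 1 ∨ c = -1) (i : Fin s) : cz (gc s c i) = 1 := by
  have hc0 : c ≠ 0 := by rcases hc with h | h <;> rw [h] <;> norm_num
  unfold cz gc
  rw [Polynomial.support_C hc0, gcd_singleton, Polynomial.coeff_C_zero]
  rcases hc with h | h <;> rw [h] <;> simp

lemma gg_gc {s : ℕ} {c : ℤ} (hc : c = 1 ∨ c = -1) (i : Fin s) : gg s (cz (gc s c i)) = 1 := by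
  rw [cz_gc hc]
  unfold gg
  rw [Nat.primeFactors_one, filter_empty, prod_empty]

lemma PE_gc {s : ℕ} {c : ℤ} (hc : c = 1 ∨ c = -1) {e : ℕ} (he : 1 ≤ e) (i : Fin s) : PE e (gc s c i) (ec s e i) := by
  have hc0 : c ≠ 0 := by rcases hc with h | h <;> rw [h] <;> norm_num
  unfold PE gc ec
  refine ⟨Polynomial.coeff_C_of_ne_zero (by omega), by rwa [Polynomial.coeff_C_zero], ?_, le_rfl⟩
  rw [Polynomial.natDegree_C]
  exact Nat.zero_le _

lemma AdmL_gc {s : ℕ} (c : ℤ) (e : ℕ) (b : Fin s → ℕ) : AdmL (gc s c) (ec s e) b ↔ AdmS c e (univ.image b) := by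
  unfold AdmL AdmS
  refine forall_congr' fun p => forall_congr' fun _ => exists_congr fun n => and_congr_right fun _ => ?_
  constructor
  · intro h a ha
    rw [mem_image] at ha
    obtain ⟨i, _, rfl⟩ := ha
    rw [← vl_gc s c e n b i]
    exact h i
  · intro h i
    rw [vl_gc]
    exact h (b i) (mem_image_of_mem _ (mem_univ _))

lemma DistL_gc {s : ℕ} (c : ℤ) (e : ℕ) (b : Fin s → ℕ) : DistL (gc s c) (ec s e) b ↔ Function.Injective b := by
  unfold DistL
  constructor
  · intro h i j hij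
    by_contra hne
    exact h i j hne ⟨rfl, rfl, hij⟩
  · intro h i j hij h1
    exact hij (h h1.2.2)

lemma good_gc {s : ℕ} (c : ℤ) (e : ℕ) (b : Fin s → ℕ) (n : ℕ) :
    (∀ i, (vl (gc s c i) (ec s e i) n (b i)).toNat.Prime) ↔ ∀ a ∈ univ.image b, (vs c e a n).toNat.Prime := by
  constructor
  · intro h a ha
    rw [mem_image] at ha
    obtain ⟨i, _, rfl⟩ := ha
    rw [← vl_gc s c e n b i]
    exact h i
  · intro h i
    rw [vl_gc]
    exact h (b i) (mem_image_of_mem _ (mem_univ _))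

open Classical in
lemma card_filter_SysL {s : ℕ} (c : ℤ) (e H : ℕ) (P : Finset ℕ → Prop) :
    ((SysL (gc s c) (ec s e) H).filter (fun b => P (univ.image b))).card = s.factorial * ((setS c e s H).filter P).card := by
  have h1 : (SysL (gc s c) (ec s e) H).filter (fun b => P (univ.image b)) =
      (Fintype.piFinset (fun _ : Fin s => Icc 1 H)).filter
        (fun b => Function.Injective b ∧ (AdmS c e (univ.image b) ∧ P (univ.image b))) := by
    ext b
    unfold SysL
    rw [mem_filter, mem_filter, mem_filter, AdmL_gc, DistL_gc]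
    tauto
  rw [h1]
  refine Eq.trans ?_ ((card_inj_vec s (Icc 1 H) (fun A => AdmS c e A ∧ P A)).trans ?_)
  · congr!
  · unfold setS
    rw [filter_filter]
    congr!

open Classical in
lemma card_SysL {s : ℕ} (c : ℤ) (e H : ℕ) :
    (SysL (gc s c) (ec s e) H).card = s.factorial * (setS c e s H).card := by
  have h1 := card_filter_SysL (s := s) c e H (fun _ => True)
  have h2 : (SysL (gc s c) (ec s e) H).filter (fun _ => True) = SysL (gc s c) (ec s e) H :=
    filter_true_of_mem (fun _ _ => trivial)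
  have h3 : (setS c e s H).filter (fun _ => True) = setS c e s H := filter_true_of_mem (fun _ _ => trivial)
  calc (SysL (gc s c) (ec s e) H).card = ((SysL (gc s c) (ec s e) H).filter (fun _ => True)).card := by rw [h2]
    _ = s.factorial * ((setS c e s H).filter (fun _ => True)).card := by
        refine Eq.trans ?_ (h1.trans ?_)
        · congr!
        · congr!
    _ = _ := by rw [h3]

open Classical in
/-- **The number of admissible sets.** -/
theorem cardS (c : ℤ) (hc : c = 1 ∨ c = -1) (e : ℕ) (he : 1 ≤ e) : ∃ C : ℝ, 1 ≤ C ∧ ∀ s H : ℕ, 1 ≤ s → C * s ≤ Real.log H →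
    (C⁻¹ * (H / Real.log (s + 2))) ^ s ≤ s.factorial * ((setS c e s H).card : ℝ) ∧
    s.factorial * ((setS c e s H).card : ℝ) ≤ (C * (H / Real.log (s + 2))) ^ s := by
  obtain ⟨CA, ca, C3, hCA, hca, hC3, hadm⟩ := adm_bounds 2 e 2 le_rfl
  obtain ⟨C, hC⟩ : ∃ C : ℝ, C = max (max CA ca⁻¹) C3 := ⟨_, rfl⟩
  have hCa : CA ≤ C := by rw [hC]; exact le_trans (le_max_left _ _) (le_max_left _ _)
  have hCb : ca⁻¹ ≤ C := by rw [hC]; exact le_trans (le_max_right _ _) (le_max_left _ _)
  have hCc : C3 ≤ C := by rw [hC]; exact le_max_right _ _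
  have hC0 : 1 ≤ C := hC3.trans hCc
  refine ⟨C, hC0, fun s H hs hsH => ?_⟩
  have hsr : (1 : ℝ) ≤ s := by exact_mod_cast hs
  have hHpos : (0 : ℝ) < H := by
    by_contra hcon
    push Not at hcon
    have h7 : (H : ℝ) = 0 := le_antisymm hcon (Nat.cast_nonneg _)
    rw [h7, Real.log_zero] at hsH
    nlinarith
  have hlk := log_two_add s
  have hH1 : 1 ≤ H := by
    have : 0 < H := by exact_mod_cast hHpos
    omega
  obtain ⟨h1, h2, _⟩ := hadm s hs (gc s c) (ec s e) 0 H (fun i => PE_gc hc he i)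
    (fun i => by rw [cz_gc hc]; exact Nat.one_le_pow _ _ hH1) (le_trans (mul_le_mul_of_nonneg_right hCc (by positivity)) hsH)
  simp only [gg_gc hc, mul_one, prod_const, card_univ, Fintype.card_fin, ← Icc_eq_Ioc] at h1 h2
  have h3 : (s.factorial : ℝ) * ((setS c e s H).card : ℝ) = ((SysL (gc s c) (ec s e) H).card : ℝ) := by
    rw [card_SysL]
    push_cast
    rfl
  rw [h3]
  constructor
  · refine le_trans (pow_le_pow_left₀ (by positivity) (mul_le_mul_of_nonneg_right ?_ (by positivity)) s) h2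
    rw [inv_le_comm₀ (by linarith) hca]
    exact hCb
  · have h4 : ((SysL (gc s c) (ec s e) H).card : ℝ) ≤
        (((Fintype.piFinset (fun _ : Fin s => Icc 1 H)).filter (fun b => AdmL (gc s c) (ec s e) b)).card : ℝ) := by
      have h5 : SysL (gc s c) (ec s e) H ⊆ (Fintype.piFinset (fun _ : Fin s => Icc 1 H)).filter (fun b => AdmL (gc s c) (ec s e) b) := by
        intro b hb
        unfold SysL at hb
        rw [mem_filter] at hb ⊢
        exact ⟨hb.1, hb.2.1⟩
      exact_mod_cast card_le_card h5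
    exact h4.trans (h1.trans (pow_le_pow_left₀ (by positivity) (mul_le_mul_of_nonneg_right hCa (by positivity)) s))

open Classical in
/-- **Lower bound for sets.** -/
theorem lowS (c : ℤ) (hc : c = 1 ∨ c = -1) (e : ℕ) (he : 1 ≤ e) : ∃ (K : ℕ) (C : ℝ), 1 ≤ C ∧ ∀ s H y : ℕ, 1 ≤ s →
    C * s ≤ Real.log H → (y : ℝ) ^ Q239.LC.pw e * Real.log H ^ K ≤ H →
    (C * (Real.log H / Real.log (s + 2))) ^ s ≤ y / Real.log y →
    (C ^ s)⁻¹ * ((setS c e s H).card : ℝ) ≤
      (((setS c e s H).filter (fun A =>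
        (y / Real.log y) * ((C * (Real.log H / Real.log (s + 2))) ^ s)⁻¹ ≤ (NS c e A (Icc 1 y) : ℝ))).card : ℝ) := by
  obtain ⟨K, C, hC1, hbox⟩ := boxL e he
  have hc1 : |(c : ℝ)| = 1 := by rcases hc with h | h <;> rw [h] <;> norm_num
  have hc2 : c.natAbs = 1 := by rcases hc with h | h <;> rw [h] <;> rfl
  refine ⟨K, C, hC1, fun s H y hs hsH hyH hyL => ?_⟩
  have hsr : (1 : ℝ) ≤ s := by exact_mod_cast hs
  have hHpos : (0 : ℝ) < H := by
    by_contra hcon
    push Not at hcon
    have h7 : (H : ℝ) = 0 := le_antisymm hcon (Nat.cast_nonneg _)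
    rw [h7, Real.log_zero] at hsH
    nlinarith
  have hL : C ≤ Real.log H := by nlinarith
  have hlk := log_two_add s
  have hW : 0 < (C * (Real.log H / Real.log (s + 2))) ^ s := by
    have : 0 < Real.log H := by linarith
    positivity
  have hy2 : 2 ≤ y := by
    by_contra hcon
    have h6 := lt_of_lt_of_le hW hyL
    have h7 : y = 0 ∨ y = 1 := by omega
    rcases h7 with h7 | h7
    · rw [h7] at h6
      norm_num at h6
    · rw [h7] at h6
      norm_num at h6
  have h1 := hbox s hs (gc s c) (ec s e) H y hsH (fun i => PE_gc hc he i) (fun i => ⟨hyH, ?_, ?_⟩) ?_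
  · simp only [gg_gc hc, mul_one, prod_inv_distrib, prod_const, card_univ, Fintype.card_fin, good_gc] at h1
    rw [card_filter_SysL (s := s) c e H (fun A => (y / Real.log y) * ((C * (Real.log H / Real.log (s + 2))) ^ s)⁻¹ ≤
      (((Icc 1 y).filter (fun n => n.Prime ∧ ∀ a ∈ A, (vs c e a n).toNat.Prime)).card : ℝ)), card_SysL] at h1
    have h2 : (0 : ℝ) < s.factorial := by exact_mod_cast Nat.factorial_pos s
    push_cast at h1
    have h3 : (s.factorial : ℝ) * ((C ^ s)⁻¹ * ((setS c e s H).card : ℝ)) ≤ s.factorial *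
        (((setS c e s H).filter (fun A => (y / Real.log y) * ((C * (Real.log H / Real.log (s + 2))) ^ s)⁻¹ ≤
      (((Icc 1 y).filter (fun n => n.Prime ∧ ∀ a ∈ A, (vs c e a n).toNat.Prime)).card : ℝ))).card : ℝ) := by
      calc (s.factorial : ℝ) * ((C ^ s)⁻¹ * ((setS c e s H).card : ℝ)) = (C ^ s)⁻¹ * (s.factorial * ((setS c e s H).card : ℝ)) := by ring
        _ ≤ _ := h1
    exact le_of_mul_le_mul_left h3 h2
  · have h2 : ∑ j ∈ range (e + 1), |(((gc s c i).coeff j : ℤ) : ℝ)| * (y : ℝ) ^ (j - ec s e i) = 1 := by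
      rw [sum_eq_single 0]
      · unfold gc ec
        rw [Polynomial.coeff_C_zero, hc1, Nat.zero_sub, pow_zero, one_mul]
      · intro j _ hj
        unfold gc
        rw [Polynomial.coeff_C_of_ne_zero hj]
        simp
      · intro h0
        exact absurd (mem_range.2 (Nat.succ_pos e)) h0
    rw [h2, mul_one]
    have h3 := Real.log_le_sub_one_of_pos hHpos
    linarith
  · unfold gc
    rw [Polynomial.coeff_C_zero, hc2]
    omega
  · simp only [gg_gc hc, mul_one, prod_const, card_univ, Fintype.card_fin]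
    exact hyL

open Classical in
/-- **Upper bound for sets.** -/
theorem upS (c : ℤ) (hc : c = 1 ∨ c = -1) (e : ℕ) (he : 1 ≤ e) : ∃ C : ℝ, 1 ≤ C ∧ ∀ s H : ℕ, 1 ≤ s →
    C * s ≤ Real.log H → ∀ Om : Finset ℕ, ∀ t : ℝ, 0 < t →
    (((powersetCard s (Icc 1 H)).filter (fun A => t ≤ (NS c e A Om : ℝ))).card : ℝ) ≤
      ((Om.filter Nat.Prime).card : ℝ) / t * (C * (Real.log (s + 2) / Real.log H)) ^ s * ((setS c e s H).card : ℝ) := by
  obtain ⟨C, hC1, hup⟩ := upL e
  have hc2 : c.natAbs = 1 := by rcases hc with h | h <;> rw [h] <;> rfl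
  refine ⟨C, hC1, fun s H hs hsH Om t ht => ?_⟩
  have hsr : (1 : ℝ) ≤ s := by exact_mod_cast hs
  have hHpos : (0 : ℝ) < H := by
    by_contra hcon
    push Not at hcon
    have h7 : (H : ℝ) = 0 := le_antisymm hcon (Nat.cast_nonneg _)
    rw [h7, Real.log_zero] at hsH
    nlinarith
  have hH1 : 1 ≤ H := by
    have : 0 < H := by exact_mod_cast hHpos
    omega
  have h1 := hup s hs (gc s c) (ec s e) H hsH (fun i => PE_gc hc he i)
    (fun i => by rw [cz_gc hc]; exact Nat.one_le_pow _ _ hH1) (Om.filter Nat.Prime)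
    (fun n hn => ⟨(mem_filter.1 hn).2, fun i => by
      unfold gc
      rw [Polynomial.coeff_C_zero, hc2]
      exact (mem_filter.1 hn).2.one_lt⟩) t ht
  simp only [gg_gc hc, mul_one, prod_const, card_univ, Fintype.card_fin, good_gc, filter_filter] at h1
  have h3 : s.factorial * ((powersetCard s (Icc 1 H)).filter (fun A => t ≤ (NS c e A Om : ℝ))).card ≤
      ((Fintype.piFinset (fun _ : Fin s => Icc 1 H)).filter (fun b => t ≤
        (((Om.filter (fun n => n.Prime ∧ ∀ a ∈ univ.image b, (vs c e a n).toNat.Prime)).card : ℕ) : ℝ))).card := by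
    rw [← card_inj_vec s (Icc 1 H) (fun A => t ≤ (NS c e A Om : ℝ))]
    refine card_le_card fun b hb => ?_
    rw [mem_filter] at hb ⊢
    refine ⟨hb.1, hb.2.2.trans (le_of_eq ?_)⟩
    unfold NS
    congr!
  have h4 : (s.factorial : ℝ) * (((powersetCard s (Icc 1 H)).filter (fun A => t ≤ (NS c e A Om : ℝ))).card : ℝ) ≤
      (((Fintype.piFinset (fun _ : Fin s => Icc 1 H)).filter (fun b => t ≤
        (((Om.filter (fun n => n.Prime ∧ ∀ a ∈ univ.image b, (vs c e a n).toNat.Prime)).card : ℕ) : ℝ))).card : ℝ) := by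
    exact_mod_cast h3
  have h5 : (s.factorial : ℝ) * (((powersetCard s (Icc 1 H)).filter (fun A => t ≤ (NS c e A Om : ℝ))).card : ℝ) ≤
      ((Om.filter Nat.Prime).card : ℝ) / t * (C * (Real.log (s + 2) / Real.log H)) ^ s *
        ((SysL (gc s c) (ec s e) H).card : ℝ) := by
    refine h4.trans (le_trans (le_of_eq ?_) h1)
    congr!
  rw [card_SysL] at h5
  have h2 : (0 : ℝ) < s.factorial := by exact_mod_cast Nat.factorial_pos s
  push_cast at h5
  refine le_of_mul_le_mul_left (h5.trans (le_of_eq ?_)) h2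
  ring

end Pool.Agent.Q160.GQ
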