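import Mathlib
import Pool.Agent.Q160.GQ12

set_option autoImplicit false

/-!
# The threshold for the number of forms `a n ^ e + c`
-/

namespace Pool.Agent.Q160.GQ

open Finset Filter
open Pool.Agent.Q160.GK

lemma tL : Tendsto (fun x : ℕ => Real.log (x : ℝ)) atTop atTop :=
  Real.tendsto_log_atTop.comp tendsto_natCast_atTop_atTop

lemma tLL : Tendsto (fun x : ℕ => Real.log (Real.log (x : ℝ))) atTop atTop :=
  Real.tendsto_log_atTop.comp tL

lemma pow_log_le (K : ℕ) (A δ : ℝ) (hδ : 0 < δ) : ∀ᶠ x : ℕ in atTop, (A * Real.log x) ^ K ≤ (x : ℝ) ^ δ := by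
  have h1 : (fun x : ℝ => Real.log x ^ (K : ℝ)) =o[atTop] (fun x : ℝ => x ^ δ) := isLittleO_log_rpow_rpow_atTop K hδ
  have h2 := h1.bound (show (0 : ℝ) < 1 / (|A| ^ K + 1) by positivity)
  filter_upwards [tendsto_natCast_atTop_atTop.eventually h2, tL.eventually_ge_atTop 1, eventually_ge_atTop 1] with x h3 h4 h5
  have hxr : (1 : ℝ) ≤ x := by exact_mod_cast h5
  have hl0 : 0 ≤ Real.log (x : ℝ) := by linarith
  have hb1 : 0 ≤ Real.log (x : ℝ) ^ K := pow_nonneg hl0 K
  have hb2 : (0 : ℝ) ≤ (x : ℝ) ^ δ := by positivity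
  rw [Real.rpow_natCast, Real.norm_eq_abs, Real.norm_eq_abs, abs_of_nonneg hb1, abs_of_nonneg hb2,
    one_div, inv_mul_eq_div, le_div_iff₀ (by positivity)] at h3
  have h6 : (A * Real.log x) ^ K ≤ |A| ^ K * Real.log x ^ K := by
    rw [← mul_pow]
    refine le_trans (le_abs_self _) ?_
    rw [abs_pow, abs_mul, abs_of_nonneg (by linarith : 0 ≤ Real.log (x : ℝ))]
  have h7 : 0 ≤ Real.log (x : ℝ) ^ K := by positivity
  nlinarith

open Classical in
theorem thr_low (c : ℤ) (hc : c = 1 ∨ c = -1) (e : ℕ) (he : 1 ≤ e) : ∃ C : ℝ, 1 ≤ C ∧ ∀ θ Λ ε : ℝ,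
    (Q239.LC.pw e : ℝ) < θ → 1 ≤ Λ → 0 < ε → ε < 1 → ∀ᶠ x : ℕ in atTop, ∀ s H : ℕ, (x : ℝ) ^ θ ≤ H → (H : ℝ) ≤ (x : ℝ) ^ Λ → 1 ≤ s →
    (s : ℝ) ≤ (1 - ε) * (Real.log x / Real.log (Real.log x)) →
    (C ^ s)⁻¹ * ((setS c e s H).card : ℝ) ≤
      (((setS c e s H).filter (fun A => (Real.log (s + 2) / (C * Λ)) ^ s * (x / Real.log x ^ (s + 1)) ≤
        (NS c e A (Icc 1 x) : ℝ))).card : ℝ) := by
  obtain ⟨K, C, hC1, hlow⟩ := lowS c hc e he
  refine ⟨C, hC1, fun θ Λ ε hθ hΛ hε hε1 => ?_⟩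
  have hp : (1 : ℝ) ≤ Q239.LC.pw e := by exact_mod_cast Q239.LC.pw_pos e
  have hCpos : 0 < C := by linarith
  filter_upwards [tL.eventually_ge_atTop 2, tLL.eventually_ge_atTop (max (max 1 C) (2 * Real.log (C * Λ) / ε)),
    pow_log_le K Λ (θ - Q239.LC.pw e) (by linarith), pow_log_le 1 1 (ε / 2) (by linarith),
    eventually_ge_atTop 3] with x hL2 hLL hx1 hx2 hx3
  intro s H hH1 hH2 hs hsx
  have hxr : (3 : ℝ) ≤ x := by exact_mod_cast hx3
  have hxpos : (0 : ℝ) < x := by linarith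
  obtain ⟨L, hLd⟩ : ∃ L, L = Real.log (x : ℝ) := ⟨_, rfl⟩
  rw [← hLd] at hL2 hLL hx1 hx2 hsx ⊢
  have hLpos : 0 < L := by linarith
  have hLL1 : 1 ≤ Real.log L := le_trans (le_trans (le_max_left _ _) (le_max_left _ _)) hLL
  have hLLC : C ≤ Real.log L := le_trans (le_trans (le_max_right _ _) (le_max_left _ _)) hLL
  have hLLe : 2 * Real.log (C * Λ) / ε ≤ Real.log L := le_trans (le_max_right _ _) hLL
  have hLLpos : 0 < Real.log L := by linarith
  have hsr : (1 : ℝ) ≤ s := by exact_mod_cast hs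
  have hlk : 1 ≤ Real.log ((s : ℝ) + 2) := by
    rw [Real.le_log_iff_exp_le (by linarith)]
    have := Real.exp_one_lt_d9
    linarith
  have hHpos : (0 : ℝ) < H := lt_of_lt_of_le (by positivity) hH1
  have hlogH1 : L ≤ Real.log H := by
    have h1 := Real.log_le_log (by positivity) hH1
    rw [Real.log_rpow hxpos, ← hLd] at h1
    nlinarith
  have hlogH2 : Real.log H ≤ Λ * L := by
    have h1 := Real.log_le_log hHpos hH2
    rwa [Real.log_rpow hxpos, ← hLd] at h1
  have hlogHpos : 0 < Real.log H := by linarith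
  have hsLL : (s : ℝ) * Real.log L ≤ (1 - ε) * L := by
    calc (s : ℝ) * Real.log L ≤ (1 - ε) * (L / Real.log L) * Real.log L := mul_le_mul_of_nonneg_right hsx hLLpos.le
      _ = (1 - ε) * L := by field_simp
  have hCs : C * s ≤ Real.log H := by
    have : (s : ℝ) * C ≤ s * Real.log L := mul_le_mul_of_nonneg_left hLLC (by linarith)
    nlinarith
  have hxH : (x : ℝ) ^ Q239.LC.pw e * Real.log H ^ K ≤ H := by
    have h1 : Real.log H ^ K ≤ (Λ * L) ^ K := pow_le_pow_left₀ hlogHpos.le hlogH2 K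
    calc (x : ℝ) ^ Q239.LC.pw e * Real.log H ^ K ≤ (x : ℝ) ^ Q239.LC.pw e * (x : ℝ) ^ (θ - Q239.LC.pw e) :=
          mul_le_mul_of_nonneg_left (h1.trans hx1) (by positivity)
      _ = (x : ℝ) ^ θ := by
          rw [← Real.rpow_natCast, ← Real.rpow_add hxpos]
          congr 1
          ring
      _ ≤ H := hH1
  have hWle : C * (Real.log H / Real.log (s + 2)) ≤ C * Λ * L / Real.log (s + 2) := by
    rw [← mul_div_assoc]
    exact div_le_div_of_nonneg_right (by nlinarith) (by linarith)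
  have hW0 : 0 < C * (Real.log H / Real.log (s + 2)) := by positivity
  have hWx : (C * (Real.log H / Real.log (s + 2))) ^ s ≤ x / Real.log x := by
    rw [← hLd]
    have h1 : (C * (Real.log H / Real.log (s + 2))) ^ s ≤ (C * Λ * L) ^ s := by
      refine pow_le_pow_left₀ hW0.le (hWle.trans ?_) s
      exact div_le_self (by positivity) hlk
    have h2 : (C * Λ * L) ^ s = Real.exp (s * (Real.log (C * Λ) + Real.log L)) := by
      rw [← Real.log_mul (by positivity) hLpos.ne', Real.exp_nat_mul, Real.exp_log (by positivity)]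
    have h3 : (s : ℝ) * Real.log (C * Λ) ≤ ε / 2 * L := by
      have h4 : Real.log (C * Λ) ≤ ε / 2 * Real.log L := by
        rw [div_le_iff₀ hε] at hLLe
        linarith
      have h5 : (s : ℝ) * Real.log L ≤ L := by nlinarith
      calc (s : ℝ) * Real.log (C * Λ) ≤ s * (ε / 2 * Real.log L) := mul_le_mul_of_nonneg_left h4 (by linarith)
        _ = ε / 2 * (s * Real.log L) := by ring
        _ ≤ ε / 2 * L := mul_le_mul_of_nonneg_left h5 (by linarith)
    have h4 : (C * Λ * L) ^ s ≤ (x : ℝ) ^ (1 - ε / 2) := by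
      rw [h2, Real.rpow_def_of_pos hxpos, ← hLd]
      refine Real.exp_le_exp.2 ?_
      nlinarith
    have h5 : L ≤ (x : ℝ) ^ (ε / 2) := by
      have := hx2
      rwa [one_mul, pow_one] at this
    rw [le_div_iff₀ hLpos]
    calc (C * (Real.log H / Real.log (s + 2))) ^ s * L ≤ (x : ℝ) ^ (1 - ε / 2) * (x : ℝ) ^ (ε / 2) :=
          mul_le_mul (h1.trans h4) h5 hLpos.le (by positivity)
      _ = x := by
          rw [← Real.rpow_add hxpos]
          have : 1 - ε / 2 + ε / 2 = 1 := by ring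
          rw [this, Real.rpow_one]
  refine (hlow s H x hs hCs hxH hWx).trans ?_
  have hsub : (setS c e s H).filter (fun A =>
        (x / Real.log x) * ((C * (Real.log H / Real.log (s + 2))) ^ s)⁻¹ ≤ (NS c e A (Icc 1 x) : ℝ)) ⊆
      (setS c e s H).filter (fun A => (Real.log (s + 2) / (C * Λ)) ^ s * (x / L ^ (s + 1)) ≤
        (NS c e A (Icc 1 x) : ℝ)) := by
    intro A hA
    rw [mem_filter] at hA ⊢
    refine ⟨hA.1, le_trans ?_ hA.2⟩
    rw [← hLd]
    have h1 : (Real.log (s + 2) / (C * Λ)) ^ s * (x / L ^ (s + 1)) = (x / L) * ((C * Λ * L / Real.log (s + 2)) ^ s)⁻¹ := by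
      rw [pow_succ, ← inv_pow, inv_div, div_pow, div_pow, mul_pow (C * Λ)]
      field_simp
    rw [h1]
    refine mul_le_mul_of_nonneg_left ?_ (by positivity)
    exact inv_anti₀ (by positivity) (pow_le_pow_left₀ hW0.le hWle s)
  exact_mod_cast card_le_card hsub

open Classical in
theorem thr_up (c : ℤ) (hc : c = 1 ∨ c = -1) (e : ℕ) (he : 1 ≤ e) : ∃ C : ℝ, 1 ≤ C ∧ ∀ Λ ε M : ℝ,
    1 ≤ Λ → 0 < ε → 0 < M → ∀ᶠ x : ℕ in atTop, ∀ s H : ℕ, x ≤ H → (H : ℝ) ≤ (x : ℝ) ^ Λ →
    (1 + ε) * (Real.log x / Real.log (Real.log x)) ≤ s → C * s ≤ Real.log H →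
    M ^ s * (((powersetCard s (Icc 1 H)).filter (fun A => 0 < NS c e A (Icc 1 x))).card : ℝ) ≤ ((setS c e s H).card : ℝ) := by
  obtain ⟨C, hC1, hup⟩ := upS c hc e he
  refine ⟨C, hC1, fun Λ ε M hΛ hε hM => ?_⟩
  have hCpos : 0 < C := by linarith
  obtain ⟨B, hB⟩ : ∃ B : ℝ, B = 2 * M * C := ⟨_, rfl⟩
  have hBpos : 0 < B := by rw [hB]; positivity
  have hlogs : ∀ᶠ t : ℝ in atTop, (1 + ε) * Real.log (B * t) ≤ ε * t := by
    have h1 := Real.isLittleO_log_id_atTop.bound (show (0 : ℝ) < ε / (2 * (1 + ε)) by positivity)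
    filter_upwards [h1, eventually_ge_atTop 1, eventually_ge_atTop (2 * (1 + ε) * Real.log B / ε)] with t h2 h3 h4
    have htpos : 0 < t := by linarith
    rw [Real.norm_eq_abs, Real.norm_eq_abs, id, abs_of_nonneg (Real.log_nonneg h3), abs_of_nonneg htpos.le] at h2
    rw [Real.log_mul hBpos.ne' htpos.ne']
    rw [div_le_iff₀ hε] at h4
    have h5 : (1 + ε) * Real.log t ≤ ε / 2 * t := by
      calc (1 + ε) * Real.log t ≤ (1 + ε) * (ε / (2 * (1 + ε)) * t) := mul_le_mul_of_nonneg_left h2 (by linarith)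
        _ = ε / 2 * t := by field_simp
    linarith
  filter_upwards [tL.eventually_ge_atTop (Λ + 2), tLL.eventually_ge_atTop 1, tLL.eventually hlogs,
    eventually_ge_atTop 3] with x hL2 hLL hlg hx3
  intro s H hxH hHx hsx hsH
  have hxr : (3 : ℝ) ≤ x := by exact_mod_cast hx3
  have hxpos : (0 : ℝ) < x := by linarith
  obtain ⟨L, hLd⟩ : ∃ L, L = Real.log (x : ℝ) := ⟨_, rfl⟩
  rw [← hLd] at hL2 hLL hlg hsx
  have hLpos : 0 < L := by linarith
  have hLLpos : 0 < Real.log L := by linarith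
  have hs : 1 ≤ s := by
    have h1 : (0 : ℝ) < s := lt_of_lt_of_le (by positivity) hsx
    have h2 : 0 < s := by exact_mod_cast h1
    exact h2
  have hsr : (1 : ℝ) ≤ s := by exact_mod_cast hs
  have hxHr : (x : ℝ) ≤ H := by exact_mod_cast hxH
  have hHpos : (0 : ℝ) < H := by linarith
  have hlogH1 : L ≤ Real.log H := by
    rw [hLd]
    exact Real.log_le_log hxpos hxHr
  have hlogH2 : Real.log H ≤ Λ * L := by
    have h1 := Real.log_le_log hHpos hHx
    rwa [Real.log_rpow hxpos, ← hLd] at h1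
  have hlogH : 0 < Real.log H := by linarith
  have hlk0 : 0 < Real.log ((s : ℝ) + 2) := log_two_add s
  have hlk : Real.log ((s : ℝ) + 2) ≤ 2 * Real.log L := by
    rw [← Real.log_rpow hLpos, Real.rpow_two]
    refine Real.log_le_log (by positivity) ?_
    have : (s : ℝ) ≤ Λ * L := by nlinarith
    nlinarith
  have hbase : M * (C * (Real.log (s + 2) / Real.log H)) ≤ B * Real.log L / L := by
    have h1 : Real.log (s + 2) / Real.log H ≤ (2 * Real.log L) / L :=
      div_le_div₀ (by positivity) hlk (by positivity) hlogH1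
    calc M * (C * (Real.log (s + 2) / Real.log H)) ≤ M * (C * ((2 * Real.log L) / L)) := by
          refine mul_le_mul_of_nonneg_left (mul_le_mul_of_nonneg_left h1 hCpos.le) hM.le
      _ = B * Real.log L / L := by
          rw [hB]
          ring
  have hpow : (B * Real.log L / L) ^ s * x ≤ 1 := by
    have h1 : (B * Real.log L / L) ^ s = Real.exp (s * (Real.log (B * Real.log L) - Real.log L)) := by
      rw [← Real.log_div (by positivity) hLpos.ne', Real.exp_nat_mul, Real.exp_log (by positivity)]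
    have h2 : (x : ℝ) = Real.exp L := by rw [hLd, Real.exp_log (by linarith)]
    rw [h1, h2, ← Real.exp_add]
    refine Real.exp_le_one_iff.2 ?_
    have h3 : Real.log (B * Real.log L) - Real.log L ≤ -(1 / (1 + ε) * Real.log L) := by
      have h4 : Real.log (B * Real.log L) ≤ ε / (1 + ε) * Real.log L := by
        rw [div_mul_eq_mul_div, le_div_iff₀ (by linarith)]
        linarith
      have h5 : ε / (1 + ε) * Real.log L - Real.log L = -(1 / (1 + ε) * Real.log L) := by
        field_simp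
        ring
      linarith
    have h4 : (s : ℝ) * (Real.log (B * Real.log L) - Real.log L) ≤ s * (-(1 / (1 + ε) * Real.log L)) :=
      mul_le_mul_of_nonneg_left h3 (by positivity)
    have h5 : L ≤ s * (1 / (1 + ε) * Real.log L) := by
      calc L = (1 + ε) * (L / Real.log L) * (1 / (1 + ε) * Real.log L) := by field_simp
        _ ≤ s * (1 / (1 + ε) * Real.log L) := mul_le_mul_of_nonneg_right hsx (by positivity)
    linarith
  have hres := hup s H hs hsH (Icc 1 x) 1 one_pos
  have hpi : (((Icc 1 x).filter Nat.Prime).card : ℝ) ≤ x := by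
    have h1 := card_filter_le (Icc 1 x) Nat.Prime
    rw [Nat.card_Icc] at h1
    have h2 : ((Icc 1 x).filter Nat.Prime).card ≤ x := by omega
    exact_mod_cast h2
  have hcnt : (((powersetCard s (Icc 1 H)).filter (fun A => 0 < NS c e A (Icc 1 x))).card : ℝ) ≤
      x * (C * (Real.log (s + 2) / Real.log H)) ^ s * ((setS c e s H).card : ℝ) := by
    have h1 : (powersetCard s (Icc 1 H)).filter (fun A => 0 < NS c e A (Icc 1 x)) ⊆
        (powersetCard s (Icc 1 H)).filter (fun A => (1 : ℝ) ≤ (NS c e A (Icc 1 x) : ℝ)) := by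
      intro A hA
      rw [mem_filter] at hA ⊢
      refine ⟨hA.1, ?_⟩
      have : 1 ≤ NS c e A (Icc 1 x) := hA.2
      exact_mod_cast this
    have h2 : (((powersetCard s (Icc 1 H)).filter (fun A => 0 < NS c e A (Icc 1 x))).card : ℝ) ≤
        (((powersetCard s (Icc 1 H)).filter (fun A => (1 : ℝ) ≤ (NS c e A (Icc 1 x) : ℝ))).card : ℝ) := by
      exact_mod_cast card_le_card h1
    refine h2.trans (hres.trans ?_)
    rw [div_one]
    refine mul_le_mul_of_nonneg_right (mul_le_mul_of_nonneg_right hpi (by positivity)) (Nat.cast_nonneg _)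
  calc M ^ s * (((powersetCard s (Icc 1 H)).filter (fun A => 0 < NS c e A (Icc 1 x))).card : ℝ)
      ≤ M ^ s * (x * (C * (Real.log (s + 2) / Real.log H)) ^ s * ((setS c e s H).card : ℝ)) :=
        mul_le_mul_of_nonneg_left hcnt (by positivity)
    _ = ((M * (C * (Real.log (s + 2) / Real.log H))) ^ s * x) * ((setS c e s H).card : ℝ) := by
        rw [mul_pow]
        ring
    _ ≤ 1 * ((setS c e s H).card : ℝ) := by
        refine mul_le_mul_of_nonneg_right (le_trans ?_ hpow) (by positivity)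
        refine mul_le_mul_of_nonneg_right (pow_le_pow_left₀ (by positivity) hbase s) (by positivity)
    _ = ((setS c e s H).card : ℝ) := one_mul _

end Pool.Agent.Q160.GQ
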