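import Pool.Agent.Q160.Euler

/-!
# Lifting Eulerian systems of words by the difference map
-/

namespace Q160.GdB

open Equiv Relation Q160.Euler

variable {m j : ℕ}

/-- the word with first letter `x` and differences `u` -/
def integ (u : Fin j → ZMod m) (x : ZMod m) : Fin (j + 1) → ZMod m :=
  fun i => x + Fin.partialSum u i

lemma integ_zero (u : Fin j → ZMod m) (x : ZMod m) : integ u x 0 = x := by
  unfold integ; rw [Fin.partialSum_zero, add_zero]

lemma integ_succ (u : Fin j → ZMod m) (x : ZMod m) (i : Fin j) :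
    integ u x i.succ = integ u x i.castSucc + u i := by
  unfold integ; rw [Fin.partialSum_succ, add_assoc]

lemma ext_diff {v v' : Fin (j + 1) → ZMod m} (h0 : v 0 = v' 0)
    (h : ∀ i : Fin j, v i.succ - v i.castSucc = v' i.succ - v' i.castSucc) : v = v' := by
  funext i
  induction i using Fin.induction with
  | zero => exact h0
  | succ i ih =>
    have := h i
    rw [ih] at this
    exact sub_left_injective this

lemma integ_init (e : Fin (j + 1) → ZMod m) (x : ZMod m) :
    Fin.init (integ e x) = integ (Fin.init e) x := by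
  apply ext_diff
  · show integ e x (Fin.castSucc 0) = _
    rw [Fin.castSucc_zero, integ_zero, integ_zero]
  · intro i
    have h1 : Fin.init (integ e x) i.succ = integ e x i.castSucc.succ := by
      unfold Fin.init; rw [Fin.succ_castSucc]
    have h2 : Fin.init (integ e x) i.castSucc = integ e x i.castSucc.castSucc := rfl
    rw [h1, h2, integ_succ, integ_succ]
    show _ = _ + Fin.init e i - _
    unfold Fin.init
    ring

lemma integ_tail (e : Fin (j + 1) → ZMod m) (x : ZMod m) :
    Fin.tail (integ e x) = integ (Fin.tail e) (x + e 0) := by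
  apply ext_diff
  · show integ e x (Fin.succ 0) = _
    rw [integ_succ, integ_zero, Fin.castSucc_zero, integ_zero]
  · intro i
    have h1 : Fin.tail (integ e x) i.succ = integ e x i.succ.succ := rfl
    have h2 : Fin.tail (integ e x) i.castSucc = integ e x i.succ.castSucc := by
      unfold Fin.tail; rw [Fin.succ_castSucc]
    rw [h1, h2, integ_succ, integ_succ]
    show _ = _ + Fin.tail e i - _
    unfold Fin.tail
    ring

lemma integ_inj {u u' : Fin j → ZMod m} {x x' : ZMod m} (h : integ u x = integ u' x') :
    u = u' ∧ x = x' := by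
  constructor
  · funext i
    have h1 := congrFun h i.succ
    rw [integ_succ, integ_succ, congrFun h i.castSucc] at h1
    exact add_left_cancel h1
  · have := congrFun h 0
    rwa [integ_zero, integ_zero] at this

lemma integ_add (u : Fin j → ZMod m) (x c : ZMod m) :
    integ u (x + c) = fun i => integ u x i + c := by
  funext i
  unfold integ
  ring

lemma integ_const (a : ZMod m) : integ (0 : Fin j → ZMod m) a = fun _ => a := by
  apply ext_diff
  · rw [integ_zero]
  · intro i
    rw [integ_succ]
    simp

/-! ### Connectivity with holonomy -/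

variable {E : Type} (word : E → Fin (j + 1) → ZMod m)

/-- states: vertex, sum, length -/
abbrev St (m j : ℕ) := (Fin j → ZMod m) × ZMod m × ZMod m

/-- a step: the sum grows by the first letter, the length by one -/
def stF : St m j → St m j → Prop := fun s t =>
  ∃ (e : E) (x y : ZMod m), s = (Fin.init (word e), x, y) ∧
    t = (Fin.tail (word e), x + word e 0, y + 1)

/-- full holonomy for (sum, length) -/
def FF : Prop := ∀ (e e' : E) (x y x' y' : ZMod m),
  EqvGen (stF word) (Fin.init (word e), x, y) (Fin.init (word e'), x', y')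

/-- step with the sum only -/
def stS : (Fin j → ZMod m) × ZMod m → (Fin j → ZMod m) × ZMod m → Prop := fun s t =>
  ∃ (e : E) (x : ZMod m), s = (Fin.init (word e), x) ∧ t = (Fin.tail (word e), x + word e 0)

/-- full holonomy for the sum -/
def SS : Prop := ∀ (e e' : E) (x x' : ZMod m),
  EqvGen (stS word) (Fin.init (word e), x) (Fin.init (word e'), x')

lemma eqvGen_map {α β : Type*} {r : α → α → Prop} {s : β → β → Prop} (f : α → β)
    (h : ∀ a b, r a b → EqvGen s (f a) (f b)) {a b : α} (hab : EqvGen r a b) :
    EqvGen s (f a) (f b) := by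
  induction hab with
  | rel a b hab => exact h a b hab
  | refl a => exact EqvGen.refl _
  | symm a b _ ih => exact EqvGen.symm _ _ ih
  | trans a b c _ _ ih1 ih2 => exact EqvGen.trans _ _ _ ih1 ih2

lemma FF.toSS {word : E → Fin (j + 1) → ZMod m} (h : FF word) : SS word := by
  intro e e' x x'
  have h1 := h e e' x 0 x' 0
  exact eqvGen_map (s := stS word) (fun s : St m j => ((s.1, s.2.1) : (Fin j → ZMod m) × ZMod m))
    (by
      rintro _ _ ⟨e, x, y, rfl, rfl⟩
      exact EqvGen.rel _ _ ⟨e, x, rfl, rfl⟩) h1

/-- the lifted words -/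
def lword : E × ZMod m → Fin (j + 2) → ZMod m := fun p => integ (word p.1) p.2

/-- the lift of a system with full sum holonomy is connected -/
lemma SS.lift_conn {word : E → Fin (j + 1) → ZMod m} (h : SS word) (p q : E × ZMod m) :
    EqvGen (adj (fun p => Fin.init (lword word p)) (fun p => Fin.tail (lword word p)))
      (Fin.init (lword word p)) (Fin.init (lword word q)) := by
  have h1 := h p.1 q.1 p.2 q.2
  have h2 := eqvGen_map (s := adj (fun p => Fin.init (lword word p))
      (fun p => Fin.tail (lword word p)))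
    (fun s : (Fin j → ZMod m) × ZMod m => integ s.1 s.2) (by
      rintro _ _ ⟨e, x, rfl, rfl⟩
      refine EqvGen.rel _ _ ⟨(e, x), ?_, ?_⟩
      · show integ (Fin.init (word e)) x = Fin.init (integ (word e) x)
        rw [integ_init]
      · show integ (Fin.tail (word e)) (x + word e 0) = Fin.tail (integ (word e) x)
        rw [integ_tail]) h1
  simp only at h2
  rw [← integ_init, ← integ_init] at h2
  exact h2

/-- lifting of paths -/
lemma lift_path {s t : St m j} (h : EqvGen (stF word) s t) :
    ∃ c : ZMod m, ∀ X : ZMod m, EqvGen (stF (lword word))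
      (integ s.1 s.2.1, X, s.2.2) (integ t.1 t.2.1, X + c, t.2.2) := by
  induction h with
  | rel s t h =>
    obtain ⟨e, x, y, rfl, rfl⟩ := h
    refine ⟨x, fun X => EqvGen.rel _ _ ⟨(e, x), X, y, ?_, ?_⟩⟩
    · show (integ (Fin.init (word e)) x, X, y) = (Fin.init (integ (word e) x), X, y)
      rw [integ_init]
    · show (integ (Fin.tail (word e)) (x + word e 0), X + x, y + 1)
        = (Fin.tail (integ (word e) x), X + integ (word e) x 0, y + 1)
      rw [integ_tail, integ_zero]
  | refl s => exact ⟨0, fun X => by rw [add_zero]; exact EqvGen.refl _⟩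
  | symm s t _ ih =>
    obtain ⟨c, hc⟩ := ih
    refine ⟨-c, fun X => ?_⟩
    have := EqvGen.symm _ _ (hc (X + -c))
    rwa [neg_add_cancel_right] at this
  | trans s t u _ _ ih1 ih2 =>
    obtain ⟨c, hc⟩ := ih1
    obtain ⟨d, hd⟩ := ih2
    refine ⟨c + d, fun X => ?_⟩
    have := EqvGen.trans _ _ _ (hc X) (hd (X + c))
    rwa [add_assoc] at this

lemma translate {v v' : Fin (j + 1) → ZMod m} {X Y X' Y' : ZMod m}
    (h : EqvGen (stF (lword word)) (v, X, Y) (v', X', Y')) :
    EqvGen (stF (lword word)) ((fun i => v i + 1), X + Y, Y) ((fun i => v' i + 1), X' + Y', Y') := by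
  exact eqvGen_map (s := stF (lword word))
    (fun s : St m (j + 1) => (((fun i => s.1 i + 1), s.2.1 + s.2.2, s.2.2) : St m (j + 1)))
    (by
      rintro _ _ ⟨⟨e, x⟩, X, Y, rfl, rfl⟩
      refine EqvGen.rel _ _ ⟨(e, x + 1), X + Y, Y, ?_, ?_⟩
      · show ((fun i => Fin.init (integ (word e) x) i + 1), X + Y, Y)
          = (Fin.init (integ (word e) (x + 1)), X + Y, Y)
        rw [integ_add]
        rfl
      · show ((fun i => Fin.tail (integ (word e) x) i + 1), X + integ (word e) x 0 + (Y + 1), Y + 1)
          = (Fin.tail (integ (word e) (x + 1)), X + Y + integ (word e) (x + 1) 0, Y + 1)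
        rw [integ_add]
        have : X + integ (word e) x 0 + (Y + 1) = X + Y + (integ (word e) x 0 + 1) := by ring
        rw [this]
        rfl) h

lemma shiftY {v v' : Fin (j + 1) → ZMod m} {X Y X' Y' : ZMod m}
    (h : EqvGen (stF (lword word)) (v, X, Y) (v', X', Y')) :
    EqvGen (stF (lword word)) (v, X, Y + 1) (v', X', Y' + 1) := by
  exact eqvGen_map (s := stF (lword word))
    (fun s : St m (j + 1) => ((s.1, s.2.1, s.2.2 + 1) : St m (j + 1)))
    (by
      rintro _ _ ⟨p, X, Y, rfl, rfl⟩
      exact EqvGen.rel _ _ ⟨p, X, Y + 1, rfl, rfl⟩) h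

/-- **Full holonomy lifts.** -/
theorem FF.lift [NeZero m] {word : E → Fin (j + 1) → ZMod m} (h : FF word) : FF (lword word) := by
  -- the unit step in the sum
  have unit : ∀ (e : E) (x X Y : ZMod m), EqvGen (stF (lword word))
      (integ (Fin.init (word e)) x, X, Y) (integ (Fin.init (word e)) x, X + 1, Y) := by
    intro e x' X' Y'
    obtain ⟨x, rfl⟩ : ∃ x, x' = x + 1 := ⟨x' - 1, by ring⟩
    obtain ⟨Y, rfl⟩ : ∃ Y, Y' = Y + 1 := ⟨Y' - 1, by ring⟩
    obtain ⟨c, hc⟩ := lift_path word (h e e x Y x (Y + 1))
    obtain ⟨d, hd⟩ := lift_path word (h e e x Y (x + 1) Y)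
    simp only at hc hd
    have hc' : ∀ X, EqvGen (stF (lword word)) (integ (Fin.init (word e)) (x + 1), X, Y)
        (integ (Fin.init (word e)) (x + 1), X + c + 1, Y + 1) := by
      intro X
      have h1 := translate word (hc (X - Y))
      rw [← integ_add] at h1
      have e1 : X - Y + Y = X := by ring
      have e2 : X - Y + c + (Y + 1) = X + c + 1 := by ring
      rw [e1, e2] at h1
      exact h1
    -- X' = X + c + d
    obtain ⟨X, rfl⟩ : ∃ X, X' = X + c + d := ⟨X' - c - d, by ring⟩
    have p1 := EqvGen.symm _ _ (shiftY word (hd (X + c)))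
    have p2 := EqvGen.symm _ _ (hc X)
    have p3 := hd X
    have p4 := hc' (X + d)
    have e3 : X + d + c + 1 = X + c + d + 1 := by ring
    rw [e3] at p4
    exact EqvGen.trans _ _ _ p1 (EqvGen.trans _ _ _ p2 (EqvGen.trans _ _ _ p3 p4))
  have many : ∀ (e : E) (x X Y : ZMod m) (k : ℕ), EqvGen (stF (lword word))
      (integ (Fin.init (word e)) x, X, Y) (integ (Fin.init (word e)) x, X + k, Y) := by
    intro e x X Y k
    induction k with
    | zero => rw [Nat.cast_zero, add_zero]; exact EqvGen.refl _
    | succ k ih =>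
      have h1 := unit e x (X + k) Y
      rw [Nat.cast_succ, ← add_assoc]
      exact EqvGen.trans _ _ _ ih h1
  rintro ⟨e, x⟩ ⟨e', x'⟩ X Y X' Y'
  show EqvGen _ (Fin.init (integ (word e) x), X, Y) (Fin.init (integ (word e') x'), X', Y')
  rw [integ_init, integ_init]
  obtain ⟨c, hc⟩ := lift_path word (h e e' x Y x' Y')
  have h1 := hc X
  simp only at h1
  have h2 := many e' x' (X + c) Y' (X' - (X + c)).val
  rw [ZMod.natCast_zmod_val] at h2
  have e1 : X + c + (X' - (X + c)) = X' := by ring
  rw [e1] at h2
  exact EqvGen.trans _ _ _ h1 h2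

/-- enlarging a system without new vertices -/
lemma FF.enlarge {E' : Type} {word : E → Fin (j + 1) → ZMod m} (h : FF word)
    (word' : E' → Fin (j + 1) → ZMod m) (f : E → E') (hf : ∀ e, word' (f e) = word e)
    (hv : ∀ e' : E', ∃ e : E, Fin.init (word' e') = Fin.init (word e)) : FF word' := by
  intro e1 e2 x y x' y'
  obtain ⟨a1, h1⟩ := hv e1
  obtain ⟨a2, h2⟩ := hv e2
  rw [h1, h2]
  exact eqvGen_map (s := stF word') (fun s => s) (by
    rintro _ _ ⟨e, x, y, rfl, rfl⟩
    exact EqvGen.rel _ _ ⟨f e, x, y, by rw [hf], by rw [hf]⟩) (h a1 a2 x y x' y')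

end Q160.GdB
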