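import Pool.Agent.Q160.GdB

/-!
# Good systems of words of every size
-/

namespace Q160.GdB

open Equiv Relation Q160.Euler

variable {m j : ℕ}

/-- A good system of `t` words of length `j + 1` over `ZMod m`. -/
def GoodAt (m j t : ℕ) : Prop :=
  ∃ (E : Type) (_ : Fintype E) (word : E → Fin (j + 1) → ZMod m) (σ : Perm E),
    Function.Injective word ∧ (∀ e, Fin.init (word (σ e)) = Fin.tail (word e)) ∧ FF word ∧
    Fintype.card E = t ∧ (∃ e, Fin.init (word e) = 0) ∧ (∀ e, word e ≠ 0)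

/-- permutation on the lift -/
def liftPerm {E : Type} (word : E → Fin (j + 1) → ZMod m) (σ : Perm E) : Perm (E × ZMod m) :=
  Equiv.prodShear σ (fun e => Equiv.addRight (word e 0))

lemma liftPerm_apply {E : Type} (word : E → Fin (j + 1) → ZMod m) (σ : Perm E) (p : E × ZMod m) :
    liftPerm word σ p = (σ p.1, p.2 + word p.1 0) := rfl

lemma lword_init {E : Type} (word : E → Fin (j + 1) → ZMod m) (σ : Perm E)
    (hσ : ∀ e, Fin.init (word (σ e)) = Fin.tail (word e)) (p : E × ZMod m) :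
    Fin.init (lword word (liftPerm word σ p)) = Fin.tail (lword word p) := by
  rw [liftPerm_apply]
  unfold lword
  rw [integ_init, integ_tail, hσ]

lemma lword_inj {E : Type} {word : E → Fin (j + 1) → ZMod m} (h : Function.Injective word) :
    Function.Injective (lword word) := by
  rintro ⟨e, x⟩ ⟨e', x'⟩ hh
  obtain ⟨h1, h2⟩ := integ_inj hh
  exact Prod.ext (h h1) h2

theorem good_step [NeZero m] {t' r : ℕ} (h : GoodAt m j t') (hr : r < m) :
    GoodAt m (j + 1) (t' * m + r) := by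
  obtain ⟨E, hE, word, σ, hinj, hσ, hF, hcard, ⟨e0, he0⟩, hne⟩ := h
  obtain ⟨R, hR, hRc⟩ := Finset.exists_subset_card_eq
    (s := (Finset.univ : Finset (ZMod m)).erase 0) (n := r) (by
      rw [Finset.card_erase_of_mem (Finset.mem_univ _), Finset.card_univ, ZMod.card]
      omega)
  have hR0 : ∀ a : R, (a : ZMod m) ≠ 0 := fun a => Finset.ne_of_mem_erase (hR a.2)
  refine ⟨(E × ZMod m) ⊕ R, inferInstance, Sum.elim (lword word) (fun a _ => (a : ZMod m)),
    Equiv.sumCongr (liftPerm word σ) (Equiv.refl _), ?_, ?_, ?_, ?_, ?_, ?_⟩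
  · rintro (p | a) (q | b) hpq
    · simp only [Sum.elim_inl] at hpq
      rw [lword_inj hinj hpq]
    · exfalso
      simp only [Sum.elim_inl, Sum.elim_inr] at hpq
      unfold lword at hpq
      rw [← integ_const] at hpq
      exact hne p.1 (integ_inj hpq).1
    · exfalso
      simp only [Sum.elim_inl, Sum.elim_inr] at hpq
      unfold lword at hpq
      rw [← integ_const] at hpq
      exact hne q.1 (integ_inj hpq).1.symm
    · simp only [Sum.elim_inr] at hpq
      have := congrFun hpq 0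
      rw [Subtype.ext this]
  · rintro (p | a)
    · exact lword_init word σ hσ p
    · rfl
  · apply FF.enlarge (hF.lift) _ Sum.inl (fun p => rfl)
    rintro (p | a)
    · exact ⟨p, rfl⟩
    · refine ⟨(e0, a), ?_⟩
      show (fun _ => (a : ZMod m)) = Fin.init (integ (word e0) a)
      rw [integ_init, he0, integ_const]
  · rw [Fintype.card_sum, Fintype.card_prod, ZMod.card, hcard, Fintype.card_coe, hRc]
  · refine ⟨Sum.inl (e0, 0), ?_⟩
    show Fin.init (integ (word e0) 0) = 0
    rw [integ_init, he0, integ_const]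
    rfl
  · rintro (p | a) h0
    · have h1 : integ (word p.1) p.2 = integ 0 0 := by
        rw [integ_const]; exact h0
      exact hne p.1 (integ_inj h1).1
    · exact hR0 a (congrFun h0 0)

/-- criterion for full holonomy -/
lemma FF_of_base [NeZero m] {E : Type} {word : E → Fin (j + 1) → ZMod m} (v0 : Fin j → ZMod m)
    (hx : ∀ x y, EqvGen (stF word) (v0, x, y) (v0, x + 1, y))
    (hy : ∀ x y, EqvGen (stF word) (v0, x, y) (v0, x, y + 1))
    (hv : ∀ e, ∃ a b : ZMod m, ∀ x y, EqvGen (stF word) (Fin.init (word e), x, y)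
      (v0, x + a, y + b)) : FF word := by
  have h1 : ∀ (x y : ZMod m) (k : ℕ), EqvGen (stF word) (v0, x, y) (v0, x + k, y) := by
    intro x y k
    induction k with
    | zero => rw [Nat.cast_zero, add_zero]; exact EqvGen.refl _
    | succ k ih =>
      rw [Nat.cast_succ, ← add_assoc]
      exact EqvGen.trans _ _ _ ih (hx _ _)
  have h2 : ∀ (x y : ZMod m) (k : ℕ), EqvGen (stF word) (v0, x, y) (v0, x, y + k) := by
    intro x y k
    induction k with
    | zero => rw [Nat.cast_zero, add_zero]; exact EqvGen.refl _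
    | succ k ih =>
      rw [Nat.cast_succ, ← add_assoc]
      exact EqvGen.trans _ _ _ ih (hy _ _)
  have h3 : ∀ x y x' y' : ZMod m, EqvGen (stF word) (v0, x, y) (v0, x', y') := by
    intro x y x' y'
    have a1 := h1 x y (x' - x).val
    have a2 := h2 x' y (y' - y).val
    rw [ZMod.natCast_zmod_val, add_sub_cancel] at a1 a2
    exact EqvGen.trans _ _ _ a1 a2
  intro e e' x y x' y'
  obtain ⟨a, b, hab⟩ := hv e
  obtain ⟨a', b', hab'⟩ := hv e'
  exact EqvGen.trans _ _ _ (hab x y) (EqvGen.trans _ _ _ (h3 _ _ _ _)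
    (EqvGen.symm _ _ (hab' x' y')))

lemma step_of {E : Type} (word : E → Fin (j + 1) → ZMod m) (e : E) (x y : ZMod m) :
    EqvGen (stF word) (Fin.init (word e), x, y) (Fin.tail (word e), x + word e 0, y + 1) :=
  EqvGen.rel _ _ ⟨e, x, y, rfl, rfl⟩

/-! ### Words of length one -/

theorem good_zero (hm : 3 ≤ m) {t : ℕ} (h2 : 2 ≤ t) (ht : t < m) : GoodAt m 0 t := by
  have : NeZero m := ⟨by omega⟩
  have h12 : (1 : ZMod m) ≠ 2 := by
    intro h
    have h1 : ((1 : ℕ) : ZMod m) = ((2 : ℕ) : ZMod m) := by exact_mod_cast h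
    rw [ZMod.natCast_eq_natCast_iff'] at h1
    rw [Nat.mod_eq_of_lt (by omega), Nat.mod_eq_of_lt (by omega)] at h1
    omega
  have h10 : (1 : ZMod m) ≠ 0 := by
    intro h
    have h1 : ((1 : ℕ) : ZMod m) = ((0 : ℕ) : ZMod m) := by exact_mod_cast h
    rw [ZMod.natCast_eq_natCast_iff'] at h1
    rw [Nat.mod_eq_of_lt (by omega), Nat.mod_eq_of_lt (by omega)] at h1
    omega
  have h20 : (2 : ZMod m) ≠ 0 := by
    intro h
    have h1 : ((2 : ℕ) : ZMod m) = ((0 : ℕ) : ZMod m) := by exact_mod_cast h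
    rw [ZMod.natCast_eq_natCast_iff'] at h1
    rw [Nat.mod_eq_of_lt (by omega), Nat.mod_eq_of_lt (by omega)] at h1
    omega
  obtain ⟨R, hR1, hR2, hRc⟩ := Finset.exists_subsuperset_card_eq
    (s := ({1, 2} : Finset (ZMod m))) (t := (Finset.univ : Finset (ZMod m)).erase 0) (n := t)
    (by
      intro a ha
      rw [Finset.mem_insert, Finset.mem_singleton] at ha
      rw [Finset.mem_erase]
      rcases ha with rfl | rfl
      · exact ⟨h10, Finset.mem_univ _⟩
      · exact ⟨h20, Finset.mem_univ _⟩)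
    (by rw [Finset.card_pair h12]; exact h2)
    (by
      rw [Finset.card_erase_of_mem (Finset.mem_univ _), Finset.card_univ, ZMod.card]
      omega)
  have hR0 : ∀ a : R, (a : ZMod m) ≠ 0 := fun a => Finset.ne_of_mem_erase (hR2 a.2)
  have m1 : (1 : ZMod m) ∈ R := hR1 (by simp)
  have m2 : (2 : ZMod m) ∈ R := hR1 (by simp)
  refine ⟨R, inferInstance, fun a _ => (a : ZMod m), Equiv.refl _, ?_, ?_, ?_, ?_, ?_, ?_⟩
  · intro a b hab
    exact Subtype.ext (congrFun hab 0)
  · intro e; rfl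
  · have s1 : ∀ x y : ZMod m, EqvGen (stF (fun (a : R) (_ : Fin (0 + 1)) => (a : ZMod m)))
        (0, x, y) (0, x + 1, y + 1) := by
      intro x y
      refine EqvGen.rel _ _ ⟨⟨1, m1⟩, x, y, ?_, ?_⟩
      · exact Prod.ext (Subsingleton.elim _ _) rfl
      · exact Prod.ext (Subsingleton.elim _ _) rfl
    have s2 : ∀ x y : ZMod m, EqvGen (stF (fun (a : R) (_ : Fin (0 + 1)) => (a : ZMod m)))
        (0, x, y) (0, x + 2, y + 1) := by
      intro x y
      refine EqvGen.rel _ _ ⟨⟨2, m2⟩, x, y, ?_, ?_⟩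
      · exact Prod.ext (Subsingleton.elim _ _) rfl
      · exact Prod.ext (Subsingleton.elim _ _) rfl
    have sx : ∀ x y : ZMod m, EqvGen (stF (fun (a : R) (_ : Fin (0 + 1)) => (a : ZMod m)))
        (0, x, y) (0, x + 1, y) := by
      intro x y
      have a1 := EqvGen.symm _ _ (s1 (x - 1) (y - 1))
      have a2 := s2 (x - 1) (y - 1)
      have e1 : x - 1 + 1 = x := by ring
      have e2 : y - 1 + 1 = y := by ring
      have e3 : x - 1 + 2 = x + 1 := by ring
      rw [e1, e2] at a1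
      rw [e2, e3] at a2
      exact EqvGen.trans _ _ _ a1 a2
    apply FF_of_base 0 sx
    · intro x y
      have a1 := sx (x - 1) (y + 1)
      have a2 := s1 (x - 1) y
      have e1 : x - 1 + 1 = x := by ring
      rw [e1] at a1 a2
      have a3 := EqvGen.symm _ _ (sx (x - 1) y)
      rw [e1] at a3
      exact EqvGen.trans _ _ _ a3 a2
    · intro e
      refine ⟨0, 0, fun x y => ?_⟩
      rw [add_zero, add_zero, Subsingleton.elim (Fin.init _) (0 : Fin 0 → ZMod m)]
      exact EqvGen.refl _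
  · rw [Fintype.card_coe, hRc]
  · exact ⟨⟨1, m1⟩, Subsingleton.elim _ _⟩
  · intro a h0
    exact hR0 a (congrFun h0 0)

/-! ### Words of length two -/

/-- two letter words -/
def w2 (a b : ZMod m) : Fin (1 + 1) → ZMod m := ![a, b]
/-- one letter words -/
def v1 (a : ZMod m) : Fin 1 → ZMod m := fun _ => a

lemma init_w2 (a b : ZMod m) : Fin.init (w2 a b) = v1 a := by
  funext i; fin_cases i; rfl
lemma tail_w2 (a b : ZMod m) : Fin.tail (w2 a b) = v1 b := by
  funext i; fin_cases i; rfl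
lemma w2_zero (a b : ZMod m) : w2 a b 0 = a := rfl
lemma w2_inj {a b a' b' : ZMod m} (h : w2 a b = w2 a' b') : a = a' ∧ b = b' :=
  ⟨congrFun h 0, congrFun h 1⟩

lemma step2 {E : Type} (word : E → Fin (1 + 1) → ZMod m) (e : E) {a b : ZMod m}
    (h : word e = w2 a b) (x y : ZMod m) :
    EqvGen (stF word) (v1 a, x, y) (v1 b, x + a, y + 1) := by
  have := step_of word e x y
  rwa [h, init_w2, tail_w2, w2_zero] at this

/-- words of the star -/
def starW (A B : Finset (ZMod m)) : A ⊕ (A ⊕ B) → Fin (1 + 1) → ZMod m :=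
  Sum.elim (fun a => w2 0 a) (Sum.elim (fun a => w2 a 0) (fun b => w2 b b))

/-- reversal -/
def starP (A B : Finset (ZMod m)) : Perm (A ⊕ (A ⊕ B)) where
  toFun := Sum.elim (fun a => Sum.inr (Sum.inl a))
    (Sum.elim (fun a => Sum.inl a) (fun b => Sum.inr (Sum.inr b)))
  invFun := Sum.elim (fun a => Sum.inr (Sum.inl a))
    (Sum.elim (fun a => Sum.inl a) (fun b => Sum.inr (Sum.inr b)))
  left_inv := by rintro (a | a | b) <;> rfl
  right_inv := by rintro (a | a | b) <;> rfl

lemma starP_word (A B : Finset (ZMod m)) (e : A ⊕ (A ⊕ B)) :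
    Fin.init (starW A B (starP A B e)) = Fin.tail (starW A B e) := by
  rcases e with a | a | b
  · show Fin.init (w2 (a : ZMod m) 0) = Fin.tail (w2 0 (a : ZMod m))
    rw [init_w2, tail_w2]
  · show Fin.init (w2 0 (a : ZMod m)) = Fin.tail (w2 (a : ZMod m) 0)
    rw [init_w2, tail_w2]
  · show Fin.init (w2 (b : ZMod m) b) = Fin.tail (w2 (b : ZMod m) b)
    rw [init_w2, tail_w2]

lemma starW_inj {A B : Finset (ZMod m)} (hA : (0 : ZMod m) ∉ A) (hB : (0 : ZMod m) ∉ B) :
    Function.Injective (starW A B) := by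
  rintro (a | a | b) (a' | a' | b') h
  · have := w2_inj (show w2 0 (a : ZMod m) = w2 0 (a' : ZMod m) from h)
    rw [Subtype.ext this.2]
  · have := w2_inj (show w2 0 (a : ZMod m) = w2 (a' : ZMod m) 0 from h)
    exact absurd (this.1 ▸ a'.2) hA
  · have := w2_inj (show w2 0 (a : ZMod m) = w2 (b' : ZMod m) b' from h)
    exact absurd (this.1 ▸ b'.2) hB
  · have := w2_inj (show w2 (a : ZMod m) 0 = w2 0 (a' : ZMod m) from h)
    exact absurd (this.1 ▸ a.2) hA
  · have := w2_inj (show w2 (a : ZMod m) 0 = w2 (a' : ZMod m) 0 from h)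
    rw [Subtype.ext this.1]
  · have := w2_inj (show w2 (a : ZMod m) 0 = w2 (b' : ZMod m) b' from h)
    exact absurd (this.2 ▸ b'.2) hB
  · have := w2_inj (show w2 (b : ZMod m) b = w2 0 (a' : ZMod m) from h)
    exact absurd (this.1 ▸ b.2) hB
  · have := w2_inj (show w2 (b : ZMod m) b = w2 (a' : ZMod m) 0 from h)
    exact absurd (this.2 ▸ b.2) hB
  · have := w2_inj (show w2 (b : ZMod m) b = w2 (b' : ZMod m) b' from h)
    rw [Subtype.ext this.1]

lemma starW_ne {A B : Finset (ZMod m)} (hA : (0 : ZMod m) ∉ A) (hB : (0 : ZMod m) ∉ B)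
    (e : A ⊕ (A ⊕ B)) : starW A B e ≠ 0 := by
  intro h
  rcases e with a | a | b
  · have : (a : ZMod m) = 0 := congrFun h 1
    exact hA (this ▸ a.2)
  · have : (a : ZMod m) = 0 := congrFun h 0
    exact hA (this ▸ a.2)
  · have : (b : ZMod m) = 0 := congrFun h 0
    exact hB (this ▸ b.2)

lemma star_hub {A B : Finset (ZMod m)} (hBA : B ⊆ A) (e : A ⊕ (A ⊕ B)) :
    ∃ a b : ZMod m, ∀ x y, EqvGen (stF (starW A B)) (Fin.init (starW A B e), x, y)
      (v1 0, x + a, y + b) := by
  have key : ∀ a : A, ∃ c b : ZMod m, ∀ x y, EqvGen (stF (starW A B)) (v1 (a : ZMod m), x, y)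
      (v1 0, x + c, y + b) := by
    intro a
    refine ⟨a, 1, fun x y => ?_⟩
    exact step2 (starW A B) (Sum.inr (Sum.inl a)) rfl x y
  rcases e with a | a | b
  · refine ⟨0, 0, fun x y => ?_⟩
    show EqvGen _ (Fin.init (w2 0 (a : ZMod m)), x, y) _
    rw [init_w2, add_zero, add_zero]
    exact EqvGen.refl _
  · obtain ⟨c, d, h⟩ := key a
    refine ⟨c, d, fun x y => ?_⟩
    show EqvGen _ (Fin.init (w2 (a : ZMod m) 0), x, y) _
    rw [init_w2]
    exact h x y
  · obtain ⟨c, d, h⟩ := key ⟨b, hBA b.2⟩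
    refine ⟨c, d, fun x y => ?_⟩
    show EqvGen _ (Fin.init (w2 (b : ZMod m) b), x, y) _
    rw [init_w2]
    exact h x y

lemma star_FF [NeZero m] {A B : Finset (ZMod m)} (hBA : B ⊆ A) (h1 : (1 : ZMod m) ∈ B) :
    FF (starW A B) := by
  have hA1 : (1 : ZMod m) ∈ A := hBA h1
  have t1 : ∀ x y : ZMod m, EqvGen (stF (starW A B)) (v1 0, x, y) (v1 0, x + 1, y + 2) := by
    intro x y
    have a1 := step2 (starW A B) (Sum.inl ⟨1, hA1⟩) rfl x y
    have a2 := step2 (starW A B) (Sum.inr (Sum.inl ⟨1, hA1⟩)) rfl (x + 0) (y + 1)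
    have h := EqvGen.trans _ _ _ a1 a2
    have e1 : x + 0 + 1 = x + 1 := by ring
    have e2 : y + 1 + 1 = y + 2 := by ring
    simp only [e1, e2] at h
    exact h
  have t2 : ∀ x y : ZMod m, EqvGen (stF (starW A B)) (v1 0, x, y) (v1 0, x + 2, y + 3) := by
    intro x y
    have a1 := step2 (starW A B) (Sum.inl ⟨1, hA1⟩) rfl x y
    have a3 := step2 (starW A B) (Sum.inr (Sum.inr ⟨1, h1⟩)) rfl (x + 0) (y + 1)
    have a2 := step2 (starW A B) (Sum.inr (Sum.inl ⟨1, hA1⟩)) rfl (x + 0 + 1) (y + 1 + 1)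
    have h := EqvGen.trans _ _ _ a1 (EqvGen.trans _ _ _ a3 a2)
    have e1 : x + 0 + 1 + 1 = x + 2 := by ring
    have e2 : y + 1 + 1 + 1 = y + 3 := by ring
    simp only [e1, e2] at h
    exact h
  have t3 : ∀ x y : ZMod m, EqvGen (stF (starW A B)) (v1 0, x, y) (v1 0, x + 1, y + 1) := by
    intro x y
    have a1 := EqvGen.symm _ _ (t1 (x - 1) (y - 2))
    have a2 := t2 (x - 1) (y - 2)
    have e1 : x - 1 + 1 = x := by ring
    have e2 : y - 2 + 2 = y := by ring
    have e3 : x - 1 + 2 = x + 1 := by ring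
    have e4 : y - 2 + 3 = y + 1 := by ring
    rw [e1, e2] at a1
    rw [e3, e4] at a2
    exact EqvGen.trans _ _ _ a1 a2
  have ty : ∀ x y : ZMod m, EqvGen (stF (starW A B)) (v1 0, x, y) (v1 0, x, y + 1) := by
    intro x y
    have a1 := EqvGen.symm _ _ (t3 (x - 1) (y - 1))
    have a2 := t1 (x - 1) (y - 1)
    have e1 : x - 1 + 1 = x := by ring
    have e2 : y - 1 + 1 = y := by ring
    have e4 : y - 1 + 2 = y + 1 := by ring
    rw [e1, e2] at a1
    rw [e1, e4] at a2
    exact EqvGen.trans _ _ _ a1 a2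
  apply FF_of_base (v1 0) _ ty (star_hub hBA)
  intro x y
  have a1 := t3 x y
  exact EqvGen.trans _ _ _ a1 (EqvGen.symm _ _ (ty (x + 1) y))

lemma one_ne_zero' (hm : 3 ≤ m) : (1 : ZMod m) ≠ 0 := by
  intro h
  have h1 : ((1 : ℕ) : ZMod m) = ((0 : ℕ) : ZMod m) := by exact_mod_cast h
  rw [ZMod.natCast_eq_natCast_iff'] at h1
  rw [Nat.mod_eq_of_lt (by omega), Nat.mod_eq_of_lt (by omega)] at h1
  omega

theorem good_star (hm : 3 ≤ m) {s β : ℕ} (h1 : 1 ≤ β) (hβ : β ≤ s) (hs : s ≤ m - 1) :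
    GoodAt m 1 (s + (s + β)) := by
  have : NeZero m := ⟨by omega⟩
  have h10 : (1 : ZMod m) ≠ 0 := one_ne_zero' hm
  obtain ⟨A, hA1, hA2, hAc⟩ := Finset.exists_subsuperset_card_eq
    (s := ({1} : Finset (ZMod m))) (t := (Finset.univ : Finset (ZMod m)).erase 0) (n := s)
    (by
      intro a ha
      rw [Finset.mem_singleton] at ha
      subst ha
      rw [Finset.mem_erase]
      exact ⟨h10, Finset.mem_univ _⟩)
    (by rw [Finset.card_singleton]; omega)
    (by
      rw [Finset.card_erase_of_mem (Finset.mem_univ _), Finset.card_univ, ZMod.card]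
      omega)
  obtain ⟨B, hB1, hB2, hBc⟩ := Finset.exists_subsuperset_card_eq hA1 (n := β)
    (by rw [Finset.card_singleton]; omega) (by omega)
  have hA0 : (0 : ZMod m) ∉ A := fun h => Finset.ne_of_mem_erase (hA2 h) rfl
  have hB0 : (0 : ZMod m) ∉ B := fun h => hA0 (hB2 h)
  have m1 : (1 : ZMod m) ∈ B := hB1 (by simp)
  refine ⟨A ⊕ (A ⊕ B), inferInstance, starW A B, starP A B, starW_inj hA0 hB0, starP_word A B,
    star_FF hB2 m1, ?_, ⟨Sum.inl ⟨1, hB2 m1⟩, ?_⟩, starW_ne hA0 hB0⟩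
  · rw [Fintype.card_sum, Fintype.card_sum, Fintype.card_coe, Fintype.card_coe, hAc, hBc]
  · show Fin.init (w2 0 1) = 0
    rw [init_w2]
    rfl

theorem good_three_four : GoodAt 3 1 4 := by
  set A : Finset (ZMod 3) := {1, 2} with hA
  have hA0 : (0 : ZMod 3) ∉ A := by decide
  have m1 : (1 : ZMod 3) ∈ A := by decide
  have m2 : (2 : ZMod 3) ∈ A := by decide
  refine ⟨A ⊕ (A ⊕ (∅ : Finset (ZMod 3))), inferInstance, starW A ∅, starP A ∅,
    starW_inj hA0 (by simp), starP_word A ∅, ?_, ?_, ⟨Sum.inl ⟨1, m1⟩, ?_⟩,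
    starW_ne hA0 (by simp)⟩
  · have t : ∀ (a : A) (x y : ZMod 3), EqvGen (stF (starW A ∅)) (v1 0, x, y)
        (v1 0, x + a, y + 2) := by
      intro a x y
      have a1 := step2 (starW A ∅) (Sum.inl a) rfl x y
      have a2 := step2 (starW A ∅) (Sum.inr (Sum.inl a)) rfl (x + 0) (y + 1)
      have h := EqvGen.trans _ _ _ a1 a2
      have e1 : x + 0 + (a : ZMod 3) = x + a := by ring
      have e2 : y + 1 + 1 = y + 2 := by ring
      simp only [e1, e2] at h
      exact h
    have tx : ∀ x y : ZMod 3, EqvGen (stF (starW A ∅)) (v1 0, x, y) (v1 0, x + 1, y) := by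
      intro x y
      have a1 := EqvGen.symm _ _ (t ⟨1, m1⟩ (x - 1) (y - 2))
      have a2 := t ⟨2, m2⟩ (x - 1) (y - 2)
      have e1 : x - 1 + 1 = x := by ring
      have e2 : y - 2 + 2 = y := by ring
      have e3 : x - 1 + 2 = x + 1 := by ring
      simp only [e1, e2, e3] at a1 a2
      exact EqvGen.trans _ _ _ a1 a2
    have t2 : ∀ x y : ZMod 3, EqvGen (stF (starW A ∅)) (v1 0, x, y) (v1 0, x, y + 2) := by
      intro x y
      have a1 := EqvGen.symm _ _ (tx (x - 1) y)
      have a2 := t ⟨1, m1⟩ (x - 1) y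
      have e1 : x - 1 + 1 = x := by ring
      simp only [e1] at a1 a2
      exact EqvGen.trans _ _ _ a1 a2
    apply FF_of_base (v1 0) tx _ (star_hub (by simp))
    intro x y
    have a1 := t2 x y
    have a2 := t2 x (y + 2)
    have e1 : y + 2 + 2 = y + 1 := by
      have : (2 : ZMod 3) + 2 = 1 := by decide
      rw [add_assoc, this]
    rw [e1] at a2
    exact EqvGen.trans _ _ _ a1 a2
  · rw [Fintype.card_sum, Fintype.card_sum, Fintype.card_coe, Fintype.card_coe]
    decide
  · show Fin.init (w2 0 1) = 0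
    rw [init_w2]
    rfl

/-- the four words `01, 13, 30, 11` over `ZMod 4` -/
def fw : Fin 4 → Fin (1 + 1) → ZMod 4 := ![w2 0 1, w2 1 3, w2 3 0, w2 1 1]

theorem good_four_four : GoodAt 4 1 4 := by
  refine ⟨Fin 4, inferInstance, fw, ⟨![3, 2, 0, 1], ![2, 3, 1, 0], by decide, by decide⟩,
    by unfold fw w2; decide, by unfold fw w2; decide, ?_, rfl, ⟨0, by unfold fw w2; decide⟩,
    by unfold fw w2; decide⟩
  have s0 : ∀ x y, EqvGen (stF fw) (v1 0, x, y) (v1 1, x + 0, y + 1) := step2 fw 0 rfl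
  have s1 : ∀ x y, EqvGen (stF fw) (v1 1, x, y) (v1 3, x + 1, y + 1) := step2 fw 1 rfl
  have s2 : ∀ x y, EqvGen (stF fw) (v1 3, x, y) (v1 0, x + 3, y + 1) := step2 fw 2 rfl
  have s3 : ∀ x y, EqvGen (stF fw) (v1 1, x, y) (v1 1, x + 1, y + 1) := step2 fw 3 rfl
  have ty : ∀ x y : ZMod 4, EqvGen (stF fw) (v1 1, x, y) (v1 1, x, y + 1) := by
    intro x y
    have a := EqvGen.trans _ _ _ (s1 x (y + 1))
      (EqvGen.trans _ _ _ (s2 (x + 1) (y + 1 + 1)) (s0 (x + 1 + 3) (y + 1 + 1 + 1)))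
    have e1 : x + 1 + 3 + 0 = x := by
      have : (1 : ZMod 4) + 3 + 0 = 0 := by decide
      rw [add_assoc, add_assoc, ← add_assoc (1 : ZMod 4), this, add_zero]
    have e2 : y + 1 + 1 + 1 + 1 = y := by
      have : (1 : ZMod 4) + (1 + (1 + 1)) = 0 := by decide
      rw [add_assoc, add_assoc, add_assoc, this, add_zero]
    rw [e1, e2] at a
    exact EqvGen.symm _ _ a
  have tx : ∀ x y : ZMod 4, EqvGen (stF fw) (v1 1, x, y) (v1 1, x + 1, y) := by
    intro x y
    exact EqvGen.trans _ _ _ (s3 x y) (EqvGen.symm _ _ (ty (x + 1) y))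
  apply FF_of_base (v1 1) tx ty
  intro e
  fin_cases e
  · exact ⟨0, 1, fun x y => by
      show EqvGen _ (Fin.init (w2 0 1), x, y) _
      rw [init_w2]; exact s0 x y⟩
  · exact ⟨0, 0, fun x y => by
      show EqvGen _ (Fin.init (w2 1 3), x, y) _
      rw [init_w2, add_zero, add_zero]; exact EqvGen.refl _⟩
  · exact ⟨3 + 0, 1 + 1, fun x y => by
      show EqvGen _ (Fin.init (w2 3 0), x, y) _
      rw [init_w2, ← add_assoc, ← add_assoc]; exact EqvGen.trans _ _ _ (s2 x y) (s0 _ _)⟩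
  · exact ⟨0, 0, fun x y => by
      show EqvGen _ (Fin.init (w2 1 1), x, y) _
      rw [init_w2, add_zero, add_zero]; exact EqvGen.refl _⟩

/-- words of length two: all sizes from `m` to `m ^ 2 - 1` -/
theorem good_one (hm : 3 ≤ m) {t : ℕ} (h1 : m ≤ t) (h2 : t < m * m) : GoodAt m 1 t := by
  have : NeZero m := ⟨by omega⟩
  by_cases hlt : t < 2 * m
  · by_cases h4 : t = 4
    · subst h4
      have : m = 3 ∨ m = 4 := by omega
      rcases this with rfl | rfl
      · exact good_three_four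
      · exact good_four_four
    · have hs : ∃ s β, t = s + (s + β) ∧ 1 ≤ β ∧ β ≤ s ∧ s ≤ m - 1 := by
        refine ⟨(t - 1) / 2, t - 2 * ((t - 1) / 2), ?_, ?_, ?_, ?_⟩ <;> omega
      obtain ⟨s, β, rfl, hb1, hb2, hs⟩ := hs
      exact good_star hm hb1 hb2 hs
  · have hq : 2 ≤ t / m := by
      rw [Nat.le_div_iff_mul_le (by omega)]
      omega
    have hq2 : t / m < m := by
      rw [Nat.div_lt_iff_lt_mul (by omega)]
      exact h2
    have h3 := good_step (good_zero hm hq hq2) (Nat.mod_lt t (by omega))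
    rw [mul_comm, Nat.div_add_mod] at h3
    exact h3

/-- **Good systems of all sizes.** -/
theorem good_all (hm : 3 ≤ m) (j : ℕ) : ∀ t, m ^ (j + 1) ≤ t → t < m ^ (j + 2) →
    GoodAt m (j + 1) t := by
  have : NeZero m := ⟨by omega⟩
  induction j with
  | zero =>
    intro t h1 h2
    apply good_one hm
    · simpa using h1
    · rw [pow_two] at h2; exact h2
  | succ j ih =>
    intro t h1 h2
    have h3 : m ^ (j + 1) ≤ t / m := by
      rw [Nat.le_div_iff_mul_le (by omega), ← pow_succ]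
      exact h1
    have h4 : t / m < m ^ (j + 2) := by
      rw [Nat.div_lt_iff_lt_mul (by omega), ← pow_succ]
      exact h2
    have h5 := good_step (ih _ h3 h4) (Nat.mod_lt t (by omega))
    rw [mul_comm, Nat.div_add_mod] at h5
    exact h5

end Q160.GdB
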