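import Pool.Agent.Q160.GdB2

/-!
# Balanced generalized de Bruijn sequences
-/

namespace Q160.GdB

open Equiv Relation Q160.Euler

variable {m j : ℕ}

/-- number of positions satisfying a condition on the letter -/
lemma card_filter_equiv {α β : Type*} [Fintype α] [Fintype β] (φ : α ≃ β) (P : α → Prop)
    (Q : β → Prop) [DecidablePred P] [DecidablePred Q] (h : ∀ a, P a ↔ Q (φ a)) :
    (Finset.univ.filter P).card = (Finset.univ.filter Q).card := by
  apply Finset.card_equiv φ
  intro a
  simp [h a]

/-- from a system with full sum holonomy to a balanced sequence -/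
theorem seq_of_SS [NeZero m] {E : Type} [Fintype E] [Nonempty E] (word : E → Fin (j + 1) → ZMod m)
    (σ : Perm E) (hinj : Function.Injective word)
    (hσ : ∀ e, Fin.init (word (σ e)) = Fin.tail (word e)) (hS : SS word) {t : ℕ}
    (ht : Fintype.card E = t) :
    ∃ s : ZMod (t * m) → ZMod m, Function.Injective (win (j + 2) s) ∧
      ∀ a : ZMod m, ∃ φ : ZMod (t * m) ≃ E × ZMod m, ∀ i, s i = a ↔ (φ i).2 = a := by
  have h := exists_seq (j + 1) (lword word) (liftPerm word σ) (lword_init word σ hσ)
    hS.lift_conn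
  have hc : Fintype.card (E × ZMod m) = t * m := by
    rw [Fintype.card_prod, ZMod.card, ht]
  rw [hc] at h
  obtain ⟨s, φ, h1, h2⟩ := h
  refine ⟨s, ?_, fun a => ⟨φ, fun i => ?_⟩⟩
  · intro i i' hii
    rw [h1, h1] at hii
    exact φ.injective (lword_inj hinj hii)
  · rw [h2]
    show integ (word (φ i).1) (φ i).2 0 = a ↔ _
    rw [integ_zero]

lemma win_mono {n l l' : ℕ} {A : Type*} {s : ZMod n → A} (h : Function.Injective (win l s))
    (hl : l ≤ l') : Function.Injective (win l' s) := by
  intro i i' hii
  apply h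
  funext k
  exact congrFun hii ⟨k.val, by omega⟩

/-- A simple balanced sequence. -/
def Simple (m t l : ℕ) : Prop :=
  ∃ s : ZMod (t * m) → ZMod m, Function.Injective (win l s) ∧
    ∀ a : ZMod m, ∃ (E : Type) (_ : Fintype E) (_ : Fintype.card E = t)
      (φ : ZMod (t * m) ≃ E × ZMod m), ∀ i, s i = a ↔ (φ i).2 = a

lemma simple_of_SS [NeZero m] {E : Type} [Fintype E] [Nonempty E]
    (word : E → Fin (j + 1) → ZMod m)
    (σ : Perm E) (hinj : Function.Injective word)
    (hσ : ∀ e, Fin.init (word (σ e)) = Fin.tail (word e)) (hS : SS word) {t l : ℕ}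
    (ht : Fintype.card E = t) (hl : j + 2 ≤ l) : Simple m t l := by
  obtain ⟨s, h1, h2⟩ := seq_of_SS word σ hinj hσ hS ht
  refine ⟨s, win_mono h1 hl, fun a => ?_⟩
  obtain ⟨φ, hφ⟩ := h2 a
  exact ⟨E, inferInstance, ht, φ, hφ⟩

/-- short sequences -/
lemma simple_small (hm : 3 ≤ m) {t l : ℕ} (h1 : 1 ≤ t) (ht : t ≤ m) (hl : 2 ≤ l) :
    Simple m t l := by
  have : NeZero m := ⟨by omega⟩
  obtain ⟨R, hR1, hR2, hRc⟩ := Finset.exists_subsuperset_card_eq
    (s := ({1} : Finset (ZMod m))) (t := (Finset.univ : Finset (ZMod m))) (n := t)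
    (Finset.subset_univ _)
    (by rw [Finset.card_singleton]; exact h1)
    (by rw [Finset.card_univ, ZMod.card]; exact ht)
  have m1 : (1 : ZMod m) ∈ R := hR1 (by simp)
  have : Nonempty R := ⟨⟨1, m1⟩⟩
  refine simple_of_SS (j := 0) (fun (a : R) (_ : Fin (0 + 1)) => (a : ZMod m)) (Equiv.refl _)
    ?_ (fun e => rfl) ?_ (by rw [Fintype.card_coe, hRc]) hl
  · intro a b hab
    exact Subtype.ext (congrFun hab 0)
  · have s1 : ∀ x : ZMod m, EqvGen (stS (fun (a : R) (_ : Fin (0 + 1)) => (a : ZMod m)))
        (0, x) (0, x + 1) := by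
      intro x
      refine EqvGen.rel _ _ ⟨⟨1, m1⟩, x, ?_, ?_⟩
      · exact Prod.ext (Subsingleton.elim _ _) rfl
      · exact Prod.ext (Subsingleton.elim _ _) rfl
    have s2 : ∀ (x : ZMod m) (k : ℕ), EqvGen (stS (fun (a : R) (_ : Fin (0 + 1)) => (a : ZMod m)))
        (0, x) (0, x + k) := by
      intro x k
      induction k with
      | zero => rw [Nat.cast_zero, add_zero]; exact EqvGen.refl _
      | succ k ih =>
        rw [Nat.cast_succ, ← add_assoc]
        exact EqvGen.trans _ _ _ ih (s1 _)
    intro e e' x x'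
    have h3 := s2 x (x' - x).val
    rw [ZMod.natCast_zmod_val, add_sub_cancel] at h3
    rw [Subsingleton.elim (Fin.init _) (0 : Fin 0 → ZMod m),
      Subsingleton.elim (Fin.init _) (0 : Fin 0 → ZMod m)]
    exact h3

/-- all words of a given length -/
def FullAt (m j : ℕ) : Prop :=
  ∃ (E : Type) (_ : Fintype E) (word : E → Fin (j + 1) → ZMod m) (σ : Perm E),
    Function.Injective word ∧ (∀ e, Fin.init (word (σ e)) = Fin.tail (word e)) ∧ FF word ∧
    Fintype.card E = m ^ (j + 1) ∧
    ∃ (E' : Type) (_ : Fintype E') (_ : Fintype.card E' = m ^ j) (φ : E ≃ E' × ZMod m),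
      ∀ e, word e 0 = (φ e).2

theorem full_all (hm : 3 ≤ m) (j : ℕ) : FullAt m j := by
  have : NeZero m := ⟨by omega⟩
  induction j with
  | zero =>
    refine ⟨ZMod m, inferInstance, fun a _ => a, Equiv.refl _, ?_, fun e => rfl, ?_, ?_, ?_⟩
    · intro a b hab; exact congrFun hab 0
    · have s1 : ∀ (a x y : ZMod m), EqvGen (stF (fun (a : ZMod m) (_ : Fin (0 + 1)) => a))
          (0, x, y) (0, x + a, y + 1) := by
        intro a x y
        refine EqvGen.rel _ _ ⟨a, x, y, ?_, ?_⟩
        · exact Prod.ext (Subsingleton.elim _ _) rfl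
        · exact Prod.ext (Subsingleton.elim _ _) rfl
      have sy : ∀ (x y : ZMod m), EqvGen (stF (fun (a : ZMod m) (_ : Fin (0 + 1)) => a))
          (0, x, y) (0, x, y + 1) := by
        intro x y
        have := s1 0 x y
        rwa [add_zero] at this
      apply FF_of_base 0 _ sy
      · intro e
        refine ⟨0, 0, fun x y => ?_⟩
        rw [add_zero, add_zero, Subsingleton.elim (Fin.init _) (0 : Fin 0 → ZMod m)]
        exact EqvGen.refl _
      · intro x y
        exact EqvGen.trans _ _ _ (s1 1 x y) (EqvGen.symm _ _ (sy (x + 1) y))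
    · rw [ZMod.card, zero_add, pow_one]
    · exact ⟨Unit, inferInstance, by simp, (Equiv.punitProd _).symm, fun e => rfl⟩
  | succ j ih =>
    obtain ⟨E, hE, word, σ, hinj, hσ, hF, hcard, _⟩ := ih
    refine ⟨E × ZMod m, inferInstance, lword word, liftPerm word σ, lword_inj hinj,
      lword_init word σ hσ, hF.lift, ?_, E, hE, hcard, Equiv.refl _, ?_⟩
    · rw [Fintype.card_prod, ZMod.card, hcard, pow_succ m (j + 1)]
    · rintro ⟨e, x⟩
      exact integ_zero _ _

/-- **Simple balanced sequences of all admissible lengths.** -/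
theorem simple_all (hm : 3 ≤ m) {t L : ℕ} (hL : 1 ≤ L) (h1 : 1 ≤ t) (ht : t ≤ m ^ L) :
    Simple m t (L + 1) := by
  have : NeZero m := ⟨by omega⟩
  rcases Nat.lt_or_ge t m with hlt | hge
  · exact simple_small hm h1 hlt.le (by omega)
  rcases Nat.lt_or_eq_of_le ht with hlt | heq
  · have hlog : m ^ (Nat.log m t) ≤ t := Nat.pow_log_le_self m (by omega)
    have hlog2 : t < m ^ (Nat.log m t + 1) := Nat.lt_pow_succ_log_self (by omega) t
    have hpos : 1 ≤ Nat.log m t := by
      by_contra h
      have h0 : Nat.log m t = 0 := by omega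
      rw [h0, zero_add, pow_one] at hlog2
      omega
    obtain ⟨J, hJ⟩ : ∃ J, Nat.log m t = J + 1 := ⟨Nat.log m t - 1, by omega⟩
    rw [hJ] at hlog hlog2
    have hJL : J + 1 < L := (Nat.pow_lt_pow_iff_right (by omega : 1 < m)).mp (hlog.trans_lt hlt)
    obtain ⟨E, hE, word, σ, hinj, hσ, hF, hcard, ⟨e0, _⟩, _⟩ := good_all hm J t hlog hlog2
    have : Nonempty E := ⟨e0⟩
    exact simple_of_SS word σ hinj hσ hF.toSS hcard (by omega)
  · obtain ⟨J, rfl⟩ : ∃ J, L = J + 1 := ⟨L - 1, by omega⟩
    obtain ⟨E, hE, word, σ, hinj, hσ, hF, hcard, _⟩ := full_all hm J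
    have : Nonempty E := by
      rw [← Fintype.card_pos_iff, hcard]
      positivity
    exact simple_of_SS word σ hinj hσ hF.toSS (hcard.trans heq.symm) (by omega)

/-- Balanced sequences of length `n` in which every word of length `l` occurs at most `k` times. -/
def HasSeq (m n l k : ℕ) [NeZero n] : Prop :=
  ∃ s : ZMod n → ZMod m,
    (∀ a : ZMod m, m * (Finset.univ.filter (fun i => s i = a)).card = n) ∧
    ∀ w : Fin l → ZMod m, (Finset.univ.filter (fun i => win l s i = w)).card ≤ k

lemma count_letter {α E : Type} [Fintype α] [Fintype E] [NeZero m] (φ : α ≃ E × ZMod m)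
    (P : α → Prop) [DecidablePred P] (a : ZMod m) (h : ∀ i, P i ↔ (φ i).2 = a) :
    (Finset.univ.filter P).card = Fintype.card E := by
  rw [card_filter_equiv φ P (fun p => p.2 = a) h, Finset.card_filter, Fintype.sum_prod_type]
  simp

lemma count_inj {α β : Type} [Fintype α] [DecidableEq β] {f : α → β} (hf : Function.Injective f)
    (w : β) : (Finset.univ.filter (fun i => f i = w)).card ≤ 1 := by
  rw [Finset.card_le_one]
  intro a ha b hb
  simp only [Finset.mem_filter, Finset.mem_univ, true_and] at ha hb
  exact hf (ha.trans hb.symm)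

lemma hasSeq_of_system [NeZero m] {E : Type} [Fintype E] [Nonempty E]
    (word : E → Fin (j + 1) → ZMod m) (σ : Perm E)
    (hσ : ∀ e, Fin.init (word (σ e)) = Fin.tail (word e))
    (hconn : ∀ e e', EqvGen (adj (fun e => Fin.init (word e)) (fun e => Fin.tail (word e)))
      (Fin.init (word e)) (Fin.init (word e')))
    {n k : ℕ} [NeZero n] (hn : Fintype.card E = n)
    (hbal : ∀ a : ZMod m, m * (Finset.univ.filter (fun e => word e 0 = a)).card = n)
    (hk : ∀ w, (Finset.univ.filter (fun e => word e = w)).card ≤ k) :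
    HasSeq m n (j + 1) k := by
  have h := exists_seq j word σ hσ hconn
  rw [hn] at h
  obtain ⟨s, φ, h1, h2⟩ := h
  refine ⟨s, ?_, ?_⟩
  · intro a
    rw [card_filter_equiv φ (fun i => s i = a) (fun e => word e 0 = a) (fun i => by rw [h2])]
    exact hbal a
  · intro w
    rw [card_filter_equiv φ (fun i => win (j + 1) s i = w) (fun e => word e = w)
      (fun i => by rw [h1])]
    exact hk w

lemma count_sum {α β : Type} [Fintype α] [Fintype β] {q : ℕ} (P : α ⊕ (Fin q × β) → Prop)
    [DecidablePred P] : (Finset.univ.filter P).card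
      = (Finset.univ.filter (fun a => P (Sum.inl a))).card
        + ∑ c : Fin q, (Finset.univ.filter (fun b => P (Sum.inr (c, b)))).card := by
  rw [Finset.card_filter, Fintype.sum_sum_type, Fintype.sum_prod_type, Finset.card_filter]
  congr 1
  apply Finset.sum_congr rfl
  intro c _
  rw [Finset.card_filter]

theorem hasSeq_all (hm : 3 ≤ m) {n l k : ℕ} [NeZero n] (hl : 1 ≤ l) (hd : m ∣ n)
    (hn : n ≤ k * m ^ l) : HasSeq m n l k := by
  have : NeZero m := ⟨by omega⟩
  have hn0 : n ≠ 0 := NeZero.ne n
  obtain ⟨t0, ht0⟩ := hd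
  have ht0pos : 1 ≤ t0 := by
    rcases Nat.eq_zero_or_pos t0 with h | h
    · rw [h, mul_zero] at ht0; exact absurd ht0 hn0
    · exact h
  rcases Nat.lt_or_ge l 2 with hl2 | hl2
  · -- words of length one
    have hl1 : l = 0 + 1 := by omega
    subst hl1
    have hk : t0 ≤ k := by
      rw [ht0, zero_add, pow_one, mul_comm k] at hn
      exact Nat.le_of_mul_le_mul_left hn (by omega)
    have : Nonempty (Fin t0) := ⟨⟨0, ht0pos⟩⟩
    apply hasSeq_of_system (E := Fin t0 × ZMod m) (fun p _ => p.2) (Equiv.refl _)
      (fun e => rfl)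
    · intro e e'
      rw [Subsingleton.elim (Fin.init _) (Fin.init (fun _ : Fin (0 + 1) => e'.2))]
      exact EqvGen.refl _
    · rw [Fintype.card_prod, ZMod.card, Fintype.card_fin, ht0, mul_comm]
    · intro a
      have := count_letter (m := m) (Equiv.refl (Fin t0 × ZMod m)) (fun e => e.2 = a) a
        (fun i => Iff.rfl)
      rw [Fintype.card_fin] at this
      rw [this, ht0]
    · intro w
      refine le_trans (le_of_eq ?_) hk
      have := count_letter (m := m) (Equiv.refl (Fin t0 × ZMod m))
        (fun e => (fun _ : Fin (0 + 1) => e.2) = w) (w 0) (fun i => by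
          constructor
          · intro h; exact congrFun h 0
          · intro h
            funext x
            have hx : x = 0 := by
              apply Fin.ext
              have := x.isLt
              have h0 : ((0 : Fin (0 + 1)) : ℕ) = 0 := rfl
              omega
            rw [hx]; exact h)
      rw [Fintype.card_fin] at this
      exact this
  · obtain ⟨L, rfl⟩ : ∃ L, l = L + 1 := ⟨l - 1, by omega⟩
    have hL : 1 ≤ L := by omega
    set M := m ^ (L + 1) with hM
    have hMpos : 0 < M := by positivity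
    have hMm : M = m * m ^ L := by rw [hM, pow_succ, mul_comm]
    -- decomposition of n
    obtain ⟨q, t, hnq, ht1, htL, hqk⟩ : ∃ q t, n = t * m + q * M ∧ 1 ≤ t ∧ t ≤ m ^ L ∧
        q + 1 ≤ k := by
      have hdm : (n - 1) / M * M ≤ n - 1 := Nat.div_mul_le_self _ _
      have hdm2 : n - 1 < (n - 1) / M * M + M := by
        have := Nat.lt_div_mul_add hMpos (a := n - 1)
        exact this
      have hq1 : (n - 1) / M < k := by
        rw [Nat.div_lt_iff_lt_mul hMpos]
        omega
      have hdvd : m ∣ n - (n - 1) / M * M := by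
        apply Nat.dvd_sub
        · exact ⟨t0, ht0⟩
        · rw [hMm]
          exact Dvd.dvd.mul_left (Dvd.intro _ rfl) _
      obtain ⟨t, ht⟩ := hdvd
      refine ⟨(n - 1) / M, t, ?_, ?_, ?_, hq1⟩
      · rw [mul_comm t m, ← ht]; omega
      · rcases Nat.eq_zero_or_pos t with h | h
        · rw [h, mul_zero] at ht; omega
        · exact h
      · have : m * t ≤ m * m ^ L := by rw [← ht, ← hMm]; omega
        exact Nat.le_of_mul_le_mul_left this (by omega)
    obtain ⟨s, hs1, hs2⟩ := simple_all hm hL ht1 htL
    have : NeZero (t * m) := ⟨by positivity⟩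
    have hcs : ∀ a : ZMod m, (Finset.univ.filter (fun i => s i = a)).card = t := by
      intro a
      obtain ⟨E, hE, hEc, φ, hφ⟩ := hs2 a
      rw [count_letter φ _ a hφ, hEc]
    rcases Nat.eq_zero_or_pos q with hq | hq
    · subst hq
      rw [zero_mul, add_zero] at hnq
      subst hnq
      refine ⟨s, fun a => ?_, fun w => ?_⟩
      · rw [hcs a, mul_comm]
      · exact (count_inj hs1 w).trans (by omega)
    · obtain ⟨F, hF, wordF, σF, hinjF, hσF, hFF, hFcard, E', hE', hE'c, φF, hφF⟩ := full_all hm L
      have hsurj : ∀ w : Fin (L + 1) → ZMod m, ∃ f, wordF f = w := by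
        have hb : Function.Bijective wordF := by
          rw [Fintype.bijective_iff_injective_and_card]
          refine ⟨hinjF, ?_⟩
          rw [hFcard, Fintype.card_fun, ZMod.card, Fintype.card_fin]
        exact hb.2
      have : Nonempty (ZMod (t * m) ⊕ (Fin q × F)) := ⟨Sum.inl 0⟩
      have hfull : ∀ f f' : F, EqvGen (adj
          (fun e : ZMod (t * m) ⊕ (Fin q × F) =>
            Fin.init (Sum.elim (win (L + 1) s) (fun p => wordF p.2) e))
          (fun e => Fin.tail (Sum.elim (win (L + 1) s) (fun p => wordF p.2) e)))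
          (Fin.init (wordF f)) (Fin.init (wordF f')) := by
        intro f f'
        have h1 := hFF f f' 0 0 0 0
        exact eqvGen_map (s := adj
          (fun e : ZMod (t * m) ⊕ (Fin q × F) =>
            Fin.init (Sum.elim (win (L + 1) s) (fun p => wordF p.2) e))
          (fun e => Fin.tail (Sum.elim (win (L + 1) s) (fun p => wordF p.2) e)))
          (fun st : St m L => st.1) (by
            rintro _ _ ⟨e, x, y, rfl, rfl⟩
            exact EqvGen.rel _ _ ⟨Sum.inr (⟨0, hq⟩, e), rfl, rfl⟩) h1
      apply hasSeq_of_system (E := ZMod (t * m) ⊕ (Fin q × F))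
        (Sum.elim (win (L + 1) s) (fun p => wordF p.2))
        (Equiv.sumCongr (Equiv.addRight 1) (Equiv.prodCongr (Equiv.refl _) σF))
      · rintro (i | ⟨c, f⟩)
        · funext x
          show s (i + 1 + ((x.castSucc : Fin (L + 1)) : ℕ)) = s (i + ((x.succ : Fin (L + 1)) : ℕ))
          rw [Fin.val_castSucc, Fin.val_succ]
          congr 1
          push_cast
          ring
        · exact hσF f
      · intro e e'
        obtain ⟨f, hf⟩ := hsurj (Sum.elim (win (L + 1) s) (fun p => wordF p.2) e)
        obtain ⟨f', hf'⟩ := hsurj (Sum.elim (win (L + 1) s) (fun p => wordF p.2) e')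
        rw [← hf, ← hf']
        exact hfull f f'
      · rw [Fintype.card_sum, ZMod.card, Fintype.card_prod, Fintype.card_fin, hFcard, hnq]
      · intro a
        rw [count_sum]
        have e1 : (Finset.univ.filter (fun i : ZMod (t * m) =>
            (Sum.elim (win (L + 1) s) (fun p : Fin q × F => wordF p.2) (Sum.inl i)) 0 = a)).card
            = t := by
          refine Eq.trans ?_ (hcs a)
          congr 1
          ext i
          simp only [Finset.mem_filter, Finset.mem_univ, true_and, Sum.elim_inl]
          unfold win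
          simp
        have e2 : ∀ c ∈ (Finset.univ : Finset (Fin q)), (Finset.univ.filter (fun f : F =>
            (Sum.elim (win (L + 1) s) (fun p : Fin q × F => wordF p.2) (Sum.inr (c, f))) 0
              = a)).card = m ^ L := by
          intro c _
          rw [← hE'c]
          apply count_letter φF _ a
          intro f
          show wordF f 0 = a ↔ _
          rw [hφF]
        rw [e1, Finset.sum_congr rfl e2, Finset.sum_const, Finset.card_univ,
          Fintype.card_fin, smul_eq_mul, hnq, hMm]
        ring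
      · intro w
        rw [count_sum]
        have e1 : (Finset.univ.filter (fun i : ZMod (t * m) =>
            (Sum.elim (win (L + 1) s) (fun p : Fin q × F => wordF p.2) (Sum.inl i)) = w)).card
            ≤ 1 := count_inj hs1 w
        have e2 : ∀ c ∈ (Finset.univ : Finset (Fin q)), (Finset.univ.filter (fun f : F =>
            (Sum.elim (win (L + 1) s) (fun p : Fin q × F => wordF p.2) (Sum.inr (c, f)))
              = w)).card ≤ 1 := by
          intro c _
          exact count_inj hinjF w
        have e3 := Finset.sum_le_sum e2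
        rw [Finset.sum_const, Finset.card_univ, Fintype.card_fin, smul_eq_mul, mul_one] at e3
        omega

end Q160.GdB
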