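import Pool.Agent.Q160.Lam

/-!
# The Cauchy kernel `∏_{i+j<m} (x_i + z_j)`
-/

namespace Q160.Kernel

open MvPolynomial Q160.DD Q160.Lam

abbrev R2 := MvPolynomial (ℕ ⊕ ℕ) ℤ

lemma inl_ne (i : ℕ) : (Sum.inl i : ℕ ⊕ ℕ) ≠ Sum.inl (i + 1) :=
  fun h => ne_succ i (Sum.inl_injective h)
lemma inr_ne (i : ℕ) : (Sum.inr i : ℕ ⊕ ℕ) ≠ Sum.inr (i + 1) :=
  fun h => ne_succ i (Sum.inr_injective h)

/-- divided difference in the `x` variables -/
noncomputable def dx (i : ℕ) (f : R2) : R2 := dd (Sum.inl i) (Sum.inl (i + 1)) f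
/-- divided difference in the `z` variables -/
noncomputable def dz (j : ℕ) (f : R2) : R2 := dd (Sum.inr j) (Sum.inr (j + 1)) f

lemma dz_dx (i j : ℕ) (f : R2) : dz j (dx i f) = dx i (dz j f) := by
  unfold dz dx
  apply dd_comm (inr_ne j) (inl_ne i) <;> exact Sum.inr_ne_inl

/-- the staircase -/
def P (m : ℕ) : Finset (ℕ × ℕ) :=
  (Finset.range m ×ˢ Finset.range m).filter (fun p => p.1 + p.2 < m)

lemma mem_P {m : ℕ} {p : ℕ × ℕ} : p ∈ P m ↔ p.1 + p.2 < m := by
  unfold P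
  rw [Finset.mem_filter, Finset.mem_product, Finset.mem_range, Finset.mem_range]
  constructor
  · intro h; exact h.2
  · intro h; exact ⟨⟨by omega, by omega⟩, h⟩

/-- a product over a set of cells -/
noncomputable def PP (Q : Finset (ℕ × ℕ)) : R2 := ∏ p ∈ Q, (X (Sum.inl p.1) + X (Sum.inr p.2))

/-- the kernel -/
noncomputable def G (m : ℕ) : R2 := PP (P m)

lemma sw_PP_x {Q : Finset (ℕ × ℕ)} {i : ℕ}
    (hQ : ∀ a b, (a, b) ∈ Q → (Equiv.swap i (i + 1) a, b) ∈ Q) :
    sw (Sum.inl i) (Sum.inl (i + 1)) (PP Q) = PP Q := by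
  unfold PP
  rw [map_prod]
  apply Finset.prod_nbij' (fun p => (Equiv.swap i (i + 1) p.1, p.2))
    (fun p => (Equiv.swap i (i + 1) p.1, p.2))
  · rintro ⟨a, b⟩ h; exact hQ a b h
  · rintro ⟨a, b⟩ h; exact hQ a b h
  · rintro ⟨a, b⟩ _; simp
  · rintro ⟨a, b⟩ _; simp
  · rintro ⟨a, b⟩ _
    rw [map_add, sw_X, sw_X, Sum.inl_injective.swap_apply,
      Equiv.swap_apply_of_ne_of_ne Sum.inr_ne_inl Sum.inr_ne_inl]

lemma sw_PP_z {Q : Finset (ℕ × ℕ)} {j : ℕ}
    (hQ : ∀ a b, (a, b) ∈ Q → (a, Equiv.swap j (j + 1) b) ∈ Q) :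
    sw (Sum.inr j) (Sum.inr (j + 1)) (PP Q) = PP Q := by
  unfold PP
  rw [map_prod]
  apply Finset.prod_nbij' (fun p => (p.1, Equiv.swap j (j + 1) p.2))
    (fun p => (p.1, Equiv.swap j (j + 1) p.2))
  · rintro ⟨a, b⟩ h; exact hQ a b h
  · rintro ⟨a, b⟩ h; exact hQ a b h
  · rintro ⟨a, b⟩ _; simp
  · rintro ⟨a, b⟩ _; simp
  · rintro ⟨a, b⟩ _
    rw [map_add, sw_X, sw_X, Sum.inr_injective.swap_apply,
      Equiv.swap_apply_of_ne_of_ne Sum.inl_ne_inr Sum.inl_ne_inr]

lemma swap_cases (i a : ℕ) : (a = i ∧ Equiv.swap i (i + 1) a = i + 1) ∨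
    (a = i + 1 ∧ Equiv.swap i (i + 1) a = i) ∨
    (a ≠ i ∧ a ≠ i + 1 ∧ Equiv.swap i (i + 1) a = a) := by
  by_cases h1 : a = i
  · left; subst h1; exact ⟨rfl, Equiv.swap_apply_left _ _⟩
  · by_cases h2 : a = i + 1
    · right; left; subst h2; exact ⟨rfl, Equiv.swap_apply_right _ _⟩
    · right; right; exact ⟨h1, h2, Equiv.swap_apply_of_ne_of_ne h1 h2⟩

lemma G_eq {m i : ℕ} (h : i < m) :
    G m = PP ((P m).erase (i, m - 1 - i)) * (X (Sum.inl i) + X (Sum.inr (m - 1 - i))) := by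
  unfold G PP
  rw [mul_comm]
  exact (Finset.mul_prod_erase (P m) (fun p => X (Sum.inl p.1) + X (Sum.inr p.2))
    (a := (i, m - 1 - i)) (mem_P.mpr (by show i + (m - 1 - i) < m; omega))).symm

lemma dx_G {m i : ℕ} (h : i < m) : dx i (G m) = PP ((P m).erase (i, m - 1 - i)) := by
  rw [G_eq h]
  unfold dx
  rw [dd_symm_mul (inl_ne i), dd_add (inl_ne i), dd_X_left (inl_ne i), dd_of_symm (inl_ne i)
    (f := X (Sum.inr (m - 1 - i)))]
  · rw [add_zero, mul_one]
  · rw [sw_X, Equiv.swap_apply_of_ne_of_ne Sum.inr_ne_inl Sum.inr_ne_inl]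
  · apply sw_PP_x
    intro a b hab
    rw [Finset.mem_erase, mem_P, Ne, Prod.mk.injEq] at hab ⊢
    simp only at hab ⊢
    rcases swap_cases i a with ⟨h1, h2⟩ | ⟨h1, h2⟩ | ⟨h1, h2, h3⟩
    · rw [h2]; omega
    · rw [h2]; omega
    · rw [h3]; omega

lemma dz_G {m i : ℕ} (h : i < m) : dz (m - 1 - i) (G m) = PP ((P m).erase (i, m - 1 - i)) := by
  rw [G_eq h]
  unfold dz
  rw [dd_symm_mul (inr_ne _), dd_add (inr_ne _), dd_X_left (inr_ne _), dd_of_symm (inr_ne _)
    (f := X (Sum.inl i))]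
  · rw [zero_add, mul_one]
  · rw [sw_X, Equiv.swap_apply_of_ne_of_ne Sum.inl_ne_inr Sum.inl_ne_inr]
  · apply sw_PP_z
    intro a b hab
    rw [Finset.mem_erase, mem_P, Ne, Prod.mk.injEq] at hab ⊢
    simp only at hab ⊢
    rcases swap_cases (m - 1 - i) b with ⟨h1, h2⟩ | ⟨h1, h2⟩ | ⟨h1, h2, h3⟩
    · rw [h2]; omega
    · rw [h2]; omega
    · rw [h3]; omega

lemma dx_G_zero {m i : ℕ} (h : m ≤ i) : dx i (G m) = 0 := by
  unfold dx G
  apply dd_of_symm (inl_ne i)
  apply sw_PP_x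
  intro a b hab
  rw [mem_P] at hab ⊢
  simp only at hab ⊢
  rcases swap_cases i a with ⟨h1, h2⟩ | ⟨h1, h2⟩ | ⟨h1, h2, h3⟩
  · omega
  · omega
  · rw [h3]; omega

lemma dz_G_zero {m j : ℕ} (h : m ≤ j) : dz j (G m) = 0 := by
  unfold dz G
  apply dd_of_symm (inr_ne j)
  apply sw_PP_z
  intro a b hab
  rw [mem_P] at hab ⊢
  simp only at hab ⊢
  rcases swap_cases j b with ⟨h1, h2⟩ | ⟨h1, h2⟩ | ⟨h1, h2, h3⟩
  · omega
  · omega
  · rw [h3]; omega

/-! ### Setting `x = 0` -/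

/-- set `x = 0` -/
noncomputable def ev : R2 →ₐ[ℤ] Poly := aeval (Sum.elim (fun _ => 0) X)

lemma ev_inl (i : ℕ) : ev (X (Sum.inl i)) = 0 := by unfold ev; rw [aeval_X]; rfl
lemma ev_inr (i : ℕ) : ev (X (Sum.inr i)) = X i := by unfold ev; rw [aeval_X]; rfl

lemma ev_sw (j : ℕ) (f : R2) :
    ev (sw (Sum.inr j) (Sum.inr (j + 1)) f) = sw j (j + 1) (ev f) := by
  have : ev.comp (sw (Sum.inr j) (Sum.inr (j + 1))) = (sw j (j + 1)).comp ev := by
    apply MvPolynomial.algHom_ext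
    rintro (a | b)
    · rw [AlgHom.comp_apply, AlgHom.comp_apply, sw_X, ev_inl, map_zero,
        Equiv.swap_apply_of_ne_of_ne Sum.inl_ne_inr Sum.inl_ne_inr, ev_inl]
    · rw [AlgHom.comp_apply, AlgHom.comp_apply, sw_X, ev_inr, Sum.inr_injective.swap_apply,
        ev_inr, sw_X]
  exact DFunLike.congr_fun this f

lemma ev_dz (j : ℕ) (f : R2) : ev (dz j f) = pd j (ev f) := by
  symm
  apply dd_unique (ne_succ j)
  have h1 := congrArg ev (dd_spec (Sum.inr j) (Sum.inr (j + 1)) f)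
  rw [map_mul, map_sub, map_sub, ev_inr, ev_inr, ev_sw] at h1
  exact h1

lemma ev_rename_inl (f : Poly) : ev (rename Sum.inl f) = C (constantCoeff f) := by
  have : (ev : R2 →ₐ[ℤ] Poly).comp (rename Sum.inl)
      = (aeval (fun _ => (0 : Poly)) : Poly →ₐ[ℤ] Poly) := by
    apply MvPolynomial.algHom_ext
    intro i
    rw [AlgHom.comp_apply, rename_X, ev_inl, aeval_X]
  have h2 := DFunLike.congr_fun this f
  rw [AlgHom.comp_apply] at h2
  rw [h2]
  have h3 : (aeval (fun _ => (0 : Poly)) : Poly →ₐ[ℤ] Poly) f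
      = (algebraMap ℤ Poly) (constantCoeff f) := aeval_zero' f
  rw [h3, MvPolynomial.algebraMap_eq]

lemma ev_rename_inr (f : Poly) : ev (rename Sum.inr f) = f := by
  have : (ev : R2 →ₐ[ℤ] Poly).comp (rename Sum.inr) = AlgHom.id ℤ Poly := by
    apply MvPolynomial.algHom_ext
    intro i
    rw [AlgHom.comp_apply, rename_X, ev_inr, AlgHom.id_apply]
  exact DFunLike.congr_fun this f

/-! ### Words -/

/-- iterated `x` divided differences; first letter first -/
noncomputable def Dxl : List ℕ → R2 → R2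
  | [], f => f
  | i :: α, f => Dxl α (dx i f)

lemma Dxl_zero (α : List ℕ) : Dxl α 0 = 0 := by
  induction α with
  | nil => rfl
  | cons i α ih => simp only [Dxl]; rw [show dx i 0 = 0 from dd_zero (inl_ne i), ih]

lemma Dxl_sum {ι : Type*} (α : List ℕ) (s : Finset ι) (f : ι → R2) :
    Dxl α (∑ x ∈ s, f x) = ∑ x ∈ s, Dxl α (f x) := by
  induction α generalizing f with
  | nil => rfl
  | cons i α ih =>
    simp only [Dxl]
    rw [show dx i (∑ x ∈ s, f x) = ∑ x ∈ s, dx i (f x) from dd_sum (inl_ne i) s f, ih]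

lemma Dxl_nil (f : R2) : Dxl [] f = f := rfl
lemma Dxl_cons (i : ℕ) (α : List ℕ) (f : R2) : Dxl (i :: α) f = Dxl α (dx i f) := rfl

lemma dz_Dxl (j : ℕ) (α : List ℕ) : ∀ (f : R2), dz j (Dxl α f) = Dxl α (dz j f) := by
  induction α with
  | nil => intro f; rw [Dxl_nil, Dxl_nil]
  | cons i α ih =>
    intro f
    rw [Dxl_cons, Dxl_cons]
    exact (ih (dx i f)).trans (congrArg (Dxl α) (dz_dx i j f))

/-- the polynomials in `z` obtained from the kernel -/
noncomputable def RR (m : ℕ) (α : List ℕ) : Poly := ev (Dxl α (G m))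

lemma RR_cons {m i : ℕ} (h : i < m) (α : List ℕ) : RR m (i :: α) = pd (m - 1 - i) (RR m α) := by
  unfold RR
  simp only [Dxl]
  rw [dx_G h, ← dz_G h, ← dz_Dxl, ev_dz]

lemma RR_cons_zero {m i : ℕ} (h : m ≤ i) (α : List ℕ) : RR m (i :: α) = 0 := by
  unfold RR
  simp only [Dxl]
  rw [dx_G_zero h, Dxl_zero, map_zero]

lemma pd_RR {m j : ℕ} (h : m ≤ j) (α : List ℕ) : pd j (RR m α) = 0 := by
  unfold RR
  rw [← ev_dz, dz_Dxl, dz_G_zero h, Dxl_zero, map_zero]

/-! ### Expansion -/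

/-- `e^k_j`, the elementary symmetric polynomial of degree `j` in the first `k` variables -/
noncomputable def E (k j : ℕ) : Poly := ∑ t ∈ Finset.powersetCard j (Finset.range k), ∏ i ∈ t, X i

lemma prod_add_const (k : ℕ) (z : R2) :
    ∏ i ∈ Finset.range k, (X (Sum.inl i) + z)
      = ∑ j ∈ Finset.range (k + 1), rename Sum.inl (E k j) * z ^ (k - j) := by
  rw [Finset.prod_add, Finset.sum_powerset, Finset.card_range]
  apply Finset.sum_congr rfl
  intro j _
  unfold E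
  rw [map_sum, Finset.sum_mul]
  apply Finset.sum_congr rfl
  intro t ht
  rw [Finset.mem_powersetCard] at ht
  rw [map_prod, Finset.prod_const]
  congr 1
  · apply Finset.prod_congr rfl
    intro i _
    rw [rename_X]
  · congr 1
    rw [Finset.card_sdiff_of_subset ht.1, Finset.card_range, ht.2]

lemma G_prod (m : ℕ) :
    G m = ∏ j : Fin m, ∏ i ∈ Finset.range (m - j), (X (Sum.inl i) + X (Sum.inr (j : ℕ))) := by
  rw [Fin.prod_univ_eq_prod_range
    (fun j => ∏ i ∈ Finset.range (m - j), (X (Sum.inl i) + X (Sum.inr j) : R2)) m]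
  rw [Finset.prod_sigma']
  unfold G PP
  apply Finset.prod_nbij' (fun p => (⟨p.2, p.1⟩ : (_ : ℕ) × ℕ)) (fun q => (q.2, q.1))
  · rintro ⟨a, b⟩ h
    rw [mem_P] at h
    simp only at h
    rw [Finset.mem_sigma, Finset.mem_range, Finset.mem_range]
    constructor
    · simp only; omega
    · simp only; omega
  · rintro ⟨a, b⟩ h
    rw [Finset.mem_sigma, Finset.mem_range, Finset.mem_range] at h
    simp only at h
    rw [mem_P]
    simp only; omega
  · rintro ⟨a, b⟩ _; rfl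
  · rintro ⟨a, b⟩ _; rfl
  · rintro ⟨a, b⟩ _; rfl

/-- exponent vector -/
noncomputable def ex {m : ℕ} (b : Fin m → ℕ) : ℕ →₀ ℕ :=
  ∑ j : Fin m, Finsupp.single (j : ℕ) (m - j - b j)

lemma ex_apply {m : ℕ} (b : Fin m → ℕ) (i : Fin m) : ex b (i : ℕ) = m - i - b i := by
  unfold ex
  rw [Finsupp.finsetSum_apply, Finset.sum_eq_single i]
  · simp
  · intro j _ hj
    rw [Finsupp.single_apply, if_neg]
    exact fun h => hj (Fin.ext h)
  · intro h; exact absurd (Finset.mem_univ _) h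

lemma G_expand (m : ℕ) :
    G m = ∑ b ∈ Fintype.piFinset (fun j : Fin m => Finset.range (m - j + 1)),
      rename Sum.inl (∏ j : Fin m, E (m - j) (b j)) * rename Sum.inr (monomial (ex b) 1) := by
  rw [G_prod]
  simp_rw [prod_add_const]
  rw [Finset.prod_univ_sum]
  apply Finset.sum_congr rfl
  intro b _
  rw [Finset.prod_mul_distrib, map_prod]
  congr 1
  unfold ex
  rw [monomial_sum_one, map_prod]
  apply Finset.prod_congr rfl
  intro j _
  rw [rename_monomial, Finsupp.mapDomain_single, X_pow_eq_monomial]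

lemma Dxl_mul (α : List ℕ) (f g : Poly) :
    Dxl α (rename Sum.inl f * rename Sum.inr g)
      = rename Sum.inl (Dl α f) * rename Sum.inr g := by
  induction α generalizing f with
  | nil => rfl
  | cons i α ih =>
    simp only [Dxl, Dl]
    rw [← ih]
    congr 1
    unfold dx pd
    rw [mul_comm, dd_symm_mul (inl_ne i), mul_comm, rename_dd Sum.inl_injective (ne_succ i)]
    unfold sw
    rw [rename_rename]
    congr 1

lemma RR_expand (m : ℕ) (α : List ℕ) :
    RR m α = ∑ b ∈ Fintype.piFinset (fun j : Fin m => Finset.range (m - j + 1)),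
      C (lam α (∏ j : Fin m, E (m - j) (b j))) * monomial (ex b) 1 := by
  unfold RR
  rw [G_expand, Dxl_sum, map_sum]
  apply Finset.sum_congr rfl
  intro b _
  rw [Dxl_mul, map_mul, ev_rename_inl, ev_rename_inr]
  rfl

lemma coeff_RR (m : ℕ) (α : List ℕ) (b : Fin m → ℕ) (hb : ∀ j : Fin m, b j ≤ m - j) :
    coeff (ex b) (RR m α) = lam α (∏ j : Fin m, E (m - j) (b j)) := by
  rw [RR_expand, coeff_sum, Finset.sum_eq_single b]
  · rw [coeff_C_mul, coeff_monomial, if_pos rfl, mul_one]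
  · intro b' hb' hne
    rw [coeff_C_mul, coeff_monomial, if_neg, mul_zero]
    intro h
    apply hne
    funext j
    have h1 := DFunLike.congr_fun h (j : ℕ)
    rw [ex_apply, ex_apply] at h1
    rw [Fintype.mem_piFinset] at hb'
    have h2 := hb' j
    rw [Finset.mem_range] at h2
    have h3 := hb j
    have h4 := j.isLt
    omega
  · intro h
    exfalso
    apply h
    rw [Fintype.mem_piFinset]
    intro j
    rw [Finset.mem_range]
    have := hb j
    omega

lemma RR_nil (m : ℕ) : RR m [] = ∏ j ∈ Finset.range m, X j ^ (m - j) := by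
  unfold RR
  simp only [Dxl]
  rw [G_prod, map_prod, ← Fin.prod_univ_eq_prod_range (fun j => (X j : Poly) ^ (m - j)) m]
  apply Finset.prod_congr rfl
  intro j _
  rw [map_prod]
  have : ∀ i ∈ Finset.range (m - j), ev (X (Sum.inl i) + X (Sum.inr (j : ℕ))) = X (j : ℕ) := by
    intro i _
    rw [map_add, ev_inl, ev_inr, zero_add]
  rw [Finset.prod_congr rfl this, Finset.prod_const, Finset.card_range]

end Q160.Kernel
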