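import Pool.Agent.Q160.DD

/-!
# Iterated divided differences at the origin control the coefficients

For a polynomial `f` in `x_0, x_1, …`, if all the numbers `(∂_{i_k} ⋯ ∂_{i_1} f)(0)` lie in an
additive submonoid `D` of `ℤ`, then all coefficients of `f` lie in `D`.
-/

namespace Q160.Lam

open MvPolynomial Q160.DD

abbrev Poly := MvPolynomial ℕ ℤ

/-- the divided difference in `x_i, x_{i+1}` -/
noncomputable def pd (i : ℕ) (f : Poly) : Poly := dd i (i + 1) f

lemma ne_succ (i : ℕ) : i ≠ i + 1 := Nat.ne_of_lt (Nat.lt_succ_self i)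

/-- iterated divided differences; the first letter acts first -/
noncomputable def Dl : List ℕ → Poly → Poly
  | [], f => f
  | i :: α, f => Dl α (pd i f)

/-- `(∂_{i_k} ⋯ ∂_{i_1} f)(0)` -/
noncomputable def lam (α : List ℕ) (f : Poly) : ℤ := constantCoeff (Dl α f)

@[simp] lemma lam_nil (f : Poly) : lam [] f = constantCoeff f := rfl
@[simp] lemma lam_cons (i : ℕ) (α : List ℕ) (f : Poly) : lam (i :: α) f = lam α (pd i f) := rfl

lemma pd_add (i : ℕ) (f g : Poly) : pd i (f + g) = pd i f + pd i g := dd_add (ne_succ i) f g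
lemma pd_sub (i : ℕ) (f g : Poly) : pd i (f - g) = pd i f - pd i g := dd_sub (ne_succ i) f g
lemma pd_zero (i : ℕ) : pd i 0 = 0 := dd_zero (ne_succ i)
lemma pd_sum {ι : Type*} (i : ℕ) (s : Finset ι) (f : ι → Poly) :
    pd i (∑ x ∈ s, f x) = ∑ x ∈ s, pd i (f x) := dd_sum (ne_succ i) s f
lemma pd_C_mul (i : ℕ) (c : ℤ) (g : Poly) : pd i (C c * g) = C c * pd i g :=
  dd_C_mul (ne_succ i) c g
lemma pd_pd (i : ℕ) (f : Poly) : pd i (pd i f) = 0 := dd_dd (ne_succ i) f

lemma Dl_zero (α : List ℕ) : Dl α 0 = 0 := by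
  induction α with
  | nil => rfl
  | cons i α ih => simp only [Dl]; rw [pd_zero, ih]

lemma Dl_sub (α : List ℕ) (f g : Poly) : Dl α (f - g) = Dl α f - Dl α g := by
  induction α generalizing f g with
  | nil => rfl
  | cons i α ih => simp only [Dl]; rw [pd_sub, ih]

lemma Dl_C_mul (α : List ℕ) (c : ℤ) (g : Poly) : Dl α (C c * g) = C c * Dl α g := by
  induction α generalizing g with
  | nil => rfl
  | cons i α ih => simp only [Dl]; rw [pd_C_mul, ih]

lemma Dl_sum {ι : Type*} (α : List ℕ) (s : Finset ι) (f : ι → Poly) :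
    Dl α (∑ x ∈ s, f x) = ∑ x ∈ s, Dl α (f x) := by
  induction α generalizing f with
  | nil => rfl
  | cons i α ih => simp only [Dl]; rw [pd_sum, ih]

lemma lam_zero (α : List ℕ) : lam α 0 = 0 := by
  unfold lam; rw [Dl_zero, map_zero]

lemma lam_sub (α : List ℕ) (f g : Poly) : lam α (f - g) = lam α f - lam α g := by
  unfold lam; rw [Dl_sub, map_sub]

lemma lam_C_mul (α : List ℕ) (c : ℤ) (g : Poly) : lam α (C c * g) = c * lam α g := by
  unfold lam; rw [Dl_C_mul, map_mul, constantCoeff_C]

lemma lam_sum {ι : Type*} (α : List ℕ) (s : Finset ι) (f : ι → Poly) :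
    lam α (∑ x ∈ s, f x) = ∑ x ∈ s, lam α (f x) := by
  unfold lam; rw [Dl_sum, map_sum]

/-! ### The substitutions `R_i` -/

/-- substitution function of `R_i` -/
noncomputable def rf (i j : ℕ) : Poly := if j < i then X j else if j = i then 0 else X (j - 1)

/-- `R_i f = f(x_0, …, x_{i-1}, 0, x_i, x_{i+1}, …)` -/
noncomputable def rr (i : ℕ) : Poly →ₐ[ℤ] Poly := bind₁ (rf i)

lemma rr_X (i j : ℕ) : rr i (X j) = rf i j := by
  unfold rr; rw [bind₁_X_right]

lemma rr_sw (i : ℕ) (f : Poly) : rr i (sw i (i + 1) f) = rr (i + 1) f := by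
  have : (rr i).comp (sw i (i + 1)) = rr (i + 1) := by
    apply MvPolynomial.algHom_ext
    intro j
    rw [AlgHom.comp_apply, sw_X, rr_X, rr_X]
    unfold rf
    by_cases h1 : j = i
    · subst h1
      rw [Equiv.swap_apply_left]
      simp
    · by_cases h2 : j = i + 1
      · subst h2
        rw [Equiv.swap_apply_right]
        simp
      · rw [Equiv.swap_apply_of_ne_of_ne h1 h2]
        by_cases h3 : j < i
        · rw [if_pos h3, if_pos (by omega)]
        · rw [if_neg h3, if_neg h1, if_neg (by omega), if_neg h2]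
  exact DFunLike.congr_fun this f

/-- the key identity -/
lemma rr_succ (i : ℕ) (f : Poly) : rr (i + 1) f = rr i f + X i * rr i (pd i f) := by
  have h1 := congrArg (rr i) (dd_spec i (i + 1) f)
  rw [map_mul, map_sub, map_sub, rr_X, rr_X, rr_sw] at h1
  have h2 : rf i i = 0 := by unfold rf; simp
  have h3 : rf i (i + 1) = X i := by unfold rf; simp
  rw [h2, h3] at h1
  unfold pd
  linear_combination h1

lemma rr_telescope (M : ℕ) (f : Poly) :
    rr M f = rr 0 f + ∑ i ∈ Finset.range M, X i * rr i (pd i f) := by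
  induction M with
  | zero => simp
  | succ M ih => rw [rr_succ, ih, Finset.sum_range_succ]; ring

/-- `R_0` intertwines `∂_{i+1}` and `∂_i` -/
lemma pd_rr_zero (i : ℕ) (f : Poly) : pd i (rr 0 f) = rr 0 (pd (i + 1) f) := by
  apply dd_unique (ne_succ i)
  have h1 := congrArg (rr 0) (dd_spec (i + 1) (i + 1 + 1) f)
  rw [map_mul, map_sub, map_sub, rr_X, rr_X] at h1
  have h2 : rf 0 (i + 1) = X i := by unfold rf; simp
  have h3 : rf 0 (i + 1 + 1) = X (i + 1) := by unfold rf; simp
  rw [h2, h3] at h1
  unfold pd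
  rw [h1]
  congr 1
  have : (rr 0).comp (sw (i + 1) (i + 1 + 1)) = (sw i (i + 1)).comp (rr 0) := by
    apply MvPolynomial.algHom_ext
    intro j
    rw [AlgHom.comp_apply, AlgHom.comp_apply, sw_X, rr_X, rr_X]
    unfold rf
    rcases j with _ | j
    · rw [Equiv.swap_apply_of_ne_of_ne (by omega) (by omega)]
      simp
    · simp only [Nat.not_lt_zero, if_false, Nat.add_sub_cancel, Nat.add_one_ne_zero]
      rw [sw_X]
      by_cases h1 : j = i
      · subst h1
        rw [Equiv.swap_apply_left, Equiv.swap_apply_left]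
        simp
      · by_cases h2 : j = i + 1
        · subst h2
          rw [Equiv.swap_apply_right, Equiv.swap_apply_right]
          simp
        · rw [Equiv.swap_apply_of_ne_of_ne (by omega) (by omega),
            Equiv.swap_apply_of_ne_of_ne h1 h2]
          simp
  exact DFunLike.congr_fun this f

lemma Dl_rr_zero (α : List ℕ) (f : Poly) : Dl α (rr 0 f) = rr 0 (Dl (α.map Nat.succ) f) := by
  induction α generalizing f with
  | nil => rfl
  | cons i α ih => simp only [Dl, List.map_cons]; rw [pd_rr_zero, ih]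

lemma constantCoeff_rr_zero (f : Poly) : constantCoeff (rr 0 f) = constantCoeff f := by
  have : (constantCoeff : Poly →+* ℤ).comp ((rr 0 : Poly →ₐ[ℤ] Poly) : Poly →+* Poly)
      = constantCoeff := by
    apply MvPolynomial.ringHom_ext
    · intro c
      simp [rr]
    · intro j
      simp only [RingHom.comp_apply, RingHom.coe_coe, rr_X, constantCoeff_X]
      unfold rf
      split_ifs <;> simp
  exact DFunLike.congr_fun this f

lemma lam_rr_zero (α : List ℕ) (f : Poly) : lam α (rr 0 f) = lam (α.map Nat.succ) f := by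
  unfold lam
  rw [Dl_rr_zero, constantCoeff_rr_zero]

lemma rr_eq_self {M : ℕ} {f : Poly} (hf : ∀ j ∈ f.vars, j < M) : rr M f = f := by
  have h := MvPolynomial.hom_congr_vars (f₁ := ((rr M : Poly →ₐ[ℤ] Poly) : Poly →+* Poly))
    (f₂ := RingHom.id Poly) (p₁ := f) (p₂ := f) (by
      apply RingHom.ext
      intro c
      simp [rr]) (by
      intro i hi _
      simp only [RingHom.coe_coe, RingHom.id_apply, rr_X]
      unfold rf
      rw [if_pos (hf i hi)]) rfl
  simpa using h

lemma vars_rr_zero {M : ℕ} {f : Poly} (hf : ∀ j ∈ f.vars, j < M + 1) :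
    ∀ j ∈ (rr 0 f).vars, j < M := by
  intro j hj
  have h1 := vars_bind₁ (rf 0) f hj
  rw [Finset.mem_biUnion] at h1
  obtain ⟨i, hi, hij⟩ := h1
  have h2 := hf i hi
  unfold rf at hij
  rw [if_neg (Nat.not_lt_zero i)] at hij
  split_ifs at hij with h3
  · simp at hij
  · rw [vars_X, Finset.mem_singleton] at hij
    omega

/-! ### Coefficients in a submonoid -/

/-- all coefficients lie in `D` -/
def InD (D : AddSubmonoid ℤ) (f : Poly) : Prop := ∀ m, coeff m f ∈ D

lemma InD.add {D : AddSubmonoid ℤ} {f g : Poly} (hf : InD D f) (hg : InD D g) : InD D (f + g) := by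
  intro m; rw [coeff_add]; exact D.add_mem (hf m) (hg m)

lemma InD.zero (D : AddSubmonoid ℤ) : InD D 0 := by
  intro m; rw [coeff_zero]; exact D.zero_mem

lemma InD.sum {D : AddSubmonoid ℤ} {ι : Type*} {s : Finset ι} {f : ι → Poly}
    (hf : ∀ i ∈ s, InD D (f i)) : InD D (∑ i ∈ s, f i) := by
  intro m; rw [coeff_sum]; exact D.sum_mem (fun i hi => hf i hi m)

lemma InD.X_mul {D : AddSubmonoid ℤ} {f : Poly} (i : ℕ) (hf : InD D f) : InD D (X i * f) := by
  intro m
  rw [coeff_X_mul']
  split_ifs
  · exact hf _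
  · exact D.zero_mem

/-- zero or a monomial with coefficient one -/
def Mono (g : Poly) : Prop := g = 0 ∨ ∃ s, g = monomial s 1

lemma Mono.mul {f g : Poly} (hf : Mono f) (hg : Mono g) : Mono (f * g) := by
  rcases hf with rfl | ⟨s, rfl⟩
  · left; simp
  · rcases hg with rfl | ⟨t, rfl⟩
    · left; simp
    · right; exact ⟨s + t, by rw [monomial_mul, one_mul]⟩

lemma Mono.one : Mono 1 := Or.inr ⟨0, rfl⟩

lemma Mono.pow {f : Poly} (hf : Mono f) (k : ℕ) : Mono (f ^ k) := by
  induction k with
  | zero => rw [pow_zero]; exact Mono.one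
  | succ k ih => rw [pow_succ]; exact ih.mul hf

lemma Mono.prod {ι : Type*} {s : Finset ι} {f : ι → Poly} (hf : ∀ i ∈ s, Mono (f i)) :
    Mono (∏ i ∈ s, f i) := by
  classical
  induction s using Finset.induction_on with
  | empty => rw [Finset.prod_empty]; exact Mono.one
  | insert a s ha ih =>
    rw [Finset.prod_insert ha]
    exact (hf a (Finset.mem_insert_self _ _)).mul
      (ih (fun i hi => hf i (Finset.mem_insert_of_mem hi)))

lemma Mono.rf (i j : ℕ) : Mono (rf i j) := by
  unfold Q160.Lam.rf
  split_ifs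
  · exact Or.inr ⟨_, rfl⟩
  · exact Or.inl rfl
  · exact Or.inr ⟨_, rfl⟩

lemma Mono.inD {D : AddSubmonoid ℤ} {g : Poly} (hg : Mono g) {c : ℤ} (hc : c ∈ D) :
    InD D (C c * g) := by
  intro m
  rw [coeff_C_mul]
  rcases hg with rfl | ⟨s, rfl⟩
  · simp
  · rw [coeff_monomial]
    split_ifs
    · rwa [mul_one]
    · simp

lemma InD.rr {D : AddSubmonoid ℤ} {f : Poly} (i : ℕ) (hf : InD D f) : InD D (rr i f) := by
  have h1 : Q160.Lam.rr i f = ∑ m ∈ f.support, C (coeff m f) * m.prod (fun j k => rf i j ^ k) := by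
    conv_lhs => rw [f.as_sum]
    rw [map_sum]
    apply Finset.sum_congr rfl
    intro m _
    unfold Q160.Lam.rr
    rw [bind₁_monomial]
    rfl
  rw [h1]
  apply InD.sum
  intro m _
  exact (Mono.prod (fun j _ => (Mono.rf i j).pow _)).inD (hf m)

/-! ### Nilpotency -/

/-- words of length `n` kill `f` -/
def Nil (n : ℕ) (f : Poly) : Prop := ∀ α : List ℕ, α.length = n → Dl α f = 0

lemma totalDegree_pd (i : ℕ) (f : Poly) (h : pd i f ≠ 0) :
    (pd i f).totalDegree + 1 ≤ f.totalDegree := by
  have h1 := dd_spec i (i + 1) f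
  have h2 : (X i - X (i + 1) : Poly) ≠ 0 := X_sub_ne (ne_succ i)
  have h3 := totalDegree_mul_of_isDomain h2 h
  unfold pd at h3 h ⊢
  rw [h1] at h3
  have h4 : (X i - X (i + 1) : Poly).totalDegree = 1 := by
    have ha : (X i - X (i + 1) : Poly).IsHomogeneous 1 :=
      (isHomogeneous_X ℤ i).sub (isHomogeneous_X ℤ (i + 1))
    exact ha.totalDegree h2
  rw [h4] at h3
  have h5 : (f - sw i (i + 1) f).totalDegree ≤ f.totalDegree := by
    refine (totalDegree_sub f _).trans ?_
    apply max_le le_rfl
    exact totalDegree_rename_le _ _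
  omega

lemma nil_of_totalDegree (k : ℕ) : ∀ f : Poly, f.totalDegree < k → Nil k f := by
  induction k with
  | zero => intro f hf; omega
  | succ k ih =>
    intro f hf α hα
    rcases α with _ | ⟨i, α⟩
    · simp at hα
    · simp only [Dl]
      by_cases h : pd i f = 0
      · rw [h, Dl_zero]
      · have h1 := totalDegree_pd i f h
        exact ih _ (by omega) α (by simpa using hα)

lemma Nil.rr_zero {n : ℕ} {f : Poly} (h : Nil n f) : Nil n (rr 0 f) := by
  intro α hα
  rw [Dl_rr_zero, h _ (by simpa using hα), map_zero]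

/-- **Coefficient principle.** -/
theorem inD_of_lam (D : AddSubmonoid ℤ) (f : Poly) (hf : ∀ α, lam α f ∈ D) : InD D f := by
  have main : ∀ n : ℕ, ∀ M : ℕ, ∀ f : Poly, Nil n f → (∀ j ∈ f.vars, j < M) →
      (∀ α, lam α f ∈ D) → InD D f := by
    intro n
    induction n with
    | zero =>
      intro M f h _ _
      have : f = 0 := h [] rfl
      rw [this]
      exact InD.zero D
    | succ n ihn =>
      intro M
      induction M with
      | zero =>
        intro f _ hv hl
        have h1 : f.vars = ∅ := by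
          apply Finset.eq_empty_of_forall_notMem
          intro j hj
          exact absurd (hv j hj) (Nat.not_lt_zero _)
        obtain ⟨c, rfl⟩ : ∃ c, f = C c := ⟨_, vars_eq_empty_iff_eq_C.mp h1⟩
        have h2 := hl []
        rw [lam_nil, constantCoeff_C] at h2
        intro m
        rw [coeff_C]
        split_ifs
        · exact h2
        · exact D.zero_mem
      | succ M ihM =>
        intro f hn hv hl
        rw [← rr_eq_self hv, rr_telescope]
        apply InD.add
        · apply ihM _ hn.rr_zero (vars_rr_zero hv)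
          intro α
          rw [lam_rr_zero]
          exact hl _
        · apply InD.sum
          intro i _
          apply InD.X_mul
          apply InD.rr
          obtain ⟨M', hM'⟩ : ∃ M' : ℕ, ∀ j ∈ (pd i f).vars, j < M' := by
            refine ⟨(pd i f).vars.sup id + 1, fun j hj => ?_⟩
            have := Finset.le_sup (f := id) hj
            simp only [id] at this
            omega
          apply ihn M' (pd i f) _ hM'
          · intro α
            exact hl (i :: α)
          · intro α hα
            exact hn (i :: α) (by simpa using hα)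
  obtain ⟨M, hM⟩ : ∃ M : ℕ, ∀ j ∈ f.vars, j < M := by
    refine ⟨f.vars.sup id + 1, fun j hj => ?_⟩
    have := Finset.le_sup (f := id) hj
    simp only [id] at this
    omega
  exact main (f.totalDegree + 1) M f (nil_of_totalDegree _ f (Nat.lt_succ_self _)) hM hf

/-- a polynomial is determined by the numbers `lam α f` -/
theorem eq_zero_of_lam (f : Poly) (hf : ∀ α, lam α f = 0) : f = 0 := by
  have h := inD_of_lam ⊥ f (fun α => by rw [hf α]; exact AddSubmonoid.zero_mem _)
  ext m
  have := h m
  rw [AddSubmonoid.mem_bot] at this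
  rw [this, coeff_zero]

end Q160.Lam
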