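import Pool.Agent.Q61.MH.Stm

/-!
Job MH-OFF2.
-/

set_option autoImplicit false

open Real

namespace Pool.Agent.Q160.MH

open Pool.Agent.Q61.MH

lemma facts {y k : ℕ} (h : y + 2 ≤ k) (h3 : 3 * ((k : ℝ) - y) < 2 * (y : ℝ) + 1) :
    2 ≤ (k : ℝ) - y ∧ 5 ≤ k ∧ 5 * ((k : ℝ) - y) < 2 * ((k : ℝ) + 1 / 2) := by
  have h1 : (y : ℝ) + 2 ≤ k := by exact_mod_cast h
  have h2 : 2 ≤ (k : ℝ) - y := by linarith
  have h4 : (5 : ℝ) < 2 * y := by linarith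
  have h5 : 5 < 2 * y := by exact_mod_cast h4
  exact ⟨h2, by omega, by linarith⟩

lemma base_pos {r : ℝ} (hr : 0 < r) : 0 < base r := by
  unfold base
  positivity

lemma conclude (h2 : S_red) {r C D : ℝ} {y k : ℕ} (hr : 1 ≤ r) (hy : y < k) (hD : 0 < D)
    (hS : ((k : ℝ) + 1 / 2) ^ (r + 1) / (r + 1) * D ≤ S k r)
    (hv : ((k : ℝ) - y) * (r + 1) / (k + 1 / 2) *
      Real.exp (1 - ((k : ℝ) - y) * (r + 1) / (k + 1 / 2)) ≤ C * D) :
    G y k r ≤ C * base r := by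
  have h := h2 r D y k hr hy hD hS
  refine h.trans ?_
  rw [mul_comm C]
  apply mul_le_mul_of_nonneg_left _ (base_pos (by linarith)).le
  rw [div_le_iff₀ hD]
  exact hv

lemma pow_split {N r : ℝ} (hN : 0 < N) : N ^ (r + 1) = N ^ (r - 1) * N ^ 2 := by
  rw [← Real.rpow_natCast N 2, ← Real.rpow_add hN]
  congr 1
  push_cast
  ring

lemma num_bound {r : ℝ} (h1 : 3 / 2 ≤ r) : 70 * (1 + (r - 3 / 2) * (9 / 11)) ≤ (11 / 2 : ℝ) ^ (r + 1) := by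
  have e1 : (11 / 2 : ℝ) ^ (r + 1) = (11 / 2 : ℝ) ^ (5 / 2 : ℝ) * (11 / 2 : ℝ) ^ (r - 3 / 2) := by
    rw [← Real.rpow_add (by norm_num)]
    congr 1
    ring
  have e2 : (70 : ℝ) ≤ (11 / 2 : ℝ) ^ (5 / 2 : ℝ) := by
    have hx : 0 ≤ (11 / 2 : ℝ) ^ (5 / 2 : ℝ) := by positivity
    have hsq : ((11 / 2 : ℝ) ^ (5 / 2 : ℝ)) ^ 2 = (11 / 2 : ℝ) ^ 5 := by
      rw [← Real.rpow_natCast, ← Real.rpow_mul (by norm_num), ← Real.rpow_natCast]
      norm_num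
    by_contra hcon
    push Not at hcon
    have : ((11 / 2 : ℝ) ^ (5 / 2 : ℝ)) ^ 2 < 70 ^ 2 := by
      apply pow_lt_pow_left₀ hcon hx (by norm_num)
    rw [hsq] at this
    norm_num at this
  have e3 : 1 + (r - 3 / 2) * (9 / 11) ≤ (11 / 2 : ℝ) ^ (r - 3 / 2) := by
    rw [Real.rpow_def_of_pos (by norm_num)]
    have h2 := Real.add_one_le_exp (Real.log (11 / 2) * (r - 3 / 2))
    have h3 := Real.one_sub_inv_le_log_of_pos (show (0 : ℝ) < 11 / 2 by norm_num)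
    have h4 : (9 / 11 : ℝ) ≤ Real.log (11 / 2) := by
      refine le_trans (by norm_num) h3
    nlinarith
  rw [e1]
  have h5 : 0 ≤ 1 + (r - 3 / 2) * (9 / 11) := by nlinarith
  exact mul_le_mul e2 e3 h5 (by positivity)

theorem off2 (h1 : S_sum12) (h2 : S_red) (h3 : S_var) : S_off2 := by
  intro r y k hr1 hr2 hyk hlt
  obtain ⟨hm, hk5, hN5⟩ := facts hyk hlt
  have hk5' : (5 : ℝ) ≤ k := by exact_mod_cast hk5
  have hS := h1 r k (by linarith) hr2 (by omega)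
  have hrp : 0 < r + 1 := by linarith
  obtain ⟨m, hmdef⟩ : ∃ m : ℝ, m = (k : ℝ) - y := ⟨_, rfl⟩
  obtain ⟨N, hNdef⟩ : ∃ N : ℝ, N = (k : ℝ) + 1 / 2 := ⟨_, rfl⟩
  have hN : 11 / 2 ≤ N := by rw [hNdef]; linarith
  have hN0 : 0 < N := by linarith
  obtain ⟨t, ht⟩ : ∃ t : ℝ, t = m * (r + 1) / N := ⟨_, rfl⟩
  have ht0 : 0 ≤ t := by
    rw [ht, hmdef]
    positivity
  have ht1 : t ≤ 6 / 5 := by
    rw [ht, div_le_iff₀ hN0]
    have h5 : 5 * m ≤ 2 * N := by rw [hmdef, hNdef]; exact hN5.le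
    nlinarith
  have htN : t ^ 2 * N ^ 2 = m ^ 2 * (r + 1) ^ 2 := by
    rw [ht]
    field_simp
  have hD : 0 < 1 - t ^ 2 / 144 - 0.003 := by nlinarith
  have hA : 0 < N ^ (r - 1) := Real.rpow_pos_of_pos hN0 _
  have hm2 : 2 ≤ m := by rw [hmdef]; exact hm
  refine conclude h2 (C := 1.0102) (D := 1 - t ^ 2 / 144 - 0.003) (by linarith) (by omega) hD ?_ ?_
  · refine le_trans ?_ hS
    rw [← hNdef, pow_split hN0]
    have hB : 1 / 12 ≤ 0.003 * (N ^ (r - 1) * N ^ 2 / (r + 1)) := by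
      rw [← pow_split hN0]
      have h6 := num_bound hr1
      have h7 : (11 / 2 : ℝ) ^ (r + 1) ≤ N ^ (r + 1) :=
        Real.rpow_le_rpow (by norm_num) hN (by linarith)
      have h8 : (1 / 12) * (r + 1) ≤ 0.003 * N ^ (r + 1) := by nlinarith
      calc (1 / 12 : ℝ) = (1 / 12) * (r + 1) / (r + 1) := by field_simp
        _ ≤ 0.003 * N ^ (r + 1) / (r + 1) := div_le_div_of_nonneg_right h8 hrp.le
        _ = 0.003 * (N ^ (r + 1) / (r + 1)) := by ring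
    have hC : N ^ (r - 1) * N ^ 2 / (r + 1) * (t ^ 2 / 144) = N ^ (r - 1) * (m ^ 2 * (r + 1) / 144) := by
      have : N ^ (r - 1) * N ^ 2 / (r + 1) * (t ^ 2 / 144) =
          N ^ (r - 1) * (t ^ 2 * N ^ 2) / (r + 1) / 144 := by ring
      rw [this, htN]
      field_simp
    have hE : r * N ^ (r - 1) / 24 ≤ N ^ (r - 1) * (m ^ 2 * (r + 1) / 144) := by
      have h9 : r / 24 ≤ m ^ 2 * (r + 1) / 144 := by
        have : 4 ≤ m ^ 2 := by nlinarith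
        nlinarith
      calc r * N ^ (r - 1) / 24 = N ^ (r - 1) * (r / 24) := by ring
        _ ≤ _ := mul_le_mul_of_nonneg_left h9 hA.le
    have hF : N ^ (r - 1) * N ^ 2 / (r + 1) * (1 - t ^ 2 / 144 - 0.003) =
        N ^ (r - 1) * N ^ 2 / (r + 1) - N ^ (r - 1) * N ^ 2 / (r + 1) * (t ^ 2 / 144) -
          0.003 * (N ^ (r - 1) * N ^ 2 / (r + 1)) := by ring
    rw [hF, hC]
    linarith
  · rw [← hNdef, ← hmdef, ← ht]
    exact h3.1 t ht0 ht1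

end Pool.Agent.Q160.MH
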