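import Pool.Agent.Q160.MH_OFF2

/-!
Job MH-OFF3.
-/

set_option autoImplicit false

open Real

namespace Pool.Agent.Q160.MH

open Pool.Agent.Q61.MH

lemma two_pow_ge {p : ℝ} (hp : 0 ≤ p) :
    1 + 0.6931 * p + (0.6931 * p) ^ 2 / 2 + (0.6931 * p) ^ 3 / 6 + (0.6931 * p) ^ 4 / 24 ≤
      (2 : ℝ) ^ p := by
  have h1 : (0 : ℝ) ≤ 0.6931 * p := by positivity
  have h2 := Real.sum_le_exp_of_nonneg h1 5
  have h3 : (0.6931 : ℝ) ≤ Real.log 2 := by
    have := Real.log_two_gt_d9
    linarith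
  have h4 : Real.exp (0.6931 * p) ≤ (2 : ℝ) ^ p := by
    rw [Real.rpow_def_of_pos (by norm_num)]
    exact Real.exp_le_exp.mpr (mul_le_mul_of_nonneg_right h3 hp)
  refine le_trans (le_of_eq ?_) (h2.trans h4)
  simp [Finset.sum_range_succ, Nat.factorial]

lemma phi_gen {r : ℝ} (h2 : 2 ≤ r) (h3 : r ≤ 3) : r * (r - 1) ≤ 0.765 * (r + 1) * (2 : ℝ) ^ (r - 2) := by
  obtain ⟨p, hp⟩ : ∃ p, p = r - 2 := ⟨_, rfl⟩
  have hr : r = p + 2 := by linarith
  subst hr
  have hp0 : 0 ≤ p := by linarith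
  have hp1 : p ≤ 1 := by linarith
  have h := two_pow_ge hp0
  have e : p + 2 - 2 = p := by ring
  rw [e]
  have h4 : 0.765 * (p + 2 + 1) * (1 + 0.6931 * p + (0.6931 * p) ^ 2 / 2 + (0.6931 * p) ^ 3 / 6 +
      (0.6931 * p) ^ 4 / 24) ≤ 0.765 * (p + 2 + 1) * (2 : ℝ) ^ p :=
    mul_le_mul_of_nonneg_left h (by positivity)
  refine le_trans ?_ h4
  have h5 : 0 ≤ p * (p - 7 / 10) ^ 2 := by positivity
  have h6 : 0 ≤ p ^ 2 * (p - 7 / 10) ^ 2 := by positivity
  have h7 : 0 ≤ p ^ 3 * (p - 7 / 10) ^ 2 := by positivity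
  nlinarith [sq_nonneg (p - 7 / 10)]

lemma phi_small {r : ℝ} (h2 : 2 ≤ r) (h3 : r ≤ 21 / 10) :
    r * (r - 1) ≤ 0.7 * (r + 1) * (2 : ℝ) ^ (r - 2) := by
  obtain ⟨p, hp⟩ : ∃ p, p = r - 2 := ⟨_, rfl⟩
  have hr : r = p + 2 := by linarith
  subst hr
  have hp0 : 0 ≤ p := by linarith
  have hp1 : p ≤ 1 / 10 := by linarith
  have h := two_pow_ge hp0
  have e : p + 2 - 2 = p := by ring
  rw [e]
  have h8 : 1 + 0.6931 * p ≤ (2 : ℝ) ^ p := by
    refine le_trans ?_ h
    have h9 : 0 ≤ (0.6931 * p) ^ 2 / 2 + (0.6931 * p) ^ 3 / 6 + (0.6931 * p) ^ 4 / 24 := by positivity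
    linarith
  have h4 : 0.7 * (p + 2 + 1) * (1 + 0.6931 * p) ≤ 0.7 * (p + 2 + 1) * (2 : ℝ) ^ p :=
    mul_le_mul_of_nonneg_left h8 (by positivity)
  refine le_trans ?_ h4
  nlinarith

lemma half_pow {N r : ℝ} (hN : 11 / 2 ≤ N) (h2 : 2 ≤ r) :
    (1 / 2 : ℝ) ^ (r + 1) ≤ 0.00076 * N ^ (r + 1) := by
  have hN0 : 0 < N := by linarith
  have e1 : (1 / 2 : ℝ) = 1 / (2 * N) * N := by field_simp
  have h3 : (1 / 2 : ℝ) ^ (r + 1) = (1 / (2 * N)) ^ (r + 1) * N ^ (r + 1) := by
    conv_lhs => rw [e1]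
    rw [Real.mul_rpow (by positivity) hN0.le]
  rw [h3]
  apply mul_le_mul_of_nonneg_right _ (Real.rpow_nonneg hN0.le _)
  have h4 : 1 / (2 * N) ≤ 1 / 11 := by
    apply one_div_le_one_div_of_le (by norm_num)
    linarith
  calc (1 / (2 * N)) ^ (r + 1) ≤ (1 / 11 : ℝ) ^ (r + 1) :=
        Real.rpow_le_rpow (by positivity) h4 (by linarith)
    _ ≤ (1 / 11 : ℝ) ^ (3 : ℝ) :=
        Real.rpow_le_rpow_of_exponent_ge (by norm_num) (by norm_num) (by linarith)
    _ ≤ 0.00076 := by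
        have : ((3 : ℝ)) = ((3 : ℕ) : ℝ) := by norm_num
        rw [this, Real.rpow_natCast]
        norm_num

lemma low3 {r c W m N s : ℝ} (hr2 : 2 ≤ r) (hN : 11 / 2 ≤ N)
    (hS : (N ^ (r + 1) - (1 / 2) ^ (r + 1)) / (r + 1) -
      r * (r - 1) / 24 * (N ^ (r - 1) / 2 ^ (r - 2)) ≤ s)
    (hc0 : 0 ≤ c) (hc : r * (r - 1) ≤ c * (r + 1) * (2 : ℝ) ^ (r - 2)) (hW : 0 < W)
    (hm : W ≤ 24 * m ^ 2) :
    N ^ (r + 1) / (r + 1) * (1 - c * (m * (r + 1) / N) ^ 2 / W - 0.00076) ≤ s := by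
  have hN0 : 0 < N := by linarith
  have hrp : 0 < r + 1 := by linarith
  have hA : 0 < N ^ (r - 1) := Real.rpow_pos_of_pos hN0 _
  have h2p : 0 < (2 : ℝ) ^ (r - 2) := Real.rpow_pos_of_pos (by norm_num) _
  refine le_trans ?_ hS
  have e1 : N ^ (r + 1) / (r + 1) * (c * (m * (r + 1) / N) ^ 2 / W) =
      N ^ (r - 1) * (c * (r + 1) * m ^ 2 / W) := by
    rw [pow_split hN0]
    field_simp
  have h1 : c * (r + 1) / 24 ≤ c * (r + 1) * m ^ 2 / W := by
    rw [div_le_div_iff₀ (by norm_num) hW]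
    have : 0 ≤ c * (r + 1) := by positivity
    nlinarith
  have h3 : r * (r - 1) / 24 * (N ^ (r - 1) / 2 ^ (r - 2)) ≤ N ^ (r - 1) * (c * (r + 1) / 24) := by
    have e2 : r * (r - 1) / 24 * (N ^ (r - 1) / 2 ^ (r - 2)) =
        N ^ (r - 1) * (r * (r - 1) / 2 ^ (r - 2) / 24) := by ring
    rw [e2]
    apply mul_le_mul_of_nonneg_left _ hA.le
    apply div_le_div_of_nonneg_right _ (by norm_num)
    rw [div_le_iff₀ h2p]
    exact hc
  have h4 : N ^ (r - 1) * (c * (r + 1) / 24) ≤ N ^ (r - 1) * (c * (r + 1) * m ^ 2 / W) :=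
    mul_le_mul_of_nonneg_left h1 hA.le
  have h5 : (1 / 2 : ℝ) ^ (r + 1) / (r + 1) ≤ 0.00076 * (N ^ (r + 1) / (r + 1)) := by
    have := div_le_div_of_nonneg_right (half_pow hN hr2) hrp.le
    refine this.trans (le_of_eq ?_)
    ring
  have e3 : N ^ (r + 1) / (r + 1) * (1 - c * (m * (r + 1) / N) ^ 2 / W - 0.00076) =
      N ^ (r + 1) / (r + 1) - N ^ (r + 1) / (r + 1) * (c * (m * (r + 1) / N) ^ 2 / W) -
        0.00076 * (N ^ (r + 1) / (r + 1)) := by ring
  rw [e3, e1, sub_div]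
  linarith

theorem off3 (h1 : S_sum23) (h2 : S_red) (h3 : S_var) : S_off3 := by
  intro r y k hr2 hr3 hyk hlt
  obtain ⟨hm, hk5, hN5⟩ := facts hyk hlt
  have hk5' : (5 : ℝ) ≤ k := by exact_mod_cast hk5
  have hS := h1 r k hr2 hr3 (by omega)
  obtain ⟨m, hmdef⟩ : ∃ m : ℝ, m = (k : ℝ) - y := ⟨_, rfl⟩
  obtain ⟨N, hNdef⟩ : ∃ N : ℝ, N = (k : ℝ) + 1 / 2 := ⟨_, rfl⟩
  have hN : 11 / 2 ≤ N := by rw [hNdef]; linarith
  have hN0 : 0 < N := by linarith
  obtain ⟨t, ht⟩ : ∃ t : ℝ, t = m * (r + 1) / N := ⟨_, rfl⟩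
  have hm2 : 2 ≤ m := by rw [hmdef]; exact hm
  have ht0 : 0 ≤ t := by
    rw [ht]
    positivity
  have h5 : 5 * m ≤ 2 * N := by rw [hmdef, hNdef]; exact hN5.le
  have ht1 : t ≤ 8 / 5 := by
    rw [ht, div_le_iff₀ hN0]
    nlinarith
  rw [← hNdef] at hS
  constructor
  · intro hr21
    by_cases hm3 : 3 ≤ m
    · -- `m ≥ 3`
      have hD : 0 < 1 - 0.7 * t ^ 2 / 216 - 0.00076 := by nlinarith
      refine conclude h2 (C := 1.0083) (D := 1 - 0.7 * t ^ 2 / 216 - 0.00076) (by linarith)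
        (by omega) hD ?_ ?_
      · rw [← hNdef, ht]
        exact low3 hr2 hN hS (by norm_num) (phi_small hr2 hr21) (by norm_num) (by nlinarith)
      · rw [← hNdef, ← hmdef, ← ht]
        exact h3.2.2.1 t ht0 ht1
    · -- `m = 2`
      have hm4 : m = 2 := by
        have h6 : (k : ℝ) < y + 3 := by rw [hmdef] at hm3; push Not at hm3; linarith
        have h7 : k < y + 3 := by exact_mod_cast h6
        have h8 : k = y + 2 := by omega
        rw [hmdef, h8]
        push_cast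
        ring
      have hDle : ∀ b : ℝ, 0 ≤ b → t ≤ b → 1 - 0.7 * b ^ 2 / 96 - 0.00076 ≤
          1 - 0.7 * t ^ 2 / 96 - 0.00076 := by
        intro b hb htb
        have : t ^ 2 ≤ b ^ 2 := pow_le_pow_left₀ ht0 htb 2
        linarith
      have hD : 0 < 1 - 0.7 * t ^ 2 / 96 - 0.00076 := by nlinarith
      refine conclude h2 (C := 1.0083) (D := 1 - 0.7 * t ^ 2 / 96 - 0.00076) (by linarith)
        (by omega) hD ?_ ?_
      · rw [← hNdef, ht]
        exact low3 hr2 hN hS (by norm_num) (phi_small hr2 hr21) (by norm_num) (by nlinarith)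
      · rw [← hNdef, ← hmdef, ← ht]
        by_cases hk : k = 5
        · -- `k = 5`
          have hNv : N = 11 / 2 := by rw [hNdef, hk]; norm_num
          have htv : t = 4 * (r + 1) / 11 := by rw [ht, hm4, hNv]; ring
          obtain ⟨d, hd⟩ : ∃ d : ℝ, d = t - 1 := ⟨_, rfl⟩
          have htd : t = 1 + d := by linarith
          have hd1 : 1 / 11 ≤ d := by rw [hd, htv]; linarith
          have hd2 : d ≤ 7 / 55 := by rw [hd, htv]; linarith
          have h9 := hDle (62 / 55) (by norm_num) (by linarith)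
          have h10 : 0.9899 ≤ 1 - 0.7 * t ^ 2 / 96 - 0.00076 := le_trans (by norm_num) h9
          have h11 := Real.quadratic_le_exp_of_nonneg (show 0 ≤ d by linarith)
          have h12 : t ≤ 1.0083 * (1 - 0.7 * t ^ 2 / 96 - 0.00076) * Real.exp d := by
            have h13 : 1.0083 * 0.9899 * (1 + d + d ^ 2 / 2) ≤
                1.0083 * (1 - 0.7 * t ^ 2 / 96 - 0.00076) * Real.exp d := by
              apply mul_le_mul _ h11 (by positivity) (by positivity)
              linarith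
            refine le_trans ?_ h13
            rw [htd]
            nlinarith
          have h14 : Real.exp (1 - t) = (Real.exp d)⁻¹ := by
            rw [← Real.exp_neg]
            congr 1
            linarith
          rw [h14, ← div_eq_mul_inv, div_le_iff₀ (Real.exp_pos d)]
          exact h12
        · -- `k ≥ 6`
          have hk6 : 6 ≤ k := by omega
          have hk6' : (6 : ℝ) ≤ k := by exact_mod_cast hk6
          have hN6 : 13 / 2 ≤ N := by rw [hNdef]; linarith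
          have htc : t ≤ 0.954 := by
            rw [ht, div_le_iff₀ hN0, hm4]
            nlinarith
          have h9 := hDle 0.954 (by norm_num) htc
          have h10 : 0.9926 ≤ 1 - 0.7 * t ^ 2 / 96 - 0.00076 := le_trans (by norm_num) h9
          have h11 : t * Real.exp (0.954 - t) ≤ 0.954 := by
            have h12 := Real.add_one_le_exp (t - 0.954)
            have h13 : Real.exp (0.954 - t) = (Real.exp (t - 0.954))⁻¹ := by
              rw [← Real.exp_neg]
              congr 1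
              ring
            rw [h13, ← div_eq_mul_inv, div_le_iff₀ (Real.exp_pos _)]
            nlinarith
          have h14 : Real.exp 0.046 ≤ 1.048116 := by
            have h15 := Real.abs_exp_sub_one_sub_id_le (x := 0.046) (by rw [abs_of_pos] <;> norm_num)
            have h16 := (abs_le.mp h15).2
            norm_num at h16 ⊢
            linarith
          have h17 : t * Real.exp (1 - t) = t * Real.exp (0.954 - t) * Real.exp 0.046 := by
            rw [mul_assoc, ← Real.exp_add]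
            congr 2
            ring
          rw [h17]
          calc t * Real.exp (0.954 - t) * Real.exp 0.046 ≤ 0.954 * 1.048116 := by
                apply mul_le_mul h11 h14 (Real.exp_pos _).le (by norm_num)
            _ ≤ 1.0083 * 0.9926 := by norm_num
            _ ≤ _ := mul_le_mul_of_nonneg_left h10 (by norm_num)
  · have hD : 0 < 1 - 0.765 * t ^ 2 / 96 - 0.00076 := by nlinarith
    refine conclude h2 (C := 1.009) (D := 1 - 0.765 * t ^ 2 / 96 - 0.00076) (by linarith)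
      (by omega) hD ?_ ?_
    · rw [← hNdef, ht]
      exact low3 hr2 hN hS (by norm_num) (phi_gen hr2 hr3) (by norm_num) (by nlinarith)
    · rw [← hNdef, ← hmdef, ← ht]
      exact h3.2.1 t ht0 ht1

end Pool.Agent.Q160.MH
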