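import Mathlib
import Pool.Agent.Q82.QD.Stm

/-!
Job QD-BT: the mass of `B`.
-/

set_option autoImplicit false

open MeasureTheory Filter Topology Real Set
open Pool.Agent.Q82.QC (E)

namespace Pool.Agent.Q82.QD

/-- the density of the profile -/
private noncomputable def bt_phi (F : ℝ → ℝ) (y : E) : ℝ := 6 * Real.exp (4 * F (‖y‖ ^ 2))

private theorem bt_B (F : ℝ → ℝ) (N : ℝ) (x : E) :
    B F N x = (N ^ 5) ^ 4 * bt_phi F ((N ^ 5) • (x - x0)) := by
  unfold B bt_phi
  rw [norm_smul, mul_pow, Real.norm_eq_abs, sq_abs]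

private theorem bt_scale (g : E → ℝ) {L : ℝ} (hL : 0 < L) :
    ∫ x : E, L ^ 4 * g (L • (x - x0)) = ∫ x : E, g x := by
  rw [integral_const_mul, integral_sub_right_eq_self (fun x : E => g (L • x)) x0,
    Measure.integral_comp_smul, finrank_euclideanSpace_fin, smul_eq_mul, ← mul_assoc,
    abs_of_pos (by positivity), mul_inv_cancel₀ (by positivity), one_mul]

private theorem bt_tail {φ : E → ℝ} (hφ : Integrable φ) :
    Tendsto (fun R : ℝ => ∫ y, ((Metric.ball (0 : E) R)ᶜ).indicator φ y) atTop (𝓝 0) := by
  have h := tendsto_integral_filter_of_dominated_convergence (μ := volume) (l := (atTop : Filter ℝ))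
    (F := fun R : ℝ => ((Metric.ball (0 : E) R)ᶜ).indicator φ) (f := fun _ => (0 : ℝ))
    (fun y => ‖φ y‖) ?_ ?_ hφ.norm ?_
  · simpa using h
  · exact Eventually.of_forall fun R => hφ.aestronglyMeasurable.indicator Metric.isOpen_ball.measurableSet.compl
  · exact Eventually.of_forall fun R => Eventually.of_forall fun y => norm_indicator_le_norm_self _ _
  · refine Eventually.of_forall fun y => ?_
    apply tendsto_const_nhds.congr'
    filter_upwards [eventually_gt_atTop ‖y‖] with R hR
    rw [Set.indicator_of_notMem]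
    rw [Set.mem_compl_iff, not_not, mem_ball_zero_iff]
    exact hR

theorem bt (h1 : S_MM) : S_BT := by
  intro F hF
  have hφ : Integrable (bt_phi F) := (h1 F hF).1
  have hL : ∀ {N : ℝ}, 0 < N → 0 < N ^ 5 := fun h => by positivity
  constructor
  · intro N hN
    have hfun : B F N = fun x => (N ^ 5) ^ 4 * bt_phi F ((N ^ 5) • (x - x0)) := funext (bt_B F N)
    constructor
    · rw [hfun]
      apply Integrable.const_mul
      exact (hφ.comp_smul (hL hN).ne').comp_sub_right x0
    · rw [hfun]
      exact bt_scale (bt_phi F) (hL hN)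
  · intro r hr
    have hlim : Tendsto (fun N : ℝ => N ^ 5 * r) atTop atTop :=
      (tendsto_pow_atTop (by norm_num)).atTop_mul_const hr
    have h := (bt_tail hφ).comp hlim
    refine h.congr' ?_
    filter_upwards [eventually_gt_atTop 0] with N hN
    have h0 := hL hN
    rw [← integral_indicator Metric.isOpen_ball.measurableSet.compl]
    have h2 : ((Metric.ball x0 r)ᶜ).indicator (B F N) = fun x =>
        (N ^ 5) ^ 4 * ((Metric.ball (0 : E) (N ^ 5 * r))ᶜ).indicator (bt_phi F) ((N ^ 5) • (x - x0)) := by
      funext x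
      by_cases hx : x ∈ (Metric.ball x0 r)ᶜ
      · have hx' : (N ^ 5) • (x - x0) ∈ (Metric.ball (0 : E) (N ^ 5 * r))ᶜ := by
          rw [Set.mem_compl_iff, mem_ball_zero_iff, norm_smul, Real.norm_of_nonneg h0.le]
          rw [Set.mem_compl_iff, mem_ball_iff_norm] at hx
          intro h3
          exact hx (lt_of_mul_lt_mul_left h3 h0.le)
        rw [Set.indicator_of_mem hx, Set.indicator_of_mem hx', bt_B]
      · have hx' : (N ^ 5) • (x - x0) ∉ (Metric.ball (0 : E) (N ^ 5 * r))ᶜ := by
          rw [Set.mem_compl_iff, not_not, mem_ball_zero_iff, norm_smul, Real.norm_of_nonneg h0.le]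
          rw [Set.mem_compl_iff, not_not, mem_ball_iff_norm] at hx
          exact mul_lt_mul_of_pos_left hx h0
        rw [Set.indicator_of_notMem hx, Set.indicator_of_notMem hx', mul_zero]
    rw [h2]
    exact (bt_scale _ h0).symm

end Pool.Agent.Q82.QD
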