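import Mathlib
import Pool.Agent.H684R3.Smo.Done

set_option autoImplicit false

/-!
# The Skolem Problem in thin families: uniform form of the counting theorem, local part
-/

namespace Pool.Agent.Q160.SK

open Pool.Agent.H884R2.Sko Pool.Agent.H692R2.USS Pool.Agent.H684R3.Smo Polynomial Filter Finset

/-- the counting theorem `T5` of the starting library, uniformly in the sets `G` -/
theorem t5u (ι : Type) [Fintype ι] [DecidableEq ι] (P : ℕ → Prop) (κ θ A : ℝ) (hκ : 0 < κ) (hθ : 0 < θ)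
    (hA : 0 < A) (hAθ : 1 < A * θ)
    (hN : ∃ y₀ : ℕ, ∀ y : ℕ, y₀ ≤ y → (y : ℝ) ^ θ ≤ (Nat.card {p : ℕ // P p ∧ p ≤ y} : ℝ)) :
    ∃ δ : ℝ, 0 < δ ∧ ∃ H₀ : ℕ, ∀ G : ∀ p : ℕ, Set (ι → ZMod p),
      (∀ p, P p → p.Prime ∧ κ * (p : ℝ) ^ (Fintype.card ι) ≤ (Nat.card (G p) : ℝ)) →
      ∀ H : ℕ, H₀ ≤ H → ∀ b : ι → ℤ,
      (Nat.card {v : ι → ℤ // v ∈ bx b H ∧ ∀ p, P p → (p : ℝ) ≤ Real.log H ^ A →
        (fun i => (v i : ZMod p)) ∉ G p} : ℝ) ≤
        (2 * (H : ℝ) + 1) ^ (Fintype.card ι) * (H : ℝ) ^ (-δ) := by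
  have h4 : T4 := t4 (t3 t1 t2)
  obtain ⟨y₀, hy₀⟩ := hN
  set ε : ℝ := (A * θ - 1) / 2 with hε
  have hε0 : 0 < ε := by rw [hε]; linarith
  set η : ℝ := 1 / (16 * A) with hη
  have hη0 : 0 < η := by positivity
  set δ : ℝ := min (ε * η / 8) (1 / 2) with hδ
  have hδ0 : 0 < δ := lt_min (by positivity) (by norm_num)
  have hlogH : Tendsto (fun H : ℕ => Real.log (H : ℝ)) atTop atTop :=
    Real.tendsto_log_atTop.comp tendsto_natCast_atTop_atTop
  have hev := hlogH.eventually (t5_ev y₀ κ θ A ε η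
    ((Fintype.card ι : ℝ) * 2 ^ (Fintype.card ι) * 2) hA hε0 hη0)
  obtain ⟨H₀, hH₀⟩ := eventually_atTop.1 hev
  refine ⟨δ, hδ0, H₀, fun G hP H hH b => ?_⟩
  obtain ⟨c1, c2, c3, c4, c5, c6, c7, c8, c9⟩ := hH₀ H hH
  have ht0 : 0 < Real.log (H : ℝ) := lt_of_lt_of_le (Real.exp_pos 1) c1
  have hHpos : (0 : ℝ) < H := by
    rcases Nat.eq_zero_or_pos H with h | h
    · subst h; simp at ht0
    · exact_mod_cast h
  obtain ⟨m, K, y, hyt, hmK, hK, p1, p2, p3⟩ := t5_param y₀ κ θ A ε η δ (Real.log H)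
    (fun y => Nat.card {p : ℕ // P p ∧ p ≤ y}) hκ hθ hA hε0 (by rw [hε]; ring) hη
    (min_le_left _ _) hδ0 hy₀ c1 c2 c3 c4 c5 c6 c7 c8
  have hfin : Finite {p : ℕ // P p ∧ p ≤ y} :=
    (Set.Finite.subset (Set.finite_le_nat y) (fun p hp => hp.2) :
      ({p : ℕ | P p ∧ p ≤ y}).Finite).to_subtype
  obtain ⟨f⟩ : Nonempty (Fin m × Fin K ↪ {p : ℕ // P p ∧ p ≤ y}) := by
    have := Fintype.ofFinite {p : ℕ // P p ∧ p ≤ y}
    refine Function.Embedding.nonempty_of_card_le ?_
    rw [Fintype.card_prod, Fintype.card_fin, Fintype.card_fin, ← Nat.card_eq_fintype_card]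
    exact hmK
  have hexp : Real.exp (Real.log (H : ℝ)) = H := Real.exp_log hHpos
  have hyH : y ^ (2 * m) ≤ 2 * H + 1 := by
    have h1 : (y : ℝ) ^ (2 * m) ≤ 2 * H + 1 := by
      refine le_trans p1 ?_
      have h2 : Real.exp (Real.log (H : ℝ) / 8) ≤ Real.exp (Real.log (H : ℝ)) :=
        Real.exp_le_exp.2 (by linarith)
      rw [hexp] at h2
      linarith
    exact_mod_cast h1
  have hmain := h4 ι G κ hκ m K y H (fun x => ((f x : {p : ℕ // P p ∧ p ≤ y}) : ℕ))
    (Subtype.val_injective.comp f.injective)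
    (fun x => ⟨(hP _ (f x).2.1).1, (f x).2.2, (hP _ (f x).2.1).2⟩) hyH b
  have hfin2 : Finite {v : ι → ℤ // v ∈ bx b H ∧
      ∀ x : Fin m × Fin K, (fun i => (v i : ZMod ((f x : {p : ℕ // P p ∧ p ≤ y}) : ℕ))) ∉
        G ((f x : {p : ℕ // P p ∧ p ≤ y}) : ℕ)} :=
    Finite.of_injective (fun v => (⟨v.1, v.2.1⟩ : {v // v ∈ bx b H})) (by
      intro v w hvw
      exact Subtype.ext (congrArg (fun z : {v // v ∈ bx b H} => z.1) hvw))
  have hcard : (Nat.card {v : ι → ℤ // v ∈ bx b H ∧ ∀ p, P p → (p : ℝ) ≤ Real.log H ^ A →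
      (fun i => (v i : ZMod p)) ∉ G p} : ℝ) ≤
      (Nat.card {v : ι → ℤ // v ∈ bx b H ∧
      ∀ x : Fin m × Fin K, (fun i => (v i : ZMod ((f x : {p : ℕ // P p ∧ p ≤ y}) : ℕ))) ∉
        G ((f x : {p : ℕ // P p ∧ p ≤ y}) : ℕ)} : ℝ) := by
    have : Nat.card {v : ι → ℤ // v ∈ bx b H ∧ ∀ p, P p → (p : ℝ) ≤ Real.log H ^ A →
      (fun i => (v i : ZMod p)) ∉ G p} ≤ Nat.card {v : ι → ℤ // v ∈ bx b H ∧
      ∀ x : Fin m × Fin K, (fun i => (v i : ZMod ((f x : {p : ℕ // P p ∧ p ≤ y}) : ℕ))) ∉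
        G ((f x : {p : ℕ // P p ∧ p ≤ y}) : ℕ)} := by
      refine Nat.card_le_card_of_injective (fun v => ⟨v.1, v.2.1, fun x => v.2.2 _ (f x).2.1
        (le_trans (by exact_mod_cast (f x).2.2) hyt)⟩) ?_
      intro v w hvw
      have h5 := Subtype.ext_iff.1 hvw
      exact Subtype.ext h5
    exact_mod_cast this
  refine t5_final (Fintype.card ι) m K y _ (2 * (H : ℝ) + 1) κ δ (Real.log H) H hκ hK
    (min_le_right _ _) ht0 hexp.symm (by linarith) c9 p1 p2 p3 ?_
  exact le_trans (mul_le_mul_of_nonneg_right hcard (by positivity)) hmain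

/-- the fibres of a nonzero functional -/
theorem card_fib {K : Type*} [Field K] [Fintype K] [DecidableEq K] {d : ℕ} (l : (Fin d → K) →ₗ[K] K)
    (hl : ∃ v, l v ≠ 0) (t : K) :
    (univ.filter (fun v => l v = t)).card * Fintype.card K ≤ Fintype.card K ^ d := by
  rw [← card_ker l hl]
  refine Nat.mul_le_mul_right _ ?_
  by_cases h : ∃ v1, l v1 = t
  · obtain ⟨v1, hv1⟩ := h
    refine card_le_card_of_injOn (fun v => v - v1) (fun v hv => ?_) (fun v _ w _ hvw => sub_left_inj.1 hvw)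
    rw [mem_coe, mem_filter] at hv ⊢
    refine ⟨mem_univ _, ?_⟩
    rw [map_sub, hv.2, hv1, sub_self]
  · rw [filter_eq_empty_iff.2 (fun v _ hv => h ⟨v, hv⟩), card_empty]
    exact Nat.zero_le _

/-- the sequence with initial values `a` moved by `V` has period `(p - 1) / 2` and no zero -/
def GoodV {p d : ℕ} (V : ℕ → ZMod p) (c a : Fin d → ZMod p) : Prop :=
  (∀ n, seq c a (n + (p - 1) / 2) = seq c a n) ∧ ∀ n, V n + seq c a n ≠ 0

open Classical in
/-- **Local part**: for half of the initial values the sum with a given sequence of period `(p - 1) / 2` has no zero. -/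
theorem local_half (p : ℕ) [Fact p.Prime] (hp2 : 2 < p) {d : ℕ} (hd : 1 ≤ d)
    (c : Fin d → ZMod p) (h1 : (chi c).Splits) (h2 : (expand (ZMod p) 2 (chi c)).Splits)
    (hsep : (chi c).Separable) (h0 : (chi c).coeff 0 ≠ 0) (V : ℕ → ZMod p)
    (hV : ∀ n, V (n + (p - 1) / 2) = V n) :
    (1 / 2 : ℝ) * (p : ℝ) ^ (Fintype.card (Fin d)) ≤ (Nat.card {a : Fin d → ZMod p // GoodV V c a} : ℝ) := by
  have hp : p.Prime := Fact.out
  have hper := period_of_splits p hp2 c h1 h2 hsep h0
  have hne : chi c ≠ 0 := (chi_monic c).ne_zero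
  set S : Finset (ZMod p) := (chi c).roots.toFinset with hS
  have hnd : (chi c).roots.Nodup := nodup_roots hsep
  have hval : S.val = (chi c).roots := by
    rw [hS, Multiset.toFinset_val, hnd.dedup]
  have hcard : S.card = d := by
    rw [Finset.card_def, hval, ← h1.natDegree_eq_card_roots, chi_natDegree]
  have hpoly : poly S = chi c := by
    unfold poly
    rw [Finset.prod_eq_multiset_prod, hval]
    exact (h1.eq_prod_roots_of_monic (chi_monic c)).symm
  have hcoef : coef d S = c := by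
    funext i
    unfold coef
    rw [hpoly, chi_coeff, neg_neg]
  obtain ⟨a, ha⟩ : S.Nonempty := Finset.card_pos.1 (by omega)
  have ha0 : a ≠ 0 := by
    rintro rfl
    rw [hS, Multiset.mem_toFinset, mem_roots hne, IsRoot, ← coeff_zero_eq_eval_zero] at ha
    exact h0 ha
  set T : ℕ := (p - 1) / 2 with hT
  have hT0 : 0 < T := by
    have hodd : p % 2 = 1 := (hp.eq_two_or_odd).resolve_left (by omega)
    omega
  have hmodV : ∀ n, V n = V (n % T) := by
    intro n
    have h : ∀ k m, V (m + T * k) = V m := by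
      intro k
      induction k with
      | zero => intro m; rfl
      | succ k ih =>
        intro m
        rw [Nat.mul_succ, ← add_assoc, hV, ih]
    conv_lhs => rw [← Nat.mod_add_div n T]
    exact h _ _
  have hmods : ∀ (v : Fin d → ZMod p) n, seq c v n = seq c v (n % T) := by
    intro v n
    have h : ∀ k m, seq c v (m + T * k) = seq c v m := by
      intro k
      induction k with
      | zero => intro m; rfl
      | succ k ih =>
        intro m
        rw [Nat.mul_succ, ← add_assoc, hper, ih]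
    conv_lhs => rw [← Nat.mod_add_div n T]
    exact h _ _
  have hsub : univ.filter (fun v : Fin d → ZMod p => ∃ n, V n + seq c v n = 0) ⊆
      (range T).biUnion (fun n => univ.filter (fun v => ev c n v = - V n)) := by
    intro v hv
    rw [Finset.mem_filter] at hv
    obtain ⟨_, n, hn⟩ := hv
    rw [Finset.mem_biUnion]
    refine ⟨n % T, Finset.mem_range.2 (Nat.mod_lt _ hT0), ?_⟩
    rw [Finset.mem_filter]
    refine ⟨mem_univ _, ?_⟩
    show seq c v (n % T) = - V (n % T)
    rw [← hmods, ← hmodV]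
    exact eq_neg_of_add_eq_zero_right hn
  have hbad : (univ.filter (fun v : Fin d → ZMod p => ∃ n, V n + seq c v n = 0)).card * p ≤ T * p ^ d := by
    calc (univ.filter (fun v : Fin d → ZMod p => ∃ n, V n + seq c v n = 0)).card * p
        ≤ (∑ n ∈ range T, (univ.filter (fun v => ev c n v = - V n)).card) * p :=
          Nat.mul_le_mul_right _ ((Finset.card_le_card hsub).trans Finset.card_biUnion_le)
      _ ≤ ∑ n ∈ range T, p ^ d := by
          rw [Finset.sum_mul]
          refine Finset.sum_le_sum fun n _ => ?_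
          have h3 := card_fib (ev c n) (by
            have h4 := ev_ne_zero d S hcard a ha ha0 n
            rwa [hcoef] at h4) (- V n)
          rwa [ZMod.card] at h3
      _ = T * p ^ d := by rw [Finset.sum_const, Finset.card_range, smul_eq_mul]
  have hbad2 : 2 * (univ.filter (fun v : Fin d → ZMod p => ∃ n, V n + seq c v n = 0)).card ≤ p ^ d := by
    have h3 : 2 * (univ.filter (fun v : Fin d → ZMod p => ∃ n, V n + seq c v n = 0)).card * p ≤ p ^ d * p := by
      calc 2 * (univ.filter (fun v : Fin d → ZMod p => ∃ n, V n + seq c v n = 0)).card * p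
          = 2 * ((univ.filter (fun v : Fin d → ZMod p => ∃ n, V n + seq c v n = 0)).card * p) := by ring
        _ ≤ 2 * (T * p ^ d) := Nat.mul_le_mul_left _ hbad
        _ = (2 * T) * p ^ d := by ring
        _ ≤ p * p ^ d := Nat.mul_le_mul_right _ (by omega)
        _ = p ^ d * p := by ring
    exact Nat.le_of_mul_le_mul_right h3 hp.pos
  have hcardeq : Nat.card {a : Fin d → ZMod p // GoodV V c a} =
      ((univ : Finset (Fin d → ZMod p)).filter (fun v => ¬ ∃ n, V n + seq c v n = 0)).card := by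
    rw [Nat.card_eq_fintype_card, Fintype.card_subtype]
    congr 1
    apply Finset.filter_congr
    intro a _
    unfold GoodV
    constructor
    · rintro ⟨-, h⟩ ⟨n, hn⟩
      exact h n hn
    · intro h
      exact ⟨fun n => hper a n, fun n hn => h ⟨n, hn⟩⟩
  rw [hcardeq]
  have hsum := Finset.card_filter_add_card_filter_not (s := (univ : Finset (Fin d → ZMod p)))
    (fun v => ∃ n, V n + seq c v n = 0)
  rw [Finset.card_univ, Fintype.card_fun, ZMod.card, Fintype.card_fin] at hsum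
  rw [Fintype.card_fin]
  have h9 : p ^ d ≤ 2 * ((univ : Finset (Fin d → ZMod p)).filter (fun v => ¬ ∃ n, V n + seq c v n = 0)).card := by
    omega
  have h10 : (p : ℝ) ^ d ≤ 2 * (((univ : Finset (Fin d → ZMod p)).filter (fun v => ¬ ∃ n, V n + seq c v n = 0)).card : ℝ) := by
    exact_mod_cast h9
  linarith

end Pool.Agent.Q160.SK
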