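import Mathlib
import Pool.Agent.Q160.SK1

set_option autoImplicit false

/-!
# The Skolem Problem in thin families: sums of a given and a varying recurrence sequence
-/

namespace Pool.Agent.Q160.SK

open Pool.Agent.H884R2.Sko Pool.Agent.H692R2.USS Pool.Agent.H684R3.Smo Polynomial Filter Finset

/-- many primes split a given polynomial -/
theorem many_split (g : ℤ[X]) (hg : g.Monic) (p₀ : ℕ) : ∃ θ : ℝ, 0 < θ ∧ ∃ y₁ : ℕ, ∀ y : ℕ, y₁ ≤ y →
    (y : ℝ) ^ θ ≤ (Nat.card {p : ℕ // ((p.Prime ∧ p₀ ≤ p) ∧ (g.map (Int.castRingHom (ZMod p))).Splits) ∧ p ≤ y} : ℝ) := by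
  obtain ⟨K, hF, hNF, hK⟩ := splitField_one g hg
  obtain ⟨θ, hθ, y₀, hsup⟩ := @t8 K hF hNF
  set P : ℕ → Prop := fun p => (p.Prime ∧ p₀ ≤ p) ∧ (g.map (Int.castRingHom (ZMod p))).Splits
    with hP
  have hev : ∀ᶠ y : ℕ in Filter.atTop, (p₀ : ℝ) + 1 ≤ (y : ℝ) ^ (θ / 2) := by
    have : Filter.Tendsto (fun y : ℕ => (y : ℝ) ^ (θ / 2)) Filter.atTop Filter.atTop :=
      (tendsto_rpow_atTop (by positivity)).comp tendsto_natCast_atTop_atTop
    exact this.eventually_ge_atTop _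
  obtain ⟨y₂, hy₂⟩ := Filter.eventually_atTop.1 hev
  refine ⟨θ / 2, by positivity, max y₀ y₂, fun y hy => ?_⟩
  have h1 := hsup y ((le_max_left _ _).trans hy)
  have h2 := hy₂ y ((le_max_right _ _).trans hy)
  have hfinP : Finite {p : ℕ // P p ∧ p ≤ y} :=
    Set.Finite.subset (Set.finite_Iic y) (fun p hp => hp.2)
  have h3 : Nat.card {p : ℕ // (p.Prime ∧ @HasDegOne K hF hNF p) ∧ p ≤ y} ≤
      Nat.card {p : ℕ // P p ∧ p ≤ y} + p₀ := by
    have e : Nat.card ({p : ℕ // P p ∧ p ≤ y} ⊕ Fin p₀) =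
        Nat.card {p : ℕ // P p ∧ p ≤ y} + p₀ := by
      rw [Nat.card_sum, Nat.card_eq_fintype_card (α := Fin p₀), Fintype.card_fin]
    rw [← e]
    classical
    apply Nat.card_le_card_of_injective (fun p : {p : ℕ // (p.Prime ∧ @HasDegOne K hF hNF p) ∧
      p ≤ y} => if h : p.1 < p₀ then Sum.inr (⟨p.1, h⟩ : Fin p₀) else
        Sum.inl (⟨p.1, ⟨⟨p.2.1.1, not_lt.1 h⟩, hK p.1 p.2.1.1 p.2.1.2⟩, p.2.2⟩ :
          {p : ℕ // P p ∧ p ≤ y}))
    intro x x' h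
    apply Subtype.ext
    simp only at h
    split_ifs at h with h4 h5 h5
    · simpa using h
    · simpa using h
  have h4 : ((Nat.card {p : ℕ // (p.Prime ∧ @HasDegOne K hF hNF p) ∧ p ≤ y} : ℕ) : ℝ) ≤
      (Nat.card {p : ℕ // P p ∧ p ≤ y} : ℝ) + p₀ := by exact_mod_cast h3
  have h5 : (y : ℝ) ^ θ = (y : ℝ) ^ (θ / 2) * (y : ℝ) ^ (θ / 2) := by
    rcases Nat.eq_zero_or_pos y with rfl | hy0
    · rw [Nat.cast_zero, Real.zero_rpow hθ.ne', Real.zero_rpow (by positivity)]; ring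
    · rw [← Real.rpow_add (by exact_mod_cast hy0)]; congr 1; ring
  have h6 : (0 : ℝ) ≤ (p₀ : ℝ) := by positivity
  nlinarith

/-- the conditions at a prime which follow from the splitting of one polynomial -/
theorem split_facts {d : ℕ} (hd : 1 ≤ d) (c : Fin d → ℤ) (h0 : (chi c).coeff 0 ≠ 0)
    (hsq : Squarefree ((chi c).map (Int.castRingHom ℚ))) :
    ∃ p₀ : ℕ, ∀ p : ℕ, p.Prime → p₀ ≤ p →
      ((chi c * expand ℤ 2 (chi c)).map (Int.castRingHom (ZMod p))).Splits →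
      2 < p ∧ (chi (fun i => (c i : ZMod p))).Splits ∧ (expand (ZMod p) 2 (chi (fun i => (c i : ZMod p)))).Splits ∧
      (chi (fun i => (c i : ZMod p))).Separable ∧ (chi (fun i => (c i : ZMod p))).coeff 0 ≠ 0 := by
  obtain ⟨r, hr0, hr⟩ := separable_mod (chi c) hsq
  refine ⟨3 + r.natAbs + ((chi c).coeff 0).natAbs, fun p hp hpN hsp => ?_⟩
  have : Fact p.Prime := ⟨hp⟩
  have hGm : (chi c * expand ℤ 2 (chi c)).Monic := (chi_monic c).mul ((chi_monic c).expand (by omega))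
  have hGne : (chi c * expand ℤ 2 (chi c)).map (Int.castRingHom (ZMod p)) ≠ 0 := (hGm.map _).ne_zero
  have hdv : ∀ z : ℤ, z ≠ 0 → z.natAbs < p → ¬ (p : ℤ) ∣ z := by
    intro z hz hzp hdvd
    have := Int.natAbs_dvd_natAbs.2 hdvd
    rw [Int.natAbs_natCast] at this
    exact absurd (Nat.le_of_dvd (Int.natAbs_pos.2 hz) this) (not_le.2 hzp)
  have hcm : (chi c).map (Int.castRingHom (ZMod p)) = chi (fun i => (c i : ZMod p)) := by
    rw [chi_map]; rfl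
  have e1 : (chi (fun i => (c i : ZMod p))) ∣ (chi c * expand ℤ 2 (chi c)).map (Int.castRingHom (ZMod p)) := by
    rw [← hcm, Polynomial.map_mul]; exact dvd_mul_right _ _
  have e2 : expand (ZMod p) 2 (chi (fun i => (c i : ZMod p))) ∣
      (chi c * expand ℤ 2 (chi c)).map (Int.castRingHom (ZMod p)) := by
    rw [← hcm, ← map_expand, Polynomial.map_mul]
    exact dvd_mul_left _ _
  refine ⟨by omega, hsp.of_dvd hGne e1, hsp.of_dvd hGne e2, ?_, ?_⟩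
  · rw [← hcm]
    exact hr p hp (hdv r hr0 (by omega))
  · rw [← hcm, coeff_map, eq_intCast, Ne, ZMod.intCast_zmod_eq_zero_iff_dvd]
    exact hdv _ h0 (by omega)

/-- the certificate: a prime `p ≤ (log H)^A` modulo which `u` has period `(p - 1) / 2` and no zero -/
def CertU (A : ℝ) (H : ℕ) (u : ℕ → ℤ) : Prop :=
  ∃ p : ℕ, p.Prime ∧ (p : ℝ) ≤ Real.log H ^ A ∧ (∀ n, (p : ℤ) ∣ u (n + (p - 1) / 2) - u n) ∧ ∀ n, ¬ (p : ℤ) ∣ u n

lemma chi_coeff_zero_ne {d : ℕ} (hd : 1 ≤ d) (c : Fin d → ℤ) (hc : c ⟨d - 1, by omega⟩ ≠ 0) :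
    (chi (fun i => c (Fin.rev i))).coeff 0 ≠ 0 := by
  have := chi_coeff (fun i => c (Fin.rev i)) ⟨0, by omega⟩
  simp only at this
  rw [this, neg_ne_zero]
  have e : Fin.rev (⟨0, by omega⟩ : Fin d) = ⟨d - 1, by omega⟩ := by
    apply Fin.ext
    rw [Fin.val_rev]
  rw [e]
  exact hc

lemma seq_mod_p {d : ℕ} (c a : Fin d → ℤ) (u : ℕ → ℤ) (hu : IsSeq c a u) (p n : ℕ) :
    ((u n : ℤ) : ZMod p) = seq (fun i => ((c (Fin.rev i) : ℤ) : ZMod p)) (fun i => (a i : ZMod p)) n := by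
  rw [(isSeq_iff c a u).1 hu n]
  have h2 := map_seq (Int.castRingHom (ZMod p)) (fun i => c (Fin.rev i)) a n
  rw [eq_intCast] at h2
  exact h2

open Classical in
/-- **The main theorem.** -/
theorem thin (d : ℕ) (hd : 1 ≤ d) (c : Fin d → ℤ) (hc : c ⟨d - 1, by omega⟩ ≠ 0)
    (hsq : Squarefree ((charPoly c).map (Int.castRingHom ℚ)))
    (D : ℕ) (hD : 1 ≤ D) (e : Fin D → ℤ) (he : e ⟨D - 1, by omega⟩ ≠ 0)
    (hsqe : Squarefree ((charPoly e).map (Int.castRingHom ℚ))) :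
    ∃ A δ : ℝ, 0 < A ∧ 0 < δ ∧ ∃ H₀ : ℕ, ∀ (a' : Fin D → ℤ) (v : ℕ → ℤ), IsSeq e a' v →
      ∀ H : ℕ, H₀ ≤ H → ∀ b : Fin d → ℤ,
      (((box b H).filter (fun a => ¬ ∀ w, IsSeq c a w → CertU A H (fun n => v n + w n))).card : ℝ) ≤
        (2 * (H : ℝ) + 1) ^ d * (H : ℝ) ^ (-δ) := by
  rw [charPoly_eq] at hsq hsqe
  have h0 := chi_coeff_zero_ne hd c hc
  have h0e := chi_coeff_zero_ne hD e he
  obtain ⟨p1, hp1⟩ := split_facts hd _ h0 hsq
  obtain ⟨p2, hp2⟩ := split_facts hD _ h0e hsqe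
  obtain ⟨gc, hgc⟩ : ∃ gc : ℤ[X], gc = chi (fun i => c (Fin.rev i)) * expand ℤ 2 (chi (fun i => c (Fin.rev i))) := ⟨_, rfl⟩
  obtain ⟨ge, hge⟩ : ∃ ge : ℤ[X], ge = chi (fun i => e (Fin.rev i)) * expand ℤ 2 (chi (fun i => e (Fin.rev i))) := ⟨_, rfl⟩
  rw [← hgc] at hp1
  rw [← hge] at hp2
  have hgcm : gc.Monic := by rw [hgc]; exact (chi_monic _).mul ((chi_monic _).expand (by omega))
  have hgem : ge.Monic := by rw [hge]; exact (chi_monic _).mul ((chi_monic _).expand (by omega))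
  obtain ⟨θ, hθ, hN⟩ := many_split (gc * ge) (hgcm.mul hgem) (max p1 p2)
  have hsplit : ∀ p : ℕ, p.Prime → ((gc * ge).map (Int.castRingHom (ZMod p))).Splits →
      (gc.map (Int.castRingHom (ZMod p))).Splits ∧ (ge.map (Int.castRingHom (ZMod p))).Splits := by
    intro p hp hsp
    have : Fact p.Prime := ⟨hp⟩
    have hne : (gc * ge).map (Int.castRingHom (ZMod p)) ≠ 0 := ((hgcm.mul hgem).map _).ne_zero
    rw [Polynomial.map_mul] at hsp hne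
    exact ⟨hsp.of_dvd hne (dvd_mul_right _ _), hsp.of_dvd hne (dvd_mul_left _ _)⟩
  obtain ⟨A, hA⟩ : ∃ A : ℝ, A = 2 / θ := ⟨_, rfl⟩
  have hA0 : 0 < A := by rw [hA]; positivity
  have hAθ : 1 < A * θ := by
    rw [hA, div_mul_cancel₀ _ hθ.ne']
    norm_num
  obtain ⟨δ, hδ, H₀, hmain⟩ := t5u (Fin d)
    (fun p => (p.Prime ∧ max p1 p2 ≤ p) ∧ ((gc * ge).map (Int.castRingHom (ZMod p))).Splits) (1 / 2) θ A
    (by norm_num) hθ hA0 hAθ hN
  refine ⟨A, δ, hA0, hδ, H₀, fun a' v hv H hH b => ?_⟩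
  have hG : ∀ p, ((p.Prime ∧ max p1 p2 ≤ p) ∧ ((gc * ge).map (Int.castRingHom (ZMod p))).Splits) →
      p.Prime ∧ (1 / 2 : ℝ) * (p : ℝ) ^ (Fintype.card (Fin d)) ≤
        (Nat.card {a : Fin d → ZMod p // GoodV (fun n => ((v n : ℤ) : ZMod p)) (fun i => ((c (Fin.rev i) : ℤ) : ZMod p)) a} : ℝ) := by
    rintro p ⟨⟨hp, hpp⟩, hsp⟩
    have : Fact p.Prime := ⟨hp⟩
    obtain ⟨s1, s2⟩ := hsplit p hp hsp
    obtain ⟨q0, q1, q2, q3, q4⟩ := hp1 p hp (le_trans (le_max_left _ _) hpp) s1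
    obtain ⟨_, r1, r2, r3, r4⟩ := hp2 p hp (le_trans (le_max_right _ _) hpp) s2
    refine ⟨hp, local_half p q0 hd _ q1 q2 q3 q4 _ fun n => ?_⟩
    rw [seq_mod_p e a' v hv, seq_mod_p e a' v hv]
    exact period_of_splits p q0 _ r1 r2 r3 r4 _ n
  have h1 := hmain (fun p => {a | GoodV (fun n => ((v n : ℤ) : ZMod p)) (fun i => ((c (Fin.rev i) : ℤ) : ZMod p)) a}) hG H hH b
  rw [Fintype.card_fin] at h1
  refine le_trans ?_ h1
  norm_cast
  refine card_le_sub _ _ (finite_sub _ _ _) (fun a : Fin d → ℤ => a) (fun _ _ h => h) ?_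
  intro a h
  rw [Finset.mem_filter] at h
  obtain ⟨ha, hcert⟩ := h
  refine ⟨ha, ?_⟩
  intro p hp hpA hGa
  apply hcert
  intro w hw
  have : Fact p.Prime := ⟨hp.1.1⟩
  obtain ⟨s1, s2⟩ := hsplit p hp.1.1 hp.2
  obtain ⟨q0, q1, q2, q3, q4⟩ := hp1 p hp.1.1 (le_trans (le_max_left _ _) hp.1.2) s1
  obtain ⟨_, r1, r2, r3, r4⟩ := hp2 p hp.1.1 (le_trans (le_max_right _ _) hp.1.2) s2
  obtain ⟨g1, g2⟩ := hGa
  refine ⟨p, hp.1.1, hpA, fun n => ?_, fun n hn => ?_⟩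
  · rw [← ZMod.intCast_zmod_eq_zero_iff_dvd]
    push_cast
    rw [seq_mod_p c a w hw p, seq_mod_p c a w hw p, g1 n, seq_mod_p e a' v hv, seq_mod_p e a' v hv,
      period_of_splits p q0 _ r1 r2 r3 r4 _ n, sub_self]
  · rw [← ZMod.intCast_zmod_eq_zero_iff_dvd] at hn
    push_cast at hn
    rw [seq_mod_p c a w hw p] at hn
    exact g2 n hn

end Pool.Agent.Q160.SK
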