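import Pool.Agent.Q160.Kernel
import Pool.Agent.Q160.Diamond

/-!
# Schubert polynomials: nonnegativity, and Schubert positivity of elementary monomials
-/

namespace Q160.Schub

open MvPolynomial Q160.DD Q160.Lam Q160.Kernel Q160.Diamond Equiv

variable {m : ℕ}

/-- A family of Schubert polynomials for `S_{m+1}`. -/
structure Fam (m : ℕ) (S : Perm (Fin (m + 1)) → Poly) : Prop where
  top : S Fin.revPerm = RR m []
  step : ∀ (w : Perm (Fin (m + 1))) (i : Fin m), w i.succ < w i.castSucc →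
    S (w * s i) = pd i (S w)

lemma pd_comm (i j : ℕ) (f : Poly) (h : i + 2 ≤ j) : pd i (pd j f) = pd j (pd i f) := by
  unfold pd
  apply dd_comm (ne_succ i) (ne_succ j) <;> omega

lemma pd_braid (i : ℕ) (f : Poly) :
    pd i (pd (i + 1) (pd i f)) = pd (i + 1) (pd i (pd (i + 1) f)) := by
  unfold pd
  apply dd_braid <;> omega

lemma exists_fam (m : ℕ) : ∃ S, Fam m S := by
  obtain ⟨Φ, h1, h2⟩ := exists_family (m := m) (A := Poly) pd pd_comm pd_braid (RR m [])
  refine ⟨fun w => Φ (Fin.revPerm * w), ⟨?_, ?_⟩⟩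
  · have h3 : (Fin.revPerm : Perm (Fin (m + 1))) * Fin.revPerm = 1 := by
      ext x
      simp
    show Φ (Fin.revPerm * Fin.revPerm) = _
    rw [h3, h1]
  · intro w i hi
    show Φ (Fin.revPerm * (w * s i)) = pd i (Φ (Fin.revPerm * w))
    rw [← mul_assoc]
    apply h2
    rw [Perm.mul_apply, Perm.mul_apply, Fin.revPerm_apply, Fin.revPerm_apply, Fin.rev_lt_rev]
    exact hi

lemma Fam.unique {S T : Perm (Fin (m + 1)) → Poly} (hS : Fam m S) (hT : Fam m T) : S = T := by
  funext w
  revert w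
  apply desc_induction
  · rw [hS.top, hT.top]
  · intro w i hi h
    rw [hS.step w i hi, hT.step w i hi, h]

variable {S : Perm (Fin (m + 1)) → Poly} (hS : Fam m S)

include hS

lemma Fam.asc (w : Perm (Fin (m + 1))) (i : Fin m) (h : w i.castSucc < w i.succ) :
    pd i (S w) = 0 := by
  have h1 := hS.step (w * s i) i (by
    rw [Perm.mul_apply, Perm.mul_apply, s_castSucc, s_succ]; exact h)
  rw [mul_s_s] at h1
  rw [h1, pd_pd]

lemma Fam.pd_cases (w : Perm (Fin (m + 1))) (i : Fin m) :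
    (w i.succ < w i.castSucc ∧ pd i (S w) = S (w * s i)) ∨ pd i (S w) = 0 := by
  by_cases h : w i.castSucc < w i.succ
  · right; exact hS.asc w i h
  · left
    have h1 := desc_ne w i h
    exact ⟨h1, (hS.step w i h1).symm⟩

lemma Fam.exists_RR : ∀ w, ∃ α, S w = RR m α := by
  apply desc_induction
  · exact ⟨[], hS.top⟩
  · rintro w i hi ⟨α, hα⟩
    have h := i.isLt
    refine ⟨(m - 1 - i) :: α, ?_⟩
    rw [hS.step w i hi, hα, RR_cons (by omega)]
    congr 1
    omega

lemma Fam.pd_ge (w : Perm (Fin (m + 1))) {j : ℕ} (hj : m ≤ j) : pd j (S w) = 0 := by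
  obtain ⟨α, hα⟩ := hS.exists_RR w
  rw [hα]
  exact pd_RR hj α

lemma Fam.RR_form (α : List ℕ) : RR m α = 0 ∨ ∃ w, RR m α = S w := by
  induction α with
  | nil => exact Or.inr ⟨_, hS.top.symm⟩
  | cons i α ih =>
    by_cases hi : i < m
    · rw [RR_cons hi]
      rcases ih with h | ⟨w, h⟩
      · left; rw [h, pd_zero]
      · rw [h]
        rcases hS.pd_cases w ⟨m - 1 - i, by omega⟩ with ⟨_, h1⟩ | h1
        · right; exact ⟨_, h1⟩
        · left; exact h1
    · left; exact RR_cons_zero (not_lt.mp hi) α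

omit hS in
lemma RR_nil_mem : RR m [] ∈ 𝔪 ℕ ^ (∑ i ∈ Finset.range (m + 1), (m - i)) := by
  have h : ∀ k, (∏ j ∈ Finset.range k, (X j : Poly) ^ (m - j)) ∈
      𝔪 ℕ ^ (∑ i ∈ Finset.range k, (m - i)) := by
    intro k
    induction k with
    | zero => simp
    | succ k ih =>
      rw [Finset.prod_range_succ, Finset.sum_range_succ, pow_add]
      exact Ideal.mul_mem_mul ih (Ideal.pow_mem_pow (X_mem k) _)
  rw [RR_nil, Finset.sum_range_succ, Nat.sub_self, add_zero]
  exact h m

lemma Fam.mem_pow : ∀ w, S w ∈ 𝔪 ℕ ^ inv w := by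
  apply desc_induction
  · rw [hS.top]
    exact Ideal.pow_le_pow_right (inv_le _) RR_nil_mem
  · intro w i hi h
    rw [hS.step w i hi]
    have h1 := inv_mul_of_desc w i hi
    rw [← h1] at h
    exact dd_mem (ne_succ i) _ h

lemma Fam.const_eq_zero {w : Perm (Fin (m + 1))} (hw : w ≠ 1) : constantCoeff (S w) = 0 := by
  have h1 := hS.mem_pow w
  have h2 := Ideal.pow_le_pow_right (I := 𝔪 ℕ) (inv_pos hw) h1
  rw [pow_one] at h2
  exact h2

/-- descending words -/
lemma Fam.lam_cases (α : List ℕ) : ∀ w : Perm (Fin (m + 1)),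
    lam α (S w) = 0 ∨ lam α (S w) = constantCoeff (S 1) := by
  induction α with
  | nil =>
    intro w
    rw [lam_nil]
    by_cases hw : w = 1
    · right; rw [hw]
    · left; exact hS.const_eq_zero hw
  | cons i α ih =>
    intro w
    rw [lam_cons]
    by_cases hi : i < m
    · rcases hS.pd_cases w ⟨i, hi⟩ with ⟨_, h1⟩ | h1
      · simp only at h1
        rw [h1]; exact ih _
      · simp only at h1
        rw [h1]; left; exact lam_zero α
    · rw [hS.pd_ge w (not_lt.mp hi)]
      left; exact lam_zero α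

omit hS in
lemma E_zero (k : ℕ) : E k 0 = 1 := by
  unfold E
  rw [Finset.powersetCard_zero, Finset.sum_singleton, Finset.prod_empty]

lemma Fam.const_one : constantCoeff (S 1) = 1 := by
  have h1 := inD_of_lam (AddSubmonoid.multiples (constantCoeff (S 1))) (S Fin.revPerm) (by
    intro α
    rcases hS.lam_cases α Fin.revPerm with h | h
    · rw [h]; exact AddSubmonoid.zero_mem _
    · rw [h]; exact AddSubmonoid.mem_multiples _)
  have h2 := h1 (ex (fun _ : Fin m => 0))
  rw [hS.top, coeff_RR m [] _ (fun _ => Nat.zero_le _), lam_nil] at h2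
  have h3 : (∏ j : Fin m, E (m - j) 0) = 1 := by
    apply Finset.prod_eq_one
    intro j _
    exact E_zero _
  rw [h3, map_one] at h2
  obtain ⟨n, hn⟩ := h2
  simp only at hn
  rw [nsmul_eq_mul] at hn
  have h4 : (n : ℤ) = 1 ∨ (n : ℤ) = -1 := Int.eq_one_or_neg_one_of_mul_eq_one hn
  rcases h4 with h4 | h4
  · rw [h4, one_mul] at hn; exact hn
  · omega

lemma Fam.nonneg (w : Perm (Fin (m + 1))) (d : ℕ →₀ ℕ) : 0 ≤ coeff d (S w) := by
  have h1 := inD_of_lam (AddSubmonoid.nonneg ℤ) (S w) (by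
    intro α
    rw [AddSubmonoid.mem_nonneg]
    rcases hS.lam_cases α w with h | h
    · rw [h]
    · rw [h, hS.const_one]; norm_num)
  exact h1 d

omit hS in
lemma RR_nonneg (m : ℕ) (α : List ℕ) (d : ℕ →₀ ℕ) : 0 ≤ coeff d (RR m α) := by
  obtain ⟨S, hS⟩ := exists_fam m
  rcases hS.RR_form α with h | ⟨w, h⟩
  · rw [h, coeff_zero]
  · rw [h]; exact hS.nonneg w d

omit hS in
lemma lam_prod_nonneg (m : ℕ) (α : List ℕ) (b : Fin m → ℕ) (hb : ∀ j : Fin m, b j ≤ m - j) :
    0 ≤ lam α (∏ j : Fin m, E (m - j) (b j)) := by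
  rw [← coeff_RR m α b hb]
  exact RR_nonneg m α _

omit hS in
/-- elementary monomials are Schubert positive -/
lemma lam_sem_nonneg (a : ℕ →₀ ℕ) (ha : ∀ k, a k ≤ k) (α : List ℕ) :
    0 ≤ lam α (a.prod (fun k j => E k j)) := by
  obtain ⟨m, hm⟩ : ∃ m : ℕ, a.support ⊆ Finset.range (m + 1) := by
    refine ⟨a.support.sup id, fun j hj => ?_⟩
    have := Finset.le_sup (f := id) hj
    simp only [id] at this
    rw [Finset.mem_range]
    omega
  have h1 : a.prod (fun k j => E k j) = ∏ j : Fin m, E (m - j) (a (m - j)) := by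
    rw [Finsupp.prod_of_support_subset a hm _ (fun k _ => E_zero k), Finset.prod_range_succ']
    have h0 : a 0 = 0 := Nat.le_zero.mp (ha 0)
    rw [h0, E_zero, mul_one, Fin.prod_univ_eq_prod_range (fun j => E (m - j) (a (m - j))) m,
      ← Finset.prod_range_reflect]
    apply Finset.prod_congr rfl
    intro j hj
    rw [Finset.mem_range] at hj
    have : m - 1 - j + 1 = m - j := by omega
    rw [this]
  rw [h1]
  exact lam_prod_nonneg m α (fun j => a (m - j)) (fun j => ha _)

omit hS in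
lemma exists_T (m : ℕ) : ∃ T : Perm (Fin (m + 1)) → Poly → Poly, (∀ f, T 1 f = f) ∧
    ∀ (w : Perm (Fin (m + 1))) (i : Fin m), w i.castSucc < w i.succ →
      ∀ f, T (w * s i) f = T w (pd i f) := by
  obtain ⟨T, h1, h2⟩ := exists_family (m := m) (A := Poly → Poly) (fun i U f => U (pd i f))
    (by
      intro i j U h
      funext f
      show U (pd j (pd i f)) = U (pd i (pd j f))
      rw [pd_comm i j f h])
    (by
      intro i U
      funext f
      show U (pd i (pd (i + 1) (pd i f))) = U (pd (i + 1) (pd i (pd (i + 1) f)))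
      rw [pd_braid]) id
  refine ⟨T, fun f => by rw [h1]; rfl, ?_⟩
  intro w i hi f
  rw [h2 w i hi]

lemma Fam.lam_eq_T {T : Perm (Fin (m + 1)) → Poly → Poly} (hT1 : ∀ f, T 1 f = f)
    (hT : ∀ (w : Perm (Fin (m + 1))) (i : Fin m), w i.castSucc < w i.succ →
      ∀ f, T (w * s i) f = T w (pd i f)) (α : List ℕ) :
    ∀ w : Perm (Fin (m + 1)), lam α (S w) ≠ 0 → ∀ f, lam α f = constantCoeff (T w f) := by
  induction α with
  | nil =>
    intro w hw f
    by_cases h : w = 1
    · rw [h, hT1, lam_nil]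
    · exact absurd (hS.const_eq_zero h) hw
  | cons i α ih =>
    intro w hw f
    rw [lam_cons] at hw ⊢
    by_cases hi : i < m
    · rcases hS.pd_cases w ⟨i, hi⟩ with ⟨h0, h1⟩ | h1
      · simp only at h1
        rw [h1] at hw
        rw [ih _ hw]
        have h2 := hT (w * s ⟨i, hi⟩) ⟨i, hi⟩ (by
          rw [Perm.mul_apply, Perm.mul_apply, s_castSucc, s_succ]; exact h0) f
        rw [mul_s_s] at h2
        rw [h2]
      · simp only at h1
        rw [h1] at hw
        exact absurd (lam_zero α) hw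
    · rw [hS.pd_ge w (not_lt.mp hi)] at hw
      exact absurd (lam_zero α) hw

lemma Fam.exists_word : ∀ w, ∃ α, lam α (S w) = 1 := by
  apply asc_induction
  · exact ⟨[], by rw [lam_nil]; exact hS.const_one⟩
  · rintro w i hi ⟨α, hα⟩
    refine ⟨i :: α, ?_⟩
    rw [lam_cons, ← hS.step (w * s i) i, mul_s_s]
    · exact hα
    · rw [Perm.mul_apply, Perm.mul_apply, s_castSucc, s_succ]; exact hi

/-- **Main theorem.** -/
theorem Fam.main (w : Perm (Fin (m + 1))) (c : (ℕ →₀ ℕ) →₀ ℤ)
    (hv : ∀ a ∈ c.support, ∀ k, a k ≤ k) (hc : ∀ a, 0 ≤ c a)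
    (hw : S w = c.sum (fun a z => C z * a.prod (fun k j => E k j))) :
    ∃ a ∈ c.support, S w = a.prod (fun k j => E k j) := by
  obtain ⟨T, hT1, hT⟩ := exists_T m
  set e : (ℕ →₀ ℕ) → Poly := fun a => a.prod (fun k j => E k j) with he
  have hsum : ∀ α, lam α (S w) = ∑ a ∈ c.support, c a * lam α (e a) := by
    intro α
    rw [hw]
    unfold Finsupp.sum
    rw [lam_sum]
    apply Finset.sum_congr rfl
    intro a _
    rw [lam_C_mul]
  have hnn : ∀ α, ∀ a ∈ c.support, 0 ≤ c a * lam α (e a) := by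
    intro α a ha
    exact mul_nonneg (hc a) (lam_sem_nonneg a (hv a ha) α)
  have key : ∀ a ∈ c.support, ∀ α, lam α (e a) = constantCoeff (T w (e a)) * lam α (S w) := by
    intro a ha α
    rcases hS.lam_cases α w with h | h
    · rw [h, mul_zero]
      have h1 := hsum α
      rw [h] at h1
      have h2 := (Finset.sum_eq_zero_iff_of_nonneg (hnn α)).mp h1.symm a ha
      rcases mul_eq_zero.mp h2 with h3 | h3
      · exact absurd h3 (Finsupp.mem_support_iff.mp ha)
      · exact h3
    · rw [hS.const_one] at h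
      rw [h, mul_one]
      exact hS.lam_eq_T hT1 hT α w (by rw [h]; norm_num) (e a)
  have hmul : ∀ a ∈ c.support, e a = C (constantCoeff (T w (e a))) * S w := by
    intro a ha
    have h1 := eq_zero_of_lam (e a - C (constantCoeff (T w (e a))) * S w) (by
      intro α
      rw [lam_sub, lam_C_mul, key a ha α, sub_self])
    exact sub_eq_zero.mp h1
  obtain ⟨α, hα⟩ := hS.exists_word w
  have h1 := hsum α
  rw [hα] at h1
  have h2 : ∃ a ∈ c.support, c a * lam α (e a) ≠ 0 := by
    by_contra hcon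
    push Not at hcon
    rw [Finset.sum_eq_zero hcon] at h1
    exact absurd h1 one_ne_zero
  obtain ⟨a, ha, hne⟩ := h2
  refine ⟨a, ha, ?_⟩
  have h3 : c a * lam α (e a) ≤ 1 := by
    rw [h1]
    exact Finset.single_le_sum (hnn α) ha
  have h4 : c a * lam α (e a) = 1 := le_antisymm h3
    (by
      have := hnn α a ha
      omega)
  have h5 : lam α (e a) = 1 := by
    have h6 : 0 ≤ lam α (e a) := lam_sem_nonneg a (hv a ha) α
    rcases Int.eq_one_or_neg_one_of_mul_eq_one' h4 with ⟨_, h7⟩ | ⟨_, h7⟩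
    · exact h7
    · omega
  have h8 := key a ha α
  rw [hα, h5, mul_one] at h8
  have h9 := hmul a ha
  rw [← h8, map_one, one_mul] at h9
  exact h9.symm

end Q160.Schub
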