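import Mathlib
import Pool.Agent.Q160.TB1
import Pool.Agent.W66.XE

set_option autoImplicit false

/-!
# Pairs of integers with prime rough part in short windows with a common free part
-/

namespace Pool.Agent.Q160.TB

open Finset Filter Topology MeasureTheory
open Pool.Agent.W66L
open Pool.Agent.W66 (sift_two MM MM_ne two_dvd_MM lt_of_not_dvd_MM no_mid_prime large_smooth_count)
open Pool.Agent.W66X (ratio_bound_D)
open Pool.Agent.H305R2 (roughPart roughPart_prime roughPart_mul SM SM_pos SMz mem_SMz ZZ VV sum_rough_eq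
  sum_le_VV tail_le ZZ_le_exp ZZ_nonneg VV_nonneg log_nat_tendsto)
open Pool.Agent.Helper112.E456.SieveAux (DD)

/-- the sieve bound for the pairs `(cp + x, cq + t + g ^ d * x)` -/
lemma near_core {g : ℕ} (hg : 2 ≤ g) {κ : ℝ} (hκ : 0 < κ) (D L : ℕ) : ∃ C : ℝ, 0 < C ∧
    ∀ᶠ p : ℕ in atTop, ∀ q : ℕ, p < q → q ≤ L * p → ∀ a d cp cq t : ℕ, κ * p ≤ a →
    g ^ a ≤ cp → g ^ (a + d) ≤ cq → t < g ^ d → cq + t ≠ g ^ d * cp →
    cq + t ≤ g ^ (D * q) → g ^ d * cp ≤ g ^ (D * q) →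
    (((range (g ^ a)).filter (fun x : ℕ =>
      ((roughPart p (cp + x)).Prime ∧
        (((cp + x) / roughPart p (cp + x) : ℕ) : ℝ) < Real.exp (Real.log g * a / 2)) ∧
      ((roughPart q (cq + t + g ^ d * x)).Prime ∧
        (((cq + t + g ^ d * x) / roughPart q (cq + t + g ^ d * x) : ℕ) : ℝ) <
          Real.exp (Real.log g * ((a + d : ℕ) : ℝ) / 2)))).card : ℝ) ≤
      C * (Real.log p / p) ^ 2 * (g : ℝ) ^ a := by
  obtain ⟨C0, hC0, hsv⟩ := sift_two
  obtain ⟨C1, hC1, hrat⟩ := ratio_bound_D hg D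
  obtain ⟨lg, hlg⟩ : ∃ lg, lg = Real.log g := ⟨_, rfl⟩
  have hlg0 : 0 < lg := by rw [hlg]; exact Real.log_pos (by exact_mod_cast hg)
  rw [← hlg]
  refine ⟨C0 * (2 * C1) ^ 2 / (lg * κ) ^ 2, by positivity, ?_⟩
  obtain ⟨P, hP⟩ := eventually_atTop.1 hrat
  have hκp : ∀ᶠ p : ℕ in atTop, 1 / κ ≤ (p : ℝ) := tendsto_natCast_atTop_atTop.eventually_ge_atTop _
  filter_upwards [eventually_ge_atTop P, eventually_ge_atTop 2, eventually_ge_atTop L, hκp] with
    p hpP hp2 hpL hκp1 q hpq hqL a d cp cq t ha hcp hcq ht hne hD1 hD2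
  have hp2' : (2 : ℝ) ≤ p := by exact_mod_cast hp2
  have hp0 : (0 : ℝ) < p := by linarith
  have ha1 : (1 : ℝ) ≤ a := by
    rw [div_le_iff₀ hκ] at hκp1
    linarith
  have ha1n : 1 ≤ a := by exact_mod_cast ha1
  have ha0 : (0 : ℝ) < a := by linarith
  have hgr : (2 : ℝ) ≤ g := by exact_mod_cast hg
  have hga : (g : ℝ) ^ a = Real.exp (lg * a) := by
    rw [mul_comm, Real.exp_nat_mul, hlg, Real.exp_log (by linarith)]
  have hgad : (g : ℝ) ^ (a + d) = Real.exp (lg * ((a + d : ℕ) : ℝ)) := by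
    rw [mul_comm, Real.exp_nat_mul, hlg, Real.exp_log (by linarith)]
  have hH2 : 2 ≤ g ^ a := by
    calc 2 ≤ g ^ 1 := by simpa using hg
      _ ≤ g ^ a := Nat.pow_le_pow_right (by omega) ha1n
  have hgd1 : 1 ≤ g ^ d := Nat.one_le_pow _ _ (by omega)
  have hgdad : g ^ d ≤ g ^ (a + d) := Nat.pow_le_pow_right (by omega) (by omega)
  obtain ⟨b2, hb2⟩ : ∃ b2, b2 + g ^ d = cq + t := ⟨cq + t - g ^ d, by omega⟩
  obtain ⟨b1, hb1⟩ : ∃ b1, b1 + 1 = cp := ⟨cp - 1, by omega⟩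
  obtain ⟨r, hr⟩ : ∃ r : ℕ, r = (((cq + t : ℕ) : ℤ) - ((g ^ d * cp : ℕ) : ℤ)).natAbs := ⟨_, rfl⟩
  have hr0 : 0 < r := by
    rw [hr, Int.natAbs_pos]
    intro h
    apply hne
    have : ((cq + t : ℕ) : ℤ) = ((g ^ d * cp : ℕ) : ℤ) := by linarith
    exact_mod_cast this
  have hrD : r ≤ g ^ (D * q) := by
    rw [hr]
    omega
  set S0 := (range (g ^ a)).filter (fun x : ℕ =>
      ((roughPart p (cp + x)).Prime ∧
        (((cp + x) / roughPart p (cp + x) : ℕ) : ℝ) < Real.exp (lg * a / 2)) ∧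
      ((roughPart q (cq + t + g ^ d * x)).Prime ∧
        (((cq + t + g ^ d * x) / roughPart q (cq + t + g ^ d * x) : ℕ) : ℝ) <
          Real.exp (lg * ((a + d : ℕ) : ℝ) / 2))) with hS0
  set S := S0.image (fun x => x + 1) with hS
  have hcardS : S0.card = S.card := by
    rw [hS, Finset.card_image_of_injective]
    intro x y hxy
    simpa using hxy
  have hSm : ∀ n ∈ S, 1 ≤ n ∧ n ≤ g ^ a ∧ n - 1 ∈ S0 := by
    intro n hn
    rw [hS, mem_image] at hn
    obtain ⟨x, hx, rfl⟩ := hn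
    have hx1 := (mem_filter.1 hx).1
    rw [mem_range] at hx1
    exact ⟨by omega, by omega, by simpa using hx⟩
  have hq2 : 2 ≤ q := by omega
  have hM0 : MM q g d r ≠ 0 := MM_ne hg hr0
  have hDD : DD 1 b1 (g ^ d) b2 ∣ MM q g d r := by
    have e : DD 1 b1 (g ^ d) b2 = g ^ d * r := by
      unfold DD
      have e2 : ((((1 * b2 : ℕ)) : ℤ)) - ((g ^ d * b1 : ℕ) : ℤ) =
          ((cq + t : ℕ) : ℤ) - ((g ^ d * cp : ℕ) : ℤ) := by
        rw [← hb2, ← hb1]
        push_cast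
        ring
      rw [e2, ← hr, one_mul]
    rw [e]; unfold MM; exact dvd_mul_left _ _
  have hcastN : ((g ^ a : ℕ) : ℝ) = (g : ℝ) ^ a := by push_cast; rfl
  have hz : ((g ^ a : ℕ) : ℝ) ^ ((1 : ℝ) / 8) = Real.exp (lg * a / 8) := by
    rw [hcastN, hga, ← Real.exp_mul]; ring_nf
  have hlga : 0 < lg * a := by positivity
  have had : (a : ℝ) ≤ ((a + d : ℕ) : ℝ) := by push_cast; linarith [(Nat.cast_nonneg d : (0 : ℝ) ≤ d)]
  have hmain := hsv 1 b1 (g ^ d) b2 (g ^ a) (MM q g d r) one_pos (by omega)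
    (two_dvd_MM hq2) hM0 hDD hH2 S (fun n hn => mem_Icc.2 ⟨(hSm n hn).1, (hSm n hn).2.1⟩) (by
      intro n hn l hl hlz hlM
      have hql := lt_of_not_dvd_MM hl hlM
      obtain ⟨hn1, _, hnS⟩ := hSm n hn
      obtain ⟨_, hQ1, hQ2⟩ := mem_filter.1 hnS
      rw [hz] at hlz
      have e1 : 1 * n + b1 = cp + (n - 1) := by omega
      have e2 : g ^ d * n + b2 = cq + t + g ^ d * (n - 1) := by
        obtain ⟨k, rfl⟩ : ∃ k, n = k + 1 := ⟨n - 1, by omega⟩
        rw [Nat.add_sub_cancel, ← hb2]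
        ring
      rw [e1, e2]
      constructor
      · refine no_mid_prime hQ1.1 hQ1.2 ?_ hl (by omega) hlz
        calc Real.exp (lg * a / 8) * Real.exp (lg * a / 2) = Real.exp (lg * a / 8 + lg * a / 2) :=
              (Real.exp_add _ _).symm
          _ ≤ Real.exp (lg * a) := Real.exp_le_exp.2 (by linarith)
          _ = ((g ^ a : ℕ) : ℝ) := by rw [hcastN, hga]
          _ ≤ _ := by exact_mod_cast (by omega : g ^ a ≤ cp + (n - 1))
      · refine no_mid_prime hQ2.1 hQ2.2 ?_ hl hql hlz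
        calc Real.exp (lg * a / 8) * Real.exp (lg * ((a + d : ℕ) : ℝ) / 2) =
              Real.exp (lg * a / 8 + lg * ((a + d : ℕ) : ℝ) / 2) := (Real.exp_add _ _).symm
          _ ≤ Real.exp (lg * ((a + d : ℕ) : ℝ)) := Real.exp_le_exp.2 (by nlinarith)
          _ = ((g ^ (a + d) : ℕ) : ℝ) := by push_cast; rw [hgad]; push_cast; rfl
          _ ≤ _ := by exact_mod_cast (by omega : g ^ (a + d) ≤ cq + t + g ^ d * (n - 1)))
  have hr1 := hP q (by omega) d r hr0 hrD
  have hlq : Real.log q ≤ 2 * Real.log p := by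
    have hq2p : (q : ℝ) ≤ p * p := by
      have : q ≤ p * p := hqL.trans (Nat.mul_le_mul_right p hpL)
      exact_mod_cast this
    calc Real.log q ≤ Real.log (p * p) := Real.log_le_log (by positivity) hq2p
      _ = 2 * Real.log p := by rw [Real.log_mul hp0.ne' hp0.ne']; ring
  have hlq0 : 0 ≤ Real.log q := Real.log_natCast_nonneg q
  have hlp0 : 0 ≤ Real.log p := Real.log_natCast_nonneg p
  have hr2 : ((MM q g d r : ℕ) : ℝ) / (Nat.totient (MM q g d r) : ℝ) ≤ 2 * C1 * Real.log p := by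
    calc _ ≤ C1 * Real.log q := hr1
      _ ≤ C1 * (2 * Real.log p) := by gcongr
      _ = _ := by ring
  have hr00 : 0 ≤ ((MM q g d r : ℕ) : ℝ) / (Nat.totient (MM q g d r) : ℝ) := by positivity
  have hlogH : Real.log ((g ^ a : ℕ) : ℝ) = lg * a := by
    rw [hcastN, hga, Real.log_exp]
  have hκlg : lg * κ * p ≤ lg * a := by
    calc lg * κ * p = lg * (κ * p) := by ring
      _ ≤ _ := mul_le_mul_of_nonneg_left ha hlg0.le
  have hκlg0 : 0 < lg * κ * p := by positivity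
  rw [hcardS]
  calc (S.card : ℝ) ≤ C0 * (((MM q g d r : ℕ) : ℝ) / (Nat.totient (MM q g d r) : ℝ)) ^ 2 *
        (g ^ a : ℕ) / (Real.log ((g ^ a : ℕ) : ℝ)) ^ 2 := hmain
    _ ≤ C0 * (2 * C1 * Real.log p) ^ 2 * (g ^ a : ℕ) / (lg * κ * p) ^ 2 := by
        rw [hlogH]
        gcongr
    _ = _ := by rw [hcastN]; field_simp

/-- A family of windows `c p + [0, g ^ r p)`. -/
structure Fam (g : ℕ) (κ : ℝ) (D : ℕ) (τ : ℝ) (c r : ℕ → ℕ) : Prop where
  mono : ∀ p q, p ≤ q → r p ≤ r q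
  grow : ∀ p q : ℕ, p ≤ q → (r p : ℝ) + κ * ((q : ℝ) - p) ≤ r q + 1
  up : ∀ p, r p ≤ D * p
  low : ∃ P : ℕ, ∀ p ≥ P, g ^ r p ≤ c p
  high : ∃ P : ℕ, ∀ p ≥ P, ((c p : ℝ) + (g : ℝ) ^ r p) ≤ ((g : ℝ) ^ r p) ^ τ

variable {g : ℕ} {κ τ : ℝ} {D : ℕ} {c r : ℕ → ℕ}

lemma Fam.lin (h : Fam g κ D τ c r) (p : ℕ) : κ * p ≤ (r p : ℝ) + 1 := by
  have h1 := h.grow 0 p (Nat.zero_le p)
  have h2 : (0 : ℝ) ≤ r 0 := Nat.cast_nonneg _
  push_cast at h1
  linarith

/-- the joint count -/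
noncomputable def JJ (g : ℕ) (c r : ℕ → ℕ) (p q : ℕ) : ℝ :=
  ∑ y ∈ range (g ^ r q), rpi p (c p + y / g ^ (r q - r p)) * rpi q (c q + y)

lemma rpi_pos_arg {q m : ℕ} (h : (roughPart q m).Prime) : 1 ≤ m := by
  rcases Nat.eq_zero_or_pos m with h0 | h0
  · exfalso
    rw [h0] at h
    unfold roughPart at h
    simp [Nat.not_prime_one] at h
  · exact h0

/-- few elements of a window have a large smooth part -/
lemma smooth_win {g : ℕ} (hg : 2 ≤ g) {κ : ℝ} (hκ : 0 < κ) : ∀ᶠ p : ℕ in atTop, ∀ q : ℕ, p ≤ q →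
    ∀ a c0 : ℕ, κ * q ≤ a → ((c0 : ℝ) + (g : ℝ) ^ a) ≤ ((g : ℝ) ^ a) ^ (9 / 8 : ℝ) →
    (((range (g ^ a)).filter (fun y => (roughPart q (c0 + y)).Prime ∧
      Real.exp (Real.log g * a / 2) ≤ (((c0 + y) / roughPart q (c0 + y) : ℕ) : ℝ))).card : ℝ) ≤
      (g : ℝ) ^ a * (Real.log p / p) ^ 2 := by
  classical
  obtain ⟨lg, hlg⟩ : ∃ lg, lg = Real.log g := ⟨_, rfl⟩
  have hlg0 : 0 < lg := by rw [hlg]; exact Real.log_pos (by exact_mod_cast hg)
  rw [← hlg]
  obtain ⟨P1, hP1⟩ := eventually_atTop.1 (ZZ_le_exp (c := lg * κ / 16) (by positivity))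
  obtain ⟨P2, hP2⟩ := eventually_atTop.1 (exp_small2 (c := lg * κ / 16) (by positivity))
  filter_upwards [eventually_ge_atTop P1, eventually_ge_atTop P2, eventually_ge_atTop 3] with p h1 h2 h3
    q hpq a c0 ha hc
  have hgr : (2 : ℝ) ≤ g := by exact_mod_cast hg
  have hga : (g : ℝ) ^ a = Real.exp (lg * a) := by
    rw [mul_comm, Real.exp_nat_mul, hlg, Real.exp_log (by linarith)]
  have hp0 : (0 : ℝ) < p := by exact_mod_cast (by omega : 0 < p)
  have hq0 : (0 : ℝ) < q := by exact_mod_cast (by omega : 0 < q)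
  have hZ := hP1 q (by omega)
  have hE := hP2 p (by omega)
  have hcount := large_smooth_count q (c0 + g ^ a) (S := Real.exp (lg * a / 2)) (Real.exp_pos _)
  have hsub : ((range (g ^ a)).filter (fun y => (roughPart q (c0 + y)).Prime ∧
      Real.exp (lg * a / 2) ≤ (((c0 + y) / roughPart q (c0 + y) : ℕ) : ℝ))).image (fun y => c0 + y) ⊆
      (Icc 1 (c0 + g ^ a)).filter (fun m => (roughPart q m).Prime ∧
      Real.exp (lg * a / 2) ≤ ((m / roughPart q m : ℕ) : ℝ)) := by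
    intro m hm
    rw [mem_image] at hm
    obtain ⟨y, hy, rfl⟩ := hm
    rw [mem_filter, mem_range] at hy
    rw [mem_filter, mem_Icc]
    exact ⟨⟨rpi_pos_arg hy.2.1, by omega⟩, hy.2⟩
  have hcard : (((range (g ^ a)).filter (fun y => (roughPart q (c0 + y)).Prime ∧
      Real.exp (lg * a / 2) ≤ (((c0 + y) / roughPart q (c0 + y) : ℕ) : ℝ))).card : ℝ) ≤
      (((Icc 1 (c0 + g ^ a)).filter (fun m => (roughPart q m).Prime ∧
      Real.exp (lg * a / 2) ≤ ((m / roughPart q m : ℕ) : ℝ))).card : ℝ) := by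
    rw [← Finset.card_image_of_injective (f := fun y => c0 + y) _ (add_right_injective c0)]
    exact_mod_cast Finset.card_le_card hsub
  refine (hcard.trans hcount).trans ?_
  have hZ0 := ZZ_nonneg q
  have hX : ((c0 + g ^ a : ℕ) : ℝ) ≤ Real.exp (lg * a * (9 / 8)) := by
    push_cast
    rw [Real.exp_mul, ← hga]
    exact hc
  have hSm : (Real.exp (lg * a / 2)) ^ (-(1 / 2) : ℝ) = Real.exp (-(lg * a / 4)) := by
    rw [← Real.exp_mul]; ring_nf
  rw [hSm]
  have hpq' : (p : ℝ) ≤ q := by exact_mod_cast hpq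
  have hlga : lg * (κ * q) ≤ lg * a := mul_le_mul_of_nonneg_left ha hlg0.le
  have hlgq : lg * κ * p ≤ lg * κ * q := mul_le_mul_of_nonneg_left hpq' (by positivity)
  calc ((c0 + g ^ a : ℕ) : ℝ) * (Real.exp (-(lg * a / 4)) * ZZ q) ≤
        Real.exp (lg * a * (9 / 8)) * (Real.exp (-(lg * a / 4)) * Real.exp (lg * κ / 16 * q)) := by
          gcongr
    _ = Real.exp (lg * a) * Real.exp (-(lg * a / 8) + lg * κ / 16 * q) := by
          rw [← Real.exp_add, ← Real.exp_add, ← Real.exp_add]; ring_nf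
    _ ≤ Real.exp (lg * a) * Real.exp (-(lg * κ / 16 * p)) := by
          refine mul_le_mul_of_nonneg_left (Real.exp_le_exp.2 ?_) (Real.exp_pos _).le
          linarith
    _ ≤ Real.exp (lg * a) * (Real.log p / p) ^ 2 := mul_le_mul_of_nonneg_left hE (Real.exp_pos _).le
    _ = _ := by rw [hga]

/-- **Near pairs.** -/
theorem near_fam (hg : 2 ≤ g) (hκ : 0 < κ) (hτ1 : 1 ≤ τ) (hτ : τ ≤ 9 / 8) (hF : Fam g κ D τ c r)
    (L : ℕ) : ∃ K : ℝ, 0 < K ∧ ∀ᶠ p : ℕ in atTop, ∀ q : ℕ, p < q → q ≤ L * p →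
    JJ g c r p q ≤ K * (g : ℝ) ^ r q * ((Real.log p / p) ^ 2 +
      ((g : ℝ) ^ (r q - r p))⁻¹ * (Real.log p / p)) := by
  classical
  obtain ⟨lg, hlg⟩ : ∃ lg, lg = Real.log g := ⟨_, rfl⟩
  have hlg0 : 0 < lg := by rw [hlg]; exact Real.log_pos (by exact_mod_cast hg)
  obtain ⟨C, hC, hcore⟩ := near_core hg (κ := κ / 2) (by positivity) (3 * D + 1) L
  obtain ⟨K1, hK1, hup⟩ := win_upper (κ := lg * κ / 2) (by positivity)
  have hsw := smooth_win hg (κ := κ / 2) (by positivity)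
  obtain ⟨P1, hlow⟩ := hF.low
  obtain ⟨P2, hhigh⟩ := hF.high
  have hκp : ∀ᶠ p : ℕ in atTop, 2 / κ + 1 ≤ (p : ℝ) := tendsto_natCast_atTop_atTop.eventually_ge_atTop _
  refine ⟨C + 2 + K1, by positivity, ?_⟩
  filter_upwards [hcore, hup, hsw, eventually_ge_atTop P1, eventually_ge_atTop P2, hκp,
    eventually_ge_atTop 3] with p hcorep hupp hswp hpP1 hpP2 hκp1 hp3 q hpq hqL
  have hp3' : (3 : ℝ) ≤ p := by exact_mod_cast hp3
  have hp0 : (0 : ℝ) < p := by linarith
  have hpq' : (p : ℝ) ≤ q := by exact_mod_cast hpq.le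
  have hκp2 : 2 ≤ κ * p := by
    have h1 : 2 / κ ≤ (p : ℝ) := by linarith
    rwa [div_le_iff₀ hκ, mul_comm] at h1
  have hgr : (2 : ℝ) ≤ g := by exact_mod_cast hg
  have hg0 : (0 : ℝ) < g := by linarith
  have hgpow : ∀ n : ℕ, (g : ℝ) ^ n = Real.exp (lg * n) := by
    intro n
    rw [mul_comm, Real.exp_nat_mul, hlg, Real.exp_log (by linarith)]
  obtain ⟨a, ha⟩ : ∃ a, a = r p := ⟨_, rfl⟩
  obtain ⟨d, hd⟩ : ∃ d, d = r q - r p := ⟨_, rfl⟩
  have hmono := hF.mono p q hpq.le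
  have hrq : r q = a + d := by omega
  have hap : κ / 2 * p ≤ a := by
    have h1 := hF.lin p
    rw [← ha] at h1
    linarith
  have haq : κ / 2 * q ≤ ((a + d : ℕ) : ℝ) := by
    have h1 := hF.lin q
    rw [hrq] at h1
    have : κ * p ≤ κ * q := mul_le_mul_of_nonneg_left hpq' hκ.le
    linarith
  have hcp := hlow p hpP1
  have hcq := hlow q (by omega)
  have hhp := hhigh p hpP2
  have hhq := hhigh q (by omega)
  rw [← ha] at hcp hhp
  rw [hrq] at hcq hhq
  have hpow1 : ∀ n : ℕ, (1 : ℝ) ≤ (g : ℝ) ^ n := fun n => one_le_pow₀ (by linarith)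
  have hτ98 : ∀ n : ℕ, ((g : ℝ) ^ n) ^ τ ≤ ((g : ℝ) ^ n) ^ (9 / 8 : ℝ) := fun n =>
    Real.rpow_le_rpow_of_exponent_le (hpow1 n) hτ
  have hw0 : 0 ≤ Real.log p / (p : ℝ) := div_nonneg (Real.log_natCast_nonneg p) hp0.le
  set w := Real.log p / (p : ℝ) with hw
  -- sizes
  have hsq : ∀ n : ℕ, ((g : ℝ) ^ n) ^ (9 / 8 : ℝ) ≤ (g : ℝ) ^ (2 * n) := by
    intro n
    calc ((g : ℝ) ^ n) ^ (9 / 8 : ℝ) ≤ ((g : ℝ) ^ n) ^ (2 : ℝ) :=
          Real.rpow_le_rpow_of_exponent_le (hpow1 n) (by norm_num)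
      _ = (g : ℝ) ^ (2 * n) := by rw [Real.rpow_two, ← pow_mul]; ring_nf
  have hup_q := hF.up q
  have hsizeP : c p + g ^ a ≤ g ^ (2 * a) := by
    have h1 := hhp.trans ((hτ98 a).trans (hsq a))
    exact_mod_cast h1
  have hsizeQ : c q + g ^ (a + d) ≤ g ^ (2 * (a + d)) := by
    have h1 := hhq.trans ((hτ98 (a + d)).trans (hsq (a + d)))
    exact_mod_cast h1
  have hD1 : g ^ (2 * (a + d)) ≤ g ^ ((3 * D + 1) * q) := by
    refine Nat.pow_le_pow_right (by omega) ?_
    rw [← hrq]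
    nlinarith
  have hD2 : g ^ d * c p ≤ g ^ ((3 * D + 1) * q) := by
    calc g ^ d * c p ≤ g ^ d * g ^ (2 * a) := Nat.mul_le_mul_left _ (by omega)
      _ = g ^ (d + 2 * a) := by rw [pow_add]
      _ ≤ g ^ ((3 * D + 1) * q) := by
          refine Nat.pow_le_pow_right (by omega) ?_
          have h1 : d + 2 * a ≤ 2 * r q := by omega
          nlinarith
  have hgd0 : 0 < g ^ d := by positivity
  have hgd0' : (0 : ℝ) < (g : ℝ) ^ d := by positivity
  have hga0' : (0 : ℝ) < (g : ℝ) ^ a := by positivity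
  -- the exceptional sets
  set Sp := Real.exp (lg * a / 2) with hSp
  set Sq := Real.exp (lg * ((a + d : ℕ) : ℝ) / 2) with hSq
  set T := (range (g ^ (a + d))).filter (fun y => (roughPart p (c p + y / g ^ d)).Prime ∧
    (roughPart q (c q + y)).Prime) with hT
  have hJJ : JJ g c r p q = (T.card : ℝ) := by
    unfold JJ
    rw [hT, Finset.card_eq_sum_ones, Finset.sum_filter, hrq, ← ha, Nat.add_sub_cancel_left]
    push_cast
    refine Finset.sum_congr rfl fun y _ => ?_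
    unfold rpi
    by_cases h1 : (roughPart p (c p + y / g ^ d)).Prime <;>
      by_cases h2 : (roughPart q (c q + y)).Prime <;> simp [h1, h2]
  have hmT : ∀ y ∈ T, y < g ^ (a + d) ∧ (roughPart p (c p + y / g ^ d)).Prime ∧
      (roughPart q (c q + y)).Prime := by
    intro y hy
    rw [hT, mem_filter, mem_range] at hy
    exact hy
  have hdivlt : ∀ y, y < g ^ (a + d) → y / g ^ d < g ^ a := by
    intro y hy
    rw [Nat.div_lt_iff_lt_mul hgd0, ← pow_add]
    exact hy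
  set T0 := T.filter (fun y => c q + y % g ^ d = g ^ d * c p) with hT0
  set T2 := T.filter (fun y => Sp ≤ (((c p + y / g ^ d) / roughPart p (c p + y / g ^ d) : ℕ) : ℝ)) with hT2
  set T3 := T.filter (fun y => Sq ≤ (((c q + y) / roughPart q (c q + y) : ℕ) : ℝ)) with hT3
  set T4 := T.filter (fun y => c q + y % g ^ d ≠ g ^ d * c p ∧
    (((c p + y / g ^ d) / roughPart p (c p + y / g ^ d) : ℕ) : ℝ) < Sp ∧
    (((c q + y) / roughPart q (c q + y) : ℕ) : ℝ) < Sq) with hT4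
  have hTsub : T ⊆ ((T0 ∪ T2) ∪ T3) ∪ T4 := by
    intro m hm
    simp only [mem_union]
    by_cases h0 : c q + m % g ^ d = g ^ d * c p
    · left; left; left; exact mem_filter.2 ⟨hm, h0⟩
    by_cases h2 : Sp ≤ (((c p + m / g ^ d) / roughPart p (c p + m / g ^ d) : ℕ) : ℝ)
    · left; left; right; exact mem_filter.2 ⟨hm, h2⟩
    by_cases h3 : Sq ≤ (((c q + m) / roughPart q (c q + m) : ℕ) : ℝ)
    · left; right; exact mem_filter.2 ⟨hm, h3⟩
    · right
      exact mem_filter.2 ⟨hm, h0, not_le.1 h2, not_le.1 h3⟩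
  -- T0
  have c0 : (T0.card : ℝ) ≤ K1 * (g : ℝ) ^ a * w := by
    have hinj : Set.InjOn (fun y : ℕ => y / g ^ d) (T0 : Set ℕ) := by
      intro y hy y' hy' hyy
      have h1 := (mem_filter.1 (Finset.mem_coe.1 hy)).2
      have h2 := (mem_filter.1 (Finset.mem_coe.1 hy')).2
      simp only at hyy
      rw [← Nat.mod_add_div y (g ^ d), ← Nat.mod_add_div y' (g ^ d), hyy]
      omega
    have hsub : T0.image (fun y => y / g ^ d) ⊆
        (range (g ^ a)).filter (fun x => (roughPart p (c p + x)).Prime) := by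
      intro x hx
      rw [mem_image] at hx
      obtain ⟨y, hy, rfl⟩ := hx
      obtain ⟨h1, h2, _⟩ := hmT y (mem_filter.1 hy).1
      rw [mem_filter, mem_range]
      exact ⟨hdivlt y h1, h2⟩
    have hcard := Finset.card_le_card hsub
    rw [Finset.card_image_of_injOn hinj] at hcard
    have h1 := hupp (c p - 1) (g ^ a) ?_ ?_
    · refine le_trans ?_ (h1.trans (le_of_eq ?_))
      · have h2 : (((range (g ^ a)).filter (fun x => (roughPart p (c p + x)).Prime)).card : ℝ) =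
            ∑ m ∈ Ioc (c p - 1) (c p - 1 + g ^ a), rpi p m := by
          rw [Finset.card_eq_sum_ones, Finset.sum_filter]
          push_cast
          have hcp1 : 1 ≤ c p := le_trans (Nat.one_le_pow _ _ (by omega)) hcp
          refine Finset.sum_bij' (i := fun x _ => c p + x) (j := fun m _ => m - c p) ?_ ?_ ?_ ?_ ?_
          · intro x hx
            rw [mem_range] at hx
            rw [mem_Ioc]
            omega
          · intro m hm
            rw [mem_Ioc] at hm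
            rw [mem_range]
            omega
          · intro x _
            simp
          · intro m hm
            rw [mem_Ioc] at hm
            omega
          · intro x _
            rfl
        rw [← h2]
        exact_mod_cast hcard
      · push_cast
        ring
    · push_cast
      rw [hgpow]
      refine Real.exp_le_exp.2 ?_
      calc lg * κ / 2 * p = lg * (κ / 2 * p) := by ring
        _ ≤ lg * a := mul_le_mul_of_nonneg_left hap hlg0.le
    · have h2 : ((c p - 1 + g ^ a : ℕ) : ℝ) ≤ (c p : ℝ) + (g : ℝ) ^ a := by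
        have : c p - 1 + g ^ a ≤ c p + g ^ a := by omega
        exact_mod_cast this
      refine h2.trans (hhp.trans ?_)
      push_cast
      exact hτ98 a
  -- T2
  have c2 : (T2.card : ℝ) ≤ (g : ℝ) ^ (a + d) * w ^ 2 := by
    have h1 := hswp p le_rfl a (c p) hap (hhp.trans (hτ98 a))
    rw [← hlg] at h1
    have hinj : Set.InjOn (fun y : ℕ => (y / g ^ d, y % g ^ d)) (T2 : Set ℕ) := by
      intro y _ y' _ hyy
      simp only [Prod.mk.injEq] at hyy
      rw [← Nat.mod_add_div y (g ^ d), ← Nat.mod_add_div y' (g ^ d), hyy.1, hyy.2]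
    have hsub : T2.image (fun y => (y / g ^ d, y % g ^ d)) ⊆
        ((range (g ^ a)).filter (fun y => (roughPart p (c p + y)).Prime ∧
          Real.exp (lg * a / 2) ≤ (((c p + y) / roughPart p (c p + y) : ℕ) : ℝ))) ×ˢ range (g ^ d) := by
      intro x hx
      rw [mem_image] at hx
      obtain ⟨y, hy, rfl⟩ := hx
      obtain ⟨h2, h3, _⟩ := hmT y (mem_filter.1 hy).1
      rw [mem_product, mem_filter, mem_range, mem_range]
      exact ⟨⟨hdivlt y h2, h3, (mem_filter.1 hy).2⟩, Nat.mod_lt _ hgd0⟩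
    have hcard := Finset.card_le_card hsub
    rw [Finset.card_image_of_injOn hinj, card_product, card_range] at hcard
    calc (T2.card : ℝ) ≤ (((range (g ^ a)).filter (fun y => (roughPart p (c p + y)).Prime ∧
          Real.exp (lg * a / 2) ≤ (((c p + y) / roughPart p (c p + y) : ℕ) : ℝ))).card : ℝ) *
          ((g ^ d : ℕ) : ℝ) := by exact_mod_cast hcard
      _ ≤ (g : ℝ) ^ a * w ^ 2 * ((g ^ d : ℕ) : ℝ) := mul_le_mul_of_nonneg_right h1 (Nat.cast_nonneg _)
      _ = _ := by push_cast; rw [pow_add]; ring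
  -- T3
  have c3 : (T3.card : ℝ) ≤ (g : ℝ) ^ (a + d) * w ^ 2 := by
    have h1 := hswp q hpq.le (a + d) (c q) haq (hhq.trans (hτ98 (a + d)))
    rw [← hlg] at h1
    refine le_trans ?_ h1
    have hsub : T3 ⊆ (range (g ^ (a + d))).filter (fun y => (roughPart q (c q + y)).Prime ∧
        Real.exp (lg * ((a + d : ℕ) : ℝ) / 2) ≤ (((c q + y) / roughPart q (c q + y) : ℕ) : ℝ)) := by
      intro y hy
      obtain ⟨h2, _, h3⟩ := hmT y (mem_filter.1 hy).1
      rw [mem_filter, mem_range]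
      exact ⟨h2, h3, (mem_filter.1 hy).2⟩
    exact_mod_cast Finset.card_le_card hsub
  -- T4
  have c4 : (T4.card : ℝ) ≤ C * w ^ 2 * (g : ℝ) ^ (a + d) := by
    have hfib := Finset.card_eq_sum_card_fiberwise (s := T4) (t := range (g ^ d)) (f := fun y => y % g ^ d)
      (fun y _ => Finset.mem_coe.2 (mem_range.2 (Nat.mod_lt _ hgd0)))
    rw [hfib]
    push_cast
    have hone : ∀ t ∈ range (g ^ d), ((T4.filter (fun y => y % g ^ d = t)).card : ℝ) ≤
        C * w ^ 2 * (g : ℝ) ^ a := by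
      intro t ht
      rw [mem_range] at ht
      rcases Finset.eq_empty_or_nonempty (T4.filter (fun y => y % g ^ d = t)) with hemp | ⟨y0, hy0⟩
      · rw [hemp]
        simp only [Finset.card_empty, Nat.cast_zero]
        positivity
      obtain ⟨hy01, hy02⟩ := mem_filter.1 hy0
      have hne := (mem_filter.1 hy01).2.1
      rw [hy02] at hne
      have h1 := hcorep q hpq hqL a d (c p) (c q) t hap hcp hcq ht hne (by
        refine le_trans ?_ (hsizeQ.trans hD1)
        have : g ^ d ≤ g ^ (a + d) := Nat.pow_le_pow_right (by omega) (by omega)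
        omega) hD2
      rw [← hlg] at h1
      refine le_trans ?_ h1
      have hinj : Set.InjOn (fun y : ℕ => y / g ^ d) ((T4.filter (fun y => y % g ^ d = t)) : Set ℕ) := by
        intro y hy y' hy' hyy
        have h1 := (mem_filter.1 (Finset.mem_coe.1 hy)).2
        have h2 := (mem_filter.1 (Finset.mem_coe.1 hy')).2
        simp only at hyy
        rw [← Nat.mod_add_div y (g ^ d), ← Nat.mod_add_div y' (g ^ d), hyy, h1, h2]
      rw [← Finset.card_image_of_injOn hinj]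
      refine Nat.cast_le.2 (Finset.card_le_card ?_)
      intro x hx
      rw [mem_image] at hx
      obtain ⟨y, hy, rfl⟩ := hx
      obtain ⟨hy1, hy2⟩ := mem_filter.1 hy
      obtain ⟨hy3, _, hy4, hy5⟩ := mem_filter.1 hy1
      obtain ⟨h2, h3, h4⟩ := hmT y hy3
      have e : c q + t + g ^ d * (y / g ^ d) = c q + y := by
        have := Nat.mod_add_div y (g ^ d)
        rw [hy2] at this
        omega
      rw [mem_filter, mem_range, e]
      exact ⟨hdivlt y h2, ⟨h3, hy4⟩, h4, hy5⟩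
    calc ∑ t ∈ range (g ^ d), ((T4.filter (fun y => y % g ^ d = t)).card : ℝ) ≤
          ∑ t ∈ range (g ^ d), C * w ^ 2 * (g : ℝ) ^ a := Finset.sum_le_sum hone
      _ = _ := by
          rw [Finset.sum_const, card_range, nsmul_eq_mul]
          push_cast
          rw [pow_add]
          ring
  have hcardT : (T.card : ℝ) ≤ T0.card + T2.card + T3.card + T4.card := by
    have h1 := Finset.card_le_card hTsub
    have h2 := Finset.card_union_le (((T0 ∪ T2) ∪ T3)) T4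
    have h3 := Finset.card_union_le ((T0 ∪ T2)) T3
    have h4 := Finset.card_union_le T0 T2
    exact_mod_cast (by omega : T.card ≤ T0.card + T2.card + T3.card + T4.card)
  rw [hJJ, hrq, ← ha, Nat.add_sub_cancel_left]
  have e1 : (g : ℝ) ^ (a + d) * ((g : ℝ) ^ d)⁻¹ = (g : ℝ) ^ a := by
    rw [pow_add]
    field_simp
  have hw2 : 0 ≤ w ^ 2 := sq_nonneg w
  have hgad : (0 : ℝ) < (g : ℝ) ^ (a + d) := by positivity
  calc (T.card : ℝ) ≤ K1 * (g : ℝ) ^ a * w + (g : ℝ) ^ (a + d) * w ^ 2 + (g : ℝ) ^ (a + d) * w ^ 2 +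
        C * w ^ 2 * (g : ℝ) ^ (a + d) := by linarith
    _ = K1 * ((g : ℝ) ^ (a + d) * ((g : ℝ) ^ d)⁻¹) * w + (C + 2) * (g : ℝ) ^ (a + d) * w ^ 2 := by
        rw [e1]; ring
    _ ≤ (C + 2 + K1) * ((g : ℝ) ^ (a + d) * ((g : ℝ) ^ d)⁻¹) * w +
        (C + 2 + K1) * (g : ℝ) ^ (a + d) * w ^ 2 := by
        have h1 : 0 ≤ ((g : ℝ) ^ (a + d) * ((g : ℝ) ^ d)⁻¹) * w := by positivity
        have h2 : 0 ≤ (g : ℝ) ^ (a + d) * w ^ 2 := by positivity
        nlinarith
    _ = _ := by ring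

end Pool.Agent.Q160.TB
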