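import Mathlib
import Pool.Agent.TH888.R.Asy
import Pool.Agent.Q160.TB2

set_option autoImplicit false

/-!
# Random digit sequences, and systems of events with probabilities of a known order of magnitude
-/

namespace Pool.Agent.Q160.TB

open Finset Filter Topology MeasureTheory
open Pool.Agent.W66L (rpi rpi_nonneg rpi_le_one)
open Pool.Agent.TH888.R (wt wt_nonneg wt_le_one gr gr_mono one_le_gr blocks VS VS_mono VS_nonneg cS gr_small)
open Pool.Agent.W66S (moment_rows)
open Pool.Agent.H305R2 (roughPart log_nat_tendsto)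

section top

variable {Ω : Type*} [MeasurableSpace Ω]

/-- `X n` is the integer formed by the first `n` digits in base `g` of a random number. -/
structure Top (g : ℕ) (μ : Measure Ω) (X : ℕ → Ω → ℕ) : Prop where
  meas : ∀ n, Measurable (X n)
  compat : ∀ m n x, m ≤ n → X n x / g ^ (n - m) = X m x
  unif : ∀ n a, a < g ^ n → μ.real {x | X n x = a} = ((g : ℝ) ^ n)⁻¹

variable {μ : Measure Ω} [IsProbabilityMeasure μ] {g : ℕ} {X : ℕ → Ω → ℕ}

lemma Top.measSet (h : Top g μ X) (n a : ℕ) : MeasurableSet {x | X n x = a} :=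
  h.meas n (measurableSet_singleton a)

lemma Top.lt (h : Top g μ X) (hg : 2 ≤ g) (n : ℕ) : ∀ᵐ x ∂μ, X n x < g ^ n := by
  have e : {x | X n x < g ^ n} = ⋃ a ∈ range (g ^ n), {x | X n x = a} := by
    ext x
    simp
  have hm : MeasurableSet {x | X n x < g ^ n} := by
    rw [e]
    exact Finset.measurableSet_biUnion _ fun a _ => h.measSet n a
  have h1 : μ.real {x | X n x < g ^ n} = 1 := by
    rw [e, measureReal_biUnion_finset]
    · rw [Finset.sum_congr rfl (fun a ha => h.unif n a (mem_range.1 ha)), Finset.sum_const, card_range,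
        nsmul_eq_mul]
      have : (0 : ℝ) < (g : ℝ) ^ n := by positivity
      push_cast
      field_simp
    · intro a _ a' _ haa
      rw [Function.onFun, Set.disjoint_left]
      intro x hx hx'
      exact haa (hx.symm.trans hx')
    · intro a _
      exact h.measSet n a
  have h2 : μ.real {x | X n x < g ^ n}ᶜ = 0 := by
    rw [probReal_compl_eq_one_sub hm, h1, sub_self]
  rw [ae_iff]
  have h3 : {x | ¬ X n x < g ^ n} = {x | X n x < g ^ n}ᶜ := rfl
  rw [h3]
  rw [measureReal_def, ENNReal.toReal_eq_zero_iff] at h2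
  rcases h2 with h2 | h2
  · exact h2
  · exact absurd h2 (measure_ne_top _ _)

lemma Top.integral (h : Top g μ X) (hg : 2 ≤ g) (n : ℕ) (F : ℕ → ℝ) :
    ∫ x, F (X n x) ∂μ = (∑ a ∈ range (g ^ n), F a) * ((g : ℝ) ^ n)⁻¹ := by
  have h1 : ∀ᵐ x ∂μ, F (X n x) =
      ∑ a ∈ range (g ^ n), Set.indicator {x | X n x = a} (fun _ => F a) x := by
    filter_upwards [h.lt hg n] with x hx
    rw [Finset.sum_eq_single (X n x)]
    · rw [Set.indicator_of_mem]
      rfl
    · intro a _ ha
      rw [Set.indicator_of_notMem]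
      intro h2
      exact ha h2.symm
    · intro h2
      exact absurd (mem_range.2 hx) h2
  rw [integral_congr_ae h1, integral_finsetSum]
  · rw [Finset.sum_mul]
    refine Finset.sum_congr rfl fun a ha => ?_
    rw [integral_indicator (h.measSet n a), setIntegral_const, smul_eq_mul, h.unif n a (mem_range.1 ha),
      mul_comm]
  · intro a _
    exact (integrable_const (F a)).indicator (h.measSet n a)

lemma sum_split (a b : ℕ) (F : ℕ → ℝ) :
    ∑ y ∈ range (a * b), F y = ∑ u ∈ range a, ∑ t ∈ range b, F (u * b + t) := by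
  induction a with
  | zero => simp
  | succ a ih => rw [Nat.succ_mul, Finset.sum_range_add, ih, Finset.sum_range_succ]

/-- the local mean -/
noncomputable def avg (g d : ℕ) (F : ℕ → ℝ) (u : ℕ) : ℝ :=
  (∑ t ∈ range (g ^ d), F (u * g ^ d + t)) * ((g : ℝ) ^ d)⁻¹

/-- the conditional mean -/
lemma Top.cond (h : Top g μ X) (hg : 2 ≤ g) {m n : ℕ} (hmn : m ≤ n) (G F : ℕ → ℝ) :
    ∫ x, G (X m x) * F (X n x) ∂μ = ∫ x, G (X m x) * avg g (n - m) F (X m x) ∂μ := by
  obtain ⟨d, rfl⟩ := Nat.exists_eq_add_of_le hmn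
  rw [Nat.add_sub_cancel_left]
  have e1 : ∀ x, G (X m x) * F (X (m + d) x) = (fun y => G (y / g ^ d) * F y) (X (m + d) x) := by
    intro x
    have := h.compat m (m + d) x (by omega)
    rw [Nat.add_sub_cancel_left] at this
    simp only [this]
  simp only [e1]
  rw [h.integral hg (m + d) (fun y => G (y / g ^ d) * F y),
    h.integral hg m (fun u => G u * avg g d F u), pow_add, sum_split]
  have hgd : 0 < g ^ d := by positivity
  have hgd' : (0 : ℝ) < (g : ℝ) ^ d := by positivity
  have hgm' : (0 : ℝ) < (g : ℝ) ^ m := by positivity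
  have e2 : ∀ u ∈ range (g ^ m), ∑ t ∈ range (g ^ d), G ((u * g ^ d + t) / g ^ d) * F (u * g ^ d + t) =
      G u * avg g d F u * (g : ℝ) ^ d := by
    intro u _
    unfold avg
    have e3 : ∀ t ∈ range (g ^ d), G ((u * g ^ d + t) / g ^ d) * F (u * g ^ d + t) =
        G u * F (u * g ^ d + t) := by
      intro t ht
      rw [mem_range] at ht
      have : (u * g ^ d + t) / g ^ d = u := by
        rw [Nat.div_eq_iff hgd]
        constructor
        · omega
        · omega
      rw [this]
    rw [Finset.sum_congr rfl e3, ← Finset.mul_sum]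
    field_simp
  rw [Finset.sum_congr rfl e2, ← Finset.sum_mul]
  push_cast
  field_simp
  rw [pow_add]
  ring

end top

section syso

variable {Ω : Type*} [MeasurableSpace Ω]

/-- Nearly independent events with probabilities between `c1 wt q` and `c2 wt q`. -/
structure SysO (μ : Measure Ω) (f m : ℕ → Ω → ℝ) (c1 c2 : ℝ) : Prop where
  fm : ∀ q, Measurable (f q)
  mm : ∀ q, Measurable (m q)
  f01 : ∀ q x, f q x = 0 ∨ f q x = 1
  m0 : ∀ q x, 0 ≤ m q x
  m1 : ∀ q x, m q x ≤ 1
  mean : ∃ P : ℕ, ∀ᵐ x ∂μ, ∀ q ≥ P, q.Prime → c1 * wt q ≤ m q x ∧ m q x ≤ c2 * wt q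
  row : ∃ C : ℝ, 0 < C ∧ ∃ P : ℕ, (∀ q ≥ P, q.Prime → ∫ x, (f q x - m q x) ^ 2 ∂μ ≤ C * wt q) ∧
    ∀ q ≥ P, q.Prime → ∀ T : Finset ℕ, (∀ p ∈ T, p.Prime ∧ P ≤ p ∧ p < q) →
      ∑ p ∈ T, |∫ x, (f p x - m p x) * (f q x - m q x) ∂μ| ≤ C * wt q
  one : ∃ K : ℝ, 0 ≤ K ∧ ∃ P : ℕ, ∀ q ≥ P, q.Prime → ∫ x, f q x ∂μ ≤ K * wt q

variable {μ : Measure Ω} [IsFiniteMeasure μ] {f m : ℕ → Ω → ℝ} {c1 c2 : ℝ}

lemma SysO.f0 (h : SysO μ f m c1 c2) (q : ℕ) (x : Ω) : 0 ≤ f q x := by
  rcases h.f01 q x with h1 | h1 <;> rw [h1]; norm_num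

lemma SysO.f1 (h : SysO μ f m c1 c2) (q : ℕ) (x : Ω) : f q x ≤ 1 := by
  rcases h.f01 q x with h1 | h1 <;> rw [h1]; norm_num

lemma SysO.hb (h : SysO μ f m c1 c2) (q : ℕ) (x : Ω) : |f q x - m q x| ≤ 1 := by
  rw [abs_le]
  constructor <;> linarith [h.f0 q x, h.f1 q x, h.m0 q x, h.m1 q x]

open Classical in
lemma SysO.core (h : SysO μ f m c1 c2) (hc2 : 0 ≤ c2) (S : Set ℕ)
    (hdiv : Tendsto (VS S) atTop atTop) : ∃ P0 : ℕ, ∀ P ≥ P0,
    ∀ᵐ x ∂μ, ∃ B : ℝ, 0 ≤ B ∧ ∀ n : ℕ,
      |∑ q ∈ range n, (if q ∈ S ∧ q.Prime ∧ P ≤ q then f q x - m q x else 0)| ≤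
      B * gr (∑ q ∈ range n, if q ∈ S ∧ q.Prime ∧ P ≤ q then wt q else 0) := by
  obtain ⟨P1, hmean⟩ := h.mean
  obtain ⟨C, hC, P2, hdiag, hrow⟩ := h.row
  refine ⟨P1 + P2, fun P hP => ?_⟩
  set cd : ℕ → Prop := fun q => q ∈ S ∧ q.Prime ∧ P ≤ q with hcd
  have hdiv' : Tendsto (fun n => ∑ q ∈ range n, if cd q then wt q else 0) atTop atTop := by
    have h1 := Pool.Agent.TH888.R.div_tail hdiv P (fun _ => 1) (fun _ => le_rfl)
    simp only [mul_one] at h1
    exact h1
  have key := blocks (μ := μ) (f := fun q x => if cd q then f q x else 0)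
    (m := fun q x => if cd q then m q x else 0) (φ := fun q => if cd q then wt q else 0)
    (B0 := 1) (K := c2) (C := 3 * C)
    (fun q => by
      split_ifs
      · exact wt_nonneg q
      · exact le_rfl)
    (fun q => by
      split_ifs with hq
      · exact wt_le_one q
      · norm_num)
    hdiv' hc2 (by positivity)
    (fun q => by
      by_cases hq : cd q
      · simp only [if_pos hq]; exact h.fm q
      · simp only [if_neg hq]; exact measurable_const)
    (fun q => by
      by_cases hq : cd q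
      · simp only [if_pos hq]; exact h.mm q
      · simp only [if_neg hq]; exact measurable_const)
    (fun q x => by
      split_ifs
      · exact h.f0 q x
      · exact le_rfl)
    (fun q x => by
      split_ifs
      · exact h.m0 q x
      · exact le_rfl)
    (fun q x => by
      split_ifs
      · exact h.hb q x
      · norm_num)
    (by
      filter_upwards [hmean] with x hx q
      split_ifs with hq
      · exact (hx q (by have := hq.2.2; omega) hq.2.1).2
      · rw [mul_zero])
    (by
      intro a b hab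
      set T := (Ico a b).filter cd with hT
      have e1 : ∀ x, ∑ q ∈ Ico a b, ((if cd q then f q x else 0) - if cd q then m q x else 0) =
          ∑ q ∈ T, (f q x - m q x) := by
        intro x
        rw [hT, Finset.sum_filter]
        refine Finset.sum_congr rfl fun q _ => ?_
        split_ifs
        · rfl
        · norm_num
      have e2 : ∑ q ∈ Ico a b, (if cd q then wt q else 0) = ∑ q ∈ T, wt q := by
        rw [hT, Finset.sum_filter]
      simp only [e1, e2]
      have hGm : ∀ q, Measurable (fun x => f q x - m q x) := fun q => (h.fm q).sub (h.mm q)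
      refine (moment_rows (μ := μ) (G := fun q x => f q x - m q x) hGm h.hb T).trans ?_
      rw [Finset.mul_sum]
      refine Finset.sum_le_sum fun q hq => ?_
      rw [hT, mem_filter] at hq
      have hqc := hq.2
      have hPq : P2 ≤ q := by have := hqc.2.2; omega
      have h1 := hdiag q hPq hqc.2.1
      have h2 := hrow q hPq hqc.2.1 (T.filter (fun p => p < q)) (by
        intro p hp
        rw [mem_filter, hT, mem_filter] at hp
        exact ⟨hp.1.2.2.1, by have := hp.1.2.2.2; omega, hp.2⟩)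
      linarith)
  filter_upwards [key] with x hx
  obtain ⟨B, hB1, hB2⟩ := hx
  refine ⟨B, hB1, fun n => ?_⟩
  have := hB2 n
  refine le_trans (le_of_eq ?_) this
  congr 1
  refine Finset.sum_congr rfl fun q _ => ?_
  simp only [hcd]
  split_ifs
  · rfl
  · norm_num

/-- **Convergence part.** -/
theorem SysO.fin (h : SysO μ f m c1 c2) (S : Set ℕ) (hdiv : ¬ Tendsto (VS S) atTop atTop) :
    ∀ᵐ x ∂μ, {q : ℕ | q ∈ S ∧ q.Prime ∧ f q x = 1}.Finite := by
  classical
  obtain ⟨K, hK, P, hone⟩ := h.one
  set a : ℕ → ℝ := fun q => if q ∈ S ∧ q.Prime then wt q else 0 with ha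
  have ha0 : ∀ q, 0 ≤ a q := by
    intro q
    simp only [ha]
    split_ifs
    · exact wt_nonneg q
    · exact le_rfl
  have hsum : Summable a := by
    rcases tendsto_atTop_of_monotone (VS_mono S) with h1 | ⟨l, hl⟩
    · exact absurd h1 hdiv
    · refine summable_of_sum_range_le (c := l) ha0 fun n => ?_
      have h2 : VS S n ≤ l := (VS_mono _).ge_of_tendsto hl n
      refine le_trans ?_ h2
      unfold VS
      refine Finset.sum_le_sum_of_subset_of_nonneg (Finset.range_mono (by omega)) fun q _ _ => ?_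
      have := ha0 q
      simp only [ha] at this
      convert this
  set s : ℕ → Set Ω := fun q => {x | q ∈ S ∧ q.Prime ∧ P ≤ q ∧ f q x = 1} with hs
  have hsm : ∀ q, μ (s q) ≤ ENNReal.ofReal (K * a q) := by
    intro q
    by_cases hq : q ∈ S ∧ q.Prime ∧ P ≤ q
    · have h1 : μ (s q) ≤ ∫⁻ x, ENNReal.ofReal (f q x) ∂μ := by
        have h2 := mul_meas_ge_le_lintegral (μ := μ) (f := fun x => ENNReal.ofReal (f q x))
          (h.fm q).ennreal_ofReal 1
        rw [one_mul] at h2
        refine le_trans (measure_mono ?_) h2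
        intro x hx
        simp only [hs, Set.mem_ofPred_eq] at hx
        show 1 ≤ ENNReal.ofReal (f q x)
        rw [hx.2.2.2]
        simp
      have hint : Integrable (f q) μ := by
        refine Integrable.of_bound (h.fm q).aestronglyMeasurable 1 (Eventually.of_forall fun x => ?_)
        rw [Real.norm_of_nonneg (h.f0 q x)]
        exact h.f1 q x
      rw [← ofReal_integral_eq_lintegral_ofReal hint (Eventually.of_forall (h.f0 q))] at h1
      refine h1.trans (ENNReal.ofReal_le_ofReal ?_)
      simp only [ha]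
      rw [if_pos ⟨hq.1, hq.2.1⟩]
      exact hone q hq.2.2 hq.2.1
    · have : s q = ∅ := by
        ext x
        simp only [hs, Set.mem_ofPred_eq, Set.mem_empty_iff_false, iff_false]
        intro h1
        exact hq ⟨h1.1, h1.2.1, h1.2.2.1⟩
      rw [this]
      simp
  have htop : ∑' q, μ (s q) ≠ ⊤ := by
    refine ne_top_of_le_ne_top ?_ (ENNReal.tsum_le_tsum hsm)
    rw [← ENNReal.ofReal_tsum_of_nonneg (fun q => mul_nonneg hK (ha0 q)) (hsum.mul_left K)]
    exact ENNReal.ofReal_ne_top
  filter_upwards [ae_eventually_notMem htop] with x hx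
  obtain ⟨N, hN⟩ := eventually_atTop.1 hx
  refine (Set.finite_lt_nat (N + P)).subset fun q hq => ?_
  obtain ⟨h1, h2, h3⟩ := hq
  show q < N + P
  by_contra h4
  exact hN q (by omega) ⟨h1, h2, by omega, h3⟩

/-- The order of magnitude and the dichotomy at one point, for the integers `s p`. -/
structure PtO (s : ℕ → ℕ) (c1 c2 : ℝ) (S : Set ℕ) : Prop where
  law : Tendsto (VS S) atTop atTop → ∀ᶠ n : ℕ in atTop,
    c1 * VS S n ≤ (cS S s n : ℝ) ∧ (cS S s n : ℝ) ≤ c2 * VS S n
  fin : ¬ Tendsto (VS S) atTop atTop → {p : ℕ | p.Prime ∧ p ∈ S ∧ (roughPart p (s p)).Prime}.Finite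

open Classical in
/-- **From a system to the counting function.** -/
theorem SysO.pt (h : SysO μ f m c1 c2) (hc1 : 0 < c1) (hc2 : 0 < c2) {s : Ω → ℕ → ℕ}
    (hs : ∀ x p, f p x = rpi p (s x p)) (S : Set ℕ) :
    ∀ᵐ x ∂μ, PtO (s x) (c1 / 2) (2 * c2) S := by
  by_cases hdiv : Tendsto (VS S) atTop atTop
  · obtain ⟨P0, hcore⟩ := h.core hc2.le S hdiv
    obtain ⟨P1, hmean⟩ := h.mean
    have hk := hcore (P0 + P1) (by omega)
    filter_upwards [hk, hmean] with x hx hmx
    obtain ⟨B, hB, hBn⟩ := hx
    set P := P0 + P1 with hP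
    set V : ℕ → ℝ := fun n => ∑ q ∈ range n, if q ∈ S ∧ q.Prime ∧ P ≤ q then wt q else 0 with hV
    have hVdiv : Tendsto V atTop atTop := by
      have h1 := Pool.Agent.TH888.R.div_tail hdiv P (fun _ => 1) (fun _ => le_rfl)
      simp only [mul_one] at h1
      exact h1
    have hV1 : ∀ n, V (n + 1) ≤ VS S n := by
      intro n
      simp only [hV]
      unfold VS
      refine Finset.sum_le_sum fun q _ => ?_
      have := wt_nonneg q
      by_cases h1 : q ∈ S ∧ q.Prime
      · rw [if_pos h1]
        split_ifs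
        · exact le_rfl
        · exact this
      · rw [if_neg h1, if_neg fun h2 => h1 ⟨h2.1, h2.2.1⟩]
    have hsmallP : ∀ n : ℕ, ∑ p ∈ range (n + 1), (if p < P then (1 : ℝ) else 0) ≤ P := by
      intro n
      rw [Finset.sum_ite, Finset.sum_const_zero, add_zero, Finset.sum_const, nsmul_eq_mul, mul_one]
      have : ((range (n + 1)).filter (fun q => q < P)).card ≤ P := by
        calc _ ≤ (range P).card := Finset.card_le_card fun q hq => by
                rw [mem_filter] at hq
                exact mem_range.2 hq.2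
          _ = P := Finset.card_range P
      exact_mod_cast this
    have hV2 : ∀ n, VS S n ≤ V (n + 1) + P := by
      intro n
      refine le_trans ?_ (add_le_add (le_refl _) (hsmallP n))
      simp only [hV]
      unfold VS
      rw [← Finset.sum_add_distrib]
      refine Finset.sum_le_sum fun q _ => ?_
      have hw := wt_nonneg q
      have hw1 := wt_le_one q
      by_cases h1 : q ∈ S ∧ q.Prime
      · rw [if_pos h1]
        by_cases h2 : P ≤ q
        · rw [if_pos ⟨h1.1, h1.2, h2⟩, if_neg (by omega)]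
          linarith
        · rw [if_neg (fun h3 => h2 h3.2.2), if_pos (by omega)]
          linarith
      · rw [if_neg h1, if_neg fun h2 => h1 ⟨h2.1, h2.2.1⟩]
        split_ifs <;> norm_num
    -- the count
    have hcnt : ∀ n, (cS S (s x) n : ℝ) = ∑ p ∈ range (n + 1),
        if p ∈ S ∧ p.Prime then f p x else 0 := by
      intro n
      unfold cS
      rw [Finset.card_eq_sum_ones, Finset.sum_filter]
      push_cast
      refine Finset.sum_congr rfl fun p _ => ?_
      rw [hs x p]
      unfold rpi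
      by_cases h1 : p ∈ S ∧ p.Prime
      · rw [if_pos h1]
        by_cases h2 : (roughPart p (s x p)).Prime
        · rw [if_pos ⟨h1.2, h1.1, h2⟩, if_pos h2]
        · rw [if_neg (fun h3 => h2 h3.2.2), if_neg h2]
      · rw [if_neg h1, if_neg fun h2 => h1 ⟨h2.2.1, h2.1⟩]
    have hc_lo : ∀ n, ∑ q ∈ range (n + 1), (if q ∈ S ∧ q.Prime ∧ P ≤ q then f q x else 0) ≤
        cS S (s x) n := by
      intro n
      rw [hcnt n]
      refine Finset.sum_le_sum fun q _ => ?_
      have := h.f0 q x
      by_cases h1 : q ∈ S ∧ q.Prime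
      · rw [if_pos h1]
        split_ifs
        · exact le_rfl
        · exact this
      · rw [if_neg h1, if_neg fun h2 => h1 ⟨h2.1, h2.2.1⟩]
    have hc_hi : ∀ n, (cS S (s x) n : ℝ) ≤
        ∑ q ∈ range (n + 1), (if q ∈ S ∧ q.Prime ∧ P ≤ q then f q x else 0) + P := by
      intro n
      rw [hcnt n]
      refine le_trans ?_ (add_le_add (le_refl _) (hsmallP n))
      rw [← Finset.sum_add_distrib]
      refine Finset.sum_le_sum fun q _ => ?_
      have hw := h.f0 q x
      have hw1 := h.f1 q x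
      by_cases h1 : q ∈ S ∧ q.Prime
      · rw [if_pos h1]
        by_cases h2 : P ≤ q
        · rw [if_pos ⟨h1.1, h1.2, h2⟩, if_neg (by omega)]
          linarith
        · rw [if_neg (fun h3 => h2 h3.2.2), if_pos (by omega)]
          linarith
      · rw [if_neg h1, if_neg fun h2 => h1 ⟨h2.1, h2.2.1⟩]
        split_ifs <;> norm_num
    have hm_lo : ∀ n, c1 * V n ≤
        ∑ q ∈ range n, (if q ∈ S ∧ q.Prime ∧ P ≤ q then m q x else 0) := by
      intro n
      simp only [hV]
      rw [Finset.mul_sum]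
      refine Finset.sum_le_sum fun q _ => ?_
      split_ifs with h1
      · exact (hmx q (by omega) h1.2.1).1
      · rw [mul_zero]
    have hm_hi : ∀ n, ∑ q ∈ range n, (if q ∈ S ∧ q.Prime ∧ P ≤ q then m q x else 0) ≤ c2 * V n := by
      intro n
      simp only [hV]
      rw [Finset.mul_sum]
      refine Finset.sum_le_sum fun q _ => ?_
      split_ifs with h1
      · exact (hmx q (by omega) h1.2.1).2
      · rw [mul_zero]
    have hsub : ∀ n, ∑ q ∈ range n, (if q ∈ S ∧ q.Prime ∧ P ≤ q then f q x - m q x else 0) =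
        ∑ q ∈ range n, (if q ∈ S ∧ q.Prime ∧ P ≤ q then f q x else 0) -
        ∑ q ∈ range n, (if q ∈ S ∧ q.Prime ∧ P ≤ q then m q x else 0) := by
      intro n
      rw [← Finset.sum_sub_distrib]
      refine Finset.sum_congr rfl fun q _ => ?_
      split_ifs
      · rfl
      · norm_num
    refine ⟨fun _ => ?_, fun h1 => absurd hdiv h1⟩
    have hVt : Tendsto (fun n => V (n + 1)) atTop atTop := (tendsto_add_atTop_iff_nat 1).2 hVdiv
    set cm := min (c1 / 4) (c2 / 4) with hcm
    have hcm0 : 0 < cm := lt_min (by positivity) (by positivity)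
    filter_upwards [hVt.eventually (gr_small hB hcm0), hVt.eventually_ge_atTop (4 * (P : ℝ)),
      hVt.eventually_ge_atTop (4 * (P : ℝ) / c2), hVt.eventually_ge_atTop 0] with n h1 h2 h3 h4
    have h5 := hBn (n + 1)
    rw [hsub] at h5
    have h6 : B * gr (V (n + 1)) ≤ cm * V (n + 1) := h1
    have h7 : cm * V (n + 1) ≤ c1 / 4 * V (n + 1) := mul_le_mul_of_nonneg_right (min_le_left _ _) h4
    have h8 : cm * V (n + 1) ≤ c2 / 4 * V (n + 1) := mul_le_mul_of_nonneg_right (min_le_right _ _) h4
    have h9 := hV1 n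
    have h10 := hV2 n
    have h11 := hc_lo n
    have h12 := hc_hi n
    have h13 := hm_lo (n + 1)
    have h14 := hm_hi (n + 1)
    obtain ⟨h15, h16⟩ := abs_le.1 h5
    change -(B * gr (V (n + 1))) ≤ _ at h15
    change _ ≤ B * gr (V (n + 1)) at h16
    have hP0 : (0 : ℝ) ≤ P := Nat.cast_nonneg P
    have h17 : VS S n ≤ 5 / 4 * V (n + 1) := by linarith
    constructor
    · have h18 : c1 / 2 * VS S n ≤ c1 / 2 * (5 / 4 * V (n + 1)) :=
        mul_le_mul_of_nonneg_left h17 (by positivity)
      nlinarith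
    · have h18 : 2 * c2 * V (n + 1) ≤ 2 * c2 * VS S n := mul_le_mul_of_nonneg_left h9 (by positivity)
      have h19 : (P : ℝ) ≤ c2 / 4 * V (n + 1) := by
        rw [div_le_iff₀ hc2] at h3
        linarith
      nlinarith
  · filter_upwards [h.fin S hdiv] with x hx
    refine ⟨fun h1 => absurd h1 hdiv, fun _ => ?_⟩
    refine hx.subset fun p hp => ?_
    obtain ⟨h1, h2, h3⟩ := hp
    refine ⟨h2, h1, ?_⟩
    rw [hs x p]
    unfold rpi
    rw [if_pos h3]

end syso

end Pool.Agent.Q160.TB
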