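import Mathlib
import Pool.Agent.Q160.TB3

set_option autoImplicit false

/-!
# Windows with random last digits and arbitrary first digits
-/

namespace Pool.Agent.Q160.TB

open Finset Filter Topology MeasureTheory
open Pool.Agent.W66L (rpi rpi_nonneg rpi_le_one)
open Pool.Agent.TH888.R (wt wt_nonneg wt_le_one VS cS)
open Pool.Agent.W66S (count_primes)
open Pool.Agent.H305R2 (roughPart log_nat_tendsto)

/-- the local mean as a sum over an interval -/
lemma avg_eq {g : ℕ} (q c0 d u : ℕ) (hc0 : 1 ≤ c0) : avg g d (fun y => rpi q (c0 + y)) u =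
    (∑ m ∈ Ioc (c0 + u * g ^ d - 1) (c0 + u * g ^ d - 1 + g ^ d), rpi q m) * ((g : ℝ) ^ d)⁻¹ := by
  unfold avg
  congr 1
  refine Finset.sum_bij' (i := fun t _ => c0 + (u * g ^ d + t)) (j := fun m _ => m - (c0 + u * g ^ d))
    ?_ ?_ ?_ ?_ ?_
  · intro x hx
    rw [mem_range] at hx
    rw [mem_Ioc]
    omega
  · intro m hm
    rw [mem_Ioc] at hm
    rw [mem_range]
    omega
  · intro x _
    omega
  · intro m hm
    rw [mem_Ioc] at hm
    omega
  · intro x _
    rfl

lemma avg_nonneg {g : ℕ} (q c0 d u : ℕ) : 0 ≤ avg g d (fun y => rpi q (c0 + y)) u := by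
  unfold avg
  exact mul_nonneg (Finset.sum_nonneg fun _ _ => rpi_nonneg _ _) (by positivity)

lemma avg_le_one {g : ℕ} (hg : 2 ≤ g) (q c0 d u : ℕ) : avg g d (fun y => rpi q (c0 + y)) u ≤ 1 := by
  unfold avg
  have h1 : ∑ t ∈ range (g ^ d), rpi q (c0 + (u * g ^ d + t)) ≤ (g : ℝ) ^ d := by
    calc _ ≤ ∑ t ∈ range (g ^ d), (1 : ℝ) := Finset.sum_le_sum fun _ _ => rpi_le_one _ _
      _ = _ := by rw [Finset.sum_const, card_range, nsmul_eq_mul]; push_cast; ring
  have h2 : (0 : ℝ) < (g : ℝ) ^ d := by positivity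
  rw [← div_eq_mul_inv, div_le_one h2]
  exact h1

/-- the number of leading random digits that are fixed -/
noncomputable def RR (ε : ℝ) (r : ℕ → ℕ) (q : ℕ) : ℕ := ⌊ε * r q⌋₊

/-- **The local means have the expected order of magnitude.** -/
theorem mean_fam : ∃ δ η : ℝ, 0 < δ ∧ δ ≤ 1 / 4 ∧ 0 < η ∧ ∀ g : ℕ, 2 ≤ g → ∀ κ : ℝ, 0 < κ → ∀ D : ℕ,
    ∃ c1 c2 : ℝ, 0 < c1 ∧ 0 < c2 ∧ ∀ (τ : ℝ) (c r : ℕ → ℕ), τ ≤ 1 + δ / 8 → Fam g κ D τ c r →
    ∀ᶠ q : ℕ in atTop, ∀ u : ℕ, u < g ^ (RR (δ / 8) r q) →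
      c1 * wt q ≤ avg g (r q - RR (δ / 8) r q) (fun y => rpi q (c q + y)) u ∧
      avg g (r q - RR (δ / 8) r q) (fun y => rpi q (c q + y)) u ≤ c2 * wt q := by
  obtain ⟨δ, η, hδ, hδ4, hη, hlow⟩ := win_lower
  refine ⟨δ, η, hδ, hδ4, hη, fun g hg κ hκ D => ?_⟩
  obtain ⟨lg, hlg⟩ : ∃ lg, lg = Real.log g := ⟨_, rfl⟩
  have hgr : (2 : ℝ) ≤ g := by exact_mod_cast hg
  have hlg0 : 0 < lg := by rw [hlg]; exact Real.log_pos (by linarith)
  obtain ⟨K, hK, hup⟩ := win_upper (κ := lg * κ / 4) (by positivity)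
  refine ⟨η / (2 * (D + 1) * lg), K, by positivity, hK, fun τ c r hτ hF => ?_⟩
  obtain ⟨P1, hP1⟩ := hF.low
  obtain ⟨P2, hP2⟩ := hF.high
  have hbig : ∀ᶠ q : ℕ in atTop, (1 + 16 / δ + 4) / κ ≤ (q : ℝ) :=
    tendsto_natCast_atTop_atTop.eventually_ge_atTop _
  filter_upwards [hup, hlow (lg * κ / 4) (by positivity), hbig, eventually_ge_atTop P1,
    eventually_ge_atTop P2, eventually_ge_atTop 3] with q hupq hlowq hq hqP1 hqP2 hq3 u hu
  have hq3' : (3 : ℝ) ≤ q := by exact_mod_cast hq3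
  have hq0 : (0 : ℝ) < q := by linarith
  have hlq0 : 0 < Real.log q := Real.log_pos (by linarith)
  rw [div_le_iff₀ hκ] at hq
  have hδ16 : 0 < 16 / δ := by positivity
  obtain ⟨n, hn⟩ : ∃ n, n = r q := ⟨_, rfl⟩
  obtain ⟨R, hR⟩ : ∃ R, R = RR (δ / 8) r q := ⟨_, rfl⟩
  rw [← hR] at hu ⊢
  rw [← hn]
  have hlin := hF.lin q
  rw [← hn] at hlin
  have hnbig : 16 / δ + 4 ≤ (n : ℝ) := by linarith
  have hn0 : (0 : ℝ) < n := by linarith
  have hRle : (R : ℝ) ≤ δ / 8 * n := by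
    rw [hR, RR, ← hn]
    exact Nat.floor_le (by positivity)
  have hR2 : 2 ≤ R := by
    rw [hR, RR, ← hn]
    apply Nat.le_floor
    push_cast
    have : δ / 8 * (16 / δ) = 2 := by field_simp; norm_num
    nlinarith
  have hRn : R ≤ n := by
    have : (R : ℝ) ≤ n := by nlinarith
    exact_mod_cast this
  obtain ⟨d, hd⟩ : ∃ d, d = n - R := ⟨_, rfl⟩
  rw [← hd]
  have hdr : (d : ℝ) = n - R := by rw [hd]; push_cast [Nat.cast_sub hRn]; ring
  have hdge : (1 - δ / 8) * n ≤ d := by rw [hdr]; linarith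
  have hg0 : (0 : ℝ) < g := by linarith
  have hpw : ∀ k : ℕ, (g : ℝ) ^ k = Real.exp (lg * k) := by
    intro k
    rw [mul_comm, Real.exp_nat_mul, hlg, Real.exp_log hg0]
  have hcq := hP1 q hqP1
  have hhq := hP2 q hqP2
  rw [← hn] at hcq hhq
  have hc1 : 1 ≤ c q := le_trans (Nat.one_le_pow _ _ (by omega)) hcq
  rw [avg_eq q (c q) d u hc1]
  obtain ⟨A, hA⟩ : ∃ A, A = c q + u * g ^ d - 1 := ⟨_, rfl⟩
  rw [← hA]
  have hgn : g ^ n = g ^ R * g ^ d := by rw [← pow_add, hd]; congr 1; omega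
  have hgd1 : 1 ≤ g ^ d := Nat.one_le_pow _ _ (by omega)
  have hgR4 : 4 ≤ g ^ R := by
    calc 4 = 2 ^ 2 := by norm_num
      _ ≤ g ^ 2 := Nat.pow_le_pow_left hg 2
      _ ≤ g ^ R := Nat.pow_le_pow_right (by omega) hR2
  have hgn4 : 4 * g ^ d ≤ g ^ n := by rw [hgn]; exact Nat.mul_le_mul_right _ hgR4
  have hA2 : 2 * g ^ d ≤ A := by omega
  have hAH : A + g ^ d ≤ c q + g ^ n := by
    have h1 : (u + 1) * g ^ d ≤ g ^ n := by rw [hgn]; exact Nat.mul_le_mul_right _ (by omega)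
    have h2 : (u + 1) * g ^ d = u * g ^ d + g ^ d := by ring
    omega
  have hAHr : ((A + g ^ d : ℕ) : ℝ) ≤ Real.exp (lg * n * τ) := by
    calc ((A + g ^ d : ℕ) : ℝ) ≤ ((c q + g ^ n : ℕ) : ℝ) := by exact_mod_cast hAH
      _ = (c q : ℝ) + (g : ℝ) ^ n := by push_cast; ring
      _ ≤ ((g : ℝ) ^ n) ^ τ := hhq
      _ = Real.exp (lg * n * τ) := by rw [hpw, ← Real.exp_mul]
  have hHr : ((g ^ d : ℕ) : ℝ) = Real.exp (lg * d) := by push_cast; exact hpw d
  have hH0 : (0 : ℝ) < ((g ^ d : ℕ) : ℝ) := by rw [hHr]; exact Real.exp_pos _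
  have hAH0 : (0 : ℝ) < ((A + g ^ d : ℕ) : ℝ) := by exact_mod_cast (by omega : 0 < A + g ^ d)
  have hlgn : 0 < lg * n := by positivity
  have hexpH : Real.exp (lg * κ / 4 * q) ≤ ((g ^ d : ℕ) : ℝ) := by
    rw [hHr]
    refine Real.exp_le_exp.2 ?_
    have h1 : κ / 4 * q ≤ d := by nlinarith
    calc lg * κ / 4 * q = lg * (κ / 4 * q) := by ring
      _ ≤ lg * d := mul_le_mul_of_nonneg_left h1 hlg0.le
  have hnτ : lg * n * τ ≤ lg * n * (1 + δ / 8) := mul_le_mul_of_nonneg_left hτ hlgn.le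
  have hupper := hupq A (g ^ d) hexpH (by
    refine hAHr.trans ?_
    rw [hHr, ← Real.exp_mul]
    refine Real.exp_le_exp.2 (hnτ.trans ?_)
    have h1 : n * (1 + δ / 8) ≤ (d : ℝ) * (9 / 8) := by nlinarith
    calc lg * n * (1 + δ / 8) = lg * (n * (1 + δ / 8)) := by ring
      _ ≤ lg * (d * (9 / 8)) := mul_le_mul_of_nonneg_left h1 hlg0.le
      _ = lg * d * (9 / 8) := by ring)
  have hlower := hlowq A (g ^ d) hexpH hA2 (by
    have h2 : ((A + g ^ d : ℕ) : ℝ) ^ (1 - δ / 2) ≤ (Real.exp (lg * n * τ)) ^ (1 - δ / 2) :=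
      Real.rpow_le_rpow hAH0.le hAHr (by linarith)
    refine h2.trans ?_
    rw [hHr, ← Real.exp_mul]
    refine Real.exp_le_exp.2 ?_
    have h3 : lg * n * τ * (1 - δ / 2) ≤ lg * n * (1 + δ / 8) * (1 - δ / 2) :=
      mul_le_mul_of_nonneg_right hnτ (by linarith)
    refine h3.trans ?_
    have h1 : n * (1 + δ / 8) * (1 - δ / 2) ≤ (d : ℝ) := by nlinarith
    calc lg * n * (1 + δ / 8) * (1 - δ / 2) = lg * (n * (1 + δ / 8) * (1 - δ / 2)) := by ring
      _ ≤ lg * d := mul_le_mul_of_nonneg_left h1 hlg0.le)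
  have hgd' : (0 : ℝ) < (g : ℝ) ^ d := by positivity
  have hcast : ((g ^ d : ℕ) : ℝ) = (g : ℝ) ^ d := by push_cast; rfl
  rw [hcast] at hupper hlower
  constructor
  · have hA1 : (1 : ℝ) < A := by
      have : 2 ≤ A := by omega
      exact_mod_cast this
    have hlA0 : 0 < Real.log A := Real.log_pos hA1
    have hlA : Real.log A ≤ 2 * (D + 1) * lg * q := by
      have h1 : (A : ℝ) ≤ Real.exp (lg * n * τ) := by
        refine le_trans ?_ hAHr
        exact_mod_cast (by omega : A ≤ A + g ^ d)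
      have h2 : Real.log A ≤ lg * n * τ := by
        rw [Real.log_le_iff_le_exp (by linarith)]
        exact h1
      have h3 : (n : ℝ) ≤ D * q := by rw [hn]; exact_mod_cast hF.up q
      have h4 : lg * n * τ ≤ lg * n * 2 := mul_le_mul_of_nonneg_left (by linarith) hlgn.le
      have h5 : lg * n * 2 ≤ lg * (D * q) * 2 := by gcongr
      have h6 : 0 < lg * q := by positivity
      nlinarith
    have h1 : η / (2 * (D + 1) * lg) * wt q * (g : ℝ) ^ d ≤
        η * (g : ℝ) ^ d * (Real.log q / Real.log A) := by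
      unfold wt
      calc η / (2 * (D + 1) * lg) * (Real.log q / q) * (g : ℝ) ^ d =
            η * (g : ℝ) ^ d * (Real.log q / (2 * (D + 1) * lg * q)) := by field_simp
        _ ≤ _ := by
            refine mul_le_mul_of_nonneg_left ?_ (by positivity)
            exact div_le_div_of_nonneg_left hlq0.le hlA0 hlA
    rw [← div_eq_mul_inv, le_div_iff₀ hgd']
    exact h1.trans hlower
  · rw [← div_eq_mul_inv, div_le_iff₀ hgd']
    refine hupper.trans (le_of_eq ?_)
    unfold wt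
    ring

lemma wt_anti {p q : ℕ} (hp : 3 ≤ p) (hpq : p ≤ q) : wt q ≤ wt p := by
  unfold wt
  apply Real.log_div_self_antitoneOn
  · show Real.exp 1 ≤ (p : ℝ)
    have : (3 : ℝ) ≤ p := by exact_mod_cast hp
    linarith [Real.exp_one_lt_d9]
  · show Real.exp 1 ≤ (q : ℝ)
    have : (3 : ℝ) ≤ q := by exact_mod_cast hp.trans hpq
    linarith [Real.exp_one_lt_d9]
  · exact_mod_cast hpq

lemma wt_le_mul {p q L : ℕ} (hp : 1 ≤ p) (hpq : p ≤ q) (hqL : q ≤ L * p) : wt p ≤ L * wt q := by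
  unfold wt
  have hp0 : (0 : ℝ) < p := by exact_mod_cast hp
  have hq0 : (0 : ℝ) < q := by exact_mod_cast (by omega : 0 < q)
  have h1 : Real.log p ≤ Real.log q := Real.log_le_log hp0 (by exact_mod_cast hpq)
  have h2 : 0 ≤ Real.log q := Real.log_natCast_nonneg q
  have h3 : (q : ℝ) ≤ L * p := by exact_mod_cast hqL
  rw [← mul_div_assoc, div_le_div_iff₀ hp0 hq0]
  calc Real.log p * q ≤ Real.log q * (L * p) := by gcongr
    _ = _ := by ring

section sys

variable {Ω : Type*} [MeasurableSpace Ω] {μ : Measure Ω} [IsProbabilityMeasure μ] {X : ℕ → Ω → ℕ}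

/-- **The events form a system.** -/
theorem sys_fam : ∃ δ : ℝ, 0 < δ ∧ δ ≤ 1 ∧ ∀ g : ℕ, 2 ≤ g → ∀ κ : ℝ, 0 < κ → ∀ D : ℕ,
    ∃ c1 c2 : ℝ, 0 < c1 ∧ 0 < c2 ∧ ∀ (τ : ℝ) (c r : ℕ → ℕ), 1 ≤ τ → τ ≤ 1 + δ → Fam g κ D τ c r →
    ∀ {Ω : Type} [MeasurableSpace Ω] {μ : Measure Ω} [IsProbabilityMeasure μ] {X : ℕ → Ω → ℕ},
    Top g μ X → ∃ m : ℕ → Ω → ℝ, SysO μ (fun q x => rpi q (c q + X (r q) x)) m c1 c2 := by
  classical
  obtain ⟨δ, η, hδ, hδ4, hη, hmean⟩ := mean_fam
  refine ⟨δ / 8, by positivity, by linarith, fun g hg κ hκ D => ?_⟩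
  obtain ⟨c1, c2, hc1, hc2, hmean2⟩ := hmean g hg κ hκ D
  refine ⟨c1, c2, hc1, hc2, fun τ c r hτ1 hτ hF => ?_⟩
  intro Ω _ μ _ X hX
  obtain ⟨P1, hP1⟩ := eventually_atTop.1 (hmean2 τ c r hτ hF)
  obtain ⟨L, hL⟩ : ∃ L : ℕ, L = ⌈(D + 1) / (δ / 8 * κ)⌉₊ := ⟨_, rfl⟩
  obtain ⟨K, hK, hnear⟩ := near_fam hg hκ hτ1 (by linarith) hF L
  obtain ⟨P2, hP2⟩ := eventually_atTop.1 hnear
  obtain ⟨Cp, hCp, hcp⟩ := count_primes
  have hgr : (2 : ℝ) ≤ g := by exact_mod_cast hg
  have hg0 : (0 : ℝ) < g := by linarith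
  set R : ℕ → ℕ := fun q => RR (δ / 8) r q with hRdef
  have hRr : ∀ q, R q ≤ r q := by
    intro q
    have h1 : (R q : ℝ) ≤ δ / 8 * r q := Nat.floor_le (by positivity)
    have h2 : (0 : ℝ) ≤ r q := Nat.cast_nonneg _
    have h3 : (R q : ℝ) ≤ r q := by nlinarith
    exact_mod_cast h3
  have hRmono : ∀ q, ∀ p, p ≤ q → R p ≤ R q := by
    intro q p hpq
    refine Nat.floor_le_floor ?_
    have : (r p : ℝ) ≤ r q := by exact_mod_cast hF.mono p q hpq
    gcongr
  set F : ℕ → ℕ → ℝ := fun q y => rpi q (c q + y) with hFd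
  set f : ℕ → Ω → ℝ := fun q x => rpi q (c q + X (r q) x) with hf
  set m : ℕ → Ω → ℝ := fun q x => avg g (r q - R q) (F q) (X (R q) x) with hm
  have hfm : ∀ q, Measurable (f q) := fun q => (measurable_from_nat (f := F q)).comp (hX.meas (r q))
  have hmm : ∀ q, Measurable (m q) := fun q =>
    (measurable_from_nat (f := avg g (r q - R q) (F q))).comp (hX.meas (R q))
  have hf0 : ∀ q x, 0 ≤ f q x := fun q x => rpi_nonneg _ _
  have hf1 : ∀ q x, f q x ≤ 1 := fun q x => rpi_le_one _ _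
  have hm0 : ∀ q x, 0 ≤ m q x := fun q x => avg_nonneg _ _ _ _
  have hm1 : ∀ q x, m q x ≤ 1 := fun q x => avg_le_one hg _ _ _ _
  have hbd : ∀ (h : Ω → ℝ), Measurable h → (∀ x, |h x| ≤ 4) → Integrable h μ := fun h h1 h2 =>
    Integrable.of_bound h1.aestronglyMeasurable 4 (Eventually.of_forall fun x => by
      rw [Real.norm_eq_abs]; exact h2 x)
  have hmean3 : ∀ᵐ x ∂μ, ∀ q ≥ P1, c1 * wt q ≤ m q x ∧ m q x ≤ c2 * wt q := by
    have h1 : ∀ᵐ x ∂μ, ∀ q, X (R q) x < g ^ (R q) := by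
      rw [ae_all_iff]
      exact fun q => hX.lt hg (R q)
    filter_upwards [h1] with x hx q hq
    exact hP1 q hq _ (hx q)
  have hE : ∀ q ≥ P1, ∫ x, f q x ∂μ ≤ c2 * wt q := by
    intro q hq
    have h1 := hX.cond hg (hRr q) (fun _ => 1) (F q)
    simp only [one_mul] at h1
    have h2 : ∫ x, f q x ∂μ = ∫ x, m q x ∂μ := h1
    rw [h2]
    have h3 : ∫ x, m q x ∂μ ≤ ∫ _, c2 * wt q ∂μ := by
      refine integral_mono_ae (hbd _ (hmm q) fun x => ?_) (integrable_const _) ?_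
      · rw [abs_of_nonneg (hm0 q x)]; linarith [hm1 q x]
      · filter_upwards [hmean3] with x hx
        exact (hx q hq).2
    rwa [integral_const, smul_eq_mul, probReal_univ, one_mul] at h3
  -- far pairs
  have hfar : ∀ p q, r p ≤ R q → p ≤ q → ∫ x, (f p x - m p x) * (f q x - m q x) ∂μ = 0 := by
    intro p q hpq hpq'
    set G : ℕ → ℝ := fun u => F p (u / g ^ (R q - r p)) -
      avg g (r p - R p) (F p) (u / g ^ (R q - R p)) with hG
    have e1 : ∀ x, f p x - m p x = G (X (R q) x) := by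
      intro x
      have h1 := hX.compat (r p) (R q) x hpq
      have h2 := hX.compat (R p) (R q) x (hRmono q p hpq')
      simp only [hG, hf, hm, h1, h2]
      rfl
    simp only [e1]
    have h1 := hX.cond hg (hRr q) G (F q)
    have hGm : Measurable fun x => G (X (R q) x) := (measurable_from_nat (f := G)).comp (hX.meas (R q))
    have hGb : ∀ x, |G (X (R q) x)| ≤ 2 := by
      intro x
      rw [← e1 x, abs_le]
      constructor <;> linarith [hf0 p x, hf1 p x, hm0 p x, hm1 p x]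
    have e2 : ∀ x, G (X (R q) x) * (f q x - m q x) =
        G (X (R q) x) * F q (X (r q) x) - G (X (R q) x) * avg g (r q - R q) (F q) (X (R q) x) := by
      intro x
      rw [← mul_sub]
    simp only [e2]
    rw [integral_sub, h1, sub_self]
    · refine hbd _ (hGm.mul (hfm q)) fun x => ?_
      rw [abs_mul]
      have h2 := hGb x
      have h3 : |f q x| ≤ 1 := by rw [abs_of_nonneg (hf0 q x)]; exact hf1 q x
      calc _ ≤ 2 * 1 := mul_le_mul h2 h3 (abs_nonneg _) (by norm_num)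
        _ ≤ 4 := by norm_num
    · refine hbd _ (hGm.mul (hmm q)) fun x => ?_
      rw [abs_mul]
      have h2 := hGb x
      have h3 : |m q x| ≤ 1 := by rw [abs_of_nonneg (hm0 q x)]; exact hm1 q x
      calc _ ≤ 2 * 1 := mul_le_mul h2 h3 (abs_nonneg _) (by norm_num)
        _ ≤ 4 := by norm_num
  -- near pairs
  have hnear2 : ∀ p q, P1 + P2 + 3 ≤ p → p < q → q ≤ L * p →
      |∫ x, (f p x - m p x) * (f q x - m q x) ∂μ| ≤ (K + 3 * c2 ^ 2) *
        (wt p ^ 2 + ((g : ℝ) ^ (r q - r p))⁻¹ * wt p) := by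
    intro p q hp hpq hqL
    have hJ : ∫ x, f p x * f q x ∂μ = JJ g c r p q * ((g : ℝ) ^ r q)⁻¹ := by
      have e1 : ∀ x, f p x * f q x = (fun y => rpi p (c p + y / g ^ (r q - r p)) * rpi q (c q + y))
          (X (r q) x) := by
        intro x
        have h1 := hX.compat (r p) (r q) x (hF.mono p q hpq.le)
        simp only [hf, h1]
      simp only [e1]
      rw [hX.integral hg (r q) (fun y => rpi p (c p + y / g ^ (r q - r p)) * rpi q (c q + y))]
      rfl
    have hJle : ∫ x, f p x * f q x ∂μ ≤ K * (wt p ^ 2 + ((g : ℝ) ^ (r q - r p))⁻¹ * wt p) := by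
      rw [hJ, ← div_eq_mul_inv, div_le_iff₀ (by positivity)]
      refine (hP2 p (by omega) q hpq hqL).trans (le_of_eq ?_)
      unfold wt
      ring
    have hwp := wt_nonneg p
    have hwq := wt_nonneg q
    have hEp := hE p (by omega)
    have hEq := hE q (by omega)
    have hwqp := wt_anti (by omega : 3 ≤ p) hpq.le
    have hffm : Measurable fun x => f p x * f q x := (hfm p).mul (hfm q)
    have hffi : Integrable (fun x => f p x * f q x) μ := hbd _ hffm fun x => by
      rw [abs_of_nonneg (mul_nonneg (hf0 p x) (hf0 q x))]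
      have := mul_le_mul (hf1 p x) (hf1 q x) (hf0 q x) zero_le_one
      linarith
    have hfi : ∀ q, Integrable (f q) μ := fun q => hbd _ (hfm q) fun x => by
      rw [abs_of_nonneg (hf0 q x)]; linarith [hf1 q x]
    have h1 : ∫ x, |(f p x - m p x) * (f q x - m q x)| ∂μ ≤
        ∫ x, (f p x * f q x + c2 * wt q * f p x + c2 * wt p * f q x + c2 ^ 2 * (wt p * wt q)) ∂μ := by
      refine integral_mono_ae ?_ ?_ ?_
      · refine hbd _ (((hfm p).sub (hmm p)).mul ((hfm q).sub (hmm q))).abs fun x => ?_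
        rw [abs_abs, abs_mul]
        have h2 : |f p x - m p x| ≤ 1 := by
          rw [abs_le]; constructor <;> linarith [hf0 p x, hf1 p x, hm0 p x, hm1 p x]
        have h3 : |f q x - m q x| ≤ 1 := by
          rw [abs_le]; constructor <;> linarith [hf0 q x, hf1 q x, hm0 q x, hm1 q x]
        calc _ ≤ 1 * 1 := mul_le_mul h2 h3 (abs_nonneg _) (by norm_num)
          _ ≤ 4 := by norm_num
      · exact ((hffi.add ((hfi p).const_mul _)).add ((hfi q).const_mul _)).add (integrable_const _)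
      · filter_upwards [hmean3] with x hx
        have a1 := hf0 p x
        have a2 := hf0 q x
        have a3 := hm0 p x
        have a4 := hm0 q x
        have a5 := (hx p (by omega)).2
        have a6 := (hx q (by omega)).2
        have b1 : |f p x - m p x| ≤ f p x + m p x := by rw [abs_le]; constructor <;> linarith
        have b2 : |f q x - m q x| ≤ f q x + m q x := by rw [abs_le]; constructor <;> linarith
        rw [abs_mul]
        calc |f p x - m p x| * |f q x - m q x| ≤ (f p x + m p x) * (f q x + m q x) :=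
              mul_le_mul b1 b2 (abs_nonneg _) (by positivity)
          _ ≤ (f p x + c2 * wt p) * (f q x + c2 * wt q) := by gcongr
          _ = _ := by ring
    have h2 : ∫ x, (f p x * f q x + c2 * wt q * f p x + c2 * wt p * f q x + c2 ^ 2 * (wt p * wt q)) ∂μ =
        ∫ x, f p x * f q x ∂μ + c2 * wt q * ∫ x, f p x ∂μ + c2 * wt p * ∫ x, f q x ∂μ +
          c2 ^ 2 * (wt p * wt q) := by
      have i1 : Integrable (fun x => c2 * wt q * f p x) μ := (hfi p).const_mul _
      have i2 : Integrable (fun x => c2 * wt p * f q x) μ := (hfi q).const_mul _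
      have i3 : Integrable (fun x => f p x * f q x + c2 * wt q * f p x) μ := hffi.add i1
      have i4 : Integrable (fun x => f p x * f q x + c2 * wt q * f p x + c2 * wt p * f q x) μ := i3.add i2
      rw [integral_add i4 (integrable_const _), integral_add i3 i2, integral_add hffi i1,
        integral_const_mul, integral_const_mul, integral_const, smul_eq_mul, probReal_univ, one_mul]
    refine (abs_integral_le_integral_abs.trans h1).trans ?_
    rw [h2]
    have h3 : c2 * wt q * ∫ x, f p x ∂μ ≤ c2 * wt q * (c2 * wt p) :=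
      mul_le_mul_of_nonneg_left hEp (by positivity)
    have h4 : c2 * wt p * ∫ x, f q x ∂μ ≤ c2 * wt p * (c2 * wt q) :=
      mul_le_mul_of_nonneg_left hEq (by positivity)
    have h5 : c2 ^ 2 * (wt p * wt q) ≤ c2 ^ 2 * wt p ^ 2 := by
      refine mul_le_mul_of_nonneg_left ?_ (by positivity)
      rw [sq]
      exact mul_le_mul_of_nonneg_left hwqp hwp
    have h6 : 0 ≤ ((g : ℝ) ^ (r q - r p))⁻¹ * wt p := by positivity
    nlinarith [mul_nonneg (sq_nonneg c2) h6]
  refine ⟨m, hfm, hmm, fun q x => ?_, hm0, hm1, ⟨P1, ?_⟩, ?_, ⟨c2, hc2.le, P1, fun q hq _ => hE q hq⟩⟩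
  · simp only [hf]
    unfold rpi
    split_ifs
    · exact Or.inr rfl
    · exact Or.inl rfl
  · filter_upwards [hmean3] with x hx q hq _
    exact hx q hq
  -- rows
  set lg := Real.log g with hlg
  have hlg0 : 0 < lg := Real.log_pos (by linarith)
  set ρ := Real.exp (-(lg * κ)) with hρ
  have hρ0 : 0 < ρ := Real.exp_pos _
  have hρ1 : ρ < 1 := by
    rw [hρ, Real.exp_lt_one_iff]
    have : 0 < lg * κ := by positivity
    linarith
  have hgrow : ∀ p q : ℕ, p ≤ q → ((g : ℝ) ^ (r q - r p))⁻¹ ≤ g * ρ ^ (q - p) := by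
    intro p q hpq
    have h1 := hF.grow p q hpq
    have h2 := hF.mono p q hpq
    have e1 : (g : ℝ) ^ (r q - r p) = Real.exp (lg * ((r q : ℝ) - r p)) := by
      have : ((r q - r p : ℕ) : ℝ) = (r q : ℝ) - r p := by push_cast [Nat.cast_sub h2]; ring
      rw [← this, mul_comm, Real.exp_nat_mul, hlg, Real.exp_log hg0]
    have e2 : (g : ℝ) * ρ ^ (q - p) = Real.exp (lg - lg * κ * ((q : ℝ) - p)) := by
      have : ((q - p : ℕ) : ℝ) = (q : ℝ) - p := by push_cast [Nat.cast_sub hpq]; ring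
      rw [hρ, ← Real.exp_nat_mul, this]
      have e3 : (g : ℝ) = Real.exp lg := by rw [hlg, Real.exp_log hg0]
      nth_rewrite 1 [e3]
      rw [← Real.exp_add]
      congr 1
      ring
    rw [e1, e2, ← Real.exp_neg]
    refine Real.exp_le_exp.2 ?_
    nlinarith
  have hgeo : ∀ q : ℕ, ∀ T : Finset ℕ, (∀ p ∈ T, p < q) → ∑ p ∈ T, ρ ^ (q - p) ≤ 1 / (1 - ρ) := by
    intro q T hT
    have h1 : ∑ p ∈ T, ρ ^ (q - p) ≤ ∑ p ∈ range q, ρ ^ (q - p) :=
      Finset.sum_le_sum_of_subset_of_nonneg (fun p hp => mem_range.2 (hT p hp)) fun _ _ _ => by positivity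
    have h2 : ∑ p ∈ range q, ρ ^ (q - p) ≤ ∑ p ∈ range q, ρ ^ (q - 1 - p) := by
      refine Finset.sum_le_sum fun p hp => ?_
      exact pow_le_pow_of_le_one hρ0.le hρ1.le (by omega)
    rw [Finset.sum_range_reflect (fun j => ρ ^ j) q, geom_sum_eq hρ1.ne] at h2
    refine h1.trans (h2.trans ?_)
    have h3 : (ρ ^ q - 1) / (ρ - 1) = (1 - ρ ^ q) / (1 - ρ) := by
      rw [← neg_sub 1 (ρ ^ q), ← neg_sub 1 ρ, neg_div_neg_eq]
    rw [h3]
    have h4 : 0 < ρ ^ q := by positivity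
    exact div_le_div_of_nonneg_right (by linarith) (by linarith)
  have h1ρ : 0 < 1 - ρ := by linarith
  refine ⟨c2 + (K + 3 * c2 ^ 2) * (L * (L * Cp + g * (1 / (1 - ρ)))) + 1, by positivity,
    P1 + P2 + 3, fun q hq _ => ?_, fun q hq _ T hT => ?_⟩
  · -- the diagonal
    have h1 : ∫ x, (f q x - m q x) ^ 2 ∂μ = ∫ x, (f q x - 2 * (m q x * f q x) + m q x * m q x) ∂μ := by
      congr 1
      ext x
      have : f q x * f q x = f q x := by
        simp only [hf]
        unfold rpi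
        split_ifs <;> norm_num
      linear_combination this
    have h2 := hX.cond hg (hRr q) (avg g (r q - R q) (F q)) (F q)
    have h2' : ∫ x, m q x * f q x ∂μ = ∫ x, m q x * m q x ∂μ := h2
    have hi1 : Integrable (f q) μ := hbd _ (hfm q) fun x => by
      rw [abs_of_nonneg (hf0 q x)]; linarith [hf1 q x]
    have hi2 : Integrable (fun x => m q x * f q x) μ := hbd _ ((hmm q).mul (hfm q)) fun x => by
      rw [abs_of_nonneg (mul_nonneg (hm0 q x) (hf0 q x))]
      have := mul_le_mul (hm1 q x) (hf1 q x) (hf0 q x) zero_le_one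
      linarith
    have hi3 : Integrable (fun x => m q x * m q x) μ := hbd _ ((hmm q).mul (hmm q)) fun x => by
      rw [abs_of_nonneg (mul_nonneg (hm0 q x) (hm0 q x))]
      have := mul_le_mul (hm1 q x) (hm1 q x) (hm0 q x) zero_le_one
      linarith
    have h3 : 0 ≤ ∫ x, m q x * m q x ∂μ := integral_nonneg fun x => mul_nonneg (hm0 q x) (hm0 q x)
    have h4 := hE q (by omega)
    have hw := wt_nonneg q
    have i1 : Integrable (fun x => 2 * (m q x * f q x)) μ := hi2.const_mul 2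
    have i2 : Integrable (fun x => f q x - 2 * (m q x * f q x)) μ := hi1.sub i1
    rw [h1, integral_add i2 hi3, integral_sub hi1 i1, integral_const_mul, h2']
    have h5 : 0 ≤ (K + 3 * c2 ^ 2) * (L * (L * Cp + g * (1 / (1 - ρ)))) * wt q := by positivity
    nlinarith
  · -- the rows
    have hw := wt_nonneg q
    have hq2 : 2 ≤ q := by omega
    have hterm : ∀ p ∈ T, |∫ x, (f p x - m p x) * (f q x - m q x) ∂μ| ≤
        (K + 3 * c2 ^ 2) * (L * wt q) * (L * wt q + g * ρ ^ (q - p)) := by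
      intro p hp
      obtain ⟨_, hpP, hpq⟩ := hT p hp
      rcases le_or_gt (r p) (R q) with h1 | h1
      · rw [hfar p q h1 hpq.le, abs_zero]
        positivity
      · have hqL : q ≤ L * p := by
          have h2 : δ / 8 * (r q : ℝ) < r p := by
            have h3 : δ / 8 * (r q : ℝ) < R q + 1 := Nat.lt_floor_add_one _
            have h4 : ((R q : ℕ) : ℝ) + 1 ≤ r p := by exact_mod_cast h1
            linarith
          have h3 := hF.lin q
          have h4 : (r p : ℝ) ≤ D * p := by exact_mod_cast hF.up p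
          have hp1 : (1 : ℝ) ≤ p := by exact_mod_cast (by omega : 1 ≤ p)
          have h5 : (D + 1) / (δ / 8 * κ) ≤ (L : ℝ) := by rw [hL]; exact Nat.le_ceil _
          rw [div_le_iff₀ (by positivity)] at h5
          have h6 : δ / 8 * (κ * q) ≤ δ / 8 * ((r q : ℝ) + 1) := mul_le_mul_of_nonneg_left h3 (by positivity)
          have h7 : δ / 8 * κ * q ≤ (D + 1) * p := by nlinarith
          have h8 : (D + 1) * (p : ℝ) ≤ L * (δ / 8 * κ) * p :=
            mul_le_mul_of_nonneg_right h5 (by linarith)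
          have h9 : δ / 8 * κ * q ≤ δ / 8 * κ * (L * p) := by linarith
          have h10 : (q : ℝ) ≤ L * p := le_of_mul_le_mul_left h9 (by positivity)
          exact_mod_cast h10
        refine (hnear2 p q hpP hpq hqL).trans ?_
        have h2 := wt_le_mul (by omega : 1 ≤ p) hpq.le hqL
        have h3 := hgrow p q hpq.le
        have h4 := wt_nonneg p
        have h5 : 0 ≤ ((g : ℝ) ^ (r q - r p))⁻¹ := by positivity
        calc (K + 3 * c2 ^ 2) * (wt p ^ 2 + ((g : ℝ) ^ (r q - r p))⁻¹ * wt p) =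
              (K + 3 * c2 ^ 2) * (wt p * (wt p + ((g : ℝ) ^ (r q - r p))⁻¹)) := by ring
          _ ≤ (K + 3 * c2 ^ 2) * ((L * wt q) * (L * wt q + g * ρ ^ (q - p))) := by gcongr
          _ = _ := by ring
    refine (Finset.sum_le_sum hterm).trans ?_
    rw [← Finset.mul_sum, Finset.sum_add_distrib, Finset.sum_const, nsmul_eq_mul, ← Finset.mul_sum]
    have hcard := hcp q hq2 T fun p hp => ⟨(hT p hp).1, (hT p hp).2.2⟩
    have hlq : 0 < Real.log q := Real.log_pos (by exact_mod_cast (by omega : 1 < q))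
    have hq0 : (0 : ℝ) < q := by exact_mod_cast (by omega : 0 < q)
    have h1 : (T.card : ℝ) * (L * wt q) ≤ L * Cp := by
      calc (T.card : ℝ) * (L * wt q) ≤ (Cp * q / Real.log q) * (L * wt q) :=
            mul_le_mul_of_nonneg_right hcard (by positivity)
        _ = L * Cp := by unfold wt; field_simp
    have h2 := hgeo q T fun p hp => (hT p hp).2.2
    have h3 : (g : ℝ) * ∑ p ∈ T, ρ ^ (q - p) ≤ g * (1 / (1 - ρ)) := mul_le_mul_of_nonneg_left h2 hg0.le
    have h4 : (K + 3 * c2 ^ 2) * (L * wt q) * (T.card * (L * wt q) + g * ∑ p ∈ T, ρ ^ (q - p)) ≤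
        (K + 3 * c2 ^ 2) * (L * wt q) * (L * Cp + g * (1 / (1 - ρ))) :=
      mul_le_mul_of_nonneg_left (add_le_add h1 h3) (by positivity)
    refine h4.trans ?_
    have h5 : 0 ≤ (c2 + 1) * wt q := by positivity
    nlinarith

end sys

end Pool.Agent.Q160.TB
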