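import Mathlib
import Pool.Agent.Q160.TB4

set_option autoImplicit false

/-!
# Windows with random last digits: the counting functions
-/

namespace Pool.Agent.Q160.TB

open Finset Filter Topology MeasureTheory
open Pool.Agent.W66L (rpi rpi_nonneg rpi_le_one)
open Pool.Agent.TH888.R (wt wt_nonneg wt_le_one VS cS VS_univ_bound VS_univ_tendsto)
open Pool.Agent.H305R2 (roughPart log_nat_tendsto)

/-- **The order of magnitude of the counting functions.** -/
theorem fam_pt : ∃ δ : ℝ, 0 < δ ∧ δ ≤ 1 / 2 ∧ ∀ g : ℕ, 2 ≤ g → ∀ κ : ℝ, 0 < κ → ∀ D : ℕ,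
    ∃ c1 c2 : ℝ, 0 < c1 ∧ 0 < c2 ∧ ∀ (τ : ℝ) (c r : ℕ → ℕ), 1 ≤ τ → τ ≤ 1 + δ → Fam g κ D τ c r →
    ∀ {Ω : Type} [MeasurableSpace Ω] {μ : Measure Ω} [IsProbabilityMeasure μ] {X : ℕ → Ω → ℕ},
    Top g μ X → ∀ S : Set ℕ, ∀ᵐ x ∂μ, PtO (fun p => c p + X (r p) x) c1 c2 S := by
  obtain ⟨δ, hδ, hδ1, h⟩ := sys_fam
  refine ⟨min δ (1 / 2), lt_min hδ (by norm_num), min_le_right _ _, fun g hg κ hκ D => ?_⟩
  obtain ⟨c1, c2, hc1, hc2, h2⟩ := h g hg κ hκ D
  refine ⟨c1 / 2, 2 * c2, by positivity, by positivity, fun τ c r hτ1 hτ hF => ?_⟩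
  intro Ω _ μ _ X hX S
  obtain ⟨m, hm⟩ := h2 τ c r hτ1 (hτ.trans (by linarith [min_le_left δ (1 / 2)])) hF hX
  exact hm.pt hc1 hc2 (s := fun x p => c p + X (r p) x) (fun x p => rfl) S

/-- from `V` to `log n` -/
lemma PtO.log {s : ℕ → ℕ} {c1 c2 : ℝ} (hc1 : 0 < c1) (hc2 : 0 < c2) (h : PtO s c1 c2 Set.univ) :
    ∀ᶠ n : ℕ in atTop, c1 / 2 * Real.log n ≤ (cS Set.univ s n : ℝ) ∧
      (cS Set.univ s n : ℝ) ≤ 2 * c2 * Real.log n := by
  obtain ⟨C, hC, hV⟩ := VS_univ_bound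
  filter_upwards [h.law VS_univ_tendsto, log_nat_tendsto.eventually_ge_atTop (2 * C),
    eventually_ge_atTop 1] with n h1 h2 h3
  obtain ⟨h4, h5⟩ := abs_le.1 (hV n h3)
  constructor
  · refine le_trans ?_ h1.1
    have : Real.log n / 2 ≤ VS Set.univ n := by linarith
    calc c1 / 2 * Real.log n = c1 * (Real.log n / 2) := by ring
      _ ≤ _ := mul_le_mul_of_nonneg_left this hc1.le
  · refine h1.2.trans ?_
    have : VS Set.univ n ≤ 2 * Real.log n := by linarith
    calc c2 * VS Set.univ n ≤ c2 * (2 * Real.log n) := mul_le_mul_of_nonneg_left this hc2.le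
      _ = _ := by ring

/-- exponential sequences -/
lemma fam_exp {g : ℕ} (hg : 2 ≤ g) {lam : ℝ} (hlam : 0 < lam) {δ s : ℝ} (hδ : 0 < δ) (hδ2 : δ ≤ 1 / 2)
    (hs : 1 - δ / 2 ≤ s) (hs1 : s ≤ 1) {c : ℕ → ℕ}
    (hlow : ∀ᶠ p : ℕ in atTop, g ^ ⌊s * (lam * p)⌋₊ ≤ c p) {C0 : ℝ}
    (hup : ∀ᶠ p : ℕ in atTop, (c p : ℝ) ≤ C0 * Real.exp (Real.log g * (lam * p))) :
    Fam g (lam / 2) ⌈lam⌉₊ (1 + δ) c (fun p => ⌊s * (lam * p)⌋₊) := by
  have hs0 : 1 / 2 ≤ s := by linarith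
  have hgr : (2 : ℝ) ≤ g := by exact_mod_cast hg
  have hg0 : (0 : ℝ) < g := by linarith
  obtain ⟨lg, hlg⟩ : ∃ lg, lg = Real.log g := ⟨_, rfl⟩
  have hlg0 : 0 < lg := by rw [hlg]; exact Real.log_pos (by linarith)
  rw [← hlg] at hup
  refine ⟨fun p q hpq => ?_, fun p q hpq => ?_, fun p => ?_, eventually_atTop.1 hlow, ?_⟩
  · refine Nat.floor_le_floor ?_
    have : (p : ℝ) ≤ q := by exact_mod_cast hpq
    gcongr
  · have hp0 : (0 : ℝ) ≤ p := Nat.cast_nonneg p
    have h1 : ((⌊s * (lam * p)⌋₊ : ℕ) : ℝ) ≤ s * (lam * p) := Nat.floor_le (by positivity)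
    have h2 : s * (lam * q) < ⌊s * (lam * q)⌋₊ + 1 := Nat.lt_floor_add_one _
    have h3 : (p : ℝ) ≤ q := by exact_mod_cast hpq
    have h4 : lam / 2 * ((q : ℝ) - p) ≤ s * lam * ((q : ℝ) - p) :=
      mul_le_mul_of_nonneg_right (by nlinarith) (by linarith)
    nlinarith
  · have h1 : ((⌊s * (lam * p)⌋₊ : ℕ) : ℝ) ≤ s * (lam * p) := Nat.floor_le (by positivity)
    have h2 : lam ≤ ⌈lam⌉₊ := Nat.le_ceil lam
    have hp0 : (0 : ℝ) ≤ p := Nat.cast_nonneg p
    have h3 : s * (lam * p) ≤ 1 * (lam * p) := mul_le_mul_of_nonneg_right hs1 (by positivity)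
    have h4 : lam * p ≤ ⌈lam⌉₊ * p := mul_le_mul_of_nonneg_right h2 hp0
    have : ((⌊s * (lam * p)⌋₊ : ℕ) : ℝ) ≤ ((⌈lam⌉₊ * p : ℕ) : ℝ) := by push_cast; linarith
    exact_mod_cast this
  · -- the upper bound
    obtain ⟨C, hC⟩ : ∃ C, C = |C0| + 1 := ⟨_, rfl⟩
    have hC1 : 1 ≤ C := by rw [hC]; linarith [abs_nonneg C0]
    have hbig : ∀ᶠ p : ℕ in atTop, (Real.log C + 2 * lg) / (δ / 4 * (lg * lam)) ≤ (p : ℝ) :=
      tendsto_natCast_atTop_atTop.eventually_ge_atTop _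
    apply eventually_atTop.1
    filter_upwards [hup, hbig] with p h1 h2
    rw [div_le_iff₀ (by positivity)] at h2
    have hp0 : (0 : ℝ) ≤ p := Nat.cast_nonneg p
    obtain ⟨r, hr⟩ : ∃ r, r = ⌊s * (lam * p)⌋₊ := ⟨_, rfl⟩
    rw [← hr]
    have hr1 : (r : ℝ) ≤ s * (lam * p) := by rw [hr]; exact Nat.floor_le (by positivity)
    have hr2 : s * (lam * p) < r + 1 := by rw [hr]; exact Nat.lt_floor_add_one _
    have hpw : (g : ℝ) ^ r = Real.exp (lg * r) := by
      rw [mul_comm, Real.exp_nat_mul, hlg, Real.exp_log hg0]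
    have hlp : 0 ≤ lam * p := by positivity
    have h3 : (g : ℝ) ^ r ≤ Real.exp (lg * (lam * p)) := by
      rw [hpw]
      refine Real.exp_le_exp.2 (mul_le_mul_of_nonneg_left ?_ hlg0.le)
      nlinarith
    have h4 : (c p : ℝ) + (g : ℝ) ^ r ≤ C * Real.exp (lg * (lam * p)) := by
      have h5 : C0 * Real.exp (lg * (lam * p)) ≤ |C0| * Real.exp (lg * (lam * p)) :=
        mul_le_mul_of_nonneg_right (le_abs_self _) (Real.exp_pos _).le
      rw [hC, add_mul, one_mul]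
      linarith
    refine h4.trans ?_
    rw [hpw, ← Real.exp_mul]
    calc C * Real.exp (lg * (lam * p)) = Real.exp (Real.log C + lg * (lam * p)) := by
          rw [Real.exp_add, Real.exp_log (by linarith)]
      _ ≤ Real.exp (lg * r * (1 + δ)) := by
          refine Real.exp_le_exp.2 ?_
          have h5 : s * (lam * p) - 1 ≤ r := by linarith
          have h6 : lg * (s * (lam * p) - 1) * (1 + δ) ≤ lg * r * (1 + δ) := by gcongr
          have h7 : δ / 4 ≤ s * (1 + δ) - 1 := by nlinarith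
          have h8 : δ / 4 * (lg * (lam * p)) ≤ (s * (1 + δ) - 1) * (lg * (lam * p)) :=
            mul_le_mul_of_nonneg_right h7 (by positivity)
          nlinarith

section leb

lemma ceil_div {y : ℝ} {b : ℕ} (hb : 1 ≤ b) : (⌈y * b⌉₊ - 1) / b = ⌈y⌉₊ - 1 := by
  have hbr : (0 : ℝ) < b := by exact_mod_cast hb
  rcases le_or_gt y 0 with h | h
  · have h1 : ⌈y⌉₊ = 0 := Nat.ceil_eq_zero.2 h
    have h2 : ⌈y * b⌉₊ = 0 := Nat.ceil_eq_zero.2 (mul_nonpos_of_nonpos_of_nonneg h hbr.le)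
    rw [h1, h2]
    simp
  · obtain ⟨k, hk⟩ : ∃ k, ⌈y⌉₊ = k + 1 := ⟨⌈y⌉₊ - 1, by have := Nat.ceil_pos.2 h; omega⟩
    have h1 : (k : ℝ) < y := by
      rw [← Nat.lt_ceil, hk]
      omega
    have h2 : y ≤ k + 1 := by
      have := Nat.le_ceil y
      rw [hk] at this
      push_cast at this
      exact this
    have h3 : k * b < ⌈y * b⌉₊ := by
      rw [Nat.lt_ceil]
      push_cast
      exact mul_lt_mul_of_pos_right h1 hbr
    have h4 : ⌈y * b⌉₊ ≤ (k + 1) * b := by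
      rw [Nat.ceil_le]
      push_cast
      exact mul_le_mul_of_nonneg_right h2 hbr.le
    rw [hk, Nat.add_sub_cancel, Nat.div_eq_iff (by omega)]
    have h5 : (k + 1) * b = k * b + b := by ring
    constructor <;> omega

/-- Lebesgue measure on `(0, 1]`, non-terminating expansions -/
lemma top_ceil {g : ℕ} (hg : 2 ≤ g) :
    Top g (volume.restrict (Set.Ioc (0 : ℝ) 1)) (fun n θ => ⌈θ * (g : ℝ) ^ n⌉₊ - 1) := by
  have hgr : (2 : ℝ) ≤ g := by exact_mod_cast hg
  refine ⟨fun n => ?_, fun m n θ hmn => ?_, fun n a ha => ?_⟩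
  · exact (measurable_from_nat (f := fun k : ℕ => k - 1)).comp
      (Nat.measurable_ceil.comp (measurable_id.mul_const _))
  · have h1 := ceil_div (y := θ * (g : ℝ) ^ m) (b := g ^ (n - m)) (Nat.one_le_pow _ _ (by omega))
    have h2 : θ * (g : ℝ) ^ m * ((g ^ (n - m) : ℕ) : ℝ) = θ * (g : ℝ) ^ n := by
      push_cast
      rw [mul_assoc, ← pow_add, Nat.add_sub_cancel' hmn]
    rw [h2] at h1
    exact h1
  · have hG : (0 : ℝ) < (g : ℝ) ^ n := by positivity
    have ha' : (a : ℝ) + 1 ≤ (g : ℝ) ^ n := by exact_mod_cast ha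
    have e : {θ : ℝ | ⌈θ * (g : ℝ) ^ n⌉₊ - 1 = a} ∩ Set.Ioc 0 1 =
        Set.Ioc (a / (g : ℝ) ^ n) ((a + 1) / (g : ℝ) ^ n) := by
      ext θ
      simp only [Set.mem_inter_iff, Set.mem_ofPred_eq, Set.mem_Ioc]
      rw [div_lt_iff₀ hG, le_div_iff₀ hG]
      constructor
      · rintro ⟨h1, h2, h3⟩
        have h4 : 0 < ⌈θ * (g : ℝ) ^ n⌉₊ := Nat.ceil_pos.2 (by positivity)
        have h5 : ⌈θ * (g : ℝ) ^ n⌉₊ = a + 1 := by omega
        constructor
        · rw [← Nat.lt_ceil, h5]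
          omega
        · have := Nat.le_ceil (θ * (g : ℝ) ^ n)
          rw [h5] at this
          push_cast at this
          exact this
      · rintro ⟨h1, h2⟩
        have h0 : (0 : ℝ) ≤ a := Nat.cast_nonneg a
        have h3 : 0 < θ := by
          by_contra h
          push Not at h
          have := mul_nonpos_of_nonpos_of_nonneg h hG.le
          linarith
        refine ⟨?_, h3, ?_⟩
        · have h4 : a < ⌈θ * (g : ℝ) ^ n⌉₊ := Nat.lt_ceil.2 h1
          have h5 : ⌈θ * (g : ℝ) ^ n⌉₊ ≤ a + 1 := by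
            rw [Nat.ceil_le]
            push_cast
            exact h2
          omega
        · by_contra h
          push Not at h
          have : (g : ℝ) ^ n < θ * (g : ℝ) ^ n := by nlinarith
          linarith
    rw [measureReal_def, Measure.restrict_apply' measurableSet_Ioc, e, Real.volume_Ioc,
      ENNReal.toReal_ofReal]
    · field_simp
      ring
    · rw [← sub_div]
      have : (a : ℝ) + 1 - a = 1 := by ring
      rw [this]
      positivity

instance isProb_Ioc : IsProbabilityMeasure (volume.restrict (Set.Ioc (0 : ℝ) 1)) :=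
  ⟨by rw [Measure.restrict_apply_univ, Real.volume_Ioc]; simp⟩

instance isProb_Ico : IsProbabilityMeasure (volume.restrict (Set.Ico (0 : ℝ) 1)) :=
  ⟨by rw [Measure.restrict_apply_univ, Real.volume_Ico]; simp⟩

/-- Lebesgue measure on `[0, 1)` -/
lemma top_floor {g : ℕ} (hg : 2 ≤ g) :
    Top g (volume.restrict (Set.Ico (0 : ℝ) 1)) (fun n θ => ⌊θ * (g : ℝ) ^ n⌋₊) := by
  have hgr : (2 : ℝ) ≤ g := by exact_mod_cast hg
  refine ⟨fun n => ?_, fun m n θ hmn => ?_, fun n a ha => ?_⟩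
  · exact Nat.measurable_floor.comp (measurable_id.mul_const _)
  · have hG : (0 : ℝ) < (g : ℝ) ^ (n - m) := by positivity
    have h2 : θ * (g : ℝ) ^ m = θ * (g : ℝ) ^ n / ((g ^ (n - m) : ℕ) : ℝ) := by
      push_cast
      rw [eq_div_iff hG.ne', mul_assoc, ← pow_add, Nat.add_sub_cancel' hmn]
    rw [h2, Nat.floor_div_natCast]
  · have hG : (0 : ℝ) < (g : ℝ) ^ n := by positivity
    have ha' : (a : ℝ) + 1 ≤ (g : ℝ) ^ n := by exact_mod_cast ha
    have e : {θ : ℝ | ⌊θ * (g : ℝ) ^ n⌋₊ = a} ∩ Set.Ico 0 1 =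
        Set.Ico (a / (g : ℝ) ^ n) ((a + 1) / (g : ℝ) ^ n) := by
      ext θ
      simp only [Set.mem_inter_iff, Set.mem_ofPred_eq, Set.mem_Ico]
      rw [div_le_iff₀ hG, lt_div_iff₀ hG]
      constructor
      · rintro ⟨h1, h2, h3⟩
        have h4 : 0 ≤ θ * (g : ℝ) ^ n := by positivity
        exact (Nat.floor_eq_iff h4).1 h1
      · rintro ⟨h1, h2⟩
        have h0 : (0 : ℝ) ≤ a := Nat.cast_nonneg a
        have h3 : 0 ≤ θ := by
          by_contra h
          push Not at h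
          have := mul_neg_of_neg_of_pos h hG
          linarith
        refine ⟨(Nat.floor_eq_iff (by positivity)).2 ⟨h1, h2⟩, h3, ?_⟩
        by_contra h
        push Not at h
        have : (g : ℝ) ^ n ≤ θ * (g : ℝ) ^ n := by nlinarith
        linarith
    rw [measureReal_def, Measure.restrict_apply' measurableSet_Ico, e, Real.volume_Ico,
      ENNReal.toReal_ofReal]
    · field_simp
      ring
    · rw [← sub_div]
      have : (a : ℝ) + 1 - a = 1 := by ring
      rw [this]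
      positivity

/-- complementary digits -/
lemma Top.compl {Ω : Type*} [MeasurableSpace Ω] {μ : Measure Ω} [IsProbabilityMeasure μ] {g : ℕ}
    {X : ℕ → Ω → ℕ} (h : Top g μ X) (hg : 2 ≤ g) : Top g μ (fun n x => g ^ n - 1 - X n x) := by
  refine ⟨fun n => ?_, fun m n x hmn => ?_, fun n a ha => ?_⟩
  · exact (measurable_from_nat (f := fun k : ℕ => g ^ n - 1 - k)).comp (h.meas n)
  · have h1 := h.compat m n x hmn
    obtain ⟨d, rfl⟩ := Nat.exists_eq_add_of_le hmn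
    rw [Nat.add_sub_cancel_left] at h1 ⊢
    have hb : 0 < g ^ d := by positivity
    have hm : 0 < g ^ m := by positivity
    obtain ⟨t, ht⟩ : ∃ t, t = X (m + d) x % g ^ d := ⟨_, rfl⟩
    have htb : t < g ^ d := by rw [ht]; exact Nat.mod_lt _ hb
    have hX : X (m + d) x = X m x * g ^ d + t := by
      rw [← h1, ht, mul_comm]
      exact (Nat.div_add_mod _ _).symm
    rw [pow_add]
    rcases Nat.lt_or_ge (X m x) (g ^ m) with h2 | h2
    · obtain ⟨k, hk⟩ : ∃ k, g ^ m = X m x + 1 + k := ⟨g ^ m - X m x - 1, by omega⟩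
      have e1 : g ^ m * g ^ d = X m x * g ^ d + g ^ d + k * g ^ d := by rw [hk]; ring
      have e2 : g ^ m - 1 - X m x = k := by omega
      rw [e2, hX, e1]
      have e3 : X m x * g ^ d + g ^ d + k * g ^ d - 1 - (X m x * g ^ d + t) = k * g ^ d + (g ^ d - 1 - t) := by
        omega
      rw [e3, Nat.div_eq_iff hb]
      constructor <;> omega
    · have e2 : g ^ m - 1 - X m x = 0 := by omega
      have h3 : g ^ m * g ^ d ≤ X m x * g ^ d := Nat.mul_le_mul_right _ h2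
      have e3 : g ^ m * g ^ d - 1 - X (m + d) x = 0 := by rw [hX]; omega
      rw [e2, e3]
      simp
  · have hn : 0 < g ^ n := by positivity
    have h1 : {x | g ^ n - 1 - X n x = a} =ᵐ[μ] {x | X n x = g ^ n - 1 - a} := by
      filter_upwards [h.lt hg n] with x hx
      apply propext
      show g ^ n - 1 - X n x = a ↔ X n x = g ^ n - 1 - a
      omega
    rw [measureReal_congr h1, h.unif n (g ^ n - 1 - a) (by omega)]

end leb

end Pool.Agent.Q160.TB
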