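import Mathlib
import Pool.Agent.Q160.TB5

set_option autoImplicit false

/-!
# Windows with random last digits: the final forms
-/

namespace Pool.Agent.Q160.TB

open Finset Filter Topology MeasureTheory
open Pool.Agent.TH888.R (wt VS cS VS_univ_bound VS_univ_tendsto VS_nonneg)
open Pool.Agent.H305R2 (roughPart)

/-- the three conclusions -/
theorem conc {I : Set ℝ} {Nf : ℝ → ℕ → ℕ} {c1 c2 : ℝ} (hc1 : 0 < c1) (hc2 : 0 < c2)
    (h : ∀ S : Set ℕ, ∀ᵐ θ : ℝ, θ ∈ I → PtO (Nf θ) c1 c2 S) :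
    (∀ᵐ θ : ℝ, θ ∈ I → ∀ᶠ n : ℕ in atTop, c1 / 2 * Real.log n ≤ cS Set.univ (Nf θ) n ∧
      (cS Set.univ (Nf θ) n : ℝ) ≤ 2 * c2 * Real.log n) ∧
    (∀ S : Set ℕ, Tendsto (VS S) atTop atTop → ∀ᵐ θ : ℝ, θ ∈ I →
      ∀ᶠ n : ℕ in atTop, c1 / 2 * VS S n ≤ cS S (Nf θ) n ∧ (cS S (Nf θ) n : ℝ) ≤ 2 * c2 * VS S n) ∧
    (∀ S : Set ℕ, ∀ᵐ θ : ℝ, θ ∈ I →
      ({p : ℕ | p.Prime ∧ p ∈ S ∧ (roughPart p (Nf θ p)).Prime}.Infinite ↔
        Tendsto (VS S) atTop atTop)) := by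
  classical
  refine ⟨?_, fun S hS => ?_, fun S => ?_⟩
  · filter_upwards [h Set.univ] with θ hθ hm
    exact (hθ hm).log hc1 hc2
  · filter_upwards [h S] with θ hθ hm
    filter_upwards [(hθ hm).law hS] with n hn
    have h0 := VS_nonneg S n
    constructor
    · nlinarith [hn.1]
    · nlinarith [hn.2]
  · filter_upwards [h S] with θ hθ hm
    constructor
    · intro hi
      by_contra hn
      exact hi ((hθ hm).fin hn)
    · intro hS hfin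
      have h1 := (hθ hm).law hS
      have h2 : ∀ n, (cS S (Nf θ) n : ℝ) ≤ (hfin.toFinset.card : ℝ) := by
        intro n
        unfold Pool.Agent.TH888.R.cS
        refine Nat.cast_le.2 (Finset.card_le_card ?_)
        intro p hp
        rw [Finset.mem_filter] at hp
        rw [Set.Finite.mem_toFinset]
        exact hp.2
      obtain ⟨n, hn1, hn2⟩ := (h1.and (hS.eventually_gt_atTop ((hfin.toFinset.card : ℝ) / c1))).exists
      rw [div_lt_iff₀ hc1] at hn2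
      have := h2 n
      linarith [hn1.1]

/-- prescribed initial blocks -/
theorem prefix_law : ∃ δ : ℝ, 0 < δ ∧ δ < 1 ∧ ∀ g : ℕ, 2 ≤ g → ∃ c1 c2 : ℝ, 0 < c1 ∧ 0 < c2 ∧
    ∀ s : ℝ, 1 - δ ≤ s → s < 1 → ∀ w : ℕ → ℕ,
    (∀ p : ℕ, 1 ≤ p → 0 < w p ∧ w p < g ^ (p - ⌊s * p⌋₊)) → ∀ S : Set ℕ, ∀ᵐ θ : ℝ, θ ∈ Set.Ioc (0 : ℝ) 1 →
      PtO (fun p => w p * g ^ ⌊s * p⌋₊ + (⌈θ * (g : ℝ) ^ ⌊s * p⌋₊⌉₊ - 1)) c1 c2 S := by
  obtain ⟨δ, hδ, hδ2, h⟩ := fam_pt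
  refine ⟨δ / 2, by positivity, by linarith, fun g hg => ?_⟩
  obtain ⟨c1, c2, hc1, hc2, hpt⟩ := h g hg (1 / 2) (by norm_num) 1
  refine ⟨c1, c2, hc1, hc2, fun s hs hs1 w hw S => ?_⟩
  have hg0 : (0 : ℝ) < g := by exact_mod_cast (by omega : 0 < g)
  have hF : Fam g (1 / 2) 1 (1 + δ) (fun p => w p * g ^ ⌊s * p⌋₊) (fun p => ⌊s * p⌋₊) := by
    have h1 := fam_exp (g := g) hg (lam := 1) one_pos hδ hδ2 hs hs1.le
      (c := fun p => w p * g ^ ⌊s * (1 * (p : ℝ))⌋₊) (C0 := 1) (by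
        filter_upwards [eventually_ge_atTop 1] with p hp
        exact Nat.le_mul_of_pos_left _ (hw p hp).1) (by
        filter_upwards [eventually_ge_atTop 1] with p hp
        have h2 := (hw p hp).2
        have h3 : ⌊s * (p : ℝ)⌋₊ ≤ p := by
          refine Nat.floor_le_of_le ?_
          have : (0 : ℝ) ≤ p := Nat.cast_nonneg p
          nlinarith
        have h4 : w p * g ^ ⌊s * (p : ℝ)⌋₊ ≤ g ^ p := by
          calc w p * g ^ ⌊s * (p : ℝ)⌋₊ ≤ g ^ (p - ⌊s * (p : ℝ)⌋₊) * g ^ ⌊s * (p : ℝ)⌋₊ :=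
                Nat.mul_le_mul_right _ h2.le
            _ = g ^ p := by rw [← pow_add, Nat.sub_add_cancel h3]
        have h5 : Real.exp (Real.log (g : ℝ) * (1 * (p : ℝ))) = (g : ℝ) ^ p := by
          rw [one_mul, mul_comm, Real.exp_nat_mul, Real.exp_log hg0]
        rw [h5, one_mul, one_mul]
        exact_mod_cast h4)
    simp only [one_mul, Nat.ceil_one] at h1
    exact h1
  have h1 := hpt (1 + δ) _ _ (by linarith) le_rfl hF (top_ceil hg) S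
  rw [ae_restrict_iff' measurableSet_Ioc] at h1
  exact h1

/-- intervals to the right of arbitrary points -/
theorem plus_law : ∃ δ : ℝ, 0 < δ ∧ δ < 1 ∧ ∀ g : ℕ, 2 ≤ g → ∀ lam : ℝ, 0 < lam →
    ∃ c1 c2 : ℝ, 0 < c1 ∧ 0 < c2 ∧ ∀ s : ℝ, 1 - δ ≤ s → s < 1 → ∀ (c : ℕ → ℕ) (C0 : ℝ),
    (∀ᶠ p : ℕ in atTop, g ^ ⌊s * (lam * p)⌋₊ ≤ c p) →
    (∀ᶠ p : ℕ in atTop, (c p : ℝ) ≤ C0 * Real.exp (Real.log g * (lam * p))) →
    ∀ S : Set ℕ, ∀ᵐ θ : ℝ, θ ∈ Set.Ico (0 : ℝ) 1 →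
      PtO (fun p => c p + ⌊θ * (g : ℝ) ^ ⌊s * (lam * p)⌋₊⌋₊) c1 c2 S := by
  obtain ⟨δ, hδ, hδ2, h⟩ := fam_pt
  refine ⟨δ / 2, by positivity, by linarith, fun g hg lam hlam => ?_⟩
  obtain ⟨c1, c2, hc1, hc2, hpt⟩ := h g hg (lam / 2) (by positivity) ⌈lam⌉₊
  refine ⟨c1, c2, hc1, hc2, fun s hs hs1 c C0 hlow hup S => ?_⟩
  have hF := fam_exp (g := g) hg hlam hδ hδ2 hs hs1.le hlow hup
  have h1 := hpt (1 + δ) _ _ (by linarith) le_rfl hF (top_floor hg) S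
  rw [ae_restrict_iff' measurableSet_Ico] at h1
  exact h1

/-- intervals to the left of arbitrary points -/
theorem minus_law : ∃ δ : ℝ, 0 < δ ∧ δ < 1 ∧ ∀ g : ℕ, 2 ≤ g → ∀ lam : ℝ, 0 < lam →
    ∃ c1 c2 : ℝ, 0 < c1 ∧ 0 < c2 ∧ ∀ s : ℝ, 1 - δ ≤ s → s < 1 → ∀ (c : ℕ → ℕ) (C0 : ℝ),
    (∀ᶠ p : ℕ in atTop, 2 * g ^ ⌊s * (lam * p)⌋₊ ≤ c p) →
    (∀ᶠ p : ℕ in atTop, (c p : ℝ) ≤ C0 * Real.exp (Real.log g * (lam * p))) →
    ∀ S : Set ℕ, ∀ᵐ θ : ℝ, θ ∈ Set.Ico (0 : ℝ) 1 →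
      PtO (fun p => c p - ⌊θ * (g : ℝ) ^ ⌊s * (lam * p)⌋₊⌋₊) c1 c2 S := by
  classical
  obtain ⟨δ, hδ, hδ2, h⟩ := fam_pt
  refine ⟨δ / 2, by positivity, by linarith, fun g hg lam hlam => ?_⟩
  obtain ⟨c1, c2, hc1, hc2, hpt⟩ := h g hg (lam / 2) (by positivity) ⌈lam⌉₊
  refine ⟨c1 / 2, 2 * c2, by positivity, by positivity, fun s hs hs1 c C0 hlow hup S => ?_⟩
  have hgr : (2 : ℝ) ≤ g := by exact_mod_cast hg
  set r : ℕ → ℕ := fun p => ⌊s * (lam * p)⌋₊ with hr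
  have hF := fam_exp (g := g) hg hlam hδ hδ2 hs hs1.le (c := fun p => c p - (g ^ r p - 1)) (C0 := C0)
    (by
      filter_upwards [hlow] with p hp
      have : 1 ≤ g ^ r p := Nat.one_le_pow _ _ (by omega)
      have h2 : 2 * g ^ r p ≤ c p := hp
      show g ^ r p ≤ c p - (g ^ r p - 1)
      omega)
    (by
      filter_upwards [hup] with p hp
      refine le_trans ?_ hp
      exact_mod_cast Nat.sub_le _ _)
  have h1 := hpt (1 + δ) _ _ (by linarith) le_rfl hF ((top_floor hg).compl hg) S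
  rw [ae_restrict_iff' measurableSet_Ico] at h1
  obtain ⟨P, hP⟩ := eventually_atTop.1 hlow
  filter_upwards [h1] with θ hθ hm
  have h2 := hθ hm
  -- compare the two sequences
  have heq : ∀ p ≥ P, (c p - (g ^ r p - 1)) + (g ^ r p - 1 - ⌊θ * (g : ℝ) ^ r p⌋₊) =
      c p - ⌊θ * (g : ℝ) ^ r p⌋₊ := by
    intro p hp
    have h3 : 2 * g ^ r p ≤ c p := hP p hp
    have h4 : 1 ≤ g ^ r p := Nat.one_le_pow _ _ (by omega)
    have h5 : ⌊θ * (g : ℝ) ^ r p⌋₊ < g ^ r p := by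
      rw [Nat.floor_lt (mul_nonneg hm.1 (by positivity))]
      push_cast
      have : (0 : ℝ) < (g : ℝ) ^ r p := by positivity
      nlinarith [hm.2]
    omega
  have hcard : ∀ n, (cS S (fun p => c p - ⌊θ * (g : ℝ) ^ r p⌋₊) n : ℝ) ≤
      cS S (fun p => (c p - (g ^ r p - 1)) + (g ^ r p - 1 - ⌊θ * (g : ℝ) ^ r p⌋₊)) n + P ∧
      (cS S (fun p => (c p - (g ^ r p - 1)) + (g ^ r p - 1 - ⌊θ * (g : ℝ) ^ r p⌋₊)) n : ℝ) ≤
      cS S (fun p => c p - ⌊θ * (g : ℝ) ^ r p⌋₊) n + P := by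
    intro n
    have key : ∀ u v : ℕ → ℕ, (∀ p ≥ P, u p = v p) → (cS S u n : ℝ) ≤ cS S v n + P := by
      intro u v huv
      unfold Pool.Agent.TH888.R.cS
      have hsub : (range (n + 1)).filter (fun p => p.Prime ∧ p ∈ S ∧ (roughPart p (u p)).Prime) ⊆
          (range (n + 1)).filter (fun p => p.Prime ∧ p ∈ S ∧ (roughPart p (v p)).Prime) ∪ range P := by
        intro p hp
        rw [mem_filter] at hp
        rw [mem_union]
        by_cases h3 : P ≤ p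
        · left
          rw [mem_filter, ← huv p h3]
          exact hp
        · right
          rw [mem_range]
          omega
      have h3 := (Finset.card_le_card hsub).trans (Finset.card_union_le _ _)
      rw [card_range] at h3
      exact_mod_cast h3
    exact ⟨key _ _ fun p hp => (heq p hp).symm, key _ _ heq⟩
  refine ⟨fun hS => ?_, fun hS => ?_⟩
  · filter_upwards [h2.law hS, hS.eventually_ge_atTop (2 * (P : ℝ) / c1),
      hS.eventually_ge_atTop ((P : ℝ) / c2)] with n h3 h4 h5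
    rw [div_le_iff₀ hc1] at h4
    rw [div_le_iff₀ hc2] at h5
    obtain ⟨h6, h7⟩ := hcard n
    have h8 := h3.1
    have h9 := h3.2
    constructor
    · calc c1 / 2 * VS S n = c1 * VS S n - VS S n * c1 / 2 := by ring
        _ ≤ _ := by linarith
    · calc _ ≤ c2 * VS S n + P := by linarith
        _ ≤ _ := by linarith
  · refine ((h2.fin hS).union (Set.finite_lt_nat P)).subset fun p hp => ?_
    by_cases h3 : P ≤ p
    · left
      obtain ⟨h4, h5, h6⟩ := hp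
      refine ⟨h4, h5, ?_⟩
      have h7 := heq p h3
      show (roughPart p ((c p - (g ^ r p - 1)) + (g ^ r p - 1 - ⌊θ * (g : ℝ) ^ r p⌋₊))).Prime
      rw [h7]
      exact h6
    · right
      show p < P
      omega

end Pool.Agent.Q160.TB
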