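import Mathlib
import Pool.Agent.Q160.Euler

/-!
# Universal partial cycles with one wild-card in four places

Let `P` be a Boolean function on words of length `m` which changes its value when the first letter
is dropped and its negation is appended, and whose level sets are connected in the hypercube. Then
there is a universal partial cycle for words of length `4 m` all of whose windows contain exactly
`m` wild-cards.
-/

set_option autoImplicit false

namespace Pool.Agent.Q160.Upc

open Relation Q160.Euler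

variable {m J : ℕ}

/-- Drop the first letter and append `b`. -/
def app (v : Fin m → Bool) (b : Bool) : Fin m → Bool :=
  fun k => if h : k.val + 1 < m then v ⟨k.val + 1, h⟩ else b

/-- Two words differ in at most one place. -/
def Near {m : ℕ} (a b : Fin m → Bool) : Prop := ∃ i, ∀ j, j ≠ i → a j = b j

/-- The assumptions on the Boolean function. -/
structure Lab (m : ℕ) (P : (Fin m → Bool) → Bool) : Prop where
  pos : 0 < m
  anti : ∀ v, P (app v (!(v ⟨0, pos⟩))) = !(P v)
  conn : ∀ a b, P a = P b → EqvGen (fun a b => Near a b ∧ P a = P b) a b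

/-- Extension by `false`. -/
def ex (x : Fin (J + 1) → Bool) (j : ℕ) : Bool := if h : j < J + 1 then x ⟨j, h⟩ else false

/-- The letters at the places congruent to `i` modulo `4`. -/
def U (m : ℕ) (x : Fin (J + 1) → Bool) (i : ℕ) : Fin m → Bool := fun k => ex x (4 * k.val + i)

/-- The condition for the class `r`. -/
def cond (r : Fin 4) (a b c d : Bool) : Bool :=
  match r with
  | 0 => (b == c) && (c != d)
  | 1 => (a == b) && (b != c)
  | 2 => (a != b) && (b == d)
  | 3 => (a == c) && (c == d)

theorem cond_exists (a b c d : Bool) : ∃! r, cond r a b c d = true := by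
  have h : ∀ a b c d : Bool, ∃ r, cond r a b c d = true ∧ ∀ r', cond r' a b c d = true → r' = r := by
    decide
  exact h a b c d

def Good (m : ℕ) (P : (Fin m → Bool) → Bool) (r : Fin 4) (x : Fin (J + 1) → Bool) : Prop :=
  cond r (P (U m x 0)) (P (U m x 1)) (P (U m x 2)) (P (U m x 3)) = true

def Zero (r : Fin 4) (x : Fin (J + 1) → Bool) : Prop :=
  ∀ j : Fin (J + 1), (r.val + j.val) % 4 = 0 → x j = false

/-- Drop the first letter and append `b`. -/
def sh (x : Fin (J + 1) → Bool) (b : Bool) : Fin (J + 1) → Bool :=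
  fun j => if h : j.val + 1 < J + 1 then x ⟨j.val + 1, h⟩ else b

theorem ex_sh_lt (x : Fin (J + 1) → Bool) (b : Bool) {j : ℕ} (h : j + 1 < J + 1) :
    ex (sh x b) j = ex x (j + 1) := by
  rw [ex, ex, dif_pos (by omega), dif_pos h, sh, dif_pos h]

theorem ex_sh_last (x : Fin (J + 1) → Bool) (b : Bool) : ex (sh x b) J = b := by
  rw [ex, dif_pos (by omega), sh, dif_neg (by simp)]

theorem U_sh (hJ : J + 1 = 4 * m) (x : Fin (J + 1) → Bool) (b : Bool) {i : ℕ} (hi : i < 3) :
    U m (sh x b) i = U m x (i + 1) := by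
  funext k
  have := k.2
  rw [U, U, ex_sh_lt x b (by omega)]
  rfl

theorem U_sh3 (hJ : J + 1 = 4 * m) (x : Fin (J + 1) → Bool) (b : Bool) :
    U m (sh x b) 3 = app (U m x 0) b := by
  funext k
  have := k.2
  rw [U, app]
  by_cases h : k.val + 1 < m
  · rw [dif_pos h, ex_sh_lt x b (by omega), U]
    congr 1
  · rw [dif_neg h]
    have : 4 * k.val + 3 = J := by omega
    rw [this, ex_sh_last]

theorem U_zero (hJ : J + 1 = 4 * m) (hm : 0 < m) (x : Fin (J + 1) → Bool) :
    U m x 0 ⟨0, hm⟩ = x ⟨0, by omega⟩ := by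
  rw [U, ex, dif_pos (by simp)]
  rfl

/-- The letter which is appended. -/
def nb (r : Fin 4) (x : Fin (J + 1) → Bool) : Bool :=
  if r = 0 then false else !(x ⟨0, by omega⟩)

theorem zero_step (hJ : J + 1 = 4 * m) {r : Fin 4} {x : Fin (J + 1) → Bool} (hx : Zero r x) :
    Zero (r + 1) (sh x (nb r x)) := by
  intro j hj
  rw [sh]
  have hr : (r + 1).val % 4 = (r.val + 1) % 4 := by
    rw [Fin.val_add]
    simp
  by_cases h : j.val + 1 < J + 1
  · rw [dif_pos h]
    apply hx
    simp only
    omega
  · rw [dif_neg h, nb, if_pos]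
    have := j.2
    apply Fin.ext
    have := r.2
    simp only [Fin.val_zero]
    omega

theorem cond_step : ∀ (r : Fin 4) (a b c d e : Bool), cond r a b c d = true →
    (r ≠ 0 → e = !a) → cond (r + 1) b c d e = true := by
  decide

theorem good_step {P : (Fin m → Bool) → Bool} (hP : Lab m P) (hJ : J + 1 = 4 * m) {r : Fin 4}
    {x : Fin (J + 1) → Bool} (hx : Good m P r x) : Good m P (r + 1) (sh x (nb r x)) := by
  rw [Good, U_sh hJ x _ (by omega), U_sh hJ x _ (by omega), U_sh hJ x _ (by omega), U_sh3 hJ]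
  apply cond_step r _ _ _ _ _ hx
  intro hr
  rw [nb, if_neg hr, ← U_zero hJ hP.pos x]
  exact hP.anti _

/-- The type of windows. -/
abbrev E (m J : ℕ) (P : (Fin m → Bool) → Bool) : Type :=
  {p : Fin 4 × (Fin (J + 1) → Bool) // Zero p.1 p.2 ∧ Good m P p.1 p.2}

/-- The partial word of a window. -/
def W (r : Fin 4) (x : Fin (J + 1) → Bool) : Fin (J + 1) → Option Bool :=
  fun j => if (r.val + j.val) % 4 = 0 then none else some (x j)

/-- The partial word of a window. -/
def word {P : (Fin m → Bool) → Bool} (e : E m J P) : Fin (J + 1) → Option Bool :=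
  W e.1.1 e.1.2

/-- The next window. -/
def step {P : (Fin m → Bool) → Bool} (hP : Lab m P) (hJ : J + 1 = 4 * m) (e : E m J P) :
    E m J P :=
  ⟨(e.1.1 + 1, sh e.1.2 (nb e.1.1 e.1.2)), zero_step hJ e.2.1, good_step hP hJ e.2.2⟩

theorem step_injective {P : (Fin m → Bool) → Bool} (hP : Lab m P) (hJ : J + 1 = 4 * m) :
    Function.Injective (step hP hJ) := by
  rintro ⟨⟨r, x⟩, hz, hg⟩ ⟨⟨r', x'⟩, hz', hg'⟩ h
  have h1 : (r + 1, sh x (nb r x)) = (r' + 1, sh x' (nb r' x')) := congrArg Subtype.val h
  rw [Prod.mk.injEq] at h1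
  obtain ⟨h1, h2⟩ := h1
  have hr : r = r' := add_right_cancel h1
  subst hr
  have hx : x = x' := by
    funext j
    rcases Nat.eq_zero_or_pos j.val with h0 | h0
    · have hj : j = ⟨0, by omega⟩ := Fin.ext h0
      by_cases hr0 : r = 0
      · have e1 := hz j (by rw [hr0, h0]; rfl)
        have e2 := hz' j (by rw [hr0, h0]; rfl)
        exact e1.trans e2.symm
      · have h3 := congrArg (fun f => ex f J) h2
        simp only [ex_sh_last] at h3
        rw [nb, nb, if_neg hr0, if_neg hr0] at h3
        rw [hj]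
        exact Bool.not_inj h3
    · have h3 := congrArg (fun f => ex f (j.val - 1)) h2
      have hj := j.2
      rw [ex_sh_lt _ _ (by omega), ex_sh_lt _ _ (by omega), ex, ex, dif_pos (by omega),
        dif_pos (by omega)] at h3
      have e : (⟨j.val - 1 + 1, by omega⟩ : Fin (J + 1)) = j := Fin.ext (by simp only; omega)
      rwa [e] at h3
  subst hx
  rfl

/-- The successor permutation. -/
noncomputable def sigma {P : (Fin m → Bool) → Bool} (hP : Lab m P) (hJ : J + 1 = 4 * m) :
    Equiv.Perm (E m J P) :=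
  Equiv.ofBijective (step hP hJ) (Finite.injective_iff_bijective.mp (step_injective hP hJ))

theorem init_step {P : (Fin m → Bool) → Bool} (hP : Lab m P) (hJ : J + 1 = 4 * m)
    (e : E m J P) : Fin.init (word (step hP hJ e)) = Fin.tail (word e) := by
  funext j
  show W (e.1.1 + 1) (sh e.1.2 (nb e.1.1 e.1.2)) j.castSucc = W e.1.1 e.1.2 j.succ
  have hj := j.2
  have hr : (e.1.1 + 1).val % 4 = (e.1.1.val + 1) % 4 := by
    rw [Fin.val_add]
    simp
  rw [W, W, sh, dif_pos (by simp only [Fin.val_castSucc]; omega)]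
  have e1 : ((e.1.1 + 1).val + (j.castSucc).val) % 4 = (e.1.1.val + (j.succ).val) % 4 := by
    simp only [Fin.val_castSucc, Fin.val_succ]
    omega
  rw [e1]
  rfl

section Conn

variable {P : (Fin m → Bool) → Bool}

/-- The adjacency of vertices. -/
def Ad (m J : ℕ) (P : (Fin m → Bool) → Bool) :
    (Fin J → Option Bool) → (Fin J → Option Bool) → Prop :=
  adj (fun e : E m J P => Fin.init (word e)) (fun e : E m J P => Fin.tail (word e))

/-- Connectedness of two windows. -/
def Cn (e e' : E m J P) : Prop := EqvGen (Ad m J P) (Fin.init (word e)) (Fin.init (word e'))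

theorem Cn.refl (e : E m J P) : Cn e e := EqvGen.refl _

theorem Cn.symm {e e' : E m J P} (h : Cn e e') : Cn e' e := EqvGen.symm _ _ h

theorem Cn.trans {e e' e'' : E m J P} (h : Cn e e') (h' : Cn e' e'') : Cn e e'' :=
  EqvGen.trans _ _ _ h h'

theorem cn_step (hP : Lab m P) (hJ : J + 1 = 4 * m) (e : E m J P) : Cn e (step hP hJ e) := by
  rw [Cn, init_step]
  exact EqvGen.rel _ _ ⟨e, rfl, rfl⟩

theorem cn_flip (hP : Lab m P) (hJ : J + 1 = 4 * m) (t : ℕ) : ∀ (e e' : E m J P)
    (i : Fin (J + 1)), i.val + t = J → e.1.1 = e'.1.1 → (∀ j, j ≠ i → e.1.2 j = e'.1.2 j) →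
    Cn e e' := by
  induction t with
  | zero =>
    intro e e' i hi hr hx
    have : Fin.init (word e) = Fin.init (word e') := by
      funext j
      show W e.1.1 e.1.2 j.castSucc = W e'.1.1 e'.1.2 j.castSucc
      rw [W, W, hr, hx j.castSucc (by
        intro h
        have h5 := congrArg Fin.val h
        have h6 := j.2
        rw [Fin.val_castSucc] at h5
        omega)]
    rw [Cn, this]
    exact EqvGen.refl _
  | succ t ih =>
    intro e e' i hi hr hx
    obtain ⟨f, hf⟩ := (sigma hP hJ).surjective e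
    obtain ⟨f', hf'⟩ := (sigma hP hJ).surjective e'
    have hf1 : step hP hJ f = e := hf
    have hf1' : step hP hJ f' = e' := hf'
    have h1 : f.1.1 + 1 = e.1.1 := congrArg (fun e => e.1.1) hf1
    have h1' : f'.1.1 + 1 = e'.1.1 := congrArg (fun e => e.1.1) hf1'
    have h2 : sh f.1.2 (nb f.1.1 f.1.2) = e.1.2 := congrArg (fun e => e.1.2) hf1
    have h2' : sh f'.1.2 (nb f'.1.1 f'.1.2) = e'.1.2 := congrArg (fun e => e.1.2) hf1'
    have hrr : f.1.1 = f'.1.1 := by
      apply add_right_cancel (b := 1)
      rw [h1, h1', hr]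
    have key : Cn f f' := by
      refine ih f f' ⟨i.val + 1, by omega⟩ (by simp only; omega) hrr ?_
      intro j hj
      rcases Nat.eq_zero_or_pos j.val with h0 | h0
      · have hj0 : j = ⟨0, by omega⟩ := Fin.ext h0
        by_cases hr0 : f.1.1 = 0
        · have e1 := f.2.1 j (by rw [hr0, h0]; rfl)
          have e2 := f'.2.1 j (by rw [← hrr, hr0, h0]; rfl)
          exact e1.trans e2.symm
        · have h3 := congrArg (fun g => ex g J) h2
          have h3' := congrArg (fun g => ex g J) h2'
          simp only [ex_sh_last] at h3 h3'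
          rw [nb, if_neg hr0] at h3
          rw [nb, if_neg (by rw [← hrr]; exact hr0)] at h3'
          rw [hj0]
          apply Bool.not_inj
          rw [h3, h3', ex, ex, dif_pos (by omega), dif_pos (by omega)]
          apply hx
          intro h
          have := congrArg Fin.val h
          simp only at this
          omega
      · have hj2 := j.2
        have h3 := congrArg (fun g => ex g (j.val - 1)) h2
        have h3' := congrArg (fun g => ex g (j.val - 1)) h2'
        rw [ex_sh_lt _ _ (by omega), ex, dif_pos (by omega)] at h3 h3'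
        have e0 : (⟨j.val - 1 + 1, by omega⟩ : Fin (J + 1)) = j := Fin.ext (by simp only; omega)
        rw [e0] at h3 h3'
        rw [h3, h3', ex, ex, dif_pos (by omega), dif_pos (by omega)]
        apply hx
        intro h
        apply hj
        have := congrArg Fin.val h
        simp only at this
        apply Fin.ext
        simp only
        omega
    have k1 := cn_step hP hJ f
    have k2 := cn_step hP hJ f'
    rw [hf1] at k1
    rw [hf1'] at k2
    exact k1.symm.trans (key.trans k2)

theorem cn_near (hP : Lab m P) (hJ : J + 1 = 4 * m) (e e' : E m J P) (hr : e.1.1 = e'.1.1)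
    (hx : Near e.1.2 e'.1.2) : Cn e e' := by
  obtain ⟨i, hi⟩ := hx
  exact cn_flip hP hJ (J - i.val) e e' i (by have := i.2; omega) hr hi

/-- Replace the letters at the places congruent to `c` modulo `4`. -/
def repl (x : Fin (J + 1) → Bool) (c : ℕ) (v : Fin m → Bool) : Fin (J + 1) → Bool :=
  fun j => if j.val % 4 = c then (if h : j.val / 4 < m then v ⟨j.val / 4, h⟩ else false) else x j

theorem U_repl (hJ : J + 1 = 4 * m) (x : Fin (J + 1) → Bool) {c : ℕ} (hc : c < 4)
    (v : Fin m → Bool) {i : ℕ} (hi : i < 4) : U m (repl x c v) i = if i = c then v else U m x i := by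
  funext k
  have hk := k.2
  rw [U, ex, dif_pos (by omega), repl]
  have e1 : (4 * k.val + i) % 4 = i := by omega
  have e2 : (4 * k.val + i) / 4 = k.val := by omega
  simp only [e1]
  by_cases h : i = c
  · rw [if_pos h, if_pos h]
    simp only [e2]
    rw [dif_pos hk]
  · rw [if_neg h, if_neg h, U, ex, dif_pos (by omega)]

theorem repl_self (hJ : J + 1 = 4 * m) (x : Fin (J + 1) → Bool) (c : ℕ) :
    repl x c (U m x c) = x := by
  funext j
  have hj := j.2
  rw [repl]
  by_cases h : j.val % 4 = c
  · rw [if_pos h, dif_pos (by omega), U, ex]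
    have e1 : 4 * (j.val / 4) + c = j.val := by omega
    simp only [e1]
    rw [dif_pos hj]
  · rw [if_neg h]

theorem zero_repl {x : Fin (J + 1) → Bool} (hx : Zero 0 x) {c : ℕ} (hc0 : 0 < c)
    (v : Fin m → Bool) : Zero 0 (repl x c v) := by
  intro j hj
  simp only [Fin.val_zero, zero_add] at hj
  rw [repl, if_neg (by omega)]
  apply hx
  simpa using hj

theorem good_repl (hJ : J + 1 = 4 * m) {x : Fin (J + 1) → Bool} (hx : Good m P 0 x) {c : ℕ}
    (hc : c < 4) {v : Fin m → Bool} (hv : P v = P (U m x c)) : Good m P 0 (repl x c v) := by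
  have key : ∀ i < 4, P (U m (repl x c v) i) = P (U m x i) := by
    intro i hi
    rw [U_repl hJ x hc v hi]
    by_cases h : i = c
    · rw [if_pos h, hv, h]
    · rw [if_neg h]
  rw [Good, key 0 (by omega), key 1 (by omega), key 2 (by omega), key 3 (by omega)]
  exact hx

/-- Replace one component in a window of class `0`. -/
def rep (hJ : J + 1 = 4 * m) (x : Fin (J + 1) → Bool) (hx : Zero 0 x ∧ Good m P 0 x) {c : ℕ}
    (hc0 : 0 < c) (hc : c < 4) (v : Fin m → Bool) (hv : P v = P (U m x c)) : E m J P :=
  ⟨(0, repl x c v), zero_repl hx.1 hc0 v, good_repl hJ hx.2 hc hv⟩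

theorem cn_rep (hP : Lab m P) (hJ : J + 1 = 4 * m) (x : Fin (J + 1) → Bool)
    (hx : Zero 0 x ∧ Good m P 0 x) {c : ℕ} (hc0 : 0 < c) (hc : c < 4) (v v' : Fin m → Bool)
    (h : EqvGen (fun a b => Near a b ∧ P a = P b) v v') :
    ∀ (hv : P v = P (U m x c)) (hv' : P v' = P (U m x c)),
      Cn (rep hJ x hx hc0 hc v hv) (rep hJ x hx hc0 hc v' hv') := by
  have hPP : ∀ a b, EqvGen (fun a b => Near a b ∧ P a = P b) a b → P a = P b := by
    intro a b h
    induction h with
    | rel a b h => exact h.2
    | refl a => rfl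
    | symm a b _ ih => exact ih.symm
    | trans a b c _ _ ih1 ih2 => exact ih1.trans ih2
  induction h with
  | rel a b h =>
    intro hv hv'
    apply cn_near hP hJ
    · rfl
    · obtain ⟨i, hi⟩ := h.1
      have hi2 := i.2
      refine ⟨⟨4 * i.val + c, by omega⟩, ?_⟩
      intro j hj
      show repl x c a j = repl x c b j
      rw [repl, repl]
      by_cases h4 : j.val % 4 = c
      · rw [if_pos h4, if_pos h4]
        by_cases h5 : j.val / 4 < m
        · rw [dif_pos h5, dif_pos h5]
          apply hi
          intro h6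
          apply hj
          have := congrArg Fin.val h6
          simp only at this
          apply Fin.ext
          simp only
          omega
        · rw [dif_neg h5, dif_neg h5]
      · rw [if_neg h4, if_neg h4]
  | refl a => intro hv hv'; exact Cn.refl _
  | symm a b _ ih => intro hv hv'; exact (ih hv' hv).symm
  | trans a b c' h1 h2 ih1 ih2 =>
    intro hv hv'
    have hb : P b = P (U m x c) := (hPP a b h1).symm.trans hv
    exact (ih1 hv hb).trans (ih2 hb hv')

/-- Two windows of class `0` with the same values of `P` are connected. -/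
theorem cn_same (hP : Lab m P) (hJ : J + 1 = 4 * m) (x x' : Fin (J + 1) → Bool)
    (hx : Zero 0 x ∧ Good m P 0 x) (hx' : Zero 0 x' ∧ Good m P 0 x')
    (h1 : P (U m x 1) = P (U m x' 1)) (h2 : P (U m x 2) = P (U m x' 2))
    (h3 : P (U m x 3) = P (U m x' 3)) :
    Cn (⟨(0, x), hx⟩ : E m J P) ⟨(0, x'), hx'⟩ := by
  have move : ∀ (y : Fin (J + 1) → Bool) (hy : Zero 0 y ∧ Good m P 0 y) (c : ℕ) (hc0 : 0 < c)
      (hc : c < 4) (v : Fin m → Bool) (hv : P v = P (U m y c)),
      Cn (⟨(0, y), hy⟩ : E m J P) (rep hJ y hy hc0 hc v hv) := by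
    intro y hy c hc0 hc v hv
    have h := cn_rep hP hJ y hy hc0 hc (U m y c) v (hP.conn _ _ hv.symm) rfl hv
    have e : rep hJ y hy hc0 hc (U m y c) rfl = (⟨(0, y), hy⟩ : E m J P) := by
      apply Subtype.ext
      show (0, repl y c (U m y c)) = (0, y)
      rw [repl_self hJ]
    rwa [e] at h
  have s1 := move x hx 1 (by omega) (by omega) (U m x' 1) h1.symm
  set y := repl x 1 (U m x' 1) with hy
  have hyE : Zero 0 y ∧ Good m P 0 y :=
    ⟨zero_repl hx.1 (by omega) _, good_repl hJ hx.2 (by omega) h1.symm⟩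
  have y1 : U m y 1 = U m x' 1 := by rw [hy, U_repl hJ x (by omega) _ (by omega), if_pos rfl]
  have y2 : U m y 2 = U m x 2 := by
    rw [hy, U_repl hJ x (by omega) _ (by omega), if_neg (by omega)]
  have y3 : U m y 3 = U m x 3 := by
    rw [hy, U_repl hJ x (by omega) _ (by omega), if_neg (by omega)]
  have s2 := move y hyE 2 (by omega) (by omega) (U m x' 2) (by rw [y2, h2])
  set z := repl y 2 (U m x' 2) with hz
  have hzE : Zero 0 z ∧ Good m P 0 z :=
    ⟨zero_repl hyE.1 (by omega) _, good_repl hJ hyE.2 (by omega) (by rw [y2, h2])⟩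
  have z1 : U m z 1 = U m x' 1 := by
    rw [hz, U_repl hJ y (by omega) _ (by omega), if_neg (by omega), y1]
  have z2 : U m z 2 = U m x' 2 := by
    rw [hz, U_repl hJ y (by omega) _ (by omega), if_pos rfl]
  have z3 : U m z 3 = U m x 3 := by
    rw [hz, U_repl hJ y (by omega) _ (by omega), if_neg (by omega), y3]
  have s3 := move z hzE 3 (by omega) (by omega) (U m x' 3) (by rw [z3, h3])
  have e : repl z 3 (U m x' 3) = x' := by
    funext j
    have hj := j.2
    have hU : ∀ c < 4, c ≠ 0 → U m (repl z 3 (U m x' 3)) c = U m x' c := by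
      intro c hc hc0
      rw [U_repl hJ z (by omega) _ hc]
      by_cases h : c = 3
      · rw [if_pos h, h]
      · rw [if_neg h]
        interval_cases c
        · exact absurd rfl hc0
        · exact z1
        · exact z2
        · exact absurd rfl h
    by_cases h0 : j.val % 4 = 0
    · have a1 := (zero_repl hzE.1 (by omega) (U m x' 3) : Zero 0 (repl z 3 (U m x' 3))) j
        (by simpa using h0)
      have a2 := hx'.1 j (by simpa using h0)
      rw [a1, a2]
    · have := congrFun (hU (j.val % 4) (by omega) h0) ⟨j.val / 4, by omega⟩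
      simp only [U] at this
      have e4 : 4 * (j.val / 4) + j.val % 4 = j.val := by omega
      rw [e4, ex, ex, dif_pos hj, dif_pos hj] at this
      exact this
  have s3' : Cn (⟨(0, z), hzE⟩ : E m J P) ⟨(0, x'), hx'⟩ := by
    have e5 : rep hJ z hzE (c := 3) (by omega) (by omega) (U m x' 3) (by rw [z3, h3]) =
        (⟨(0, x'), hx'⟩ : E m J P) := by
      apply Subtype.ext
      show (0, repl z 3 (U m x' 3)) = (0, x')
      rw [e]
    rwa [e5] at s3
  exact s1.trans (s2.trans s3')

theorem cn_zero (hP : Lab m P) (hJ : J + 1 = 4 * m) (e : E m J P) :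
    ∃ e' : E m J P, e'.1.1 = 0 ∧ Cn e e' := by
  have key : ∀ t : ℕ, ∀ e : E m J P, (e.1.1.val + t) % 4 = 0 → ∃ e' : E m J P, e'.1.1 = 0 ∧
      Cn e e' := by
    intro t
    induction t with
    | zero =>
      intro e he
      refine ⟨e, ?_, Cn.refl _⟩
      apply Fin.ext
      have := e.1.1.2
      simp only [Fin.val_zero]
      omega
    | succ t ih =>
      intro e he
      obtain ⟨e', h1, h2⟩ := ih (step hP hJ e) (by
        show ((e.1.1 + 1).val + t) % 4 = 0
        rw [Fin.val_add]
        simp only [Fin.val_one]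
        omega)
      exact ⟨e', h1, (cn_step hP hJ e).trans h2⟩
  exact key (4 - e.1.1.val) e (by have := e.1.1.2; omega)

theorem U_step (hJ : J + 1 = 4 * m) (e : E m J P) {i : ℕ} (hi : i < 3) (hP : Lab m P) :
    U m (step hP hJ e).1.2 i = U m e.1.2 (i + 1) := U_sh hJ _ _ hi

theorem U_step3 (hJ : J + 1 = 4 * m) (e : E m J P) (hP : Lab m P) (hr : e.1.1 ≠ 0) :
    P (U m (step hP hJ e).1.2 3) = !(P (U m e.1.2 0)) := by
  show P (U m (sh e.1.2 (nb e.1.1 e.1.2)) 3) = _
  rw [U_sh3 hJ, nb, if_neg hr, ← U_zero hJ hP.pos e.1.2]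
  exact hP.anti _

theorem cn_all (hP : Lab m P) (hJ : J + 1 = 4 * m) (e e' : E m J P) : Cn e e' := by
  have base : ∀ e e' : E m J P, e.1.1 = 0 → e'.1.1 = 0 → P (U m e.1.2 1) = P (U m e'.1.2 1) →
      Cn e e' := by
    rintro ⟨⟨r, x⟩, hx⟩ ⟨⟨r', x'⟩, hx'⟩ hr hr' h
    simp only at hr hr' h
    subst hr
    subst hr'
    have g : ∀ a b c d : Bool, cond 0 a b c d = true → c = b ∧ d = !b := by decide
    have g1 := g _ _ _ _ hx.2
    have g2 := g _ _ _ _ hx'.2
    simp only at g1 g2
    exact cn_same hP hJ x x' hx hx' h (by rw [g1.1, g2.1, h]) (by rw [g1.2, g2.2, h])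
  have flip : ∀ e : E m J P, e.1.1 = 0 → ∃ e' : E m J P, e'.1.1 = 0 ∧
      P (U m e'.1.2 1) = !(P (U m e.1.2 1)) ∧ Cn e e' := by
    intro e he
    let e1 := step hP hJ e
    let e2 := step hP hJ e1
    let e3 := step hP hJ e2
    let e4 := step hP hJ e3
    have r1 : e1.1.1 = 1 := by show e.1.1 + 1 = 1; rw [he]; rfl
    have r2 : e2.1.1 = 2 := by show e1.1.1 + 1 = 2; rw [r1]; rfl
    have r3 : e3.1.1 = 3 := by show e2.1.1 + 1 = 3; rw [r2]; rfl
    have r4 : e4.1.1 = 0 := by show e3.1.1 + 1 = 0; rw [r3]; rfl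
    refine ⟨e4, r4, ?_, ?_⟩
    · have a1 : U m e4.1.2 1 = U m e3.1.2 2 := U_step hJ e3 (by omega) hP
      have a2 : U m e3.1.2 2 = U m e2.1.2 3 := U_step hJ e2 (by omega) hP
      have a3 : P (U m e2.1.2 3) = !(P (U m e1.1.2 0)) :=
        U_step3 hJ e1 hP (by rw [r1]; decide)
      have a4 : U m e1.1.2 0 = U m e.1.2 1 := U_step hJ e (by omega) hP
      rw [a1, a2, a3, a4]
    · exact (cn_step hP hJ e).trans ((cn_step hP hJ e1).trans ((cn_step hP hJ e2).trans
        (cn_step hP hJ e3)))
  obtain ⟨f, hf, hef⟩ := cn_zero hP hJ e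
  obtain ⟨f', hf', hef'⟩ := cn_zero hP hJ e'
  by_cases h : P (U m f.1.2 1) = P (U m f'.1.2 1)
  · exact hef.trans ((base f f' hf hf' h).trans hef'.symm)
  · obtain ⟨g, hg, hg2, hfg⟩ := flip f hf
    have : P (U m g.1.2 1) = P (U m f'.1.2 1) := by
      rw [hg2]
      cases h1 : P (U m f.1.2 1) <;> cases h2 : P (U m f'.1.2 1) <;> simp_all
    exact hef.trans (hfg.trans ((base g f' hg hf' this).trans hef'.symm))

end Conn

section Cover

variable {P : (Fin m → Bool) → Bool}

/-- `u` fits the partial word `p`. -/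
def Fits {n : ℕ} (p : Fin n → Option Bool) (u : Fin n → Bool) : Prop :=
  ∀ j, p j = none ∨ p j = some (u j)

/-- The class condition only depends on the letters which are not wild-cards. -/
theorem good_congr (hJ : J + 1 = 4 * m) {r : Fin 4} {x y : Fin (J + 1) → Bool}
    (h : ∀ j : Fin (J + 1), (r.val + j.val) % 4 ≠ 0 → x j = y j) :
    Good m P r x ↔ Good m P r y := by
  have hU : ∀ i < 4, (r.val + i) % 4 ≠ 0 → U m x i = U m y i := by
    intro i hi hri
    funext k
    have hk := k.2
    rw [U, U, ex, ex, dif_pos (by omega), dif_pos (by omega)]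
    apply h
    simp only
    omega
  rw [Good, Good]
  fin_cases r
  · have h1 := hU 1 (by omega) (by decide)
    have h2 := hU 2 (by omega) (by decide)
    have h3 := hU 3 (by omega) (by decide)
    simp only [cond, h1, h2, h3]
  · have h1 := hU 0 (by omega) (by decide)
    have h2 := hU 1 (by omega) (by decide)
    have h3 := hU 2 (by omega) (by decide)
    simp only [cond, h1, h2, h3]
  · have h1 := hU 0 (by omega) (by decide)
    have h2 := hU 1 (by omega) (by decide)
    have h3 := hU 3 (by omega) (by decide)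
    simp only [cond, h1, h2, h3]
  · have h1 := hU 0 (by omega) (by decide)
    have h2 := hU 2 (by omega) (by decide)
    have h3 := hU 3 (by omega) (by decide)
    simp only [cond, h1, h2, h3]

theorem fits_iff (r : Fin 4) (x u : Fin (J + 1) → Bool) :
    Fits (W r x) u ↔ ∀ j : Fin (J + 1), (r.val + j.val) % 4 ≠ 0 → x j = u j := by
  constructor
  · intro h j hj
    have := h j
    rw [W, if_neg hj] at this
    rcases this with h1 | h1
    · cases h1
    · exact Option.some.inj h1
  · intro h j
    rw [W]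
    by_cases hj : (r.val + j.val) % 4 = 0
    · left; rw [if_pos hj]
    · right; rw [if_neg hj, h j hj]

theorem exists_unique_cover (hJ : J + 1 = 4 * m) (u : Fin (J + 1) → Bool) :
    ∃! e : E m J P, Fits (word e) u := by
  obtain ⟨r, hr, hru⟩ := cond_exists (P (U m u 0)) (P (U m u 1)) (P (U m u 2)) (P (U m u 3))
  let x : Fin (J + 1) → Bool := fun j => if (r.val + j.val) % 4 = 0 then false else u j
  have hxu : ∀ j : Fin (J + 1), (r.val + j.val) % 4 ≠ 0 → x j = u j := by
    intro j hj
    simp only [x, if_neg hj]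
  have hx : Zero r x ∧ Good m P r x := by
    constructor
    · intro j hj
      simp only [x, if_pos hj]
    · rw [good_congr hJ hxu]
      exact hr
  refine ⟨⟨(r, x), hx⟩, ?_, ?_⟩
  · show Fits (W r x) u
    rw [fits_iff]
    exact hxu
  · rintro ⟨⟨r', x'⟩, hx'⟩ h
    have h1 : Fits (W r' x') u := h
    rw [fits_iff] at h1
    have h2 : r' = r := by
      apply hru
      exact (good_congr hJ h1).mp hx'.2
    subst h2
    apply Subtype.ext
    show (r', x') = (r', x)
    congr 1
    funext j
    by_cases hj : (r'.val + j.val) % 4 = 0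
    · exact (hx'.1 j hj).trans (hx.1 j hj).symm
    · rw [h1 j hj, hxu j hj]

theorem card_none (hJ : J + 1 = 4 * m) (r : Fin 4) (x : Fin (J + 1) → Bool) :
    Nat.card {j : Fin (J + 1) // W r x j = none} = m := by
  have e1 : ∀ j : Fin (J + 1), W r x j = none ↔ (r.val + j.val) % 4 = 0 := by
    intro j
    rw [W]
    by_cases hj : (r.val + j.val) % 4 = 0
    · simp [hj]
    · simp [hj]
  have hr := r.2
  let f : {j : Fin (J + 1) // W r x j = none} ≃ Fin m :=
    { toFun := fun j => ⟨j.1.val / 4, by have := j.1.2; omega⟩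
      invFun := fun k => ⟨⟨4 * k.val + (4 - r.val) % 4, by have := k.2; omega⟩, by
        rw [e1]; simp only; omega⟩
      left_inv := by
        intro j
        have h := (e1 j.1).mp j.2
        apply Subtype.ext
        apply Fin.ext
        simp only
        omega
      right_inv := by
        intro k
        apply Fin.ext
        simp only
        omega }
  rw [Nat.card_congr f, Nat.card_eq_fintype_card, Fintype.card_fin]

/-- **Universal partial cycles.** -/
theorem exists_upcycle (hP : Lab m P) (hJ : J + 1 = 4 * m) :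
    ∃ (N : ℕ) (_ : 0 < N) (s : ZMod N → Option Bool),
      (∀ u : Fin (J + 1) → Bool, ∃! i : ZMod N, Fits (fun j => s (i + (j.val : ℕ))) u) ∧
      (∀ i : ZMod N, Nat.card {j : Fin (J + 1) // s (i + (j.val : ℕ)) = none} = m) := by
  classical
  have : Fintype (E m J P) := Fintype.ofFinite _
  have hne : Nonempty (E m J P) := by
    obtain ⟨e, _⟩ := exists_unique_cover (P := P) hJ (fun _ => false)
    exact ⟨e⟩
  obtain ⟨s, φ, hs, _⟩ := exists_seq J (word (P := P)) (sigma hP hJ)
    (fun e => init_step hP hJ e) (fun e e' => cn_all hP hJ e e')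
  refine ⟨Fintype.card (E m J P), Fintype.card_pos, s, ?_, ?_⟩
  · intro u
    obtain ⟨e, he, heu⟩ := exists_unique_cover (P := P) hJ u
    refine ⟨φ.symm e, ?_, ?_⟩
    · have h1 := hs (φ.symm e)
      rw [Equiv.apply_symm_apply] at h1
      show Fits (win (J + 1) s (φ.symm e)) u
      rw [h1]
      exact he
    · intro i hi
      have h1 : Fits (word (φ i)) u := by
        rw [← hs i]
        exact hi
      rw [← heu _ h1, Equiv.symm_apply_apply]
  · intro i
    have h1 := hs i
    have h2 : ∀ j : Fin (J + 1), s (i + (j.val : ℕ)) = W (φ i).1.1 (φ i).1.2 j :=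
      fun j => congrFun h1 j
    simp only [h2]
    exact card_none hJ _ _

end Cover

end Pool.Agent.Q160.Upc
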