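import Mathlib
import Pool.Agent.Q160.Upc

/-!
# A binary universal partial cycle for words of length 8
-/

set_option autoImplicit false

namespace Pool.Agent.Q160.Upc8

open Pool.Agent.Q160.Upc

/-- Bit `k` of this number is the letter at position `k`. -/
def LB : ℕ := 41113241611763480336807546373559289382648

/-- Bit `k` of this number is `1` if position `k` holds a letter. -/
def MB : ℕ := 43214526158304592944305581517923065724670

/-- Digit `u` in base `128` of this number is the position where the word number `u` is covered. -/
def TB : ℕ := 6583347406191788795562914818014374417655127749466356807763026045212311851003040056706581802796802376392261652347326909045834785784818873860173791403191711369579576943571787906549682524114110473191093154204718832931168635210332070929354843185060967193093471862185674709120424058808992160328533634879823126779735920483187220766398853136926190605946850539523639456328753675794171264422157008923258774297239075143038307700056686831740906589351240357209447715556747434430050313745433302963768695851541176966177546931800682678738531104581027083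

def pos (u : ℕ) : ℕ := (TB >>> (7 * u)) % 128

def fits (i u : ℕ) : Bool := (((LB >>> i) ^^^ u) &&& (MB >>> i)) % 256 == 0

def clash (i j : ℕ) : Bool :=
  !((((LB >>> i) ^^^ (LB >>> j)) &&& ((MB >>> i) &&& (MB >>> j))) % 256 == 0)

def allFit (n : ℕ) : Bool := Nat.rec true (fun u ih => fits (pos u) u && ih) n

def allClash (i j : ℕ) : Bool := Nat.rec true (fun k ih => clash i k && ih) j

def allPairs (n : ℕ) : Bool := Nat.rec true (fun i ih => allClash i i && ih) n

theorem allFit_true : allFit 256 = true := by decide +kernel

theorem allPairs_true : allPairs 128 = true := by decide +kernel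

theorem rec_and (f : ℕ → Bool) (n : ℕ)
    (h : (Nat.rec true (fun k ih => f k && ih) n : Bool) = true) : ∀ k < n, f k = true := by
  induction n with
  | zero => intro k hk; omega
  | succ n ih =>
    intro k hk
    have h' : (f n && (Nat.rec true (fun k ih => f k && ih) n : Bool)) = true := h
    rw [Bool.and_eq_true] at h'
    rcases Nat.lt_succ_iff_lt_or_eq.mp hk with h1 | h1
    · exact ih h'.2 k h1
    · rw [h1]; exact h'.1

theorem mod_zero_iff (X : ℕ) : X % 256 = 0 ↔ ∀ j < 8, X.testBit j = false := by
  have e : (256 : ℕ) = 2 ^ 8 := by norm_num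
  rw [e]
  constructor
  · intro h j hj
    have h1 := Nat.testBit_mod_two_pow X 8 j
    rw [h, Nat.zero_testBit] at h1
    simpa [hj] using h1.symm
  · intro h
    apply Nat.eq_of_testBit_eq
    intro j
    rw [Nat.testBit_mod_two_pow, Nat.zero_testBit]
    by_cases hj : j < 8
    · simp [h j hj]
    · simp [hj]

theorem fits_iff (i u : ℕ) : fits i u = true ↔
    ∀ j < 8, MB.testBit (i + j) = true → LB.testBit (i + j) = u.testBit j := by
  rw [fits, beq_iff_eq, mod_zero_iff]
  apply forall₂_congr
  intro j _
  rw [Nat.testBit_and, Nat.testBit_xor, Nat.testBit_shiftRight, Nat.testBit_shiftRight]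
  cases LB.testBit (i + j) <;> cases u.testBit j <;> cases MB.testBit (i + j) <;> simp

theorem clash_iff (i j : ℕ) : clash i j = true ↔
    ∃ t < 8, MB.testBit (i + t) = true ∧ MB.testBit (j + t) = true ∧
      LB.testBit (i + t) ≠ LB.testBit (j + t) := by
  rw [clash, Bool.not_eq_true', beq_eq_false_iff_ne, ne_eq, mod_zero_iff]
  push Not
  apply exists_congr
  intro t
  rw [Nat.testBit_and, Nat.testBit_and, Nat.testBit_xor, Nat.testBit_shiftRight,
    Nat.testBit_shiftRight, Nat.testBit_shiftRight, Nat.testBit_shiftRight]
  cases LB.testBit (i + t) <;> cases LB.testBit (j + t) <;> cases MB.testBit (i + t) <;>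
    cases MB.testBit (j + t) <;> simp

/-- The character at position `k`. -/
def chr (k : ℕ) : Option Bool := if MB.testBit k then some (LB.testBit k) else none

theorem chr_cyclic : ∀ j < 7, chr (128 + j) = chr j := by decide +kernel

/-- The cyclic partial word. -/
def s (i : ZMod 128) : Option Bool := chr i.val

theorem s_add (i : ZMod 128) (j : ℕ) (hj : j < 8) : s (i + (j : ℕ)) = chr (i.val + j) := by
  have hi := ZMod.val_lt i
  have hj' : ((j : ℕ) : ZMod 128).val = j := by
    rw [ZMod.val_natCast]
    exact Nat.mod_eq_of_lt (by omega)
  rw [s]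
  rcases Nat.lt_or_ge (i.val + j) 128 with h | h
  · rw [ZMod.val_add_of_lt (by rw [hj']; exact h), hj']
  · have h2 : (i + ((j : ℕ) : ZMod 128)).val = i.val + j - 128 := by
      rw [ZMod.val_add, hj']
      omega
    obtain ⟨t, ht⟩ : ∃ t, i.val + j = 128 + t := ⟨i.val + j - 128, by omega⟩
    rw [h2, ht, Nat.add_sub_cancel_left, chr_cyclic t (by omega)]

theorem fits_chr (i : ℕ) (u : Fin 8 → Bool) :
    Fits (fun j : Fin 8 => chr (i + j.val)) u ↔
      ∀ j : Fin 8, MB.testBit (i + j.val) = true → LB.testBit (i + j.val) = u j := by
  constructor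
  · intro h j hj
    have := h j
    simp only [chr, hj, if_true] at this
    rcases this with h1 | h1
    · cases h1
    · exact Option.some.inj h1
  · intro h j
    by_cases hj : MB.testBit (i + j.val) = true
    · right
      show chr (i + j.val) = _
      rw [chr, if_pos hj, h j hj]
    · left
      show chr (i + j.val) = _
      rw [chr, if_neg hj]

theorem universal (u : Fin 8 → Bool) :
    ∃! i : ZMod 128, Fits (fun j : Fin 8 => s (i + (j.val : ℕ))) u := by
  have e : ∀ i : ZMod 128, (fun j : Fin 8 => s (i + (j.val : ℕ))) =
      fun j : Fin 8 => chr (i.val + j.val) := fun i => funext fun j => s_add i j.val j.2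
  simp only [e]
  set U := Nat.ofBits u with hU
  have hUlt : U < 256 := by
    have := Nat.ofBits_lt_two_pow u
    simpa using this
  have hbit : ∀ j : Fin 8, U.testBit j.val = u j := fun j => Nat.testBit_ofBits_lt u j.val j.2
  have hp : pos U < 128 := Nat.mod_lt _ (by norm_num)
  have hval : ((pos U : ℕ) : ZMod 128).val = pos U := by
    rw [ZMod.val_natCast]
    exact Nat.mod_eq_of_lt hp
  refine ⟨((pos U : ℕ) : ZMod 128), ?_, ?_⟩
  · show Fits (fun j : Fin 8 => chr (((pos U : ℕ) : ZMod 128).val + j.val)) u
    rw [hval, fits_chr]
    intro j hj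
    rw [← hbit]
    exact (fits_iff _ _).mp (rec_and (fun u => fits (pos u) u) 256 allFit_true U hUlt) j.val j.2 hj
  · intro i hi
    have hi' : Fits (fun j : Fin 8 => chr (i.val + j.val)) u := hi
    rw [fits_chr] at hi'
    have h0 : ∀ j : Fin 8, MB.testBit (pos U + j.val) = true →
        LB.testBit (pos U + j.val) = u j := by
      intro j hj
      rw [← hbit]
      exact (fits_iff _ _).mp (rec_and (fun u => fits (pos u) u) 256 allFit_true U hUlt)
        j.val j.2 hj
    have key : ∀ a b : ℕ, a < 128 → b < a →
        (∀ j : Fin 8, MB.testBit (a + j.val) = true → LB.testBit (a + j.val) = u j) →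
        (∀ j : Fin 8, MB.testBit (b + j.val) = true → LB.testBit (b + j.val) = u j) → False := by
      intro a b ha hab h1 h2
      obtain ⟨t, ht, k1, k2, k3⟩ := (clash_iff a b).mp
        (rec_and (fun k => clash a k) a (rec_and (fun i => allClash i i) 128 allPairs_true a ha)
          b hab)
      exact k3 ((h1 ⟨t, ht⟩ k1).trans (h2 ⟨t, ht⟩ k2).symm)
    have hil := ZMod.val_lt i
    have heq : i.val = pos U := by
      rcases Nat.lt_trichotomy i.val (pos U) with h | h | h
      · exact (key _ _ hp h h0 hi').elim
      · exact h
      · exact (key _ _ hil h hi' h0).elim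
    rw [← heq, ZMod.natCast_zmod_val]

end Pool.Agent.Q160.Upc8
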