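import Mathlib
import Pool.Agent.Q160.Upc

/-!
# The majority function on words of odd length
-/

set_option autoImplicit false

namespace Pool.Agent.Q160.Upc

open Relation Finset

variable {m : ℕ}

/-- Is the place odd? -/
def alt (k : ℕ) : Bool := decide (k % 2 = 1)

theorem alt_succ (k : ℕ) : alt (k + 1) = !(alt k) := by
  rw [alt, alt]
  rcases Nat.mod_two_eq_zero_or_one k with h | h
  · have : (k + 1) % 2 = 1 := by omega
    simp [h, this]
  · have : (k + 1) % 2 = 0 := by omega
    simp [h, this]

/-- The number of places where the word differs from the alternating word. -/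
def wt (x : Fin m → Bool) : ℕ := (univ.filter fun k : Fin m => x k ≠ alt k.val).card

theorem wt_le (x : Fin m → Bool) : wt x ≤ m := by
  have := card_le_univ (univ.filter fun k : Fin m => x k ≠ alt k.val)
  rwa [Fintype.card_fin] at this

/-- The majority function. -/
def maj (x : Fin m → Bool) : Bool := decide (m < 2 * wt x)

/-- The rotation of places. -/
def rotF (hm : 0 < m) (k : Fin m) : Fin m :=
  if h : k.val + 1 < m then ⟨k.val + 1, h⟩ else ⟨0, hm⟩

theorem rotF_injective (hm : 0 < m) : Function.Injective (rotF hm) := by
  intro a b h
  have ha := a.2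
  have hb := b.2
  rw [rotF, rotF] at h
  by_cases h1 : a.val + 1 < m
  · rw [dif_pos h1] at h
    by_cases h2 : b.val + 1 < m
    · rw [dif_pos h2] at h
      have := congrArg Fin.val h
      apply Fin.ext
      simp only at this
      omega
    · rw [dif_neg h2] at h
      have := congrArg Fin.val h
      simp only at this
      omega
  · rw [dif_neg h1] at h
    by_cases h2 : b.val + 1 < m
    · rw [dif_pos h2] at h
      have := congrArg Fin.val h
      simp only at this
      omega
    · apply Fin.ext
      omega

/-- The rotation of places as a permutation. -/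
noncomputable def rotE (hm : 0 < m) : Equiv.Perm (Fin m) :=
  Equiv.ofBijective (rotF hm) (Finite.injective_iff_bijective.mp (rotF_injective hm))

theorem card_rot (hm : 0 < m) (p : Fin m → Prop) [DecidablePred p]
    (q : Fin m → Prop) [DecidablePred q] (h : ∀ k, p k ↔ ¬ q (rotF hm k)) :
    (univ.filter p).card + (univ.filter q).card = m := by
  have h1 : (univ.filter p).card = (univ.filter fun k => ¬ q k).card := by
    apply card_bij (fun k _ => rotF hm k)
    · intro k hk
      rw [mem_filter] at hk ⊢
      exact ⟨mem_univ _, (h k).mp hk.2⟩
    · intro a _ b _ hab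
      exact rotF_injective hm hab
    · intro b hb
      rw [mem_filter] at hb
      obtain ⟨a, ha⟩ := (rotE hm).surjective b
      have ha' : rotF hm a = b := ha
      refine ⟨a, ?_, ha'⟩
      rw [mem_filter]
      refine ⟨mem_univ _, (h a).mpr ?_⟩
      rw [ha']
      exact hb.2
  rw [h1, add_comm, card_filter_add_card_filter_not, card_univ, Fintype.card_fin]

theorem wt_app (hm : 0 < m) (hodd : m % 2 = 1) (x : Fin m → Bool) :
    wt (app x (!(x ⟨0, hm⟩))) + wt x = m := by
  apply card_rot hm
  intro k
  have hk := k.2
  rw [app, rotF]
  by_cases h : k.val + 1 < m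
  · rw [dif_pos h, dif_pos h]
    simp only [alt_succ]
    cases x ⟨k.val + 1, h⟩ <;> cases alt k.val <;> simp
  · rw [dif_neg h, dif_neg h]
    have e : alt k.val = false := by
      rw [alt]
      have : k.val % 2 = 0 := by omega
      simp [this]
    have e0 : alt (0 : ℕ) = false := rfl
    simp only [e, e0]
    cases x ⟨0, hm⟩ <;> simp

theorem wt_update (x : Fin m → Bool) (k : Fin m) (hk : x k = alt k.val) :
    wt (Function.update x k (!(x k))) = wt x + 1 := by
  rw [wt, wt]
  have : (univ.filter fun j : Fin m => Function.update x k (!(x k)) j ≠ alt j.val) =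
      insert k (univ.filter fun j : Fin m => x j ≠ alt j.val) := by
    ext j
    simp only [mem_filter, mem_univ, true_and, mem_insert]
    by_cases h : j = k
    · subst h
      rw [Function.update_self, hk]
      simp
    · rw [Function.update_of_ne h]
      simp [h]
  rw [this, card_insert_of_notMem]
  simp [hk]

theorem near_update {x : Fin m → Bool} (k : Fin m) (b : Bool) : Near x (Function.update x k b) :=
  ⟨k, fun j hj => by rw [Function.update_of_ne hj]⟩

theorem wt_update' (x : Fin m → Bool) (k : Fin m) (hk : x k ≠ alt k.val) :
    wt (Function.update x k (!(x k))) + 1 = wt x := by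
  have h1 : (Function.update x k (!(x k))) k = alt k.val := by
    rw [Function.update_self]
    cases h : x k <;> cases h' : alt k.val <;> simp_all
  have h2 := wt_update _ k h1
  rw [← h2]
  congr 1
  funext j
  by_cases h : j = k
  · subst h
    rw [Function.update_self, Function.update_self]
    simp
  · rw [Function.update_of_ne h, Function.update_of_ne h]

theorem conn_top (t : ℕ) : ∀ x : Fin m → Bool, wt x + t = m → maj x = true →
    EqvGen (fun a b => Near a b ∧ maj a = maj b) x (fun k => !(alt k.val)) := by
  induction t with
  | zero =>
    intro x hx _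
    have : x = fun k => !(alt k.val) := by
      funext k
      by_contra hk
      have hk2 : x k = alt k.val := by
        cases h : x k <;> cases h' : alt k.val <;> simp_all
      have h1 := wt_update x k hk2
      have h2 := wt_le (Function.update x k (!(x k)))
      omega
    rw [this]
    exact EqvGen.refl _
  | succ t ih =>
    intro x hx hmaj
    obtain ⟨k, hk⟩ : ∃ k, x k = alt k.val := by
      by_contra hcon
      push Not at hcon
      have : wt x = m := by
        rw [wt, filter_true_of_mem (fun k _ => hcon k), card_univ, Fintype.card_fin]
      omega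
    have h1 := wt_update x k hk
    have h2 : maj (Function.update x k (!(x k))) = true := by
      rw [maj, decide_eq_true_eq] at hmaj ⊢
      omega
    exact EqvGen.trans _ _ _ (EqvGen.rel _ _ ⟨near_update k _, by rw [hmaj, h2]⟩)
      (ih _ (by omega) h2)

theorem conn_bot (t : ℕ) : ∀ x : Fin m → Bool, wt x = t → maj x = false →
    EqvGen (fun a b => Near a b ∧ maj a = maj b) x (fun k => alt k.val) := by
  induction t with
  | zero =>
    intro x hx _
    have : x = fun k => alt k.val := by
      funext k
      by_contra hk
      have h1 := wt_update' x k hk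
      omega
    rw [this]
    exact EqvGen.refl _
  | succ t ih =>
    intro x hx hmaj
    obtain ⟨k, hk⟩ : ∃ k, x k ≠ alt k.val := by
      by_contra hcon
      push Not at hcon
      have : wt x = 0 := by
        rw [wt, card_eq_zero, filter_eq_empty_iff]
        intro k _ hk
        exact hk (hcon k)
      omega
    have h1 := wt_update' x k hk
    have h2 : maj (Function.update x k (!(x k))) = false := by
      rw [maj, decide_eq_false_iff_not] at hmaj ⊢
      omega
    exact EqvGen.trans _ _ _ (EqvGen.rel _ _ ⟨near_update k _, by rw [hmaj, h2]⟩)
      (ih _ (by omega) h2)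

theorem lab_maj (hodd : m % 2 = 1) : Lab m (maj (m := m)) where
  pos := by omega
  anti := by
    intro v
    have h := wt_app (by omega) hodd v
    rw [maj, maj]
    by_cases h1 : m < 2 * wt v
    · rw [decide_eq_true h1, decide_eq_false (by omega)]
      rfl
    · rw [decide_eq_false h1, decide_eq_true (by omega)]
      rfl
  conn := by
    intro a b hab
    cases h : maj a with
    | true =>
      exact EqvGen.trans _ _ _ (conn_top (m - wt a) a (by have := wt_le a; omega) h)
        (EqvGen.symm _ _ (conn_top (m - wt b) b (by have := wt_le b; omega) (hab ▸ h)))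
    | false =>
      exact EqvGen.trans _ _ _ (conn_bot (wt a) a rfl h)
        (EqvGen.symm _ _ (conn_bot (wt b) b rfl (hab ▸ h)))

end Pool.Agent.Q160.Upc
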