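import Mathlib
import Pool.Agent.Q160.UpcOdd

/-!
# A Boolean function on words of even length at least four
-/

set_option autoImplicit false

namespace Pool.Agent.Q160.Upc

open Relation Finset

variable {m : ℕ}

/-- The antiperiodic extension. -/
def ap (hm : 0 < m) (x : Fin m → Bool) (i : ℕ) : Bool :=
  xor (x ⟨i % m, Nat.mod_lt _ hm⟩) (alt (i / m))

/-- The change indicator. -/
def ch (hm : 0 < m) (x : Fin m → Bool) (i : ℕ) : Bool :=
  xor (xor (ap hm x i) (ap hm x (i + 1))) (alt i)

theorem ap_lt (hm : 0 < m) (x : Fin m → Bool) {i : ℕ} (hi : i < m) : ap hm x i = x ⟨i, hi⟩ := by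
  have e1 : i % m = i := Nat.mod_eq_of_lt hi
  have e2 : i / m = 0 := Nat.div_eq_of_lt hi
  simp only [ap, e1, e2]
  simp [alt]

theorem ap_m (hm : 0 < m) (x : Fin m → Bool) : ap hm x m = !(x ⟨0, hm⟩) := by
  have e1 : m % m = 0 := Nat.mod_self m
  have e2 : m / m = 1 := Nat.div_self hm
  simp only [ap, e1, e2]
  simp [alt]

theorem ap_app (hm : 0 < m) (x : Fin m → Bool) (i : ℕ) :
    ap hm (app x (!(x ⟨0, hm⟩))) i = ap hm x (i + 1) := by
  have h0 := Nat.div_add_mod i m
  have h1 := Nat.mod_lt i hm
  rw [ap, ap, app]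
  by_cases h : i % m + 1 < m
  · rw [dif_pos h]
    have e1 : (i + 1) % m = i % m + 1 := by
      rw [Nat.add_mod_of_add_mod_lt]
      · rw [Nat.mod_eq_of_lt (show 1 < m by omega)]
      · rw [Nat.mod_eq_of_lt (show 1 < m by omega)]
        exact h
    have e2 : (i + 1) / m = i / m := by
      have h2 := Nat.div_add_mod (i + 1) m
      rw [e1] at h2
      have h3 : m * ((i + 1) / m) = m * (i / m) := by omega
      exact Nat.eq_of_mul_eq_mul_left hm h3
    simp only [e1, e2]
  · rw [dif_neg h]
    have h4 : i + 1 = m * (i / m + 1) := by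
      rw [Nat.mul_add, Nat.mul_one]
      omega
    have e1 : (i + 1) % m = 0 := by rw [h4, Nat.mul_mod_right]
    have e2 : (i + 1) / m = i / m + 1 := by rw [h4, Nat.mul_div_cancel_left _ hm]
    simp only [e1, e2, alt_succ]
    cases x ⟨0, hm⟩ <;> cases alt (i / m) <;> rfl

theorem ch_app (hm : 0 < m) (x : Fin m → Bool) (i : ℕ) :
    ch hm (app x (!(x ⟨0, hm⟩))) i = !(ch hm x (i + 1)) := by
  rw [ch, ch, ap_app, ap_app, alt_succ]
  cases ap hm x (i + 1) <;> cases ap hm x (i + 1 + 1) <;> cases alt i <;> rfl

theorem ch_m (hm : 0 < m) (heven : m % 2 = 0) (hm2 : 1 < m) (x : Fin m → Bool) :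
    ch hm x m = ch hm x 0 := by
  have e : ap hm x (m + 1) = !(ap hm x 1) := by
    have e1 : (m + 1) % m = 1 := by
      rw [Nat.add_mod_left, Nat.mod_eq_of_lt hm2]
    have e2 : (m + 1) / m = 1 := by
      rw [Nat.add_div_left 1 hm, Nat.div_eq_of_lt hm2]
    have e3 : 1 % m = 1 := Nat.mod_eq_of_lt hm2
    have e4 : 1 / m = 0 := Nat.div_eq_of_lt hm2
    simp only [ap, e1, e2, e3, e4]
    simp [alt]
  have e5 : alt m = alt 0 := by simp [alt, heven]
  rw [ch, ch, ap_m, e, e5, ap_lt hm x hm]
  cases x ⟨0, hm⟩ <;> cases ap hm x 1 <;> cases alt 0 <;> rfl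

/-- The number of places where the change indicator is not `b`. -/
def T (hm : 0 < m) (b : Bool) (x : Fin m → Bool) : ℕ :=
  (univ.filter fun k : Fin m => ch hm x k.val ≠ b).card

theorem T_add (hm : 0 < m) (x : Fin m → Bool) : T hm false x + T hm true x = m := by
  have h : (univ.filter fun k : Fin m => ch hm x k.val ≠ true) =
      univ.filter fun k : Fin m => ¬ (ch hm x k.val ≠ false) := by
    apply filter_congr
    intro k _
    cases ch hm x k.val <;> simp
  rw [T, T, h, card_filter_add_card_filter_not, card_univ, Fintype.card_fin]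

theorem T_app (hm : 0 < m) (heven : m % 2 = 0) (hm2 : 1 < m) (x : Fin m → Bool) :
    T hm false (app x (!(x ⟨0, hm⟩))) + T hm false x = m := by
  apply card_rot hm
  intro k
  have hk := k.2
  rw [ch_app, rotF]
  by_cases h : k.val + 1 < m
  · rw [dif_pos h]
    cases ch hm x (k.val + 1) <;> simp
  · rw [dif_neg h]
    have e : k.val + 1 = m := by omega
    rw [e, ch_m hm heven hm2]
    simp only
    cases ch hm x 0 <;> simp

theorem parity_sum (hm : 0 < m) (x : Fin m → Bool) (k : ℕ) :
    (∑ i ∈ range k, (ch hm x i).toNat) % 2 =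
      ((ap hm x 0).toNat + (ap hm x k).toNat + k / 2) % 2 := by
  induction k with
  | zero =>
    simp
    omega
  | succ k ih =>
    rw [sum_range_succ, Nat.add_mod, ih, ch]
    have h : (alt k).toNat + k / 2 = (k + 1) / 2 := by
      rw [alt]
      rcases Nat.mod_two_eq_zero_or_one k with h | h
      · simp [h]
        omega
      · simp [h]
        omega
    rw [← h]
    cases ap hm x 0 <;> cases ap hm x k <;> cases ap hm x (k + 1) <;> cases alt k <;> simp <;>
      omega

theorem T_false_eq (hm : 0 < m) (x : Fin m → Bool) :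
    T hm false x = ∑ i ∈ range m, (ch hm x i).toNat := by
  rw [T, card_filter, ← Fin.sum_univ_eq_sum_range (fun i => (ch hm x i).toNat)]
  apply sum_congr rfl
  intro k _
  cases ch hm x k.val <;> simp

theorem T_ne (hm : 0 < m) (heven : m % 2 = 0) (b : Bool) (x : Fin m → Bool) :
    2 * T hm b x ≠ m := by
  have h1 := parity_sum hm x m
  rw [← T_false_eq, ap_m, ap_lt hm x hm] at h1
  have h2 := T_add hm x
  have h3 : ((x ⟨0, hm⟩).toNat + (!(x ⟨0, hm⟩)).toNat) = 1 := by
    cases x ⟨0, hm⟩ <;> rfl
  rw [h3] at h1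
  cases b <;> omega

/-- The Boolean function. -/
def par (hm : 0 < m) (x : Fin m → Bool) : Bool := decide (2 * T hm false x < m)

theorem par_eq (hm : 0 < m) (heven : m % 2 = 0) (b : Bool) (x : Fin m → Bool) :
    par hm x = !b ↔ 2 * T hm b x < m := by
  have h1 := T_add hm x
  have h2 := T_ne hm heven b x
  have h3 := T_ne hm heven false x
  rw [par]
  cases b with
  | false => simp
  | true =>
    simp only [Bool.not_true, decide_eq_false_iff_not]
    omega

/-- Flip one letter. -/
def fl (x : Fin m → Bool) (k : Fin m) : Fin m → Bool := Function.update x k (!(x k))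

theorem ap_fl (hm : 0 < m) (x : Fin m → Bool) (k : Fin m) {i : ℕ} (hi : i ≤ m) :
    ap hm (fl x k) i = if i = k.val ∨ (i = m ∧ k.val = 0) then !(ap hm x i) else ap hm x i := by
  rcases Nat.lt_or_ge i m with h | h
  · rw [ap_lt hm _ h, ap_lt hm _ h, fl]
    by_cases hk : i = k.val
    · have : (⟨i, h⟩ : Fin m) = k := Fin.ext hk
      rw [if_pos (Or.inl hk), this, Function.update_self]
    · have : (⟨i, h⟩ : Fin m) ≠ k := fun h' => hk (congrArg Fin.val h')
      rw [if_neg (by omega), Function.update_of_ne this]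
  · have hi' : i = m := by omega
    subst hi'
    rw [ap_m, ap_m, fl]
    have hk2 := k.2
    by_cases hk : k.val = 0
    · have : (⟨0, hm⟩ : Fin i) = k := Fin.ext hk.symm
      rw [if_pos (Or.inr ⟨rfl, hk⟩), this, Function.update_self]
    · have : (⟨0, hm⟩ : Fin i) ≠ k := fun h' => hk (congrArg Fin.val h').symm
      rw [if_neg (by omega), Function.update_of_ne this]

/-- Effect of a flip at a place `j + 1`. -/
theorem ch_fl (hm : 0 < m) (x : Fin m → Bool) {j : ℕ} (hj : j + 1 < m) {i : ℕ} (hi : i < m) :
    ch hm (fl x ⟨j + 1, hj⟩) i = if i = j ∨ i = j + 1 then !(ch hm x i) else ch hm x i := by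
  rw [ch, ap_fl hm x _ hi.le, ap_fl hm x _ hi, ch]
  simp only
  by_cases h1 : i = j
  · subst h1
    rw [if_neg (by omega), if_pos (Or.inl rfl), if_pos (Or.inl rfl)]
    cases ap hm x i <;> cases ap hm x (i + 1) <;> cases alt i <;> rfl
  · by_cases h2 : i = j + 1
    · subst h2
      rw [if_pos (Or.inl rfl), if_neg (by omega), if_pos (Or.inr rfl)]
      cases ap hm x (j + 1) <;> cases ap hm x (j + 1 + 1) <;> cases alt (j + 1) <;> rfl
    · rw [if_neg (by omega), if_neg (by omega), if_neg (by omega)]

/-- Effect of a flip at the first place. -/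
theorem ch_fl_zero (hm : 0 < m) (hm2 : 1 < m) (x : Fin m → Bool) {i : ℕ} (hi : i < m) :
    ch hm (fl x ⟨0, hm⟩) i = if i = 0 ∨ i + 1 = m then !(ch hm x i) else ch hm x i := by
  rw [ch, ap_fl hm x _ hi.le, ap_fl hm x _ hi, ch]
  simp only
  by_cases h1 : i = 0
  · subst h1
    rw [if_pos (Or.inl rfl), if_neg (by omega), if_pos (Or.inl rfl)]
    cases ap hm x 0 <;> cases ap hm x (0 + 1) <;> cases alt 0 <;> rfl
  · by_cases h2 : i + 1 = m
    · rw [if_neg (by omega), if_pos (Or.inr ⟨h2, by trivial⟩), if_pos (Or.inr h2)]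
      cases ap hm x i <;> cases ap hm x (i + 1) <;> cases alt i <;> rfl
    · rw [if_neg (by omega), if_neg (by omega), if_neg (by omega)]

theorem near_fl (x : Fin m → Bool) (k : Fin m) : Near x (fl x k) := near_update k _

/-- The relation used for connectedness. -/
def Rl (hm : 0 < m) (a b : Fin m → Bool) : Prop := Near a b ∧ par hm a = par hm b

theorem sweep (hm : 0 < m) (heven : m % 2 = 0) (b : Bool) (x : Fin m → Bool)
    (hx : 2 * T hm b x < m) (j : ℕ) (hj : j + 1 ≤ m) :
    ∃ y, EqvGen (Rl hm) x y ∧ y ⟨0, hm⟩ = x ⟨0, hm⟩ ∧ (∀ i < j, ch hm y i = b) ∧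
      T hm b y ≤ T hm b x := by
  induction j with
  | zero => exact ⟨x, EqvGen.refl _, rfl, fun i hi => by omega, le_rfl⟩
  | succ j ih =>
    obtain ⟨y, h1, h2, h3, h4⟩ := ih (by omega)
    by_cases hb : ch hm y j = b
    · refine ⟨y, h1, h2, ?_, h4⟩
      intro i hi
      rcases Nat.lt_succ_iff_lt_or_eq.mp hi with h | h
      · exact h3 i h
      · rw [h]; exact hb
    · have hj2 : j + 1 < m := by omega
      set y' := fl y ⟨j + 1, hj2⟩ with hy'
      have hT : T hm b y' ≤ T hm b y := by
        have hsub : (univ.filter fun k : Fin m => ch hm y' k.val ≠ b) ⊆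
            insert (⟨j + 1, hj2⟩ : Fin m)
              ((univ.filter fun k : Fin m => ch hm y k.val ≠ b).erase ⟨j, by omega⟩) := by
          intro k hk
          rw [mem_filter] at hk
          have hk2 := hk.2
          rw [hy', ch_fl hm y hj2 k.2] at hk2
          rw [mem_insert, mem_erase, mem_filter]
          by_cases e1 : k.val = j + 1
          · left; exact Fin.ext e1
          · right
            by_cases e2 : k.val = j
            · rw [if_pos (Or.inl e2), e2] at hk2
              exfalso
              apply hk2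
              cases h5 : ch hm y j <;> cases b <;> simp_all
            · rw [if_neg (by omega)] at hk2
              exact ⟨fun h => e2 (congrArg Fin.val h), mem_univ _, hk2⟩
        have h5 := card_le_card hsub
        have h6 := card_insert_le (⟨j + 1, hj2⟩ : Fin m)
          ((univ.filter fun k : Fin m => ch hm y k.val ≠ b).erase ⟨j, by omega⟩)
        have h7 : (⟨j, by omega⟩ : Fin m) ∈ univ.filter fun k : Fin m => ch hm y k.val ≠ b := by
          rw [mem_filter]
          exact ⟨mem_univ _, hb⟩
        have h8 := card_erase_of_mem h7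
        have h9 := card_pos.mpr ⟨_, h7⟩
        rw [T, T]
        omega
      have hPy : par hm y = !b := (par_eq hm heven b y).mpr (by omega)
      have hPy' : par hm y' = !b := (par_eq hm heven b y').mpr (by omega)
      refine ⟨y', EqvGen.trans _ _ _ h1 (EqvGen.rel _ _ ⟨near_fl _ _, by rw [hPy, hPy']⟩),
        ?_, ?_, by omega⟩
      · rw [hy', fl, Function.update_of_ne, h2]
        intro h
        have := congrArg Fin.val h
        simp at this
      · intro i hi
        rw [hy', ch_fl hm y hj2 (by omega)]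
        by_cases e : i = j
        · rw [if_pos (Or.inl e), e]
          cases h5 : ch hm y j <;> cases b <;> simp_all
        · rw [if_neg (by omega)]
          exact h3 i (by omega)

theorem canon_unique (hm : 0 < m) (b : Bool) (x y : Fin m → Bool)
    (hx : ∀ i < m - 1, ch hm x i = b) (hy : ∀ i < m - 1, ch hm y i = b)
    (h0 : x ⟨0, hm⟩ = y ⟨0, hm⟩) : x = y := by
  have key : ∀ i (hi : i < m), x ⟨i, hi⟩ = y ⟨i, hi⟩ := by
    intro i
    induction i with
    | zero => intro _; exact h0
    | succ i ih =>
      intro hi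
      have h1 := hx i (by omega)
      have h2 := hy i (by omega)
      rw [ch, ap_lt hm _ (by omega), ap_lt hm _ hi] at h1 h2
      have h3 := ih (by omega)
      rw [h3] at h1
      rw [← h2] at h1
      generalize x ⟨i + 1, hi⟩ = p at h1 ⊢
      generalize y ⟨i + 1, hi⟩ = q at h1 ⊢
      generalize y ⟨i, by omega⟩ = r at h1
      generalize alt i = s at h1
      revert p q r s
      decide
  funext k
  exact key k.val k.2

theorem conn_par (hm : 0 < m) (heven : m % 2 = 0) (hm4 : 4 ≤ m) (b : Bool)
    (x y : Fin m → Bool) (hx : 2 * T hm b x < m) (hy : 2 * T hm b y < m) :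
    EqvGen (Rl hm) x y := by
  obtain ⟨x', h1, h2, h3, h4⟩ := sweep hm heven b x hx (m - 1) (by omega)
  obtain ⟨y', k1, k2, k3, k4⟩ := sweep hm heven b y hy (m - 1) (by omega)
  by_cases h0 : x ⟨0, hm⟩ = y ⟨0, hm⟩
  · have : x' = y' := canon_unique hm b x' y' h3 k3 (by rw [h2, k2, h0])
    rw [this] at h1
    exact EqvGen.trans _ _ _ h1 (EqvGen.symm _ _ k1)
  · set z := fl x' ⟨0, hm⟩ with hz
    have hTz : T hm b z ≤ 2 := by
      have hsub : (univ.filter fun k : Fin m => ch hm z k.val ≠ b) ⊆
          {(⟨0, hm⟩ : Fin m), (⟨m - 1, by omega⟩ : Fin m)} := by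
        intro k hk
        rw [mem_filter] at hk
        have hk2 := hk.2
        have hk3 := k.2
        rw [hz, ch_fl_zero hm (by omega) x' k.2] at hk2
        rw [mem_insert, mem_singleton]
        by_contra hcon
        rw [not_or] at hcon
        have e1 : k.val ≠ 0 := fun h => hcon.1 (Fin.ext h)
        have e2 : k.val ≠ m - 1 := fun h => hcon.2 (Fin.ext h)
        rw [if_neg (by omega)] at hk2
        exact hk2 (h3 k.val (by omega))
      exact (card_le_card hsub).trans card_le_two
    have hz2 : 2 * T hm b z < m := by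
      have := T_ne hm heven b z
      omega
    have hPx : par hm x' = !b := (par_eq hm heven b x').mpr (by omega)
    have hPz : par hm z = !b := (par_eq hm heven b z).mpr hz2
    obtain ⟨w, l1, l2, l3, l4⟩ := sweep hm heven b z hz2 (m - 1) (by omega)
    have hw : w = y' := by
      apply canon_unique hm b w y' l3 k3
      rw [l2, hz, fl, Function.update_self, h2, k2]
      cases e1 : x ⟨0, hm⟩ <;> cases e2 : y ⟨0, hm⟩ <;> simp_all
    rw [hw] at l1
    exact EqvGen.trans _ _ _ h1 (EqvGen.trans _ _ _
      (EqvGen.rel _ _ ⟨near_fl _ _, by rw [hPx, hPz]⟩)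
      (EqvGen.trans _ _ _ l1 (EqvGen.symm _ _ k1)))

theorem lab_par (heven : m % 2 = 0) (hm4 : 4 ≤ m) : Lab m (par (m := m) (by omega)) where
  pos := by omega
  anti := by
    intro v
    have h := T_app (by omega) heven (by omega) v
    have h2 := T_ne (by omega) heven false v
    rw [par, par]
    by_cases h1 : 2 * T (by omega) false v < m
    · rw [decide_eq_true h1, decide_eq_false (by omega)]
      rfl
    · rw [decide_eq_false h1, decide_eq_true (by omega)]
      rfl
  conn := by
    intro a b hab
    have hm : 0 < m := by omega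
    cases h : par hm a with
    | true =>
      have h1 : par hm b = true := by rw [← hab]; exact h
      exact conn_par hm heven hm4 false a b ((par_eq hm heven false a).mp h)
        ((par_eq hm heven false b).mp h1)
    | false =>
      have h1 : par hm b = false := by rw [← hab]; exact h
      exact conn_par hm heven hm4 true a b ((par_eq hm heven true a).mp h)
        ((par_eq hm heven true b).mp h1)

/-- A suitable Boolean function exists for every `m ≥ 3`. -/
theorem exists_lab (hm : 3 ≤ m) : ∃ P : (Fin m → Bool) → Bool, Lab m P := by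
  rcases Nat.mod_two_eq_zero_or_one m with h | h
  · exact ⟨_, lab_par h (by omega)⟩
  · exact ⟨_, lab_maj h⟩

end Pool.Agent.Q160.Upc
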