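import Mathlib

/-!
Palindromes and factor complexity of infinite words: common definitions.
-/

namespace Q160.WPal

variable {A : Type*}

/-- The block `u_i u_{i+1} ... u_{i+n-1}` of the infinite word `u`. -/
def fac (u : ℕ → A) (i n : ℕ) : List A := (List.range n).map (fun k => u (i + k))

/-- The set of factors of length `n` of `u`. -/
def facN (u : ℕ → A) (n : ℕ) : Set (List A) := {w | ∃ i, w = fac u i n}

/-- The set of palindromic factors of length `n` of `u`. -/
def palN (u : ℕ → A) (n : ℕ) : Set (List A) := {w | w ∈ facN u n ∧ w.reverse = w}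

/-- `C_u(n)`: the number of factors of length `n`. -/
noncomputable def cpx (u : ℕ → A) (n : ℕ) : ℕ := (facN u n).ncard

/-- `P_u(n)`: the number of palindromic factors of length `n`. -/
noncomputable def pcx (u : ℕ → A) (n : ℕ) : ℕ := (palN u n).ncard

/-- `T_u(n) = C_u(n+1) - C_u(n) + 2 - P_u(n+1) - P_u(n)`. -/
noncomputable def T (u : ℕ → A) (n : ℕ) : ℤ :=
  (cpx u (n + 1) : ℤ) - cpx u n + 2 - pcx u (n + 1) - pcx u n

/-- The language of `u` is closed under reversal. -/
def ClosedRev (u : ℕ → A) : Prop := ∀ i n, (fac u i n).reverse ∈ facN u n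

/-- `u` is recurrent: every factor occurs infinitely often. -/
def Recurrent (u : ℕ → A) : Prop := ∀ i n N, ∃ j, N ≤ j ∧ fac u j n = fac u i n

/-- `u` has infinitely many palindromic factors (equivalently, since the alphabet is
finite, arbitrarily long ones). -/
def InfPal (u : ℕ → A) : Prop := {w | ∃ n, w ∈ palN u n}.Infinite

/-- The (palindromic) defect of a finite word:
`|w| + 1` minus the number of distinct palindromic factors of `w` (empty word included). -/
noncomputable def defectW (w : List A) : ℤ :=
  (w.length : ℤ) + 1 - ({v | v <:+: w ∧ v.reverse = v} : Set (List A)).ncard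

/-- The defect of an infinite word: supremum of the defects of its prefixes. -/
noncomputable def defect (u : ℕ → A) : EReal :=
  ⨆ n : ℕ, (((defectW (fac u 0 n) : ℤ) : ℝ) : EReal)

/-- `v` is a complete return word of `w`: `v` is longer than `w`, `w` is a prefix and a
suffix of `v`, and `w` has no other occurrence in `v`. -/
def CompleteReturn (w v : List A) : Prop :=
  w.length < v.length ∧ w <+: v ∧ w <:+ v ∧ ∀ s t, v = s ++ w ++ t → s = [] ∨ t = []

end Q160.WPal
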