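import Pool.Agent.Q160.WPal

/-!
Basic lemmas on blocks of infinite words, and the counting lemma: if every shortest
mirror return of length-`n` blocks is a palindrome, then `T_u(n) = 0`.
-/

namespace Q160.WPal

variable {A : Type*}

@[simp] theorem fac_length' (u : ℕ → A) (i n : ℕ) : (fac u i n).length = n := by
  simp [fac]

theorem fac_getElem (u : ℕ → A) (i n t : ℕ) (h : t < (fac u i n).length) :
    (fac u i n)[t] = u (i + t) := by
  simp [fac]

theorem fac_eq_iff {u : ℕ → A} {i j n : ℕ} :
    fac u i n = fac u j n ↔ ∀ t < n, u (i + t) = u (j + t) := by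
  constructor
  · intro h t ht
    have h1 : t < (fac u i n).length := by simpa using ht
    have h2 : t < (fac u j n).length := by simpa using ht
    have e : (fac u i n)[t] = (fac u j n)[t] := by simp only [h]
    rwa [fac_getElem, fac_getElem] at e
  · intro h
    apply List.ext_getElem
    · simp
    · intro t h1 h2
      rw [fac_getElem, fac_getElem]
      exact h t (by simpa using h1)

theorem fac_rev_iff {u : ℕ → A} {i j n : ℕ} :
    fac u i n = (fac u j n).reverse ↔ ∀ t < n, u (i + t) = u (j + (n - 1 - t)) := by
  constructor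
  · intro h t ht
    have h1 : t < (fac u i n).length := by simpa using ht
    have h2 : t < ((fac u j n).reverse).length := by simpa using ht
    have e : (fac u i n)[t] = ((fac u j n).reverse)[t] := by simp only [h]
    rw [fac_getElem, List.getElem_reverse, fac_getElem] at e
    rw [e]
    simp
  · intro h
    apply List.ext_getElem
    · simp
    · intro t h1 h2
      rw [fac_getElem, List.getElem_reverse, fac_getElem]
      rw [h t (by simpa using h1)]
      simp

/-- `u` is symmetric around the point `M/2`, on the positions `≥ lo`. -/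
def Sy (u : ℕ → A) (lo M : ℕ) : Prop :=
  ∀ p q, lo ≤ p → lo ≤ q → p + q + 1 = M → u p = u q

theorem Sy.mono {u : ℕ → A} {lo lo' M : ℕ} (h : Sy u lo M) (hl : lo ≤ lo') : Sy u lo' M :=
  fun p q h1 h2 h3 => h p q (hl.trans h1) (hl.trans h2) h3

theorem pal_iff {u : ℕ → A} {i n : ℕ} :
    (fac u i n).reverse = fac u i n ↔ Sy u i (2 * i + n) := by
  rw [eq_comm, fac_rev_iff]
  constructor
  · intro h p q h1 h2 h3
    have := h (p - i) (by omega)
    have e1 : i + (p - i) = p := by omega
    have e2 : i + (n - 1 - (p - i)) = q := by omega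
    rwa [e1, e2] at this
  · intro h t ht
    exact h _ _ (by omega) (by omega) (by omega)

theorem Sy.reflect {u : ℕ → A} {lo M x n : ℕ} (h : Sy u lo M) (h1 : lo ≤ x)
    (h2 : x + n + lo ≤ M) : fac u (M - x - n) n = (fac u x n).reverse := by
  rw [fac_rev_iff]
  intro t ht
  exact h _ _ (by omega) (by omega) (by omega)

theorem ClosedRev.recurrent {u : ℕ → A} (h : ClosedRev u) : Recurrent u := by
  -- reversal of any factor occurs at large positions
  have key : ∀ i n N, ∃ j, N ≤ j ∧ fac u j n = (fac u i n).reverse := by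
    intro i n N
    obtain ⟨p, hp⟩ := h 0 (i + n + N)
    refine ⟨p + N, by omega, ?_⟩
    have hp' := fac_rev_iff.1 hp.symm
    rw [fac_rev_iff]
    intro t ht
    have := hp' (N + t) (by omega)
    rw [show p + N + t = p + (N + t) by omega, this]
    congr 1
    omega
  intro i n N
  obtain ⟨j, -, hj⟩ := key i n 0
  obtain ⟨k, hk, hk2⟩ := key j n N
  refine ⟨k, hk, ?_⟩
  rw [hk2, hj, List.reverse_reverse]

theorem facN_finite' [Finite A] (u : ℕ → A) (n : ℕ) : (facN u n).Finite := by
  refine (List.finite_length_eq A n).subset ?_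
  rintro w ⟨i, rfl⟩
  exact fac_length' u i n

/-- positions of first visits (up to reversal) -/
def Vis (u : ℕ → A) (n : ℕ) : Set ℕ :=
  {i | ∀ j < i, fac u j n ≠ fac u i n ∧ fac u j n ≠ (fac u i n).reverse}

theorem Vis_inj {u : ℕ → A} {n i j : ℕ} (hi : i ∈ Vis u n) (hj : j ∈ Vis u n)
    (h : fac u i n = fac u j n ∨ fac u i n = (fac u j n).reverse) : i = j := by
  rcases lt_trichotomy i j with hl | hl | hl
  · rcases h with h | h
    · exact absurd h (hj i hl).1
    · exact absurd h (hj i hl).2
  · exact hl
  · rcases h with h | h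
    · exact absurd h.symm (hi j hl).1
    · exact absurd (by rw [h, List.reverse_reverse]) (hi j hl).2

/-- every block has a first visit -/
theorem exists_vis {u : ℕ → A} {n : ℕ} (k : ℕ) :
    ∃ i ∈ Vis u n, i ≤ k ∧ (fac u k n = fac u i n ∨ fac u k n = (fac u i n).reverse) := by
  classical
  have hex : ∃ i, fac u k n = fac u i n ∨ fac u k n = (fac u i n).reverse := ⟨k, Or.inl rfl⟩
  refine ⟨Nat.find hex, ?_, Nat.find_min' hex (Or.inl rfl), Nat.find_spec hex⟩
  intro j hj
  have h1 := Nat.find_min hex hj
  push Not at h1
  have h2 := Nat.find_spec hex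
  constructor
  · intro h
    rcases h2 with h2 | h2
    · exact h1.1 (by rw [h2, h])
    · exact h1.2 (by rw [h2, h])
  · intro h
    rcases h2 with h2 | h2
    · exact h1.2 (by rw [h2, h, List.reverse_reverse])
    · exact h1.1 (by rw [h2, h])

theorem Vis_finite [Finite A] (u : ℕ → A) (n : ℕ) : (Vis u n).Finite := by
  refine Set.Finite.of_finite_image (f := fun i => fac u i n)
    ((facN_finite' u n).subset ?_) ?_
  · rintro _ ⟨i, -, rfl⟩
    exact ⟨i, rfl⟩
  · intro i hi j hj h
    exact Vis_inj hi hj (Or.inl h)

theorem count_vis [Finite A] {u : ℕ → A} (hc : ClosedRev u) (n : ℕ) :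
    cpx u n + pcx u n = 2 * (Vis u n).ncard := by
  set a := fun i => fac u i n
  set b := fun i => (fac u i n).reverse
  have ha : Set.InjOn a (Vis u n) := fun i hi j hj h => Vis_inj hi hj (Or.inl h)
  have hb : Set.InjOn b (Vis u n) := by
    intro i hi j hj h
    refine Vis_inj hi hj (Or.inl ?_)
    exact List.reverse_injective h
  have hfa : (a '' Vis u n).Finite := (Vis_finite u n).image _
  have hfb : (b '' Vis u n).Finite := (Vis_finite u n).image _
  have hU : a '' Vis u n ∪ b '' Vis u n = facN u n := by
    ext w
    constructor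
    · rintro (⟨i, -, rfl⟩ | ⟨i, -, rfl⟩)
      · exact ⟨i, rfl⟩
      · exact hc i n
    · rintro ⟨k, rfl⟩
      obtain ⟨i, hi, -, h | h⟩ := exists_vis (u := u) (n := n) k
      · left; exact ⟨i, hi, h.symm⟩
      · right; exact ⟨i, hi, h.symm⟩
  have hI : a '' Vis u n ∩ b '' Vis u n = palN u n := by
    ext w
    constructor
    · rintro ⟨⟨i, hi, rfl⟩, ⟨j, hj, h⟩⟩
      have hij : i = j := Vis_inj hi hj (Or.inr h.symm)
      subst hij
      exact ⟨⟨i, rfl⟩, h⟩
    · rintro ⟨⟨k, rfl⟩, hp⟩
      obtain ⟨i, hi, -, h | h⟩ := exists_vis (u := u) (n := n) k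
      · refine ⟨⟨i, hi, h.symm⟩, ⟨i, hi, ?_⟩⟩
        show (fac u i n).reverse = _
        rw [← h, hp]
      · refine ⟨⟨i, hi, ?_⟩, ⟨i, hi, h.symm⟩⟩
        show fac u i n = _
        rw [← hp, h, List.reverse_reverse]
  have := Set.ncard_union_add_ncard_inter (a '' Vis u n) (b '' Vis u n) hfa hfb
  rw [hU, hI, Set.ncard_image_of_injOn ha, Set.ncard_image_of_injOn hb] at this
  unfold cpx pcx
  omega

/-- first visits of non-palindromic blocks -/
def VisN (u : ℕ → A) (n : ℕ) : Set ℕ := {i | i ∈ Vis u n ∧ (fac u i n).reverse ≠ fac u i n}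

theorem count_visN [Finite A] {u : ℕ → A} (hc : ClosedRev u) (n : ℕ) :
    cpx u n = 2 * (VisN u n).ncard + pcx u n := by
  have h1 := count_vis hc n
  set Q := {i | i ∈ Vis u n ∧ (fac u i n).reverse = fac u i n} with hQ
  have hfin := Vis_finite u n
  have hu : VisN u n ∪ Q = Vis u n := by
    ext i
    constructor
    · rintro (h | h) <;> exact h.1
    · intro h
      by_cases hp : (fac u i n).reverse = fac u i n
      · right; exact ⟨h, hp⟩
      · left; exact ⟨h, hp⟩
  have hd : Disjoint (VisN u n) Q := by
    rw [Set.disjoint_left]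
    rintro i ⟨-, h⟩ ⟨-, h'⟩
    exact h h'
  have h2 := Set.ncard_union_eq hd (hfin.subset (fun i h => h.1)) (hfin.subset (fun i h => h.1))
  have h3 : Q.ncard = pcx u n := by
    unfold pcx
    have himg : (fun i => fac u i n) '' Q = palN u n := by
      ext w
      constructor
      · rintro ⟨i, hi, rfl⟩
        exact ⟨⟨i, rfl⟩, hi.2⟩
      · rintro ⟨⟨k, rfl⟩, hp⟩
        obtain ⟨i, hi, -, h | h⟩ := exists_vis (u := u) (n := n) k
        · refine ⟨i, ⟨hi, ?_⟩, h.symm⟩
          rw [← h, hp]
        · have e : fac u i n = fac u k n := by rw [← hp, h, List.reverse_reverse]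
          refine ⟨i, ⟨hi, ?_⟩, e⟩
          rw [e, hp]
    rw [← himg, Set.ncard_image_of_injOn]
    intro i hi j hj h
    exact Vis_inj hi.1 hj.1 (Or.inl h)
  rw [hu, h3] at h2
  omega

/-- Counting lemma: if shortest mirror returns of blocks of length `n` are palindromes,
then `T_u(n) = 0`. -/
theorem T_eq_zero [Finite A] {u : ℕ → A} (hc : ClosedRev u) (n : ℕ)
    (H : ∀ j k, j < k → (fac u j n = fac u k n ∨ fac u j n = (fac u k n).reverse) →
      (∀ l, j < l → l < k → fac u l n ≠ fac u k n ∧ fac u l n ≠ (fac u k n).reverse) →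
      Sy u j (j + k + n)) : T u n = 0 := by
  have h1 := count_vis hc n
  have h2 := count_visN hc (n+1)
  have h0 : 0 ∈ Vis u n := fun j hj => absurd hj (by omega)
  have himg : (fun k => k + 1) '' VisN u (n+1) = Vis u n \ {0} := by
    ext i
    constructor
    · rintro ⟨k, ⟨hk, hnp⟩, rfl⟩
      refine ⟨?_, by simp⟩
      -- `k + 1` is a first visit
      by_contra hcon
      have hex : ∃ j, j < k + 1 ∧ (fac u j n = fac u (k+1) n ∨
          fac u j n = (fac u (k+1) n).reverse) := by
        by_contra hne
        push Not at hne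
        exact hcon (fun j hj => hne j hj)
      -- the last such `j`
      obtain ⟨j, ⟨hj1, hj2⟩, hmax⟩ : ∃ j, (j < k + 1 ∧ (fac u j n = fac u (k+1) n ∨
          fac u j n = (fac u (k+1) n).reverse)) ∧ ∀ l, j < l → l < k + 1 →
          ¬ (fac u l n = fac u (k+1) n ∨ fac u l n = (fac u (k+1) n).reverse) := by
        classical
        set P := fun j => j < k + 1 ∧ (fac u j n = fac u (k+1) n ∨
          fac u j n = (fac u (k+1) n).reverse) with hP
        obtain ⟨j0, hj0⟩ := hex
        have hj0' : P j0 := hj0
        refine ⟨Nat.findGreatest P (k+1), Nat.findGreatest_spec (P := P)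
          (by omega : j0 ≤ k + 1) hj0', ?_⟩
        intro l hl1 hl2 hl3
        have := Nat.findGreatest_is_greatest hl1 (by omega : l ≤ k + 1)
        exact this ⟨hl2, hl3⟩
      have hS := H j (k+1) (by omega) hj2 (fun l hl1 hl2 => by
        have := hmax l hl1 hl2
        push Not at this
        exact this)
      have hrev : fac u j (n+1) = (fac u k (n+1)).reverse := by
        rw [fac_rev_iff]
        intro t ht
        exact hS _ _ (by omega) (by omega) (by omega)
      rcases lt_or_ge j k with hjk | hjk
      · exact (hk j hjk).2 hrev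
      · have : j = k := by omega
        subst this
        exact hnp hrev.symm
    · rintro ⟨hi, hi0⟩
      have hi1 : i ≠ 0 := hi0
      refine ⟨i - 1, ⟨?_, ?_⟩, by simp only []; omega⟩
      · intro j hj
        constructor
        · intro h
          rw [fac_eq_iff] at h
          refine (hi (j+1) (by omega)).1 ?_
          rw [fac_eq_iff]
          intro t ht
          have := h (t+1) (by omega)
          rw [show j + 1 + t = j + (t + 1) by omega, this]
          congr 1
          omega
        · intro h
          rw [fac_rev_iff] at h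
          refine (hi j (by omega)).2 ?_
          rw [fac_rev_iff]
          intro t ht
          have := h t (by omega)
          rw [this]
          congr 1
          omega
      · intro h
        rw [eq_comm, fac_rev_iff] at h
        refine (hi (i-1) (by omega)).2 ?_
        rw [fac_rev_iff]
        intro t ht
        have := h t (by omega)
        rw [this]
        congr 1
        omega
  have h3 : (VisN u (n+1)).ncard = (Vis u n \ {0}).ncard := by
    rw [← himg, Set.ncard_image_of_injective _ (fun a b h => by simpa using h)]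
  have h4 := Set.ncard_diff_singleton_add_one h0 (Vis_finite u n)
  unfold T
  omega

end Q160.WPal
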