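import Pool.Agent.Q160.WPal2

/-!
If all complete return words of the long palindromes are palindromes (language closed under
reversal, arbitrarily long palindromes), then all shortest mirror returns of long blocks are
palindromes.
-/

namespace Q160.WPal

variable {A : Type*}

/-- the hypothesis: all complete returns of palindromic factors of length `≥ K` are
palindromes -/
def PalRet (u : ℕ → A) (K : ℕ) : Prop :=
  ∀ n w, K ≤ n → w ∈ palN u n → ∀ m v, v ∈ facN u m → CompleteReturn w v → v.reverse = v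

/-- consecutive occurrences form a complete return word -/
theorem completeReturn_of {u : ℕ → A} {l l' m : ℕ} (hl : l < l')
    (h : fac u l m = fac u l' m) (hno : ∀ x, l < x → x < l' → fac u x m ≠ fac u l m) :
    CompleteReturn (fac u l m) (fac u l (l' - l + m)) := by
  refine ⟨by simp; omega, ?_, ?_, ?_⟩
  · rw [List.prefix_iff_eq_take]
    apply List.ext_getElem
    · simp
    · intro t h1 h2
      rw [List.getElem_take, fac_getElem, fac_getElem]
  · rw [List.suffix_iff_eq_drop]
    apply List.ext_getElem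
    · simp
    · intro t h1 h2
      have ht : t < m := by simpa using h1
      rw [List.getElem_drop, fac_getElem, fac_getElem]
      have := (fac_eq_iff.1 h) t ht
      rw [this]
      congr 1
      simp
      omega
  · intro s t hst
    by_contra hcon
    push Not at hcon
    obtain ⟨hs, ht⟩ := hcon
    have hs' : 0 < s.length := List.length_pos_of_ne_nil hs
    have ht' : 0 < t.length := List.length_pos_of_ne_nil ht
    have hlen := congrArg List.length hst
    simp only [List.length_append, fac_length'] at hlen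
    refine hno (l + s.length) (by omega) (by omega) ?_
    rw [fac_eq_iff]
    intro k hk
    have h1 : s.length + k < (fac u l (l' - l + m)).length := by simp; omega
    have e1 : (fac u l (l' - l + m))[s.length + k] = u (l + (s.length + k)) :=
      fac_getElem _ _ _ _ _
    have h2 : s.length + k < (s ++ fac u l m ++ t).length := by
      rw [← hst]; exact h1
    have e2 : (fac u l (l' - l + m))[s.length + k] = (s ++ fac u l m ++ t)[s.length + k] := by
      simp only [hst]
    have e3 : (s ++ fac u l m ++ t)[s.length + k] = u (l + k) := by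
      rw [List.getElem_append_left (by simp; omega), List.getElem_append_right (by omega)]
      simp only [Nat.add_sub_cancel_left]
      exact fac_getElem _ _ _ _ _
    rw [show l + s.length + k = l + (s.length + k) by omega, ← e1, e2, e3]

theorem PalRet.ret {u : ℕ → A} {K : ℕ} (h : PalRet u K) {l l' m : ℕ} (hm : K ≤ m) (hl : l < l')
    (hp : (fac u l m).reverse = fac u l m)
    (he : fac u l m = fac u l' m) (hno : ∀ x, l < x → x < l' → fac u x m ≠ fac u l m) :
    Sy u l (l + l' + m) := by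
  have := h m (fac u l m) hm ⟨⟨l, rfl⟩, hp⟩ (l' - l + m) (fac u l (l' - l + m)) ⟨l, rfl⟩
    (completeReturn_of hl he hno)
  rw [pal_iff] at this
  rwa [show 2 * l + (l' - l + m) = l + l' + m by omega] at this

section centers

/-- the word of length `K` or `K+1` with doubled center `e + K` -/
def Wd (u : ℕ → A) (K e : ℕ) : List A := fac u (e / 2) (K + e % 2)

theorem Wd_len {u : ℕ → A} {K e : ℕ} : (Wd u K e).length = K + e % 2 := by simp [Wd]

theorem Wd_par {u : ℕ → A} {K e e' : ℕ} (h : Wd u K e = Wd u K e') : e % 2 = e' % 2 := by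
  have := congrArg List.length h
  rw [Wd_len, Wd_len] at this
  omega

theorem Wd_pal_iff {u : ℕ → A} {K e : ℕ} :
    (Wd u K e).reverse = Wd u K e ↔ Sy u (e / 2) (e + K) := by
  unfold Wd
  rw [pal_iff, show 2 * (e / 2) + (K + e % 2) = e + K by omega]

/-- reflection of a center word -/
theorem Wd_reflect {u : ℕ → A} {K e1 e2 e : ℕ} (hpar : e1 % 2 = e2 % 2)
    (hS : Sy u (e1 / 2) (K + (e1 + e2) / 2)) (h1 : e1 ≤ e) (h2 : e ≤ e2) :
    Wd u K (e1 + e2 - e) = (Wd u K e).reverse := by
  unfold Wd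
  have := hS.reflect (x := e / 2) (n := K + e % 2) (by omega) (by omega)
  rw [← this]
  congr 1 <;> omega

/-- first returns of palindromic center words are symmetric -/
theorem Wd_ret {u : ℕ → A} {K : ℕ} (h : PalRet u K) {e1 e2 : ℕ} (hl : e1 < e2)
    (hp : (Wd u K e1).reverse = Wd u K e1) (he : Wd u K e1 = Wd u K e2)
    (hno : ∀ e, e1 < e → e < e2 → Wd u K e ≠ Wd u K e1) :
    Sy u (e1 / 2) (K + (e1 + e2) / 2) := by
  have hpar := Wd_par he
  have he' : fac u (e1 / 2) (K + e1 % 2) = fac u (e2 / 2) (K + e1 % 2) := by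
    have := he
    unfold Wd at this
    rw [this, hpar]
  have := h.ret (l := e1 / 2) (l' := e2 / 2) (m := K + e1 % 2) (by omega) (by omega) hp he' (by
    intro x h1 h2 h3
    have := hno (2 * x + e1 % 2) (by omega) (by omega)
    apply this
    unfold Wd
    rw [show (2 * x + e1 % 2) / 2 = x by omega, show (2 * x + e1 % 2) % 2 = e1 % 2 by omega, h3])
  rwa [show e1 / 2 + e2 / 2 + (K + e1 % 2) = K + (e1 + e2) / 2 by omega] at this

/-- crossing between two words -/
def Crs (u : ℕ → A) (K : ℕ) (t t' : List A) (e1 e2 : ℕ) : Prop :=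
  e1 < e2 ∧ (Wd u K e1 = t ∨ Wd u K e1 = t') ∧ (Wd u K e2 = t ∨ Wd u K e2 = t') ∧
    Wd u K e1 ≠ Wd u K e2 ∧ ∀ e, e1 < e → e < e2 → Wd u K e ≠ t ∧ Wd u K e ≠ t'

theorem Wd_recurrent {u : ℕ → A} {K : ℕ} (hr : Recurrent u) (e N : ℕ) :
    ∃ e', N ≤ e' ∧ Wd u K e' = Wd u K e := by
  obtain ⟨j, hj, hj2⟩ := hr (e / 2) (K + e % 2) N
  refine ⟨2 * j + e % 2, by omega, ?_⟩
  unfold Wd
  rw [show (2 * j + e % 2) / 2 = j by omega, show (2 * j + e % 2) % 2 = e % 2 by omega, hj2]

theorem crs_next {u : ℕ → A} {K : ℕ} (hr : Recurrent u) (h : PalRet u K) {t t' : List A}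
    (ht : t.reverse = t) (ht' : t'.reverse = t') {e1 e2 : ℕ} (hc : Crs u K t t' e1 e2) :
    ∃ f3 f4, Crs u K t t' f3 f4 ∧ f4 - f3 = e2 - e1 ∧ e1 < f3 ∧
      ∀ e3 e4, Crs u K t t' e3 e4 → e1 < e3 → f3 ≤ e3 := by
  classical
  obtain ⟨h12, hq1, hq2, hne, hno⟩ := hc
  have hQp : ∀ e, (Wd u K e = t ∨ Wd u K e = t') → (Wd u K e).reverse = Wd u K e := by
    rintro e (h | h) <;> rw [h] <;> assumption
  have hex : ∃ f, e2 < f ∧ Wd u K f = Wd u K e1 := by
    obtain ⟨f, hf, hf2⟩ := Wd_recurrent (K := K) hr e1 (e2 + 1)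
    exact ⟨f, by omega, hf2⟩
  set f4 := Nat.find hex with hf4
  obtain ⟨h24, hw4⟩ := Nat.find_spec hex
  rw [← hf4] at h24 hw4
  have hmin : ∀ f, e2 < f → f < f4 → Wd u K f ≠ Wd u K e1 := by
    intro f h1 h2 h3
    exact Nat.find_min hex h2 ⟨h1, h3⟩
  have hpar := Wd_par hw4
  have hS : Sy u (e1 / 2) (K + (e1 + f4) / 2) := by
    refine Wd_ret h (by omega) (hQp e1 hq1) hw4.symm ?_
    intro e h1 h2 h3
    rcases lt_trichotomy e e2 with h4 | h4 | h4
    · have := hno e h1 h4
      rcases hq1 with hq1 | hq1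
      · exact this.1 (h3.trans hq1)
      · exact this.2 (h3.trans hq1)
    · subst h4; exact hne h3.symm
    · exact hmin e h4 h2 h3
  have hw3 : Wd u K (e1 + f4 - e2) = Wd u K e2 := by
    rw [Wd_reflect hpar.symm hS (by omega) (by omega), hQp e2 hq2]
  refine ⟨e1 + f4 - e2, f4, ⟨by omega, ?_, ?_, ?_, ?_⟩, by omega, by omega, ?_⟩
  · rw [hw3]; exact hq2
  · rw [hw4]; exact hq1
  · rw [hw3, hw4]; exact hne.symm
  · intro e h1 h2
    have hr1 := Wd_reflect (e := e) hpar.symm hS (by omega) (by omega)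
    have := hno (e1 + f4 - e) (by omega) (by omega)
    constructor
    · intro h3
      apply this.1
      rw [hr1, h3, ht]
    · intro h3
      apply this.2
      rw [hr1, h3, ht']
  · rintro e3 e4 ⟨h34, hq3, hq4, hne34, hno34⟩ h13
    by_contra hcon
    have h23 : e2 ≤ e3 := by
      by_contra h'
      have := hno e3 h13 (by omega)
      rcases hq3 with h | h
      · exact this.1 h
      · exact this.2 h
    have h3ne1 : Wd u K e3 ≠ Wd u K e1 := by
      rcases eq_or_lt_of_le h23 with h' | h'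
      · rw [← h']; exact hne.symm
      · exact hmin e3 h' (by omega)
    have h31 : Wd u K e4 = Wd u K e1 := by
      rcases hq1 with a | a <;> rcases hq2 with b | b <;> rcases hq3 with c | c <;>
        rcases hq4 with d | d <;> simp_all
    have h44 : f4 ≤ e4 := by
      by_contra h'
      exact hmin e4 (by omega) (by omega) h31
    have := hno34 (e1 + f4 - e2) (by omega) (by omega)
    rw [hw3] at this
    rcases hq2 with h | h
    · exact this.1 h
    · exact this.2 h

theorem crs_len {u : ℕ → A} {K : ℕ} (hr : Recurrent u) (h : PalRet u K) {t t' : List A}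
    (ht : t.reverse = t) (ht' : t'.reverse = t') :
    ∀ n e1 e2 e3 e4, Crs u K t t' e1 e2 → Crs u K t t' e3 e4 → e1 ≤ e3 → e3 - e1 ≤ n →
      e4 - e3 = e2 - e1 := by
  intro n
  induction n with
  | zero =>
    intro e1 e2 e3 e4 hc hc' h1 h2
    have h13 : e1 = e3 := by omega
    subst h13
    obtain ⟨a1, a2, a3, a4, a5⟩ := hc
    obtain ⟨b1, b2, b3, b4, b5⟩ := hc'
    have : e2 = e4 := by
      rcases lt_trichotomy e2 e4 with h' | h' | h'
      · have := b5 e2 a1 h'
        rcases a3 with a | a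
        · exact absurd a this.1
        · exact absurd a this.2
      · exact h'
      · have := a5 e4 b1 h'
        rcases b3 with a | a
        · exact absurd a this.1
        · exact absurd a this.2
    rw [this]
  | succ n ih =>
    intro e1 e2 e3 e4 hc hc' h1 h2
    rcases eq_or_lt_of_le h1 with h13 | h13
    · exact ih e1 e2 e3 e4 hc hc' h1 (by omega)
    · obtain ⟨f3, f4, hcf, hlen, h1f, hmin⟩ := crs_next hr h ht ht' hc
      have := hmin e3 e4 hc' h13
      rw [← hlen]
      exact ih f3 f4 e3 e4 hcf hc' this (by omega)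

/-- crossings between palindromic center words have bounded length -/
theorem crs_bound [Finite A] {u : ℕ → A} {K : ℕ} (hr : Recurrent u) (h : PalRet u K) :
    ∃ L, ∀ e1 e2, e1 < e2 → (Wd u K e1).reverse = Wd u K e1 →
      (Wd u K e2).reverse = Wd u K e2 → Wd u K e1 ≠ Wd u K e2 →
      (∀ e, e1 < e → e < e2 → Wd u K e ≠ Wd u K e1 ∧ Wd u K e ≠ Wd u K e2) → e2 - e1 ≤ L := by
  classical
  set F : Set (List A) := Set.range (Wd u K) with hF
  have hFfin : F.Finite := by
    refine ((List.finite_length_eq A K).union (List.finite_length_eq A (K+1))).subset ?_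
    rintro _ ⟨e, rfl⟩
    rcases Nat.mod_two_eq_zero_or_one e with h2 | h2
    · left
      show (Wd u K e).length = K
      rw [Wd_len, h2]; rfl
    · right
      show (Wd u K e).length = K + 1
      rw [Wd_len, h2]
  set D : List A × List A → Set ℕ := fun q => {d | q.1.reverse = q.1 ∧ q.2.reverse = q.2 ∧
    ∃ e1 e2, Crs u K q.1 q.2 e1 e2 ∧ d = e2 - e1} with hD
  have hDfin : (⋃ q ∈ F ×ˢ F, D q).Finite := by
    refine Set.Finite.biUnion (hFfin.prod hFfin) ?_
    intro q _
    apply Set.Subsingleton.finite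
    rintro d ⟨hq1, hq2, e1, e2, hc, rfl⟩ d' ⟨-, -, e3, e4, hc', rfl⟩
    rcases le_total e1 e3 with h1 | h1
    · exact (crs_len hr h hq1 hq2 _ e1 e2 e3 e4 hc hc' h1 le_rfl).symm
    · exact crs_len hr h hq1 hq2 _ e3 e4 e1 e2 hc' hc h1 le_rfl
  obtain ⟨L, hL⟩ := hDfin.bddAbove
  refine ⟨L, ?_⟩
  intro e1 e2 h12 hp1 hp2 hne hno
  apply hL
  refine Set.mem_biUnion (x := (Wd u K e1, Wd u K e2)) ⟨⟨e1, rfl⟩, ⟨e2, rfl⟩⟩ ?_
  exact ⟨hp1, hp2, e1, e2, ⟨h12, Or.inl rfl, Or.inr rfl, hne, hno⟩, rfl⟩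

end centers

/-- long factors have a long palindromic prefix or a long palindromic suffix -/
theorem long_pal_aux {u : ℕ → A} {K : ℕ} (hr : Recurrent u) (h : PalRet u K) {L : ℕ}
    (hL : ∀ e1 e2, e1 < e2 → (Wd u K e1).reverse = Wd u K e1 →
      (Wd u K e2).reverse = Wd u K e2 → Wd u K e1 ≠ Wd u K e2 →
      (∀ e, e1 < e → e < e2 → Wd u K e ≠ Wd u K e1 ∧ Wd u K e ≠ Wd u K e2) → e2 - e1 ≤ L)
    {c i j : ℕ} (hc : (Wd u K c).reverse = Wd u K c) (hci : c / 2 ≤ i)
    (hij : i + 2 * K + L + 2 ≤ j) :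
    ∃ m, K ≤ m ∧ i + m ≤ j ∧ (Sy u i (2 * i + m) ∨ Sy u (j - m) (2 * j - m)) := by
  classical
  by_contra hcon
  push Not at hcon
  -- last palindromic center before `i`
  obtain ⟨e0, ⟨he0, hp0⟩, hmax⟩ : ∃ e0, (e0 / 2 ≤ i ∧ (Wd u K e0).reverse = Wd u K e0) ∧
      ∀ e, e0 < e → ¬ (e / 2 ≤ i ∧ (Wd u K e).reverse = Wd u K e) := by
    set P := fun e => e / 2 ≤ i ∧ (Wd u K e).reverse = Wd u K e with hP
    refine ⟨Nat.findGreatest P (2 * i + 1), Nat.findGreatest_spec (P := P)
      (by omega : c ≤ 2 * i + 1) ⟨hci, hc⟩, ?_⟩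
    intro e h1 h2
    exact Nat.findGreatest_is_greatest h1 (by have := h2.1; omega) h2
  -- first palindromic center after `j`
  have hex : ∃ e, j ≤ K + (e + 1) / 2 ∧ (Wd u K e).reverse = Wd u K e := by
    obtain ⟨e, h1, h2⟩ := Wd_recurrent (K := K) hr c (2 * j)
    exact ⟨e, by omega, by rw [h2, hc]⟩
  set e3 := Nat.find hex with he3
  obtain ⟨hj3, hp3⟩ := Nat.find_spec hex
  rw [← he3] at hj3 hp3
  have hmin : ∀ e, e < e3 → ¬ (j ≤ K + (e + 1) / 2 ∧ (Wd u K e).reverse = Wd u K e) :=
    fun e he => Nat.find_min hex he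
  -- strictness
  have hs0 : e0 / 2 < i := by
    rcases Nat.lt_or_ge (e0 / 2) i with h' | h'
    · exact h'
    · exfalso
      have he : e0 / 2 = i := by omega
      refine (hcon (K + e0 % 2) (by omega) (by omega)).1 ?_
      have := Wd_pal_iff.1 hp0
      rw [he] at this
      rwa [show 2 * i + (K + e0 % 2) = e0 + K by omega]
  have hs3 : j < K + (e3 + 1) / 2 := by
    rcases Nat.lt_or_ge j (K + (e3 + 1) / 2) with h' | h'
    · exact h'
    · exfalso
      have he : j = K + (e3 + 1) / 2 := by omega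
      refine (hcon (K + e3 % 2) (by omega) (by omega)).2 ?_
      have := Wd_pal_iff.1 hp3
      rwa [show 2 * j - (K + e3 % 2) = e3 + K by omega, show j - (K + e3 % 2) = e3 / 2 by omega]
  have h03 : e0 < e3 := by omega
  -- no return of `Wd e0` before `e3`, unless it is `e3` itself
  have key0 : ∀ e', e0 < e' → e' ≤ e3 → Wd u K e0 = Wd u K e' →
      (∀ e, e0 < e → e < e' → Wd u K e ≠ Wd u K e0) → e' = e3 ∧ i + j < K + (e0 + e') / 2 := by
    intro e' h1 h2 h3 h4
    have hpar := Wd_par h3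
    have hS := Wd_ret h h1 hp0 h3 h4
    have hm : (Wd u K ((e0 + e') / 2)).reverse = Wd u K ((e0 + e') / 2) := by
      rw [Wd_pal_iff]
      have := hS.mono (lo' := (e0 + e') / 2 / 2) (by omega)
      rwa [show (e0 + e') / 2 + K = K + (e0 + e') / 2 by omega]
    have hmi : i < (e0 + e') / 2 / 2 := by
      by_contra h'
      exact hmax ((e0 + e') / 2) (by omega) ⟨by omega, hm⟩
    have hM : i + j < K + (e0 + e') / 2 := by
      by_contra h'
      refine (hcon (K + (e0 + e') / 2 - 2 * i) (by omega) (by omega)).1 ?_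
      have := hS.mono (lo' := i) (by omega)
      rwa [show 2 * i + (K + (e0 + e') / 2 - 2 * i) = K + (e0 + e') / 2 by omega]
    refine ⟨?_, hM⟩
    by_contra h'
    have := hmin e' (by omega)
    apply this
    refine ⟨by omega, ?_⟩
    rw [← h3, hp0]
  have key3 : ∀ e', e0 ≤ e' → e' < e3 → Wd u K e' = Wd u K e3 →
      (∀ e, e' < e → e < e3 → Wd u K e ≠ Wd u K e') → e' = e0 ∧ K + (e' + e3) / 2 < i + j := by
    intro e' h1 h2 h3 h4
    have hpar := Wd_par h3
    have hp' : (Wd u K e').reverse = Wd u K e' := by rw [h3, hp3]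
    have hS := Wd_ret h h2 hp' h3 h4
    have hm : (Wd u K ((e' + e3) / 2)).reverse = Wd u K ((e' + e3) / 2) := by
      rw [Wd_pal_iff]
      have := hS.mono (lo' := (e' + e3) / 2 / 2) (by omega)
      rwa [show (e' + e3) / 2 + K = K + (e' + e3) / 2 by omega]
    have hmi : K + ((e' + e3) / 2 + 1) / 2 < j := by
      by_contra h'
      exact hmin ((e' + e3) / 2) (by omega) ⟨by omega, hm⟩
    have hM : K + (e' + e3) / 2 < i + j := by
      by_contra h'
      refine (hcon (2 * j - (K + (e' + e3) / 2)) (by omega) (by omega)).2 ?_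
      have := hS.mono (lo' := j - (2 * j - (K + (e' + e3) / 2))) (by omega)
      rwa [show 2 * j - (2 * j - (K + (e' + e3) / 2)) = K + (e' + e3) / 2 by omega]
    refine ⟨?_, hM⟩
    by_contra h'
    exact hmax e' (by omega) ⟨by omega, hp'⟩
  by_cases heq : Wd u K e0 = Wd u K e3
  · -- first return of `Wd e0`
    have hex' : ∃ e', e0 < e' ∧ Wd u K e' = Wd u K e0 := ⟨e3, h03, heq.symm⟩
    obtain ⟨a1, a2⟩ := Nat.find_spec hex'
    have a3 : Nat.find hex' ≤ e3 := Nat.find_min' hex' ⟨h03, heq.symm⟩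
    have a4 : ∀ e, e0 < e → e < Nat.find hex' → Wd u K e ≠ Wd u K e0 :=
      fun e b1 b2 b3 => Nat.find_min hex' b2 ⟨b1, b3⟩
    obtain ⟨b1, b2⟩ := key0 _ a1 a3 a2.symm a4
    rw [b1] at a4 b2
    obtain ⟨-, c2⟩ := key3 e0 le_rfl h03 heq a4
    omega
  · have hno0 : ∀ e, e0 < e → e < e3 → Wd u K e ≠ Wd u K e0 := by
      intro e h1 h2 h3
      have hex' : ∃ e', e0 < e' ∧ Wd u K e' = Wd u K e0 := ⟨e, h1, h3⟩
      obtain ⟨a1, a2⟩ := Nat.find_spec hex'
      have a3 : Nat.find hex' ≤ e := Nat.find_min' hex' ⟨h1, h3⟩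
      have a4 : ∀ e, e0 < e → e < Nat.find hex' → Wd u K e ≠ Wd u K e0 :=
        fun e b1 b2 b3 => Nat.find_min hex' b2 ⟨b1, b3⟩
      obtain ⟨b1, -⟩ := key0 _ a1 (by omega) a2.symm a4
      omega
    have hno3 : ∀ e, e0 < e → e < e3 → Wd u K e ≠ Wd u K e3 := by
      intro e h1 h2 h3
      set P := fun e => e < e3 ∧ Wd u K e = Wd u K e3 with hP
      have q1 : P (Nat.findGreatest P e3) :=
        Nat.findGreatest_spec (P := P) (by omega : e ≤ e3) ⟨h2, h3⟩
      have q2 : e ≤ Nat.findGreatest P e3 :=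
        Nat.le_findGreatest (by omega) ⟨h2, h3⟩
      have q3 : ∀ l, Nat.findGreatest P e3 < l → l < e3 → Wd u K l ≠ Wd u K (Nat.findGreatest P e3) := by
        intro l l1 l2 l3
        exact Nat.findGreatest_is_greatest l1 (by omega) ⟨l2, by rw [l3]; exact q1.2⟩
      obtain ⟨b1, -⟩ := key3 _ (by omega) q1.1 q1.2 q3
      omega
    have := hL e0 e3 h03 hp0 hp3 heq (fun e h1 h2 => ⟨hno0 e h1 h2, hno3 e h1 h2⟩)
    omega

theorem exists_pal_center {u : ℕ → A} [Finite A] (hinf : InfPal u) (K : ℕ) :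
    ∃ c, (Wd u K c).reverse = Wd u K c := by
  -- a palindromic factor of length `≥ K + 2`
  have : ∃ n, K ≤ n ∧ ∃ i, (fac u i n).reverse = fac u i n := by
    by_contra hcon
    push Not at hcon
    apply hinf
    refine (Set.Finite.biUnion (Set.finite_lt_nat K) (fun n _ => facN_finite' u n)).subset ?_
    rintro w ⟨n, ⟨i, rfl⟩, hp⟩
    have : n < K := by
      by_contra h'
      exact hcon n (by omega) i hp
    exact Set.mem_biUnion (show n ∈ {m | m < K} from this) ⟨i, rfl⟩
  obtain ⟨n, hn, i, hi⟩ := this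
  rw [pal_iff] at hi
  refine ⟨2 * i + n - K, ?_⟩
  rw [Wd_pal_iff, show 2 * i + n - K + K = 2 * i + n by omega]
  exact hi.mono (by omega)

/-- every sufficiently long block has a palindromic prefix or suffix of length `≥ K` -/
theorem long_pal [Finite A] {u : ℕ → A} {K : ℕ} (hr : Recurrent u) (hinf : InfPal u)
    (h : PalRet u K) : ∃ N, ∀ i n, N ≤ n →
    ∃ m, K ≤ m ∧ m ≤ n ∧ (Sy u i (2 * i + m) ∨ Sy u (i + n - m) (2 * (i + n) - m)) := by
  obtain ⟨L, hL⟩ := crs_bound hr h
  obtain ⟨c, hc⟩ := exists_pal_center hinf K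
  refine ⟨2 * K + L + 2, ?_⟩
  intro i n hn
  obtain ⟨i', hi', he⟩ := hr i n (c / 2)
  obtain ⟨m, h1, h2, h3⟩ := long_pal_aux hr h hL hc hi' (j := i' + n) (by omega)
  refine ⟨m, h1, by omega, ?_⟩
  rw [fac_eq_iff] at he
  have tr : ∀ p, i ≤ p → p < i + n → u p = u (p - i + i') := by
    intro p h1 h2
    have := he (p - i) (by omega)
    rw [show i' + (p - i) = p - i + i' by omega, show i + (p - i) = p by omega] at this
    exact this.symm
  rcases h3 with h3 | h3
  · left
    intro p q hp hq hpq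
    rw [tr p hp (by omega), tr q hq (by omega)]
    exact h3 _ _ (by omega) (by omega) (by omega)
  · right
    intro p q hp hq hpq
    rw [tr p (by omega) (by omega), tr q (by omega) (by omega)]
    exact h3 _ _ (by omega) (by omega) (by omega)

end Q160.WPal
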