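import Pool.Agent.Q160.WPal3

/-!
Eventually palindromic returns imply that `T_u(n)` vanishes eventually.
-/

namespace Q160.WPal

variable {A : Type*}

theorem mirror_return {u : ℕ → A} {K : ℕ} (h : PalRet u K) {N n : ℕ} (hK : K ≤ n) (hN : N ≤ n)
    (hlong : ∀ i n, N ≤ n → ∃ m, K ≤ m ∧ m ≤ n ∧
      (Sy u i (2 * i + m) ∨ Sy u (i + n - m) (2 * (i + n) - m)))
    {j k : ℕ} (hjk : j < k)
    (hw : fac u j n = fac u k n ∨ fac u j n = (fac u k n).reverse)
    (hno : ∀ l, j < l → l < k → fac u l n ≠ fac u k n ∧ fac u l n ≠ (fac u k n).reverse) :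
    Sy u j (j + k + n) := by
  classical
  have hret : (fac u k n).reverse = fac u k n → Sy u j (j + k + n) := by
    intro hp
    have e : fac u j n = fac u k n := by
      rcases hw with hw | hw
      · exact hw
      · rw [hw, hp]
    refine h.ret hK hjk (by rw [e, hp]) e ?_
    intro x h1 h2 h3
    exact (hno x h1 h2).1 (h3.trans e)
  obtain ⟨m0, hm1, hm2, hm3⟩ := hlong j (k + n - j) (by omega)
  rcases hm3 with hm3 | hm3
  · -- long palindromic prefix
    set P := fun m => K ≤ m ∧ m ≤ k + n - j ∧ Sy u j (2 * j + m) with hP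
    obtain ⟨m, ⟨hPK, hPm, hPS⟩, hmax⟩ : ∃ m, P m ∧ ∀ m', m < m' → ¬ P m' := by
      refine ⟨Nat.findGreatest P (k + n - j),
        Nat.findGreatest_spec (P := P) hm2 ⟨hm1, hm2, hm3⟩, ?_⟩
      intro m' h1 h2
      exact Nat.findGreatest_is_greatest h1 h2.2.1 h2
    rcases eq_or_lt_of_le hPm with he | hlt
    · rwa [show j + k + n = 2 * j + m by omega]
    rcases le_or_gt n m with hnm | hnm
    · have hr := hPS.reflect (x := j) (n := n) le_rfl (by omega)
      rw [show 2 * j + m - j - n = j + m - n by omega] at hr
      rcases Nat.lt_or_ge j (j + m - n) with hl | hl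
      · exfalso
        have := hno (j + m - n) hl (by omega)
        rcases hw with hw | hw
        · exact this.2 (by rw [hr, hw])
        · exact this.1 (by rw [hr, hw, List.reverse_reverse])
      · have e : j + m - n = j := by omega
        rw [e] at hr
        apply hret
        rcases hw with hw | hw
        · rw [← hw]; exact hr.symm
        · rw [← hw]
          rw [hr, hw, List.reverse_reverse]
    · exfalso
      have hp : (fac u j m).reverse = fac u j m := pal_iff.2 hPS
      -- next occurrence
      have hocc : ∃ l, j < l ∧ l + m ≤ k + n ∧ fac u l m = fac u j m := by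
        rcases hw with hw | hw
        · refine ⟨k, hjk, by omega, ?_⟩
          rw [fac_eq_iff] at hw ⊢
          exact fun t ht => (hw t (by omega)).symm
        · refine ⟨k + n - m, by omega, by omega, ?_⟩
          rw [← hp, fac_rev_iff]
          rw [fac_rev_iff] at hw
          intro t ht
          rw [hw (m - 1 - t) (by omega)]
          congr 1
          omega
      obtain ⟨l0, b1, b2, b3⟩ := hocc
      have hex : ∃ l, j < l ∧ fac u l m = fac u j m := ⟨l0, b1, b3⟩
      obtain ⟨c1, c2⟩ := Nat.find_spec hex
      have c3 : Nat.find hex ≤ l0 := Nat.find_min' hex ⟨b1, b3⟩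
      have hS := h.ret hPK c1 hp c2.symm (fun x h1 h2 h3 => Nat.find_min hex h2 ⟨h1, h3⟩)
      refine hmax (Nat.find hex + m - j) (by omega) ⟨by omega, by omega, ?_⟩
      rwa [show 2 * j + (Nat.find hex + m - j) = j + Nat.find hex + m by omega]
  · -- long palindromic suffix
    rw [show j + (k + n - j) - m0 = k + n - m0 by omega,
      show 2 * (j + (k + n - j)) - m0 = 2 * (k + n) - m0 by omega] at hm3
    set P := fun m => K ≤ m ∧ m ≤ k + n - j ∧ Sy u (k + n - m) (2 * (k + n) - m) with hP
    obtain ⟨m, ⟨hPK, hPm, hPS⟩, hmax⟩ : ∃ m, P m ∧ ∀ m', m < m' → ¬ P m' := by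
      refine ⟨Nat.findGreatest P (k + n - j),
        Nat.findGreatest_spec (P := P) hm2 ⟨hm1, hm2, hm3⟩, ?_⟩
      intro m' h1 h2
      exact Nat.findGreatest_is_greatest h1 h2.2.1 h2
    rcases eq_or_lt_of_le hPm with he | hlt
    · rw [show k + n - m = j by omega, show 2 * (k + n) - m = j + k + n by omega] at hPS
      exact hPS
    rcases le_or_gt n m with hnm | hnm
    · have hr := hPS.reflect (x := k) (n := n) (by omega) (by omega)
      rw [show 2 * (k + n) - m - k - n = k + n - m by omega] at hr
      rcases Nat.lt_or_ge (k + n - m) k with hl | hl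
      · exfalso
        exact (hno (k + n - m) (by omega) hl).2 hr
      · have e : k + n - m = k := by omega
        rw [e] at hr
        exact hret hr.symm
    · exfalso
      have hp : (fac u (k + n - m) m).reverse = fac u (k + n - m) m := by
        rw [pal_iff, show 2 * (k + n - m) + m = 2 * (k + n) - m by omega]
        exact hPS
      have hocc : ∃ l, j ≤ l ∧ l < k + n - m ∧ fac u l m = fac u (k + n - m) m := by
        rcases hw with hw | hw
        · refine ⟨j + n - m, by omega, by omega, ?_⟩
          rw [fac_eq_iff] at hw ⊢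
          intro t ht
          have := hw (n - m + t) (by omega)
          rw [show j + n - m + t = j + (n - m + t) by omega, this]
          congr 1
          omega
        · refine ⟨j, le_rfl, by omega, ?_⟩
          rw [← hp, fac_rev_iff]
          rw [fac_rev_iff] at hw
          intro t ht
          rw [hw t (by omega)]
          congr 1
          omega
      obtain ⟨l0, b1, b2, b3⟩ := hocc
      set Q := fun l => l < k + n - m ∧ fac u l m = fac u (k + n - m) m with hQ
      have q1 : Q (Nat.findGreatest Q (k + n - m)) :=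
        Nat.findGreatest_spec (P := Q) (by omega : l0 ≤ k + n - m) ⟨b2, b3⟩
      have q2 : l0 ≤ Nat.findGreatest Q (k + n - m) :=
        Nat.le_findGreatest (by omega) ⟨b2, b3⟩
      set l := Nat.findGreatest Q (k + n - m) with hl
      have hS := h.ret hPK q1.1 (by rw [q1.2, hp]) q1.2 (fun x h1 h2 h3 =>
        Nat.findGreatest_is_greatest (P := Q) h1 (by omega) ⟨h2, by rw [h3, q1.2]⟩)
      refine hmax (k + n - l) (by omega) ⟨by omega, by omega, ?_⟩
      rw [show l + (k + n - m) + m = 2 * (k + n) - (k + n - l) by omega] at hS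
      exact hS.mono (by omega)

/-- Main theorem. -/
theorem T_eventually_zero [Finite A] {u : ℕ → A} (hc : ClosedRev u) (hinf : InfPal u) {K : ℕ}
    (h : PalRet u K) : ∃ N, ∀ n, N ≤ n → T u n = 0 := by
  obtain ⟨N, hN⟩ := long_pal hc.recurrent hinf h
  refine ⟨max N K, ?_⟩
  intro n hn
  apply T_eq_zero hc n
  intro j k hjk hw hno
  exact mirror_return h (le_trans (le_max_right _ _) hn) (le_trans (le_max_left _ _) hn) hN
    hjk hw hno

end Q160.WPal
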