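import Mathlib

/-!
# Maps `Fin d → Fin n` with a given sorting permutation
-/

namespace Q160.Worp

open Finset

variable {m : ℕ}

/-- `i` is an ascent of `w` -/
def Asc (w : Equiv.Perm (Fin (m + 1))) (i : ℕ) : Prop :=
  ∃ h : i + 1 < m + 1, w ⟨i, by omega⟩ < w ⟨i + 1, h⟩

noncomputable instance (w : Equiv.Perm (Fin (m + 1))) : DecidablePred (Asc w) :=
  fun _ => Classical.dec _

/-- number of ascents `< k` -/
noncomputable def e (w : Equiv.Perm (Fin (m + 1))) (k : ℕ) : ℕ := ((range k).filter (Asc w)).card

/-- number of ascents -/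
noncomputable def asc (w : Equiv.Perm (Fin (m + 1))) : ℕ := e w m

variable (w : Equiv.Perm (Fin (m + 1)))

lemma e_succ (k : ℕ) : e w (k + 1) = e w k + if Asc w k then 1 else 0 := by
  unfold e
  rw [Finset.range_add_one, Finset.filter_insert]
  split_ifs with h
  · rw [Finset.card_insert_of_notMem (by simp)]
  · rfl

lemma e_mono {j k : ℕ} (h : j ≤ k) : e w j ≤ e w k := by
  unfold e
  apply Finset.card_le_card
  apply Finset.filter_subset_filter
  exact Finset.range_mono h

lemma e_le (k : ℕ) : e w k ≤ k := by
  unfold e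
  exact (Finset.card_filter_le _ _).trans (by simp)

lemma asc_le : asc w ≤ m := e_le w m

/-- the sorting condition in terms of strict monotonicity -/
lemma sort_iff {n : ℕ} (f : Fin (m + 1) → Fin n) :
    Tuple.sort f = w ↔ StrictMono (fun i : Fin (m + 1) => (f (w i) : ℕ) + e w i) := by
  rw [eq_comm, Tuple.eq_sort_iff]
  constructor
  · rintro ⟨hmono, htie⟩
    rw [Fin.strictMono_iff_lt_succ]
    intro i
    have h1 : (f (w i.castSucc) : ℕ) ≤ f (w i.succ) := hmono (Fin.castSucc_lt_succ (i := i)).le
    simp only [Fin.val_castSucc, Fin.val_succ]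
    rw [e_succ]
    by_cases h2 : Asc w i
    · rw [if_pos h2]; omega
    · rw [if_neg h2]
      have h3 : (f (w i.castSucc) : ℕ) ≠ f (w i.succ) := by
        intro h4
        apply h2
        have h5 := htie _ _ (Fin.castSucc_lt_succ (i := i)) (Fin.ext h4)
        refine ⟨by have := i.isLt; omega, ?_⟩
        exact h5
      omega
  · intro hs
    have hstep : ∀ i : Fin m, (f (w i.castSucc) : ℕ) ≤ f (w i.succ) ∧
        ((f (w i.castSucc) : ℕ) = f (w i.succ) → w i.castSucc < w i.succ) := by
      intro i
      have h1 := hs (Fin.castSucc_lt_succ (i := i))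
      simp only [Fin.val_castSucc, Fin.val_succ] at h1
      rw [e_succ] at h1
      by_cases h2 : Asc w i
      · rw [if_pos h2] at h1
        refine ⟨by omega, fun _ => ?_⟩
        obtain ⟨_, h3⟩ := h2
        exact h3
      · rw [if_neg h2] at h1
        exact ⟨by omega, fun h => by omega⟩
    have hmono : Monotone (f ∘ w) := by
      rw [Fin.monotone_iff_le_succ]
      intro i
      exact (hstep i).1
    refine ⟨hmono, ?_⟩
    intro i j hij hf
    -- induction on `j`
    obtain ⟨i, hi⟩ := i
    obtain ⟨j, hj⟩ := j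
    have hij' : i < j := hij
    clear hij
    induction j, hij' using Nat.le_induction with
    | base =>
      have := (hstep ⟨i, by omega⟩).2 (by
        have := congrArg Fin.val hf
        exact this)
      exact this
    | succ j hij ih =>
      have h1 : (f (w ⟨i, hi⟩) : ℕ) ≤ f (w ⟨j, by omega⟩) :=
        hmono (show (⟨i, hi⟩ : Fin (m + 1)) ≤ ⟨j, by omega⟩ from by
          rw [Fin.le_def]; show i ≤ j; omega)
      have h2 : (f (w ⟨j, by omega⟩) : ℕ) ≤ f (w ⟨j + 1, hj⟩) :=
        hmono (show (⟨j, by omega⟩ : Fin (m + 1)) ≤ ⟨j + 1, hj⟩ from by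
          rw [Fin.le_def]; show j ≤ j + 1; omega)
      have h3 : (f (w ⟨i, hi⟩) : ℕ) = f (w ⟨j + 1, hj⟩) := congrArg Fin.val hf
      have h4 := ih (by omega) (Fin.ext (by omega))
      have h5 := (hstep ⟨j, by omega⟩).2 (by
        show (f (w ⟨j, by omega⟩) : ℕ) = f (w ⟨j + 1, hj⟩)
        omega)
      exact h4.trans h5

/-- strictly monotone maps are counted by a binomial coefficient -/
lemma card_strictMono (k N : ℕ) :
    Nat.card {g : Fin k → Fin N // StrictMono g} = N.choose k := by
  classical
  have h1 : Nat.card {s : Finset (Fin N) // s.card = k} = N.choose k := by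
    rw [Nat.card_eq_fintype_card, Fintype.card_finset_len, Fintype.card_fin]
  rw [← h1]
  apply Nat.card_eq_of_bijective (fun g : {g : Fin k → Fin N // StrictMono g} =>
    (⟨Finset.univ.image g.1, by
      rw [Finset.card_image_of_injective _ g.2.injective]; simp⟩ :
      {s : Finset (Fin N) // s.card = k}))
  constructor
  · intro g g' h
    have h2 : Finset.univ.image g.1 = Finset.univ.image g'.1 := congrArg Subtype.val h
    have h3 : Set.range g.1 = Set.range g'.1 := by
      have := congrArg (fun s : Finset (Fin N) => (s : Set (Fin N))) h2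
      simpa using this
    exact Subtype.ext ((StrictMono.range_inj g.2 g'.2).mp h3)
  · rintro ⟨s, hs⟩
    refine ⟨⟨s.orderEmbOfFin hs, (s.orderEmbOfFin hs).strictMono⟩, ?_⟩
    apply Subtype.ext
    show Finset.univ.image (s.orderEmbOfFin hs) = s
    exact Finset.image_orderEmbOfFin_univ s hs

/-- The number of maps with a given sorting permutation. -/
lemma card_sort (n : ℕ) : Nat.card {f : Fin (m + 1) → Fin n // Tuple.sort f = w}
    = (n + asc w).choose (m + 1) := by
  rw [← card_strictMono]
  have hbound : ∀ (f : {f : Fin (m + 1) → Fin n // Tuple.sort f = w}) (i : Fin (m + 1)),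
      (f.1 (w i) : ℕ) + e w i < n + asc w := by
    intro f i
    have h1 : e w i ≤ asc w := e_mono w (by have := i.isLt; omega)
    have := (f.1 (w i)).isLt
    omega
  apply Nat.card_eq_of_bijective (fun f : {f : Fin (m + 1) → Fin n // Tuple.sort f = w} =>
    (⟨fun i => ⟨(f.1 (w i) : ℕ) + e w i, hbound f i⟩, fun i j hij =>
      ((sort_iff w f.1).mp f.2) hij⟩ : {g : Fin (m + 1) → Fin (n + asc w) // StrictMono g}))
  constructor
  · intro f f' h
    apply Subtype.ext
    funext j
    have h1 := congrArg (fun g => (g.1 (w.symm j) : ℕ)) h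
    simp only [Equiv.apply_symm_apply] at h1
    apply Fin.ext
    omega
  · rintro ⟨g, hg⟩
    -- `g i - e i` is weakly increasing and `< n`
    have hge : ∀ i : ℕ, ∀ hi : i < m + 1, i ≤ (g ⟨i, hi⟩ : ℕ) := by
      intro i
      induction i with
      | zero => intro _; exact Nat.zero_le _
      | succ i ih =>
        intro hi
        have h1 := ih (by omega)
        have h2 : (g ⟨i, by omega⟩ : ℕ) < g ⟨i + 1, hi⟩ :=
          hg (by rw [Fin.lt_def]; show i < i + 1; omega)
        omega
    have hge' : ∀ i : Fin (m + 1), e w i ≤ g i := fun i => (e_le w i).trans (hge i i.isLt)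
    have hlt : ∀ t : ℕ, ∀ i : Fin (m + 1), (i : ℕ) + t = m → (g i : ℕ) - e w i < n := by
      intro t
      induction t with
      | zero =>
        intro i hi
        have h1 : (i : ℕ) = m := by omega
        have h2 := (g i).isLt
        have h3 := hge' i
        rw [h1] at h3 ⊢
        unfold asc at h2
        omega
      | succ t ih =>
        intro i hi
        have h1 := ih ⟨i + 1, by omega⟩ (by show (i : ℕ) + 1 + t = m; omega)
        have h2 : (g i : ℕ) < g ⟨i + 1, by omega⟩ :=
          hg (by rw [Fin.lt_def]; show (i : ℕ) < i + 1; omega)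
        have h3 := e_succ w i
        have h4 := hge' ⟨i + 1, by omega⟩
        simp only at h1 h4
        split_ifs at h3 <;> omega
    refine ⟨⟨fun j => ⟨(g (w.symm j) : ℕ) - e w (w.symm j), ?_⟩, ?_⟩, ?_⟩
    · exact hlt (m - w.symm j) (w.symm j) (by have := (w.symm j).isLt; omega)
    · rw [sort_iff]
      intro i j hij
      have h1 := hge' i
      have h2 := hge' j
      have h3 : (g i : ℕ) < g j := hg hij
      simp only [Equiv.symm_apply_apply]
      omega
    · apply Subtype.ext
      funext i
      apply Fin.ext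
      have h1 := hge' i
      simp only [Equiv.symm_apply_apply]
      omega

/-- complementing the values -/
lemma asc_rev : asc (w.trans Fin.revPerm) + asc w = m := by
  have h1 : asc (w.trans Fin.revPerm) = ((range m).filter (fun i => ¬ Asc w i)).card := by
    unfold asc e
    congr 1
    apply Finset.filter_congr
    intro i hi
    rw [Finset.mem_range] at hi
    unfold Asc
    constructor
    · rintro ⟨h, h2⟩ ⟨h', h3⟩
      simp only [Equiv.trans_apply, Fin.revPerm_apply, Fin.rev_lt_rev] at h2
      exact absurd h2 (not_lt.mpr h3.le)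
    · intro h
      refine ⟨by omega, ?_⟩
      simp only [Equiv.trans_apply, Fin.revPerm_apply, Fin.rev_lt_rev]
      have h2 : ¬ (w ⟨i, by omega⟩ < w ⟨i + 1, by omega⟩) := fun h3 => h ⟨by omega, h3⟩
      rcases lt_trichotomy (w ⟨i + 1, by omega⟩) (w ⟨i, by omega⟩) with h3 | h3 | h3
      · exact h3
      · exfalso
        have := w.injective h3
        simp at this
      · exact absurd h3 h2
  rw [h1]
  unfold asc e
  rw [add_comm, Finset.card_filter_add_card_filter_not]
  simp

/-- The generating function. -/
lemma gen (s : ℕ) (hs : s ≤ m) :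
    (1 - PowerSeries.X : PowerSeries ℤ) ^ (m + 2) *
      PowerSeries.mk (fun n => (((n + s).choose (m + 1) : ℕ) : ℤ))
      = PowerSeries.X ^ (m + 1 - s) := by
  have h1 : (PowerSeries.mk (fun n => (((n + s).choose (m + 1) : ℕ) : ℤ)) : PowerSeries ℤ)
      = PowerSeries.X ^ (m + 1 - s) *
        PowerSeries.mk (fun n => (((m + 1 + n).choose (m + 1) : ℕ) : ℤ)) := by
    ext n
    rw [PowerSeries.coeff_mk, PowerSeries.coeff_X_pow_mul']
    by_cases h : m + 1 - s ≤ n
    · rw [if_pos h, PowerSeries.coeff_mk]
      have : m + 1 + (n - (m + 1 - s)) = n + s := by omega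
      rw [this]
    · rw [if_neg h, Nat.choose_eq_zero_of_lt (by omega)]
      rfl
  rw [h1]
  have h3 : (PowerSeries.mk (fun n => (((m + 1 + n).choose (m + 1) : ℕ) : ℤ)) : PowerSeries ℤ) *
      (1 - PowerSeries.X) ^ (m + 2) = 1 :=
    PowerSeries.mk_add_choose_mul_one_sub_pow_eq_one ℤ (m + 1)
  calc (1 - PowerSeries.X : PowerSeries ℤ) ^ (m + 2) *
        (PowerSeries.X ^ (m + 1 - s) *
          PowerSeries.mk (fun n => (((m + 1 + n).choose (m + 1) : ℕ) : ℤ)))
      = PowerSeries.X ^ (m + 1 - s) *
        (PowerSeries.mk (fun n => (((m + 1 + n).choose (m + 1) : ℕ) : ℤ)) *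
          (1 - PowerSeries.X) ^ (m + 2)) := by ring
    _ = PowerSeries.X ^ (m + 1 - s) := by rw [h3, mul_one]

end Q160.Worp
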